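import Pool.Agent.AAR.Bas

/-!
# AAR-BadD: large common divisors

PLAN.  `bad_card`: `∑_{d ∈ ds H} ∑_{g ∣ d, g > G²} 1/g ≤ ∑_{G² < g < 4H} (4H/g)(1/g) ≤ 4H/G²`
(`∑_{g > n} 1/g² ≤ 1/n`), and Markov.  `near_card`: if `gcd(d₀,d₁) > G²` then `g = gcd(d₀,d₁)` is a
divisor `> G²` of `d₀` which divides `d₁`; the number of `d₁ ∈ ds H` divisible by `g` is `≤ 4H/g`; sum over
`g`, and `d₀ ∉ bad G H`.
-/

set_option autoImplicit false

namespace Pool.Agent.AAR

private theorem BadD_mult (H g : ℕ) (hg : 1 ≤ g) :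
    (((ds H).filter (fun d => g ∣ d)).card : ℝ) ≤ 4 * H / g := by
  have h1 : (ds H).filter (fun d => g ∣ d) ⊆ (Finset.Ioc 0 (4 * H)).filter (fun d => g ∣ d) := by
    intro d hd
    rw [Finset.mem_filter] at hd ⊢
    have h2 := hd.1
    rw [ds, Finset.mem_Ioo] at h2
    exact ⟨Finset.mem_Ioc.mpr ⟨by omega, by omega⟩, hd.2⟩
  have h2 := Finset.card_le_card h1
  rw [Nat.Ioc_filter_dvd_card_eq_div] at h2
  have h3 : ((4 * H / g : ℕ) : ℝ) ≤ ((4 * H : ℕ) : ℝ) / g := Nat.cast_div_le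
  have h4 : (((ds H).filter (fun d => g ∣ d)).card : ℝ) ≤ ((4 * H / g : ℕ) : ℝ) := by
    exact_mod_cast h2
  push_cast at h3
  linarith

private theorem BadD_sq (n m : ℕ) (hn : 1 ≤ n) :
    ∑ g ∈ Finset.Ioc n m, ((g : ℝ) ^ 2)⁻¹ ≤ 1 / n := by
  rcases Nat.lt_or_ge m n with h | h
  · rw [Finset.Ioc_eq_empty (by omega), Finset.sum_empty]
    positivity
  · have h1 := sum_Ioc_inv_sq_le_sub (α := ℝ) (k := n) (n := m) (by omega) h
    have h2 : (0 : ℝ) ≤ (m : ℝ)⁻¹ := by positivity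
    rw [one_div]
    linarith

theorem bad_card (G H : ℕ) (hG : 1 ≤ G) (hH : 1 ≤ H) : ((bad G H).card : ℝ) ≤ 4 * H / G := by
  classical
  have hG0 : (0 : ℝ) < G := by exact_mod_cast hG
  have h1 : ((bad G H).card : ℝ) * (1 / G) ≤
      ∑ d ∈ ds H, ∑ g ∈ d.divisors.filter (fun g => G ^ 2 < g), (1 : ℝ) / g := by
    have h2 : ((bad G H).card : ℝ) * (1 / G) ≤
        ∑ d ∈ bad G H, ∑ g ∈ d.divisors.filter (fun g => G ^ 2 < g), (1 : ℝ) / g := by
      rw [← nsmul_eq_mul]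
      refine Finset.card_nsmul_le_sum _ _ _ fun d hd => ?_
      unfold bad at hd
      exact (Finset.mem_filter.mp hd).2.le
    refine h2.trans (Finset.sum_le_sum_of_subset_of_nonneg ?_ fun d _ _ => ?_)
    · unfold bad
      exact Finset.filter_subset _ _
    · exact Finset.sum_nonneg fun g _ => by positivity
  have h3 : ∑ d ∈ ds H, ∑ g ∈ d.divisors.filter (fun g => G ^ 2 < g), (1 : ℝ) / g ≤
      ∑ g ∈ Finset.Ioc (G ^ 2) (4 * H), (4 * H : ℝ) * ((g : ℝ) ^ 2)⁻¹ := by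
    have h4 : ∑ d ∈ ds H, ∑ g ∈ d.divisors.filter (fun g => G ^ 2 < g), (1 : ℝ) / g =
        ∑ g ∈ Finset.Ioc (G ^ 2) (4 * H), ∑ _d ∈ (ds H).filter (fun d => g ∣ d), (1 : ℝ) / g := by
      refine Finset.sum_comm' fun d g => ?_
      rw [Finset.mem_filter, Nat.mem_divisors, Finset.mem_filter, Finset.mem_Ioc]
      constructor
      · rintro ⟨hd, ⟨hgd, hd0⟩, hg⟩
        have hd' := hd
        rw [ds, Finset.mem_Ioo] at hd'
        have := Nat.le_of_dvd (by omega) hgd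
        exact ⟨⟨hd, hgd⟩, hg, by omega⟩
      · rintro ⟨⟨hd, hgd⟩, hg, -⟩
        have hd' := hd
        rw [ds, Finset.mem_Ioo] at hd'
        exact ⟨hd, ⟨hgd, by omega⟩, hg⟩
    rw [h4]
    refine Finset.sum_le_sum fun g hg => ?_
    rw [Finset.mem_Ioc] at hg
    have hg1 : 1 ≤ g := by omega
    have hg0 : (0 : ℝ) < g := by exact_mod_cast hg1
    rw [Finset.sum_const, nsmul_eq_mul]
    have h5 := mul_le_mul_of_nonneg_right (BadD_mult H g hg1) (by positivity : (0 : ℝ) ≤ 1 / g)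
    refine h5.trans (le_of_eq ?_)
    field_simp
  rw [← Finset.mul_sum] at h3
  have h6 := BadD_sq (G ^ 2) (4 * H) (Nat.one_le_pow _ _ hG)
  have h7 : (4 * H : ℝ) * ∑ g ∈ Finset.Ioc (G ^ 2) (4 * H), ((g : ℝ) ^ 2)⁻¹ ≤
      (4 * H : ℝ) * (1 / ((G ^ 2 : ℕ) : ℝ)) := mul_le_mul_of_nonneg_left h6 (by positivity)
  have h8 := h1.trans (h3.trans h7)
  have h9 := mul_le_mul_of_nonneg_right h8 hG0.le
  push_cast at h9
  have h10 : ((bad G H).card : ℝ) * (1 / G) * G = (bad G H).card := by field_simp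
  have h11 : (4 * H : ℝ) * (1 / (G : ℝ) ^ 2) * G = 4 * H / G := by field_simp
  rw [h10, h11] at h9
  exact h9

theorem near_card (G H d₀ : ℕ) (hG : 1 ≤ G) (hH : 1 ≤ H) (h : d₀ ∈ ds H) (hb : d₀ ∉ bad G H) :
    (((ds H).filter (fun d₁ => G ^ 2 < Nat.gcd d₀ d₁)).card : ℝ) ≤ 4 * H / G := by
  classical
  have hd0 : d₀ ≠ 0 := by
    rw [ds, Finset.mem_Ioo] at h
    omega
  have h1 : (ds H).filter (fun d₁ => G ^ 2 < Nat.gcd d₀ d₁) ⊆
      (d₀.divisors.filter (fun g => G ^ 2 < g)).biUnion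
        (fun g => (ds H).filter (fun d => g ∣ d)) := by
    intro d hd
    rw [Finset.mem_filter] at hd
    rw [Finset.mem_biUnion]
    refine ⟨Nat.gcd d₀ d, ?_, ?_⟩
    · rw [Finset.mem_filter, Nat.mem_divisors]
      exact ⟨⟨Nat.gcd_dvd_left _ _, hd0⟩, hd.2⟩
    · rw [Finset.mem_filter]
      exact ⟨hd.1, Nat.gcd_dvd_right _ _⟩
  have h2 : (((ds H).filter (fun d₁ => G ^ 2 < Nat.gcd d₀ d₁)).card : ℝ) ≤
      ∑ g ∈ d₀.divisors.filter (fun g => G ^ 2 < g),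
        (((ds H).filter (fun d => g ∣ d)).card : ℝ) := by
    exact_mod_cast (Finset.card_le_card h1).trans Finset.card_biUnion_le
  have h3 : ∑ g ∈ d₀.divisors.filter (fun g => G ^ 2 < g),
        (((ds H).filter (fun d => g ∣ d)).card : ℝ) ≤
      ∑ g ∈ d₀.divisors.filter (fun g => G ^ 2 < g), (4 * H : ℝ) * (1 / g) := by
    refine Finset.sum_le_sum fun g hg => ?_
    rw [Finset.mem_filter] at hg
    have h4 := BadD_mult H g (by omega)
    rw [mul_one_div]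
    exact h4
  rw [← Finset.mul_sum] at h3
  have h5 : ∑ g ∈ d₀.divisors.filter (fun g => G ^ 2 < g), (1 : ℝ) / g ≤ 1 / G := by
    by_contra hcon
    push Not at hcon
    apply hb
    unfold bad
    rw [Finset.mem_filter]
    exact ⟨h, hcon⟩
  have h6 := mul_le_mul_of_nonneg_left h5 (by positivity : (0 : ℝ) ≤ 4 * H)
  rw [mul_one_div] at h6
  exact h2.trans (h3.trans h6)

end Pool.Agent.AAR
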