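import Pool.Agent.AAR.Defs

/-! # AAR-Bas: basic facts on `e(x)` and on the distance to the nearest integer -/

set_option autoImplicit false

namespace Pool.Agent.AAR

theorem ee_add (x y : ℝ) : ee (x + y) = ee x * ee y := by
  simp only [ee, ← Complex.exp_add]
  congr 1
  push_cast
  ring

theorem ee_zero : ee 0 = 1 := by simp [ee]

theorem ee_neg (x : ℝ) : ee (-x) = (ee x)⁻¹ := by
  simp only [ee, ← Complex.exp_neg]
  congr 1
  push_cast
  ring

theorem ee_norm (x : ℝ) : ‖ee x‖ = 1 := by
  rw [ee, Complex.norm_exp_ofReal_mul_I]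

theorem ee_ne_zero (x : ℝ) : ee x ≠ 0 := Complex.exp_ne_zero _

theorem ee_sub (x y : ℝ) : ee (x - y) = ee x * (ee y)⁻¹ := by
  rw [sub_eq_add_neg, ee_add, ee_neg]

theorem ee_conj (x : ℝ) : (starRingEnd ℂ) (ee x) = ee (-x) := by
  rw [ee, ee, ← Complex.exp_conj]
  congr 1
  rw [map_mul, Complex.conj_ofReal, Complex.conj_I]
  push_cast
  ring

theorem ee_int (n : ℤ) : ee n = 1 := by
  rw [ee, Complex.exp_eq_one_iff]
  exact ⟨n, by push_cast; ring⟩

theorem ee_add_int (x : ℝ) (n : ℤ) : ee (x + n) = ee x := by rw [ee_add, ee_int, mul_one]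

theorem ee_sub_int (x : ℝ) (n : ℤ) : ee (x - n) = ee x := by
  have := ee_add_int (x - n) n
  rw [← this]
  congr 1
  ring

theorem ee_nsmul (k : ℕ) (x : ℝ) : ee (k * x) = ee x ^ k := by
  rw [ee, ee, ← Complex.exp_nat_mul]
  congr 1
  push_cast
  ring

theorem ee_cont : Continuous ee := by
  unfold ee
  fun_prop

theorem nint_nonneg (x : ℝ) : 0 ≤ nint x := abs_nonneg _

theorem nint_le_half (x : ℝ) : nint x ≤ 1 / 2 := abs_sub_round x

theorem nint_le (x : ℝ) (n : ℤ) : nint x ≤ |x - n| := round_le x n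

theorem nint_neg (x : ℝ) : nint (-x) = nint x := by
  apply le_antisymm
  · refine (nint_le (-x) (-round x)).trans (le_of_eq ?_)
    rw [nint]
    push_cast
    rw [← abs_neg]
    congr 1
    ring
  · refine (nint_le x (-round (-x))).trans (le_of_eq ?_)
    rw [nint]
    push_cast
    rw [← abs_neg]
    congr 1
    ring

theorem nint_add_int (x : ℝ) (n : ℤ) : nint (x + n) = nint x := by
  rw [nint, nint, round_add_intCast]
  congr 1
  push_cast
  ring

theorem nint_sub_int (x : ℝ) (n : ℤ) : nint (x - n) = nint x := by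
  rw [nint, nint, round_sub_intCast]
  congr 1
  push_cast
  ring

theorem nint_add (x y : ℝ) : nint (x + y) ≤ nint x + nint y := by
  refine (nint_le (x + y) (round x + round y)).trans ?_
  rw [nint, nint]
  refine le_trans (le_of_eq ?_) (abs_add_le _ _)
  congr 1
  push_cast
  ring

theorem nint_sub (x y : ℝ) : nint (x - y) ≤ nint x + nint y := by
  rw [sub_eq_add_neg, ← nint_neg y]
  exact nint_add _ _

theorem nint_mul_int (k : ℤ) (x : ℝ) : nint (k * x) ≤ |(k : ℝ)| * nint x := by
  refine (nint_le (k * x) (k * round x)).trans (le_of_eq ?_)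
  rw [nint, ← abs_mul]
  congr 1
  push_cast
  ring

theorem nint_mul_nat (k : ℕ) (x : ℝ) : nint (k * x) ≤ k * nint x := by
  have := nint_mul_int k x
  simpa using this

theorem nint_eq (x : ℝ) (n : ℤ) (h : |x - n| ≤ 1 / 2) : nint x = |x - n| := by
  apply le_antisymm (nint_le x n)
  by_contra hc
  push Not at hc
  have h1 : |x - round x| < 1 / 2 := lt_of_lt_of_le hc h
  have h2 : |(round x : ℝ) - n| < 1 := by
    calc |(round x : ℝ) - n| = |(x - n) - (x - round x)| := by congr 1; ring
      _ ≤ |x - n| + |x - round x| := abs_sub _ _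
      _ < 1 := by linarith
  have h3 : round x = n := by
    have : |round x - n| < 1 := by exact_mod_cast h2
    rw [Int.abs_lt_one_iff] at this
    omega
  rw [nint, h3] at hc
  exact lt_irrefl _ hc

theorem nint_abs (x : ℝ) : nint x ≤ |x| := by simpa using nint_le x 0

theorem exists_int (x : ℝ) : ∃ n : ℤ, nint x = |x - n| := ⟨round x, rfl⟩

/-- `ee x` depends on `x` modulo 1 only -/
theorem ee_sub_round (x : ℝ) : ee (x - round x) = ee x := ee_sub_int x _

theorem norm_ee_sub_one (x : ℝ) : ‖ee x - 1‖ ≤ 2 * Real.pi * nint x := by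
  rw [← ee_sub_round x, nint]
  set y := x - round x
  have h := Real.norm_exp_I_mul_ofReal_sub_one_le (x := 2 * Real.pi * y)
  rw [ee, mul_comm _ Complex.I]
  refine h.trans (le_of_eq ?_)
  rw [Real.norm_eq_abs, abs_mul, abs_of_pos (by positivity)]

end Pool.Agent.AAR
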