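import Pool.Agent.AAR.Bas

/-!
# AAR-BonA: sixth moments of `A + B`, `B` of mean zero

PLAN.  `|A+B|² = |A|² + ρ`, `ρ = 2 Re(conj A · B) + |B|²`; `∑ ρ_i = ∑ |B_i|²`;
`|A+B|⁶ = |A|⁶ + 3|A|⁴ρ + 3|A|²ρ² + ρ³`, `ρ² ≤ 8|A|²|B|² + 2|B|⁴`,
`ρ³ ≤ (2|A||B| + |B|²)³ ≤ 4(8|A|³|B|³ + |B|⁶)`, `|A|³|B|³ ≤ (|A|⁴|B|² + |A|²|B|⁴)/2`.
-/

set_option autoImplicit false

namespace Pool.Agent.AAR

private theorem BonA_real (α β r : ℝ) (hα : 0 ≤ α) (hβ : 0 ≤ β) (h1 : r ≤ 2 * α * β)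
    (h2 : -(2 * α * β) ≤ r) :
    (α ^ 2 + r + β ^ 2) ^ 3 ≤ α ^ 6 + 3 * α ^ 4 * r + 43 * α ^ 4 * β ^ 2 + 22 * α ^ 2 * β ^ 4 +
      4 * β ^ 6 := by
  have hr2 : r ^ 2 ≤ 4 * α ^ 2 * β ^ 2 := by nlinarith [mul_nonneg hα hβ]
  have hρ2 : (r + β ^ 2) ^ 2 ≤ 8 * α ^ 2 * β ^ 2 + 2 * β ^ 4 := by
    nlinarith [sq_nonneg (r - β ^ 2)]
  have hρ3 : (r + β ^ 2) ^ 3 ≤ (2 * α * β + β ^ 2) ^ 3 :=
    (Odd.pow_le_pow (by decide)).2 (by linarith)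
  have hpol : (2 * α * β + β ^ 2) ^ 3 ≤ 16 * α ^ 4 * β ^ 2 + 16 * α ^ 2 * β ^ 4 + 4 * β ^ 6 := by
    have h3 : 16 * α ^ 4 * β ^ 2 + 16 * α ^ 2 * β ^ 4 + 4 * β ^ 6 - (2 * α * β + β ^ 2) ^ 3 =
        β ^ 2 * ((4 * α ^ 2 - α * β) ^ 2 + 3 * β ^ 2 * (α - β) ^ 2) := by ring
    have h4 : 0 ≤ β ^ 2 * ((4 * α ^ 2 - α * β) ^ 2 + 3 * β ^ 2 * (α - β) ^ 2) := by positivity
    linarith
  have h5 : 3 * α ^ 2 * (r + β ^ 2) ^ 2 ≤ 3 * α ^ 2 * (8 * α ^ 2 * β ^ 2 + 2 * β ^ 4) :=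
    mul_le_mul_of_nonneg_left hρ2 (by positivity)
  have h6 : (α ^ 2 + r + β ^ 2) ^ 3 = α ^ 6 + 3 * α ^ 4 * (r + β ^ 2) +
      3 * α ^ 2 * (r + β ^ 2) ^ 2 + (r + β ^ 2) ^ 3 := by ring
  rw [h6]
  nlinarith [h5, hρ3, hpol]

private theorem BonA_point (A B : ℂ) :
    ‖A + B‖ ^ 6 ≤ ‖A‖ ^ 6 + 3 * ‖A‖ ^ 4 * (2 * (A * (starRingEnd ℂ) B).re) +
      43 * ‖A‖ ^ 4 * ‖B‖ ^ 2 + 22 * ‖A‖ ^ 2 * ‖B‖ ^ 4 + 4 * ‖B‖ ^ 6 := by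
  have h1 : ‖A + B‖ ^ 2 = ‖A‖ ^ 2 + 2 * (A * (starRingEnd ℂ) B).re + ‖B‖ ^ 2 := by
    rw [← Complex.normSq_eq_norm_sq, ← Complex.normSq_eq_norm_sq, ← Complex.normSq_eq_norm_sq,
      Complex.normSq_add]
    ring
  have h2 : |(A * (starRingEnd ℂ) B).re| ≤ ‖A‖ * ‖B‖ := by
    refine (Complex.abs_re_le_norm _).trans ?_
    rw [norm_mul, RCLike.norm_conj]
  have h3 := abs_le.1 h2
  have h4 : ‖A + B‖ ^ 6 = (‖A + B‖ ^ 2) ^ 3 := by ring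
  rw [h4, h1]
  exact BonA_real ‖A‖ ‖B‖ _ (norm_nonneg _) (norm_nonneg _) (by linarith [h3.2])
    (by linarith [h3.1])

theorem six (n : ℕ) (A : ℂ) (B : ℕ → ℂ) (hB : ∑ i ∈ Finset.range n, B i = 0) :
    ∑ i ∈ Finset.range n, ‖A + B i‖ ^ 6 ≤ n * ‖A‖ ^ 6 +
      43 * ‖A‖ ^ 4 * ∑ i ∈ Finset.range n, ‖B i‖ ^ 2 +
      22 * ‖A‖ ^ 2 * ∑ i ∈ Finset.range n, ‖B i‖ ^ 4 + 4 * ∑ i ∈ Finset.range n, ‖B i‖ ^ 6 := by
  have h1 : ∑ i ∈ Finset.range n, (A * (starRingEnd ℂ) (B i)).re = 0 := by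
    rw [← Complex.re_sum, ← Finset.mul_sum, ← map_sum, hB, map_zero, mul_zero, Complex.zero_re]
  have h2 : ∑ i ∈ Finset.range n, ‖A + B i‖ ^ 6 ≤ ∑ i ∈ Finset.range n,
      (‖A‖ ^ 6 + 3 * ‖A‖ ^ 4 * (2 * (A * (starRingEnd ℂ) (B i)).re) +
      43 * ‖A‖ ^ 4 * ‖B i‖ ^ 2 + 22 * ‖A‖ ^ 2 * ‖B i‖ ^ 4 + 4 * ‖B i‖ ^ 6) :=
    Finset.sum_le_sum fun i _ => BonA_point A (B i)
  refine h2.trans (le_of_eq ?_)
  rw [Finset.sum_add_distrib, Finset.sum_add_distrib, Finset.sum_add_distrib,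
    Finset.sum_add_distrib, Finset.sum_const, Finset.card_range, nsmul_eq_mul,
    ← Finset.mul_sum, ← Finset.mul_sum, ← Finset.mul_sum, ← Finset.mul_sum, ← Finset.mul_sum, h1]
  ring

private theorem BonA_hold {ι : Type*} (I : Finset ι) (x y : ι → ℝ) (a b : ℝ) (ha : 0 ≤ a)
    (hb : 0 ≤ b) (hx0 : ∀ i ∈ I, 0 ≤ x i) (hy0 : ∀ i ∈ I, 0 ≤ y i)
    (hx : ∑ i ∈ I, x i ^ 3 ≤ I.card * a ^ 3) (hy : ∑ i ∈ I, y i ^ 3 ≤ I.card * b ^ 3) :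
    ∑ i ∈ I, x i ^ 2 * y i ≤ I.card * (a ^ 2 * b) := by
  rcases ha.eq_or_lt with ha' | ha'
  · have h1 : ∀ i ∈ I, x i ^ 3 = 0 := by
      have h2 : ∑ i ∈ I, x i ^ 3 = 0 := by
        refine le_antisymm ?_ (Finset.sum_nonneg fun i hi => pow_nonneg (hx0 i hi) 3)
        rw [← ha'] at hx
        simpa using hx
      exact (Finset.sum_eq_zero_iff_of_nonneg fun i hi => pow_nonneg (hx0 i hi) 3).1 h2
    have h3 : ∑ i ∈ I, x i ^ 2 * y i = 0 := by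
      refine Finset.sum_eq_zero fun i hi => ?_
      have h4 : x i = 0 := by
        have := h1 i hi
        exact pow_eq_zero_iff (by norm_num) |>.1 this
      rw [h4]
      ring
    rw [h3]
    positivity
  rcases hb.eq_or_lt with hb' | hb'
  · have h1 : ∀ i ∈ I, y i ^ 3 = 0 := by
      have h2 : ∑ i ∈ I, y i ^ 3 = 0 := by
        refine le_antisymm ?_ (Finset.sum_nonneg fun i hi => pow_nonneg (hy0 i hi) 3)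
        rw [← hb'] at hy
        simpa using hy
      exact (Finset.sum_eq_zero_iff_of_nonneg fun i hi => pow_nonneg (hy0 i hi) 3).1 h2
    have h3 : ∑ i ∈ I, x i ^ 2 * y i = 0 := by
      refine Finset.sum_eq_zero fun i hi => ?_
      have h4 : y i = 0 := by
        have := h1 i hi
        exact pow_eq_zero_iff (by norm_num) |>.1 this
      rw [h4]
      ring
    rw [h3]
    positivity
  have key : ∀ u v : ℝ, 0 ≤ u → 0 ≤ v → 3 * (u ^ 2 * v) ≤ 2 * u ^ 3 + v ^ 3 := by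
    intro u v hu hv
    have h1 : 2 * u ^ 3 + v ^ 3 - 3 * (u ^ 2 * v) = (u - v) ^ 2 * (2 * u + v) := by ring
    have h2 : 0 ≤ (u - v) ^ 2 * (2 * u + v) := by positivity
    linarith
  have h1 : ∑ i ∈ I, 3 * ((x i * b) ^ 2 * (y i * a)) ≤
      ∑ i ∈ I, (2 * (x i * b) ^ 3 + (y i * a) ^ 3) :=
    Finset.sum_le_sum fun i hi =>
      key _ _ (mul_nonneg (hx0 i hi) hb) (mul_nonneg (hy0 i hi) ha)
  have h2 : ∑ i ∈ I, 3 * ((x i * b) ^ 2 * (y i * a)) =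
      3 * (a * b ^ 2) * ∑ i ∈ I, x i ^ 2 * y i := by
    rw [Finset.mul_sum]
    exact Finset.sum_congr rfl fun i _ => by ring
  have h3 : ∑ i ∈ I, (2 * (x i * b) ^ 3 + (y i * a) ^ 3) =
      2 * b ^ 3 * ∑ i ∈ I, x i ^ 3 + a ^ 3 * ∑ i ∈ I, y i ^ 3 := by
    rw [Finset.sum_add_distrib, Finset.mul_sum, Finset.mul_sum]
    congr 1 <;> exact Finset.sum_congr rfl fun i _ => by ring
  rw [h2, h3] at h1
  have h4 : 2 * b ^ 3 * ∑ i ∈ I, x i ^ 3 ≤ 2 * b ^ 3 * (I.card * a ^ 3) :=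
    mul_le_mul_of_nonneg_left hx (by positivity)
  have h5 : a ^ 3 * ∑ i ∈ I, y i ^ 3 ≤ a ^ 3 * (I.card * b ^ 3) :=
    mul_le_mul_of_nonneg_left hy (by positivity)
  have h6 : (a * b ^ 2) * ∑ i ∈ I, x i ^ 2 * y i ≤ (a * b ^ 2) * (I.card * (a ^ 2 * b)) := by
    have h7 : 3 * ((a * b ^ 2) * ∑ i ∈ I, x i ^ 2 * y i) ≤
        3 * ((a * b ^ 2) * (I.card * (a ^ 2 * b))) := by
      calc 3 * ((a * b ^ 2) * ∑ i ∈ I, x i ^ 2 * y i)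
          = 3 * (a * b ^ 2) * ∑ i ∈ I, x i ^ 2 * y i := by ring
        _ ≤ 2 * b ^ 3 * (I.card * a ^ 3) + a ^ 3 * (I.card * b ^ 3) := by linarith
        _ = 3 * ((a * b ^ 2) * (I.card * (a ^ 2 * b))) := by ring
    linarith
  exact le_of_mul_le_mul_left h6 (by positivity)

/-- Hoelder: if `E|A|⁶ ≤ a³`, `E|B|⁶ ≤ b³` (sums over a finite set of `M` elements) then the right
side of `six`, summed, is at most `M (a + 15 b)³` -/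
theorem six_hoelder {ι : Type*} (I : Finset ι) (A B : ι → ℝ) (a b : ℝ) (ha : 0 ≤ a) (hb : 0 ≤ b)
    (hA0 : ∀ i ∈ I, 0 ≤ A i) (hB0 : ∀ i ∈ I, 0 ≤ B i)
    (hA : ∑ i ∈ I, A i ^ 6 ≤ I.card * a ^ 3) (hB : ∑ i ∈ I, B i ^ 6 ≤ I.card * b ^ 3) :
    ∑ i ∈ I, (A i ^ 6 + 43 * A i ^ 4 * B i ^ 2 + 22 * A i ^ 2 * B i ^ 4 + 4 * B i ^ 6) ≤
      I.card * (a + 15 * b) ^ 3 := by
  have hA' : ∑ i ∈ I, (A i ^ 2) ^ 3 ≤ I.card * a ^ 3 := by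
    refine le_trans (le_of_eq ?_) hA
    exact Finset.sum_congr rfl fun i _ => by ring
  have hB' : ∑ i ∈ I, (B i ^ 2) ^ 3 ≤ I.card * b ^ 3 := by
    refine le_trans (le_of_eq ?_) hB
    exact Finset.sum_congr rfl fun i _ => by ring
  have h1 := BonA_hold I (fun i => A i ^ 2) (fun i => B i ^ 2) a b ha hb
    (fun i _ => sq_nonneg _) (fun i _ => sq_nonneg _) hA' hB'
  have h2 := BonA_hold I (fun i => B i ^ 2) (fun i => A i ^ 2) b a hb ha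
    (fun i _ => sq_nonneg _) (fun i _ => sq_nonneg _) hB' hA'
  have h3 : ∑ i ∈ I, (A i ^ 6 + 43 * A i ^ 4 * B i ^ 2 + 22 * A i ^ 2 * B i ^ 4 + 4 * B i ^ 6) =
      ∑ i ∈ I, A i ^ 6 + 43 * ∑ i ∈ I, (A i ^ 2) ^ 2 * B i ^ 2 +
        22 * ∑ i ∈ I, (B i ^ 2) ^ 2 * A i ^ 2 + 4 * ∑ i ∈ I, B i ^ 6 := by
    rw [Finset.mul_sum, Finset.mul_sum, Finset.mul_sum, ← Finset.sum_add_distrib,
      ← Finset.sum_add_distrib, ← Finset.sum_add_distrib]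
    exact Finset.sum_congr rfl fun i _ => by ring
  rw [h3]
  have h4 : (I.card : ℝ) * (a + 15 * b) ^ 3 = I.card * a ^ 3 + 45 * (I.card * (a ^ 2 * b)) +
      675 * (I.card * (b ^ 2 * a)) + 3375 * (I.card * b ^ 3) := by ring
  have h5 : 0 ≤ (I.card : ℝ) * (a ^ 2 * b) := by positivity
  have h6 : 0 ≤ (I.card : ℝ) * (b ^ 2 * a) := by positivity
  have h7 : 0 ≤ (I.card : ℝ) * b ^ 3 := by positivity
  rw [h4]
  linarith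

end Pool.Agent.AAR
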