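import Pool.Agent.AAR.BonA

/-!
# AAR-BonB: a sixth moment inequality for exponential sums with rational frequencies

PLAN.  Strong induction on `Q` (for all `r`, `a`).  `Q = 1`: equality.  Let `p ∣ Q` prime,
`Q = p^m Q'`, `p ∤ Q'`, `Q₀ = Q/p`.  `U = A + B`, `A(z)` = sum over the divisors `s` of `Q` with `s ∣ Q₀`, `B(z)` = sum
over the others (`p^m ∣ s`, i.e. `s = p^m s'`, `s' ∣ Q'`).  `A` is `Q₀`-periodic and
`∑_{i<p} B(z + Q₀ i) = 0` (each term: `e(r_s Q₀ i/s) = e(r_s (Q'/s') i/p)`, and `p ∤ r_s Q'/s'`).  Write `z = z₀ + Q₀ i`, `z₀ < Q₀`, `i < p`; `six`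
for each `z₀`, then `six_hoelder` over all `z < Q` (with `A_i = |A(z)|`, `B_i = |B(z)|`;
`∑_z |A|⁴|B|²` is the sum of the `six` terms as `A` does not depend on `i`).
`A`: induction hypothesis for `Q₀` (and periodicity): `a = ∑_{s ∣ Q₀} 15^ω |a_s|²`.
`B`: `z ↔ (y, w)`, `y = z mod p^m`, `w = z mod Q'` (bijection of `range Q`, CRT), `r_s/s ≡ α_s/p^m + r'_s/s'`
mod 1 with `gcd(r'_s, s') = 1`; so `e(r_s z/s) = e(α_s y/p^m) e(r'_s w/s')` and for fixed `y` the induction
hypothesis for `Q'` with coefficients `a_s e(α_s y/p^m)` gives `b = ∑ 15^(ω(s)-1) |a_s|²`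
(`ω(p^m s') = ω(s') + 1`).  Finally `a + 15 b` is the right side.
-/

set_option autoImplicit false

namespace Pool.Agent.AAR

private lemma bb_per (s M : ℕ) (hs : s ∣ M) (hM : M ≠ 0) (c : ℤ) (z k : ℕ) :
    ee ((c : ℝ) * ((z + M * k : ℕ) : ℝ) / s) = ee ((c : ℝ) * z / s) := by
  obtain ⟨t, rfl⟩ := hs
  have hs0 : (s : ℝ) ≠ 0 := by
    have : s ≠ 0 := fun h => hM (by rw [h, zero_mul])
    exact_mod_cast this
  have h1 : (c : ℝ) * ((z + s * t * k : ℕ) : ℝ) / s = (c : ℝ) * z / s + ((c * t * k : ℤ) : ℝ) := by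
    push_cast
    field_simp
  rw [h1, ee_add_int]

private lemma bb_split (Q0 p : ℕ) (G : ℕ → ℝ) :
    ∑ z ∈ Finset.range (Q0 * p), G z =
      ∑ z0 ∈ Finset.range Q0, ∑ i ∈ Finset.range p, G (z0 + Q0 * i) := by
  induction p with
  | zero => simp
  | succ p ih =>
    rw [Nat.mul_succ, Finset.sum_range_add, ih]
    simp only [Finset.sum_range_succ]
    rw [Finset.sum_add_distrib]
    congr 1
    apply Finset.sum_congr rfl
    intro x _
    rw [add_comm]

private lemma bb_crt (P R : ℕ) (hc : Nat.Coprime P R) (hP : 0 < P) (hR : 0 < R) (G : ℕ → ℝ)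
    (hG : ∀ z k : ℕ, G (z + P * R * k) = G z) :
    ∑ z ∈ Finset.range (P * R), G z =
      ∑ y ∈ Finset.range P, ∑ w ∈ Finset.range R, G (R * y + P * w) := by
  have hmod : ∀ z : ℕ, G (z % (P * R)) = G z := by
    intro z
    conv_rhs => rw [← Nat.mod_add_div z (P * R)]
    rw [hG]
  rw [← Finset.sum_product']
  have hpos : 0 < P * R := Nat.mul_pos hP hR
  symm
  have hmaps : Set.MapsTo (fun x : ℕ × ℕ => (R * x.1 + P * x.2) % (P * R))
      (↑(Finset.range P ×ˢ Finset.range R) : Set (ℕ × ℕ)) (↑(Finset.range (P * R)) : Set ℕ) := by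
    intro x _
    simp only [Finset.coe_range, Set.mem_Iio]
    exact Nat.mod_lt _ hpos
  have hinj : Set.InjOn (fun x : ℕ × ℕ => (R * x.1 + P * x.2) % (P * R))
      (↑(Finset.range P ×ˢ Finset.range R) : Set (ℕ × ℕ)) := by
    rintro ⟨y, w⟩ h1 ⟨y', w'⟩ h2 h
    simp only [Finset.coe_product, Finset.coe_range, Set.mem_prod, Set.mem_Iio] at h1 h2
    have hm : R * y + P * w ≡ R * y' + P * w' [MOD P * R] := h
    have hy : y = y' := by
      have e1 : R * y + P * w ≡ R * y' + P * w' [MOD P] := hm.of_dvd (Dvd.intro _ rfl)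
      have e2 : R * y ≡ R * y' [MOD P] := by
        have a1 : R * y + P * w ≡ R * y [MOD P] := by
          simp [Nat.ModEq]
        have a2 : R * y' + P * w' ≡ R * y' [MOD P] := by
          simp [Nat.ModEq]
        exact a1.symm.trans (e1.trans a2)
      have e3 : y ≡ y' [MOD P] := Nat.ModEq.cancel_left_of_coprime hc e2
      exact Nat.ModEq.eq_of_lt_of_lt e3 h1.1 h2.1
    have hw : w = w' := by
      have e1 : R * y + P * w ≡ R * y' + P * w' [MOD R] := hm.of_dvd (Dvd.intro_left _ rfl)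
      have e2 : P * w ≡ P * w' [MOD R] := by
        have a1 : R * y + P * w ≡ P * w [MOD R] := by
          simp [Nat.ModEq]
        have a2 : R * y' + P * w' ≡ P * w' [MOD R] := by
          simp [Nat.ModEq]
        exact a1.symm.trans (e1.trans a2)
      have e3 : w ≡ w' [MOD R] := Nat.ModEq.cancel_left_of_coprime hc.symm e2
      exact Nat.ModEq.eq_of_lt_of_lt e3 h1.2 h2.2
    rw [hy, hw]
  apply Finset.sum_nbij (fun x : ℕ × ℕ => (R * x.1 + P * x.2) % (P * R))
  · intro x hx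
    exact hmaps hx
  · exact hinj
  · apply Finset.surjOn_of_injOn_of_card_le _ hmaps hinj
    simp
  · intro x _
    exact (hmod _).symm

private lemma bb_div {M : Type*} [AddCommMonoid M] (p k R : ℕ) (hp : p.Prime) (hR : R ≠ 0)
    (hpR : ¬ p ∣ R) (f : ℕ → M) :
    ∑ s ∈ (p ^ (k + 1) * R).divisors, f s =
      ∑ s ∈ (p ^ k * R).divisors, f s + ∑ s ∈ R.divisors, f (p ^ (k + 1) * s) := by
  have hpk : ∀ j : ℕ, p ^ j ≠ 0 := fun j => pow_ne_zero _ hp.ne_zero
  have hU : (p ^ (k + 1) * R).divisors =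
      (p ^ k * R).divisors ∪ R.divisors.image (fun s => p ^ (k + 1) * s) := by
    ext s
    simp only [Finset.mem_union, Nat.mem_divisors, Finset.mem_image]
    constructor
    · rintro ⟨h, -⟩
      obtain ⟨s1, s2, h1, h2, rfl⟩ := (Nat.dvd_mul).1 h
      obtain ⟨j, hj, rfl⟩ := (Nat.dvd_prime_pow hp).1 h1
      rcases Nat.lt_or_ge j (k + 1) with hlt | hge
      · left
        exact ⟨mul_dvd_mul (pow_dvd_pow _ (by omega)) h2, mul_ne_zero (hpk _) hR⟩
      · right
        have : j = k + 1 := le_antisymm hj hge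
        subst this
        exact ⟨s2, ⟨h2, hR⟩, rfl⟩
    · rintro (⟨h, -⟩ | ⟨s', ⟨h, -⟩, rfl⟩)
      · exact ⟨h.trans (mul_dvd_mul (pow_dvd_pow _ (by omega)) dvd_rfl),
          mul_ne_zero (hpk _) hR⟩
      · exact ⟨mul_dvd_mul dvd_rfl h, mul_ne_zero (hpk _) hR⟩
  have hD : Disjoint (p ^ k * R).divisors (R.divisors.image (fun s => p ^ (k + 1) * s)) := by
    rw [Finset.disjoint_left]
    intro s h1 h2
    rw [Nat.mem_divisors] at h1
    rw [Finset.mem_image] at h2
    obtain ⟨s', -, rfl⟩ := h2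
    have h3 : p ^ (k + 1) ∣ p ^ k * R := (Dvd.intro _ rfl).trans h1.1
    rw [pow_succ] at h3
    exact hpR (Nat.dvd_of_mul_dvd_mul_left (Nat.pos_of_ne_zero (hpk k)) h3)
  rw [hU, Finset.sum_union hD, Finset.sum_image]
  intro x _ y _ h
  exact Nat.eq_of_mul_eq_mul_left (Nat.pos_of_ne_zero (hpk (k + 1))) h

private lemma bb_zero (p : ℕ) (hp : p.Prime) (c : ℤ) (hc : ¬ (p : ℤ) ∣ c) :
    ∑ i ∈ Finset.range p, ee ((c : ℝ) * i / p) = 0 := by
  have hp0 : (p : ℝ) ≠ 0 := by exact_mod_cast hp.ne_zero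
  have h1 : ∀ i : ℕ, ee ((c : ℝ) * i / p) = ee ((c : ℝ) / p) ^ i := by
    intro i
    rw [← ee_nsmul]
    congr 1
    ring
  simp only [h1]
  have hne : ee ((c : ℝ) / p) ≠ 1 := by
    intro h
    rw [ee, Complex.exp_eq_one_iff] at h
    obtain ⟨n, hn⟩ := h
    have h2 : (((2 * Real.pi * ((c : ℝ) / p) : ℝ)) : ℂ) = ((n * (2 * Real.pi) : ℝ) : ℂ) := by
      have hI : Complex.I ≠ 0 := Complex.I_ne_zero
      apply mul_right_cancel₀ hI
      rw [hn]
      push_cast
      ring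
    have h3 : 2 * Real.pi * ((c : ℝ) / p) = n * (2 * Real.pi) := by exact_mod_cast h2
    have hpi : (2 * Real.pi) ≠ 0 := by positivity
    have h4 : (c : ℝ) / p = n := by
      apply mul_left_cancel₀ hpi
      rw [h3]
      ring
    rw [div_eq_iff hp0] at h4
    have h5 : c = n * p := by exact_mod_cast h4
    exact hc ⟨n, by rw [h5]; ring⟩
  rw [geom_sum_eq hne, ← ee_nsmul]
  have : (p : ℝ) * ((c : ℝ) / p) = (c : ℤ) := by field_simp
  rw [this, ee_int, sub_self, zero_div]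

theorem bonami (Q : ℕ) (hQ : 1 ≤ Q) (r : ℕ → ℤ)
    (hr : ∀ s ∈ Q.divisors, IsCoprime (r s) (s : ℤ)) (a : ℕ → ℂ) :
    (∑ z ∈ Finset.range Q, ‖∑ s ∈ Q.divisors, a s * ee ((r s : ℝ) * z / s)‖ ^ 6) / Q ≤
      (∑ s ∈ Q.divisors, (15 : ℝ) ^ s.primeFactors.card * ‖a s‖ ^ 2) ^ 3 := by
  induction Q using Nat.strong_induction_on generalizing r a with
  | _ Q ih =>
  rcases Nat.eq_or_lt_of_le hQ with h1 | h1
  · subst h1
    simp [ee_zero]
    exact le_of_eq (by ring)
  obtain ⟨p, hp, hpQ⟩ := Nat.exists_prime_and_dvd (n := Q) (by omega)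
  obtain ⟨m, R, hpR, hQe⟩ := Nat.exists_eq_pow_mul_and_not_dvd (n := Q) (by omega) p hp.ne_one
  have hm : m ≠ 0 := by
    rintro rfl
    rw [pow_zero, one_mul] at hQe
    exact hpR (hQe ▸ hpQ)
  obtain ⟨k, rfl⟩ := Nat.exists_eq_succ_of_ne_zero hm
  rw [Nat.succ_eq_add_one] at hQe
  have hR0 : R ≠ 0 := by
    rintro rfl
    omega
  have hRpos : 0 < R := Nat.pos_of_ne_zero hR0
  subst hQe
  have hPpos : 0 < p ^ (k + 1) := pow_pos hp.pos _
  have hPkpos : 0 < p ^ k := pow_pos hp.pos _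
  have hQ0pos : 0 < p ^ k * R := Nat.mul_pos hPkpos hRpos
  have hQmul : p ^ (k + 1) * R = p ^ k * R * p := by ring
  have hcop : Nat.Coprime (p ^ (k + 1)) R :=
    Nat.Coprime.pow_left _ ((Nat.Prime.coprime_iff_not_dvd hp).2 hpR)
  set Q := p ^ (k + 1) * R with hQdef
  set Q0 := p ^ k * R with hQ0def
  set P := p ^ (k + 1) with hPdef
  have hdiv : ∀ {M : Type} [AddCommMonoid M] (f : ℕ → M), ∑ s ∈ Q.divisors, f s =
      ∑ s ∈ Q0.divisors, f s + ∑ s ∈ R.divisors, f (P * s) := by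
    intro M _ f
    exact bb_div p k R hp hR0 hpR f
  clear_value Q Q0 P
  have hQpos : 0 < Q := by omega
  have hQR : (0 : ℝ) < Q := by exact_mod_cast hQpos
  have hQ0R : (0 : ℝ) < Q0 := by exact_mod_cast hQ0pos
  have hRR : (0 : ℝ) < R := by exact_mod_cast hRpos
  have hPR : (0 : ℝ) < P := by exact_mod_cast hPpos
  -- the two parts
  set A : ℕ → ℂ := fun z => ∑ s ∈ Q0.divisors, a s * ee ((r s : ℝ) * z / s) with hA
  set B : ℕ → ℂ := fun z => ∑ s ∈ R.divisors,
    a (P * s) * ee ((r (P * s) : ℝ) * z / ((P * s : ℕ) : ℝ)) with hB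
  have hAB : ∀ z : ℕ, ∑ s ∈ Q.divisors, a s * ee ((r s : ℝ) * z / s) = A z + B z := by
    intro z
    rw [hdiv]
  have hQ0dvd : Q0 ∣ Q := ⟨p, hQmul⟩
  have hQ0lt : Q0 < Q := by
    rw [hQmul]
    exact (Nat.lt_mul_iff_one_lt_right hQ0pos).2 hp.one_lt
  have hRlt : R < Q := by
    rw [hQdef]
    refine (Nat.lt_mul_iff_one_lt_left hRpos).2 ?_
    rw [hPdef]
    exact Nat.one_lt_pow (Nat.succ_ne_zero k) hp.one_lt
  have hAper : ∀ z i : ℕ, A (z + Q0 * i) = A z := by
    intro z i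
    simp only [hA]
    apply Finset.sum_congr rfl
    intro s hs
    rw [bb_per s Q0 (Nat.dvd_of_mem_divisors hs) (by omega)]
  have hPs : ∀ s ∈ R.divisors, P * s ∣ Q := by
    intro s hs
    rw [hQdef]
    exact mul_dvd_mul dvd_rfl (Nat.dvd_of_mem_divisors hs)
  have hBper : ∀ z i : ℕ, B (z + Q * i) = B z := by
    intro z i
    simp only [hB]
    apply Finset.sum_congr rfl
    intro s hs
    rw [bb_per (P * s) Q (hPs s hs) (by omega)]
  have hrP : ∀ s ∈ R.divisors, IsCoprime (r (P * s)) ((P * s : ℕ) : ℤ) := by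
    intro s hs
    exact hr _ (Nat.mem_divisors.2 ⟨hPs s hs, by omega⟩)
  -- mean zero
  have hB0 : ∀ z : ℕ, ∑ i ∈ Finset.range p, B (z + Q0 * i) = 0 := by
    intro z
    simp only [hB]
    rw [Finset.sum_comm]
    apply Finset.sum_eq_zero
    intro s hs
    obtain ⟨t, ht⟩ := Nat.dvd_of_mem_divisors hs
    have hs0 : s ≠ 0 := by
      rintro rfl
      rw [zero_mul] at ht
      exact hR0 ht
    have ht0 : t ≠ 0 := by
      rintro rfl
      rw [mul_zero] at ht
      exact hR0 ht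
    have hsR : (s : ℝ) ≠ 0 := by exact_mod_cast hs0
    have hpR' : (p : ℝ) ≠ 0 := by exact_mod_cast hp.ne_zero
    have hpk' : (p : ℝ) ^ k ≠ 0 := pow_ne_zero _ hpR'
    have e1 : ∀ i : ℕ, a (P * s) * ee ((r (P * s) : ℝ) * ((z + Q0 * i : ℕ) : ℝ) / ((P * s : ℕ) : ℝ))
        = (a (P * s) * ee ((r (P * s) : ℝ) * z / ((P * s : ℕ) : ℝ))) *
          ee (((r (P * s) * t : ℤ) : ℝ) * i / p) := by
      intro i
      rw [mul_assoc (a (P * s)), ← ee_add]
      congr 2
      rw [hQ0def, hPdef, ht]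
      push_cast
      field_simp
      ring
    rw [Finset.sum_congr rfl (fun i _ => e1 i), ← Finset.mul_sum, bb_zero p hp, mul_zero]
    intro hdvd
    have hpp : Prime (p : ℤ) := Nat.prime_iff_prime_int.1 hp
    rcases hpp.dvd_or_dvd hdvd with h | h
    · have hpP : (p : ℤ) ∣ ((P * s : ℕ) : ℤ) := by
        have h4 : p ∣ P := by
          rw [hPdef]
          exact dvd_pow_self p (Nat.succ_ne_zero k)
        have h5 : p ∣ P * s := h4.trans (Dvd.intro _ rfl)
        exact_mod_cast h5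
      exact hpp.not_isUnit ((hrP s hs).isUnit_of_dvd' h hpP)
    · have : p ∣ t := by exact_mod_cast h
      exact hpR (ht ▸ this.trans (Dvd.intro_left _ rfl))
  -- the pointwise bound
  have hsum : ∑ z ∈ Finset.range Q, ‖A z + B z‖ ^ 6 ≤
      ∑ z ∈ Finset.range Q, (‖A z‖ ^ 6 + 43 * ‖A z‖ ^ 4 * ‖B z‖ ^ 2 +
        22 * ‖A z‖ ^ 2 * ‖B z‖ ^ 4 + 4 * ‖B z‖ ^ 6) := by
    rw [hQmul, bb_split Q0 p, bb_split Q0 p]
    apply Finset.sum_le_sum
    intro z _
    simp only [hAper]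
    refine (six p (A z) (fun i => B (z + Q0 * i)) (hB0 z)).trans (le_of_eq ?_)
    simp only [Finset.sum_add_distrib, Finset.mul_sum, Finset.sum_const, Finset.card_range,
      nsmul_eq_mul]
  -- the constants
  set α : ℝ := ∑ s ∈ Q0.divisors, (15 : ℝ) ^ s.primeFactors.card * ‖a s‖ ^ 2 with hα
  set β : ℝ := ∑ s ∈ R.divisors, (15 : ℝ) ^ s.primeFactors.card * ‖a (P * s)‖ ^ 2 with hβ
  have hα0 : 0 ≤ α := Finset.sum_nonneg (fun s _ => by positivity)
  have hβ0 : 0 ≤ β := Finset.sum_nonneg (fun s _ => by positivity)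
  have hA6 : ∑ z ∈ Finset.range Q, ‖A z‖ ^ 6 ≤ ((Finset.range Q).card : ℝ) * α ^ 3 := by
    have h2 := ih Q0 hQ0lt hQ0pos r
      (fun s hs => hr s (Nat.mem_divisors.2
        ⟨(Nat.dvd_of_mem_divisors hs).trans hQ0dvd, by omega⟩)) a
    rw [div_le_iff₀ hQ0R] at h2
    rw [Finset.card_range]
    calc ∑ z ∈ Finset.range Q, ‖A z‖ ^ 6 = ∑ z0 ∈ Finset.range Q0, ∑ i ∈ Finset.range p,
          ‖A (z0 + Q0 * i)‖ ^ 6 := by rw [hQmul, bb_split Q0 p]
      _ = (∑ z0 ∈ Finset.range Q0, ‖A z0‖ ^ 6) * p := by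
        simp only [hAper, Finset.sum_const, Finset.card_range, nsmul_eq_mul]
        rw [Finset.sum_mul]
        apply Finset.sum_congr rfl
        intro z _
        ring
      _ ≤ (α ^ 3 * Q0) * p := mul_le_mul_of_nonneg_right h2 (Nat.cast_nonneg _)
      _ = (Q : ℝ) * α ^ 3 := by
        rw [hQmul]
        push_cast
        ring
  have hB6 : ∑ z ∈ Finset.range Q, ‖B z‖ ^ 6 ≤ ((Finset.range Q).card : ℝ) * β ^ 3 := by
    rw [Finset.card_range, hQdef, bb_crt P R hcop hPpos hRpos (fun z => ‖B z‖ ^ 6)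
      (fun z i => by
        show ‖B (z + P * R * i)‖ ^ 6 = ‖B z‖ ^ 6
        rw [← hQdef, hBper])]
    have hy : ∀ y ∈ Finset.range P, ∑ w ∈ Finset.range R, ‖B (R * y + P * w)‖ ^ 6 ≤
        β ^ 3 * R := by
      intro y _
      have h2 := ih R hRlt hRpos (fun s => r (P * s))
        (fun s hs => (hrP s hs).of_isCoprime_of_dvd_right (by push_cast; exact Dvd.intro_left _ rfl))
        (fun s => a (P * s) * ee ((r (P * s) : ℝ) * (R * y) / ((P * s : ℕ) : ℝ)))
      rw [div_le_iff₀ hRR] at h2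
      simp only [norm_mul, ee_norm, mul_one] at h2
      refine le_trans (le_of_eq ?_) h2
      apply Finset.sum_congr rfl
      intro w _
      congr 2
      simp only [hB]
      apply Finset.sum_congr rfl
      intro s hs
      have hs0 : s ≠ 0 := by
        rintro rfl
        simp at hs
      have hsR : (s : ℝ) ≠ 0 := by exact_mod_cast hs0
      rw [mul_assoc, ← ee_add]
      congr 2
      push_cast
      field_simp
    refine (Finset.sum_le_sum hy).trans (le_of_eq ?_)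
    rw [Finset.sum_const, Finset.card_range, nsmul_eq_mul]
    push_cast
    ring
  have hfin := six_hoelder (Finset.range Q) (fun z => ‖A z‖) (fun z => ‖B z‖) α β hα0 hβ0
    (fun _ _ => norm_nonneg _) (fun _ _ => norm_nonneg _) hA6 hB6
  rw [Finset.card_range] at hfin
  have hrhs : ∑ s ∈ Q.divisors, (15 : ℝ) ^ s.primeFactors.card * ‖a s‖ ^ 2 = α + 15 * β := by
    rw [hdiv, hα, hβ]
    congr 1
    rw [Finset.mul_sum]
    apply Finset.sum_congr rfl
    intro s hs
    have hs0 : s ≠ 0 := by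
      rintro rfl
      simp at hs
    have hps : Nat.Coprime P s :=
      Nat.Coprime.coprime_dvd_right (Nat.dvd_of_mem_divisors hs) hcop
    have hcard : (P * s).primeFactors.card = s.primeFactors.card + 1 := by
      rw [Nat.Coprime.primeFactors_mul hps, Finset.card_union_of_disjoint
        (Nat.Coprime.disjoint_primeFactors hps), hPdef,
        Nat.primeFactors_prime_pow (by omega) hp, Finset.card_singleton, add_comm]
    rw [hcard, pow_succ]
    ring
  rw [hrhs, div_le_iff₀ hQR]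
  simp only [hAB]
  refine (hsum.trans hfin).trans (le_of_eq (by ring))

end Pool.Agent.AAR
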