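import Pool.Agent.AAR.Sdr

/-!
# AAR-Chn: a stable cell

A bounded sequence that starts at `β₀` cannot increase by the factor `1 + η₀` too often; at the first index where it does not,
an almost extremal cell is stable: all its long windows have box density at most `(1 + η)` times that of the cell.
-/

set_option autoImplicit false

namespace Pool.Agent.AAR

theorem chn (π : ℕ → ℝ) (T : ℕ) (β₀ η₀ : ℝ) (hβ : 0 < β₀) (hη : 0 < η₀) (h0 : β₀ ≤ π 0)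
    (hT : π T ≤ 1) (h : 1 < (1 + η₀) ^ T * β₀) :
    ∃ i < T, π (i + 1) ≤ (1 + η₀) * π i ∧ β₀ ≤ π i := by
  by_contra hcon
  push Not at hcon
  have key : ∀ i, i ≤ T → (1 + η₀) ^ i * β₀ ≤ π i := by
    intro i
    induction i with
    | zero =>
      intro _
      simpa using h0
    | succ i ih =>
      intro hi
      have h1 := ih (by omega)
      have h2 : β₀ ≤ π i := by
        refine le_trans ?_ h1
        have h3 : (1 : ℝ) ≤ (1 + η₀) ^ i := one_le_pow₀ (by linarith)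
        nlinarith
      have h4 : (1 + η₀) * π i < π (i + 1) := by
        by_contra h5
        push Not at h5
        exact absurd h2 (not_le.2 (hcon i (by omega) h5))
      calc (1 + η₀) ^ (i + 1) * β₀ = (1 + η₀) * ((1 + η₀) ^ i * β₀) := by ring
        _ ≤ (1 + η₀) * π i := mul_le_mul_of_nonneg_left h1 (by linarith)
        _ ≤ π (i + 1) := h4.le
  have := key T le_rfl
  linarith

private theorem Chn_cel_nonneg (A : Finset (ℕ × ℕ)) (a W : ℕ) (x₀ z₀ x z : ℤ) :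
    0 ≤ cel A a W x₀ z₀ x z := by
  unfold cel
  split_ifs
  · exact zero_le_one
  · exact le_refl _

private theorem Chn_cel_le_one (A : Finset (ℕ × ℕ)) (a W : ℕ) (x₀ z₀ x z : ℤ) :
    cel A a W x₀ z₀ x z ≤ 1 := by
  unfold cel
  split_ifs
  · exact le_refl _
  · exact zero_le_one

private theorem Chn_cut_nonneg (X Z : ℕ) (g : ℤ → ℤ → ℝ) (h0 : ∀ x z, 0 ≤ g x z) (x z : ℤ) :
    0 ≤ cut X Z g x z := by
  unfold cut
  split_ifs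
  · exact h0 _ _
  · exact le_refl _

private theorem Chn_cut_le (X Z : ℕ) (g : ℤ → ℤ → ℝ) (h0 : ∀ x z, 0 ≤ g x z) (x z : ℤ) :
    cut X Z g x z ≤ g x z := by
  unfold cut
  split_ifs
  · exact le_refl _
  · exact h0 _ _

private theorem Chn_mono (f g : ℤ → ℤ → ℝ) (h0 : ∀ x z, 0 ≤ f x z) (h : ∀ x z, f x z ≤ g x z)
    (x₁ z₁ : ℤ) (b n m : ℕ) : Bx f x₁ z₁ b n m ≤ Bx g x₁ z₁ b n m := by
  unfold Bx
  refine div_le_div_of_nonneg_right ?_ (by positivity)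
  refine Finset.sum_le_sum fun i _ => Finset.sum_le_sum fun i' _ => ?_
  refine pow_le_pow_left₀ (Finset.sum_nonneg fun j _ => mul_nonneg (h0 _ _) (h0 _ _)) ?_ 2
  refine Finset.sum_le_sum fun j _ => ?_
  exact mul_le_mul (h _ _) (h _ _) (h0 _ _) ((h0 _ _).trans (h _ _))

private theorem Chn_cut_eq (g : ℤ → ℤ → ℝ) (X Z : ℕ) :
    Bx (cut X Z g) 0 0 1 X Z = Bx g 0 0 1 X Z := by
  unfold Bx
  congr 1
  refine Finset.sum_congr rfl fun i hi => Finset.sum_congr rfl fun i' hi' => ?_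
  congr 1
  refine Finset.sum_congr rfl fun j hj => ?_
  have hi1 := Finset.mem_range.1 hi
  have hi1' := Finset.mem_range.1 hi'
  have hj1 := Finset.mem_range.1 hj
  have e : ∀ k : ℕ, k < X → cut X Z g (0 + ((1 : ℕ) : ℤ) * k) (0 + ((1 : ℕ) : ℤ) * j) =
      g (0 + ((1 : ℕ) : ℤ) * k) (0 + ((1 : ℕ) : ℤ) * j) := by
    intro k hk
    unfold cut
    rw [if_pos]
    refine ⟨?_, ?_, ?_, ?_⟩ <;> push_cast <;> omega
  rw [e i hi1, e i' hi1']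

private theorem Chn_win (A : Finset (ℕ × ℕ)) (a W κ n m n' m' b : ℕ) (x₀ z₀ : ℤ) (hW : 1 ≤ W)
    (hκ : 1 ≤ κ) (hb : 1 ≤ b) (hn : 1 ≤ n) (hm : 1 ≤ m) (h1 : κ * n ≤ n') (h2 : κ * m ≤ m')
    (x₁ z₁ : ℤ) : Bx (cel A a W x₀ z₀) x₁ z₁ b n' m' ≤ (1 + 1 / (κ : ℝ)) ^ 4 * pot A a n m := by
  have hκR : (0 : ℝ) < κ := by exact_mod_cast hκ
  have hnn : n ≤ n' := le_trans (Nat.le_mul_of_pos_left n hκ) h1
  have hmm : m ≤ m' := le_trans (Nat.le_mul_of_pos_left m hκ) h2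
  have h3 := sub_box (cel A a W x₀ z₀) (Chn_cel_nonneg A a W x₀ z₀) b n m n' m' hb hn hm hnn hmm
    (pot A a n m) (fun x z => by
      rw [cel_window]
      exact le_pot A a (W * b) n m (Nat.mul_pos hW hb) _ _) x₁ z₁
  refine h3.trans ?_
  have hC0 : 0 ≤ pot A a n m := (Bx_nonneg _ _ _ _ _ _).trans (le_pot A a 1 n m le_rfl 0 0)
  have h4 : ∀ k k' : ℕ, 1 ≤ k → κ * k ≤ k' → (k : ℝ) / k' ≤ 1 / κ := by
    intro k k' hk hkk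
    have hk' : (0 : ℝ) < k' := by
      exact_mod_cast lt_of_lt_of_le (Nat.mul_pos hκ hk) hkk
    rw [div_le_div_iff₀ hk' hκR, one_mul, mul_comm]
    exact_mod_cast hkk
  have h5 := h4 n n' hn h1
  have h6 := h4 m m' hm h2
  have h7 : (0 : ℝ) ≤ (n : ℝ) / n' := by positivity
  have h8 : (0 : ℝ) ≤ (m : ℝ) / m' := by positivity
  refine mul_le_mul_of_nonneg_right ?_ hC0
  calc (1 + (n : ℝ) / n') ^ 2 * (1 + (m : ℝ) / m') ^ 2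
      ≤ (1 + 1 / (κ : ℝ)) ^ 2 * (1 + 1 / (κ : ℝ)) ^ 2 := by
        refine mul_le_mul ?_ ?_ (by positivity) (by positivity)
        · exact pow_le_pow_left₀ (by positivity) (by linarith) 2
        · exact pow_le_pow_left₀ (by positivity) (by linarith) 2
    _ = (1 + 1 / (κ : ℝ)) ^ 4 := by ring

theorem stb (A : Finset (ℕ × ℕ)) (a T κ Q2 : ℕ) (X Z Hs m : ℕ → ℕ) (β₀ η₀ η : ℝ) (ha : 1 ≤ a)
    (hκ : 1 ≤ κ) (hβ : 0 < β₀) (hη₀ : 0 < η₀)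
    (hη : (1 + 1 / (κ : ℝ)) ^ 4 * (1 + η₀) ^ 2 ≤ 1 + η)
    (h0 : β₀ ≤ pot A a (X 0) (Z 0)) (h : 1 < (1 + η₀) ^ T * β₀)
    (hX : ∀ i ≤ T, 1 ≤ X i) (hZ : ∀ i ≤ T, 1 ≤ Z i)
    (h1 : ∀ i < T, ∀ b : ℕ, 1 ≤ b → b ≤ Q2 → κ * X (i + 1) ≤ 8 * Hs i / b)
    (h2 : ∀ i < T, κ * X (i + 1) ≤ Hs i) (h3 : ∀ i < T, κ * Z (i + 1) ≤ m i)
    (h4 : ∀ i < T, κ * Z (i + 1) ≤ Z i) :
    ∃ i < T, ∃ W : ℕ, 1 ≤ W ∧ ∃ x₀ z₀ : ℤ, ∃ β : ℝ,
      β = Bx (cut (X i) (Z i) (cel A a W x₀ z₀)) 0 0 1 (X i) (Z i) ∧ β₀ / (1 + η₀) ≤ β ∧ β ≤ 1 ∧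
      (∀ b : ℕ, 1 ≤ b → b ≤ Q2 → ∀ x₁ z₁ : ℤ,
        Bx (cut (X i) (Z i) (cel A a W x₀ z₀)) x₁ z₁ b (8 * Hs i / b) (m i) ≤ (1 + η) * β) ∧
      (∀ x₁ : ℤ, Bx (cut (X i) (Z i) (cel A a W x₀ z₀)) x₁ 0 1 (Hs i) (Z i) ≤ (1 + η) * β) := by
  obtain ⟨i, hiT, hi1, hi2⟩ := chn (fun i => pot A a (X i) (Z i)) T β₀ η₀ hβ hη₀ h0
    (pot_le_one A a _ _) h
  have hi1' : pot A a (X (i + 1)) (Z (i + 1)) ≤ (1 + η₀) * pot A a (X i) (Z i) := hi1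
  have hi2' : β₀ ≤ pot A a (X i) (Z i) := hi2
  have hη1 : (0 : ℝ) < 1 + η₀ := by linarith
  have hpos : 0 < pot A a (X i) (Z i) := lt_of_lt_of_le hβ hi2'
  have hlt : pot A a (X i) (Z i) / (1 + η₀) < pot A a (X i) (Z i) := by
    rw [div_lt_iff₀ hη1]
    nlinarith
  obtain ⟨t, ⟨W, hW, x₀, z₀, rfl⟩, ht⟩ := exists_lt_of_lt_csSup
    (⟨_, 1, le_rfl, 0, 0, rfl⟩ : {t : ℝ | ∃ W : ℕ, 1 ≤ W ∧ ∃ x₀ z₀ : ℤ,
      t = Bx (cel A a W x₀ z₀) 0 0 1 (X i) (Z i)}.Nonempty) hlt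
  set f := cut (X i) (Z i) (cel A a W x₀ z₀) with hf
  have hfe : Bx f 0 0 1 (X i) (Z i) = Bx (cel A a W x₀ z₀) 0 0 1 (X i) (Z i) :=
    Chn_cut_eq _ _ _
  have hf0 : ∀ x z, 0 ≤ f x z := Chn_cut_nonneg _ _ _ (Chn_cel_nonneg A a W x₀ z₀)
  have hfg : ∀ x z, f x z ≤ cel A a W x₀ z₀ x z := Chn_cut_le _ _ _ (Chn_cel_nonneg A a W x₀ z₀)
  have hpot : pot A a (X i) (Z i) ≤ (1 + η₀) * Bx f 0 0 1 (X i) (Z i) := by
    rw [hfe]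
    rw [div_lt_iff₀ hη1] at ht
    linarith
  have hκR : (0 : ℝ) < κ := by exact_mod_cast hκ
  have hβ0 : 0 ≤ Bx f 0 0 1 (X i) (Z i) := Bx_nonneg _ _ _ _ _ _
  have hfin : (1 + 1 / (κ : ℝ)) ^ 4 * pot A a (X (i + 1)) (Z (i + 1)) ≤
      (1 + η) * Bx f 0 0 1 (X i) (Z i) := by
    calc (1 + 1 / (κ : ℝ)) ^ 4 * pot A a (X (i + 1)) (Z (i + 1))
        ≤ (1 + 1 / (κ : ℝ)) ^ 4 * ((1 + η₀) * ((1 + η₀) * Bx f 0 0 1 (X i) (Z i))) := by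
          refine mul_le_mul_of_nonneg_left ?_ (by positivity)
          exact hi1'.trans (mul_le_mul_of_nonneg_left hpot hη1.le)
      _ = (1 + 1 / (κ : ℝ)) ^ 4 * (1 + η₀) ^ 2 * Bx f 0 0 1 (X i) (Z i) := by ring
      _ ≤ (1 + η) * Bx f 0 0 1 (X i) (Z i) := mul_le_mul_of_nonneg_right hη hβ0
  refine ⟨i, hiT, W, hW, x₀, z₀, Bx f 0 0 1 (X i) (Z i), rfl, ?_, ?_, ?_, ?_⟩
  · rw [div_le_iff₀ hη1]
    linarith
  · exact Bx_le_one _ hf0 (fun x z => (hfg x z).trans (Chn_cel_le_one A a W x₀ z₀ x z)) _ _ _ _ _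
  · intro b hb hbQ x₁ z₁
    refine (Chn_mono _ _ hf0 hfg _ _ _ _ _).trans (le_trans ?_ hfin)
    exact Chn_win A a W κ _ _ _ _ b x₀ z₀ hW hκ hb (hX (i + 1) (by omega)) (hZ (i + 1) (by omega))
      (h1 i hiT b hb hbQ) (h3 i hiT) x₁ z₁
  · intro x₁
    refine (Chn_mono _ _ hf0 hfg _ _ _ _ _).trans (le_trans ?_ hfin)
    exact Chn_win A a W κ _ _ _ _ 1 x₀ z₀ hW hκ le_rfl (hX (i + 1) (by omega))
      (hZ (i + 1) (by omega)) (h2 i hiT) (h4 i hiT) x₁ 0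

end Pool.Agent.AAR
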