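import Pool.Agent.AAR.Fin
import Pool.Agent.AAR.Chn

/-!
# AAR-Cll: the exceptional ratios of a stable cell of `A`

PLAN.  `f = cut p.X p.Z (cel A a W x₀ z₀)`.  The structure `Cell p f`: `f01` and `supp` by unfolding `cut`, `cel`; `dens`, `s1`, `s2` are
the hypotheses.  `fin p f _ T` with `T = (Finset.Icc 1 p.K).filter (fun b => ¬ Ratio A a b d₀)`: if the product for `k ∈ T`, `d ∈ ds p.H`
is not `0`, all four values are not zero, so (`cut`, `cel`) there are points of `A` at `(x₀ + aWx, z₀ + Wz)`,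
`(x₀ + aW(x+d), z₀ + Wz)`, `(x₀ + aWx, z₀ + W(z + kd))`, `(x₀ + aW(x+d), z₀ + W(z+kd))`: a rectangle with sides `a (W d)`, `k (W d)` and
`W d ≥ 2 H ≥ d₀`, a contradiction.  `T.card ≤ ε K`, and the filter in the statement is the complement in `Icc 1 K`.
-/

set_option autoImplicit false

namespace Pool.Agent.AAR

/-- `A` contains the vertices of an axis-parallel rectangle with sides `a d` and `b d`, `d ≥ d₀` -/
def Ratio (A : Set (ℕ × ℕ)) (a b : ℕ) (d₀ : ℝ) : Prop :=
  ∃ x y d : ℕ, 1 ≤ d ∧ d₀ ≤ d ∧ (x, y) ∈ A ∧ (x + a * d, y) ∈ A ∧ (x, y + b * d) ∈ A ∧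
    (x + a * d, y + b * d) ∈ A

private theorem Cll_ne {A : Finset (ℕ × ℕ)} {a W X Z : ℕ} {x₀ z₀ x z : ℤ}
    (h : cut X Z (cel A a W x₀ z₀) x z ≠ 0) :
    ∃ q ∈ A, (q.1 : ℤ) = x₀ + a * W * x ∧ (q.2 : ℤ) = z₀ + W * z := by
  unfold cut at h
  split_ifs at h with h1
  · unfold cel at h
    split_ifs at h with h2
    · exact h2
    · exact absurd rfl h
  · exact absurd rfl h

open Classical in
theorem cell_ratio (p : Par) (A : Finset (ℕ × ℕ)) (a W : ℕ) (hW : 1 ≤ W) (x₀ z₀ : ℤ) (d₀ : ℝ)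
    (hd : d₀ ≤ p.H) (hβ : Bx (cut p.X p.Z (cel A a W x₀ z₀)) 0 0 1 p.X p.Z = p.β)
    (s1 : ∀ b : ℕ, 1 ≤ b → b ≤ p.Q2 → ∀ x₁ z₁ : ℤ,
      Bx (cut p.X p.Z (cel A a W x₀ z₀)) x₁ z₁ b (8 * p.H / b) p.m ≤ (1 + p.η) * p.β)
    (s2 : ∀ x₁ : ℤ, Bx (cut p.X p.Z (cel A a W x₀ z₀)) x₁ 0 1 p.H p.Z ≤ (1 + p.η) * p.β) :
    (1 - p.ε) * p.K ≤
      (((Finset.Icc 1 p.K).filter (fun b => Ratio (A : Set (ℕ × ℕ)) a b d₀)).card : ℝ) := by
  have c : Cell p (cut p.X p.Z (cel A a W x₀ z₀)) := by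
    refine ⟨?_, ?_, hβ, s1, s2⟩
    · intro x z
      unfold cut cel
      split_ifs
      · exact Or.inr rfl
      · exact Or.inl rfl
      · exact Or.inl rfl
    · intro x z h
      unfold cut
      rw [if_neg]
      omega
  have h1 := fin p _ c ((Finset.Icc 1 p.K).filter (fun b => ¬ Ratio (A : Set (ℕ × ℕ)) a b d₀))
    (Finset.filter_subset _ _) (by
      intro k hk d hds x z
      by_contra hne
      have hk2 := (Finset.mem_filter.1 hk).2
      have hne' := mul_ne_zero_iff.1 hne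
      have hne1 := mul_ne_zero_iff.1 hne'.1
      have hne2 := mul_ne_zero_iff.1 hne'.2
      obtain ⟨⟨u1, v1⟩, hA1, e1, e1'⟩ := Cll_ne hne1.1
      obtain ⟨⟨u2, v2⟩, hA2, e2, e2'⟩ := Cll_ne hne1.2
      obtain ⟨⟨u3, v3⟩, hA3, e3, e3'⟩ := Cll_ne hne2.1
      obtain ⟨⟨u4, v4⟩, hA4, e4, e4'⟩ := Cll_ne hne2.2
      simp only at e1 e1' e2 e2' e3 e3' e4 e4'
      have hd2 := (Finset.mem_Ioo.1 hds).1
      have hH := p.hH
      apply hk2
      have hu2 : u2 = u1 + a * (W * d) := by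
        have : (u2 : ℤ) = u1 + a * (W * d) := by
          rw [e2, e1]
          ring
        exact_mod_cast this
      have hv2 : v2 = v1 := by
        have : (v2 : ℤ) = v1 := by rw [e2', e1']
        exact_mod_cast this
      have hu3 : u3 = u1 := by
        have : (u3 : ℤ) = u1 := by rw [e3, e1]
        exact_mod_cast this
      have hv3 : v3 = v1 + k * (W * d) := by
        have : (v3 : ℤ) = v1 + k * (W * d) := by
          rw [e3', e1']
          ring
        exact_mod_cast this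
      have hu4 : u4 = u1 + a * (W * d) := by
        have : (u4 : ℤ) = u1 + a * (W * d) := by
          rw [e4, e1]
          ring
        exact_mod_cast this
      have hv4 : v4 = v1 + k * (W * d) := by
        have : (v4 : ℤ) = v1 + k * (W * d) := by
          rw [e4', e1']
          ring
        exact_mod_cast this
      subst hu2 hv2 hu3 hv3 hu4 hv4
      have hWd : d ≤ W * d := Nat.le_mul_of_pos_left d (by omega)
      refine ⟨u3, v2, W * d, by omega, ?_, by exact_mod_cast hA1, by exact_mod_cast hA2, by exact_mod_cast hA3,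
        by exact_mod_cast hA4⟩
      refine hd.trans ?_
      have : p.H ≤ W * d := by omega
      exact_mod_cast this)
  have h2 := Finset.card_filter_add_card_filter_not (s := Finset.Icc 1 p.K)
    (fun b => Ratio (A : Set (ℕ × ℕ)) a b d₀)
  rw [Nat.card_Icc] at h2
  have h3 : (((Finset.Icc 1 p.K).filter (fun b => Ratio (A : Set (ℕ × ℕ)) a b d₀)).card : ℝ)
      + (((Finset.Icc 1 p.K).filter (fun b => ¬ Ratio (A : Set (ℕ × ℕ)) a b d₀)).card : ℝ) = p.K := by
    have h4 : ((Finset.Icc 1 p.K).filter (fun b => Ratio (A : Set (ℕ × ℕ)) a b d₀)).card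
      + ((Finset.Icc 1 p.K).filter (fun b => ¬ Ratio (A : Set (ℕ × ℕ)) a b d₀)).card = p.K := by omega
    exact_mod_cast h4
  linarith

end Pool.Agent.AAR
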