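import Pool.Agent.AAR.Bas

/-!
# AAR-Cnt: common frequencies of two differences

PLAN.  Let `g = gcd(d₀,d₁)`.  If the set is empty nothing is to show; fix an element `n'`.  For `n` in
the set let `δ = (n - n')/P`; `nint (d₀ δ), nint (d₁ δ) ≤ 2θ`.  Bezout `g = u d₀ + v d₁` with
`|u| ≤ d₁/g`, `|v| ≤ d₀/g` (e.g. from `Int.gcd_eq_gcd_ab` reduced, or Nat.gcdA bounds; alternatively
work with `d₀ = g d₀'`, `d₁ = g d₁'` coprime) gives `nint (g δ) ≤ 8 H θ · 2/g ≤ 16 H θ`, so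
`δ = i/g + κ'/g`, `|κ'| ≤ 16 H θ/g`; then `nint (d₀ δ) = |(d₀/g) κ'| ≤ 64 H² θ ≤ 1/2`, so
`|κ'/g| ≤ 2θ/d₀ ≤ θ/H`.  Hence `nint ((n - n')/P - i/g) ≤ θ/H` for some `0 ≤ i < g`, and for each `i`
these `n < P` number at most `2θP/H + 1` (integers in an interval of length `2θP/H < P`, mod `P`).
-/

set_option autoImplicit false

namespace Pool.Agent.AAR

private theorem Cnt_bez (a b : ℕ) (ha : 1 ≤ a) (hb : 1 ≤ b) (h : Nat.Coprime a b) :
    ∃ u v : ℤ, u * a + v * b = 1 ∧ |u| ≤ b ∧ |v| ≤ a := by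
  obtain ⟨u0, v0, h0⟩ := Nat.isCoprime_iff_coprime.2 h
  have hb' : (1 : ℤ) ≤ b := by exact_mod_cast hb
  have ha' : (1 : ℤ) ≤ a := by exact_mod_cast ha
  have e1 : u0 % b + b * (u0 / b) = u0 := Int.emod_add_mul_ediv u0 b
  have e2 : 0 ≤ u0 % (b : ℤ) := Int.emod_nonneg _ (by omega)
  have e3 : u0 % (b : ℤ) < b := Int.emod_lt_of_pos _ (by omega)
  have e4 : u0 % b * a + (v0 + a * (u0 / b)) * b = 1 := by
    linear_combination h0 + (a : ℤ) * e1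
  generalize u0 % (b : ℤ) = u at e1 e2 e3 e4
  generalize v0 + a * (u0 / (b : ℤ)) = v at e4
  refine ⟨u, v, e4, abs_le.2 ⟨by omega, by omega⟩, abs_le.2 ⟨?_, ?_⟩⟩
  · by_contra hc
    have h1 : v ≤ -(a : ℤ) - 1 := by omega
    nlinarith
  · by_contra hc
    have h1 : (a : ℤ) + 1 ≤ v := by omega
    nlinarith

private theorem Cnt_key (H g a b : ℕ) (θ δ : ℝ) (hg : 1 ≤ g) (hb1 : 1 ≤ b)
    (hab : Nat.Coprime a b) (ha : 2 * H < g * a) (ha' : g * a < 4 * H) (hb' : g * b < 4 * H)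
    (hθ : 0 ≤ θ) (hθ1 : 128 * (H : ℝ) ^ 2 * θ ≤ 1) (h0 : nint ((a : ℝ) * (g * δ)) ≤ 2 * θ)
    (h1 : nint ((b : ℝ) * (g * δ)) ≤ 2 * θ) : ∃ k : ℤ, |δ - (k : ℝ) / g| ≤ θ / H := by
  have ha1 : 1 ≤ a := by
    rcases Nat.eq_zero_or_pos a with h | h
    · rw [h] at ha
      omega
    · exact h
  obtain ⟨u, v, huv, hu, hv⟩ := Cnt_bez a b ha1 hb1 hab
  have hu' : |(u : ℝ)| ≤ b := by exact_mod_cast hu
  have hv' : |(v : ℝ)| ≤ a := by exact_mod_cast hv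
  have hgR : (1 : ℝ) ≤ g := by exact_mod_cast hg
  have hHpos : 0 < H := by omega
  have hHR : (0 : ℝ) < H := by exact_mod_cast hHpos
  have haH : (a : ℝ) ≤ 4 * H := by
    have h2 : a ≤ g * a := Nat.le_mul_of_pos_left a hg
    have h3 : a ≤ 4 * H := by omega
    exact_mod_cast h3
  have hbH : (b : ℝ) ≤ 4 * H := by
    have h2 : b ≤ g * b := Nat.le_mul_of_pos_left b hg
    have h3 : b ≤ 4 * H := by omega
    exact_mod_cast h3
  have hgaH : 2 * (H : ℝ) ≤ g * a := by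
    have h3 : 2 * H ≤ g * a := by omega
    exact_mod_cast h3
  have huvR : (u : ℝ) * a + v * b = 1 := by exact_mod_cast huv
  obtain ⟨y, hy⟩ : ∃ y : ℝ, y = g * δ := ⟨_, rfl⟩
  rw [← hy] at h0 h1
  have e1 : y = (u : ℝ) * ((a : ℝ) * y) + (v : ℝ) * ((b : ℝ) * y) := by
    linear_combination -(y * huvR)
  have e2 : nint y ≤ 16 * H * θ := by
    have h2 := nint_add ((u : ℝ) * ((a : ℝ) * y)) ((v : ℝ) * ((b : ℝ) * y))
    rw [← e1] at h2
    have h3 := nint_mul_int u ((a : ℝ) * y)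
    have h4 := nint_mul_int v ((b : ℝ) * y)
    have h5 : |(u : ℝ)| * nint ((a : ℝ) * y) ≤ (4 * H) * (2 * θ) :=
      mul_le_mul (hu'.trans hbH) h0 (nint_nonneg _) (by positivity)
    have h6 : |(v : ℝ)| * nint ((b : ℝ) * y) ≤ (4 * H) * (2 * θ) :=
      mul_le_mul (hv'.trans haH) h1 (nint_nonneg _) (by positivity)
    linarith
  obtain ⟨k, hk⟩ := exists_int y
  rw [hk] at e2
  have e3 : (a : ℝ) * |y - k| ≤ 1 / 2 := by
    have h2 : (a : ℝ) * |y - k| ≤ (4 * H) * (16 * H * θ) :=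
      mul_le_mul haH e2 (abs_nonneg _) (by positivity)
    nlinarith
  have e4 : |(a : ℝ) * y - ((a * k : ℤ) : ℝ)| = a * |y - k| := by
    have h2 : (a : ℝ) * y - ((a * k : ℤ) : ℝ) = a * (y - k) := by
      push_cast
      ring
    rw [h2, abs_mul, Nat.abs_cast]
  have e5 : nint ((a : ℝ) * y) = a * |y - k| := by
    rw [nint_eq ((a : ℝ) * y) (a * k : ℤ) (by rw [e4]; exact e3), e4]
  rw [e5] at h0
  refine ⟨k, ?_⟩
  have e6 : δ - (k : ℝ) / g = (y - k) / g := by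
    rw [hy]
    field_simp
  rw [e6, abs_div, Nat.abs_cast, div_le_div_iff₀ (by linarith) hHR]
  have e7 : 2 * (H : ℝ) * |y - k| ≤ g * a * |y - k| :=
    mul_le_mul_of_nonneg_right hgaH (abs_nonneg _)
  nlinarith

open Classical in
/-- the number of fractions near a point -/
private theorem Cnt_near (P : ℕ) (hP : 1 ≤ P) (c r : ℝ) (hr : 0 ≤ r) :
    (((Finset.range P).filter fun n : ℕ => nint ((n : ℝ) / P - c) ≤ r).card : ℝ) ≤ 2 * r * P + 1 := by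
  have hPR : (0 : ℝ) < P := by exact_mod_cast hP
  have h1 : ((Finset.range P).filter fun n : ℕ => nint ((n : ℝ) / P - c) ≤ r).card ≤
      (Finset.Icc ⌈(c - r) * P⌉ ⌊(c + r) * P⌋).card := by
    refine Finset.card_le_card_of_injOn
      (fun n : ℕ => (n : ℤ) - P * round ((n : ℝ) / P - c)) ?_ ?_
    · intro n hn
      have h2 := (Finset.mem_filter.1 hn).2
      unfold nint at h2
      obtain ⟨q, hq⟩ : ∃ q : ℤ, q = round ((n : ℝ) / P - c) := ⟨_, rfl⟩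
      rw [← hq] at h2
      have h3 := abs_le.1 h2
      have h4 : ((n : ℝ) / P) * P = n := div_mul_cancel₀ _ hPR.ne'
      simp only [Finset.coe_Icc, Set.mem_Icc]
      rw [← hq, Int.ceil_le, Int.le_floor]
      push_cast
      constructor
      · nlinarith [mul_le_mul_of_nonneg_right h3.1 hPR.le]
      · nlinarith [mul_le_mul_of_nonneg_right h3.2 hPR.le]
    · intro n hn m hm h
      have hn' := Finset.mem_range.1 (Finset.mem_filter.1 hn).1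
      have hm' := Finset.mem_range.1 (Finset.mem_filter.1 hm).1
      simp only at h
      generalize round ((n : ℝ) / P - c) = q at h
      generalize round ((m : ℝ) / P - c) = q' at h
      have h2 : ((n : ℤ) - P * q) % P = ((m : ℤ) - P * q') % P := by rw [h]
      rw [Int.sub_mul_emod_self_left, Int.sub_mul_emod_self_left] at h2
      have h3 : n % P = m % P := by exact_mod_cast h2
      rwa [Nat.mod_eq_of_lt hn', Nat.mod_eq_of_lt hm'] at h3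
  have h2 : ((Finset.Icc ⌈(c - r) * P⌉ ⌊(c + r) * P⌋).card : ℝ) ≤ 2 * r * P + 1 := by
    rw [Int.card_Icc]
    have h3 : (⌊(c + r) * P⌋ : ℝ) ≤ (c + r) * P := Int.floor_le _
    have h4 : (c - r) * P ≤ (⌈(c - r) * P⌉ : ℝ) := Int.le_ceil _
    rcases le_total 0 (⌊(c + r) * P⌋ + 1 - ⌈(c - r) * P⌉) with h5 | h5
    · have h6 : (((⌊(c + r) * P⌋ + 1 - ⌈(c - r) * P⌉).toNat : ℕ) : ℝ) =
          ((⌊(c + r) * P⌋ + 1 - ⌈(c - r) * P⌉ : ℤ) : ℝ) := by
        have h7 : (((⌊(c + r) * P⌋ + 1 - ⌈(c - r) * P⌉).toNat : ℕ) : ℤ) =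
          ⌊(c + r) * P⌋ + 1 - ⌈(c - r) * P⌉ := Int.toNat_of_nonneg h5
        exact_mod_cast congrArg (fun z : ℤ => (z : ℝ)) h7
      rw [h6]
      push_cast
      linarith
    · rw [Int.toNat_of_nonpos h5]
      simp only [Nat.cast_zero]
      positivity
  exact (Nat.cast_le.2 h1).trans h2

open Classical in
theorem cnt (H P d₀ d₁ : ℕ) (θ β₀ β₁ : ℝ) (hH : 1 ≤ H) (hP : 1 ≤ P) (h₀ : d₀ ∈ ds H)
    (h₁ : d₁ ∈ ds H) (hθ : 0 ≤ θ) (hθ1 : 128 * (H : ℝ) ^ 2 * θ ≤ 1) :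
    (((Finset.range P).filter (fun n : ℕ => nint ((d₀ : ℝ) * ((n : ℝ) / P) - β₀) ≤ θ ∧
      nint ((d₁ : ℝ) * ((n : ℝ) / P) - β₁) ≤ θ)).card : ℝ) ≤
      (Nat.gcd d₀ d₁ : ℝ) * (2 * θ * P / H + 1) := by
  obtain ⟨S, hS⟩ : ∃ S : Finset ℕ, S = (Finset.range P).filter (fun n : ℕ =>
      nint ((d₀ : ℝ) * ((n : ℝ) / P) - β₀) ≤ θ ∧ nint ((d₁ : ℝ) * ((n : ℝ) / P) - β₁) ≤ θ) := ⟨_, rfl⟩
  rw [← hS]
  have hHR : (0 : ℝ) < H := by exact_mod_cast hH
  rcases S.eq_empty_or_nonempty with he | ⟨n', hn'⟩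
  · rw [he, Finset.card_empty]
    have : 0 ≤ 2 * θ * P / H := by positivity
    simp only [Nat.cast_zero]
    positivity
  obtain ⟨h0a, h0b⟩ := Finset.mem_Ioo.1 h₀
  obtain ⟨h1a, h1b⟩ := Finset.mem_Ioo.1 h₁
  have hg : 0 < Nat.gcd d₀ d₁ := Nat.gcd_pos_of_pos_left _ (by omega)
  obtain ⟨a, ha⟩ : Nat.gcd d₀ d₁ ∣ d₀ := Nat.gcd_dvd_left _ _
  obtain ⟨b, hb⟩ : Nat.gcd d₀ d₁ ∣ d₁ := Nat.gcd_dvd_right _ _
  have hab : Nat.Coprime a b := by
    have h2 := Nat.coprime_div_gcd_div_gcd hg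
    rwa [Nat.div_eq_of_eq_mul_right hg ha, Nat.div_eq_of_eq_mul_right hg hb] at h2
  generalize Nat.gcd d₀ d₁ = g at ha hb hg
  have hb1 : 1 ≤ b := by
    rcases Nat.eq_zero_or_pos b with h | h
    · rw [h] at hb
      omega
    · exact h
  have hgR : (0 : ℝ) < g := by exact_mod_cast hg
  have hPR : (0 : ℝ) < P := by exact_mod_cast hP
  have hsub : S ⊆ (Finset.range g).biUnion fun i => (Finset.range P).filter fun n : ℕ =>
      nint ((n : ℝ) / P - ((n' : ℝ) / P + (i : ℝ) / g)) ≤ θ / H := by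
    intro n hn
    rw [hS] at hn hn'
    obtain ⟨hn1, hn2, hn3⟩ := Finset.mem_filter.1 hn
    obtain ⟨-, hn2', hn3'⟩ := Finset.mem_filter.1 hn'
    have key : ∀ (d c : ℕ) (β : ℝ), d = g * c → nint ((d : ℝ) * ((n : ℝ) / P) - β) ≤ θ →
        nint ((d : ℝ) * ((n' : ℝ) / P) - β) ≤ θ →
        nint ((c : ℝ) * (g * ((n : ℝ) / P - (n' : ℝ) / P))) ≤ 2 * θ := by
      intro d c β hd h2 h3
      have h4 := nint_sub ((d : ℝ) * ((n : ℝ) / P) - β) ((d : ℝ) * ((n' : ℝ) / P) - β)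
      have h5 : (c : ℝ) * (g * ((n : ℝ) / P - (n' : ℝ) / P)) =
          ((d : ℝ) * ((n : ℝ) / P) - β) - ((d : ℝ) * ((n' : ℝ) / P) - β) := by
        rw [hd]
        push_cast
        ring
      rw [h5]
      linarith
    obtain ⟨k, hk⟩ := Cnt_key H g a b θ ((n : ℝ) / P - (n' : ℝ) / P) hg hb1 hab (ha ▸ h0a) (ha ▸ h0b)
      (hb ▸ h1b) hθ hθ1 (key d₀ a β₀ ha hn2 hn2') (key d₁ b β₁ hb hn3 hn3')
    have hg0 : (g : ℤ) ≠ 0 := by omega
    have e1 : k % g + g * (k / g) = k := Int.emod_add_mul_ediv k g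
    have e2 : 0 ≤ k % (g : ℤ) := Int.emod_nonneg _ hg0
    have e3 : k % (g : ℤ) < g := Int.emod_lt_of_pos _ (by omega)
    refine Finset.mem_biUnion.2 ⟨(k % g).toNat, Finset.mem_range.2 (by omega),
      Finset.mem_filter.2 ⟨hn1, ?_⟩⟩
    have e4 : (((k % g).toNat : ℕ) : ℝ) = ((k % g : ℤ) : ℝ) := by
      have h7 : (((k % g).toNat : ℕ) : ℤ) = k % g := Int.toNat_of_nonneg e2
      exact_mod_cast congrArg (fun z : ℤ => (z : ℝ)) h7
    have e5 : (k : ℝ) = ((k % g : ℤ) : ℝ) + g * ((k / g : ℤ) : ℝ) := by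
      exact_mod_cast congrArg (fun z : ℤ => (z : ℝ)) e1.symm
    refine (nint_le _ (k / g : ℤ)).trans ?_
    have e6 : (n : ℝ) / P - ((n' : ℝ) / P + (((k % g).toNat : ℕ) : ℝ) / g) - ((k / g : ℤ) : ℝ) =
        (n : ℝ) / P - (n' : ℝ) / P - (k : ℝ) / g := by
      rw [e4, e5]
      field_simp
      ring
    rw [e6]
    exact hk
  have hcard : ((S.card : ℕ) : ℝ) ≤ ∑ i ∈ Finset.range g, (((Finset.range P).filter fun n : ℕ =>
      nint ((n : ℝ) / P - ((n' : ℝ) / P + (i : ℝ) / g)) ≤ θ / H).card : ℝ) := by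
    have h2 := (Finset.card_le_card hsub).trans Finset.card_biUnion_le
    exact_mod_cast h2
  refine hcard.trans ((Finset.sum_le_sum fun i _ => Cnt_near P hP _ (θ / H) (by positivity)).trans ?_)
  rw [Finset.sum_const, Finset.card_range, nsmul_eq_mul]
  refine le_of_eq ?_
  ring

end Pool.Agent.AAR
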