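import Mathlib

/-!
# Exact rectangles for almost all ratios: definitions

Project AAR (MP_27274a_co), owner helper24.  Paper proof: /team-store/aar_proof.md.

`f : ℤ → ℤ → ℝ` is the indicator function of a set of lattice points in `[0,X) × [0,Z)`; for two
columns `x, x'` let `h(z) = f x z * f x' z`.  Frequencies are `n / P`, `n < P`, `P` huge.
-/

set_option autoImplicit false

namespace Pool.Agent.AAR

/-- `e(x) = exp(2 π i x)` -/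
noncomputable def ee (x : ℝ) : ℂ := Complex.exp (((2 * Real.pi * x : ℝ) : ℂ) * Complex.I)

/-- the distance to the nearest integer -/
noncomputable def nint (x : ℝ) : ℝ := |x - round x|

/-- the product of two columns -/
def pr (f : ℤ → ℤ → ℝ) (x x' : ℤ) (z : ℤ) : ℝ := f x z * f x' z

/-- the Fourier transform of a function supported in `[0,Z)` -/
noncomputable def fh (Z : ℕ) (h : ℤ → ℝ) (φ : ℝ) : ℂ :=
  ∑ z ∈ Finset.range Z, (h (z : ℤ) : ℂ) * ee (-(φ * z))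

/-- the energy of `h` in a set `S` of frequencies `n / P` -/
noncomputable def en (Z P : ℕ) (h : ℤ → ℝ) (S : Finset ℕ) : ℝ :=
  (∑ n ∈ S, ‖fh Z h ((n : ℝ) / P)‖ ^ 2) / P

/-- Hilbert-Schmidt norms -/
noncomputable def hs (Z P : ℕ) (g : ℤ → ℝ) (S T : Finset ℕ) : ℝ :=
  (∑ n ∈ S, ∑ m ∈ T, ‖fh Z g (((n : ℝ) - m) / P)‖ ^ 2) / (P : ℝ) ^ 2

/-- the box density of the window `{x₁ + b i : i < n} × {z₁ + b j : j < m}` -/
noncomputable def Bx (f : ℤ → ℤ → ℝ) (x₁ z₁ : ℤ) (b n m : ℕ) : ℝ :=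
  (∑ i ∈ Finset.range n, ∑ i' ∈ Finset.range n,
    (∑ j ∈ Finset.range m, f (x₁ + b * i) (z₁ + b * j) * f (x₁ + b * i') (z₁ + b * j)) ^ 2) /
    ((n : ℝ) ^ 2 * (m : ℝ) ^ 2)

/-- the normalised codegree of two columns -/
noncomputable def cg (f : ℤ → ℤ → ℝ) (Z : ℕ) (x x' : ℤ) : ℝ :=
  (∑ z ∈ Finset.range Z, f x z * f x' z) / Z

/-- the normalised codegree of two columns in the window `{u + b j : j < m}` -/
noncomputable def cw (f : ℤ → ℤ → ℝ) (b m : ℕ) (u x x' : ℤ) : ℝ :=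
  (∑ j ∈ Finset.range m, f x (u + b * j) * f x' (u + b * j)) / m

/-- indicator function of `[0,Z)` -/
noncomputable def ind (Z : ℕ) (u : ℤ) : ℝ := if 0 ≤ u ∧ u < Z then 1 else 0

/-- the variation of the window densities -/
noncomputable def Yv (f : ℤ → ℤ → ℝ) (Z b m : ℕ) (x x' : ℤ) : ℝ :=
  ∑ u ∈ Finset.Ico (-((b * m : ℕ) : ℤ)) Z, (cw f b m u x x' - cg f Z x x' * ind Z u) ^ 2

/-- the differences `d`, `2H < d < 4H` -/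
def ds (H : ℕ) : Finset ℕ := Finset.Ioo (2 * H) (4 * H)

/-- their weights -/
noncomputable def wt (H d : ℕ) : ℝ := (H : ℝ) - |(d : ℝ) - 3 * H|

/-- `τ(β) = ∑_{k ∈ T} e(k β)` -/
noncomputable def tau (T : Finset ℕ) (β : ℝ) : ℂ := ∑ k ∈ T, ee (k * β)

/-- frequencies near `a / b` -/
noncomputable def arc (P : ℕ) (r : ℝ) (b : ℕ) (a : ℤ) : Finset ℕ :=
  open Classical in (Finset.range P).filter (fun n => nint ((n : ℝ) / P - (a : ℝ) / b) ≤ r)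

/-- frequencies near fractions with exact denominator `b` -/
noncomputable def arcs (P : ℕ) (r : ℝ) (b : ℕ) : Finset ℕ :=
  open Classical in (Finset.range P).filter
    (fun n => ∃ a : ℤ, IsCoprime a (b : ℤ) ∧ nint ((n : ℝ) / P - (a : ℝ) / b) ≤ r)

/-- `φ` is not within `r` of a fraction with denominator `≤ Q` -/
def Far (r : ℝ) (Q : ℕ) (φ : ℝ) : Prop :=
  ∀ b : ℕ, 1 ≤ b → b ≤ Q → ∀ a : ℤ, r < nint (φ - (a : ℝ) / b)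

/-- the remaining frequencies -/
noncomputable def rest (P : ℕ) (r : ℝ) (Q : ℕ) : Finset ℕ :=
  open Classical in (Finset.range P).filter (fun n => Far r Q ((n : ℝ) / P))

/-- the number of `d` for which there are `q ≤ Q₁` and `g ∣ d` with `s g ∣ q e`, `s g > Q₂` -/
noncomputable def Nev (Q₁ Q₂ s e H : ℕ) : ℕ :=
  open Classical in ((ds H).filter (fun d => ∃ q : ℕ, 1 ≤ q ∧ q ≤ Q₁ ∧
    ∃ g : ℕ, 1 ≤ g ∧ g ∣ d ∧ s * g ∣ q * e ∧ Q₂ < s * g)).card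

/-- differences with too many large divisors -/
noncomputable def bad (G H : ℕ) : Finset ℕ :=
  open Classical in (ds H).filter
    (fun d => (1 : ℝ) / G < ∑ g ∈ d.divisors.filter (fun g => G ^ 2 < g), (1 : ℝ) / g)

/-- the parameters; `G1² = G0`, `l0 = λ₀`, window length `m`, `μ K H` long windows -/
structure Par where
  (H K B0 B1 Q1 Q2 G1 l0 E0 Lam m μ P : ℕ)
  (β η ε σ ρ1 Ω : ℝ)
  hH : 1 ≤ H
  hK : 1 ≤ K
  hβ : 0 < β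
  hβ1 : β ≤ 1
  hη : 0 < η
  hη1 : η ≤ 1 / 100
  hε : 0 < ε
  hε1 : ε ≤ 1
  hσ : 0 < σ
  hρ1 : 0 < ρ1
  hρ11 : ρ1 ≤ 1
  hΩ : 1 ≤ Ω
  hQ1 : 8192 / ρ1 ^ 6 ≤ Q1
  hQ2 : 2 ≤ Q2
  hQ2H : 8 * Q2 ≤ H
  hG1 : 1 ≤ G1
  hl0 : 1 ≤ l0
  hE0 : 1 ≤ E0
  hLam1 : 1 ≤ Lam
  hμ : 240 ≤ μ
  hm : 16 * Q2 * Lam * m = K * H
  hm9 : Q2 ^ 9 ≤ m
  hB0 : 200 / (η * β) ≤ B0
  hμβ : 14400 / β ≤ (μ : ℝ) ^ 2
  hB1 : 100 * μ / (η * β) ≤ B1
  hΩs : ∀ s : ℕ, 1 ≤ s → s ≤ Q2 → (15 : ℝ) ^ s.primeFactors.card ≤ Ω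
  hlow : (1 + Real.log Q2) ^ 2 * (Ω * (β ^ (-(1 / 6 : ℝ)) * η)) ≤ ε / 10 ^ 9
  hηl : η * (2 + Real.log Q2) ≤ 1 / 10 ^ 6
  hσβ : σ ≤ ε * β ^ 2 / 4096
  hl0β : 512 / (ε * β ^ 2) ≤ (l0 : ℝ) ^ 2
  hG1σ : 16 / σ ≤ G1
  hρσ : 24 * (G1 : ℝ) ^ 2 * l0 * B1 * (4 * ρ1 + 16 * (Q1 : ℝ) ^ 2 / Q2 + 2 / E0) ≤ σ ^ 2 / 4
  hLam : 4 * (l0 : ℝ) * E0 * (2 * Q1 + 2 ^ 32 / ρ1 ^ 12) ≤ Lam
  hKH : 8 * Q1 ^ 2 * H ^ 2 * (l0 + Lam) < K
  hK1 : 2 ^ 27 * (H : ℝ) * l0 / ρ1 ^ 8 ≤ K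
  hK2 : 128 * H ^ 2 * l0 ≤ K
  hK3 : Q2 ^ 4 ≤ K
  hHρ : 2 ^ 21 / ρ1 ^ 8 ≤ 2 * (H : ℝ)
  hP : (4 * B1 * K * H + 1) ^ 3 ≤ P

namespace Par

/-- the length of the cell in the first coordinate -/
def X (p : Par) : ℕ := p.B0 * p.H

/-- the length of the cell in the second coordinate -/
def Z (p : Par) : ℕ := 4 * p.B1 * p.K * p.H

/-- the resolution `λ₀ / K` -/
noncomputable def θ (p : Par) : ℝ := (p.l0 : ℝ) / p.K

/-- the radius of the arcs -/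
noncomputable def r (p : Par) : ℝ := (p.Lam : ℝ) / (4 * p.K * p.H)

/-- the main term `M = Z H² X β` -/
noncomputable def M (p : Par) : ℝ := (p.Z : ℝ) * (p.H : ℝ) ^ 2 * p.X * p.β

end Par

/-- remaining frequencies with `d φ` near `β` -/
noncomputable def Nd (p : Par) (β : ℝ) (d : ℕ) : Finset ℕ :=
  open Classical in (rest p.P p.r p.Q2).filter (fun n => nint ((d : ℝ) * ((n : ℝ) / p.P) - β) ≤ p.θ)

/-- a stable cell -/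
structure Cell (p : Par) (f : ℤ → ℤ → ℝ) : Prop where
  f01 : ∀ x z, f x z = 0 ∨ f x z = 1
  supp : ∀ x z, (x < 0 ∨ (p.X : ℤ) ≤ x ∨ z < 0 ∨ (p.Z : ℤ) ≤ z) → f x z = 0
  dens : Bx f 0 0 1 p.X p.Z = p.β
  s1 : ∀ b : ℕ, 1 ≤ b → b ≤ p.Q2 → ∀ x₁ z₁ : ℤ, Bx f x₁ z₁ b (8 * p.H / b) p.m ≤ (1 + p.η) * p.β
  s2 : ∀ x₁ : ℤ, Bx f x₁ 0 1 p.H p.Z ≤ (1 + p.η) * p.β

/-- masses at fractions with `d φ ≈ r / s`, `gcd (t s, d) = t` -/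
noncomputable def mst (p : Par) (f : ℤ → ℤ → ℝ) (t s r : ℕ) : ℝ :=
  ∑ d ∈ (ds p.H).filter (fun d => Nat.gcd (t * s) d = t), wt p.H d *
    ∑ x ∈ Finset.range p.X, ∑ a ∈ (Finset.range (t * s)).filter
      (fun a => Nat.Coprime a (t * s) ∧ (d / t * a) % s = r),
        en p.Z p.P (pr f x (x + d)) (arc p.P p.r (t * s) a)

/-- `A`, restricted to the sublattice `(x₀ + a W i, z₀ + W j)` -/
noncomputable def cel (A : Finset (ℕ × ℕ)) (a W : ℕ) (x₀ z₀ : ℤ) (i j : ℤ) : ℝ :=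
  open Classical in
  if ∃ q ∈ A, (q.1 : ℤ) = x₀ + a * W * i ∧ (q.2 : ℤ) = z₀ + W * j then 1 else 0

/-- the supremum of the box densities of all cells with side lengths `n`, `m` -/
noncomputable def pot (A : Finset (ℕ × ℕ)) (a n m : ℕ) : ℝ :=
  sSup {t : ℝ | ∃ W : ℕ, 1 ≤ W ∧ ∃ x₀ z₀ : ℤ, t = Bx (cel A a W x₀ z₀) 0 0 1 n m}

/-- cut-off to `[0,X) × [0,Z)` -/
noncomputable def cut (X Z : ℕ) (g : ℤ → ℤ → ℝ) (x z : ℤ) : ℝ :=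
  if 0 ≤ x ∧ x < X ∧ 0 ≤ z ∧ z < Z then g x z else 0

end Pool.Agent.AAR
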