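import Pool.Agent.AAR.Defs
import Pool.Agent.Helper52.NG.Sum

/-!
# AAR-Den: a set with divergent sum is dense at infinitely many scales

The dyadic criterion `Helper52.NG.freq` with the weights `(log 2^j)^(-6/5)`.
-/

set_option autoImplicit false

namespace Pool.Agent.AAR

theorem den (A : Set (ℕ × ℕ)) (hA : ∀ p ∈ A, 0 < p.1 ∧ 0 < p.2)
    (hs : ¬ Summable (fun p : A => 1 / ((p.1.1 : ℝ) ^ 2 + (p.1.2 : ℝ) ^ 2))) :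
    ∀ N₀ : ℕ, ∃ N : ℕ, N₀ ≤ N ∧ (N : ℝ) ^ 2 * Real.log N ^ (-(6 / 5 : ℝ)) ≤
      ((A ∩ Set.Icc 1 N ×ˢ Set.Icc 1 N).ncard : ℝ) := by
  intro N₀
  have hl2 : 0 < Real.log 2 := Real.log_pos (by norm_num)
  have hw : ∀ j : ℕ, Real.log ((2 ^ j : ℕ) : ℝ) ^ (-(6 / 5 : ℝ)) =
      Real.log 2 ^ (-(6 / 5 : ℝ)) * (j : ℝ) ^ (-(6 / 5 : ℝ)) := by
    intro j
    push_cast
    rw [Real.log_pow, mul_comm, Real.mul_rpow hl2.le (Nat.cast_nonneg j)]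
  have hsum : Summable (fun j : ℕ => Real.log ((2 ^ j : ℕ) : ℝ) ^ (-(6 / 5 : ℝ))) := by
    simp only [hw]
    exact (Real.summable_nat_rpow.2 (by norm_num)).mul_left _
  have hs1 : ¬ Summable (fun p : A => 1 / ((p.1.1 : ℝ) ^ 2 + (p.1.2 : ℝ) ^ 2) ^ (1 : ℝ)) := by
    simp only [Real.rpow_one]
    exact hs
  have hnn : ∀ j : ℕ, 0 ≤ Real.log ((2 ^ j : ℕ) : ℝ) ^ (-(6 / 5 : ℝ)) := fun j =>
    Real.rpow_nonneg (Real.log_natCast_nonneg _) _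
  obtain ⟨j, hj, hcard⟩ := Pool.Agent.Helper52.NG.freq A hA 1 (by norm_num) le_rfl
    (fun j : ℕ => Real.log ((2 ^ j : ℕ) : ℝ) ^ (-(6 / 5 : ℝ))) hnn hsum hs1 N₀
  rw [Real.rpow_one] at hcard
  refine ⟨2 ^ j, hj.trans (Nat.lt_two_pow_self).le, ?_⟩
  have h9 : ((Pool.Agent.Helper52.NG.bx A j).card : ℝ) ≤
      ((A ∩ Set.Icc 1 (2 ^ j) ×ˢ Set.Icc 1 (2 ^ j)).ncard : ℝ) := by
    rw [← Set.ncard_coe_finset]
    have hfin : (A ∩ Set.Icc 1 (2 ^ j) ×ˢ Set.Icc 1 (2 ^ j)).Finite :=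
      ((Set.finite_Icc 1 (2 ^ j)).prod (Set.finite_Icc 1 (2 ^ j))).subset Set.inter_subset_right
    have hsub : ((Pool.Agent.Helper52.NG.bx A j : Finset (ℕ × ℕ)) : Set (ℕ × ℕ)) ⊆
        A ∩ Set.Icc 1 (2 ^ j) ×ˢ Set.Icc 1 (2 ^ j) := by
      intro z hz
      have hz' := Finset.mem_coe.mp hz
      have h10 := Finset.mem_product.mp (Pool.Agent.Helper52.NG.bx_sub A j hz')
      exact ⟨Pool.Agent.Helper52.NG.bx_mem hz', ⟨Finset.mem_Icc.mp h10.1, Finset.mem_Icc.mp h10.2⟩⟩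
    exact_mod_cast Set.ncard_le_ncard hsub hfin
  calc ((2 ^ j : ℕ) : ℝ) ^ 2 * Real.log ((2 ^ j : ℕ) : ℝ) ^ (-(6 / 5 : ℝ))
      = Real.log ((2 ^ j : ℕ) : ℝ) ^ (-(6 / 5 : ℝ)) * ((2 : ℝ) ^ j) ^ 2 := by
        rw [mul_comm]
        congr 2
        push_cast
        rfl
    _ ≤ _ := hcard.le
    _ ≤ _ := h9

end Pool.Agent.AAR
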