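import Pool.Agent.AAR.Bas

/-!
# AAR-DivC: counting divisors

`Nev Q₁ Q₂ s e H` is at most the sum of `4H/g` over the pairs `q ≤ Q₁`, `g ≤ 4H` with `s g ∣ q e`, `s g > Q₂`.
For given `q, g` the number of `e ∈ [1,2H]` with `s g ∣ q e` is at most `2 H q/(s g)`, and
`∑_{g ≥ k} 1/g² ≤ 2/k`.
-/

set_option autoImplicit false

namespace Pool.Agent.AAR

private theorem divc_sq (k n : ℕ) (hk : 1 ≤ k) :
    ∑ g ∈ Finset.Icc k n, (1 : ℝ) / (g : ℝ) ^ 2 ≤ 2 / k := by
  have hk0 : (0 : ℝ) < k := by exact_mod_cast hk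
  have key : ∀ m : ℕ, ∑ g ∈ Finset.Ico k (k + m), (1 : ℝ) / (g : ℝ) ^ 2 ≤ 2 / k - 2 / ((k : ℝ) + m) := by
    intro m
    induction m with
    | zero => simp
    | succ m ih =>
      rw [← add_assoc, Finset.sum_Ico_succ_top (by omega)]
      have hx : (0 : ℝ) < (k : ℝ) + m := by positivity
      have hx1 : (1 : ℝ) ≤ (k : ℝ) + m := by
        have : (1 : ℝ) ≤ k := by exact_mod_cast hk
        have : (0 : ℝ) ≤ m := by positivity
        linarith
      have h1 : (1 : ℝ) / ((k + m : ℕ) : ℝ) ^ 2 ≤ 2 / ((k : ℝ) + m) - 2 / ((k : ℝ) + (m + 1 : ℕ)) := by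
        push_cast
        have h2 : 2 / ((k : ℝ) + m) - 2 / ((k : ℝ) + (m + 1)) =
            2 / (((k : ℝ) + m) * ((k : ℝ) + m + 1)) := by
          field_simp
          ring
        rw [h2, div_le_div_iff₀ (by positivity) (by positivity)]
        nlinarith
      linarith
  have hsub : Finset.Icc k n ⊆ Finset.Ico k (k + (n + 1)) := by
    intro g hg
    rw [Finset.mem_Icc] at hg
    rw [Finset.mem_Ico]
    omega
  refine (Finset.sum_le_sum_of_subset_of_nonneg hsub fun g _ _ => by positivity).trans ?_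
  refine (key (n + 1)).trans ?_
  have : (0 : ℝ) ≤ 2 / ((k : ℝ) + ((n + 1 : ℕ) : ℝ)) := by positivity
  linarith

private theorem divc_cnt (M q N : ℕ) (hq : 1 ≤ q) (hN : 1 ≤ N) :
    (((Finset.Icc 1 M).filter (fun e => N ∣ q * e)).card : ℝ) ≤ M * q / N := by
  obtain ⟨N', q', hcop, hN', hq'⟩ := Nat.exists_coprime N q
  obtain ⟨d, hd⟩ : ∃ d, d = Nat.gcd N q := ⟨_, rfl⟩
  rw [← hd] at hN' hq'
  have hd0 : 0 < d := by
    rw [hd]
    exact Nat.gcd_pos_of_pos_left _ (by omega)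
  have hdq : d ≤ q := by
    rw [hd]
    exact Nat.gcd_le_right _ (by omega)
  have hN'0 : 0 < N' := by
    rcases Nat.eq_zero_or_pos N' with h | h
    · rw [h, zero_mul] at hN'
      omega
    · exact h
  have h1 : ((Finset.Icc 1 M).filter (fun e => N ∣ q * e)).card ≤ M / N' := by
    rw [← Nat.Ioc_filter_dvd_card_eq_div]
    apply Finset.card_le_card
    intro e he
    rw [Finset.mem_filter, Finset.mem_Icc] at he
    rw [Finset.mem_filter, Finset.mem_Ioc]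
    refine ⟨⟨by omega, he.1.2⟩, ?_⟩
    have h2 : d * N' ∣ d * (q' * e) := by
      have h3 := he.2
      rw [hN', hq'] at h3
      have e1 : d * N' = N' * d := by ring
      have e2 : d * (q' * e) = q' * d * e := by ring
      rw [e1, e2]
      exact h3
    exact hcop.dvd_of_dvd_mul_left (Nat.dvd_of_mul_dvd_mul_left hd0 h2)
  have h2 : (((Finset.Icc 1 M).filter (fun e => N ∣ q * e)).card : ℝ) ≤ (M : ℝ) / N' :=
    (by exact_mod_cast h1 : (((Finset.Icc 1 M).filter (fun e => N ∣ q * e)).card : ℝ) ≤ ((M / N' : ℕ) : ℝ)).trans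
      Nat.cast_div_le
  refine h2.trans ?_
  have hNr : (N : ℝ) = N' * d := by exact_mod_cast hN'
  have hd0' : (0 : ℝ) < d := by exact_mod_cast hd0
  have hN'0' : (0 : ℝ) < N' := by exact_mod_cast hN'0
  have hdq' : (d : ℝ) ≤ q := by exact_mod_cast hdq
  rw [hNr, div_le_div_iff₀ hN'0' (by positivity)]
  have h3 : (0 : ℝ) ≤ M * N' := by positivity
  nlinarith [mul_le_mul_of_nonneg_left hdq' h3]

private theorem divc_nev (H Q₁ Q₂ s e : ℕ) :
    (Nev Q₁ Q₂ s e H : ℝ) ≤ ∑ q ∈ Finset.Icc 1 Q₁,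
      ∑ g ∈ (Finset.Icc 1 (4 * H)).filter (fun g => Q₂ < s * g),
        if s * g ∣ q * e then (4 * H : ℝ) / g else 0 := by
  have h1 : Nev Q₁ Q₂ s e H ≤ ∑ q ∈ Finset.Icc 1 Q₁,
      ∑ g ∈ (Finset.Icc 1 (4 * H)).filter (fun g => Q₂ < s * g),
        if s * g ∣ q * e then ((ds H).filter (fun d => g ∣ d)).card else 0 := by
    classical
    unfold Nev
    refine (Finset.card_le_card (t := (Finset.Icc 1 Q₁).biUnion fun q =>
      ((Finset.Icc 1 (4 * H)).filter (fun g => Q₂ < s * g)).biUnion fun g =>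
        if s * g ∣ q * e then (ds H).filter (fun d => g ∣ d) else ∅) ?_).trans
      (Finset.card_biUnion_le.trans (Finset.sum_le_sum fun q _ =>
        Finset.card_biUnion_le.trans (Finset.sum_le_sum fun g _ => ?_)))
    · intro d hd
      rw [Finset.mem_filter] at hd
      obtain ⟨hd1, q, hq1, hq2, g, hg1, hg2, hg3, hg4⟩ := hd
      rw [Finset.mem_biUnion]
      refine ⟨q, Finset.mem_Icc.2 ⟨hq1, hq2⟩, ?_⟩
      rw [Finset.mem_biUnion]
      have hd2 : 2 * H < d ∧ d < 4 * H := by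
        rw [ds, Finset.mem_Ioo] at hd1
        exact hd1
      have hgd : g ≤ d := Nat.le_of_dvd (by omega) hg2
      refine ⟨g, ?_, ?_⟩
      · rw [Finset.mem_filter, Finset.mem_Icc]
        exact ⟨⟨hg1, by omega⟩, hg4⟩
      · rw [if_pos hg3, Finset.mem_filter]
        exact ⟨hd1, hg2⟩
    · split_ifs
      · exact le_rfl
      · simp
  refine (Nat.cast_le.2 h1).trans ?_
  push_cast
  refine Finset.sum_le_sum fun q _ => Finset.sum_le_sum fun g _ => ?_
  split_ifs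
  · have h2 : ((ds H).filter (fun d => g ∣ d)).card ≤ (4 * H) / g := by
      rw [← Nat.Ioc_filter_dvd_card_eq_div]
      apply Finset.card_le_card
      intro d hd
      rw [Finset.mem_filter, ds, Finset.mem_Ioo] at hd
      rw [Finset.mem_filter, Finset.mem_Ioc]
      exact ⟨⟨by omega, by omega⟩, hd.2⟩
    have h3 : (((ds H).filter (fun d => g ∣ d)).card : ℝ) ≤ (((4 * H) / g : ℕ) : ℝ) := by
      exact_mod_cast h2
    refine h3.trans (Nat.cast_div_le.trans (le_of_eq ?_))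
    push_cast
    ring
  · exact le_rfl

theorem divc (H Q₁ Q₂ s : ℕ) (hH : 1 ≤ H) (hQ₁ : 1 ≤ Q₁) (hQ₂ : 1 ≤ Q₂) (hs : 1 ≤ s) :
    ∑ e ∈ Finset.Icc 1 (2 * H), (Nev Q₁ Q₂ s e H : ℝ) ≤
      16 * (H : ℝ) ^ 2 * (Q₁ : ℝ) ^ 2 / Q₂ := by
  have hs0 : (0 : ℝ) < s := by exact_mod_cast hs
  have hQ20 : (0 : ℝ) < Q₂ := by exact_mod_cast hQ₂
  have h1 : ∑ e ∈ Finset.Icc 1 (2 * H), (Nev Q₁ Q₂ s e H : ℝ) ≤
      ∑ q ∈ Finset.Icc 1 Q₁, ∑ g ∈ (Finset.Icc 1 (4 * H)).filter (fun g => Q₂ < s * g),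
        ∑ e ∈ Finset.Icc 1 (2 * H), if s * g ∣ q * e then (4 * H : ℝ) / g else 0 := by
    refine (Finset.sum_le_sum fun e _ => divc_nev H Q₁ Q₂ s e).trans (le_of_eq ?_)
    rw [Finset.sum_comm]
    refine Finset.sum_congr rfl fun q _ => ?_
    rw [Finset.sum_comm]
  refine h1.trans ?_
  have h2 : ∀ q ∈ Finset.Icc 1 Q₁, ∑ g ∈ (Finset.Icc 1 (4 * H)).filter (fun g => Q₂ < s * g),
      ∑ e ∈ Finset.Icc 1 (2 * H), (if s * g ∣ q * e then (4 * H : ℝ) / g else 0) ≤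
        16 * (H : ℝ) ^ 2 * Q₁ / Q₂ := by
    intro q hq
    rw [Finset.mem_Icc] at hq
    have hq0 : (q : ℝ) ≤ Q₁ := by exact_mod_cast hq.2
    have h3 : ∀ g ∈ (Finset.Icc 1 (4 * H)).filter (fun g => Q₂ < s * g),
        ∑ e ∈ Finset.Icc 1 (2 * H), (if s * g ∣ q * e then (4 * H : ℝ) / g else 0) ≤
          (8 * (H : ℝ) ^ 2 * Q₁ / s) * (1 / (g : ℝ) ^ 2) := by
      intro g hg
      rw [Finset.mem_filter, Finset.mem_Icc] at hg
      have hg0 : (0 : ℝ) < g := by exact_mod_cast hg.1.1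
      rw [← Finset.sum_filter, Finset.sum_const, nsmul_eq_mul]
      have h4 := divc_cnt (2 * H) q (s * g) hq.1 (Nat.mul_pos hs hg.1.1)
      have h5 : (((2 * H : ℕ) : ℝ)) * q / ((s * g : ℕ) : ℝ) ≤ 2 * H * Q₁ / (s * g) := by
        push_cast
        gcongr
      calc (((Finset.Icc 1 (2 * H)).filter (fun e => s * g ∣ q * e)).card : ℝ) * ((4 * H : ℝ) / g)
          ≤ (2 * H * Q₁ / (s * g)) * ((4 * H : ℝ) / g) := by
            gcongr
            exact h4.trans h5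
        _ = (8 * (H : ℝ) ^ 2 * Q₁ / s) * (1 / (g : ℝ) ^ 2) := by
            field_simp
            ring
    refine (Finset.sum_le_sum h3).trans ?_
    rw [← Finset.mul_sum]
    have h6 : ∑ g ∈ (Finset.Icc 1 (4 * H)).filter (fun g => Q₂ < s * g), (1 : ℝ) / (g : ℝ) ^ 2 ≤
        2 / ((Q₂ / s + 1 : ℕ) : ℝ) := by
      refine (Finset.sum_le_sum_of_subset_of_nonneg (t := Finset.Icc (Q₂ / s + 1) (4 * H)) ?_
        fun g _ _ => by positivity).trans (divc_sq _ _ (Nat.le_add_left 1 _))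
      intro g hg
      rw [Finset.mem_filter, Finset.mem_Icc] at hg
      rw [Finset.mem_Icc]
      refine ⟨?_, hg.1.2⟩
      have : Q₂ / s < g := (Nat.div_lt_iff_lt_mul (by omega)).2 (by rw [mul_comm]; exact hg.2)
      omega
    have h7 : (2 : ℝ) / ((Q₂ / s + 1 : ℕ) : ℝ) ≤ 2 * s / Q₂ := by
      rw [div_le_div_iff₀ (by positivity) hQ20]
      have h8 : Q₂ ≤ s * (Q₂ / s + 1) := (Nat.lt_mul_div_succ Q₂ (by omega)).le
      have h9 : (Q₂ : ℝ) ≤ s * ((Q₂ / s + 1 : ℕ) : ℝ) := by exact_mod_cast h8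
      linarith
    calc (8 * (H : ℝ) ^ 2 * Q₁ / s) * ∑ g ∈ (Finset.Icc 1 (4 * H)).filter (fun g => Q₂ < s * g),
          (1 : ℝ) / (g : ℝ) ^ 2
        ≤ (8 * (H : ℝ) ^ 2 * Q₁ / s) * (2 * s / Q₂) := by
          gcongr
          exact h6.trans h7
      _ = 16 * (H : ℝ) ^ 2 * Q₁ / Q₂ := by
          field_simp
          ring
  refine (Finset.sum_le_sum h2).trans (le_of_eq ?_)
  rw [Finset.sum_const, Nat.card_Icc, nsmul_eq_mul]
  simp only [Nat.add_sub_cancel]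
  ring

end Pool.Agent.AAR
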