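import Pool.Agent.AAR.Bas

/-!
# AAR-Evt: the denominator of `β`

PLAN.  Call `(d₀, d₁, ψ, φ, q)` an event if all hypotheses after the quantifiers hold; let
`e = d₁ - d₀`, `mm = q |e|`, `em ≤ |e| ≤ mm ≤ 2 Q₁ H`.  Since `e φ = d₁ ψ + (d₁(φ-ψ) - β)·(-1)...`,
precisely `(d₁ - d₀) φ - d₁ ψ = (d₁(φ-ψ) - β) - (d₀ φ - β)`, we get
`nint (mm φ) ≤ 2 Q₁ θ + 4 H ω₁ =: ω₂` (use `nint (q d₁ ψ) ≤ d₁ nint (q ψ)`), so `φ = a/mm + κ`,
`|κ| ≤ ω₂/mm ≤ ω₂/em ≤ r`.  Reduce `a/mm = a'/b`; `Far r Q₂ φ` gives `b > Q₂`.  Then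
`nint (β - d₀ a'/b) ≤ θ + 4 H ω₂/em =: ω₃`.  Let `g = gcd(b, d₀)`, `s = b/g`: `d₀ a'/b = r'/s` with
`gcd(r',s) = 1`, `g ∣ d₀`, `s g = b ∣ mm`, `b > Q₂`.  Two events give fractions `r'/s`, `r''/s'` with
denominators `≤ 2 Q₁ H` and `nint (r'/s - r''/s') ≤ 2 ω₃ < 1/(2 Q₁ H)²`, hence they are equal mod 1 and
`s = s'`.  If there is no event take `s = 1`.
-/

set_option autoImplicit false

namespace Pool.Agent.AAR

private theorem Evt_one (H Q₁ Q₂ : ℕ) (θ ω₁ em r β : ℝ) (hθ : 0 ≤ θ)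
    (hω : 0 ≤ ω₁) (hem : 0 < em) (hr : (2 * Q₁ * θ + 4 * H * ω₁) / em ≤ r)
    {d₀ d₁ : ℕ} (hd₀ : d₀ ∈ ds H) (hd₁ : d₁ ∈ ds H) {ψ φ : ℝ} {q : ℕ} (hq : 1 ≤ q) (hq' : q ≤ Q₁)
    (hψ : nint (q * ψ) ≤ ω₁) (he : em ≤ |(d₁ : ℝ) - d₀|) (hφ : Far r Q₂ φ) (h0 : nint (d₀ * φ - β) ≤ θ)
    (h1 : nint (d₁ * (φ - ψ) - β) ≤ θ) :
    ∃ s g : ℕ, ∃ c : ℤ, 1 ≤ s ∧ s ≤ 2 * Q₁ * H ∧ Nat.Coprime c.natAbs s ∧
      nint (β - c / s) ≤ θ + 4 * H * ((2 * Q₁ * θ + 4 * H * ω₁) / em) ∧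
      1 ≤ g ∧ g ∣ d₀ ∧ s * g ∣ q * ((d₁ : ℤ) - d₀).natAbs ∧ Q₂ < s * g := by
  rw [ds, Finset.mem_Ioo] at hd₀ hd₁
  obtain ⟨e, hee⟩ : ∃ e : ℤ, e = (d₁ : ℤ) - d₀ := ⟨_, rfl⟩
  rw [← hee]
  have hecast : (e : ℝ) = (d₁ : ℝ) - d₀ := by
    rw [hee]
    push_cast
    ring
  rw [← hecast] at he
  have hepos : 0 < |(e : ℝ)| := lt_of_lt_of_le hem he
  have hne : e ≠ 0 := by
    intro h
    rw [h] at hepos
    simp at hepos
  have hN1 : 1 ≤ e.natAbs := Int.natAbs_pos.2 hne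
  have hN2 : e.natAbs ≤ 2 * H := by omega
  obtain ⟨mm, hmm⟩ : ∃ mm : ℕ, mm = q * e.natAbs := ⟨_, rfl⟩
  rw [← hmm]
  have hmm1 : 1 ≤ mm := by
    rw [hmm]
    exact Nat.mul_pos hq hN1
  have hmm2 : mm ≤ 2 * Q₁ * H := by
    rw [hmm]
    calc q * e.natAbs ≤ Q₁ * (2 * H) := Nat.mul_le_mul hq' hN2
      _ = 2 * Q₁ * H := by ring
  have hNabs : ((e.natAbs : ℕ) : ℝ) = |(e : ℝ)| := by
    rw [Nat.cast_natAbs, Int.cast_abs]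
  have hmmc : (mm : ℝ) = q * |(e : ℝ)| := by
    rw [hmm, Nat.cast_mul, hNabs]
  have hq1 : (1 : ℝ) ≤ q := by exact_mod_cast hq
  have hqQ : (q : ℝ) ≤ Q₁ := by exact_mod_cast hq'
  have hmmem : em ≤ mm := by
    rw [hmmc]
    nlinarith
  have hd1R : (d₁ : ℝ) ≤ 4 * H := by exact_mod_cast hd₁.2.le
  have hd0R : (d₀ : ℝ) ≤ 4 * H := by exact_mod_cast hd₀.2.le
  obtain ⟨ω₂, hω₂⟩ : ∃ w : ℝ, w = 2 * Q₁ * θ + 4 * H * ω₁ := ⟨_, rfl⟩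
  rw [← hω₂] at hr ⊢
  have hω₂0 : 0 ≤ ω₂ := by
    rw [hω₂]
    positivity
  -- `mm φ` is near an integer
  have hA : nint (e * φ - d₁ * ψ) ≤ 2 * θ := by
    have e1 : (e : ℝ) * φ - d₁ * ψ = (d₁ * (φ - ψ) - β) - (d₀ * φ - β) := by
      rw [hecast]
      ring
    rw [e1]
    exact (nint_sub _ _).trans (by linarith)
  have hB : nint (q * (e * φ)) ≤ ω₂ := by
    have e1 : (q : ℝ) * (e * φ) = q * (e * φ - d₁ * ψ) + d₁ * (q * ψ) := by ring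
    rw [e1]
    have h2 := nint_mul_nat q ((e : ℝ) * φ - d₁ * ψ)
    have h3 := nint_mul_nat d₁ ((q : ℝ) * ψ)
    have h4 : (q : ℝ) * nint (e * φ - d₁ * ψ) ≤ Q₁ * (2 * θ) :=
      mul_le_mul hqQ hA (nint_nonneg _) (by positivity)
    have h5 : (d₁ : ℝ) * nint (q * ψ) ≤ 4 * H * ω₁ :=
      mul_le_mul hd1R hψ (nint_nonneg _) (by positivity)
    have h6 := nint_add ((q : ℝ) * (e * φ - d₁ * ψ)) (d₁ * (q * ψ))
    rw [hω₂]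
    linarith
  have hC : nint (mm * φ) ≤ ω₂ := by
    rw [hmmc]
    rcases abs_choice (e : ℝ) with h | h
    · rw [h, mul_assoc]
      exact hB
    · rw [h]
      have e1 : (q : ℝ) * -(e : ℝ) * φ = -(q * (e * φ)) := by ring
      rw [e1, nint_neg]
      exact hB
  obtain ⟨a, ha⟩ := exists_int ((mm : ℝ) * φ)
  rw [ha] at hC
  have hmm0 : (0 : ℝ) < mm := by exact_mod_cast hmm1
  obtain ⟨x, hx⟩ : ∃ x : ℚ, x = Rat.divInt a (mm : ℤ) := ⟨_, rfl⟩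
  have hxR : (x : ℝ) = (a : ℝ) / mm := by
    rw [hx, Rat.divInt_eq_div]
    push_cast
    rfl
  have hκ : |φ - x| ≤ ω₂ / em := by
    have e1 : φ - x = (mm * φ - a) / mm := by
      rw [hxR]
      field_simp
    rw [e1, abs_div, abs_of_pos hmm0]
    exact div_le_div₀ hω₂0 hC hem hmmem
  obtain ⟨b, hb⟩ : ∃ b : ℕ, b = x.den := ⟨_, rfl⟩
  have hb1 : 1 ≤ b := by
    rw [hb]
    exact x.den_pos
  have hbmm : b ∣ mm := by
    have h2 := Rat.den_dvd a (mm : ℤ)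
    rw [← hx, ← hb] at h2
    exact_mod_cast h2
  have hxb : (x : ℝ) = (x.num : ℝ) / b := by
    rw [hb]
    exact_mod_cast (Rat.num_div_den x).symm
  have hbQ : Q₂ < b := by
    by_contra hcon
    push Not at hcon
    have h2 := hφ b hb1 hcon x.num
    rw [← hxb] at h2
    have h3 := (nint_abs (φ - x)).trans (hκ.trans hr)
    exact absurd h2 (not_lt.2 h3)
  -- the fraction `d₀ x`
  obtain ⟨g, hg⟩ : ∃ g : ℕ, g = Nat.gcd b d₀ := ⟨_, rfl⟩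
  have hg1 : 1 ≤ g := by
    rw [hg]
    exact Nat.gcd_pos_of_pos_left _ hb1
  obtain ⟨s, hs⟩ : g ∣ b := by
    rw [hg]
    exact Nat.gcd_dvd_left _ _
  obtain ⟨t, ht⟩ : g ∣ d₀ := by
    rw [hg]
    exact Nat.gcd_dvd_right _ _
  have hs1 : 1 ≤ s := by
    rcases Nat.eq_zero_or_pos s with h | h
    · rw [h, mul_zero] at hs
      omega
    · exact h
  have hst : Nat.Coprime s t := by
    have h2 := Nat.coprime_div_gcd_div_gcd (m := b) (n := d₀) (by rw [← hg]; exact hg1)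
    rw [← hg, hs, ht, Nat.mul_div_cancel_left _ hg1, Nat.mul_div_cancel_left _ hg1] at h2
    exact h2
  have hnb : Nat.Coprime x.num.natAbs s := by
    have h2 : Nat.Coprime x.num.natAbs b := by
      rw [hb]
      exact x.reduced
    exact Nat.Coprime.coprime_dvd_right ⟨g, by rw [hs, mul_comm]⟩ h2
  have hg0 : (0 : ℝ) < g := by exact_mod_cast hg1
  have hs0 : (0 : ℝ) < s := by exact_mod_cast hs1
  refine ⟨s, g, (t : ℤ) * x.num, hs1, ?_, ?_, ?_, hg1, ⟨t, ht⟩, ?_, ?_⟩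
  · calc s ≤ g * s := Nat.le_mul_of_pos_left _ hg1
      _ = b := hs.symm
      _ ≤ mm := Nat.le_of_dvd hmm1 hbmm
      _ ≤ 2 * Q₁ * H := hmm2
  · rw [Int.natAbs_mul, Int.natAbs_natCast]
    exact Nat.Coprime.mul_left hst.symm hnb
  · have e1 : (((t : ℤ) * x.num : ℤ) : ℝ) / s = d₀ * x := by
      rw [hxb, ht, hs]
      push_cast
      field_simp
    rw [e1]
    have e2 : β - d₀ * x = -(d₀ * φ - β) + d₀ * (φ - x) := by ring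
    rw [e2]
    refine (nint_add _ _).trans ?_
    rw [nint_neg]
    have h2 : nint ((d₀ : ℝ) * (φ - x)) ≤ 4 * H * (ω₂ / em) := by
      refine (nint_abs _).trans ?_
      rw [abs_mul, abs_of_nonneg (Nat.cast_nonneg d₀)]
      exact mul_le_mul hd0R hκ (abs_nonneg _) (by positivity)
    linarith
  · rw [mul_comm s g, ← hs]
    exact hbmm
  · rw [mul_comm s g, ← hs]
    exact hbQ

private theorem Evt_uniq (N : ℕ) (β ω : ℝ) (hω : 2 * ω * (N : ℝ) ^ 2 < 1) {s s' : ℕ} {c c' : ℤ}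
    (hs : 1 ≤ s) (hsN : s ≤ N) (hc : Nat.Coprime c.natAbs s) (h : nint (β - c / s) ≤ ω)
    (hs' : 1 ≤ s') (hsN' : s' ≤ N) (hc' : Nat.Coprime c'.natAbs s') (h' : nint (β - c' / s') ≤ ω) :
    s = s' := by
  have hs0 : (0 : ℝ) < s := by exact_mod_cast hs
  have hs0' : (0 : ℝ) < s' := by exact_mod_cast hs'
  have hsNR : (s : ℝ) ≤ N := by exact_mod_cast hsN
  have hsNR' : (s' : ℝ) ≤ N := by exact_mod_cast hsN'
  have h1 : nint ((c : ℝ) / s - c' / s') ≤ 2 * ω := by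
    have e1 : (c : ℝ) / s - c' / s' = (β - c' / s') - (β - c / s) := by ring
    rw [e1]
    exact (nint_sub _ _).trans (by linarith)
  obtain ⟨n, hn⟩ := exists_int ((c : ℝ) / s - c' / s')
  rw [hn] at h1
  have h0 : (0 : ℝ) ≤ ω := (nint_nonneg _).trans h
  -- the integer
  have h2 : |((c * s' - c' * s - n * (s * s') : ℤ) : ℝ)| < 1 := by
    have e1 : ((c * s' - c' * s - n * (s * s') : ℤ) : ℝ) = ((c : ℝ) / s - c' / s' - n) * (s * s') := by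
      push_cast
      field_simp
    rw [e1, abs_mul, abs_of_pos (mul_pos hs0 hs0')]
    calc |(c : ℝ) / s - c' / s' - n| * (s * s') ≤ 2 * ω * (s * s') :=
          mul_le_mul_of_nonneg_right h1 (by positivity)
      _ ≤ 2 * ω * (N * N) := by
          refine mul_le_mul_of_nonneg_left ?_ (by positivity)
          exact mul_le_mul hsNR hsNR' hs0'.le (by positivity)
      _ < 1 := by
          have e2 : 2 * ω * ((N : ℝ) * N) = 2 * ω * (N : ℝ) ^ 2 := by ring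
          rw [e2]
          exact hω
  have h3 : c * s' - c' * s - n * (s * s') = 0 := by
    have : |c * s' - c' * s - n * (s * s')| < 1 := by exact_mod_cast h2
    exact Int.abs_lt_one_iff.1 this
  have hd1 : (s : ℤ) ∣ c * s' := ⟨c' + n * s', by linarith⟩
  have hd2 : (s' : ℤ) ∣ c' * s := ⟨c - n * s, by linarith⟩
  have hd1' : s ∣ c.natAbs * s' := by
    have := Int.natAbs_dvd_natAbs.2 hd1
    rwa [Int.natAbs_mul, Int.natAbs_natCast, Int.natAbs_natCast] at this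
  have hd2' : s' ∣ c'.natAbs * s := by
    have := Int.natAbs_dvd_natAbs.2 hd2
    rwa [Int.natAbs_mul, Int.natAbs_natCast, Int.natAbs_natCast] at this
  exact Nat.dvd_antisymm (Nat.Coprime.dvd_of_dvd_mul_left hc.symm hd1')
    (Nat.Coprime.dvd_of_dvd_mul_left hc'.symm hd2')

theorem evt (H Q₁ Q₂ : ℕ) (θ ω₁ em r β : ℝ) (hH : 1 ≤ H) (hQ₁ : 1 ≤ Q₁) (hθ : 0 ≤ θ)
    (hω : 0 ≤ ω₁) (hem : 0 < em) (hr : (2 * Q₁ * θ + 4 * H * ω₁) / em ≤ r)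
    (hu : 8 * (Q₁ : ℝ) ^ 2 * (H : ℝ) ^ 2 * (θ + 4 * H * ((2 * Q₁ * θ + 4 * H * ω₁) / em)) < 1) :
    ∃ s : ℕ, 1 ≤ s ∧ ∀ d₀ ∈ ds H, ∀ d₁ ∈ ds H, ∀ ψ φ : ℝ, ∀ q : ℕ, 1 ≤ q → q ≤ Q₁ →
      nint (q * ψ) ≤ ω₁ → em ≤ |(d₁ : ℝ) - d₀| → Far r Q₂ φ → nint (d₀ * φ - β) ≤ θ →
      nint (d₁ * (φ - ψ) - β) ≤ θ →
      ∃ g : ℕ, 1 ≤ g ∧ g ∣ d₀ ∧ s * g ∣ q * ((d₁ : ℤ) - d₀).natAbs ∧ Q₂ < s * g := by
  by_cases hex : ∃ s : ℕ, ∃ c : ℤ, 1 ≤ s ∧ s ≤ 2 * Q₁ * H ∧ Nat.Coprime c.natAbs s ∧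
      nint (β - c / s) ≤ θ + 4 * H * ((2 * Q₁ * θ + 4 * H * ω₁) / em)
  · obtain ⟨s, c, hs1, hsN, hc, hβ⟩ := hex
    refine ⟨s, hs1, fun d₀ hd₀ d₁ hd₁ ψ φ q hq hq' hψ he hφ h0 h1 => ?_⟩
    obtain ⟨s', g, c', hs1', hsN', hc', hβ', hg1, hgd, hdvd, hQ⟩ :=
      Evt_one H Q₁ Q₂ θ ω₁ em r β hθ hω hem hr hd₀ hd₁ hq hq' hψ he hφ h0 h1
    have hss : s = s' := by
      refine Evt_uniq (2 * Q₁ * H) β _ ?_ hs1 hsN hc hβ hs1' hsN' hc' hβ'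
      refine lt_of_eq_of_lt ?_ hu
      push_cast
      ring
    rw [hss]
    exact ⟨g, hg1, hgd, hdvd, hQ⟩
  · refine ⟨1, le_rfl, fun d₀ hd₀ d₁ hd₁ ψ φ q hq hq' hψ he hφ h0 h1 => ?_⟩
    obtain ⟨s', g, c', hs1', hsN', hc', hβ', -⟩ :=
      Evt_one H Q₁ Q₂ θ ω₁ em r β hθ hω hem hr hd₀ hd₁ hq hq' hψ he hφ h0 h1
    exact absurd ⟨s', c', hs1', hsN', hc', hβ'⟩ hex

end Pool.Agent.AAR
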