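import Pool.Agent.AAR.Bas

/-!
# AAR-Lsv: a large sieve inequality

PLAN.  For `s, r` let `ts s r = ‖τ(β_{s,r})‖`, `β_{s,r}` a maximum point of the continuous function `‖τ‖` on
`[r/s - w, r/s + w]` (`IsCompact.exists_isMaxOn`; `τ` has period 1, so `nint (β - r/s) ≤ w` suffices).
For `2 ≤ s ≤ Q`, `r < s` coprime, the at most `J = Q²` points `β_{s,r}` satisfy
`nint (β - β') ≥ 1/Q² - 2w ≥ 1/(2Q²)` for different `(s,r)`.  Duality: for complex `b`,
`∑_{k ≤ K} |∑_i b_i e(k β_i)|² ≤ K ∑ |b_i|² + ∑_{i≠i'} |b_i b_i'| /(2 nint(β_i - β_i')) ≤ (K + J Q²) ∑ |b_i|²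
≤ 2K ∑ |b_i|²`, hence with `b_i = conj τ(β_i)`: `∑ |τ(β_i)|² = ∑_{k ∈ T} ∑_i b_i e(kβ_i) ≤
|T|^{1/2} (2K ∑ |b_i|²)^{1/2}`.
-/

set_option autoImplicit false

namespace Pool.Agent.AAR

private theorem lsv_sin {y : ℝ} (h : |y| ≤ 1 / 2) : 2 * |y| ≤ |Real.sin (Real.pi * y)| := by
  have hp := Real.pi_pos
  have h1 : |Real.sin (Real.pi * y)| = |Real.sin (Real.pi * |y|)| := by
    rcases abs_choice y with h2 | h2
    · rw [h2]
    · rw [h2, mul_neg, Real.sin_neg, abs_neg]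
  rw [h1]
  refine le_trans ?_ (le_abs_self _)
  have h2 := Real.mul_le_sin (x := Real.pi * |y|) (by positivity) (by nlinarith)
  have h3 : 2 / Real.pi * (Real.pi * |y|) = 2 * |y| := by field_simp
  rwa [h3] at h2

private theorem lsv_low (x : ℝ) : 4 * nint x ≤ ‖ee x - 1‖ := by
  have h0 : |x - round x| ≤ 1 / 2 := abs_sub_round x
  rw [← ee_sub_round x, nint]
  set y := x - round x with hy
  have h := Complex.norm_exp_I_mul_ofReal_sub_one (2 * Real.pi * y)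
  rw [ee, mul_comm _ Complex.I, h]
  have h2 : 2 * Real.pi * y / 2 = Real.pi * y := by ring
  rw [h2, norm_mul, Real.norm_eq_abs, Real.norm_eq_abs, abs_of_pos (by norm_num : (0 : ℝ) < 2)]
  have h3 := lsv_sin h0
  linarith

private theorem lsv_geo (z : ℂ) (K : ℕ) : (z - 1) * ∑ k ∈ Finset.Icc 1 K, z ^ k = z ^ (K + 1) - z := by
  induction K with
  | zero => simp
  | succ K ih =>
    rw [Finset.sum_Icc_succ_top (by omega), mul_add, ih]
    ring

private theorem lsv_sum (K : ℕ) (α : ℝ) : 4 * nint α * ‖∑ k ∈ Finset.Icc 1 K, ee (k * α)‖ ≤ 2 := by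
  have h1 : ∑ k ∈ Finset.Icc 1 K, ee (k * α) = ∑ k ∈ Finset.Icc 1 K, ee α ^ k :=
    Finset.sum_congr rfl fun k _ => ee_nsmul k α
  have h2 : ‖ee α - 1‖ * ‖∑ k ∈ Finset.Icc 1 K, ee α ^ k‖ ≤ 2 := by
    rw [← norm_mul, lsv_geo]
    refine (norm_sub_le _ _).trans ?_
    rw [norm_pow, ee_norm, one_pow]
    norm_num
  rw [h1]
  exact (mul_le_mul_of_nonneg_right (lsv_low α) (norm_nonneg _)).trans h2

private theorem lsv_dual {ι : Type*} [DecidableEq ι] (I : Finset ι) (β : ι → ℝ) (b : ι → ℂ) (K : ℕ) (D : ℝ)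
    (hD : 0 ≤ D)
    (h : ∀ i ∈ I, ∀ j ∈ I, i ≠ j → ‖∑ k ∈ Finset.Icc 1 K, ee (k * (β i - β j))‖ ≤ D) :
    ∑ k ∈ Finset.Icc 1 K, ‖∑ i ∈ I, b i * ee (k * β i)‖ ^ 2 ≤
      (K + D * I.card) * ∑ i ∈ I, ‖b i‖ ^ 2 := by
  have e1 : ((∑ k ∈ Finset.Icc 1 K, ‖∑ i ∈ I, b i * ee (k * β i)‖ ^ 2 : ℝ) : ℂ) =
      ∑ i ∈ I, ∑ j ∈ I, (b i * (starRingEnd ℂ) (b j)) * ∑ k ∈ Finset.Icc 1 K, ee (k * (β i - β j)) := by
    have e2 : ∀ k : ℕ, ((‖∑ i ∈ I, b i * ee (k * β i)‖ ^ 2 : ℝ) : ℂ) =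
        ∑ i ∈ I, ∑ j ∈ I, (b i * (starRingEnd ℂ) (b j)) * ee (k * (β i - β j)) := by
      intro k
      have e3 : ((‖∑ i ∈ I, b i * ee (k * β i)‖ ^ 2 : ℝ) : ℂ) =
          (∑ i ∈ I, b i * ee (k * β i)) * (starRingEnd ℂ) (∑ i ∈ I, b i * ee (k * β i)) := by
        rw [Complex.mul_conj, Complex.normSq_eq_norm_sq]
      rw [e3, map_sum, Finset.sum_mul_sum]
      refine Finset.sum_congr rfl fun i _ => Finset.sum_congr rfl fun j _ => ?_
      rw [map_mul, ee_conj, mul_sub, sub_eq_add_neg, ee_add]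
      ring
    push_cast
    rw [Finset.sum_congr rfl fun k _ => by
      have := e2 k
      push_cast at this
      exact this]
    rw [Finset.sum_comm]
    refine Finset.sum_congr rfl fun i _ => ?_
    rw [Finset.sum_comm]
    refine Finset.sum_congr rfl fun j _ => ?_
    rw [Finset.mul_sum]
  have e4 : ∀ i ∈ I, ∀ j ∈ I, ‖∑ k ∈ Finset.Icc 1 K, ee (k * (β i - β j))‖ ≤
      (if i = j then (K : ℝ) else 0) + D := by
    intro i hi j hj
    split_ifs with hij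
    · refine le_trans (norm_sum_le _ _) ?_
      rw [Finset.sum_congr rfl fun k _ => ee_norm _]
      simp [hD]
    · rw [zero_add]
      exact h i hi j hj hij
  have e5 : ∑ k ∈ Finset.Icc 1 K, ‖∑ i ∈ I, b i * ee (k * β i)‖ ^ 2 ≤
      ∑ i ∈ I, ∑ j ∈ I, (‖b i‖ * ‖b j‖) * ((if i = j then (K : ℝ) else 0) + D) := by
    have e6 : ∑ k ∈ Finset.Icc 1 K, ‖∑ i ∈ I, b i * ee (k * β i)‖ ^ 2 ≤
        ‖((∑ k ∈ Finset.Icc 1 K, ‖∑ i ∈ I, b i * ee (k * β i)‖ ^ 2 : ℝ) : ℂ)‖ := by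
      rw [Complex.norm_real]
      exact le_abs_self _
    refine e6.trans ?_
    rw [e1]
    refine (norm_sum_le _ _).trans (Finset.sum_le_sum fun i hi => ?_)
    refine (norm_sum_le _ _).trans (Finset.sum_le_sum fun j hj => ?_)
    rw [norm_mul, norm_mul, Complex.norm_conj]
    exact mul_le_mul_of_nonneg_left (e4 i hi j hj) (by positivity)
  refine e5.trans ?_
  have e7 : ∑ i ∈ I, ∑ j ∈ I, (‖b i‖ * ‖b j‖) * ((if i = j then (K : ℝ) else 0) + D) =
      K * ∑ i ∈ I, ‖b i‖ ^ 2 + D * (∑ i ∈ I, ‖b i‖) ^ 2 := by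
    have e8 : ∀ i ∈ I, ∑ j ∈ I, (‖b i‖ * ‖b j‖) * ((if i = j then (K : ℝ) else 0) + D) =
        K * ‖b i‖ ^ 2 + D * (‖b i‖ * ∑ j ∈ I, ‖b j‖) := by
      intro i hi
      have e9 : ∀ j ∈ I, (‖b i‖ * ‖b j‖) * ((if i = j then (K : ℝ) else 0) + D) =
          (if i = j then K * (‖b i‖ * ‖b j‖) else 0) + D * (‖b i‖ * ‖b j‖) := by
        intro j _
        split_ifs <;> ring
      rw [Finset.sum_congr rfl e9, Finset.sum_add_distrib, Finset.sum_ite_eq, if_pos hi, ← Finset.mul_sum,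
        ← Finset.mul_sum]
      ring
    rw [Finset.sum_congr rfl e8, Finset.sum_add_distrib, ← Finset.mul_sum, ← Finset.mul_sum, ← Finset.sum_mul]
    ring
  rw [e7]
  have e10 := sq_sum_le_card_mul_sum_sq (s := I) (f := fun i => ‖b i‖)
  have e11 := mul_le_mul_of_nonneg_left e10 hD
  linarith

/-- different reduced fractions in `[0,1)` -/
private theorem lsv_sep {Q s r s' r' : ℕ} (hs : 2 ≤ s) (hsQ : s ≤ Q) (hr : r < s) (hc : Nat.Coprime r s)
    (hs' : 2 ≤ s') (hsQ' : s' ≤ Q) (hr' : r' < s') (hc' : Nat.Coprime r' s') (hne : ¬ (s = s' ∧ r = r')) :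
    1 / (Q : ℝ) ^ 2 ≤ nint ((r : ℝ) / s - (r' : ℝ) / s') := by
  obtain ⟨n, hn⟩ := exists_int ((r : ℝ) / s - (r' : ℝ) / s')
  rw [hn]
  have hs0 : (0 : ℝ) < s := by exact_mod_cast (by omega : 0 < s)
  have hs0' : (0 : ℝ) < s' := by exact_mod_cast (by omega : 0 < s')
  have hQ0 : (0 : ℝ) < Q := by exact_mod_cast (by omega : 0 < Q)
  have e : (r : ℝ) / s - (r' : ℝ) / s' - n = (((r : ℤ) * s' - r' * s - n * s * s' : ℤ) : ℝ) / (s * s') := by
    push_cast
    field_simp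
  have hm : ((r : ℤ) * s' - r' * s - n * s * s' : ℤ) ≠ 0 := by
    intro h0
    have d1 : (s : ℤ) ∣ (r : ℤ) * s' := ⟨r' + n * s', by linear_combination h0⟩
    have d2 : (s' : ℤ) ∣ (r' : ℤ) * s := ⟨r - n * s, by linear_combination -h0⟩
    have d3 : s ∣ s' := by
      have h1 : s ∣ r * s' := by exact_mod_cast d1
      exact Nat.Coprime.dvd_of_dvd_mul_left hc.symm h1
    have d4 : s' ∣ s := by
      have h1 : s' ∣ r' * s := by exact_mod_cast d2
      exact Nat.Coprime.dvd_of_dvd_mul_left hc'.symm h1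
    have hss : s = s' := Nat.dvd_antisymm d3 d4
    subst hss
    apply hne
    refine ⟨rfl, ?_⟩
    have hs1 : (s : ℤ) ≠ 0 := by exact_mod_cast (by omega : s ≠ 0)
    have h2 : (r : ℤ) - r' - n * s = 0 := by
      have h3 : (s : ℤ) * ((r : ℤ) - r' - n * s) = 0 := by linear_combination h0
      rcases mul_eq_zero.1 h3 with h4 | h4
      · exact absurd h4 hs1
      · exact h4
    have h5 : n = 0 := by
      have h6 : |n * s| < s := by
        have h7 : n * s = (r : ℤ) - r' := by linarith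
        rw [h7, abs_lt]
        constructor <;> omega
      rw [abs_mul, Nat.abs_cast] at h6
      have h8 : |n| < 1 := by
        by_contra hcon
        have h9 : (1 : ℤ) ≤ |n| := by omega
        have h10 : (1 : ℤ) * s ≤ |n| * s := mul_le_mul_of_nonneg_right h9 (by positivity)
        linarith
      exact Int.abs_lt_one_iff.1 h8
    rw [h5] at h2
    omega
  rw [e, abs_div, abs_of_pos (mul_pos hs0 hs0')]
  have h1 : (1 : ℝ) ≤ |(((r : ℤ) * s' - r' * s - n * s * s' : ℤ) : ℝ)| := by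
    rw [← Int.cast_abs]
    exact_mod_cast Int.one_le_abs hm
  rw [div_le_div_iff₀ (by positivity) (by positivity)]
  have h2 : (s : ℝ) * s' ≤ (Q : ℝ) ^ 2 := by
    have a1 : (s : ℝ) ≤ Q := by exact_mod_cast hsQ
    have a2 : (s' : ℝ) ≤ Q := by exact_mod_cast hsQ'
    nlinarith
  nlinarith [sq_nonneg (Q : ℝ)]

private theorem lsv_tau_int (T : Finset ℕ) (β : ℝ) (n : ℤ) : tau T (β - n) = tau T β := by
  unfold tau
  refine Finset.sum_congr rfl fun k _ => ?_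
  have h : (k : ℝ) * (β - n) = k * β - (((k : ℤ) * n : ℤ) : ℝ) := by
    push_cast
    ring
  rw [h, ee_sub_int]

private theorem lsv_tau_cont (T : Finset ℕ) : Continuous (tau T) := by
  unfold tau
  refine continuous_finsetSum _ fun k _ => ?_
  exact ee_cont.comp (continuous_const.mul continuous_id)

theorem lsv (K Q : ℕ) (w : ℝ) (hQ : 2 ≤ Q) (hK : Q ^ 4 ≤ K) (hw0 : 0 ≤ w)
    (hw : 4 * w * (Q : ℝ) ^ 2 ≤ 1) (T : Finset ℕ) (hT : T ⊆ Finset.Icc 1 K) :
    ∃ ts : ℕ → ℕ → ℝ, (∀ s r, 0 ≤ ts s r) ∧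
      (∀ s r : ℕ, 1 ≤ s → ∀ β : ℝ, nint (β - (r : ℝ) / s) ≤ w → ‖tau T β‖ ≤ ts s r) ∧
      ∑ s ∈ Finset.Icc 2 Q, ∑ r ∈ (Finset.range s).filter (fun r => Nat.Coprime r s),
        ts s r ^ 2 ≤ 2 * K * T.card := by
  have hmax : ∀ s r : ℕ, ∃ β : ℝ, |β - (r : ℝ) / s| ≤ w ∧ ∀ β' : ℝ, |β' - (r : ℝ) / s| ≤ w →
      ‖tau T β'‖ ≤ ‖tau T β‖ := by
    intro s r
    have hne : (Set.Icc ((r : ℝ) / s - w) ((r : ℝ) / s + w)).Nonempty :=
      ⟨(r : ℝ) / s, by constructor <;> linarith⟩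
    obtain ⟨β, hβ, hm⟩ := isCompact_Icc.exists_isMaxOn hne ((lsv_tau_cont T).norm.continuousOn)
    refine ⟨β, ?_, fun β' hβ' => ?_⟩
    · rw [abs_le]
      constructor <;> linarith [hβ.1, hβ.2]
    · have h1 := abs_le.1 hβ'
      exact hm (show β' ∈ Set.Icc ((r : ℝ) / s - w) ((r : ℝ) / s + w) from
        ⟨by linarith [h1.1], by linarith [h1.2]⟩)
  choose B hB1 hB2 using hmax
  refine ⟨fun s r => ‖tau T (B s r)‖, fun s r => norm_nonneg _, fun s r _ β hβ => ?_, ?_⟩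
  · have h1 := hB2 s r (β - (round (β - (r : ℝ) / s) : ℤ)) (by
      refine le_trans (le_of_eq ?_) hβ
      rw [nint]
      congr 1
      ring)
    rwa [lsv_tau_int] at h1
  · classical
    set I : Finset (Σ _ : ℕ, ℕ) := (Finset.Icc 2 Q).sigma
      (fun s => (Finset.range s).filter (fun r => Nat.Coprime r s)) with hI
    have hsum : ∑ s ∈ Finset.Icc 2 Q, ∑ r ∈ (Finset.range s).filter (fun r => Nat.Coprime r s),
        ‖tau T (B s r)‖ ^ 2 = ∑ i ∈ I, ‖tau T (B i.1 i.2)‖ ^ 2 := by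
      rw [hI, Finset.sum_sigma]
    rw [hsum]
    set S := ∑ i ∈ I, ‖tau T (B i.1 i.2)‖ ^ 2 with hS
    have hS0 : 0 ≤ S := Finset.sum_nonneg fun i _ => by positivity
    have hQ0 : (0 : ℝ) < Q := by exact_mod_cast (by omega : 0 < Q)
    have hcard : (I.card : ℝ) ≤ (Q : ℝ) ^ 2 := by
      have h1 : I.card ≤ Q * Q := by
        rw [hI, Finset.card_sigma]
        calc ∑ s ∈ Finset.Icc 2 Q, ((Finset.range s).filter (fun r => Nat.Coprime r s)).card
            ≤ ∑ s ∈ Finset.Icc 2 Q, Q := by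
              refine Finset.sum_le_sum fun s hs => ?_
              rw [Finset.mem_Icc] at hs
              refine (Finset.card_filter_le _ _).trans ?_
              rw [Finset.card_range]
              exact hs.2
          _ = (Finset.Icc 2 Q).card * Q := by rw [Finset.sum_const, smul_eq_mul]
          _ ≤ Q * Q := by
              refine Nat.mul_le_mul_right _ ?_
              rw [Nat.card_Icc]
              omega
      have h2 : (I.card : ℝ) ≤ (Q : ℝ) * Q := by exact_mod_cast h1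
      rw [sq]
      exact h2
    have hdual := lsv_dual I (fun i => B i.1 i.2) (fun i => (starRingEnd ℂ) (tau T (B i.1 i.2))) K ((Q : ℝ) ^ 2)
      (by positivity) (fun i hi j hj hij => by
        rw [hI, Finset.mem_sigma, Finset.mem_Icc, Finset.mem_filter, Finset.mem_range] at hi hj
        have hsep := lsv_sep hi.1.1 hi.1.2 hi.2.1 hi.2.2 hj.1.1 hj.1.2 hj.2.1 hj.2.2 (fun h => hij (by
          obtain ⟨s, r⟩ := i
          obtain ⟨s', r'⟩ := j
          simp only at h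
          rw [h.1, h.2]))
        have t1 := nint_sub (B i.1 i.2 - B j.1 j.2)
          ((B i.1 i.2 - (i.2 : ℝ) / i.1) - (B j.1 j.2 - (j.2 : ℝ) / j.1))
        have t2 : (B i.1 i.2 - B j.1 j.2) - ((B i.1 i.2 - (i.2 : ℝ) / i.1) - (B j.1 j.2 - (j.2 : ℝ) / j.1)) =
            (i.2 : ℝ) / i.1 - (j.2 : ℝ) / j.1 := by ring
        rw [t2] at t1
        have t3 := nint_sub (B i.1 i.2 - (i.2 : ℝ) / i.1) (B j.1 j.2 - (j.2 : ℝ) / j.1)
        have t4 := (nint_abs _).trans (hB1 i.1 i.2)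
        have t5 := (nint_abs _).trans (hB1 j.1 j.2)
        have t6 : 1 / (Q : ℝ) ^ 2 - 2 * w ≤ nint (B i.1 i.2 - B j.1 j.2) := by linarith
        have t7 := lsv_sum K (B i.1 i.2 - B j.1 j.2)
        have t8 : 2 * w ≤ 1 / (2 * (Q : ℝ) ^ 2) := by
          rw [le_div_iff₀ (by positivity)]
          linarith
        have t9 : 1 / (Q : ℝ) ^ 2 = 2 * (1 / (2 * (Q : ℝ) ^ 2)) := by field_simp
        have t10 : 1 / (2 * (Q : ℝ) ^ 2) ≤ nint (B i.1 i.2 - B j.1 j.2) := by linarith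
        have t11 : 4 * (1 / (2 * (Q : ℝ) ^ 2)) *
            ‖∑ k ∈ Finset.Icc 1 K, ee (k * (B i.1 i.2 - B j.1 j.2))‖ ≤ 2 :=
          (mul_le_mul_of_nonneg_right (by linarith) (norm_nonneg _)).trans t7
        have t12 : 4 * (1 / (2 * (Q : ℝ) ^ 2)) = 2 / (Q : ℝ) ^ 2 := by
          field_simp
          norm_num
        rw [t12, div_mul_eq_mul_div, div_le_iff₀ (by positivity)] at t11
        linarith)
    have hKQ : ((Q : ℝ) ^ 2) * I.card ≤ K := by
      have h1 : (Q : ℝ) ^ 2 * I.card ≤ (Q : ℝ) ^ 2 * (Q : ℝ) ^ 2 :=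
        mul_le_mul_of_nonneg_left hcard (by positivity)
      have h2 : (Q : ℝ) ^ 4 ≤ K := by exact_mod_cast hK
      have h3 : (Q : ℝ) ^ 2 * (Q : ℝ) ^ 2 = (Q : ℝ) ^ 4 := by ring
      linarith
    have hbS : ∑ i ∈ I, ‖(starRingEnd ℂ) (tau T (B i.1 i.2))‖ ^ 2 = S := by
      rw [hS]
      exact Finset.sum_congr rfl fun i _ => by rw [Complex.norm_conj]
    rw [hbS] at hdual
    have hdual2 : ∑ k ∈ Finset.Icc 1 K, ‖∑ i ∈ I, (starRingEnd ℂ) (tau T (B i.1 i.2)) * ee (k * B i.1 i.2)‖ ^ 2 ≤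
        2 * K * S := by
      refine hdual.trans (mul_le_mul_of_nonneg_right ?_ hS0)
      linarith
    have hSC : ((S : ℝ) : ℂ) = ∑ k ∈ T, ∑ i ∈ I, (starRingEnd ℂ) (tau T (B i.1 i.2)) * ee (k * B i.1 i.2) := by
      rw [Finset.sum_comm, hS]
      push_cast
      refine Finset.sum_congr rfl fun i _ => ?_
      rw [← Finset.mul_sum]
      have h1 : ∑ k ∈ T, ee (k * B i.1 i.2) = tau T (B i.1 i.2) := rfl
      rw [h1, mul_comm, Complex.mul_conj, Complex.normSq_eq_norm_sq]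
      push_cast
      rfl
    have hS1 : S ≤ ∑ k ∈ T, ‖∑ i ∈ I, (starRingEnd ℂ) (tau T (B i.1 i.2)) * ee (k * B i.1 i.2)‖ := by
      have h1 : S ≤ ‖((S : ℝ) : ℂ)‖ := by
        rw [Complex.norm_real]
        exact le_abs_self _
      refine h1.trans ?_
      rw [hSC]
      exact norm_sum_le _ _
    have hS2 : S ^ 2 ≤ T.card * (2 * K * S) := by
      calc S ^ 2 ≤ (∑ k ∈ T, ‖∑ i ∈ I, (starRingEnd ℂ) (tau T (B i.1 i.2)) * ee (k * B i.1 i.2)‖) ^ 2 :=
            pow_le_pow_left₀ hS0 hS1 2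
        _ ≤ T.card * ∑ k ∈ T, ‖∑ i ∈ I, (starRingEnd ℂ) (tau T (B i.1 i.2)) * ee (k * B i.1 i.2)‖ ^ 2 :=
            sq_sum_le_card_mul_sum_sq
        _ ≤ T.card * (2 * K * S) := by
            refine mul_le_mul_of_nonneg_left ?_ (by positivity)
            refine le_trans (Finset.sum_le_sum_of_subset_of_nonneg hT fun k _ _ => by positivity) hdual2
    rcases hS0.eq_or_lt with h0 | h0
    · rw [← h0]
      positivity
    · have h1 : S * S ≤ (2 * K * T.card) * S := by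
        calc S * S = S ^ 2 := by ring
          _ ≤ T.card * (2 * K * S) := hS2
          _ = (2 * K * T.card) * S := by ring
      exact le_of_mul_le_mul_right h1 h0

end Pool.Agent.AAR
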