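import Pool.Agent.AAR.Lo2
import Pool.Agent.AAR.Lsv

/-!
# AAR-Lo3: all low frequencies

PLAN.  `ts` from `lsv` with `K`, `Q = Q2`, `w = 4 H r` (`r_small2`, `hK3`).  A frequency `n/P` which is neither in `rest` nor in
the arc around 0 lies in `arc P r b a` for some `2 ≤ b ≤ Q2`, `a < b` coprime to `b` (reduce the fraction; if
the reduced denominator is 1 it is in the arc around 0).  For given `d` let `t = gcd(b,d)`, `s = b/t`.
`s = 1`: `‖tau‖ ≤ |T|`.  `s ≥ 2`: `d n/P = (d/t) a/s + d θ'` mod 1, `|d θ'| ≤ 4 H r`, so `‖tau‖ ≤ ts s ((d/t a) % s)`, and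
`(d/t) a` is coprime to `s`.  So the left side is at most
`|T| ∑_{b=2}^{Q2} ∑_{b ∣ d} wt ∑_x en(arcs b) + ∑_{t=1}^{Q2} ∑_{2≤s≤Q2/t} ∑_r ts s r · mst p f t s r`; use `msa` (`t = b`, `s = 1`),
`lo2`, and `∑_{b ≤ Q2} 1/b ≤ 1 + log Q2`.
-/

set_option autoImplicit false

namespace Pool.Agent.AAR

private theorem lo3_arc {P : ℕ} {r : ℝ} {Q n : ℕ} (hn : n ∈ Finset.range P)
    (h1 : n ∉ rest P r Q) (h2 : n ∉ arc P r 1 0) :
    ∃ b : ℕ, 2 ≤ b ∧ b ≤ Q ∧ ∃ a : ℕ, a < b ∧ Nat.Coprime a b ∧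
      nint ((n : ℝ) / P - (a : ℝ) / b) ≤ r := by
  classical
  have h3 : ¬ Far r Q ((n : ℝ) / P) := by
    intro hF
    apply h1
    unfold rest
    exact Finset.mem_filter.2 ⟨hn, hF⟩
  unfold Far at h3
  push Not at h3
  obtain ⟨b0, hb0, hb0Q, a0, ha0⟩ := h3
  set q : ℚ := Rat.divInt a0 b0 with hq
  have hden : q.den ∣ b0 := by
    have := Rat.den_dvd a0 (b0 : ℤ)
    exact_mod_cast this
  have hqr : (q : ℝ) = (a0 : ℝ) / b0 := by
    rw [hq, Rat.divInt_eq_div]
    push_cast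
    rfl
  have hdpos : 0 < q.den := q.den_pos
  have hdle : q.den ≤ Q := (Nat.le_of_dvd (by omega) hden).trans hb0Q
  have hdz : (0 : ℤ) < (q.den : ℤ) := by exact_mod_cast hdpos
  set a : ℕ := (q.num % (q.den : ℤ)).toNat with ha
  have hmod0 : 0 ≤ q.num % (q.den : ℤ) := Int.emod_nonneg _ hdz.ne'
  have hcast : (a : ℤ) = q.num % (q.den : ℤ) := Int.toNat_of_nonneg hmod0
  have halt : a < q.den := by
    have := Int.emod_lt_of_pos q.num hdz
    rw [← hcast] at this
    exact_mod_cast this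
  have hcop : Nat.Coprime a q.den := by
    have h6 : IsCoprime q.num (q.den : ℤ) := Int.isCoprime_iff_gcd_eq_one.2 q.reduced
    have h7 : q.num = (a : ℤ) + (q.den : ℤ) * (q.num / (q.den : ℤ)) := by
      rw [hcast]
      exact (Int.emod_add_mul_ediv q.num (q.den : ℤ)).symm
    rw [h7] at h6
    exact Nat.isCoprime_iff_coprime.1 (IsCoprime.add_mul_left_left_iff.1 h6)
  have hval : (q : ℝ) = (a : ℝ) / q.den + ((q.num / (q.den : ℤ) : ℤ) : ℝ) := by
    have h5 : (q.num : ℝ) = (q.den : ℝ) * ((q.num / (q.den : ℤ) : ℤ) : ℝ) + (a : ℝ) := by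
      have h6 := Int.mul_ediv_add_emod q.num (q.den : ℤ)
      rw [← hcast] at h6
      exact_mod_cast h6.symm
    rw [Rat.cast_def, h5]
    have : (q.den : ℝ) ≠ 0 := by exact_mod_cast hdpos.ne'
    field_simp
    ring
  have hn1 : nint ((n : ℝ) / P - (a : ℝ) / q.den) ≤ r := by
    have h5 : (n : ℝ) / P - (a : ℝ) / q.den =
        ((n : ℝ) / P - (a0 : ℝ) / b0) + ((q.num / (q.den : ℤ) : ℤ) : ℝ) := by
      rw [← hqr, hval]
      ring
    rw [h5, nint_add_int]
    exact ha0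
  refine ⟨q.den, ?_, hdle, a, halt, hcop, hn1⟩
  by_contra hlt
  have hd1 : q.den = 1 := by omega
  have ha1 : a = 0 := by omega
  apply h2
  unfold arc
  refine Finset.mem_filter.2 ⟨hn, ?_⟩
  rw [hd1, ha1] at hn1
  simpa using hn1

private theorem lo3_cover {ι : Type*} (F : Finset ℕ) (L : Finset ι) (S : ι → Finset ℕ) (c : ι → ℝ)
    (E τ : ℕ → ℝ) (hE : ∀ n, 0 ≤ E n) (hc : ∀ i ∈ L, 0 ≤ c i)
    (h : ∀ n ∈ F, ∃ i ∈ L, n ∈ S i ∧ τ n ≤ c i) :
    ∑ n ∈ F, E n * τ n ≤ ∑ i ∈ L, c i * ∑ n ∈ S i, E n := by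
  classical
  calc ∑ n ∈ F, E n * τ n ≤ ∑ n ∈ F, ∑ i ∈ L, (if n ∈ S i then c i * E n else 0) := by
        refine Finset.sum_le_sum fun n hn => ?_
        obtain ⟨i, hi, hiS, hic⟩ := h n hn
        calc E n * τ n ≤ E n * c i := mul_le_mul_of_nonneg_left hic (hE n)
          _ = (if n ∈ S i then c i * E n else 0) := by rw [if_pos hiS, mul_comm]
          _ ≤ _ := Finset.single_le_sum (f := fun i => if n ∈ S i then c i * E n else 0)
              (fun j hj => by
                split_ifs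
                · exact mul_nonneg (hc j hj) (hE n)
                · exact le_rfl) hi
    _ = ∑ i ∈ L, ∑ n ∈ F, (if n ∈ S i then c i * E n else 0) := Finset.sum_comm
    _ ≤ ∑ i ∈ L, c i * ∑ n ∈ S i, E n := by
        refine Finset.sum_le_sum fun i hi => ?_
        rw [← Finset.sum_filter, Finset.mul_sum]
        refine Finset.sum_le_sum_of_subset_of_nonneg ?_ ?_
        · intro n hn
          exact (Finset.mem_filter.1 hn).2
        · intro n _ _
          exact mul_nonneg (hc i hi) (hE n)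

/-- the index set of the triples `(t, s, r)` -/
private def lo3_J (Q : ℕ) : Finset (Σ _ : ℕ, Σ _ : ℕ, ℕ) :=
  (Finset.Icc 1 Q).sigma fun t => (Finset.Icc 2 (Q / t)).sigma fun s =>
    (Finset.range s).filter (fun r => Nat.Coprime r s)

private def lo3_A (j : Σ _ : ℕ, Σ _ : ℕ, ℕ) (d : ℕ) : Finset ℕ :=
  (Finset.range (j.1 * j.2.1)).filter
      (fun a => Nat.Coprime a (j.1 * j.2.1) ∧ (d / j.1 * a) % j.2.1 = j.2.2)

private theorem lo3_exists {Q H n P d : ℕ} {r : ℝ} {b a : ℕ} (hb : 2 ≤ b) (hbQ : b ≤ Q)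
    (hab : a < b) (hcop : Nat.Coprime a b) (hn : n ∈ Finset.range P)
    (hnint : nint ((n : ℝ) / P - (a : ℝ) / b) ≤ r) (hd0 : 0 < d) (hdH : d < 4 * H)
    (hdvd : ¬ b ∣ d) :
    ∃ j ∈ lo3_J Q, Nat.gcd (j.1 * j.2.1) d = j.1 ∧ 1 ≤ j.2.1 ∧ a ∈ lo3_A j d ∧
      n ∈ arc P r (j.1 * j.2.1) (a : ℤ) ∧
      nint (d * ((n : ℝ) / P) - (j.2.2 : ℝ) / j.2.1) ≤ 4 * H * r := by
  classical
  have hr0 : 0 ≤ r := (nint_nonneg _).trans hnint
  set t := Nat.gcd b d with ht
  have htpos : 0 < t := Nat.gcd_pos_of_pos_left _ (by omega)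
  obtain ⟨s, hs⟩ : t ∣ b := Nat.gcd_dvd_left b d
  obtain ⟨e, he⟩ : t ∣ d := Nat.gcd_dvd_right b d
  have hspos : 0 < s := by
    rcases Nat.eq_zero_or_pos s with h0 | h0
    · rw [h0] at hs; omega
    · exact h0
  have hs2 : 2 ≤ s := by
    by_contra hlt
    have hs1 : s = 1 := by omega
    rw [hs1, mul_one] at hs
    exact hdvd (hs ▸ Nat.gcd_dvd_right b d)
  have hdt : d / t = e := by
    rw [he]
    exact Nat.mul_div_cancel_left _ htpos
  have hbt : b / t = s := by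
    rw [hs]
    exact Nat.mul_div_cancel_left _ htpos
  have hse : Nat.Coprime s e := by
    have := Nat.coprime_div_gcd_div_gcd (m := b) (n := d) htpos
    rwa [← ht, hdt, hbt] at this
  have has : Nat.Coprime a s := by
    rw [hs] at hcop
    exact Nat.Coprime.coprime_mul_left_right hcop
  have hcr : Nat.Coprime ((d / t * a) % s) s := by
    refine (ZMod.coprime_mod_iff_coprime _ s).mpr ?_
    rw [hdt]
    exact Nat.Coprime.mul_left hse.symm has
  refine ⟨⟨t, s, (d / t * a) % s⟩, ?_, ?_, ?_, ?_, ?_, ?_⟩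
  · unfold lo3_J
    refine Finset.mem_sigma.2 ⟨Finset.mem_Icc.2 ⟨htpos, ?_⟩, Finset.mem_sigma.2
      ⟨Finset.mem_Icc.2 ⟨hs2, ?_⟩, Finset.mem_filter.2 ⟨Finset.mem_range.2 (Nat.mod_lt _ hspos), hcr⟩⟩⟩
    · exact (Nat.le_of_dvd (by omega) (Nat.gcd_dvd_left b d)).trans hbQ
    · rw [Nat.le_div_iff_mul_le htpos, mul_comm, ← hs]
      exact hbQ
  · dsimp only
    rw [← hs]
  · exact hspos
  · unfold lo3_A
    dsimp only
    rw [← hs]
    exact Finset.mem_filter.2 ⟨Finset.mem_range.2 hab, hcop, rfl⟩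
  · dsimp only
    rw [← hs]
    unfold arc
    refine Finset.mem_filter.2 ⟨hn, ?_⟩
    simpa using hnint
  · dsimp only
    have hb0 : (b : ℝ) ≠ 0 := by exact_mod_cast (by omega : b ≠ 0)
    have hs0 : (s : ℝ) ≠ 0 := by exact_mod_cast hspos.ne'
    have ht0 : (t : ℝ) ≠ 0 := by exact_mod_cast htpos.ne'
    have h5 : (d : ℝ) * ((a : ℝ) / b) = ((e * a : ℕ) : ℝ) / s := by
      have hsR : (b : ℝ) = t * s := by exact_mod_cast hs
      have heR : (d : ℝ) = t * e := by exact_mod_cast he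
      rw [hsR, heR]
      push_cast
      field_simp
    have h6 : ((e * a : ℕ) : ℝ) / s = (((e * a) / s : ℕ) : ℝ) + (((e * a) % s : ℕ) : ℝ) / s := by
      have h7 : ((e * a : ℕ) : ℝ) = (s : ℝ) * (((e * a) / s : ℕ) : ℝ) + (((e * a) % s : ℕ) : ℝ) := by
        exact_mod_cast (Nat.div_add_mod (e * a) s).symm
      rw [h7]
      field_simp
    have h8 : (d : ℝ) * ((n : ℝ) / P) - (((d / t * a) % s : ℕ) : ℝ) / s =
        (d : ℝ) * ((n : ℝ) / P - (a : ℝ) / b) + (((((e * a) / s : ℕ) : ℤ)) : ℝ) := by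
      rw [mul_sub, h5, h6, hdt, Int.cast_natCast]
      ring
    rw [h8, nint_add_int]
    refine (nint_mul_nat d _).trans ?_
    refine mul_le_mul ?_ hnint (nint_nonneg _) (by positivity)
    exact_mod_cast hdH.le

private theorem lo3_tau (T : Finset ℕ) (β : ℝ) : ‖tau T β‖ ≤ T.card := by
  unfold tau
  refine (norm_sum_le _ _).trans ?_
  simp [ee_norm]

private theorem lo3_harm (Q : ℕ) : ∑ b ∈ Finset.Icc 1 Q, (1 : ℝ) / b ≤ 1 + Real.log Q := by
  have h := harmonic_le_one_add_log Q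
  rw [harmonic_eq_sum_Icc] at h
  push_cast at h
  simpa [one_div] using h

open Classical in
theorem lo3 (p : Par) (f : ℤ → ℤ → ℝ) (c : Cell p f) (T : Finset ℕ)
    (hT : T ⊆ Finset.Icc 1 p.K) :
    ∑ d ∈ ds p.H, wt p.H d * ∑ x ∈ Finset.range p.X,
      (∑ n ∈ (Finset.range p.P).filter (fun n => n ∉ rest p.P p.r p.Q2 ∧ n ∉ arc p.P p.r 1 0),
        ‖fh p.Z (pr f x (x + d)) ((n : ℝ) / p.P)‖ ^ 2 * ‖tau T (d * ((n : ℝ) / p.P))‖) / p.P ≤
      (1 + Real.log p.Q2) * (1200 * p.η * p.M * T.card +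
        555 * Real.sqrt (2 * p.K * T.card) *
          Real.sqrt (p.Ω * (p.β ^ (-(1 / 6 : ℝ)) * p.η)) * p.M) := by
  have hr := p.r_pos
  have hH := p.Hpos
  have hM := p.M_pos
  obtain ⟨ts, hts0, hts1, hts2⟩ := lsv p.K p.Q2 (4 * p.H * p.r) p.hQ2 p.hK3 (by positivity)
    (by nlinarith [p.r_small2, show (0 : ℝ) ≤ (p.Q2 : ℝ) ^ 2 * (4 * p.H * p.r) by positivity]) T hT
  have hwt : ∀ d ∈ ds p.H, 0 ≤ wt p.H d := by
    intro d hd
    unfold ds at hd
    obtain ⟨hd1, hd2⟩ := Finset.mem_Ioo.1 hd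
    have h1 : (2 * p.H : ℝ) < d := by exact_mod_cast hd1
    have h2 : (d : ℝ) < 4 * p.H := by exact_mod_cast hd2
    unfold wt
    have : |(d : ℝ) - 3 * p.H| ≤ p.H := abs_le.2 ⟨by linarith, by linarith⟩
    linarith
  have hen0 : ∀ (h : ℤ → ℝ) (S : Finset ℕ), 0 ≤ en p.Z p.P h S := by
    intro h S
    unfold en
    positivity
  -- the estimate for given `d` and `x`
  have key : ∀ d ∈ ds p.H, ∀ x ∈ Finset.range p.X,
      (∑ n ∈ (Finset.range p.P).filter (fun n => n ∉ rest p.P p.r p.Q2 ∧ n ∉ arc p.P p.r 1 0),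
        ‖fh p.Z (pr f x (x + d)) ((n : ℝ) / p.P)‖ ^ 2 * ‖tau T (d * ((n : ℝ) / p.P))‖) / p.P ≤
      (∑ b ∈ Finset.Icc 2 p.Q2, (if b ∣ d then (T.card : ℝ) else 0) *
        en p.Z p.P (pr f x (x + d)) (arcs p.P p.r b)) +
      ∑ j ∈ lo3_J p.Q2, (if Nat.gcd (j.1 * j.2.1) d = j.1 then ts j.2.1 j.2.2 else 0) *
        ∑ a ∈ lo3_A j d, en p.Z p.P (pr f x (x + d)) (arc p.P p.r (j.1 * j.2.1) a) := by
    intro d hd x _
    unfold ds at hd
    obtain ⟨hd1, hd2⟩ := Finset.mem_Ioo.1 hd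
    set F := (Finset.range p.P).filter
      (fun n => n ∉ rest p.P p.r p.Q2 ∧ n ∉ arc p.P p.r 1 0) with hF
    set E : ℕ → ℝ := fun n => ‖fh p.Z (pr f x (x + d)) ((n : ℝ) / p.P)‖ ^ 2 with hE
    have hE0 : ∀ n, 0 ≤ E n := fun n => by rw [hE]; positivity
    set G : ℕ → Prop := fun n => ∃ b ∈ Finset.Icc 2 p.Q2, b ∣ d ∧ n ∈ arcs p.P p.r b with hG
    have c1 := lo3_cover (F.filter G) (Finset.Icc 2 p.Q2) (fun b => arcs p.P p.r b)
      (fun b => if b ∣ d then (T.card : ℝ) else 0) E (fun n => ‖tau T (d * ((n : ℝ) / p.P))‖) hE0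
      (fun b _ => by split_ifs <;> positivity)
      (fun n hn => by
        obtain ⟨b, hb, hbd, hbn⟩ := (Finset.mem_filter.1 hn).2
        refine ⟨b, hb, hbn, ?_⟩
        rw [if_pos hbd]
        exact lo3_tau T _)
    have c2 := lo3_cover (F.filter (fun n => ¬ G n)) ((lo3_J p.Q2).sigma fun j => lo3_A j d)
      (fun q => arc p.P p.r (q.1.1 * q.1.2.1) (q.2 : ℤ))
      (fun q => if Nat.gcd (q.1.1 * q.1.2.1) d = q.1.1 then ts q.1.2.1 q.1.2.2 else 0) E
      (fun n => ‖tau T (d * ((n : ℝ) / p.P))‖) hE0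
      (fun q _ => by
        split_ifs
        · exact hts0 _ _
        · exact le_rfl)
      (fun n hn => by
        obtain ⟨hnF, hnG⟩ := Finset.mem_filter.1 hn
        obtain ⟨hnP, hn1, hn2⟩ := Finset.mem_filter.1 hnF
        obtain ⟨b, hb2, hbQ, a, hab, hcop, hnint⟩ := lo3_arc hnP hn1 hn2
        have hbd : ¬ b ∣ d := by
          intro hbd
          apply hnG
          refine ⟨b, Finset.mem_Icc.2 ⟨hb2, hbQ⟩, hbd, ?_⟩
          unfold arcs
          refine Finset.mem_filter.2 ⟨hnP, (a : ℤ), ?_, by simpa using hnint⟩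
          exact_mod_cast Nat.isCoprime_iff_coprime.2 hcop
        obtain ⟨j, hj, hj1, hj2, hj3, hj4, hj5⟩ := lo3_exists (H := p.H) hb2 hbQ hab hcop hnP hnint
          (by omega) hd2 hbd
        refine ⟨⟨j, a⟩, Finset.mem_sigma.2 ⟨hj, hj3⟩, hj4, ?_⟩
        dsimp only
        rw [if_pos hj1]
        exact hts1 _ _ hj2 _ hj5)
    rw [Finset.sum_sigma] at c2
    have hsplit := Finset.sum_filter_add_sum_filter_not F G
      (fun n => E n * ‖tau T (d * ((n : ℝ) / p.P))‖)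
    have hP0 : (0 : ℝ) ≤ (p.P : ℝ) := Nat.cast_nonneg _
    have h1 : (∑ n ∈ F, E n * ‖tau T (d * ((n : ℝ) / p.P))‖) / p.P ≤
        ((∑ b ∈ Finset.Icc 2 p.Q2, (if b ∣ d then (T.card : ℝ) else 0) *
          ∑ n ∈ arcs p.P p.r b, E n) +
        ∑ j ∈ lo3_J p.Q2, ∑ a ∈ lo3_A j d,
          (if Nat.gcd (j.1 * j.2.1) d = j.1 then ts j.2.1 j.2.2 else 0) *
            ∑ n ∈ arc p.P p.r (j.1 * j.2.1) (a : ℤ), E n) / p.P := by
      refine div_le_div_of_nonneg_right ?_ hP0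
      rw [← hsplit]
      exact add_le_add c1 c2
    refine h1.trans (le_of_eq ?_)
    rw [add_div, Finset.sum_div, Finset.sum_div]
    congr 1
    · refine Finset.sum_congr rfl fun b _ => ?_
      unfold en
      rw [mul_div_assoc]
    · refine Finset.sum_congr rfl fun j _ => ?_
      rw [Finset.sum_div, Finset.mul_sum]
      refine Finset.sum_congr rfl fun a _ => ?_
      unfold en
      rw [mul_div_assoc]
  -- summation
  have h1 : ∑ d ∈ ds p.H, wt p.H d * ∑ x ∈ Finset.range p.X,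
      (∑ n ∈ (Finset.range p.P).filter (fun n => n ∉ rest p.P p.r p.Q2 ∧ n ∉ arc p.P p.r 1 0),
        ‖fh p.Z (pr f x (x + d)) ((n : ℝ) / p.P)‖ ^ 2 * ‖tau T (d * ((n : ℝ) / p.P))‖) / p.P ≤
      (∑ b ∈ Finset.Icc 2 p.Q2, (T.card : ℝ) * ∑ d ∈ (ds p.H).filter (fun d => b ∣ d),
        wt p.H d * ∑ x ∈ Finset.range p.X, en p.Z p.P (pr f x (x + d)) (arcs p.P p.r (b * 1))) +
      ∑ j ∈ lo3_J p.Q2, ts j.2.1 j.2.2 * mst p f j.1 j.2.1 j.2.2 := by
    calc _ ≤ ∑ d ∈ ds p.H, wt p.H d * ∑ x ∈ Finset.range p.X,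
        ((∑ b ∈ Finset.Icc 2 p.Q2, (if b ∣ d then (T.card : ℝ) else 0) *
          en p.Z p.P (pr f x (x + d)) (arcs p.P p.r b)) +
        ∑ j ∈ lo3_J p.Q2, (if Nat.gcd (j.1 * j.2.1) d = j.1 then ts j.2.1 j.2.2 else 0) *
          ∑ a ∈ lo3_A j d, en p.Z p.P (pr f x (x + d)) (arc p.P p.r (j.1 * j.2.1) a)) := by
          refine Finset.sum_le_sum fun d hd => mul_le_mul_of_nonneg_left ?_ (hwt d hd)
          exact Finset.sum_le_sum fun x hx => key d hd x hx
      _ = _ := by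
          simp only [Finset.sum_add_distrib, mul_add]
          congr 1
          · simp only [Finset.mul_sum, Finset.sum_filter]
            rw [Finset.sum_congr rfl fun d _ => Finset.sum_comm]
            rw [Finset.sum_comm]
            refine Finset.sum_congr rfl fun b _ => Finset.sum_congr rfl fun d _ => ?_
            by_cases hbd : b ∣ d
            · simp only [if_pos hbd, mul_one, Finset.mul_sum]
              refine Finset.sum_congr rfl fun x _ => ?_
              ring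
            · simp [if_neg hbd]
          · simp only [Finset.mul_sum]
            rw [Finset.sum_congr rfl fun d _ => Finset.sum_comm]
            rw [Finset.sum_comm]
            refine Finset.sum_congr rfl fun j _ => ?_
            unfold mst
            rw [Finset.sum_filter, Finset.mul_sum]
            refine Finset.sum_congr rfl fun d _ => ?_
            by_cases hg : Nat.gcd (j.1 * j.2.1) d = j.1
            · rw [if_pos hg]
              simp only [if_pos hg, Finset.mul_sum]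
              refine Finset.sum_congr rfl fun x _ => ?_
              unfold lo3_A
              refine Finset.sum_congr rfl fun a _ => ?_
              ring
            · rw [if_neg hg]
              simp [if_neg hg]
  refine h1.trans ?_
  have hlog : ∑ b ∈ Finset.Icc 1 p.Q2, (1 : ℝ) / b ≤ 1 + Real.log p.Q2 := lo3_harm p.Q2
  have e1 : ∑ b ∈ Finset.Icc 2 p.Q2, (T.card : ℝ) * ∑ d ∈ (ds p.H).filter (fun d => b ∣ d),
        wt p.H d * ∑ x ∈ Finset.range p.X, en p.Z p.P (pr f x (x + d)) (arcs p.P p.r (b * 1)) ≤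
      (1 + Real.log p.Q2) * (1200 * p.η * p.M * T.card) := by
    calc _ ≤ ∑ b ∈ Finset.Icc 2 p.Q2, (1200 * p.η * p.M * T.card) * ((1 : ℝ) / b) := by
          refine Finset.sum_le_sum fun b hb => ?_
          obtain ⟨hb1, hb2⟩ := Finset.mem_Icc.1 hb
          have h2 := msa p f c b 1 (by omega) le_rfl (by omega) (by omega)
          calc _ ≤ (T.card : ℝ) * (1200 * p.η * p.M / b) :=
                mul_le_mul_of_nonneg_left h2 (Nat.cast_nonneg _)
            _ = _ := by ring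
      _ = (1200 * p.η * p.M * T.card) * ∑ b ∈ Finset.Icc 2 p.Q2, (1 : ℝ) / b := by
          rw [Finset.mul_sum]
      _ ≤ (1200 * p.η * p.M * T.card) * ∑ b ∈ Finset.Icc 1 p.Q2, (1 : ℝ) / b := by
          refine mul_le_mul_of_nonneg_left ?_ ?_
          · refine Finset.sum_le_sum_of_subset_of_nonneg (Finset.Icc_subset_Icc_left (by norm_num)) ?_
            intro b _ _
            positivity
          · have := p.hη
            positivity
      _ ≤ (1200 * p.η * p.M * T.card) * (1 + Real.log p.Q2) := by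
          refine mul_le_mul_of_nonneg_left hlog ?_
          have := p.hη
          positivity
      _ = _ := by ring
  have e2 : ∑ j ∈ lo3_J p.Q2, ts j.2.1 j.2.2 * mst p f j.1 j.2.1 j.2.2 ≤
      (1 + Real.log p.Q2) * (555 * Real.sqrt (2 * p.K * T.card) *
          Real.sqrt (p.Ω * (p.β ^ (-(1 / 6 : ℝ)) * p.η)) * p.M) := by
    unfold lo3_J
    rw [Finset.sum_sigma]
    calc _ ≤ ∑ t ∈ Finset.Icc 1 p.Q2, (555 * Real.sqrt (2 * p.K * T.card) *
          Real.sqrt (p.Ω * (p.β ^ (-(1 / 6 : ℝ)) * p.η)) * p.M) * ((1 : ℝ) / t) := by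
          refine Finset.sum_le_sum fun t ht => ?_
          obtain ⟨ht1, ht2⟩ := Finset.mem_Icc.1 ht
          have h2 := lo2 p f c (T.card : ℝ) (Nat.cast_nonneg _) ts hts0 hts2 t ht1 ht2
          rw [Finset.sum_sigma]
          refine h2.trans (le_of_eq ?_)
          ring
      _ = (555 * Real.sqrt (2 * p.K * T.card) *
          Real.sqrt (p.Ω * (p.β ^ (-(1 / 6 : ℝ)) * p.η)) * p.M) *
            ∑ t ∈ Finset.Icc 1 p.Q2, (1 : ℝ) / t := by rw [Finset.mul_sum]
      _ ≤ (555 * Real.sqrt (2 * p.K * T.card) *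
          Real.sqrt (p.Ω * (p.β ^ (-(1 / 6 : ℝ)) * p.η)) * p.M) * (1 + Real.log p.Q2) :=
          mul_le_mul_of_nonneg_left hlog (by positivity)
      _ = _ := by ring
  linarith

end Pool.Agent.AAR
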