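import Pool.Agent.AAR.Pw

/-!
# AAR-Mai: the main term

PLAN.  `wt H d` is the number of `(i,i')`, `i,i' < H`, with `3H + i' - i = d`, so
`∑_d wt(d) ∑_x cg(x,x+d)² = ∑_{y ∈ ℤ} ∑_{i,i'} cg(y+i, y+3H+i')²` (finite support; `x = y + i`).  For `z, z' < Z` let
`A(x) = f x z f x z' ∈ [0,1]`, supported in `[0,X)`, `a_y = (1/H) ∑_{i<H} A(y+i)`, `ā = (1/X) ∑_x A(x)`.  The sum is
`(H²/Z²) ∑_{z,z'} ∑_y a_y a_{y+3H}`.  With `e_y = a_y - ā 1_{[0,X)}(y)`, `∑ e_y e_{y+3H} ≥ -∑ e_y²` gives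
`∑_y a_y a_{y+3H} ≥ ā ∑_{y∈[0,X)} a_{y+3H} + ā ∑_{y+3H∈[0,X)} a_y - ā² X - ∑ a_y² + 2ā ∑_{y∈[0,X)} a_y - ā² X`, and each of
the three partial sums of `a` is `≥ X ā - 4H`; so it is `≥ 2ā²X - ∑_y a_y² - 16H ā`.  Sum over `z,z'`: `∑ ā² = Z² β`
(`c.dens`), `∑_{z,z'} ∑_y a_y² = Z² ∑_{y∈(-H,X)} Bx f y 0 1 H Z ≤ Z² (X+H)(1+η)β` (`c.s2`), `ā ≤ 1`.  With `edge_x`: `≥ Xβ(1-2η) Z²`.
`mai2`: combine with `core_ge`: `∑ wt = H²`, `X` columns; `μKH ≤ ηβZ/400` (`edge_μ`), `144/μ² ≤ β/100` (`hμβ`).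
-/

set_option autoImplicit false

namespace Pool.Agent.AAR

private theorem Mai_shift (g : ℤ → ℝ) (a b s : ℤ) (I : Finset ℤ)
    (hg : ∀ y, (y < a ∨ b ≤ y) → g y = 0) (hI : ∀ y, a - s ≤ y → y < b - s → y ∈ I) :
    ∑ y ∈ I, g (y + s) = ∑ y ∈ Finset.Ico a b, g y := by
  have h1 : ∑ y ∈ Finset.Ico a b, g y = ∑ y ∈ Finset.Ico (a - s) (b - s), g (y + s) := by
    refine Finset.sum_nbij' (fun y => y - s) (fun y => y + s) ?_ ?_ ?_ ?_ ?_
    · intro y hy
      rw [Finset.mem_Ico] at hy ⊢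
      constructor <;> omega
    · intro y hy
      rw [Finset.mem_Ico] at hy ⊢
      constructor <;> omega
    · intro y _
      omega
    · intro y _
      omega
    · intro y _
      rw [sub_add_cancel]
  rw [h1]
  symm
  apply Finset.sum_subset
  · intro y hy
    rw [Finset.mem_Ico] at hy
    exact hI y hy.1 hy.2
  · intro y _ hy
    apply hg
    rw [Finset.mem_Ico] at hy
    by_contra hc
    push Not at hc
    apply hy
    constructor <;> omega

private theorem Mai_wt (H : ℕ) (G : ℕ → ℝ) :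
    ∑ d ∈ ds H, wt H d * G d =
      ∑ i ∈ Finset.range H, ∑ i' ∈ Finset.range H, G (3 * H + i' - i) := by
  classical
  have h1 : ∀ i ∈ Finset.range H, ∑ i' ∈ Finset.range H, G (3 * H + i' - i) =
      ∑ d ∈ ds H, if 3 * H ≤ d + i ∧ d + i < 4 * H then G d else 0 := by
    intro i hi
    rw [Finset.mem_range] at hi
    rw [← Finset.sum_filter]
    refine Finset.sum_nbij' (fun i' => 3 * H + i' - i) (fun d => d + i - 3 * H) ?_ ?_ ?_ ?_ ?_
    · intro i' hi'
      rw [Finset.mem_range] at hi'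
      rw [Finset.mem_filter, ds, Finset.mem_Ioo]
      refine ⟨⟨?_, ?_⟩, ?_, ?_⟩ <;> omega
    · intro d hd
      rw [Finset.mem_filter, ds, Finset.mem_Ioo] at hd
      rw [Finset.mem_range]
      omega
    · intro i' hi'
      rw [Finset.mem_range] at hi'
      omega
    · intro d hd
      rw [Finset.mem_filter, ds, Finset.mem_Ioo] at hd
      omega
    · intro i' _
      rfl
  rw [Finset.sum_congr rfl h1, Finset.sum_comm]
  apply Finset.sum_congr rfl
  intro d hd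
  rw [ds, Finset.mem_Ioo] at hd
  rw [← Finset.sum_filter, Finset.sum_const, nsmul_eq_mul]
  congr 1
  have h2 : (Finset.range H).filter (fun i => 3 * H ≤ d + i ∧ d + i < 4 * H) =
      Finset.Ico (3 * H - d) (min H (4 * H - d)) := by
    ext i
    rw [Finset.mem_filter, Finset.mem_range, Finset.mem_Ico, lt_min_iff]
    constructor
    · rintro ⟨h1, h2, h3⟩
      refine ⟨?_, ?_, ?_⟩ <;> omega
    · rintro ⟨h1, h2, h3⟩
      refine ⟨?_, ?_, ?_⟩ <;> omega
  rw [h2, Nat.card_Ico, wt]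
  rcases le_total (3 * H) d with h | h
  · have h3 : min H (4 * H - d) - (3 * H - d) = 4 * H - d := by
      rw [min_eq_right (by omega)]
      omega
    rw [h3, Nat.cast_sub hd.2.le]
    have h4 : (3 * (H : ℝ)) ≤ d := by exact_mod_cast h
    rw [abs_of_nonneg (by linarith)]
    push_cast
    ring
  · have h3 : min H (4 * H - d) - (3 * H - d) = d - 2 * H := by
      rw [min_eq_left (by omega)]
      omega
    rw [h3, Nat.cast_sub hd.1.le]
    have h4 : (d : ℝ) ≤ 3 * (H : ℝ) := by exact_mod_cast h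
    rw [abs_of_nonpos (by linarith)]
    push_cast
    ring

private theorem Mai_id {ι κ : Type*} (P : Finset ι) (P' : Finset κ) (Z : ℕ) (a : ι → ℕ → ℝ)
    (b : κ → ℕ → ℝ) :
    ∑ z ∈ Finset.range Z, ∑ z' ∈ Finset.range Z,
      (∑ i ∈ P, a i z * a i z') * (∑ j ∈ P', b j z * b j z') =
    ∑ i ∈ P, ∑ j ∈ P', (∑ z ∈ Finset.range Z, a i z * b j z) ^ 2 := by
  have h1 : ∀ i ∈ P, ∀ j ∈ P', (∑ z ∈ Finset.range Z, a i z * b j z) ^ 2 =
      ∑ z ∈ Finset.range Z, ∑ z' ∈ Finset.range Z, (a i z * a i z') * (b j z * b j z') := by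
    intro i _ j _
    rw [sq, Finset.sum_mul_sum]
    refine Finset.sum_congr rfl fun z _ => Finset.sum_congr rfl fun z' _ => ?_
    ring
  rw [Finset.sum_congr rfl fun i hi => Finset.sum_congr rfl fun j hj => h1 i hi j hj]
  calc ∑ z ∈ Finset.range Z, ∑ z' ∈ Finset.range Z,
        (∑ i ∈ P, a i z * a i z') * (∑ j ∈ P', b j z * b j z')
      = ∑ z ∈ Finset.range Z, ∑ z' ∈ Finset.range Z, ∑ i ∈ P, ∑ j ∈ P',
          (a i z * a i z') * (b j z * b j z') := by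
        refine Finset.sum_congr rfl fun z _ => Finset.sum_congr rfl fun z' _ => ?_
        rw [Finset.sum_mul_sum]
    _ = ∑ z ∈ Finset.range Z, ∑ i ∈ P, ∑ z' ∈ Finset.range Z, ∑ j ∈ P',
          (a i z * a i z') * (b j z * b j z') :=
        Finset.sum_congr rfl fun z _ => Finset.sum_comm
    _ = ∑ i ∈ P, ∑ z ∈ Finset.range Z, ∑ z' ∈ Finset.range Z, ∑ j ∈ P',
          (a i z * a i z') * (b j z * b j z') := Finset.sum_comm
    _ = ∑ i ∈ P, ∑ z ∈ Finset.range Z, ∑ j ∈ P', ∑ z' ∈ Finset.range Z,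
          (a i z * a i z') * (b j z * b j z') :=
        Finset.sum_congr rfl fun i _ => Finset.sum_congr rfl fun z _ => Finset.sum_comm
    _ = ∑ i ∈ P, ∑ j ∈ P', ∑ z ∈ Finset.range Z, ∑ z' ∈ Finset.range Z,
          (a i z * a i z') * (b j z * b j z') :=
        Finset.sum_congr rfl fun i _ => Finset.sum_comm

private theorem Mai_core (H X : ℕ) (S : ℤ → ℝ) (c : ℝ) (hc : 0 ≤ c) (hS0 : ∀ y, 0 ≤ S y)
    (hSH : ∀ y, S y ≤ H) (hsupp : ∀ y, (y < -(H : ℤ) ∨ (X : ℤ) ≤ y) → S y = 0)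
    (hT : ∑ y ∈ Finset.Ico (-(H : ℤ)) X, S y = X * c) :
    2 * X * c ^ 2 - 9 * (H : ℝ) ^ 2 * c ≤ ∑ y ∈ Finset.Ico (-(H : ℤ)) X, S y * S (y + 3 * H) +
      ∑ y ∈ Finset.Ico (-(H : ℤ)) X, S y ^ 2 := by
  classical
  set J : Finset ℤ := Finset.Ico (-(H : ℤ)) X with hJ
  set W : Finset ℤ := Finset.Ico (-(4 * H : ℤ)) X with hW
  have hH0 : (0 : ℤ) ≤ H := Int.natCast_nonneg H
  have hJW : J ⊆ W := by
    intro y hy
    rw [hJ, Finset.mem_Ico] at hy
    rw [hW, Finset.mem_Ico]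
    constructor <;> omega
  obtain ⟨o, ho⟩ : ∃ o : ℤ → ℝ, o = fun y : ℤ => if 0 ≤ y ∧ y < (X : ℤ) then (1 : ℝ) else 0 :=
    ⟨fun y : ℤ => if 0 ≤ y ∧ y < (X : ℤ) then (1 : ℝ) else 0, rfl⟩
  obtain ⟨e, he⟩ : ∃ e : ℤ → ℝ, e = fun y => S y - c * o y := ⟨fun y => S y - c * o y, rfl⟩
  have ho1 : ∀ y : ℤ, 0 ≤ y → y < X → o y = 1 := by
    intro y h1 h2
    rw [ho]
    simp only
    rw [if_pos ⟨h1, h2⟩]
  have ho0 : ∀ y : ℤ, (y < 0 ∨ (X : ℤ) ≤ y) → o y = 0 := by
    intro y h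
    rw [ho]
    simp only
    rw [if_neg (by omega)]
  have ho01 : ∀ y, 0 ≤ o y ∧ o y ≤ 1 := by
    intro y
    rw [ho]
    simp only
    split_ifs <;> norm_num
  have he0 : ∀ y : ℤ, (y < -(H : ℤ) ∨ (X : ℤ) ≤ y) → e y = 0 := by
    intro y h
    rw [he]
    simp only
    rw [hsupp y h, ho0 y (by omega)]
    ring
  -- sums with the indicator
  have hosum : ∀ (U : Finset ℤ) (g : ℤ → ℝ), Finset.Ico (0 : ℤ) X ⊆ U →
      ∑ y ∈ U, o y * g y = ∑ y ∈ Finset.Ico (0 : ℤ) X, g y := by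
    intro U g hU
    have h1 : ∑ y ∈ Finset.Ico (0 : ℤ) X, g y = ∑ y ∈ Finset.Ico (0 : ℤ) X, o y * g y := by
      refine Finset.sum_congr rfl fun y hy => ?_
      rw [Finset.mem_Ico] at hy
      rw [ho1 y hy.1 hy.2, one_mul]
    rw [h1]
    symm
    apply Finset.sum_subset hU
    intro y _ hy
    rw [ho0 y, zero_mul]
    rw [Finset.mem_Ico] at hy
    omega
  have hXJ : Finset.Ico (0 : ℤ) X ⊆ J := by
    intro y hy
    rw [Finset.mem_Ico] at hy
    rw [hJ, Finset.mem_Ico]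
    constructor <;> omega
  -- bounds for partial sums
  have hpart : ∀ (U V : Finset ℤ), J ⊆ U ∪ V →
      X * c - V.card * H ≤ ∑ y ∈ U, S y := by
    intro U V hUV
    have h1 : ∑ y ∈ J, S y ≤ ∑ y ∈ U ∪ V, S y :=
      Finset.sum_le_sum_of_subset_of_nonneg hUV fun y _ _ => hS0 y
    have h2 : ∑ y ∈ U ∪ V, S y ≤ ∑ y ∈ U, S y + ∑ y ∈ V, S y := by
      rw [← Finset.sum_union_inter]
      have : 0 ≤ ∑ y ∈ U ∩ V, S y := Finset.sum_nonneg fun y _ => hS0 y
      linarith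
    have h3 : ∑ y ∈ V, S y ≤ V.card * H := by
      have h4 := Finset.sum_le_card_nsmul V S H fun y _ => hSH y
      rwa [nsmul_eq_mul] at h4
    rw [hT] at h1
    linarith
  have hcardI : ∀ a b : ℤ, a ≤ b → ((Finset.Ico a b).card : ℝ) = b - a := by
    intro a b hab
    rw [Int.card_Ico]
    have h1 : ((b - a).toNat : ℤ) = b - a := Int.toNat_of_nonneg (by omega)
    have h2 : (((b - a).toNat : ℤ) : ℝ) = ((b - a : ℤ) : ℝ) := by rw [h1]
    push_cast at h2
    simpa using h2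
  have hA1 : X * c - 4 * (H : ℝ) ^ 2 ≤ ∑ y ∈ W, o y * S (y + 3 * H) := by
    rw [hosum W (fun y => S (y + 3 * H)) (hXJ.trans hJW)]
    have h1 : ∑ y ∈ Finset.Ico (0 : ℤ) X, S (y + 3 * H) =
        ∑ y ∈ Finset.Ico (3 * H : ℤ) (X + 3 * H), S y := by
      refine Finset.sum_nbij' (fun y => y + 3 * H) (fun y => y - 3 * H) ?_ ?_ ?_ ?_ ?_
      · intro y hy
        rw [Finset.mem_Ico] at hy ⊢
        constructor <;> omega
      · intro y hy
        rw [Finset.mem_Ico] at hy ⊢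
        constructor <;> omega
      · intro y _
        omega
      · intro y _
        omega
      · intro y _
        rfl
    rw [h1]
    have h2 := hpart (Finset.Ico (3 * H : ℤ) (X + 3 * H)) (Finset.Ico (-(H : ℤ)) (3 * H)) (by
      intro y hy
      rw [hJ, Finset.mem_Ico] at hy
      rw [Finset.mem_union, Finset.mem_Ico, Finset.mem_Ico]
      omega)
    rw [hcardI _ _ (by omega)] at h2
    push_cast at h2
    linarith
  have hA2 : X * c - 3 * (H : ℝ) ^ 2 ≤ ∑ y ∈ W, S y * o (y + 3 * H) := by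
    have h1 : ∑ y ∈ Finset.Ico (-(3 * H : ℤ)) (X - 3 * H), S y ≤ ∑ y ∈ W, S y * o (y + 3 * H) := by
      have h2 : ∑ y ∈ Finset.Ico (-(3 * H : ℤ)) (X - 3 * H), S y =
          ∑ y ∈ Finset.Ico (-(3 * H : ℤ)) (X - 3 * H), S y * o (y + 3 * H) := by
        refine Finset.sum_congr rfl fun y hy => ?_
        rw [Finset.mem_Ico] at hy
        rw [ho1 (y + 3 * H) (by omega) (by omega), mul_one]
      rw [h2]
      refine Finset.sum_le_sum_of_subset_of_nonneg ?_ fun y _ _ => mul_nonneg (hS0 y) (ho01 _).1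
      intro y hy
      rw [Finset.mem_Ico] at hy
      rw [hW, Finset.mem_Ico]
      constructor <;> omega
    refine le_trans ?_ h1
    have h2 := hpart (Finset.Ico (-(3 * H : ℤ)) (X - 3 * H)) (Finset.Ico (X - 3 * H : ℤ) X) (by
      intro y hy
      rw [hJ, Finset.mem_Ico] at hy
      rw [Finset.mem_union, Finset.mem_Ico, Finset.mem_Ico]
      omega)
    rw [hcardI _ _ (by omega)] at h2
    push_cast at h2
    linarith
  have hA3 : X * c - (H : ℝ) ^ 2 ≤ ∑ y ∈ J, o y * S y := by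
    rw [hosum J S hXJ]
    have h2 := hpart (Finset.Ico (0 : ℤ) X) (Finset.Ico (-(H : ℤ)) 0) (by
      intro y hy
      rw [hJ, Finset.mem_Ico] at hy
      rw [Finset.mem_union, Finset.mem_Ico, Finset.mem_Ico]
      omega)
    rw [hcardI _ _ (by omega)] at h2
    push_cast at h2
    linarith
  have hA4 : ∑ y ∈ J, o y = X := by
    have h1 := hosum J (fun _ => 1) hXJ
    simp only [mul_one] at h1
    rw [h1, Finset.sum_const, nsmul_eq_mul, mul_one, hcardI _ _ (by omega)]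
    push_cast
    ring
  have hA5 : ∑ y ∈ W, o y * o (y + 3 * H) ≤ X := by
    rw [hosum W (fun y => o (y + 3 * H)) (hXJ.trans hJW)]
    have h1 : ∑ y ∈ Finset.Ico (0 : ℤ) X, o (y + 3 * H) ≤ ∑ y ∈ Finset.Ico (0 : ℤ) X, (1 : ℝ) :=
      Finset.sum_le_sum fun y _ => (ho01 _).2
    rw [Finset.sum_const, nsmul_eq_mul, mul_one, hcardI _ _ (by omega)] at h1
    push_cast at h1
    linarith
  -- the energy of e
  have hE : ∑ y ∈ J, e y ^ 2 = ∑ y ∈ J, S y ^ 2 - 2 * c * ∑ y ∈ J, o y * S y + c ^ 2 * X := by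
    rw [← hA4, Finset.mul_sum, Finset.mul_sum, ← Finset.sum_sub_distrib, ← Finset.sum_add_distrib]
    refine Finset.sum_congr rfl fun y _ => ?_
    have h1 : o y ^ 2 = o y := by
      rw [ho]
      simp only
      split_ifs <;> norm_num
    rw [he]
    simp only
    linear_combination c ^ 2 * h1
  have hE1 : ∑ y ∈ W, e y ^ 2 = ∑ y ∈ J, e y ^ 2 := by
    symm
    apply Finset.sum_subset hJW
    intro y _ hy
    rw [he0 y]
    · norm_num
    · rw [hJ, Finset.mem_Ico] at hy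
      omega
  have hE2 : ∑ y ∈ W, e (y + 3 * H) ^ 2 = ∑ y ∈ J, e y ^ 2 := by
    refine Mai_shift (fun y => e y ^ 2) (-(H : ℤ)) X (3 * H) W ?_ ?_
    · intro y hy
      rw [he0 y hy]
      norm_num
    · intro y h1 h2
      rw [hW, Finset.mem_Ico]
      constructor <;> omega
  have hE3 : -∑ y ∈ J, e y ^ 2 ≤ ∑ y ∈ W, e y * e (y + 3 * H) := by
    have h1 : ∑ y ∈ W, (-(e y ^ 2 + e (y + 3 * H) ^ 2) / 2) ≤ ∑ y ∈ W, e y * e (y + 3 * H) := by
      refine Finset.sum_le_sum fun y _ => ?_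
      nlinarith [sq_nonneg (e y + e (y + 3 * H))]
    have h2 : ∑ y ∈ W, (-(e y ^ 2 + e (y + 3 * H) ^ 2) / 2) =
        -(∑ y ∈ W, e y ^ 2 + ∑ y ∈ W, e (y + 3 * H) ^ 2) / 2 := by
      rw [← Finset.sum_add_distrib, ← Finset.sum_neg_distrib, Finset.sum_div]
    rw [h2, hE1, hE2] at h1
    linarith
  have hM : ∑ y ∈ J, S y * S (y + 3 * H) = ∑ y ∈ W, e y * e (y + 3 * H) +
      c * ∑ y ∈ W, o y * S (y + 3 * H) + c * ∑ y ∈ W, S y * o (y + 3 * H) -
      c ^ 2 * ∑ y ∈ W, o y * o (y + 3 * H) := by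
    have h1 : ∑ y ∈ J, S y * S (y + 3 * H) = ∑ y ∈ W, S y * S (y + 3 * H) := by
      apply Finset.sum_subset hJW
      intro y _ hy
      rw [hsupp y, zero_mul]
      rw [hJ, Finset.mem_Ico] at hy
      omega
    rw [h1, Finset.mul_sum, Finset.mul_sum, Finset.mul_sum, ← Finset.sum_add_distrib,
      ← Finset.sum_add_distrib, ← Finset.sum_sub_distrib]
    refine Finset.sum_congr rfl fun y _ => ?_
    rw [he]
    simp only
    ring
  have h5 := mul_le_mul_of_nonneg_left hA1 hc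
  have h6 := mul_le_mul_of_nonneg_left hA2 hc
  have h7 := mul_le_mul_of_nonneg_left hA3 hc
  have h8 := mul_le_mul_of_nonneg_left hA5 (sq_nonneg c)
  rw [hM]
  nlinarith

private theorem Mai_pair (p : Par) (f : ℤ → ℤ → ℝ) (c : Cell p f) (i i' : ℕ) (hi : i < p.H) :
    ∑ x ∈ Finset.range p.X, (∑ z ∈ Finset.range p.Z, f x z * f (x + (3 * p.H + i' - i : ℕ)) z) ^ 2 =
      ∑ y ∈ Finset.Ico (-(p.H : ℤ)) p.X,
        (∑ z ∈ Finset.range p.Z, f (y + i) z * f (y + 3 * p.H + i') z) ^ 2 := by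
  have h1 : ∑ x ∈ Finset.range p.X,
      (∑ z ∈ Finset.range p.Z, f x z * f (x + (3 * p.H + i' - i : ℕ)) z) ^ 2 =
      ∑ x ∈ Finset.Ico (0 : ℤ) p.X,
        (∑ z ∈ Finset.range p.Z, f x z * f (x + (3 * p.H + i' - i)) z) ^ 2 := by
    refine Finset.sum_nbij' (fun x => (x : ℤ)) (fun x => x.toNat) ?_ ?_ ?_ ?_ ?_
    · intro x hx
      rw [Finset.mem_range] at hx
      rw [Finset.mem_Ico]
      constructor <;> omega
    · intro x hx
      rw [Finset.mem_Ico] at hx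
      rw [Finset.mem_range]
      omega
    · intro x _
      simp
    · intro x hx
      rw [Finset.mem_Ico] at hx
      exact Int.toNat_of_nonneg hx.1
    · intro x _
      have h2 : ((3 * p.H + i' - i : ℕ) : ℤ) = 3 * p.H + i' - i := by omega
      rw [h2]
  rw [h1, ← Mai_shift (fun x => (∑ z ∈ Finset.range p.Z, f x z * f (x + (3 * p.H + i' - i)) z) ^ 2)
    0 p.X i (Finset.Ico (-(p.H : ℤ)) p.X)]
  · refine Finset.sum_congr rfl fun y _ => ?_
    have h2 : y + i + (3 * (p.H : ℤ) + i' - i) = y + 3 * p.H + i' := by ring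
    rw [h2]
  · intro y hy
    rw [Finset.sum_eq_zero fun z _ => by rw [c.supp y z (by omega), zero_mul]]
    norm_num
  · intro y h2 h3
    rw [Finset.mem_Ico]
    constructor <;> omega

theorem mai (p : Par) (f : ℤ → ℤ → ℝ) (c : Cell p f) :
    (1 - 3 * p.η) * p.M ≤ ∑ d ∈ ds p.H, wt p.H d *
      ∑ x ∈ Finset.range p.X, (p.Z : ℝ) * cg f p.Z x (x + d) ^ 2 := by
  have hH := p.Hpos
  have hZ1 : (0 : ℝ) < p.Z := by exact_mod_cast p.Z_one
  have hX1 : (0 : ℝ) < p.X := by exact_mod_cast p.X_one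
  obtain ⟨J, hJ⟩ : ∃ J : Finset ℤ, J = Finset.Ico (-(p.H : ℤ)) p.X := ⟨_, rfl⟩
  -- the right side
  obtain ⟨R, hR⟩ : ∃ R : ℝ, R = ∑ d ∈ ds p.H, wt p.H d *
      ∑ x ∈ Finset.range p.X, (p.Z : ℝ) * cg f p.Z x (x + d) ^ 2 := ⟨_, rfl⟩
  rw [← hR]
  have hR1 : p.Z * R = ∑ i ∈ Finset.range p.H, ∑ i' ∈ Finset.range p.H, ∑ y ∈ J,
      (∑ z ∈ Finset.range p.Z, f (y + i) z * f (y + 3 * p.H + i') z) ^ 2 := by
    have h1 : p.Z * R = ∑ d ∈ ds p.H, wt p.H d * ∑ x ∈ Finset.range p.X,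
        (∑ z ∈ Finset.range p.Z, f x z * f (x + d) z) ^ 2 := by
      rw [hR, Finset.mul_sum]
      refine Finset.sum_congr rfl fun d _ => ?_
      rw [mul_left_comm, Finset.mul_sum]
      congr 1
      refine Finset.sum_congr rfl fun x _ => ?_
      rw [cg, div_pow]
      field_simp
    rw [h1, Mai_wt p.H (fun d => ∑ x ∈ Finset.range p.X,
      (∑ z ∈ Finset.range p.Z, f x z * f (x + d) z) ^ 2)]
    refine Finset.sum_congr rfl fun i hi => Finset.sum_congr rfl fun i' _ => ?_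
    rw [Finset.mem_range] at hi
    rw [hJ]
    exact Mai_pair p f c i i' hi
  -- window sums
  obtain ⟨S, hS⟩ : ∃ S : ℕ → ℕ → ℤ → ℝ, S = fun (z z' : ℕ) (y : ℤ) =>
      ∑ i ∈ Finset.range p.H, f (y + i) z * f (y + i) z' :=
    ⟨fun (z z' : ℕ) (y : ℤ) => ∑ i ∈ Finset.range p.H, f (y + i) z * f (y + i) z', rfl⟩
  obtain ⟨T, hT⟩ : ∃ T : ℕ → ℕ → ℝ, T = fun z z' : ℕ =>
      ∑ x ∈ Finset.range p.X, f x z * f x z' :=
    ⟨fun z z' : ℕ => ∑ x ∈ Finset.range p.X, f x z * f x z', rfl⟩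
  have hf0 : ∀ x z, 0 ≤ f x z := by
    intro x z
    rcases c.f01 x z with h | h <;> rw [h]
    norm_num
  have hf1 : ∀ x z, f x z ≤ 1 := by
    intro x z
    rcases c.f01 x z with h | h <;> rw [h]
    norm_num
  have hA0 : ∀ x z z', 0 ≤ f x z * f x z' := fun x z z' => mul_nonneg (hf0 _ _) (hf0 _ _)
  have hA1 : ∀ x z z', f x z * f x z' ≤ 1 := fun x z z' => mul_le_one₀ (hf1 _ _) (hf0 _ _) (hf1 _ _)
  have hT0 : ∀ z z', 0 ≤ T z z' := by
    intro z z'
    rw [hT]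
    exact Finset.sum_nonneg fun x _ => hA0 _ _ _
  have hTX : ∀ z z', T z z' ≤ p.X := by
    intro z z'
    rw [hT]
    have h1 := Finset.sum_le_card_nsmul (Finset.range p.X) (fun x : ℕ => f x z * f x z') 1
      fun x _ => hA1 _ _ _
    rwa [Finset.card_range, nsmul_eq_mul, mul_one] at h1
  have hcore : ∀ z z' : ℕ, 2 * p.X * (p.H * T z z' / p.X) ^ 2 - 9 * (p.H : ℝ) ^ 2 * p.H ≤
      ∑ y ∈ J, S z z' y * S z z' (y + 3 * p.H) + ∑ y ∈ J, S z z' y ^ 2 := by
    intro z z'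
    have hc0 : 0 ≤ p.H * T z z' / p.X := div_nonneg (mul_nonneg hH.le (hT0 _ _)) hX1.le
    have hc1 : p.H * T z z' / p.X ≤ p.H := by
      rw [div_le_iff₀ hX1]
      exact mul_le_mul_of_nonneg_left (hTX _ _) hH.le
    have h1 := Mai_core p.H p.X (S z z') (p.H * T z z' / p.X) hc0 ?_ ?_ ?_ ?_
    · rw [← hJ] at h1
      refine le_trans ?_ h1
      have h2 : 9 * (p.H : ℝ) ^ 2 * (p.H * T z z' / p.X) ≤ 9 * (p.H : ℝ) ^ 2 * p.H :=
        mul_le_mul_of_nonneg_left hc1 (by positivity)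
      linarith
    · intro y
      rw [hS]
      exact Finset.sum_nonneg fun i _ => hA0 _ _ _
    · intro y
      rw [hS]
      have h1 := Finset.sum_le_card_nsmul (Finset.range p.H)
        (fun i : ℕ => f (y + i) z * f (y + i) z') 1 fun x _ => hA1 _ _ _
      rwa [Finset.card_range, nsmul_eq_mul, mul_one] at h1
    · intro y hy
      rw [hS]
      refine Finset.sum_eq_zero fun i hi => ?_
      rw [Finset.mem_range] at hi
      rw [c.supp (y + i) z (by omega), zero_mul]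
    · rw [hS]
      simp only
      rw [Finset.sum_comm]
      have h1 : ∀ i ∈ Finset.range p.H, ∑ y ∈ Finset.Ico (-(p.H : ℤ)) p.X,
          f (y + i) z * f (y + i) z' = T z z' := by
        intro i hi
        rw [Finset.mem_range] at hi
        rw [Mai_shift (fun x => f x z * f x z') 0 p.X i (Finset.Ico (-(p.H : ℤ)) p.X)]
        · rw [hT]
          refine Finset.sum_nbij' (fun x => x.toNat) (fun x => (x : ℤ)) ?_ ?_ ?_ ?_ ?_
          · intro x hx
            rw [Finset.mem_Ico] at hx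
            rw [Finset.mem_range]
            omega
          · intro x hx
            rw [Finset.mem_range] at hx
            rw [Finset.mem_Ico]
            constructor <;> omega
          · intro x hx
            rw [Finset.mem_Ico] at hx
            exact Int.toNat_of_nonneg hx.1
          · intro x _
            simp
          · intro x hx
            rw [Finset.mem_Ico] at hx
            rw [Int.toNat_of_nonneg hx.1]
        · intro y hy
          rw [c.supp y z (by omega), zero_mul]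
        · intro y h2 h3
          rw [Finset.mem_Ico]
          constructor <;> omega
      rw [Finset.sum_congr rfl h1, Finset.sum_const, Finset.card_range, nsmul_eq_mul]
      field_simp
  -- summation over the pairs
  have hsum := Finset.sum_le_sum fun z (_ : z ∈ Finset.range p.Z) =>
    Finset.sum_le_sum fun z' (_ : z' ∈ Finset.range p.Z) => hcore z z'
  have hI1 : ∑ z ∈ Finset.range p.Z, ∑ z' ∈ Finset.range p.Z,
      ∑ y ∈ J, S z z' y * S z z' (y + 3 * p.H) = p.Z * R := by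
    have h1 : ∀ y ∈ J, ∑ z ∈ Finset.range p.Z, ∑ z' ∈ Finset.range p.Z,
        S z z' y * S z z' (y + 3 * p.H) = ∑ i ∈ Finset.range p.H, ∑ i' ∈ Finset.range p.H,
          (∑ z ∈ Finset.range p.Z, f (y + i) z * f (y + 3 * p.H + i') z) ^ 2 := by
      intro y _
      rw [hS]
      exact Mai_id (Finset.range p.H) (Finset.range p.H) p.Z (fun i z => f (y + i) z)
        (fun i z => f (y + 3 * p.H + i) z)
    rw [hR1]
    calc ∑ z ∈ Finset.range p.Z, ∑ z' ∈ Finset.range p.Z,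
          ∑ y ∈ J, S z z' y * S z z' (y + 3 * p.H)
        = ∑ y ∈ J, ∑ z ∈ Finset.range p.Z, ∑ z' ∈ Finset.range p.Z,
            S z z' y * S z z' (y + 3 * p.H) := by
          rw [Finset.sum_comm]
          rw [Finset.sum_congr rfl fun z (_ : z ∈ Finset.range p.Z) =>
            Finset.sum_comm (s := Finset.range p.Z) (t := J)
              (f := fun z' y => S z' z y * S z' z (y + 3 * p.H))]
          rw [Finset.sum_comm]
          refine Finset.sum_congr rfl fun y _ => ?_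
          rw [Finset.sum_comm]
      _ = ∑ y ∈ J, ∑ i ∈ Finset.range p.H, ∑ i' ∈ Finset.range p.H,
          (∑ z ∈ Finset.range p.Z, f (y + i) z * f (y + 3 * p.H + i') z) ^ 2 :=
          Finset.sum_congr rfl h1
      _ = ∑ i ∈ Finset.range p.H, ∑ y ∈ J, ∑ i' ∈ Finset.range p.H,
          (∑ z ∈ Finset.range p.Z, f (y + i) z * f (y + 3 * p.H + i') z) ^ 2 := Finset.sum_comm
      _ = ∑ i ∈ Finset.range p.H, ∑ i' ∈ Finset.range p.H, ∑ y ∈ J,
          (∑ z ∈ Finset.range p.Z, f (y + i) z * f (y + 3 * p.H + i') z) ^ 2 :=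
          Finset.sum_congr rfl fun i _ => Finset.sum_comm
  have hI2 : ∑ z ∈ Finset.range p.Z, ∑ z' ∈ Finset.range p.Z, ∑ y ∈ J, S z z' y ^ 2 ≤
      (p.X + p.H) * ((p.H : ℝ) ^ 2 * (p.Z : ℝ) ^ 2 * ((1 + p.η) * p.β)) := by
    have h1 : ∀ y ∈ J, ∑ z ∈ Finset.range p.Z, ∑ z' ∈ Finset.range p.Z, S z z' y ^ 2 ≤
        (p.H : ℝ) ^ 2 * (p.Z : ℝ) ^ 2 * ((1 + p.η) * p.β) := by
      intro y _
      have h2 := Mai_id (Finset.range p.H) (Finset.range p.H) p.Z (fun i z => f (y + i) z)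
        (fun i z => f (y + i) z)
      have h3 := c.s2 y
      rw [Bx, div_le_iff₀ (by positivity)] at h3
      simp only [Nat.cast_one, one_mul, zero_add] at h3
      rw [hS]
      simp only [sq] at h2 ⊢
      simp only [sq] at h3
      rw [h2]
      linarith
    have h4 : ∑ z ∈ Finset.range p.Z, ∑ z' ∈ Finset.range p.Z, ∑ y ∈ J, S z z' y ^ 2 =
        ∑ y ∈ J, ∑ z ∈ Finset.range p.Z, ∑ z' ∈ Finset.range p.Z, S z z' y ^ 2 := by
      rw [Finset.sum_comm]
      rw [Finset.sum_congr rfl fun z (_ : z ∈ Finset.range p.Z) =>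
        Finset.sum_comm (s := Finset.range p.Z) (t := J) (f := fun z' y => S z' z y ^ 2)]
      rw [Finset.sum_comm]
      refine Finset.sum_congr rfl fun y _ => ?_
      rw [Finset.sum_comm]
    rw [h4]
    have h5 := Finset.sum_le_card_nsmul J _ _ h1
    refine h5.trans (le_of_eq ?_)
    rw [nsmul_eq_mul, hJ, Int.card_Ico]
    have h6 : ((((p.X : ℤ) - -(p.H : ℤ)).toNat : ℕ) : ℝ) = p.X + p.H := by
      have h7 : (((p.X : ℤ) - -(p.H : ℤ)).toNat : ℕ) = p.X + p.H := by omega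
      rw [h7]
      push_cast
      ring
    rw [h6]
  have hI3 : ∑ z ∈ Finset.range p.Z, ∑ z' ∈ Finset.range p.Z,
      (2 * p.X * (p.H * T z z' / p.X) ^ 2 - 9 * (p.H : ℝ) ^ 2 * p.H) =
      2 * p.X * (p.H : ℝ) ^ 2 * (p.Z : ℝ) ^ 2 * p.β - 9 * (p.H : ℝ) ^ 3 * (p.Z : ℝ) ^ 2 := by
    have h2 := Mai_id (Finset.range p.X) (Finset.range p.X) p.Z (fun i z => f i z)
      (fun i z => f i z)
    have h3 := c.dens
    rw [Bx, div_eq_iff (by positivity)] at h3
    simp only [Nat.cast_one, one_mul, zero_add] at h3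
    rw [h3] at h2
    have h4 : ∀ z ∈ Finset.range p.Z, ∀ z' ∈ Finset.range p.Z,
        2 * p.X * (p.H * T z z' / p.X) ^ 2 - 9 * (p.H : ℝ) ^ 2 * p.H =
        2 * (p.H : ℝ) ^ 2 / p.X * ((∑ i ∈ Finset.range p.X, f i z * f i z') *
          (∑ i ∈ Finset.range p.X, f i z * f i z')) - 9 * (p.H : ℝ) ^ 3 := by
      intro z _ z' _
      rw [hT]
      field_simp
    rw [Finset.sum_congr rfl fun z hz => Finset.sum_congr rfl fun z' hz' => h4 z hz z' hz']
    simp only [Finset.sum_sub_distrib, Finset.sum_const, Finset.card_range, nsmul_eq_mul,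
      ← Finset.mul_sum]
    rw [h2]
    field_simp
  rw [hI3] at hsum
  simp only [Finset.sum_add_distrib] at hsum
  rw [hI1] at hsum
  have hfin := hsum.trans (add_le_add le_rfl hI2)
  have hβ := p.hβ
  have hβ1 := p.hβ1
  have hη := p.hη
  have hη1 := p.hη1
  have hedge := p.edge_x
  have hZ2 : 0 < (p.H : ℝ) ^ 2 * (p.Z : ℝ) ^ 2 := by positivity
  have hkey : (p.H : ℝ) ^ 2 * (p.Z : ℝ) ^ 2 * ((1 - 3 * p.η) * (p.X * p.β)) ≤ p.Z * R := by
    have h1 : (1 - 3 * p.η) * (p.X * p.β) ≤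
        2 * p.X * p.β - 9 * p.H - (p.X + p.H) * ((1 + p.η) * p.β) := by
      have h2 : (p.H : ℝ) * ((1 + p.η) * p.β) ≤ p.H * 2 := by
        apply mul_le_mul_of_nonneg_left _ hH.le
        nlinarith
      nlinarith
    have h3 := mul_le_mul_of_nonneg_left h1 hZ2.le
    nlinarith
  have hM : p.M = (p.Z : ℝ) * (p.H : ℝ) ^ 2 * p.X * p.β := rfl
  have h9 : p.Z * ((1 - 3 * p.η) * p.M) ≤ p.Z * R := by
    refine le_trans (le_of_eq ?_) hkey
    rw [hM]
    ring
  exact le_of_mul_le_mul_left h9 hZ1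

theorem mai2 (p : Par) (f : ℤ → ℤ → ℝ) (c : Cell p f) :
    9 / 10 * p.M ≤ ∑ d ∈ ds p.H, wt p.H d *
      ∑ x ∈ Finset.range p.X,
        en p.Z p.P (pr f x (x + d)) (arc p.P (1 / (24 * p.K * p.H)) 1 0) := by
  have hH := p.Hpos
  have hZ1 : (0 : ℝ) < p.Z := by exact_mod_cast p.Z_one
  have hX1 : (0 : ℝ) < p.X := by exact_mod_cast p.X_one
  have hwt : ∀ d ∈ ds p.H, 0 ≤ wt p.H d := by
    intro d hd
    rw [ds, Finset.mem_Ioo] at hd
    have h1 : (2 * (p.H : ℝ)) < d := by exact_mod_cast hd.1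
    have h2 : (d : ℝ) < 4 * p.H := by exact_mod_cast hd.2
    rw [wt, sub_nonneg, abs_le]
    constructor <;> linarith
  obtain ⟨E, hE⟩ : ∃ E : ℝ, E = p.μ * p.K * p.H + 144 * p.Z / (p.μ : ℝ) ^ 2 := ⟨_, rfl⟩
  have h1 : ∑ d ∈ ds p.H, wt p.H d * (∑ x ∈ Finset.range p.X, (p.Z : ℝ) * cg f p.Z x (x + d) ^ 2 -
      p.X * E) ≤ ∑ d ∈ ds p.H, wt p.H d * ∑ x ∈ Finset.range p.X,
        en p.Z p.P (pr f x (x + d)) (arc p.P (1 / (24 * p.K * p.H)) 1 0) := by
    refine Finset.sum_le_sum fun d hd => mul_le_mul_of_nonneg_left ?_ (hwt d hd)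
    have h2 : (p.X : ℝ) * E = ∑ x ∈ Finset.range p.X, E := by
      rw [Finset.sum_const, Finset.card_range, nsmul_eq_mul]
    rw [h2, ← Finset.sum_sub_distrib]
    refine Finset.sum_le_sum fun x _ => ?_
    have h3 := core_ge p f c x (x + d)
    rw [hE]
    linarith
  refine le_trans ?_ h1
  have h4 := mai p f c
  have h5 : ∑ d ∈ ds p.H, wt p.H d * (∑ x ∈ Finset.range p.X, (p.Z : ℝ) * cg f p.Z x (x + d) ^ 2 -
      p.X * E) = ∑ d ∈ ds p.H, wt p.H d * ∑ x ∈ Finset.range p.X, (p.Z : ℝ) * cg f p.Z x (x + d) ^ 2 -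
      (∑ d ∈ ds p.H, wt p.H d) * (p.X * E) := by
    rw [Finset.sum_mul, ← Finset.sum_sub_distrib]
    refine Finset.sum_congr rfl fun d _ => ?_
    ring
  have h6 : ∑ d ∈ ds p.H, wt p.H d = (p.H : ℝ) ^ 2 := by
    have h7 := Mai_wt p.H (fun _ => 1)
    simp only [mul_one, Finset.sum_const, Finset.card_range, nsmul_eq_mul] at h7
    rw [h7]
    ring
  rw [h5, h6]
  have hβ := p.hβ
  have hη := p.hη
  have hη1 := p.hη1
  have hμ0 : (0 : ℝ) < (p.μ : ℝ) ^ 2 := by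
    have h8 := p.hμ
    have h9 : (0 : ℝ) < p.μ := by
      have : 0 < p.μ := by omega
      exact_mod_cast this
    positivity
  have hE1 : E ≤ p.Z * p.β * (1 / 50) := by
    have h8 := p.edge_μ
    have h9 := p.hμβ
    rw [div_le_iff₀ hβ] at h9
    have h10 : 144 * p.Z / (p.μ : ℝ) ^ 2 ≤ p.Z * p.β / 100 := by
      rw [div_le_div_iff₀ hμ0 (by norm_num)]
      nlinarith
    have h11 : p.η * p.β * p.Z ≤ 1 / 100 * p.β * p.Z := by
      apply mul_le_mul_of_nonneg_right _ hZ1.le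
      exact mul_le_mul_of_nonneg_right hη1 hβ.le
    rw [hE]
    nlinarith
  have hM : p.M = (p.Z : ℝ) * (p.H : ℝ) ^ 2 * p.X * p.β := rfl
  have hM0 := p.M_pos
  have h12 : (p.H : ℝ) ^ 2 * (p.X * E) ≤ p.M / 50 := by
    have h13 : (p.H : ℝ) ^ 2 * (p.X * E) ≤ (p.H : ℝ) ^ 2 * (p.X * (p.Z * p.β * (1 / 50))) := by
      apply mul_le_mul_of_nonneg_left _ (by positivity)
      exact mul_le_mul_of_nonneg_left hE1 hX1.le
    rw [hM]
    linarith
  have h14 : p.η * p.M ≤ 1 / 100 * p.M := mul_le_mul_of_nonneg_right hη1 hM0.le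
  linarith

end Pool.Agent.AAR
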