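import Pool.Agent.AAR.Rsb
import Pool.Agent.AAR.Lo3
import Pool.Agent.AAR.Mai

/-!
# AAR-Fin: the exceptional set of ratios in a stable cell is small

PLAN.  Suppose `|T| > εK`.  For `h = pr f x (x+d)`, `k ∈ T`: `∑_z h(z) h(z+kd) = 0` by `hbad`, so by `idq` (`q = k d ≤ 4KH`, `Z_le_P`)
`∑_{n<P} |ĥ(n/P)|² e(k d n/P) = 0`; sum over `k`: `∑_{n<P} |ĥ|² Re tau T (d n/P) = 0`.  Multiply by `wt(d)/P`, sum over
`d`, `x`, and split `range P` into core `arc (1/(24KH)) 1 0`, `arc r 1 0 \ core`, `rest`, and the other `n` (`Lo3`; `rest` is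
disjoint from `arc r 1 0`).  core: `nint(n/P) ≤ 1/(24KH)`, `k ≤ K`, `d < 4H`: `k d n/P` is within `1/6` of an integer, so
`Re e ≥ 1/2`, `Re tau ≥ |T|/2`: contribution `≥ (|T|/2)(9/10) M` (`mai2`).  `arc r 1 0 \ core`: `≥ -|T| 1200 ηM` (`ms0`).
`rest`: `≥ -|T|M/16` (`rsb`).  Others: `lo3`; by `hlow`, `hηl`, `εK ≤ |T|`:
`555 (1+log Q2) √(2K|T|) √(...) ≤ |T| · 555 √2 ε^{-1/2} (ε/10^9)^{1/2} ≤ |T|/32`, `1200 η (2 + log Q2) ≤ 1/100`.
Sum `≥ |T| M (0.45 - 0.01 - 0.01 - 1/16 - 1/32) > 0`, contradiction.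
-/

set_option autoImplicit false

namespace Pool.Agent.AAR

private theorem fin_wt {H d : ℕ} (h : d ∈ ds H) : 0 ≤ wt H d := by
  rw [ds, Finset.mem_Ioo] at h
  rw [wt, sub_nonneg, abs_le]
  constructor
  · have : ((2 * H : ℕ) : ℝ) ≤ d := by exact_mod_cast h.1.le
    push_cast at this
    linarith
  · have : (d : ℝ) ≤ ((4 * H : ℕ) : ℝ) := by exact_mod_cast h.2.le
    push_cast at this
    linarith

private theorem fin_re (x : ℝ) (h : nint x ≤ 1 / 6) : 1 / 2 ≤ (ee x).re := by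
  rw [← ee_sub_round x]
  rw [nint] at h
  set y := x - round x
  have e : (ee y).re = Real.cos (2 * Real.pi * y) := by
    rw [ee]
    exact Complex.exp_ofReal_mul_I_re _
  rw [e, ← Real.cos_abs]
  have h2 : |2 * Real.pi * y| ≤ Real.pi / 3 := by
    rw [abs_mul, abs_of_pos (by positivity : 0 < 2 * Real.pi)]
    nlinarith [Real.pi_pos]
  rw [← Real.cos_pi_div_three]
  exact Real.cos_le_cos_of_nonneg_of_le_pi (abs_nonneg _) (by linarith [Real.pi_pos]) h2

private theorem fin_tau (T : Finset ℕ) (b : ℝ) : ‖tau T b‖ ≤ T.card := by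
  rw [tau]
  refine (norm_sum_le _ _).trans ?_
  rw [Finset.sum_congr rfl fun k _ => ee_norm _]
  simp

private theorem fin_zero (p : Par) (f : ℤ → ℤ → ℝ) (c : Cell p f) (T : Finset ℕ)
    (hT : T ⊆ Finset.Icc 1 p.K)
    (hbad : ∀ k ∈ T, ∀ d ∈ ds p.H, ∀ x z : ℤ,
      f x z * f (x + d) z * (f x (z + k * d) * f (x + d) (z + k * d)) = 0)
    {d : ℕ} (hd : d ∈ ds p.H) (x : ℕ) :
    ∑ n ∈ Finset.range p.P, ‖fh p.Z (pr f x (x + d)) ((n : ℝ) / p.P)‖ ^ 2 *
      (tau T (d * ((n : ℝ) / p.P))).re = 0 := by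
  have hP0 : (p.P : ℂ) ≠ 0 := by
    have := p.P_one
    exact_mod_cast (by omega : p.P ≠ 0)
  have key : ∀ k ∈ T, ∑ n ∈ Finset.range p.P,
      ((‖fh p.Z (pr f x (x + d)) ((n : ℝ) / p.P)‖ ^ 2 : ℝ) : ℂ) *
        ee (k * (d * ((n : ℝ) / p.P))) = 0 := by
    intro k hk
    have hkK := (Finset.mem_Icc.1 (hT hk)).2
    have hd4 : d < 4 * p.H := (Finset.mem_Ioo.1 hd).2
    have hkd : k * d ≤ 4 * p.K * p.H := by
      calc k * d ≤ p.K * (4 * p.H) := Nat.mul_le_mul hkK hd4.le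
        _ = 4 * p.K * p.H := by ring
    have h1 := idq p.Z p.P (k * d) (pr f x (x + d)) (by
      intro z hz
      unfold pr
      rw [c.supp x z (by
        rcases hz with h | h
        · exact Or.inr (Or.inr (Or.inl h))
        · exact Or.inr (Or.inr (Or.inr h))), zero_mul]) p.P_one (by
      have := p.Z_le_P
      omega)
    have h2 : (∑ z ∈ Finset.range p.Z,
        pr f x (x + d) z * pr f x (x + d) (z + ((k * d : ℕ) : ℤ)) : ℝ) = 0 := by
      apply Finset.sum_eq_zero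
      intro z _
      have := hbad k hk d hd x z
      unfold pr
      push_cast
      exact this
    rw [h2, Complex.ofReal_zero, div_eq_zero_iff] at h1
    rcases h1 with h1 | h1
    · rw [← h1]
      refine Finset.sum_congr rfl fun n _ => ?_
      congr 2
      push_cast
      ring
    · exact absurd h1 hP0
  have h3 : ∑ n ∈ Finset.range p.P,
      ((‖fh p.Z (pr f x (x + d)) ((n : ℝ) / p.P)‖ ^ 2 : ℝ) : ℂ) *
        tau T (d * ((n : ℝ) / p.P)) = 0 := by
    simp only [tau, Finset.mul_sum]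
    rw [Finset.sum_comm]
    exact Finset.sum_eq_zero key
  have h4 := congrArg Complex.re h3
  rw [Complex.re_sum, Complex.zero_re] at h4
  rw [← h4]
  refine Finset.sum_congr rfl fun n _ => ?_
  rw [Complex.re_ofReal_mul]

private theorem fin_sqrt (A L w : ℝ) (hA : 0 ≤ A) (hL : 0 ≤ 1 + L) :
    (1 + L) * (Real.sqrt A * Real.sqrt w) = Real.sqrt (A * ((1 + L) ^ 2 * w)) := by
  rw [Real.sqrt_mul hA, Real.sqrt_mul (by positivity), Real.sqrt_sq hL]
  ring

open Classical in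
private theorem fin_dx (p : Par) (f : ℤ → ℤ → ℝ) (c : Cell p f) (T : Finset ℕ)
    (hT : T ⊆ Finset.Icc 1 p.K)
    (hbad : ∀ k ∈ T, ∀ d ∈ ds p.H, ∀ x z : ℤ,
      f x z * f (x + d) z * (f x (z + k * d) * f (x + d) (z + k * d)) = 0)
    {d : ℕ} (hd : d ∈ ds p.H) (x : ℕ) :
    (T.card : ℝ) / 2 * en p.Z p.P (pr f x (x + d)) (arc p.P (1 / (24 * p.K * p.H)) 1 0) ≤
      T.card * en p.Z p.P (pr f x (x + d))
        (arc p.P p.r 1 0 \ arc p.P (1 / (24 * p.K * p.H)) 1 0) +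
      (∑ n ∈ rest p.P p.r p.Q2,
        ‖fh p.Z (pr f x (x + d)) ((n : ℝ) / p.P)‖ ^ 2 * ‖tau T (d * ((n : ℝ) / p.P))‖) / p.P +
      (∑ n ∈ (Finset.range p.P).filter (fun n => n ∉ rest p.P p.r p.Q2 ∧ n ∉ arc p.P p.r 1 0),
        ‖fh p.Z (pr f x (x + d)) ((n : ℝ) / p.P)‖ ^ 2 * ‖tau T (d * ((n : ℝ) / p.P))‖) / p.P := by
  have h0 := fin_zero p f c T hT hbad hd x
  set F : ℕ → ℝ := fun n => ‖fh p.Z (pr f x (x + d)) ((n : ℝ) / p.P)‖ ^ 2 with hF
  set τ : ℕ → ℂ := fun n => tau T (d * ((n : ℝ) / p.P)) with hτ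
  have hF0 : ∀ n, 0 ≤ F n := fun n => by positivity
  have hPp : (0 : ℝ) < p.P := by exact_mod_cast p.P_one
  set core := arc p.P (1 / (24 * p.K * p.H)) 1 0 with hcore
  set ar := arc p.P p.r 1 0 with har
  set rs := rest p.P p.r p.Q2 with hrs
  have hsub : core ⊆ ar := by
    intro n hn
    rw [hcore, arc, Finset.mem_filter] at hn
    rw [har, arc, Finset.mem_filter]
    exact ⟨hn.1, hn.2.trans p.r_core⟩
  have har1 : ar ⊆ Finset.range p.P := by
    rw [har, arc]
    exact Finset.filter_subset _ _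
  have hrs1 : rs ⊆ Finset.range p.P := by
    rw [hrs, rest]
    exact Finset.filter_subset _ _
  have hdis : ∀ n ∈ rs, n ∉ ar := by
    intro n hn hn'
    rw [hrs, rest, Finset.mem_filter] at hn
    rw [har, arc, Finset.mem_filter] at hn'
    have h1 := hn.2 1 le_rfl (le_trans (by norm_num) p.hQ2) 0
    exact absurd hn'.2 (not_le.2 h1)
  have e1 : Finset.range p.P = (core ∪ (ar \ core)) ∪ (rs ∪
      (Finset.range p.P).filter (fun n => n ∉ rs ∧ n ∉ ar)) := by
    ext n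
    simp only [Finset.mem_union, Finset.mem_sdiff, Finset.mem_filter]
    constructor
    · intro hn
      by_cases h1 : n ∈ core
      · exact Or.inl (Or.inl h1)
      · by_cases h2 : n ∈ ar
        · exact Or.inl (Or.inr ⟨h2, h1⟩)
        · by_cases h3 : n ∈ rs
          · exact Or.inr (Or.inl h3)
          · exact Or.inr (Or.inr ⟨hn, h3, h2⟩)
    · rintro ((h | h) | (h | h))
      · exact har1 (hsub h)
      · exact har1 h.1
      · exact hrs1 h
      · exact h.1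
  have hsum : ∀ g : ℕ → ℝ, ∑ n ∈ Finset.range p.P, g n =
      (∑ n ∈ core, g n + ∑ n ∈ ar \ core, g n) + (∑ n ∈ rs, g n +
        ∑ n ∈ (Finset.range p.P).filter (fun n => n ∉ rs ∧ n ∉ ar), g n) := by
    intro g
    conv_lhs => rw [e1]
    rw [Finset.sum_union, Finset.sum_union, Finset.sum_union]
    · rw [Finset.disjoint_left]
      intro n hn hn'
      exact (Finset.mem_filter.1 hn').2.1 hn
    · exact Finset.disjoint_sdiff
    · rw [Finset.disjoint_left]
      intro n hn hn'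
      have hnar : n ∈ ar := by
        rcases Finset.mem_union.1 hn with h | h
        · exact hsub h
        · exact (Finset.mem_sdiff.1 h).1
      rcases Finset.mem_union.1 hn' with h | h
      · exact hdis n h hnar
      · exact (Finset.mem_filter.1 h).2.2 hnar
  rw [hsum] at h0
  -- the core
  have b1 : (T.card : ℝ) / 2 * ∑ n ∈ core, F n ≤ ∑ n ∈ core, F n * (τ n).re := by
    rw [Finset.mul_sum]
    refine Finset.sum_le_sum fun n hn => ?_
    rw [mul_comm]
    apply mul_le_mul_of_nonneg_left _ (hF0 n)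
    rw [hcore, arc, Finset.mem_filter] at hn
    have hn2 : nint ((n : ℝ) / p.P) ≤ 1 / (24 * p.K * p.H) := by
      have := hn.2
      simpa using this
    simp only [hτ, tau]
    rw [Complex.re_sum]
    calc (T.card : ℝ) / 2 = ∑ _k ∈ T, (1 / 2 : ℝ) := by
          rw [Finset.sum_const, nsmul_eq_mul]
          ring
      _ ≤ ∑ k ∈ T, (ee (k * (d * ((n : ℝ) / p.P)))).re := by
          refine Finset.sum_le_sum fun k hk => fin_re _ ?_
          have hkK := (Finset.mem_Icc.1 (hT hk)).2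
          have hd4 : d < 4 * p.H := (Finset.mem_Ioo.1 hd).2
          have hkd : k * d ≤ 4 * p.K * p.H := by
            calc k * d ≤ p.K * (4 * p.H) := Nat.mul_le_mul hkK hd4.le
              _ = 4 * p.K * p.H := by ring
          have hkd' : ((k * d : ℕ) : ℝ) ≤ 4 * p.K * p.H := by exact_mod_cast hkd
          have e2 : (k : ℝ) * (d * ((n : ℝ) / p.P)) = ((k * d : ℕ) : ℝ) * ((n : ℝ) / p.P) := by
            push_cast
            ring
          rw [e2]
          have hHp := p.Hpos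
          have hKp := p.Kpos
          calc nint (((k * d : ℕ) : ℝ) * ((n : ℝ) / p.P))
              ≤ ((k * d : ℕ) : ℝ) * nint ((n : ℝ) / p.P) := nint_mul_nat _ _
            _ ≤ (4 * p.K * p.H) * (1 / (24 * p.K * p.H)) :=
                mul_le_mul hkd' hn2 (nint_nonneg _) (by positivity)
            _ = 1 / 6 := by
                field_simp
                norm_num
  have hlow : ∀ n, -(F n * ‖τ n‖) ≤ F n * (τ n).re := by
    intro n
    have h1 := Complex.abs_re_le_norm (τ n)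
    have h2 := (abs_le.1 h1).1
    have := mul_le_mul_of_nonneg_left h2 (hF0 n)
    linarith
  have b2 : -(T.card * ∑ n ∈ ar \ core, F n) ≤ ∑ n ∈ ar \ core, F n * (τ n).re := by
    rw [Finset.mul_sum, ← Finset.sum_neg_distrib]
    refine Finset.sum_le_sum fun n _ => ?_
    have h1 := hlow n
    have h2 : F n * ‖τ n‖ ≤ F n * T.card := mul_le_mul_of_nonneg_left (fin_tau T _) (hF0 n)
    linarith
  have b3 : -(∑ n ∈ rs, F n * ‖τ n‖) ≤ ∑ n ∈ rs, F n * (τ n).re := by
    rw [← Finset.sum_neg_distrib]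
    exact Finset.sum_le_sum fun n _ => hlow n
  have b4 : -(∑ n ∈ (Finset.range p.P).filter (fun n => n ∉ rs ∧ n ∉ ar), F n * ‖τ n‖) ≤
      ∑ n ∈ (Finset.range p.P).filter (fun n => n ∉ rs ∧ n ∉ ar), F n * (τ n).re := by
    rw [← Finset.sum_neg_distrib]
    exact Finset.sum_le_sum fun n _ => hlow n
  have b5 : (T.card : ℝ) / 2 * ∑ n ∈ core, F n ≤ T.card * ∑ n ∈ ar \ core, F n +
      ∑ n ∈ rs, F n * ‖τ n‖ +
      ∑ n ∈ (Finset.range p.P).filter (fun n => n ∉ rs ∧ n ∉ ar), F n * ‖τ n‖ := by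
    linarith
  have e3 : ∀ S : Finset ℕ, en p.Z p.P (pr f x (x + d)) S = (∑ n ∈ S, F n) / p.P := fun S => rfl
  rw [e3, e3, ← mul_div_assoc, ← mul_div_assoc, ← add_div, ← add_div]
  exact div_le_div_of_nonneg_right b5 hPp.le

theorem fin (p : Par) (f : ℤ → ℤ → ℝ) (c : Cell p f) (T : Finset ℕ)
    (hT : T ⊆ Finset.Icc 1 p.K)
    (hbad : ∀ k ∈ T, ∀ d ∈ ds p.H, ∀ x z : ℤ,
      f x z * f (x + d) z * (f x (z + k * d) * f (x + d) (z + k * d)) = 0) :
    (T.card : ℝ) ≤ p.ε * p.K := by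
  classical
  by_contra hlt
  push Not at hlt
  have hKp := p.Kpos
  have hM := p.M_pos
  have hε := p.hε
  have hTp : (0 : ℝ) < T.card := lt_trans (mul_pos hε hKp) hlt
  have c1 := mai2 p f c
  have c2 := ms0 p f c
  have c3 := rsb p f c T hT hlt.le
  have c4 := lo3 p f c T hT
  have hsumW : ∀ g₁ g₂ g₃ g₄ : ℕ → ℕ → ℝ, ∀ a b : ℝ,
      (∀ d ∈ ds p.H, ∀ x : ℕ, a * g₁ d x ≤ b * g₂ d x + g₃ d x + g₄ d x) →
      a * ∑ d ∈ ds p.H, wt p.H d * ∑ x ∈ Finset.range p.X, g₁ d x ≤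
        b * (∑ d ∈ ds p.H, wt p.H d * ∑ x ∈ Finset.range p.X, g₂ d x) +
        (∑ d ∈ ds p.H, wt p.H d * ∑ x ∈ Finset.range p.X, g₃ d x) +
        ∑ d ∈ ds p.H, wt p.H d * ∑ x ∈ Finset.range p.X, g₄ d x := by
    intro g₁ g₂ g₃ g₄ a b hg
    rw [Finset.mul_sum, Finset.mul_sum, ← Finset.sum_add_distrib, ← Finset.sum_add_distrib]
    refine Finset.sum_le_sum fun d hd => ?_
    have h1 : a * ∑ x ∈ Finset.range p.X, g₁ d x ≤ b * (∑ x ∈ Finset.range p.X, g₂ d x) +
        (∑ x ∈ Finset.range p.X, g₃ d x) + ∑ x ∈ Finset.range p.X, g₄ d x := by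
      rw [Finset.mul_sum, Finset.mul_sum, ← Finset.sum_add_distrib, ← Finset.sum_add_distrib]
      exact Finset.sum_le_sum fun x _ => hg d hd x
    have h2 := mul_le_mul_of_nonneg_left h1 (fin_wt hd)
    linarith
  have key := hsumW
    (fun d x => en p.Z p.P (pr f x (x + d)) (arc p.P (1 / (24 * p.K * p.H)) 1 0))
    (fun d x => en p.Z p.P (pr f x (x + d))
      (arc p.P p.r 1 0 \ arc p.P (1 / (24 * p.K * p.H)) 1 0))
    (fun d x => (∑ n ∈ rest p.P p.r p.Q2,
      ‖fh p.Z (pr f x (x + d)) ((n : ℝ) / p.P)‖ ^ 2 * ‖tau T (d * ((n : ℝ) / p.P))‖) / p.P)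
    (fun d x => (∑ n ∈ (Finset.range p.P).filter
      (fun n => n ∉ rest p.P p.r p.Q2 ∧ n ∉ arc p.P p.r 1 0),
      ‖fh p.Z (pr f x (x + d)) ((n : ℝ) / p.P)‖ ^ 2 * ‖tau T (d * ((n : ℝ) / p.P))‖) / p.P)
    ((T.card : ℝ) / 2) T.card (fun d hd x => fin_dx p f c T hT hbad hd x)
  have c1' := mul_le_mul_of_nonneg_left c1 (by positivity : (0 : ℝ) ≤ (T.card : ℝ) / 2)
  have c2' := mul_le_mul_of_nonneg_left c2 hTp.le
  -- numerical part
  set L := Real.log p.Q2 with hL
  have hL0 : 0 ≤ L := Real.log_natCast_nonneg _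
  have hη := p.hη
  set w := p.Ω * (p.β ^ (-(1 / 6 : ℝ)) * p.η) with hw
  have hw0 : 0 ≤ w := by
    have h1 := p.hΩ
    have h2 := Real.rpow_nonneg p.hβ.le (-(1 / 6 : ℝ))
    have : 0 ≤ p.Ω := by linarith
    positivity
  have hlw : (1 + L) ^ 2 * w ≤ p.ε / 10 ^ 9 := p.hlow
  have hη2 : p.η * (2 + L) ≤ 1 / 10 ^ 6 := p.hηl
  have n1 : (1 + L) * (Real.sqrt (2 * p.K * T.card) * Real.sqrt w) ≤ T.card / 17760 := by
    have e4 : (1 + L) * (Real.sqrt (2 * p.K * T.card) * Real.sqrt w) =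
        Real.sqrt ((2 * p.K * T.card) * ((1 + L) ^ 2 * w)) :=
      fin_sqrt _ _ _ (by positivity) (by positivity)
    rw [e4]
    apply Real.sqrt_le_iff.2
    refine ⟨by positivity, ?_⟩
    calc (2 * p.K * T.card) * ((1 + L) ^ 2 * w) ≤ (2 * p.K * T.card) * (p.ε / 10 ^ 9) :=
          mul_le_mul_of_nonneg_left hlw (by positivity)
      _ = 2 * T.card * (p.ε * p.K) / 10 ^ 9 := by ring
      _ ≤ 2 * T.card * T.card / 10 ^ 9 := by
          apply div_le_div_of_nonneg_right _ (by positivity)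
          exact mul_le_mul_of_nonneg_left hlt.le (by positivity)
      _ ≤ (T.card / 17760) ^ 2 := by
          rw [div_pow]
          have : (0 : ℝ) ≤ (T.card : ℝ) ^ 2 := by positivity
          rw [div_le_div_iff₀ (by positivity) (by positivity)]
          nlinarith
  have n2 : (1 + L) * (1200 * p.η * p.M * T.card +
      555 * Real.sqrt (2 * p.K * T.card) * Real.sqrt w * p.M) ≤
      (1 / 100) * (T.card * p.M) - 1200 * p.η * p.M * T.card + (1 / 32) * (T.card * p.M) := by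
    have h1 : (1 + L) * (1200 * p.η * p.M * T.card +
        555 * Real.sqrt (2 * p.K * T.card) * Real.sqrt w * p.M) =
        1200 * (p.η * (2 + L)) * (T.card * p.M) - 1200 * p.η * p.M * T.card +
        555 * p.M * ((1 + L) * (Real.sqrt (2 * p.K * T.card) * Real.sqrt w)) := by ring
    rw [h1]
    have h2 : 1200 * (p.η * (2 + L)) * (T.card * p.M) ≤ (1 / 100) * (T.card * p.M) := by
      apply mul_le_mul_of_nonneg_right _ (by positivity)
      linarith
    have h3 : 555 * p.M * ((1 + L) * (Real.sqrt (2 * p.K * T.card) * Real.sqrt w)) ≤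
        555 * p.M * (T.card / 17760) := mul_le_mul_of_nonneg_left n1 (by positivity)
    have h4 : 555 * p.M * ((T.card : ℝ) / 17760) = (1 / 32) * (T.card * p.M) := by ring
    linarith
  have hMT : 0 < (T.card : ℝ) * p.M := by positivity
  have hc1 : (T.card : ℝ) / 2 * (9 / 10 * p.M) = 9 / 20 * (T.card * p.M) := by ring
  have hc2 : (T.card : ℝ) * (1200 * p.η * p.M) = 1200 * p.η * p.M * T.card := by ring
  have hc3 : (T.card : ℝ) * p.M / 16 = 1 / 16 * (T.card * p.M) := by ring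
  rw [hc1] at c1'
  rw [hc2] at c2'
  rw [hc3] at c3
  linarith

end Pool.Agent.AAR
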