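import Pool.Agent.AAR.Defs

/-!
# AAR-NmN: the scales

PLAN.  Let `L = log N`, `R = ⌈L⌉₊` (`L ≤ R ≤ L + 1`), `T = ⌈R^(24/25)⌉₊`, `Ht = 16 R^1693 ⌈N^(κ/16)⌉₊`.  All inequalities hold for
large `N`; take logarithms.  `n1`: `(1+x)^T ≥ exp(T x/2)` for `0 ≤ x ≤ 1`, `T x ≥ R^(24/25 - 19/20) = R^(1/100)`, and
`exp(R^(1/100)/2) > R^5/2`.  `n4`: the logarithm of the left side is at most
`log 32 + 1693 log R + κ L/16 + T (log 16 + 1693 log R)` and `T ≤ R^(24/25) + 1 = o(L/log L)`; the right side is `κ L/6`.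
`n5`: `10000 log R + κ L/3 ≤ κ L`.  `n6`: `7 log R + κ L/6 ≤ L/2` as `κ ≤ 1/2`.  `n7`: `log 4 + 10 log R + L/2 + κ L/6 ≤ L`.
`n8`: `2 R^-5 ≤ 2 L^-5 ≤ L^(-24/5)/256` for `L^(1/5) ≥ 512`.  `n9`: with `x = R^(-19/20)`: `1/R ≤ x`, `(1+x)^6 ≤ 1 + 63 x`,
and `63 R^(-19/20) ≤ R^(-9/10)` for `R^(1/20) ≥ 63`.
Suggestion: prove for each an `∀ᶠ N in atTop` (or `∀ᶠ L : ℝ`, `∀ᶠ R : ℕ`) statement separately as private lemmas.
-/

set_option autoImplicit false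

namespace Pool.Agent.AAR

open Filter Real in
private lemma scl_ev (κ : ℝ) (hκ : 0 < κ) : ∃ x₀ : ℝ, ∀ x : ℝ, x₀ ≤ x →
    5 * Real.log x ≤ x ^ (1 / 100 : ℝ) / 2 ∧ Real.log x ≤ κ / 100000 * x ^ (1 / 25 : ℝ) ∧
      63 ≤ x ^ (1 / 20 : ℝ) ∧ (2 : ℝ) ^ 46 ≤ x := by
  have h1 : ∀ᶠ x : ℝ in atTop, ‖Real.log x‖ ≤ (1 / 10 : ℝ) * ‖x ^ (1 / 100 : ℝ)‖ :=
    (isLittleO_log_rpow_atTop (by norm_num : (0 : ℝ) < 1 / 100)).def (by norm_num)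
  have h2 : ∀ᶠ x : ℝ in atTop, ‖Real.log x‖ ≤ (κ / 100000 : ℝ) * ‖x ^ (1 / 25 : ℝ)‖ :=
    (isLittleO_log_rpow_atTop (by norm_num : (0 : ℝ) < 1 / 25)).def (by positivity)
  have h3 : ∀ᶠ x : ℝ in atTop, (63 : ℝ) ≤ x ^ (1 / 20 : ℝ) :=
    (tendsto_rpow_atTop (by norm_num : (0 : ℝ) < 1 / 20)).eventually (eventually_ge_atTop 63)
  have h4 : ∀ᶠ x : ℝ in atTop, (2 : ℝ) ^ 46 ≤ x := eventually_ge_atTop _
  obtain ⟨x₀, hx₀⟩ := eventually_atTop.1 (h1.and (h2.and (h3.and h4)))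
  refine ⟨x₀, fun x hx => ?_⟩
  obtain ⟨a, b, c, d⟩ := hx₀ x hx
  have hx0 : (0 : ℝ) ≤ x := le_trans (by positivity) d
  have a' := (le_abs_self _).trans a
  have b' := (le_abs_self _).trans b
  rw [Real.norm_of_nonneg (Real.rpow_nonneg hx0 _)] at a' b'
  exact ⟨by linarith, b', c, d⟩

private lemma scl_n1 (R T : ℕ) (hR : (2 : ℝ) ^ 46 ≤ R)
    (h1 : 5 * Real.log R ≤ (R : ℝ) ^ (1 / 100 : ℝ) / 2)
    (hT : (R : ℝ) ^ (24 / 25 : ℝ) ≤ T) :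
    1 < (1 + (R : ℝ) ^ (-(19 / 20 : ℝ))) ^ T * (2 / (R : ℝ) ^ 5) := by
  have hR0 : (0 : ℝ) < R := lt_of_lt_of_le (by positivity) hR
  have hR1 : (1 : ℝ) ≤ R := le_trans (by norm_num) hR
  set y : ℝ := (R : ℝ) ^ (-(19 / 20 : ℝ)) with hy
  have hy0 : 0 < y := Real.rpow_pos_of_pos hR0 _
  have hy1 : y ≤ 1 := Real.rpow_le_one_of_one_le_of_nonpos hR1 (by norm_num)
  have he : Real.exp (y / 2) ≤ 1 + y := by
    have h3 := Real.add_one_le_exp (-(y / 2))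
    have h4 : 0 < 1 - y / 2 := by linarith
    have h5 : Real.exp (y / 2) * Real.exp (-(y / 2)) = 1 := by
      rw [← Real.exp_add]; simp
    have h6 : Real.exp (y / 2) * (1 - y / 2) ≤ 1 := by
      rw [← h5]
      exact mul_le_mul_of_nonneg_left (by linarith) (Real.exp_pos _).le
    have h7 : 1 ≤ (1 + y) * (1 - y / 2) := by nlinarith
    exact le_of_mul_le_mul_right (h6.trans h7) h4
  have hp : Real.exp ((R : ℝ) ^ (1 / 100 : ℝ) / 2) ≤ (1 + y) ^ T := by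
    calc Real.exp ((R : ℝ) ^ (1 / 100 : ℝ) / 2) ≤ Real.exp ((T : ℝ) * (y / 2)) := by
          apply Real.exp_le_exp.2
          have h8 : (R : ℝ) ^ (1 / 100 : ℝ) = (R : ℝ) ^ (24 / 25 : ℝ) * y := by
            rw [hy, ← Real.rpow_add hR0]; norm_num
          rw [h8]
          have := mul_le_mul_of_nonneg_right hT hy0.le
          linarith
      _ = Real.exp (y / 2) ^ T := by rw [← Real.exp_nat_mul]
      _ ≤ (1 + y) ^ T := pow_le_pow_left₀ (Real.exp_pos _).le he T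
  have hq : (R : ℝ) ^ 5 ≤ Real.exp ((R : ℝ) ^ (1 / 100 : ℝ) / 2) := by
    have h9 : (R : ℝ) ^ 5 = Real.exp (5 * Real.log R) := by
      rw [show (5 : ℝ) = ((5 : ℕ) : ℝ) by norm_num, Real.exp_nat_mul, Real.exp_log hR0]
    rw [h9]
    exact Real.exp_le_exp.2 h1
  have h10 : (R : ℝ) ^ 5 ≤ (1 + y) ^ T := hq.trans hp
  have h11 : 0 < (R : ℝ) ^ 5 := by positivity
  rw [mul_div_assoc', lt_div_iff₀ h11]
  linarith

private lemma scl_n9 (R : ℕ) (hR : (2 : ℝ) ^ 46 ≤ R) (h1 : 63 ≤ (R : ℝ) ^ (1 / 20 : ℝ)) :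
    (1 + 1 / (R : ℝ)) ^ 4 * (1 + (R : ℝ) ^ (-(19 / 20 : ℝ))) ^ 2 ≤
        1 + (R : ℝ) ^ (-(9 / 10 : ℝ)) := by
  have hR0 : (0 : ℝ) < R := lt_of_lt_of_le (by positivity) hR
  have hR1 : (1 : ℝ) ≤ R := le_trans (by norm_num) hR
  set y : ℝ := (R : ℝ) ^ (-(19 / 20 : ℝ)) with hy
  have hy0 : 0 < y := Real.rpow_pos_of_pos hR0 _
  have hy1 : y ≤ 1 := Real.rpow_le_one_of_one_le_of_nonpos hR1 (by norm_num)
  have h2 : 1 / (R : ℝ) ≤ y := by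
    have : 1 / (R : ℝ) = (R : ℝ) ^ (-1 : ℝ) := by
      rw [Real.rpow_neg_one, one_div]
    rw [this, hy]
    exact Real.rpow_le_rpow_of_exponent_le hR1 (by norm_num)
  have h3 : (1 + 1 / (R : ℝ)) ^ 4 ≤ (1 + y) ^ 4 :=
    pow_le_pow_left₀ (by positivity) (by linarith) 4
  have h4 : (1 + y) ^ 6 ≤ 1 + 63 * y := by
    have e1 : y ^ 2 ≤ y := by nlinarith
    have e2 : y ^ 3 ≤ y := by nlinarith [mul_nonneg hy0.le hy0.le]
    have e3 : y ^ 4 ≤ y := by nlinarith [mul_nonneg hy0.le hy0.le, pow_nonneg hy0.le 3]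
    have e4 : y ^ 5 ≤ y := by nlinarith [mul_nonneg hy0.le hy0.le, pow_nonneg hy0.le 3, pow_nonneg hy0.le 4]
    have e5 : y ^ 6 ≤ y := by
      nlinarith [mul_nonneg hy0.le hy0.le, pow_nonneg hy0.le 3, pow_nonneg hy0.le 4, pow_nonneg hy0.le 5]
    have e0 : (1 + y) ^ 6 = 1 + 6 * y + 15 * y ^ 2 + 20 * y ^ 3 + 15 * y ^ 4 + 6 * y ^ 5 + y ^ 6 := by
      ring
    rw [e0]; linarith
  have h5 : 63 * y ≤ (R : ℝ) ^ (-(9 / 10 : ℝ)) := by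
    have : (R : ℝ) ^ (-(9 / 10 : ℝ)) = (R : ℝ) ^ (1 / 20 : ℝ) * y := by
      rw [hy, ← Real.rpow_add hR0]; norm_num
    rw [this]
    exact mul_le_mul_of_nonneg_right h1 hy0.le
  calc (1 + 1 / (R : ℝ)) ^ 4 * (1 + y) ^ 2 ≤ (1 + y) ^ 4 * (1 + y) ^ 2 :=
        mul_le_mul_of_nonneg_right h3 (by positivity)
    _ = (1 + y) ^ 6 := by ring
    _ ≤ 1 + 63 * y := h4
    _ ≤ 1 + (R : ℝ) ^ (-(9 / 10 : ℝ)) := by linarith

private lemma scl_n8 (R : ℕ) (L : ℝ) (hL : (2 : ℝ) ^ 45 ≤ L) (hLR : L ≤ R) :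
    2 / (R : ℝ) ^ 5 ≤ (L ^ (-(6 / 5 : ℝ))) ^ 4 / 256 := by
  have hL0 : (0 : ℝ) < L := lt_of_lt_of_le (by positivity) hL
  have h1 : (L ^ (-(6 / 5 : ℝ))) ^ 4 = L ^ (1 / 5 : ℝ) / L ^ 5 := by
    rw [← Real.rpow_natCast (L ^ (-(6 / 5 : ℝ))) 4, ← Real.rpow_mul hL0.le,
      ← Real.rpow_natCast L 5, ← Real.rpow_sub hL0]
    norm_num
  have h2 : (512 : ℝ) ≤ L ^ (1 / 5 : ℝ) := by
    have : (512 : ℝ) = ((2 : ℝ) ^ 45) ^ (1 / 5 : ℝ) := by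
      rw [← Real.rpow_natCast, ← Real.rpow_mul (by norm_num)]
      norm_num
    rw [this]
    exact Real.rpow_le_rpow (by positivity) hL (by norm_num)
  rw [h1]
  have h3 : 2 / (R : ℝ) ^ 5 ≤ 2 / L ^ 5 :=
    div_le_div_of_nonneg_left (by norm_num) (by positivity) (pow_le_pow_left₀ hL0.le hLR 5)
  refine h3.trans ?_
  rw [div_div, div_le_div_iff₀ (by positivity) (by positivity)]
  have h4 : 0 < L ^ 5 := by positivity
  nlinarith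

private lemma scl_n2 (a : ℝ) (p Z : ℕ) (hp : 1 ≤ p) (hZ : a ≤ Z) : a ≤ ((p * Z : ℕ) : ℝ) := by
  have h1 : Z ≤ p * Z := Nat.le_mul_of_pos_left Z hp
  have h2 : (Z : ℝ) ≤ ((p * Z : ℕ) : ℝ) := by exact_mod_cast h1
  exact hZ.trans h2

private lemma scl_n4 (κ L l u x a b : ℝ) (hκ : 0 < κ) (T Z p : ℕ) (hL2 : x / 2 ≤ L)
    (hl0 : 0 ≤ l) (hl5 : Real.log 32 ≤ l) (hu1 : 1 ≤ u) (hT : (T : ℝ) ≤ u + 1)
    (hp0 : 1 ≤ p) (hp : (p : ℝ) ≤ Real.exp (1694 * l)) (ha : 1 ≤ a) (hae : a = Real.exp (κ / 16 * L))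
    (hZ : (Z : ℝ) ≤ a + 1) (hb : b = Real.exp (κ / 6 * L)) (hul : u * l ≤ κ / 100000 * x) :
    ((p * Z : ℕ) : ℝ) * (p : ℝ) ^ T ≤ b := by
  have h2 : (2 : ℝ) ≤ Real.exp l := by
    have e1 : (2 : ℝ) ≤ 32 := by norm_num
    have e2 : (32 : ℝ) = Real.exp (Real.log 32) := (Real.exp_log (by norm_num)).symm
    have e3 := Real.exp_le_exp.2 hl5
    linarith
  have hZ2 : (Z : ℝ) ≤ Real.exp l * Real.exp (κ / 16 * L) := by
    rw [← hae]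
    nlinarith
  have hp1 : (1 : ℝ) ≤ p := by exact_mod_cast hp0
  have h3 : (p : ℝ) ^ T ≤ Real.exp ((T : ℝ) * (1694 * l)) := by
    rw [Real.exp_nat_mul]
    exact pow_le_pow_left₀ (by linarith) hp T
  have h4 : ((p * Z : ℕ) : ℝ) ≤ Real.exp (1694 * l) * (Real.exp l * Real.exp (κ / 16 * L)) := by
    push_cast
    exact mul_le_mul hp hZ2 (Nat.cast_nonneg _) (Real.exp_pos _).le
  calc ((p * Z : ℕ) : ℝ) * (p : ℝ) ^ T ≤
      (Real.exp (1694 * l) * (Real.exp l * Real.exp (κ / 16 * L))) * Real.exp ((T : ℝ) * (1694 * l)) :=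
        mul_le_mul h4 h3 (by positivity) (by positivity)
    _ = Real.exp (1694 * l + (l + κ / 16 * L) + (T : ℝ) * (1694 * l)) := by
        rw [Real.exp_add, Real.exp_add, Real.exp_add]
    _ ≤ b := by
        rw [hb]
        apply Real.exp_le_exp.2
        have h5 : (T : ℝ) * (1694 * l) ≤ (u + 1) * (1694 * l) :=
          mul_le_mul_of_nonneg_right hT (by positivity)
        have h6 : l ≤ u * l := by nlinarith
        have h7 : κ * (x / 2) ≤ κ * L := mul_le_mul_of_nonneg_left hL2 hκ.le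
        have h8 : 0 ≤ κ * (x / 2) := by
          have : 0 ≤ u * l := by positivity
          have : 0 ≤ κ / 100000 * x := this.trans hul
          nlinarith
        nlinarith

theorem scales (κ : ℝ) (hκ : 0 < κ) (hκ1 : κ ≤ 1 / 2) (R₀ : ℕ) : ∃ N₀ : ℕ, ∀ N : ℕ, N₀ ≤ N →
    2 ≤ N ∧ ∃ R T Ht : ℕ, R₀ ≤ R ∧ 2 ^ 40 ≤ R ∧ 1 ≤ T ∧
      (1 < (1 + (R : ℝ) ^ (-(19 / 20 : ℝ))) ^ T * (2 / (R : ℝ) ^ 5)) ∧
      16 * R ^ 1693 ∣ Ht ∧ 1 ≤ Ht ∧ (N : ℝ) ^ (κ / 16) ≤ Ht ∧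
      ((Ht : ℝ) * ((16 * R ^ 1693 : ℕ) : ℝ) ^ T ≤ (N : ℝ) ^ (κ / 6)) ∧
      ((R : ℝ) ^ 10000 * ((N : ℝ) ^ (κ / 6)) ^ 2 ≤ (N : ℝ) ^ κ) ∧
      ((R : ℝ) ^ 7 * (N : ℝ) ^ (κ / 6) ≤ (N : ℝ) ^ ((1 : ℝ) / 2)) ∧
      (4 * (R : ℝ) ^ 10 * (N : ℝ) ^ ((1 : ℝ) / 2) * (N : ℝ) ^ (κ / 6) ≤ N) ∧
      (2 / (R : ℝ) ^ 5 ≤ (Real.log N ^ (-(6 / 5 : ℝ))) ^ 4 / 256) ∧
      ((1 + 1 / (R : ℝ)) ^ 4 * (1 + (R : ℝ) ^ (-(19 / 20 : ℝ))) ^ 2 ≤
        1 + (R : ℝ) ^ (-(9 / 10 : ℝ))) := by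
  obtain ⟨x₀, hx₀⟩ := scl_ev κ hκ
  set x₁ : ℝ := max (max x₀ R₀) ((2 : ℝ) ^ 46) with hx₁
  have hxa : x₀ ≤ x₁ := (le_max_left _ _).trans (le_max_left _ _)
  have hxb : (R₀ : ℝ) ≤ x₁ := (le_max_right _ _).trans (le_max_left _ _)
  have hxc : (2 : ℝ) ^ 46 ≤ x₁ := le_max_right _ _
  refine ⟨⌈Real.exp x₁⌉₊, fun N hN => ?_⟩
  have hNe : Real.exp x₁ ≤ N := (Nat.le_ceil _).trans (by exact_mod_cast hN)
  have hN0 : (0 : ℝ) < N := lt_of_lt_of_le (Real.exp_pos _) hNe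
  set L : ℝ := Real.log N with hL
  have hL1 : x₁ ≤ L := by
    rw [hL, Real.le_log_iff_exp_le hN0]; exact hNe
  have hexp : Real.exp L = N := Real.exp_log hN0
  have hL46 : (2 : ℝ) ^ 46 ≤ L := hxc.trans hL1
  have hL0 : 0 < L := lt_of_lt_of_le (by positivity) hL46
  have hN2 : 2 ≤ N := by
    have : (2 : ℝ) ≤ N := by
      rw [← hexp]
      have := Real.add_one_le_exp L
      have : (1 : ℝ) ≤ L := le_trans (by norm_num) hL46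
      linarith
    exact_mod_cast this
  refine ⟨hN2, ?_⟩
  set R : ℕ := ⌈L⌉₊ with hR
  have hLR : L ≤ R := Nat.le_ceil _
  have hRL : (R : ℝ) < L + 1 := Nat.ceil_lt_add_one hL0.le
  have hR46 : (2 : ℝ) ^ 46 ≤ R := hL46.trans hLR
  have hR0 : (0 : ℝ) < R := lt_of_lt_of_le (by positivity) hR46
  have hR1 : (1 : ℝ) ≤ R := le_trans (by norm_num) hR46
  have hRn : 1 ≤ R := by exact_mod_cast hR1
  have hL2 : (R : ℝ) / 2 ≤ L := by linarith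
  obtain ⟨e1, e2, e3, _⟩ := hx₀ R (hxa.trans (hL1.trans hLR))
  set T : ℕ := ⌈(R : ℝ) ^ (24 / 25 : ℝ)⌉₊ with hT
  have hu1 : 1 ≤ (R : ℝ) ^ (24 / 25 : ℝ) := Real.one_le_rpow hR1 (by norm_num)
  have hTle : (R : ℝ) ^ (24 / 25 : ℝ) ≤ T := Nat.le_ceil _
  have hTlt : (T : ℝ) < (R : ℝ) ^ (24 / 25 : ℝ) + 1 := Nat.ceil_lt_add_one (by linarith)
  have hT1 : 1 ≤ T := by
    have : (1 : ℝ) ≤ T := hu1.trans hTle
    exact_mod_cast this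
  set Z : ℕ := ⌈(N : ℝ) ^ (κ / 16)⌉₊ with hZ
  have hN1 : (1 : ℝ) ≤ N := by exact_mod_cast (by omega : 1 ≤ N)
  have hz1 : 1 ≤ (N : ℝ) ^ (κ / 16) := Real.one_le_rpow hN1 (by positivity)
  have hZle : (N : ℝ) ^ (κ / 16) ≤ Z := Nat.le_ceil _
  have hZlt : (Z : ℝ) < (N : ℝ) ^ (κ / 16) + 1 := Nat.ceil_lt_add_one (by linarith)
  have hZ1 : 1 ≤ Z := by
    have : (1 : ℝ) ≤ Z := hz1.trans hZle
    exact_mod_cast this
  have hpn : 1 ≤ 16 * R ^ 1693 := by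
    have := Nat.one_le_pow 1693 R hRn
    omega
  -- powers of N as exponentials
  have hNp : ∀ a : ℝ, (N : ℝ) ^ a = Real.exp (a * L) := by
    intro a
    rw [Real.rpow_def_of_pos hN0, mul_comm]
  have hRp : ∀ k : ℕ, (R : ℝ) ^ k = Real.exp ((k : ℝ) * Real.log R) := by
    intro k
    rw [Real.exp_nat_mul, Real.exp_log hR0]
  set l : ℝ := Real.log R with hl
  have hl0 : 0 ≤ l := Real.log_nonneg hR1
  have hl5 : Real.log 32 ≤ l := Real.log_le_log (by norm_num) (le_trans (by norm_num) hR46)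
  have hl4 : Real.log 4 ≤ l := Real.log_le_log (by norm_num) (le_trans (by norm_num) hR46)
  have hv : (R : ℝ) ^ (1 / 25 : ℝ) ≤ R := by
    calc (R : ℝ) ^ (1 / 25 : ℝ) ≤ (R : ℝ) ^ (1 : ℝ) := Real.rpow_le_rpow_of_exponent_le hR1 (by norm_num)
      _ = R := Real.rpow_one _
  have hlk : l ≤ κ / 100000 * R :=
    e2.trans (mul_le_mul_of_nonneg_left hv (by positivity))
  have hlh : l ≤ R / 200000 := by
    have : κ / 100000 * R ≤ (1 / 2) / 100000 * R :=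
      mul_le_mul_of_nonneg_right (by linarith) hR0.le
    linarith
  have hkL : κ * L ≤ L / 2 := by nlinarith
  have hkR : κ * R / 2 ≤ κ * L := by nlinarith
  refine ⟨R, T, 16 * R ^ 1693 * Z, ?_, ?_, hT1, scl_n1 R T hR46 e1 hTle, Dvd.intro _ rfl, ?_, ?_, ?_,
    ?_, ?_, ?_, scl_n8 R L (le_trans (by norm_num) hL46) hLR, scl_n9 R hR46 e3⟩
  · have : (R₀ : ℝ) ≤ R := hxb.trans (hL1.trans hLR)
    exact_mod_cast this
  · have : (2 : ℝ) ^ 40 ≤ R := le_trans (by norm_num) hR46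
    exact_mod_cast this
  · exact Nat.one_le_iff_ne_zero.2 (Nat.mul_ne_zero (by omega) (by omega))
  · exact scl_n2 _ _ Z hpn hZle
  · refine scl_n4 κ L l ((R : ℝ) ^ (24 / 25 : ℝ)) R ((N : ℝ) ^ (κ / 16)) _ hκ T Z (16 * R ^ 1693) hL2 hl0 hl5
      hu1 hTlt.le hpn ?_ hz1 (hNp _) hZlt.le (hNp _) ?_
    · have h16 : (16 : ℝ) ≤ Real.exp l := by
        rw [hl, Real.exp_log hR0]
        exact le_trans (by norm_num) hR46
      have e1 : ((16 * R ^ 1693 : ℕ) : ℝ) = 16 * (R : ℝ) ^ 1693 := by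
        rw [Nat.cast_mul, Nat.cast_pow]; norm_num
      rw [e1, hRp, show (1694 : ℝ) * l = l + ((1693 : ℕ) : ℝ) * l by push_cast; ring, Real.exp_add]
      exact mul_le_mul_of_nonneg_right h16 (Real.exp_pos _).le
    · have e1 : (R : ℝ) ^ (24 / 25 : ℝ) * (κ / 100000 * (R : ℝ) ^ (1 / 25 : ℝ)) = κ / 100000 * R := by
        have : (R : ℝ) ^ (24 / 25 : ℝ) * (R : ℝ) ^ (1 / 25 : ℝ) = R := by
          rw [← Real.rpow_add hR0]; norm_num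
        calc (R : ℝ) ^ (24 / 25 : ℝ) * (κ / 100000 * (R : ℝ) ^ (1 / 25 : ℝ))
            = κ / 100000 * ((R : ℝ) ^ (24 / 25 : ℝ) * (R : ℝ) ^ (1 / 25 : ℝ)) := by ring
          _ = κ / 100000 * R := by rw [this]
      rw [← e1]
      exact mul_le_mul_of_nonneg_left e2 (by linarith)
  · rw [hRp, hNp, hNp, ← Real.exp_nat_mul, ← Real.exp_add]
    apply Real.exp_le_exp.2
    clear hpn
    push_cast
    linarith
  · rw [hRp, hNp, hNp, ← Real.exp_add]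
    apply Real.exp_le_exp.2
    clear hpn
    push_cast
    linarith
  · have h4 : (4 : ℝ) = Real.exp (Real.log 4) := (Real.exp_log (by norm_num)).symm
    rw [hRp, hNp, hNp, h4, ← Real.exp_add, ← Real.exp_add, ← Real.exp_add]
    rw [← hexp]
    apply Real.exp_le_exp.2
    clear hpn
    push_cast
    linarith

end Pool.Agent.AAR
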