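import Pool.Agent.AAR.Defs

/-!
# AAR-NmB: the parameter inequalities that involve `H`, `K`

Here `16 R^1693 ≤ H`, `16 R^834 R^839 ∣ H`, `R^10000 H^2 ≤ K`, `R ≥ 2^40`.  All products are written as powers of
`R` by `pow_add` and `pow_mul`; powers are compared by `Nat.pow_le_pow_right`.
-/

set_option autoImplicit false

namespace Pool.Agent.AAR

private lemma nb_one (R : ℕ) (hR : 2 ^ 40 ≤ R) : 1 ≤ R := le_trans (by norm_num) hR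

private lemma nb_pow (R : ℕ) (hR : 2 ^ 40 ≤ R) (m n : ℕ) (h : m ≤ n) : R ^ m ≤ R ^ n :=
  Nat.pow_le_pow_right (nb_one R hR) h

private lemma nb_c (R : ℕ) (hR : 2 ^ 40 ≤ R) (c m n : ℕ) (hc : c ≤ 2 ^ 40) (h : m + 1 ≤ n) :
    c * R ^ m ≤ R ^ n :=
  calc c * R ^ m ≤ R * R ^ m := Nat.mul_le_mul_right _ (hc.trans hR)
    _ = R ^ (m + 1) := by rw [pow_succ, mul_comm]
    _ ≤ R ^ n := nb_pow R hR _ _ h

private lemma nb_H (R H : ℕ) (hR : 2 ^ 40 ≤ R) (hH : 16 * R ^ 1693 ≤ H) : 1 ≤ H := by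
  have h1 : 1 ≤ R ^ 1693 := Nat.one_le_pow _ _ (nb_one R hR)
  calc 1 ≤ 16 * R ^ 1693 := le_trans h1 (Nat.le_mul_of_pos_left _ (by norm_num))
    _ ≤ H := hH

private lemma nb_K (R H K : ℕ) (hR : 2 ^ 40 ≤ R) (hH : 16 * R ^ 1693 ≤ H)
    (hK : R ^ 10000 * H ^ 2 ≤ K) : R ^ 10000 ≤ K := by
  have h1 : 1 ≤ H ^ 2 := Nat.one_le_pow _ _ (nb_H R H hR hH)
  exact (Nat.le_mul_of_pos_right _ h1).trans hK

theorem nB1 (R H : ℕ) (hR : 2 ^ 40 ≤ R) (hH : 16 * R ^ 1693 ≤ H) : 8 * R ^ 834 ≤ H :=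
  (Nat.mul_le_mul (by norm_num) (nb_pow R hR 834 1693 (by norm_num))).trans hH

theorem nB2 (R H K : ℕ) (hd : 16 * R ^ 834 * R ^ 839 ∣ H) :
    16 * R ^ 834 * R ^ 839 * (K * H / (16 * R ^ 834 * R ^ 839)) = K * H :=
  Nat.mul_div_cancel' (Dvd.dvd.mul_left hd K)

theorem nB3 (R H K : ℕ) (hR : 2 ^ 40 ≤ R) (hH : 16 * R ^ 1693 ≤ H)
    (hK : R ^ 10000 * H ^ 2 ≤ K) :
    (R ^ 834) ^ 9 ≤ K * H / (16 * R ^ 834 * R ^ 839) := by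
  have hp : 0 < R := nb_one R hR
  have hpos : 0 < 16 * R ^ 834 * R ^ 839 :=
    Nat.mul_pos (Nat.mul_pos (by norm_num) (pow_pos hp _)) (pow_pos hp _)
  rw [Nat.le_div_iff_mul_le hpos]
  have e : (R ^ 834) ^ 9 * (16 * R ^ 834 * R ^ 839) = 16 * R ^ (834 * 9 + 834 + 839) := by
    rw [← pow_mul, pow_add, pow_add, mul_assoc 16, mul_left_comm, mul_assoc (R ^ (834 * 9))]
  calc (R ^ 834) ^ 9 * (16 * R ^ 834 * R ^ 839) = 16 * R ^ (834 * 9 + 834 + 839) := e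
    _ ≤ R ^ 10000 := nb_c R hR 16 _ 10000 (by norm_num) (by norm_num)
    _ ≤ K := nb_K R H K hR hH hK
    _ ≤ K * H := Nat.le_mul_of_pos_right _ (nb_H R H hR hH)

theorem nB4 (R H K : ℕ) (hR : 2 ^ 40 ≤ R) (hH : 16 * R ^ 1693 ≤ H)
    (hK : R ^ 10000 * H ^ 2 ≤ K) : 8 * (R ^ 385) ^ 2 * H ^ 2 * (R ^ 6 + R ^ 839) < K := by
  have hp : 0 < R := nb_one R hR
  have hH1 : 0 < H ^ 2 := pow_pos (nb_H R H hR hH) _
  have h1 : R ^ 6 + R ^ 839 ≤ 2 * R ^ 839 := by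
    have := nb_pow R hR 6 839 (by norm_num)
    rw [two_mul]
    exact Nat.add_le_add_right this _
  have e : 8 * (R ^ 385) ^ 2 * H ^ 2 * (2 * R ^ 839) = 16 * R ^ (385 * 2 + 839) * H ^ 2 := by
    rw [← pow_mul, pow_add]
    generalize R ^ (385 * 2) = x
    generalize R ^ 839 = y
    ring
  have h2 : 16 * R ^ (385 * 2 + 839) < R ^ 10000 := by
    have h3 : 17 * R ^ (385 * 2 + 839) ≤ R ^ 10000 :=
      nb_c R hR 17 _ 10000 (by norm_num) (by norm_num)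
    have h4 : 0 < R ^ (385 * 2 + 839) := pow_pos hp _
    have h5 : 16 * R ^ (385 * 2 + 839) < 17 * R ^ (385 * 2 + 839) :=
      Nat.mul_lt_mul_of_pos_right (by norm_num) h4
    exact lt_of_lt_of_le h5 h3
  calc 8 * (R ^ 385) ^ 2 * H ^ 2 * (R ^ 6 + R ^ 839)
      ≤ 8 * (R ^ 385) ^ 2 * H ^ 2 * (2 * R ^ 839) := Nat.mul_le_mul_left _ h1
    _ = 16 * R ^ (385 * 2 + 839) * H ^ 2 := e
    _ < R ^ 10000 * H ^ 2 := Nat.mul_lt_mul_of_pos_right h2 hH1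
    _ ≤ K := hK

private lemma nb_div (R : ℕ) (hR : 2 ^ 40 ≤ R) (x : ℝ) :
    x / (1 / (R : ℝ) ^ 64) ^ 8 = x * (R : ℝ) ^ 512 := by
  have hp : 0 < R := nb_one R hR
  have h : ((R : ℝ) ^ 64) ≠ 0 := by positivity
  rw [one_div, inv_pow, div_inv_eq_mul, ← pow_mul]

theorem nB5 (R H K : ℕ) (hR : 2 ^ 40 ≤ R) (hH : 16 * R ^ 1693 ≤ H)
    (hK : R ^ 10000 * H ^ 2 ≤ K) :
    2 ^ 27 * (H : ℝ) * ((R ^ 6 : ℕ) : ℝ) / (1 / (R : ℝ) ^ 64) ^ 8 ≤ K := by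
  rw [nb_div R hR]
  have hH1 : 1 ≤ H := nb_H R H hR hH
  have h1 : 2 ^ 27 * H * R ^ 6 * R ^ 512 ≤ K := by
    calc 2 ^ 27 * H * R ^ 6 * R ^ 512 = (2 ^ 27 * R ^ (6 + 512)) * H := by
          rw [pow_add]
          generalize R ^ 6 = x
          generalize R ^ 512 = y
          ring
      _ ≤ R ^ 10000 * H := Nat.mul_le_mul_right _ (nb_c R hR (2 ^ 27) _ 10000 (by norm_num) (by norm_num))
      _ ≤ R ^ 10000 * H ^ 2 := Nat.mul_le_mul_left _ (by nlinarith)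
      _ ≤ K := hK
  exact_mod_cast h1

theorem nB6 (R H K : ℕ) (hR : 2 ^ 40 ≤ R) (hK : R ^ 10000 * H ^ 2 ≤ K) :
    128 * H ^ 2 * R ^ 6 ≤ K := by
  calc 128 * H ^ 2 * R ^ 6 = 128 * R ^ 6 * H ^ 2 := by ring
    _ ≤ R ^ 10000 * H ^ 2 := Nat.mul_le_mul_right _ (nb_c R hR 128 6 10000 (by norm_num) (by norm_num))
    _ ≤ K := hK

theorem nB7 (R H K : ℕ) (hR : 2 ^ 40 ≤ R) (hH : 16 * R ^ 1693 ≤ H)
    (hK : R ^ 10000 * H ^ 2 ≤ K) : (R ^ 834) ^ 4 ≤ K := by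
  rw [← pow_mul]
  exact (nb_pow R hR (834 * 4) 10000 (by norm_num)).trans (nb_K R H K hR hH hK)

theorem nB8 (R H : ℕ) (hR : 2 ^ 40 ≤ R) (hH : 16 * R ^ 1693 ≤ H) :
    2 ^ 21 / (1 / (R : ℝ) ^ 64) ^ 8 ≤ 2 * (H : ℝ) := by
  rw [nb_div R hR]
  have h1 : 2 ^ 21 * R ^ 512 ≤ 2 * H := by
    calc 2 ^ 21 * R ^ 512 ≤ R ^ 1693 := nb_c R hR (2 ^ 21) 512 1693 (by norm_num) (by norm_num)
      _ ≤ 16 * R ^ 1693 := Nat.le_mul_of_pos_left _ (by norm_num)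
      _ ≤ H := hH
      _ ≤ 2 * H := Nat.le_mul_of_pos_left _ (by norm_num)
  exact_mod_cast h1

end Pool.Agent.AAR
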