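import Pool.Agent.AAR.Omg

/-!
# AAR-NmC: the parameter inequalities with `η = R^(-9/10)` and `Ω = C R^(1/100)`

PLAN.  `nC1` is monotonicity: `C (R^834)^(1/83400) = C R^(1/100)`.
`nC2`: `log (R^834) = 834 log R`.  `η β ≥ R^(-9/10) R^-5`, so `200/(ηβ) ≤ 200 R^(5.9) ≤ R^7` and
`100 R^3/(ηβ) ≤ 100 R^(8.9) ≤ R^10` for large `R`.  `β^(-1/6) ≤ R^(5/6)`, so the fifth expression is at most
`(1 + 834 log R)^2 C R^(1/100 + 5/6 - 9/10)`, and `1/100 + 5/6 - 9/10 = -17/300 < 0`; `(1 + 834 log R)^2 ≤ R^(1/100)` etc. for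
large `R` (`isLittleO_log_rpow_atTop`, or `Real.log_le_rpow_div`, or `tendsto` arguments).
-/

set_option autoImplicit false

namespace Pool.Agent.AAR

private theorem NmC_ev (a δ : ℝ) (ha : 0 < a) (hδ : 0 < δ) :
    ∃ R₀ : ℕ, ∀ R : ℕ, R₀ ≤ R → (R : ℝ) ^ (-a) ≤ δ := by
  have h1 := (tendsto_rpow_neg_atTop ha).comp (tendsto_natCast_atTop_atTop (R := ℝ))
  have h2 := h1.eventually (gt_mem_nhds hδ)
  obtain ⟨R₀, h3⟩ := Filter.eventually_atTop.1 h2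
  exact ⟨R₀, fun R hR => (h3 R hR).le⟩

private theorem NmC_log (r c : ℝ) (hr : 1 ≤ r) (hc : 0 ≤ c) :
    c + 834 * Real.log r ≤ (c + 83400) * r ^ ((1 : ℝ) / 100) := by
  have h0 : 0 ≤ r := by linarith
  have h1 := Real.log_le_rpow_div h0 (show (0 : ℝ) < 1 / 100 by norm_num)
  have h2 : (1 : ℝ) ≤ r ^ ((1 : ℝ) / 100) := Real.one_le_rpow hr (by norm_num)
  have h3 : 834 * Real.log r ≤ 83400 * r ^ ((1 : ℝ) / 100) := by
    have : r ^ ((1 : ℝ) / 100) / (1 / 100) = 100 * r ^ ((1 : ℝ) / 100) := by ring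
    rw [this] at h1
    linarith
  nlinarith

theorem nC1 (C : ℝ) (hC : 1 ≤ C)
    (h : ∀ s : ℕ, 1 ≤ s → (15 : ℝ) ^ s.primeFactors.card ≤ C * (s : ℝ) ^ ((1 : ℝ) / 83400))
    (R : ℕ) : ∀ s : ℕ, 1 ≤ s → s ≤ R ^ 834 →
      (15 : ℝ) ^ s.primeFactors.card ≤ C * (R : ℝ) ^ ((1 : ℝ) / 100) := by
  intro s hs hsR
  refine (h s hs).trans ?_
  refine mul_le_mul_of_nonneg_left ?_ (by linarith)
  have h1 : (s : ℝ) ≤ (R : ℝ) ^ 834 := by exact_mod_cast hsR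
  have h2 : (s : ℝ) ^ ((1 : ℝ) / 83400) ≤ ((R : ℝ) ^ 834) ^ ((1 : ℝ) / 83400) :=
    Real.rpow_le_rpow (Nat.cast_nonneg s) h1 (by norm_num)
  refine h2.trans (le_of_eq ?_)
  rw [← Real.rpow_natCast (R : ℝ) 834, ← Real.rpow_mul (Nat.cast_nonneg R)]
  congr 1
  norm_num

theorem nC2 (ε C : ℝ) (hε : 0 < ε) (hC : 1 ≤ C) : ∃ R₀ : ℕ, ∀ R : ℕ, R₀ ≤ R → ∀ β η : ℝ,
    1 / (R : ℝ) ^ 5 ≤ β → β ≤ 1 → η = (R : ℝ) ^ (-(9 / 10 : ℝ)) →
      0 < η ∧ η ≤ 1 / 100 ∧ 200 / (η * β) ≤ ((R ^ 7 : ℕ) : ℝ) ∧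
      100 * ((R ^ 3 : ℕ) : ℝ) / (η * β) ≤ ((R ^ 10 : ℕ) : ℝ) ∧
      (1 + Real.log ((R ^ 834 : ℕ) : ℝ)) ^ 2 *
        ((C * (R : ℝ) ^ ((1 : ℝ) / 100)) * (β ^ (-(1 / 6 : ℝ)) * η)) ≤ ε / 10 ^ 9 ∧
      η * (2 + Real.log ((R ^ 834 : ℕ) : ℝ)) ≤ 1 / 10 ^ 6 := by
  obtain ⟨R₁, h1⟩ := NmC_ev (9 / 10) (1 / 100) (by norm_num) (by norm_num)
  obtain ⟨R₂, h2⟩ := NmC_ev (11 / 300) (ε / 10 ^ 9 / (83401 ^ 2 * C)) (by norm_num) (by positivity)
  obtain ⟨R₃, h3⟩ := NmC_ev (89 / 100) (1 / 10 ^ 6 / 83402) (by norm_num) (by norm_num)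
  refine ⟨R₁ + R₂ + R₃ + 200, fun R hR β η hβ hβ1 hη => ?_⟩
  have e1 := h1 R (by omega)
  have e2 := h2 R (by omega)
  have e3 := h3 R (by omega)
  have hR200 : (200 : ℝ) ≤ R := by
    have : 200 ≤ R := by omega
    exact_mod_cast this
  obtain ⟨r, hr⟩ : ∃ r : ℝ, r = (R : ℝ) := ⟨_, rfl⟩
  rw [← hr] at e1 e2 e3 hR200 hβ hη ⊢
  have hr0 : 0 < r := by linarith
  have hr1 : 1 ≤ r := by linarith
  have hη0 : 0 < η := by
    rw [hη]
    exact Real.rpow_pos_of_pos hr0 _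
  have hβ0 : 0 < β := lt_of_lt_of_le (by positivity) hβ
  have hlog : Real.log ((R ^ 834 : ℕ) : ℝ) = 834 * Real.log r := by
    rw [Nat.cast_pow, Real.log_pow, ← hr]
    norm_num
  have hηβ : 1 / r ^ 6 ≤ η * β := by
    have h4 : 1 / r ≤ η := by
      rw [hη, one_div, ← Real.rpow_neg_one]
      exact Real.rpow_le_rpow_of_exponent_le hr1 (by norm_num)
    calc 1 / r ^ 6 = 1 / r * (1 / r ^ 5) := by
          field_simp
      _ ≤ η * β := mul_le_mul h4 hβ (by positivity) hη0.le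
  have hinv : 1 / (η * β) ≤ r ^ 6 := by
    rw [div_le_iff₀ (mul_pos hη0 hβ0)]
    rw [div_le_iff₀ (by positivity)] at hηβ
    linarith
  refine ⟨hη0, ?_, ?_, ?_, ?_, ?_⟩
  · rw [hη]
    exact e1
  · rw [Nat.cast_pow, ← hr]
    calc 200 / (η * β) = 200 * (1 / (η * β)) := by ring
      _ ≤ r * r ^ 6 := mul_le_mul hR200 hinv (by positivity) hr0.le
      _ = r ^ 7 := by ring
  · rw [Nat.cast_pow, Nat.cast_pow, ← hr]
    calc 100 * r ^ 3 / (η * β) = (100 * r ^ 3) * (1 / (η * β)) := by ring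
      _ ≤ (r * r ^ 3) * r ^ 6 := by
          refine mul_le_mul ?_ hinv (by positivity) (by positivity)
          exact mul_le_mul_of_nonneg_right (by linarith) (by positivity)
      _ = r ^ 10 := by ring
  · rw [hlog]
    have h5 := NmC_log r 1 hr1 (by norm_num)
    have h50 : 0 ≤ 1 + 834 * Real.log r := by
      have := Real.log_nonneg hr1
      linarith
    have h6 : β ^ (-(1 / 6 : ℝ)) ≤ r ^ ((5 : ℝ) / 6) := by
      have h7 : β ^ (-(1 / 6 : ℝ)) ≤ (1 / r ^ 5) ^ (-(1 / 6 : ℝ)) :=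
        Real.rpow_le_rpow_of_nonpos (by positivity) hβ (by norm_num)
      refine h7.trans (le_of_eq ?_)
      have h8 : (1 : ℝ) / r ^ 5 = r ^ (-(5 : ℝ)) := by
        rw [Real.rpow_neg hr0.le, one_div]
        congr 1
        exact_mod_cast (Real.rpow_natCast r 5).symm
      rw [h8, ← Real.rpow_mul hr0.le]
      congr 1
      norm_num
    have hCp : 0 < C := by linarith
    have h9 : (1 + 834 * Real.log r) ^ 2 ≤ (83401 * r ^ ((1 : ℝ) / 100)) ^ 2 := by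
      refine pow_le_pow_left₀ h50 ?_ 2
      norm_num at h5 ⊢
      exact h5
    have h10 : r ^ ((1 : ℝ) / 100) * r ^ ((1 : ℝ) / 100) * (r ^ ((1 : ℝ) / 100) *
        (r ^ ((5 : ℝ) / 6) * r ^ (-(9 / 10 : ℝ)))) = r ^ (-(11 / 300) : ℝ) := by
      rw [← Real.rpow_add hr0, ← Real.rpow_add hr0, ← Real.rpow_add hr0, ← Real.rpow_add hr0]
      congr 1
      norm_num
    calc (1 + 834 * Real.log r) ^ 2 * ((C * r ^ ((1 : ℝ) / 100)) * (β ^ (-(1 / 6 : ℝ)) * η))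
        ≤ (83401 * r ^ ((1 : ℝ) / 100)) ^ 2 *
            ((C * r ^ ((1 : ℝ) / 100)) * (r ^ ((5 : ℝ) / 6) * η)) := by
          refine mul_le_mul h9 ?_ (by positivity) (by positivity)
          refine mul_le_mul_of_nonneg_left ?_ (by positivity)
          exact mul_le_mul_of_nonneg_right h6 hη0.le
      _ = 83401 ^ 2 * C * (r ^ ((1 : ℝ) / 100) * r ^ ((1 : ℝ) / 100) * (r ^ ((1 : ℝ) / 100) *
            (r ^ ((5 : ℝ) / 6) * r ^ (-(9 / 10 : ℝ))))) := by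
          rw [hη]
          ring
      _ = 83401 ^ 2 * C * r ^ (-(11 / 300) : ℝ) := by rw [h10]
      _ ≤ 83401 ^ 2 * C * (ε / 10 ^ 9 / (83401 ^ 2 * C)) :=
          mul_le_mul_of_nonneg_left e2 (by positivity)
      _ = ε / 10 ^ 9 := by
          field_simp
  · rw [hlog]
    have h5 := NmC_log r 2 hr1 (by norm_num)
    have h10 : r ^ (-(9 / 10 : ℝ)) * r ^ ((1 : ℝ) / 100) = r ^ (-(89 / 100) : ℝ) := by
      rw [← Real.rpow_add hr0]
      congr 1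
      norm_num
    calc η * (2 + 834 * Real.log r) ≤ η * (83402 * r ^ ((1 : ℝ) / 100)) := by
          refine mul_le_mul_of_nonneg_left ?_ hη0.le
          norm_num at h5 ⊢
          exact h5
      _ = 83402 * (r ^ (-(9 / 10 : ℝ)) * r ^ ((1 : ℝ) / 100)) := by
          rw [hη]
          ring
      _ = 83402 * r ^ (-(89 / 100) : ℝ) := by rw [h10]
      _ ≤ 83402 * (1 / 10 ^ 6 / 83402) := mul_le_mul_of_nonneg_left e3 (by norm_num)
      _ = 1 / 10 ^ 6 := by norm_num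

end Pool.Agent.AAR
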