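import Pool.Agent.AAR.NmA
import Pool.Agent.AAR.NmB
import Pool.Agent.AAR.NmC

/-!
# AAR-NmP: the parameters

PLAN.  `omg (1/83400)` gives `C`; `R₀ ≥ 2^40, 4096/ε`, `R₀` of `nC2 ε C`.  The structure with
`Q1 = R^385`, `G1 = R^12`, `l0 = R^6`, `E0 = R^64`, `μ = R^3`, `σ = 1/R^11`, `ρ1 = 1/R^64`, `Ω = C R^(1/100)`,
`P = (4 R^10 K H + 1)^3`; the fields are `nA1`-`nA7`, `nB1`-`nB8`, `nC1`, `nC2`, and trivial ones (`240 ≤ R^3`).
The last two conjuncts are `p.X = R^7 H`, `p.Z = 4 R^10 K H` by `rfl`.  (Do not let Lean unfold the powers: give all fields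
by terms `nA1 R h` etc., `refine ⟨{...}, rfl, ...⟩`.)
-/

set_option autoImplicit false

namespace Pool.Agent.AAR

theorem par_exists (ε : ℝ) (hε : 0 < ε) (hε1 : ε ≤ 1) : ∃ R₀ : ℕ, ∀ R : ℕ, R₀ ≤ R →
    ∀ (H K : ℕ) (β : ℝ), 1 / (R : ℝ) ^ 5 ≤ β → β ≤ 1 → 16 * R ^ 1693 ≤ H →
      16 * R ^ 834 * R ^ 839 ∣ H → R ^ 10000 * H ^ 2 ≤ K →
        ∃ p : Par, p.H = H ∧ p.K = K ∧ p.Q2 = R ^ 834 ∧
          p.m = K * H / (16 * R ^ 834 * R ^ 839) ∧ p.β = β ∧ p.ε = ε ∧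
          p.η = (R : ℝ) ^ (-(9 / 10 : ℝ)) ∧ p.X = R ^ 7 * H ∧ p.Z = 4 * R ^ 10 * K * H := by
  obtain ⟨C, hC, hCs⟩ := omg (1 / 83400) (by norm_num)
  obtain ⟨R₁, hR₁⟩ := nC2 ε C hε hC
  obtain ⟨N, hN⟩ := exists_nat_ge (4096 / ε)
  refine ⟨max (2 ^ 40) (max R₁ N), fun R hR H K β hβ hβ1 hH hd hK => ?_⟩
  have h40 : 2 ^ 40 ≤ R := le_trans (le_max_left _ _) hR
  have hRR₁ : R₁ ≤ R := le_trans (le_trans (le_max_left _ _) (le_max_right _ _)) hR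
  have hRN : N ≤ R := le_trans (le_trans (le_max_right _ _) (le_max_right _ _)) hR
  have hRε : 4096 / ε ≤ (R : ℝ) := le_trans hN (by exact_mod_cast hRN)
  have hR2 : 2 ≤ R := le_trans (by norm_num) h40
  have hR240 : 240 ≤ R := le_trans (by norm_num) h40
  have hR1 : 1 ≤ R := le_trans (by norm_num) hR2
  have hRpos : (0 : ℝ) < (R : ℝ) := by exact_mod_cast hR1
  have hRge : (1 : ℝ) ≤ (R : ℝ) := by exact_mod_cast hR1
  have hpw : ∀ n : ℕ, 1 ≤ R ^ n := fun n => Nat.one_le_pow n R hR1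
  have hpwr : ∀ n : ℕ, (0 : ℝ) < (R : ℝ) ^ n := fun n => pow_pos hRpos n
  have hpwr1 : ∀ n : ℕ, (1 : ℝ) ≤ (R : ℝ) ^ n := fun n => one_le_pow₀ hRge
  have hβ0 : 0 < β := lt_of_lt_of_le (one_div_pos.mpr (hpwr 5)) hβ
  have hH1 : 1 ≤ H := le_trans (Nat.le_trans (hpw 1693) (Nat.le_mul_of_pos_left _ (by norm_num))) hH
  have hK1 : 1 ≤ K := by
    refine le_trans ?_ hK
    exact Nat.one_le_iff_ne_zero.mpr (Nat.mul_ne_zero
      (Nat.one_le_iff_ne_zero.mp (hpw 10000)) (pow_ne_zero 2 (Nat.one_le_iff_ne_zero.mp hH1)))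
  obtain ⟨c1, c2, c3, c4, c5, c6⟩ := hR₁ R hRR₁ β _ hβ hβ1 rfl
  have hΩ : 1 ≤ C * (R : ℝ) ^ ((1 : ℝ) / 100) := by
    have h1 : (1 : ℝ) ≤ (R : ℝ) ^ ((1 : ℝ) / 100) := Real.one_le_rpow hRge (by norm_num)
    calc (1 : ℝ) = 1 * 1 := (one_mul 1).symm
      _ ≤ C * (R : ℝ) ^ ((1 : ℝ) / 100) := mul_le_mul hC h1 zero_le_one (le_trans zero_le_one hC)
  exact ⟨{
      H := H, K := K, B0 := R ^ 7, B1 := R ^ 10, Q1 := R ^ 385, Q2 := R ^ 834, G1 := R ^ 12,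
      l0 := R ^ 6, E0 := R ^ 64, Lam := R ^ 839, m := K * H / (16 * R ^ 834 * R ^ 839),
      μ := R ^ 3, P := (4 * R ^ 10 * K * H + 1) ^ 3,
      β := β, η := (R : ℝ) ^ (-(9 / 10 : ℝ)), ε := ε, σ := 1 / (R : ℝ) ^ 11,
      ρ1 := 1 / (R : ℝ) ^ 64, Ω := C * (R : ℝ) ^ ((1 : ℝ) / 100),
      hH := hH1
      hK := hK1
      hβ := hβ0
      hβ1 := hβ1
      hη := c1
      hη1 := c2
      hε := hε
      hε1 := hε1
      hσ := one_div_pos.mpr (hpwr 11)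
      hρ1 := one_div_pos.mpr (hpwr 64)
      hρ11 := (div_le_one (hpwr 64)).mpr (hpwr1 64)
      hΩ := hΩ
      hQ1 := nA1 R h40
      hQ2 := le_trans hR2 (Nat.le_self_pow (by norm_num) R)
      hQ2H := nB1 R H h40 hH
      hG1 := hpw 12
      hl0 := hpw 6
      hE0 := hpw 64
      hLam1 := hpw 839
      hμ := le_trans hR240 (Nat.le_self_pow (by norm_num) R)
      hm := nB2 R H K hd
      hm9 := nB3 R H K h40 hH hK
      hB0 := c3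
      hμβ := nA2 R β h40 hβ
      hB1 := c4
      hΩs := nC1 C hC hCs R
      hlow := c5
      hηl := c6
      hσβ := nA3 R ε β hε h40 hRε hβ
      hl0β := nA4 R ε β hε h40 hRε hβ
      hG1σ := nA5 R h40
      hρσ := nA6 R h40
      hLam := nA7 R h40
      hKH := nB4 R H K h40 hH hK
      hK1 := nB5 R H K h40 hH hK
      hK2 := nB6 R H K h40 hK
      hK3 := nB7 R H K h40 hH hK
      hHρ := nB8 R H h40 hH
      hP := le_refl _ }, rfl, rfl, rfl, rfl, rfl, rfl, rfl, rfl, rfl⟩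

end Pool.Agent.AAR
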