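import Pool.Agent.AAR.Cll
import Pool.Agent.AAR.NmP
import Pool.Agent.AAR.NmN

/-!
# AAR-Fte: the finite theorem

PLAN.  WLOG `ε ≤ 1` (for `ε > 1` the left side is negative; or apply the case `ε = 1`).  `R₀` from `par_exists ε`, `N₀` from `scales κ R₀`.
Put `B = 16 R^1693`, `Hs i = Ht * B^(T-i)`, `X i = R^7 * Hs i`, `Z i = 4 R^10 K Hs i`, `m i = K * Hs i/(16 R^834 R^839)`,
`β₀ = 2/R^5`, `η₀ = R^(-19/20)`, `η = R^(-9/10)`, `Q2 = R^834`.  `Hs i ≤ Hs 0 ≤ N^(κ/6)` and `Hs i = B Hs (i+1)` for `i < T`.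
`start` with `δ = (log N)^(-6/5)`, `X0 = X 0`, `Z0 = Z 0`: `R^7 Hs 0 ≤ N^(1/2) ≤ N/a` as `a ≤ N^(1/4)`
(`Nat.le_div_iff_mul_le`: `X0 * a ≤ N^(1/2) N^(1/4) ≤ N`), `Z 0 = 4 R^10 K Hs 0 ≤ N` as `K ≤ N^(1/2)`.
`stb A a T R (R^834) X Z Hs m β₀ η₀ η`: `h1`: `R X(i+1) = R^8 Hs(i+1) ≤ 8 Hs i/b`, as `b R^8 ≤ R^842 ≤ 8 · 16 R^1693`;
`h2`: `R^8 ≤ 16 R^1693`; `h3`: `m i = K R^20 Hs(i+1)` (exact), `4 R^11 ≤ R^20`; `h4`: `4 R^11 ≤ 4 R^10 · 16 R^1693`.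
It gives `i < T`, `W`, `x₀`, `z₀`, `β ≥ β₀/(1+η₀) ≥ 1/R^5`.  `par_exists` with `H = Hs i` (`16 R^1693 ≤ Ht ≤ Hs i`;
`16 R^834 R^839 ∣ 16 R^1693 ∣ Ht ∣ Hs i`; `R^10000 (Hs i)^2 ≤ R^10000 (N^(κ/6))^2 ≤ N^κ ≤ K`) gives `p`; `cell_ratio p` with
`d₀ = N^(κ/16) ≤ Ht ≤ Hs i`.  (`subst` the equations for the fields of `p`, or rewrite `s1`, `s2` by them.)
-/

set_option autoImplicit false

namespace Pool.Agent.AAR

private theorem Fte_arith (R B Ht T K : ℕ) (hR : 2 ^ 40 ≤ R) (hB : B = 16 * R ^ 1693)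
    (Hs : ℕ → ℕ) (hHs : ∀ i, Hs i = Ht * B ^ (T - i)) :
    (∀ i < T, ∀ b : ℕ, 1 ≤ b → b ≤ R ^ 834 → R * (R ^ 7 * Hs (i + 1)) ≤ 8 * Hs i / b) ∧
    (∀ i < T, R * (R ^ 7 * Hs (i + 1)) ≤ Hs i) ∧
    (∀ i < T, R * (4 * R ^ 10 * K * Hs (i + 1)) ≤ K * Hs i / (16 * R ^ 834 * R ^ 839)) ∧
    (∀ i < T, R * (4 * R ^ 10 * K * Hs (i + 1)) ≤ 4 * R ^ 10 * K * Hs i) := by
  have hR1 : 1 ≤ R := le_trans (by norm_num) hR
  have hR4 : 4 ≤ R := le_trans (by norm_num) hR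
  have hstep : ∀ i < T, Hs i = B * Hs (i + 1) := by
    intro i hi
    rw [hHs, hHs]
    have h1 : T - i = (T - (i + 1)) + 1 := by omega
    rw [h1, pow_succ]
    ring
  have hp : ∀ a b : ℕ, a ≤ b → R ^ a ≤ R ^ b := fun a b h => Nat.pow_le_pow_right hR1 h
  refine ⟨?_, ?_, ?_, ?_⟩
  · intro i hi b hb1 hb2
    rw [Nat.le_div_iff_mul_le hb1, hstep i hi, hB]
    calc R * (R ^ 7 * Hs (i + 1)) * b ≤ R * (R ^ 7 * Hs (i + 1)) * R ^ 834 :=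
          Nat.mul_le_mul_left _ hb2
      _ = R ^ 842 * Hs (i + 1) := by ring
      _ ≤ (8 * 16 * R ^ 1693) * Hs (i + 1) := by
          refine Nat.mul_le_mul_right _ ?_
          have := hp 842 1693 (by norm_num)
          omega
      _ = 8 * (16 * R ^ 1693 * Hs (i + 1)) := by ring
  · intro i hi
    rw [hstep i hi, hB]
    calc R * (R ^ 7 * Hs (i + 1)) = R ^ 8 * Hs (i + 1) := by ring
      _ ≤ 16 * R ^ 1693 * Hs (i + 1) := by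
          refine Nat.mul_le_mul_right _ ?_
          have := hp 8 1693 (by norm_num)
          omega
  · intro i hi
    have h0 : 0 < 16 * R ^ 834 * R ^ 839 := by positivity
    rw [Nat.le_div_iff_mul_le h0, hstep i hi, hB]
    calc R * (4 * R ^ 10 * K * Hs (i + 1)) * (16 * R ^ 834 * R ^ 839)
        = 4 * (K * (16 * R ^ 1684 * Hs (i + 1))) := by ring
      _ ≤ R ^ 9 * (K * (16 * R ^ 1684 * Hs (i + 1))) := by
          refine Nat.mul_le_mul_right _ ?_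
          calc 4 ≤ R := hR4
            _ = R ^ 1 := (pow_one R).symm
            _ ≤ R ^ 9 := hp 1 9 (by norm_num)
      _ = K * (16 * R ^ 1693 * Hs (i + 1)) := by ring
  · intro i hi
    rw [hstep i hi, hB]
    calc R * (4 * R ^ 10 * K * Hs (i + 1)) = R ^ 1 * (4 * R ^ 10 * K * Hs (i + 1)) := by ring
      _ ≤ (16 * R ^ 1693) * (4 * R ^ 10 * K * Hs (i + 1)) := by
          refine Nat.mul_le_mul_right _ ?_
          have := hp 1 1693 (by norm_num)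
          omega
      _ = 4 * R ^ 10 * K * (16 * R ^ 1693 * Hs (i + 1)) := by ring

private theorem Fte_rpow (N : ℕ) (hN : 1 ≤ N) :
    (N : ℝ) ^ ((1 : ℝ) / 2) * (N : ℝ) ^ ((1 : ℝ) / 4) ≤ N := by
  have hN' : (1 : ℝ) ≤ N := by exact_mod_cast hN
  rw [← Real.rpow_add (by linarith)]
  calc (N : ℝ) ^ ((1 : ℝ) / 2 + 1 / 4) ≤ (N : ℝ) ^ (1 : ℝ) :=
        Real.rpow_le_rpow_of_exponent_le hN' (by norm_num)
    _ = N := Real.rpow_one _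

open Classical in
theorem finite_thm (κ ε : ℝ) (hκ : 0 < κ) (hκ1 : κ ≤ 1 / 2) (hε : 0 < ε) :
    ∃ N₀ : ℕ, ∀ N : ℕ, N₀ ≤ N → ∀ A : Finset (ℕ × ℕ), A ⊆ Finset.Icc 1 N ×ˢ Finset.Icc 1 N →
      (N : ℝ) ^ 2 * Real.log N ^ (-(6 / 5 : ℝ)) ≤ A.card →
        ∀ a K : ℕ, 1 ≤ a → (a : ℝ) ≤ (N : ℝ) ^ ((1 : ℝ) / 4) → (N : ℝ) ^ κ ≤ K →
          (K : ℝ) ≤ (N : ℝ) ^ ((1 : ℝ) / 2) →
            (1 - ε) * K ≤ (((Finset.Icc 1 K).filter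
              (fun b => Ratio (A : Set (ℕ × ℕ)) a b ((N : ℝ) ^ (κ / 16)))).card : ℝ) := by
  obtain ⟨R₀, hR₀⟩ := par_exists (min ε 1) (lt_min hε one_pos) (min_le_right _ _)
  obtain ⟨N₀, hN₀⟩ := scales κ hκ hκ1 R₀
  refine ⟨N₀, fun N hN A hA hcard a K ha haN hK1 hK2 => ?_⟩
  obtain ⟨hN2, R, T, Ht, hRR, hR, hT, hgrow, hdiv, hHt1, hd0, hH0, hK, h7, h8, h9, h10⟩ :=
    hN₀ N hN
  have hR1 : 1 ≤ R := le_trans (by norm_num) hR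
  have hRr : (1 : ℝ) ≤ R := by exact_mod_cast hR1
  have hRpos : (0 : ℝ) < R := by linarith
  have hN1 : 1 ≤ N := by omega
  have hNr : (1 : ℝ) ≤ N := by exact_mod_cast hN1
  have hNpos : (0 : ℝ) < N := by linarith
  obtain ⟨B, hB⟩ : ∃ B, B = 16 * R ^ 1693 := ⟨_, rfl⟩
  obtain ⟨Hs, hHs⟩ : ∃ Hs : ℕ → ℕ, ∀ i, Hs i = Ht * B ^ (T - i) := ⟨_, fun _ => rfl⟩
  have hB1 : 1 ≤ B := by rw [hB]; exact Nat.mul_pos (by norm_num) (Nat.pow_pos hR1)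
  have hHtle : ∀ i, Ht ≤ Hs i := by
    intro i
    rw [hHs]
    exact Nat.le_mul_of_pos_right _ (Nat.pow_pos hB1)
  have hHspos : ∀ i, 1 ≤ Hs i := fun i => hHt1.trans (hHtle i)
  have hHs0 : ∀ i, Hs i ≤ Hs 0 := by
    intro i
    rw [hHs, hHs]
    exact Nat.mul_le_mul_left _ (Nat.pow_le_pow_right hB1 (by omega))
  have hHs0r : ((Hs 0 : ℕ) : ℝ) ≤ (N : ℝ) ^ (κ / 6) := by
    rw [hHs, Nat.sub_zero]
    rw [← hB] at hH0
    push_cast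
    exact hH0
  have hHsr : ∀ i, ((Hs i : ℕ) : ℝ) ≤ (N : ℝ) ^ (κ / 6) := fun i =>
    le_trans (by exact_mod_cast hHs0 i) hHs0r
  obtain ⟨a1, a2, a3, a4⟩ := Fte_arith R B Ht T K hR hB Hs hHs
  have hKr : (1 : ℝ) ≤ K := (Real.one_le_rpow hNr hκ.le).trans hK1
  have hKn : 1 ≤ K := by exact_mod_cast hKr
  have hXpos : ∀ i ≤ T, 1 ≤ R ^ 7 * Hs i := fun i _ =>
    Nat.mul_pos (Nat.pow_pos hR1) (hHspos i)
  have hZpos : ∀ i ≤ T, 1 ≤ 4 * R ^ 10 * K * Hs i := fun i _ =>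
    Nat.mul_pos (Nat.mul_pos (Nat.mul_pos (by norm_num) (Nat.pow_pos hR1)) hKn) (hHspos i)
  have hδ : 0 < Real.log N ^ (-(6 / 5 : ℝ)) := by
    refine Real.rpow_pos_of_pos (Real.log_pos ?_) _
    have : (2 : ℝ) ≤ N := by exact_mod_cast hN2
    linarith
  have haN' : a ≤ N := by
    have h1 : (a : ℝ) ≤ N := haN.trans (by
      calc (N : ℝ) ^ ((1 : ℝ) / 4) ≤ (N : ℝ) ^ (1 : ℝ) :=
            Real.rpow_le_rpow_of_exponent_le hNr (by norm_num)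
        _ = N := Real.rpow_one _)
    exact_mod_cast h1
  have hXN : R ^ 7 * Hs 0 ≤ N / a := by
    rw [Nat.le_div_iff_mul_le ha]
    have h1 : ((R ^ 7 * Hs 0 * a : ℕ) : ℝ) ≤ N := by
      push_cast
      calc (R : ℝ) ^ 7 * (Hs 0 : ℝ) * a ≤ (R : ℝ) ^ 7 * (N : ℝ) ^ (κ / 6) *
            (N : ℝ) ^ ((1 : ℝ) / 4) := by
            refine mul_le_mul ?_ haN (by positivity) (by positivity)
            exact mul_le_mul_of_nonneg_left hHs0r (by positivity)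
        _ ≤ (N : ℝ) ^ ((1 : ℝ) / 2) * (N : ℝ) ^ ((1 : ℝ) / 4) :=
            mul_le_mul_of_nonneg_right h7 (by positivity)
        _ ≤ (N : ℝ) := Fte_rpow N hN1
    exact_mod_cast h1
  have hZN : 4 * R ^ 10 * K * Hs 0 ≤ N := by
    have h1 : ((4 * R ^ 10 * K * Hs 0 : ℕ) : ℝ) ≤ N := by
      push_cast
      calc (4 : ℝ) * (R : ℝ) ^ 10 * (K : ℝ) * (Hs 0 : ℝ) ≤ (4 : ℝ) * (R : ℝ) ^ 10 * (N : ℝ) ^ ((1 : ℝ) / 2) *
            (N : ℝ) ^ (κ / 6) := by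
            refine mul_le_mul ?_ hHs0r (by positivity) (by positivity)
            exact mul_le_mul_of_nonneg_left hK2 (by positivity)
        _ ≤ (N : ℝ) := h8
    exact_mod_cast h1
  have hst := start A a N (R ^ 7 * Hs 0) (4 * R ^ 10 * K * Hs 0) _ ha haN' hA hδ
    (by rw [mul_comm]; exact hcard) (hXpos 0 (Nat.zero_le _)) hXN (hZpos 0 (Nat.zero_le _)) hZN
  have hβ₀ : (0 : ℝ) < 2 / (R : ℝ) ^ 5 := by positivity
  have hη₀ : 0 < (R : ℝ) ^ (-(19 / 20 : ℝ)) := Real.rpow_pos_of_pos hRpos _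
  have hη₀1 : (R : ℝ) ^ (-(19 / 20 : ℝ)) ≤ 1 :=
    Real.rpow_le_one_of_one_le_of_nonpos hRr (by norm_num)
  obtain ⟨i, hi, W, hW, x₀, z₀, β, hβe, hβl, hβu, s1, s2⟩ :=
    stb A a T R (R ^ 834) (fun i => R ^ 7 * Hs i) (fun i => 4 * R ^ 10 * K * Hs i) Hs
      (fun i => K * Hs i / (16 * R ^ 834 * R ^ 839)) (2 / (R : ℝ) ^ 5)
      ((R : ℝ) ^ (-(19 / 20 : ℝ))) ((R : ℝ) ^ (-(9 / 10 : ℝ))) ha hR1 hβ₀ hη₀ h10
      (h9.trans hst) hgrow hXpos hZpos a1 a2 a3 a4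
  have hβR : 1 / (R : ℝ) ^ 5 ≤ β := by
    refine le_trans ?_ hβl
    rw [div_div, div_le_div_iff₀ (by positivity) (by positivity)]
    have h5 : (0 : ℝ) < (R : ℝ) ^ 5 := by positivity
    nlinarith
  have hle : 16 * R ^ 1693 ≤ Hs i := (Nat.le_of_dvd hHt1 hdiv).trans (hHtle i)
  have hdv : 16 * R ^ 834 * R ^ 839 ∣ Hs i := by
    have h1 : 16 * R ^ 834 * R ^ 839 ∣ 16 * R ^ 1693 := ⟨R ^ 20, by ring⟩
    have h2 : Ht ∣ Hs i := by rw [hHs]; exact Dvd.intro _ rfl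
    exact (h1.trans hdiv).trans h2
  have hKH : R ^ 10000 * Hs i ^ 2 ≤ K := by
    have h1 : ((R ^ 10000 * Hs i ^ 2 : ℕ) : ℝ) ≤ K := by
      rw [Nat.cast_mul, Nat.cast_pow, Nat.cast_pow]
      refine le_trans ?_ (hK.trans hK1)
      refine mul_le_mul_of_nonneg_left ?_ (pow_nonneg hRpos.le _)
      exact pow_le_pow_left₀ (Nat.cast_nonneg _) (hHsr i) 2
    exact_mod_cast h1
  obtain ⟨p, pH, pK, pQ2, pm, pβ, pε, pη, pX, pZ⟩ :=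
    hR₀ R hRR (Hs i) K β hβR hβu hle hdv hKH
  have hfin := cell_ratio p A a W hW x₀ z₀ ((N : ℝ) ^ (κ / 16))
    (by rw [pH]; exact hd0.trans (by exact_mod_cast hHtle i))
    (by rw [pX, pZ, pβ]; exact hβe.symm)
    (by rw [pX, pZ, pβ, pQ2, pH, pm, pη]; exact s1)
    (by rw [pX, pZ, pβ, pH, pη]; exact s2)
  rw [pK, pε] at hfin
  refine le_trans ?_ hfin
  refine mul_le_mul_of_nonneg_right ?_ (Nat.cast_nonneg _)
  have := min_le_left ε 1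
  linarith

end Pool.Agent.AAR
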