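import Pool.Agent.AAR.Bas

/-!
# AAR-Psv: Parseval identities

PLAN.  Orthogonality: `∑_{n<P} e(n k/P) = P` if `P ∣ k`, else `0` (geometric sum, `ee_nsmul`).
`psv`: `T(u) = ∑_j κ_j h(u + s_j)` vanishes outside `[-S, Z)` and
`∑_{u ∈ Ico (-S) Z} T(u) e(-φ u) = fh Z h φ · ∑_j κ_j e(φ s_j)`; the left side of `psv` is the average
over `n < P` of its square, which is `∑_u |T(u)|²` as `Z + S ≤ P`.
`psv0`: the case `m = 1`, `s = 0`, `κ = 1`.  `idq`: expand the square, `z - z' + q ≡ 0 mod P` iff `z' = z + q`.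
-/

set_option autoImplicit false

namespace Pool.Agent.AAR

private theorem psv_sum_Ico (Z : ℕ) {β : Type} [AddCommMonoid β] (g : ℤ → β) :
    ∑ u ∈ Finset.Ico (0 : ℤ) Z, g u = ∑ z ∈ Finset.range Z, g (z : ℤ) := by
  symm
  refine Finset.sum_bij (fun z _ => (z : ℤ)) ?_ ?_ ?_ ?_
  · intro z hz
    rw [Finset.mem_range] at hz
    rw [Finset.mem_Ico]
    omega
  · intro a _ b _ hab
    exact_mod_cast hab
  · intro u hu
    rw [Finset.mem_Ico] at hu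
    refine ⟨u.toNat, ?_, ?_⟩
    · rw [Finset.mem_range]
      omega
    · omega
  · intro a _
    rfl

private theorem psv_ee_one {x : ℝ} (h : ee x = 1) : ∃ n : ℤ, x = n := by
  rw [ee, Complex.exp_eq_one_iff] at h
  obtain ⟨n, hn⟩ := h
  refine ⟨n, ?_⟩
  have h1 : ((2 * Real.pi * x : ℝ) : ℂ) * Complex.I = ((2 * Real.pi * n : ℝ) : ℂ) * Complex.I := by
    rw [hn]
    push_cast
    ring
  have h2 : (2 * Real.pi * x : ℝ) = 2 * Real.pi * n := by
    exact_mod_cast mul_right_cancel₀ Complex.I_ne_zero h1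
  have h3 : (2 * Real.pi : ℝ) ≠ 0 := by positivity
  exact mul_left_cancel₀ h3 h2

private theorem psv_orth (P : ℕ) (hP : 1 ≤ P) (k : ℤ) :
    ∑ n ∈ Finset.range P, ee ((n : ℝ) / P * k) = if (P : ℤ) ∣ k then (P : ℂ) else 0 := by
  have hP0 : (P : ℝ) ≠ 0 := by
    have : (0 : ℝ) < P := by exact_mod_cast hP
    exact this.ne'
  have e1 : ∀ n : ℕ, ee ((n : ℝ) / P * k) = ee ((k : ℝ) / P) ^ n := by
    intro n
    rw [← ee_nsmul]
    congr 1
    field_simp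
  rw [Finset.sum_congr rfl fun n _ => e1 n]
  by_cases h : (P : ℤ) ∣ k
  · rw [if_pos h]
    obtain ⟨j, rfl⟩ := h
    have h1 : (((P : ℤ) * j : ℤ) : ℝ) / P = j := by
      push_cast
      field_simp
    rw [h1, ee_int]
    simp
  · rw [if_neg h]
    have h1 : ee ((k : ℝ) / P) ≠ 1 := by
      intro h2
      obtain ⟨j, hj⟩ := psv_ee_one h2
      apply h
      refine ⟨j, ?_⟩
      rw [div_eq_iff hP0] at hj
      have : (k : ℝ) = ((P * j : ℤ) : ℝ) := by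
        rw [hj]
        push_cast
        ring
      exact_mod_cast this
    have h2 : ee ((k : ℝ) / P) ^ P = 1 := by
      rw [← ee_nsmul]
      have : (P : ℝ) * ((k : ℝ) / P) = k := by field_simp
      rw [this, ee_int]
    rw [geom_sum_eq h1, h2, sub_self, zero_div]

/-- the general identity -/
private theorem psv_gen (P : ℕ) (hP : 1 ≤ P) (I : Finset ℤ) (F : ℤ → ℂ) (q : ℤ) :
    ∑ n ∈ Finset.range P, ((‖∑ u ∈ I, F u * ee (-((n : ℝ) / P * u))‖ ^ 2 : ℝ) : ℂ) *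
        ee (q * ((n : ℝ) / P)) =
      P * ∑ u ∈ I, ∑ u' ∈ I, (if (P : ℤ) ∣ u' - u + q then F u * (starRingEnd ℂ) (F u') else 0) := by
  have e1 : ∀ n : ℕ, ((‖∑ u ∈ I, F u * ee (-((n : ℝ) / P * u))‖ ^ 2 : ℝ) : ℂ) *
        ee (q * ((n : ℝ) / P)) = ∑ u ∈ I, ∑ u' ∈ I,
        (F u * (starRingEnd ℂ) (F u')) * ee ((n : ℝ) / P * ((u' - u + q : ℤ) : ℝ)) := by
    intro n
    have e2 : ((‖∑ u ∈ I, F u * ee (-((n : ℝ) / P * u))‖ ^ 2 : ℝ) : ℂ) =
        (∑ u ∈ I, F u * ee (-((n : ℝ) / P * u))) *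
          (starRingEnd ℂ) (∑ u ∈ I, F u * ee (-((n : ℝ) / P * u))) := by
      rw [Complex.mul_conj, Complex.normSq_eq_norm_sq]
    rw [e2, map_sum, Finset.sum_mul_sum, Finset.sum_mul]
    refine Finset.sum_congr rfl fun u _ => ?_
    rw [Finset.sum_mul]
    refine Finset.sum_congr rfl fun u' _ => ?_
    rw [map_mul, ee_conj, neg_neg]
    have e3 : ee ((n : ℝ) / P * ((u' - u + q : ℤ) : ℝ)) =
        ee (-((n : ℝ) / P * u)) * ee ((n : ℝ) / P * u') * ee (q * ((n : ℝ) / P)) := by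
      rw [← ee_add, ← ee_add]
      congr 1
      push_cast
      ring
    rw [e3]
    ring
  rw [Finset.sum_congr rfl fun n _ => e1 n, Finset.sum_comm, Finset.mul_sum]
  refine Finset.sum_congr rfl fun u _ => ?_
  rw [Finset.sum_comm, Finset.mul_sum]
  refine Finset.sum_congr rfl fun u' _ => ?_
  rw [← Finset.mul_sum, psv_orth P hP]
  by_cases h : (P : ℤ) ∣ u' - u + q
  · rw [if_pos h, if_pos h]
    ring
  · rw [if_neg h, if_neg h]
    ring

/-- Parseval on an interval of length at most `P` -/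
private theorem psv_pars (P : ℕ) (hP : 1 ≤ P) (a b : ℤ) (hab : b - a ≤ P) (F : ℤ → ℂ) :
    (∑ n ∈ Finset.range P, ‖∑ u ∈ Finset.Ico a b, F u * ee (-((n : ℝ) / P * u))‖ ^ 2) / P =
      ∑ u ∈ Finset.Ico a b, ‖F u‖ ^ 2 := by
  have hP0 : (P : ℝ) ≠ 0 := by
    have : (0 : ℝ) < P := by exact_mod_cast hP
    exact this.ne'
  have h1 := psv_gen P hP (Finset.Ico a b) F 0
  have h2 : ∑ u ∈ Finset.Ico a b, ∑ u' ∈ Finset.Ico a b,
      (if (P : ℤ) ∣ u' - u + 0 then F u * (starRingEnd ℂ) (F u') else 0) =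
      ((∑ u ∈ Finset.Ico a b, ‖F u‖ ^ 2 : ℝ) : ℂ) := by
    push_cast
    refine Finset.sum_congr rfl fun u hu => ?_
    rw [Finset.sum_eq_single u]
    · rw [if_pos (by simp), Complex.mul_conj, Complex.normSq_eq_norm_sq]
      push_cast
      rfl
    · intro u' hu' hne
      rw [if_neg]
      intro hd
      rw [Finset.mem_Ico] at hu hu'
      rw [add_zero] at hd
      apply hne
      have h3 : |u' - u| < P := by
        rw [abs_lt]
        constructor <;> omega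
      have := Int.eq_zero_of_abs_lt_dvd hd h3
      omega
    · intro h
      exact absurd hu h
  rw [h2] at h1
  have h4 : ((∑ n ∈ Finset.range P, ‖∑ u ∈ Finset.Ico a b, F u * ee (-((n : ℝ) / P * u))‖ ^ 2 : ℝ) : ℂ) =
      ((P * ∑ u ∈ Finset.Ico a b, ‖F u‖ ^ 2 : ℝ) : ℂ) := by
    push_cast
    rw [Complex.ofReal_sum] at h1
    have e5 : ∀ n : ℕ, ee (((0 : ℤ) : ℝ) * ((n : ℝ) / P)) = 1 := by
      intro n
      rw [Int.cast_zero, zero_mul, ee_zero]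
    rw [Finset.sum_congr rfl fun n _ => by rw [e5 n, mul_one]] at h1
    push_cast at h1
    exact h1
  have h5 := Complex.ofReal_injective h4
  rw [h5]
  field_simp

private theorem psv_fh (Z : ℕ) (h : ℤ → ℝ) (φ : ℝ) :
    fh Z h φ = ∑ u ∈ Finset.Ico (0 : ℤ) Z, (h u : ℂ) * ee (-(φ * u)) := by
  rw [psv_sum_Ico Z (fun u : ℤ => (h u : ℂ) * ee (-(φ * u))), fh]
  refine Finset.sum_congr rfl fun z _ => ?_
  rw [Int.cast_natCast]

private theorem psv_shift (Z S : ℕ) (h : ℤ → ℝ) (hs : ∀ z : ℤ, (z < 0 ∨ (Z : ℤ) ≤ z) → h z = 0)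
    (s : ℕ) (hsS : s ≤ S) (φ : ℝ) :
    ∑ u ∈ Finset.Ico (-(S : ℤ)) Z, (h (u + s) : ℂ) * ee (-(φ * u)) = fh Z h φ * ee (φ * s) := by
  have h1 : ∑ u ∈ Finset.Ico (-(S : ℤ)) Z, (h (u + s) : ℂ) * ee (-(φ * u)) =
      ∑ v ∈ Finset.Ico (-(S : ℤ) + s) (Z + s), (h v : ℂ) * ee (-(φ * (v - s : ℤ))) := by
    refine Finset.sum_bij (fun u _ => u + s) ?_ ?_ ?_ ?_
    · intro u hu
      rw [Finset.mem_Ico] at hu ⊢
      omega
    · intro u _ v _ huv
      exact add_right_cancel huv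
    · intro v hv
      rw [Finset.mem_Ico] at hv
      refine ⟨v - s, ?_, ?_⟩
      · rw [Finset.mem_Ico]
        omega
      · ring
    · intro u _
      rw [add_sub_cancel_right]
  have h2 : ∑ v ∈ Finset.Ico (0 : ℤ) Z, (h v : ℂ) * ee (-(φ * (v - s : ℤ))) =
      ∑ v ∈ Finset.Ico (-(S : ℤ) + s) (Z + s), (h v : ℂ) * ee (-(φ * (v - s : ℤ))) := by
    refine Finset.sum_subset ?_ ?_
    · intro v hv
      rw [Finset.mem_Ico] at hv ⊢
      omega
    · intro v _ hv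
      rw [Finset.mem_Ico] at hv
      rw [hs v (by omega)]
      simp
  rw [h1, ← h2, psv_fh, Finset.sum_mul]
  refine Finset.sum_congr rfl fun v _ => ?_
  rw [mul_assoc, ← ee_add]
  congr 2
  push_cast
  ring

theorem psv (Z P S m : ℕ) (h : ℤ → ℝ) (hs : ∀ z : ℤ, (z < 0 ∨ (Z : ℤ) ≤ z) → h z = 0)
    (s : ℕ → ℕ) (hsS : ∀ j < m, s j ≤ S) (κ : ℕ → ℂ) (hP1 : 1 ≤ P) (hP : Z + S ≤ P) :
    (∑ n ∈ Finset.range P, ‖fh Z h ((n : ℝ) / P)‖ ^ 2 *
      ‖∑ j ∈ Finset.range m, κ j * ee ((n : ℝ) / P * s j)‖ ^ 2) / P =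
    ∑ u ∈ Finset.Ico (-(S : ℤ)) Z, ‖∑ j ∈ Finset.range m, κ j * (h (u + s j) : ℂ)‖ ^ 2 := by
  rw [← psv_pars P hP1 (-(S : ℤ)) Z (by omega) (fun u => ∑ j ∈ Finset.range m, κ j * (h (u + s j) : ℂ))]
  congr 1
  refine Finset.sum_congr rfl fun n _ => ?_
  rw [← mul_pow, ← norm_mul]
  congr 2
  rw [Finset.mul_sum]
  have e1 : ∀ u ∈ Finset.Ico (-(S : ℤ)) Z,
      (∑ j ∈ Finset.range m, κ j * (h (u + s j) : ℂ)) * ee (-((n : ℝ) / P * u)) =
      ∑ j ∈ Finset.range m, κ j * ((h (u + s j) : ℂ) * ee (-((n : ℝ) / P * u))) := by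
    intro u _
    rw [Finset.sum_mul]
    refine Finset.sum_congr rfl fun j _ => ?_
    rw [mul_assoc]
  rw [Finset.sum_congr rfl e1, Finset.sum_comm]
  refine Finset.sum_congr rfl fun j hj => ?_
  rw [← Finset.mul_sum, psv_shift Z S h hs (s j) (hsS j (Finset.mem_range.1 hj))]
  ring

theorem psv0 (Z P : ℕ) (h : ℤ → ℝ) (hP1 : 1 ≤ P) (hP : Z ≤ P) :
    en Z P h (Finset.range P) = ∑ z ∈ Finset.range Z, h z ^ 2 := by
  have h1 := psv_pars P hP1 0 Z (by omega) (fun u => (h u : ℂ))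
  rw [psv_sum_Ico Z (fun u : ℤ => ‖(h u : ℂ)‖ ^ 2)] at h1
  rw [en]
  have e1 : ∀ n ∈ Finset.range P, ‖fh Z h ((n : ℝ) / P)‖ ^ 2 =
      ‖∑ u ∈ Finset.Ico (0 : ℤ) Z, (h u : ℂ) * ee (-((n : ℝ) / P * u))‖ ^ 2 := by
    intro n _
    rw [psv_fh]
  rw [Finset.sum_congr rfl e1, h1]
  refine Finset.sum_congr rfl fun z _ => ?_
  rw [Complex.norm_real, Real.norm_eq_abs, sq_abs]

theorem idq (Z P q : ℕ) (h : ℤ → ℝ) (hs : ∀ z : ℤ, (z < 0 ∨ (Z : ℤ) ≤ z) → h z = 0)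
    (hP1 : 1 ≤ P) (hP : Z + q ≤ P) :
    (∑ n ∈ Finset.range P, ((‖fh Z h ((n : ℝ) / P)‖ ^ 2 : ℝ) : ℂ) * ee (q * ((n : ℝ) / P))) / P =
      ((∑ z ∈ Finset.range Z, h z * h (z + q) : ℝ) : ℂ) := by
  have hP0 : (P : ℂ) ≠ 0 := by
    have : (P : ℝ) ≠ 0 := by
      have : (0 : ℝ) < P := by exact_mod_cast hP1
      exact this.ne'
    exact_mod_cast this
  have h1 := psv_gen P hP1 (Finset.Ico (0 : ℤ) Z) (fun u => (h u : ℂ)) q
  have e1 : ∀ n ∈ Finset.range P, ((‖fh Z h ((n : ℝ) / P)‖ ^ 2 : ℝ) : ℂ) * ee (q * ((n : ℝ) / P)) =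
      ((‖∑ u ∈ Finset.Ico (0 : ℤ) Z, (h u : ℂ) * ee (-((n : ℝ) / P * u))‖ ^ 2 : ℝ) : ℂ) *
        ee (((q : ℤ) : ℝ) * ((n : ℝ) / P)) := by
    intro n _
    rw [psv_fh, Int.cast_natCast]
  rw [Finset.sum_congr rfl e1, h1, mul_div_assoc, mul_comm, div_mul_cancel₀ _ hP0, Finset.sum_comm,
    psv_sum_Ico Z]
  push_cast
  refine Finset.sum_congr rfl fun z hz => ?_
  rw [Finset.mem_range] at hz
  by_cases hzq : z + q < Z
  · rw [Finset.sum_eq_single ((z : ℤ) + q)]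
    · rw [if_pos (by simp), Complex.conj_ofReal]
      ring
    · intro u hu hne
      rw [if_neg]
      intro hd
      rw [Finset.mem_Ico] at hu
      apply hne
      have h3 : |(z : ℤ) - u + q| < P := by
        rw [abs_lt]
        constructor <;> omega
      have := Int.eq_zero_of_abs_lt_dvd hd h3
      omega
    · intro hu
      exfalso
      apply hu
      rw [Finset.mem_Ico]
      omega
  · rw [hs ((z : ℤ) + q) (by omega)]
    rw [Finset.sum_eq_zero]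
    · simp
    · intro u hu
      rw [if_neg]
      intro hd
      rw [Finset.mem_Ico] at hu
      have h3 : |(z : ℤ) - u + q| < P := by
        rw [abs_lt]
        constructor <;> omega
      have := Int.eq_zero_of_abs_lt_dvd hd h3
      omega

/-- `fh` is periodic in the frequency -/
theorem fh_add_int (Z : ℕ) (h : ℤ → ℝ) (φ : ℝ) (k : ℤ) : fh Z h (φ + k) = fh Z h φ := by
  unfold fh
  refine Finset.sum_congr rfl fun z _ => ?_
  congr 1
  have h1 : -((φ + k) * z) = -(φ * z) + ((-(k * z) : ℤ) : ℝ) := by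
    push_cast
    ring
  rw [h1, ee_add_int]

end Pool.Agent.AAR
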