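import Pool.Agent.AAR.Xcn
import Pool.Agent.AAR.Cnt
import Pool.Agent.AAR.DivC
import Pool.Agent.AAR.Psv

/-!
# AAR-Hsb: the sum of the Hilbert-Schmidt norms

PLAN.  `y₀ = x - d₀`, `y₁ = x - d₁`; a term vanishes unless `y₀, y₁ ∈ [0,X)`.
With `l = n - m` mod `P` (`fh_add_int`):
`hs = (1/P) ∑_{l<P} |ĝ(l/P)|² · (1/P) #{n ∈ Nd d₀ : n - l mod P ∈ Nd d₁}`.  `cnt` (with `β₁ = β + d₁ l/P`, `θ_small2`) and `P_θ`:
`(1/P) # ≤ G1² (2θ/H + 1/P) ≤ 3 G1² θ/H`, and `# = 0` unless `x` satisfies the event of `xcn` for `ψ = l/P`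
(`φ = n/P`).  So the left side is `≤ (3 G1² θ/H) ∑_{y₀≠y₁∈[0,X), |y₁-y₀|<2H} (1/P) ∑_l |ĝ_{y₀,y₁}(l/P)|² · sup_l #{x}`,
`(1/P)∑_l |ĝ|² ≤ Z` (`psv0`), and `∑_{y₀} ∑_{y₁} sup # ≤ 2X ∑_{e=1}^{2H} (...) ≤ 2X [4ρ1 H² + 16H²Q1²/Q2 + (H/E0)(2H)]` by `xcn`, `divc`.
`θ Z = 4 l0 B1 H`.  Total `≤ 24 G1² l0 B1 [...] H² X`.
-/

set_option autoImplicit false

namespace Pool.Agent.AAR

private theorem hsb_fh (Z P : ℕ) (hP : 1 ≤ P) (g : ℤ → ℝ) (n m : ℕ) :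
    fh Z g (((n : ℝ) - m) / P) = fh Z g (((((n : ℤ) - m) % P).toNat : ℝ) / P) := by
  have h0 : (0 : ℤ) < P := by exact_mod_cast hP
  have hP0 : (P : ℝ) ≠ 0 := by
    have : (0 : ℝ) < P := by exact_mod_cast hP
    exact this.ne'
  have h1 : (((((n : ℤ) - m) % P).toNat : ℕ) : ℤ) = ((n : ℤ) - m) % P :=
    Int.toNat_of_nonneg (Int.emod_nonneg _ (by omega))
  have h2 : (((((n : ℤ) - m) % P).toNat : ℕ) : ℝ) = ((((n : ℤ) - m) % P : ℤ) : ℝ) := by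
    rw [← h1]
    rfl
  have h3 : ((n : ℝ) - m) = ((((n : ℤ) - m) % P : ℤ) : ℝ) + P * ((((n : ℤ) - m) / P : ℤ) : ℝ) := by
    have h4 := Int.emod_add_mul_ediv ((n : ℤ) - m) P
    have h5 : ((((n : ℤ) - m) % P + P * (((n : ℤ) - m) / P) : ℤ) : ℝ) = (((n : ℤ) - m : ℤ) : ℝ) := by
      rw [h4]
    push_cast at h5
    push_cast
    linarith
  rw [h2, ← fh_add_int Z g (((((n : ℤ) - m) % P : ℤ) : ℝ) / P) (((n : ℤ) - m) / P)]
  congr 1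
  rw [h3]
  field_simp

/-- the event -/
private def hsbE (p : Par) (β ψ : ℝ) (d₀ d₁ : ℕ) : Prop :=
  ∃ φ : ℝ, Far p.r p.Q2 φ ∧ nint (d₀ * φ - β) ≤ p.θ ∧ nint (d₁ * (φ - ψ) - β) ≤ p.θ

open Classical in
private theorem hsb_cnt (p : Par) (β : ℝ) (d₀ d₁ l : ℕ) (h₀ : d₀ ∈ ds p.H) (h₁ : d₁ ∈ ds p.H)
    (hg : Nat.gcd d₀ d₁ ≤ p.G1 ^ 2) :
    ((((Nd p β d₀) ×ˢ (Nd p β d₁)).filter
      (fun a : ℕ × ℕ => (((a.1 : ℤ) - a.2) % p.P).toNat = l)).card : ℝ) ≤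
      3 * (p.G1 : ℝ) ^ 2 * p.θ * p.P / p.H * (if hsbE p β ((l : ℝ) / p.P) d₀ d₁ then 1 else 0) := by
  have hP1 : 1 ≤ p.P := p.P_one
  have hP0 : (0 : ℝ) < p.P := by exact_mod_cast hP1
  have hPz : (0 : ℤ) < p.P := by exact_mod_cast hP1
  have hH := p.Hpos
  have hθ := p.θ_pos
  -- for a pair in the fibre
  have key : ∀ a ∈ ((Nd p β d₀) ×ˢ (Nd p β d₁)).filter
      (fun a : ℕ × ℕ => (((a.1 : ℤ) - a.2) % p.P).toNat = l),
      a.1 < p.P ∧ a.2 < p.P ∧ Far p.r p.Q2 ((a.1 : ℝ) / p.P) ∧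
      nint ((d₀ : ℝ) * ((a.1 : ℝ) / p.P) - β) ≤ p.θ ∧
      nint ((d₁ : ℝ) * ((a.2 : ℝ) / p.P) - β) ≤ p.θ ∧
      ∃ k : ℤ, (a.1 : ℤ) = a.2 + l + p.P * k := by
    intro a ha
    rw [Finset.mem_filter, Finset.mem_product] at ha
    obtain ⟨⟨ha1, ha2⟩, ha3⟩ := ha
    simp only [Nd, rest, Finset.mem_filter, Finset.mem_range] at ha1 ha2
    refine ⟨ha1.1.1, ha2.1.1, ha1.1.2, ha1.2, ha2.2, ((a.1 : ℤ) - a.2) / p.P, ?_⟩
    have h4 := Int.emod_add_mul_ediv ((a.1 : ℤ) - a.2) p.P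
    have h5 : (((((a.1 : ℤ) - a.2) % p.P).toNat : ℕ) : ℤ) = ((a.1 : ℤ) - a.2) % p.P :=
      Int.toNat_of_nonneg (Int.emod_nonneg _ (by omega))
    rw [ha3] at h5
    rw [← h5] at h4
    linarith
  have key2 : ∀ (u v : ℕ) (k : ℤ), (u : ℤ) = v + l + p.P * k →
      nint ((d₁ : ℝ) * ((u : ℝ) / p.P) - (β + d₁ * ((l : ℝ) / p.P))) =
        nint ((d₁ : ℝ) * ((v : ℝ) / p.P) - β) := by
    intro u v k h
    have h1 : (u : ℝ) = v + l + p.P * k := by exact_mod_cast h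
    have h2 : (d₁ : ℝ) * ((u : ℝ) / p.P) - (β + d₁ * ((l : ℝ) / p.P)) =
        ((d₁ : ℝ) * ((v : ℝ) / p.P) - β) + (((d₁ : ℤ) * k : ℤ) : ℝ) := by
      rw [h1]
      push_cast
      field_simp
      ring
    rw [h2, nint_add_int]
  by_cases hE : hsbE p β ((l : ℝ) / p.P) d₀ d₁
  · rw [if_pos hE, mul_one]
    have h1 := cnt p.H p.P d₀ d₁ p.θ β (β + d₁ * ((l : ℝ) / p.P)) p.hH hP1 h₀ h₁ hθ.le p.θ_small2
    have h2 : (((Nd p β d₀) ×ˢ (Nd p β d₁)).filter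
        (fun a : ℕ × ℕ => (((a.1 : ℤ) - a.2) % p.P).toNat = l)).card ≤
        ((Finset.range p.P).filter (fun n : ℕ => nint ((d₀ : ℝ) * ((n : ℝ) / p.P) - β) ≤ p.θ ∧
          nint ((d₁ : ℝ) * ((n : ℝ) / p.P) - (β + d₁ * ((l : ℝ) / p.P))) ≤ p.θ)).card := by
      apply Finset.card_le_card_of_injOn (fun a : ℕ × ℕ => a.1)
      · intro a ha
        obtain ⟨a1, a2, a3, a4, a5, k, a6⟩ := key a ha
        simp only [Finset.coe_filter, Finset.mem_range, Set.mem_ofPred_eq]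
        refine ⟨a1, a4, ?_⟩
        rw [key2 _ _ k a6]
        exact a5
      · intro a ha b hb hab
        obtain ⟨a1, a2, a3, a4, a5, k, a6⟩ := key a ha
        obtain ⟨b1, b2, b3, b4, b5, j, b6⟩ := key b hb
        simp only at hab
        refine Prod.ext hab ?_
        rw [hab] at a6
        have h3 : (a.2 : ℤ) - b.2 = p.P * (j - k) := by linarith
        have h4 : (p.P : ℤ) ∣ (a.2 : ℤ) - b.2 := ⟨_, h3⟩
        have h5 : |(a.2 : ℤ) - b.2| < p.P := by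
          rw [abs_lt]
          constructor <;> omega
        have h6 := Int.eq_zero_of_abs_lt_dvd h4 h5
        omega
    have h3 : (Nat.gcd d₀ d₁ : ℝ) ≤ (p.G1 : ℝ) ^ 2 := by exact_mod_cast hg
    have h4 : (1 : ℝ) ≤ p.θ * p.P / p.H := by
      have := p.P_θ
      rw [div_le_iff₀ hθ] at this
      rw [le_div_iff₀ hH]
      linarith
    have h5 : 2 * p.θ * p.P / p.H + 1 ≤ 3 * (p.θ * p.P / p.H) := by
      have : 2 * p.θ * p.P / p.H = 2 * (p.θ * p.P / p.H) := by ring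
      rw [this]
      linarith
    have h6 : (0 : ℝ) ≤ 2 * p.θ * p.P / p.H + 1 := by positivity
    calc ((((Nd p β d₀) ×ˢ (Nd p β d₁)).filter
        (fun a : ℕ × ℕ => (((a.1 : ℤ) - a.2) % p.P).toNat = l)).card : ℝ)
        ≤ (Nat.gcd d₀ d₁ : ℝ) * (2 * p.θ * p.P / p.H + 1) :=
          (by exact_mod_cast h2 : _ ≤ _).trans h1
      _ ≤ (p.G1 : ℝ) ^ 2 * (3 * (p.θ * p.P / p.H)) := by
          apply mul_le_mul h3 h5 h6 (by positivity)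
      _ = 3 * (p.G1 : ℝ) ^ 2 * p.θ * p.P / p.H := by ring
  · rw [if_neg hE, mul_zero]
    have : ((Nd p β d₀) ×ˢ (Nd p β d₁)).filter
        (fun a : ℕ × ℕ => (((a.1 : ℤ) - a.2) % p.P).toNat = l) = ∅ := by
      rw [Finset.eq_empty_iff_forall_notMem]
      intro a ha
      obtain ⟨a1, a2, a3, a4, a5, k, a6⟩ := key a ha
      apply hE
      refine ⟨(a.1 : ℝ) / p.P, a3, a4, ?_⟩
      have h1 := key2 _ _ k a6
      have h2 : (d₁ : ℝ) * ((a.1 : ℝ) / p.P - (l : ℝ) / p.P) - β =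
          (d₁ : ℝ) * ((a.1 : ℝ) / p.P) - (β + d₁ * ((l : ℝ) / p.P)) := by ring
      rw [h2, h1]
      exact a5
    rw [this]
    simp

open Classical in
private theorem hsb_one (p : Par) (g : ℤ → ℝ) (β : ℝ) (d₀ d₁ : ℕ) (h₀ : d₀ ∈ ds p.H)
    (h₁ : d₁ ∈ ds p.H) (hg : Nat.gcd d₀ d₁ ≤ p.G1 ^ 2) :
    hs p.Z p.P g (Nd p β d₀) (Nd p β d₁) ≤ 3 * (p.G1 : ℝ) ^ 2 * p.θ / p.H *
      ((∑ l ∈ Finset.range p.P, ‖fh p.Z g ((l : ℝ) / p.P)‖ ^ 2 *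
        (if hsbE p β ((l : ℝ) / p.P) d₀ d₁ then 1 else 0)) / p.P) := by
  have hP1 : 1 ≤ p.P := p.P_one
  have hP0 : (0 : ℝ) < p.P := by exact_mod_cast hP1
  have hPz : (0 : ℤ) < p.P := by exact_mod_cast hP1
  have hH := p.Hpos
  have h1 : ∑ n ∈ Nd p β d₀, ∑ m ∈ Nd p β d₁, ‖fh p.Z g (((n : ℝ) - m) / p.P)‖ ^ 2 =
      ∑ l ∈ Finset.range p.P, ‖fh p.Z g ((l : ℝ) / p.P)‖ ^ 2 *
        ((((Nd p β d₀) ×ˢ (Nd p β d₁)).filter
          (fun a : ℕ × ℕ => (((a.1 : ℤ) - a.2) % p.P).toNat = l)).card : ℝ) := by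
    rw [← Finset.sum_product' (Nd p β d₀) (Nd p β d₁)
      (fun n m => ‖fh p.Z g (((n : ℝ) - m) / p.P)‖ ^ 2)]
    rw [← Finset.sum_fiberwise_of_maps_to (s := (Nd p β d₀) ×ˢ (Nd p β d₁)) (t := Finset.range p.P)
      (g := fun a : ℕ × ℕ => (((a.1 : ℤ) - a.2) % p.P).toNat)]
    · refine Finset.sum_congr rfl fun l _ => ?_
      rw [mul_comm, ← nsmul_eq_mul, ← Finset.sum_const]
      refine Finset.sum_congr rfl fun a ha => ?_
      rw [Finset.mem_filter] at ha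
      rw [hsb_fh p.Z p.P hP1 g a.1 a.2, ha.2]
    · intro a _
      rw [Finset.mem_range]
      have h2 := Int.emod_lt_of_pos ((a.1 : ℤ) - a.2) hPz
      have h3 := Int.emod_nonneg ((a.1 : ℤ) - a.2) hPz.ne'
      omega
  rw [hs, h1, div_le_iff₀ (by positivity)]
  have h2 : 3 * (p.G1 : ℝ) ^ 2 * p.θ / p.H *
      ((∑ l ∈ Finset.range p.P, ‖fh p.Z g ((l : ℝ) / p.P)‖ ^ 2 *
        (if hsbE p β ((l : ℝ) / p.P) d₀ d₁ then 1 else 0)) / p.P) * (p.P : ℝ) ^ 2 =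
      ∑ l ∈ Finset.range p.P, ‖fh p.Z g ((l : ℝ) / p.P)‖ ^ 2 *
        (3 * (p.G1 : ℝ) ^ 2 * p.θ * p.P / p.H * (if hsbE p β ((l : ℝ) / p.P) d₀ d₁ then 1 else 0)) := by
    have h3 : ∀ l : ℕ, ‖fh p.Z g ((l : ℝ) / p.P)‖ ^ 2 *
        (3 * (p.G1 : ℝ) ^ 2 * p.θ * p.P / p.H * (if hsbE p β ((l : ℝ) / p.P) d₀ d₁ then 1 else 0)) =
        (3 * (p.G1 : ℝ) ^ 2 * p.θ * p.P / p.H) * (‖fh p.Z g ((l : ℝ) / p.P)‖ ^ 2 *
          (if hsbE p β ((l : ℝ) / p.P) d₀ d₁ then 1 else 0)) := by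
      intro l
      ring
    simp only [h3]
    rw [← Finset.mul_sum]
    field_simp
  rw [h2]
  refine Finset.sum_le_sum fun l _ => ?_
  exact mul_le_mul_of_nonneg_left (hsb_cnt p β d₀ d₁ l h₀ h₁ hg) (by positivity)

/-- terms outside of the cell vanish -/
private theorem hsb_zero (Z P : ℕ) (g : ℤ → ℝ) (hg : ∀ z, g z = 0) (S T : Finset ℕ) :
    hs Z P g S T = 0 := by
  have h1 : ∀ φ : ℝ, fh Z g φ = 0 := by
    intro φ
    rw [fh]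
    refine Finset.sum_eq_zero fun z _ => ?_
    rw [hg]
    simp
  rw [hs]
  simp [h1]

private theorem hsb_psv (p : Par) (g : ℤ → ℝ) (hg : ∀ z, g z = 0 ∨ g z = 1) :
    (∑ l ∈ Finset.range p.P, ‖fh p.Z g ((l : ℝ) / p.P)‖ ^ 2) / p.P ≤ p.Z := by
  have h1 : p.Z ≤ p.P := by
    have := p.Z_le_P
    omega
  have h2 := psv0 p.Z p.P g p.P_one h1
  rw [en] at h2
  rw [h2]
  calc ∑ z ∈ Finset.range p.Z, g z ^ 2 ≤ ∑ z ∈ Finset.range p.Z, (1 : ℝ) := by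
        refine Finset.sum_le_sum fun z _ => ?_
        rcases hg z with h | h <;> rw [h] <;> norm_num
    _ = p.Z := by simp

/-- the weight of a distance -/
private noncomputable def hsbW (p : Par) (s e : ℕ) : ℝ :=
  open Classical in
  (if (e : ℝ) < (p.H : ℝ) / p.E0 then 2 * (p.H : ℝ) else 0) + (2 * p.ρ1 * p.H + Nev p.Q1 p.Q2 s e p.H)

private theorem hsbW_nonneg (p : Par) (s e : ℕ) : 0 ≤ hsbW p s e := by
  have h1 := p.hρ1
  have h2 := p.Hpos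
  rw [hsbW]
  split_ifs <;> positivity

private theorem hsbW_sum (p : Par) (s : ℕ) (hs : 1 ≤ s) :
    ∑ e ∈ Finset.Icc 1 (2 * p.H), hsbW p s e ≤
      (4 * p.ρ1 + 16 * (p.Q1 : ℝ) ^ 2 / p.Q2 + 2 / p.E0) * (p.H : ℝ) ^ 2 := by
  classical
  have hH := p.Hpos
  have hρ := p.hρ1
  have hE0 : (0 : ℝ) < p.E0 := by exact_mod_cast p.hE0
  have hQ1 : 1 ≤ p.Q1 := by
    have h1 := p.hQ1
    have h2 : 0 < 8192 / p.ρ1 ^ 6 := by positivity
    have h3 : (0 : ℝ) < p.Q1 := lt_of_lt_of_le h2 h1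
    exact_mod_cast h3
  have hQ2 : 1 ≤ p.Q2 := by
    have := p.hQ2
    omega
  simp only [hsbW]
  rw [Finset.sum_add_distrib, Finset.sum_add_distrib, Finset.sum_const, Nat.card_Icc, nsmul_eq_mul,
    ← Finset.sum_filter, Finset.sum_const, nsmul_eq_mul]
  have h1 := divc p.H p.Q1 p.Q2 s p.hH hQ1 hQ2 hs
  have h2 : (((Finset.Icc 1 (2 * p.H)).filter (fun e : ℕ => (e : ℝ) < (p.H : ℝ) / p.E0)).card : ℝ) ≤
      (p.H : ℝ) / p.E0 := by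
    have h3 : ((Finset.Icc 1 (2 * p.H)).filter (fun e : ℕ => (e : ℝ) < (p.H : ℝ) / p.E0)).card ≤
        ⌊(p.H : ℝ) / p.E0⌋₊ := by
      calc ((Finset.Icc 1 (2 * p.H)).filter (fun e : ℕ => (e : ℝ) < (p.H : ℝ) / p.E0)).card
          ≤ (Finset.Icc 1 ⌊(p.H : ℝ) / p.E0⌋₊).card := by
            apply Finset.card_le_card
            intro e he
            rw [Finset.mem_filter, Finset.mem_Icc] at he
            rw [Finset.mem_Icc]
            exact ⟨he.1.1, Nat.le_floor he.2.le⟩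
        _ = ⌊(p.H : ℝ) / p.E0⌋₊ := by simp
    exact (Nat.cast_le.2 h3).trans (Nat.floor_le (by positivity))
  have h4 : (((Finset.Icc 1 (2 * p.H)).filter (fun e : ℕ => (e : ℝ) < (p.H : ℝ) / p.E0)).card : ℝ) *
      (2 * p.H) ≤ (p.H : ℝ) / p.E0 * (2 * p.H) := by
    gcongr
  have h5 : ((2 * p.H + 1 - 1 : ℕ) : ℝ) * (2 * p.ρ1 * p.H) = 4 * p.ρ1 * (p.H : ℝ) ^ 2 := by
    rw [Nat.add_sub_cancel]
    push_cast
    ring
  rw [h5]
  have h6 : (4 * p.ρ1 + 16 * (p.Q1 : ℝ) ^ 2 / p.Q2 + 2 / p.E0) * (p.H : ℝ) ^ 2 =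
      4 * p.ρ1 * (p.H : ℝ) ^ 2 + 16 * (p.H : ℝ) ^ 2 * (p.Q1 : ℝ) ^ 2 / p.Q2 +
        (p.H : ℝ) / p.E0 * (2 * p.H) := by ring
  rw [h6]
  linarith

open Classical in
/-- the sum of the weights over all pairs -/
private theorem hsbW_pairs (p : Par) (s : ℕ) :
    ∑ b ∈ (Finset.range p.X ×ˢ Finset.range p.X).filter
      (fun b : ℕ × ℕ => b.1 ≠ b.2 ∧ ((b.2 : ℤ) - b.1).natAbs ≤ 2 * p.H),
        hsbW p s ((b.2 : ℤ) - b.1).natAbs ≤
      2 * p.X * ∑ e ∈ Finset.Icc 1 (2 * p.H), hsbW p s e := by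
  rw [← Finset.sum_fiberwise_of_maps_to (t := Finset.Icc 1 (2 * p.H))
    (g := fun b : ℕ × ℕ => ((b.2 : ℤ) - b.1).natAbs)]
  · rw [Finset.mul_sum]
    refine Finset.sum_le_sum fun e _ => ?_
    have h1 : ∀ b ∈ ((Finset.range p.X ×ˢ Finset.range p.X).filter
        (fun b : ℕ × ℕ => b.1 ≠ b.2 ∧ ((b.2 : ℤ) - b.1).natAbs ≤ 2 * p.H)).filter
          (fun b : ℕ × ℕ => ((b.2 : ℤ) - b.1).natAbs = e),
        hsbW p s ((b.2 : ℤ) - b.1).natAbs = hsbW p s e := by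
      intro b hb
      rw [Finset.mem_filter] at hb
      rw [hb.2]
    rw [Finset.sum_congr rfl h1, Finset.sum_const, nsmul_eq_mul]
    refine mul_le_mul_of_nonneg_right ?_ (hsbW_nonneg p s e)
    have h2 : (((Finset.range p.X ×ˢ Finset.range p.X).filter
        (fun b : ℕ × ℕ => b.1 ≠ b.2 ∧ ((b.2 : ℤ) - b.1).natAbs ≤ 2 * p.H)).filter
          (fun b : ℕ × ℕ => ((b.2 : ℤ) - b.1).natAbs = e)).card ≤ 2 * p.X := by
      calc (((Finset.range p.X ×ˢ Finset.range p.X).filter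
        (fun b : ℕ × ℕ => b.1 ≠ b.2 ∧ ((b.2 : ℤ) - b.1).natAbs ≤ 2 * p.H)).filter
          (fun b : ℕ × ℕ => ((b.2 : ℤ) - b.1).natAbs = e)).card
          ≤ ((Finset.range p.X).image (fun y => (y, y + e)) ∪
              (Finset.range p.X).image (fun y => (y, y - e))).card := by
            apply Finset.card_le_card
            rintro ⟨b1, b2⟩ hb
            simp only [Finset.mem_filter, Finset.mem_product, Finset.mem_range] at hb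
            obtain ⟨⟨⟨hb1, hb2⟩, hb3, hb4⟩, hb5⟩ := hb
            simp only [Finset.mem_union, Finset.mem_image, Finset.mem_range, Prod.mk.injEq]
            rcases Nat.lt_or_gt_of_ne hb3 with h | h
            · left
              exact ⟨b1, hb1, rfl, by omega⟩
            · right
              exact ⟨b1, hb1, rfl, by omega⟩
        _ ≤ ((Finset.range p.X).image (fun y => (y, y + e))).card +
              ((Finset.range p.X).image (fun y => (y, y - e))).card := Finset.card_union_le _ _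
        _ ≤ p.X + p.X := by
            refine Nat.add_le_add ?_ ?_
            · exact Finset.card_image_le.trans (by simp)
            · exact Finset.card_image_le.trans (by simp)
        _ = 2 * p.X := by ring
    exact (Nat.cast_le.2 h2).trans (le_of_eq (by push_cast; ring))
  · intro b hb
    rw [Finset.mem_filter] at hb
    rw [Finset.mem_Icc]
    refine ⟨?_, hb.2.2⟩
    have := hb.2.1
    omega

open Classical in
/-- the triples `(x, d₀, d₁)` -/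
private noncomputable def hsbA (p : Par) : Finset (ℕ × ℕ × ℕ) :=
  (Finset.range p.X ×ˢ ds p.H ×ˢ ds p.H).filter
    (fun a => a.2.1 ≤ a.1 ∧ a.2.2 ≤ a.1 ∧ a.2.1 ≠ a.2.2)

private theorem hsbA_mem (p : Par) (a : ℕ × ℕ × ℕ) : a ∈ hsbA p ↔
    (a.1 < p.X ∧ a.2.1 ∈ ds p.H ∧ a.2.2 ∈ ds p.H) ∧ a.2.1 ≤ a.1 ∧ a.2.2 ≤ a.1 ∧ a.2.1 ≠ a.2.2 := by
  simp only [hsbA, Finset.mem_filter, Finset.mem_product, Finset.mem_range]

open Classical in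
private theorem hsb_fib (p : Par) (β : ℝ) (s : ℕ)
    (hxc : ∀ (y₀ y₁ : ℤ) (ψ : ℝ) (S : Finset ℤ), y₀ ≠ y₁ →
    (∀ x ∈ S, ∃ d₀ ∈ ds p.H, ∃ d₁ ∈ ds p.H, x = y₀ + d₀ ∧ x = y₁ + d₁ ∧ ∃ φ : ℝ,
      Far p.r p.Q2 φ ∧ nint (d₀ * φ - β) ≤ p.θ ∧ nint (d₁ * (φ - ψ) - β) ≤ p.θ) →
    (S.card : ℝ) ≤ 2 * p.H ∧
    ((p.H : ℝ) / p.E0 ≤ |((y₁ - y₀ : ℤ) : ℝ)| →
      (S.card : ℝ) ≤ 2 * p.ρ1 * p.H + Nev p.Q1 p.Q2 s (y₁ - y₀).natAbs p.H))
    (g : ℤ → ℝ) (hg : ∀ z, g z = 0 ∨ g z = 1) (b : ℕ × ℕ) (hb : b.1 ≠ b.2) :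
    ∑ a ∈ (hsbA p).filter (fun a => (a.1 - a.2.1, a.1 - a.2.2) = b),
      ((∑ l ∈ Finset.range p.P, ‖fh p.Z g ((l : ℝ) / p.P)‖ ^ 2 *
        (if hsbE p β ((l : ℝ) / p.P) a.2.1 a.2.2 then (1 : ℝ) else 0)) / (p.P : ℝ)) ≤
      (p.Z : ℝ) * hsbW p s ((b.2 : ℤ) - b.1).natAbs := by
  have hP0 : (0 : ℝ) < p.P := by exact_mod_cast p.P_one
  have hρ := p.hρ1
  have hH := p.Hpos
  rw [← Finset.sum_div, Finset.sum_comm]
  have h1 : ∀ l ∈ Finset.range p.P,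
      ∑ a ∈ (hsbA p).filter (fun a => (a.1 - a.2.1, a.1 - a.2.2) = b),
        ‖fh p.Z g ((l : ℝ) / p.P)‖ ^ 2 *
          (if hsbE p β ((l : ℝ) / p.P) a.2.1 a.2.2 then (1 : ℝ) else 0) ≤
        ‖fh p.Z g ((l : ℝ) / p.P)‖ ^ 2 * hsbW p s ((b.2 : ℤ) - b.1).natAbs := by
    intro l _
    rw [← Finset.mul_sum]
    refine mul_le_mul_of_nonneg_left ?_ (by positivity)
    rw [← Finset.sum_filter, Finset.sum_const, nsmul_eq_mul, mul_one]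
    have h2 := hxc (b.1 : ℤ) (b.2 : ℤ) ((l : ℝ) / p.P)
      ((((hsbA p).filter (fun a => (a.1 - a.2.1, a.1 - a.2.2) = b)).filter
        (fun a => hsbE p β ((l : ℝ) / p.P) a.2.1 a.2.2)).image (fun a => (a.1 : ℤ)))
      (by exact_mod_cast hb) (by
        intro x hx
        simp only [Finset.mem_image, Finset.mem_filter, hsbA_mem] at hx
        obtain ⟨a, ⟨⟨⟨⟨_, a2, a3⟩, a4, a5, a6⟩, a7⟩, a8⟩, rfl⟩ := hx
        rw [← a7]
        refine ⟨a.2.1, a2, a.2.2, a3, ?_, ?_, a8⟩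
        · simp only
          omega
        · simp only
          omega)
    rw [Finset.card_image_of_injOn] at h2
    · rw [hsbW]
      split_ifs with h3
      · have h4 : (0 : ℝ) ≤ 2 * p.ρ1 * p.H + Nev p.Q1 p.Q2 s ((b.2 : ℤ) - b.1).natAbs p.H := by
          positivity
        linarith [h2.1]
      · have h5 := h2.2 (by
          rw [not_lt] at h3
          rw [Nat.cast_natAbs, Int.cast_abs] at h3
          exact h3)
        linarith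
    · intro a ha a' ha' haa
      simp only [Finset.coe_filter, hsbA_mem, Set.mem_ofPred_eq, Finset.mem_filter] at ha ha'
      obtain ⟨⟨⟨⟨_, a2, a3⟩, a4, a5, a6⟩, a7⟩, a8⟩ := ha
      obtain ⟨⟨⟨⟨_, b2, b3⟩, b4, b5, b6⟩, b7⟩, b8⟩ := ha'
      rw [← b7, Prod.mk.injEq] at a7
      have haa' : (a.1 : ℤ) = (a'.1 : ℤ) := haa
      have h6 : a.1 = a'.1 := by exact_mod_cast haa'
      refine Prod.ext h6 (Prod.ext ?_ ?_)
      · omega
      · omega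
  calc (∑ l ∈ Finset.range p.P, ∑ a ∈ (hsbA p).filter (fun a => (a.1 - a.2.1, a.1 - a.2.2) = b),
        ‖fh p.Z g ((l : ℝ) / p.P)‖ ^ 2 *
          (if hsbE p β ((l : ℝ) / p.P) a.2.1 a.2.2 then (1 : ℝ) else 0)) / p.P
      ≤ (∑ l ∈ Finset.range p.P, ‖fh p.Z g ((l : ℝ) / p.P)‖ ^ 2 *
          hsbW p s ((b.2 : ℤ) - b.1).natAbs) / p.P := by
        exact div_le_div_of_nonneg_right (Finset.sum_le_sum h1) hP0.le
    _ = ((∑ l ∈ Finset.range p.P, ‖fh p.Z g ((l : ℝ) / p.P)‖ ^ 2) / p.P) *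
          hsbW p s ((b.2 : ℤ) - b.1).natAbs := by
        rw [← Finset.sum_mul]
        ring
    _ ≤ p.Z * hsbW p s ((b.2 : ℤ) - b.1).natAbs :=
        mul_le_mul_of_nonneg_right (hsb_psv p g hg) (hsbW_nonneg p s _)

theorem hsb (p : Par) (f : ℤ → ℤ → ℝ) (c : Cell p f) (β : ℝ) :
    ∑ x ∈ Finset.range p.X, ∑ d₀ ∈ ds p.H,
      ∑ d₁ ∈ (ds p.H).filter (fun d₁ => d₀ ≠ d₁ ∧ Nat.gcd d₀ d₁ ≤ p.G1 ^ 2),
        hs p.Z p.P (fun z => f (x - d₀) z * f (x - d₁) z) (Nd p β d₀) (Nd p β d₁) ≤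
      24 * (p.G1 : ℝ) ^ 2 * p.l0 * p.B1 * (4 * p.ρ1 + 16 * (p.Q1 : ℝ) ^ 2 / p.Q2 + 2 / p.E0) *
        (p.H : ℝ) ^ 2 * p.X := by
  classical
  have hP0 : (0 : ℝ) < p.P := by exact_mod_cast p.P_one
  have hρ := p.hρ1
  have hH := p.Hpos
  have hK := p.Kpos
  have hθ := p.θ_pos
  obtain ⟨s, hs1, hxc⟩ := xcn p β
  have hC0 : (0 : ℝ) ≤ 3 * (p.G1 : ℝ) ^ 2 * p.θ / p.H := by positivity
  -- the function on triples
  let T : ℕ × ℕ → ℕ × ℕ × ℕ → ℝ := fun b a =>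
    (∑ l ∈ Finset.range p.P, ‖fh p.Z (fun z => f (b.1 : ℤ) z * f (b.2 : ℤ) z) ((l : ℝ) / p.P)‖ ^ 2 *
      (if hsbE p β ((l : ℝ) / p.P) a.2.1 a.2.2 then (1 : ℝ) else 0)) / p.P
  have hT : ∀ b a, 0 ≤ T b a := by
    intro b a
    refine div_nonneg (Finset.sum_nonneg fun l _ => ?_) hP0.le
    split_ifs <;> positivity
  have h1 : ∑ x ∈ Finset.range p.X, ∑ d₀ ∈ ds p.H,
      ∑ d₁ ∈ (ds p.H).filter (fun d₁ => d₀ ≠ d₁ ∧ Nat.gcd d₀ d₁ ≤ p.G1 ^ 2),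
        hs p.Z p.P (fun z => f (x - d₀) z * f (x - d₁) z) (Nd p β d₀) (Nd p β d₁) ≤
      ∑ x ∈ Finset.range p.X, ∑ d₀ ∈ ds p.H, ∑ d₁ ∈ ds p.H,
        (if d₀ ≤ x ∧ d₁ ≤ x ∧ d₀ ≠ d₁ then
          3 * (p.G1 : ℝ) ^ 2 * p.θ / p.H * T (x - d₀, x - d₁) (x, d₀, d₁) else 0) := by
    refine Finset.sum_le_sum fun x _ => Finset.sum_le_sum fun d₀ h₀ => ?_
    rw [Finset.sum_filter]
    refine Finset.sum_le_sum fun d₁ h₁ => ?_
    by_cases hx : d₀ ≤ x ∧ d₁ ≤ x ∧ d₀ ≠ d₁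
    · rw [if_pos hx]
      split_ifs with h2
      · have h3 := hsb_one p (fun z => f (((x - d₀ : ℕ) : ℕ) : ℤ) z * f (((x - d₁ : ℕ) : ℕ) : ℤ) z) β
          d₀ d₁ h₀ h₁ h2.2
        rw [Nat.cast_sub hx.1, Nat.cast_sub hx.2.1] at h3
        refine h3.trans (le_of_eq ?_)
        simp only [T]
        rw [Nat.cast_sub hx.1, Nat.cast_sub hx.2.1]
      · exact mul_nonneg hC0 (hT _ _)
    · rw [if_neg hx]
      split_ifs with h2
      · refine le_of_eq (hsb_zero _ _ _ ?_ _ _)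
        intro z
        by_cases h3 : d₀ ≤ x
        · have h4 : ¬ d₁ ≤ x := fun h => hx ⟨h3, h, h2.1⟩
          have h5 : f ((x : ℤ) - d₁) z = 0 := c.supp _ _ (Or.inl (by omega))
          simp [h5]
        · have h5 : f ((x : ℤ) - d₀) z = 0 := c.supp _ _ (Or.inl (by omega))
          simp [h5]
      · exact le_rfl
  refine h1.trans ?_
  have h2 : ∑ x ∈ Finset.range p.X, ∑ d₀ ∈ ds p.H, ∑ d₁ ∈ ds p.H,
        (if d₀ ≤ x ∧ d₁ ≤ x ∧ d₀ ≠ d₁ then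
          3 * (p.G1 : ℝ) ^ 2 * p.θ / p.H * T (x - d₀, x - d₁) (x, d₀, d₁) else 0) =
      3 * (p.G1 : ℝ) ^ 2 * p.θ / p.H * ∑ a ∈ hsbA p, T (a.1 - a.2.1, a.1 - a.2.2) a := by
    rw [hsbA, Finset.sum_filter, Finset.sum_product, Finset.mul_sum]
    refine Finset.sum_congr rfl fun x _ => ?_
    rw [Finset.sum_product, Finset.mul_sum]
    refine Finset.sum_congr rfl fun d₀ _ => ?_
    rw [Finset.mul_sum]
    refine Finset.sum_congr rfl fun d₁ _ => ?_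
    split_ifs
    · rfl
    · simp
  rw [h2]
  have h3 : ∑ a ∈ hsbA p, T (a.1 - a.2.1, a.1 - a.2.2) a ≤
      ∑ b ∈ (Finset.range p.X ×ˢ Finset.range p.X).filter
        (fun b : ℕ × ℕ => b.1 ≠ b.2 ∧ ((b.2 : ℤ) - b.1).natAbs ≤ 2 * p.H),
          p.Z * hsbW p s ((b.2 : ℤ) - b.1).natAbs := by
    rw [← Finset.sum_fiberwise_of_maps_to (t := (Finset.range p.X ×ˢ Finset.range p.X).filter
        (fun b : ℕ × ℕ => b.1 ≠ b.2 ∧ ((b.2 : ℤ) - b.1).natAbs ≤ 2 * p.H))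
        (g := fun a : ℕ × ℕ × ℕ => (a.1 - a.2.1, a.1 - a.2.2))]
    · refine Finset.sum_le_sum fun b hb => ?_
      rw [Finset.mem_filter] at hb
      refine le_trans (le_of_eq ?_) (hsb_fib p β s hxc (fun z => f (b.1 : ℤ) z * f (b.2 : ℤ) z) ?_ b
        hb.2.1)
      · refine Finset.sum_congr rfl fun a ha => ?_
        rw [Finset.mem_filter] at ha
        rw [ha.2]
      · intro z
        rcases c.f01 (b.1 : ℤ) z with h | h <;> rcases c.f01 (b.2 : ℤ) z with h' | h' <;>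
          simp [h, h']
    · intro a ha
      rw [hsbA_mem] at ha
      obtain ⟨⟨a1, a2, a3⟩, a4, a5, a6⟩ := ha
      rw [ds, Finset.mem_Ioo] at a2 a3
      simp only [Finset.mem_filter, Finset.mem_product, Finset.mem_range]
      refine ⟨⟨by omega, by omega⟩, by omega, by omega⟩
  rw [← Finset.mul_sum] at h3
  have h4 := hsbW_pairs p s
  have h5 := hsbW_sum p s hs1
  have hZ : (0 : ℝ) ≤ p.Z := by positivity
  have hX : (0 : ℝ) ≤ p.X := by positivity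
  calc 3 * (p.G1 : ℝ) ^ 2 * p.θ / p.H * ∑ a ∈ hsbA p, T (a.1 - a.2.1, a.1 - a.2.2) a
      ≤ 3 * (p.G1 : ℝ) ^ 2 * p.θ / p.H * (p.Z * (2 * p.X *
          ((4 * p.ρ1 + 16 * (p.Q1 : ℝ) ^ 2 / p.Q2 + 2 / p.E0) * (p.H : ℝ) ^ 2))) := by
        refine mul_le_mul_of_nonneg_left (h3.trans ?_) hC0
        refine mul_le_mul_of_nonneg_left (h4.trans ?_) hZ
        exact mul_le_mul_of_nonneg_left h5 (by positivity)
    _ = 24 * (p.G1 : ℝ) ^ 2 * p.l0 * p.B1 * (4 * p.ρ1 + 16 * (p.Q1 : ℝ) ^ 2 / p.Q2 + 2 / p.E0) *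
        (p.H : ℝ) ^ 2 * p.X := by
        rw [p.Z_real, Par.θ]
        field_simp
        ring

end Pool.Agent.AAR
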