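import Pool.Agent.AAR.Fte
import Pool.Agent.AAR.Den

/-!
# AAR-Inf: infinite sets

PLAN.  `inf1`: `finite_thm κ ε` gives `N₁`; `den` with `max N₀ N₁` gives `N`; apply `finite_thm` to the finite set
`A' = (A ∩ Icc 1 N ×ˢ Icc 1 N).toFinset` (`Set.Finite.toFinset`, `Set.ncard_eq_toFinset_card`); `Ratio A' a b d ⇒ Ratio A a b d` (monotone), so the
filter only grows.  `inf2`: `inf1` with `κ = 1/8`, `N₀` so large that `N^(1/8) ≥ max a K₀ d₀ ...`: take `K = ⌈N^(1/8)⌉₊ ≤ N^(1/4)`; for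
`d₀` use `N^(κ/16) ≥ d₀` for large `N` (`Ratio` is monotone in `d₀`); for all `a ≤ K ≤ N^(1/4)`.
-/

set_option autoImplicit false

namespace Pool.Agent.AAR

open Classical in
theorem inf1 (A : Set (ℕ × ℕ)) (hA : ∀ p ∈ A, 0 < p.1 ∧ 0 < p.2)
    (hs : ¬ Summable (fun p : A => 1 / ((p.1.1 : ℝ) ^ 2 + (p.1.2 : ℝ) ^ 2)))
    (κ ε : ℝ) (hκ : 0 < κ) (hκ1 : κ ≤ 1 / 2) (hε : 0 < ε) (N₀ : ℕ) :
    ∃ N : ℕ, N₀ ≤ N ∧ ∀ a K : ℕ, 1 ≤ a → (a : ℝ) ≤ (N : ℝ) ^ ((1 : ℝ) / 4) →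
      (N : ℝ) ^ κ ≤ K → (K : ℝ) ≤ (N : ℝ) ^ ((1 : ℝ) / 2) →
        (1 - ε) * K ≤
          (((Finset.Icc 1 K).filter (fun b => Ratio A a b ((N : ℝ) ^ (κ / 16)))).card : ℝ) := by
  obtain ⟨N₁, hN₁⟩ := finite_thm κ ε hκ hκ1 hε
  obtain ⟨N, hN, hd⟩ := den A hA hs (max N₀ N₁)
  have hfin : (A ∩ Set.Icc 1 N ×ˢ Set.Icc 1 N).Finite :=
    ((Set.finite_Icc 1 N).prod (Set.finite_Icc 1 N)).inter_of_right _
  have hmem : ∀ q : ℕ × ℕ, q ∈ hfin.toFinset → q ∈ A := fun q hq =>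
    ((Set.Finite.mem_toFinset hfin).1 hq).1
  refine ⟨N, le_trans (le_max_left _ _) hN, fun a K ha haN hK1 hK2 => ?_⟩
  refine (hN₁ N (le_trans (le_max_right _ _) hN) hfin.toFinset ?_ ?_ a K ha haN hK1 hK2).trans ?_
  · intro q hq
    have h := ((Set.Finite.mem_toFinset hfin).1 hq).2
    rw [Set.mem_prod, Set.mem_Icc, Set.mem_Icc] at h
    rw [Finset.mem_product, Finset.mem_Icc, Finset.mem_Icc]
    exact h
  · rw [← Set.ncard_eq_toFinset_card _ hfin]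
    exact hd
  · refine Nat.cast_le.2 (Finset.card_le_card ?_)
    intro b hb
    rw [Finset.mem_filter] at hb ⊢
    obtain ⟨hb1, x, y, d, h1, h2, h3, h4, h5, h6⟩ := hb
    exact ⟨hb1, x, y, d, h1, h2, hmem _ (Finset.mem_coe.1 h3), hmem _ (Finset.mem_coe.1 h4),
      hmem _ (Finset.mem_coe.1 h5), hmem _ (Finset.mem_coe.1 h6)⟩

open Classical in
theorem inf2 (A : Set (ℕ × ℕ)) (hA : ∀ p ∈ A, 0 < p.1 ∧ 0 < p.2)
    (hs : ¬ Summable (fun p : A => 1 / ((p.1.1 : ℝ) ^ 2 + (p.1.2 : ℝ) ^ 2)))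
    (ε : ℝ) (hε : 0 < ε) (d₀ K₀ : ℕ) :
    ∃ K : ℕ, K₀ ≤ K ∧ ∀ a : ℕ, 1 ≤ a → a ≤ K →
      (1 - ε) * K ≤ (((Finset.Icc 1 K).filter (fun b => Ratio A a b d₀)).card : ℝ) := by
  obtain ⟨N, hN, h⟩ := inf1 A hA hs (1 / 8) ε (by norm_num) (by norm_num) hε
    (max (max (K₀ ^ 8) (d₀ ^ 128)) 256)
  have hN1 : K₀ ^ 8 ≤ N := le_trans (le_trans (le_max_left _ _) (le_max_left _ _)) hN
  have hN2 : d₀ ^ 128 ≤ N := le_trans (le_trans (le_max_right _ _) (le_max_left _ _)) hN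
  have hN3 : 256 ≤ N := le_trans (le_max_right _ _) hN
  have hN0 : (0 : ℝ) ≤ N := Nat.cast_nonneg _
  set x : ℝ := (N : ℝ) ^ ((1 : ℝ) / 8) with hx
  have hx0 : 0 ≤ x := Real.rpow_nonneg hN0 _
  have hx8 : x ^ 8 = N := by
    rw [hx, ← Real.rpow_natCast, ← Real.rpow_mul hN0]
    norm_num
  have hx2 : 2 ≤ x := by
    rw [← pow_le_pow_iff_left₀ (by norm_num) hx0 (show (8 : ℕ) ≠ 0 by norm_num), hx8]
    have : ((256 : ℕ) : ℝ) ≤ N := Nat.cast_le.2 hN3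
    push_cast at this
    linarith
  have hxK : (K₀ : ℝ) ≤ x := by
    rw [← pow_le_pow_iff_left₀ (Nat.cast_nonneg _) hx0 (show (8 : ℕ) ≠ 0 by norm_num), hx8]
    exact_mod_cast hN1
  have hx4 : (N : ℝ) ^ ((1 : ℝ) / 4) = x ^ 2 := by
    rw [hx, ← Real.rpow_natCast, ← Real.rpow_mul hN0]
    norm_num
  have hx22 : (N : ℝ) ^ ((1 : ℝ) / 2) = x ^ 4 := by
    rw [hx, ← Real.rpow_natCast, ← Real.rpow_mul hN0]
    norm_num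
  have hy : (d₀ : ℝ) ≤ (N : ℝ) ^ ((1 : ℝ) / 8 / 16) := by
    rw [← pow_le_pow_iff_left₀ (Nat.cast_nonneg _) (Real.rpow_nonneg hN0 _)
      (show (128 : ℕ) ≠ 0 by norm_num)]
    have h1 : ((N : ℝ) ^ ((1 : ℝ) / 8 / 16)) ^ 128 = N := by
      rw [← Real.rpow_natCast, ← Real.rpow_mul hN0]
      norm_num
    rw [h1]
    exact_mod_cast hN2
  have hK1 : x ≤ (⌈x⌉₊ : ℝ) := Nat.le_ceil x
  have hK2 : (⌈x⌉₊ : ℝ) ≤ x ^ 2 := by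
    have := (Nat.ceil_lt_add_one hx0).le
    nlinarith
  have hK3 : x ^ 2 ≤ x ^ 4 := by
    have h1 : (1 : ℝ) ≤ x ^ 2 := by nlinarith
    nlinarith
  refine ⟨⌈x⌉₊, ?_, fun a ha haK => ?_⟩
  · exact_mod_cast hxK.trans hK1
  · have haK' : (a : ℝ) ≤ (⌈x⌉₊ : ℝ) := Nat.cast_le.2 haK
    refine (h a ⌈x⌉₊ ha (by rw [hx4]; linarith) hK1 (by rw [hx22]; linarith)).trans ?_
    refine Nat.cast_le.2 (Finset.card_le_card ?_)
    intro b hb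
    rw [Finset.mem_filter] at hb ⊢
    obtain ⟨hb1, u, v, d, h1, h2, h3⟩ := hb
    exact ⟨hb1, u, v, d, h1, hy.trans h2, h3⟩

end Pool.Agent.AAR
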