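import Pool.Agent.AAR.Win

/-!
# AAR-LmA: one frequency for each denominator

PLAN.  `y_s = (1/m) ∑_j h_j e(-r_s j/s)`, `Y = ∑_s |y_s|² = (1/m) ∑_j h_j U(j)`,
`U(j) = ∑_s conj(y_s) e(-r_s j/s)` (so `Y ≤ (1/m) ∑_j h_j |U(j)|`).  Hoelder with exponents `6/5`, `6`
and `h_j^{6/5} = h_j`: `Y ≤ c^{5/6} ((1/m) ∑ |U|⁶)^{1/6}`, `c` the mean of `h`.  `win` (with `-r`):
`(1/m) ∑ |U|⁶ ≤ (Ω Y)³ + (Q⁶/m)(∑ |y_s|)⁶`, `(∑ |y_s|)⁶ ≤ Q³ Y³`, `m ≥ Q⁹`: `≤ (Ω³ + 1) Y³ ≤ 2 Ω³ Y³`.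
So `Y ≤ c^{5/6} 2^{1/6} Ω^{1/2} Y^{1/2}`, `Y ≤ 2^{1/3} Ω c^{5/3}`.
-/

set_option autoImplicit false

namespace Pool.Agent.AAR

private theorem lmA_fin (Y c Ω : ℝ) (hY : 0 ≤ Y) (hc : 0 ≤ c) (hΩ : 1 ≤ Ω)
    (h : Y ^ 6 ≤ c ^ 5 * (2 * Ω ^ 3 * Y ^ 3)) : Y ≤ 2 * Ω * c ^ (5 / 3 : ℝ) := by
  have hc3 : 0 ≤ c ^ (5 / 3 : ℝ) := Real.rpow_nonneg hc _
  rcases hY.eq_or_lt with h0 | h0
  · rw [← h0]; positivity
  · have h3 : Y ^ 3 ≤ 2 * Ω ^ 3 * c ^ 5 := by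
      have hp : 0 < Y ^ 3 := by positivity
      have : Y ^ 3 * Y ^ 3 ≤ (2 * Ω ^ 3 * c ^ 5) * Y ^ 3 := by nlinarith [h]
      exact le_of_mul_le_mul_right this hp
    have hc5 : (c ^ (5 / 3 : ℝ)) ^ 3 = c ^ 5 := by
      rw [← Real.rpow_natCast (c ^ (5 / 3 : ℝ)) 3, ← Real.rpow_mul hc, ← Real.rpow_natCast c 5]
      congr 1
      norm_num
    have h4 : Y ^ 3 ≤ (2 * Ω * c ^ (5 / 3 : ℝ)) ^ 3 := by
      rw [mul_pow, mul_pow, hc5]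
      have : 0 ≤ Ω ^ 3 * c ^ 5 := by positivity
      nlinarith
    exact le_of_pow_le_pow_left₀ (by norm_num) (by positivity) h4

private theorem lmA_hol (m : ℕ) (h : ℕ → ℝ) (h0 : ∀ j, h j = 0 ∨ h j = 1) (u : ℕ → ℝ)
    (hu : ∀ j, 0 ≤ u j) :
    (∑ j ∈ Finset.range m, h j * u j) ^ 6 ≤
      (∑ j ∈ Finset.range m, h j) ^ 5 * ∑ j ∈ Finset.range m, u j ^ 6 := by
  have hn : ∀ j, 0 ≤ h j := fun j => by rcases h0 j with h | h <;> rw [h] <;> norm_num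
  have h1 : ∀ j, h j ≤ 1 := fun j => by rcases h0 j with h | h <;> rw [h] <;> norm_num
  set H := ∑ j ∈ Finset.range m, h j with hH
  have hH0 : 0 ≤ H := Finset.sum_nonneg fun j _ => hn j
  rcases hH0.eq_or_lt with hz | hz
  · have hz' : ∀ j ∈ Finset.range m, h j = 0 :=
      (Finset.sum_eq_zero_iff_of_nonneg fun j _ => hn j).1 (by rw [← hH]; exact hz.symm)
    rw [Finset.sum_eq_zero (fun j hj => by rw [hz' j hj, zero_mul])]
    rw [← hz]; norm_num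
  · have hp := Real.pow_arith_mean_le_arith_mean_pow (Finset.range m) (fun j => h j / H) u
      (fun j _ => div_nonneg (hn j) hH0) (by rw [← Finset.sum_div, ← hH, div_self hz.ne'])
      (fun j _ => hu j) 6
    have e1 : ∑ j ∈ Finset.range m, h j / H * u j = (∑ j ∈ Finset.range m, h j * u j) / H := by
      rw [Finset.sum_div]; exact Finset.sum_congr rfl fun j _ => by ring
    have e2 : ∑ j ∈ Finset.range m, h j / H * u j ^ 6 = (∑ j ∈ Finset.range m, h j * u j ^ 6) / H := by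
      rw [Finset.sum_div]; exact Finset.sum_congr rfl fun j _ => by ring
    rw [e1, e2, div_pow, div_le_div_iff₀ (by positivity) hz] at hp
    have h3 : ∑ j ∈ Finset.range m, h j * u j ^ 6 ≤ ∑ j ∈ Finset.range m, u j ^ 6 :=
      Finset.sum_le_sum fun j _ => by
        have : 0 ≤ u j ^ 6 := pow_nonneg (hu j) 6
        nlinarith [h1 j]
    have h4 : (∑ j ∈ Finset.range m, h j * u j) ^ 6 ≤
        H ^ 5 * ∑ j ∈ Finset.range m, h j * u j ^ 6 := by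
      have : (∑ j ∈ Finset.range m, h j * u j) ^ 6 * H ≤
        (H ^ 5 * ∑ j ∈ Finset.range m, h j * u j ^ 6) * H := by
        calc _ ≤ _ := hp
          _ = _ := by ring
      exact le_of_mul_le_mul_right this hz
    exact h4.trans (mul_le_mul_of_nonneg_left h3 (by positivity))

theorem lmA (Q m : ℕ) (hQ : 1 ≤ Q) (hm : Q ^ 9 ≤ m) (Ω : ℝ) (hΩ : 1 ≤ Ω)
    (hΩs : ∀ s : ℕ, 1 ≤ s → s ≤ Q → (15 : ℝ) ^ s.primeFactors.card ≤ Ω) (r : ℕ → ℤ)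
    (hr : ∀ s : ℕ, 1 ≤ s → s ≤ Q → IsCoprime (r s) (s : ℤ)) (h : ℕ → ℝ)
    (h0 : ∀ j, h j = 0 ∨ h j = 1) :
    ∑ s ∈ Finset.Icc 1 Q, ‖(∑ j ∈ Finset.range m, (h j : ℂ) * ee (-((r s : ℝ) * j / s))) / m‖ ^ 2 ≤
      2 * Ω * ((∑ j ∈ Finset.range m, h j) / m) ^ (5 / 3 : ℝ) := by
  have hn : ∀ j, 0 ≤ h j := fun j => by rcases h0 j with h | h <;> rw [h] <;> norm_num
  have hQ9 : 1 ≤ Q ^ 9 := Nat.one_le_pow _ _ hQ
  have hm1 : 1 ≤ m := hQ9.trans hm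
  have hM : (0 : ℝ) < m := by exact_mod_cast hm1
  have hmC : (m : ℂ) ≠ 0 := by exact_mod_cast (by omega : m ≠ 0)
  set y : ℕ → ℂ := fun s =>
    (∑ j ∈ Finset.range m, (h j : ℂ) * ee (-((r s : ℝ) * j / s))) / m with hy
  set Y : ℝ := ∑ s ∈ Finset.Icc 1 Q, ‖y s‖ ^ 2 with hYd
  set a : ℕ → ℂ := fun s => (starRingEnd ℂ) (y s) with ha
  set U : ℕ → ℂ := fun j => ∑ s ∈ Finset.Icc 1 Q, a s * ee (((-r s : ℤ) : ℝ) * j / s) with hU
  have hY0 : 0 ≤ Y := Finset.sum_nonneg fun s _ => by positivity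
  have hna : ∀ s, ‖a s‖ = ‖y s‖ := fun s => by rw [ha]; exact RCLike.norm_conj _
  have hYU : (Y : ℂ) = (∑ j ∈ Finset.range m, (h j : ℂ) * U j) / m := by
    have e1 : ∀ j, (h j : ℂ) * U j =
        ∑ s ∈ Finset.Icc 1 Q, a s * ((h j : ℂ) * ee (-((r s : ℝ) * j / s))) := by
      intro j
      rw [hU, Finset.mul_sum]
      refine Finset.sum_congr rfl fun s _ => ?_
      have : (((-r s : ℤ) : ℝ) * j / s) = -((r s : ℝ) * j / s) := by push_cast; ring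
      rw [this]
      ring
    rw [Finset.sum_congr rfl fun j _ => e1 j, Finset.sum_comm, Finset.sum_div, hYd]
    push_cast
    refine Finset.sum_congr rfl fun s _ => ?_
    rw [← Finset.mul_sum, mul_div_assoc, ← Complex.conj_mul']
  have hYle : Y ≤ (∑ j ∈ Finset.range m, h j * ‖U j‖) / m := by
    have e1 : Y = ‖(Y : ℂ)‖ := by rw [Complex.norm_real, Real.norm_of_nonneg hY0]
    rw [e1, hYU, norm_div, Complex.norm_natCast]
    refine div_le_div_of_nonneg_right ?_ hM.le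
    refine (norm_sum_le _ _).trans (le_of_eq (Finset.sum_congr rfl fun j _ => ?_))
    rw [norm_mul, Complex.norm_real, Real.norm_of_nonneg (hn j)]
  have hhol := lmA_hol m h h0 (fun j => ‖U j‖) (fun j => norm_nonneg _)
  have hwin := win Q m hQ hm1 (fun s => -r s) (fun s h1 h2 => (hr s h1 h2).neg_left) a
  set W : ℝ := (∑ j ∈ Finset.range m, ‖U j‖ ^ 6) / m with hW
  have hW2 : W ≤ 2 * Ω ^ 3 * Y ^ 3 := by
    have h1 : ∑ s ∈ Finset.Icc 1 Q, (15 : ℝ) ^ s.primeFactors.card * ‖a s‖ ^ 2 ≤ Ω * Y := by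
      rw [hYd, Finset.mul_sum]
      refine Finset.sum_le_sum fun s hs => ?_
      rw [Finset.mem_Icc] at hs
      rw [hna]
      exact mul_le_mul_of_nonneg_right (hΩs s hs.1 hs.2) (by positivity)
    have h1' : (∑ s ∈ Finset.Icc 1 Q, (15 : ℝ) ^ s.primeFactors.card * ‖a s‖ ^ 2) ^ 3 ≤
        (Ω * Y) ^ 3 :=
      pow_le_pow_left₀ (Finset.sum_nonneg fun s _ => by positivity) h1 3
    have h2 : (∑ s ∈ Finset.Icc 1 Q, ‖a s‖) ^ 2 ≤ Q * Y := by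
      have := sq_sum_le_card_mul_sum_sq (s := Finset.Icc 1 Q) (f := fun s => ‖a s‖)
      rw [Nat.card_Icc, Nat.add_sub_cancel] at this
      refine this.trans (le_of_eq ?_)
      rw [hYd]
      congr 1
      exact Finset.sum_congr rfl fun s _ => by rw [hna]
    have h2' : (∑ s ∈ Finset.Icc 1 Q, ‖a s‖) ^ 6 ≤ (Q * Y) ^ 3 := by
      calc (∑ s ∈ Finset.Icc 1 Q, ‖a s‖) ^ 6 = ((∑ s ∈ Finset.Icc 1 Q, ‖a s‖) ^ 2) ^ 3 := by ring
        _ ≤ _ := pow_le_pow_left₀ (by positivity) h2 3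
    have h3 : (Q : ℝ) ^ 6 / m * (∑ s ∈ Finset.Icc 1 Q, ‖a s‖) ^ 6 ≤ Y ^ 3 := by
      calc (Q : ℝ) ^ 6 / m * (∑ s ∈ Finset.Icc 1 Q, ‖a s‖) ^ 6 ≤ (Q : ℝ) ^ 6 / m * (Q * Y) ^ 3 :=
            mul_le_mul_of_nonneg_left h2' (by positivity)
        _ = (Q : ℝ) ^ 9 / m * Y ^ 3 := by ring
        _ ≤ 1 * Y ^ 3 := by
            refine mul_le_mul_of_nonneg_right ?_ (by positivity)
            rw [div_le_one hM]
            exact_mod_cast hm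
        _ = Y ^ 3 := one_mul _
    have h4 : (1 : ℝ) ≤ Ω ^ 3 := one_le_pow₀ hΩ
    have h5 : 0 ≤ Y ^ 3 := by positivity
    calc W ≤ _ := hwin
      _ ≤ (Ω * Y) ^ 3 + Y ^ 3 := add_le_add h1' h3
      _ = (Ω ^ 3 + 1) * Y ^ 3 := by ring
      _ ≤ (2 * Ω ^ 3) * Y ^ 3 := mul_le_mul_of_nonneg_right (by linarith) h5
      _ = _ := by ring
  set c : ℝ := (∑ j ∈ Finset.range m, h j) / m with hc
  have hc0 : 0 ≤ c := div_nonneg (Finset.sum_nonneg fun j _ => hn j) hM.le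
  refine lmA_fin Y c Ω hY0 hc0 hΩ ?_
  calc Y ^ 6 ≤ ((∑ j ∈ Finset.range m, h j * ‖U j‖) / m) ^ 6 := pow_le_pow_left₀ hY0 hYle 6
    _ = (∑ j ∈ Finset.range m, h j * ‖U j‖) ^ 6 / (m : ℝ) ^ 6 := by rw [div_pow]
    _ ≤ ((∑ j ∈ Finset.range m, h j) ^ 5 * ∑ j ∈ Finset.range m, ‖U j‖ ^ 6) / (m : ℝ) ^ 6 :=
        div_le_div_of_nonneg_right hhol (by positivity)
    _ = c ^ 5 * W := by
        rw [hc, hW]
        field_simp
    _ ≤ c ^ 5 * (2 * Ω ^ 3 * Y ^ 3) := mul_le_mul_of_nonneg_left hW2 (by positivity)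

end Pool.Agent.AAR
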