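import Pool.Agent.AAR.Bas

/-!
# AAR-Mul: multipliers of window averages

PLAN.  `mulU`: geometric sum, `|e(mφ) - 1| ≤ 2`, `|e(φ) - 1| ≥ 4 nint φ` (`|e(y) - 1| = 2 |sin(π y)| ≥ 4|y|` for
`|y| ≤ 1/2`, `Real.mul_abs_le_abs_sin` or Jordan's inequality).  `mulL`: with `y = φ - round φ`,
`|1 - (1/m)∑ e(y j)| ≤ 2π|y| m ≤ 2π/64 < 1/10`.  `mul1`: triangle inequality.
-/

set_option autoImplicit false

namespace Pool.Agent.AAR

private theorem Mul_ee_pow (φ : ℝ) (j : ℕ) : ee (φ * j) = ee φ ^ j := by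
  rw [mul_comm, ee_nsmul]

private theorem Mul_lower (φ : ℝ) : 4 * nint φ ≤ ‖ee φ - 1‖ := by
  rw [← ee_sub_round φ]
  have hy : |φ - round φ| ≤ 1 / 2 := abs_sub_round φ
  rw [nint]
  set y := φ - round φ
  have h1 : ‖ee y - 1‖ = ‖2 * Real.sin (2 * Real.pi * y / 2)‖ := by
    rw [← Complex.norm_exp_I_mul_ofReal_sub_one, ee, mul_comm Complex.I]
  rw [h1, norm_mul, Real.norm_eq_abs, Real.norm_eq_abs, abs_of_pos (by norm_num : (0 : ℝ) < 2)]
  have h2 : 2 * Real.pi * y / 2 = Real.pi * y := by ring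
  have hpi := Real.pi_pos
  have h3 : |Real.pi * y| ≤ Real.pi / 2 := by
    rw [abs_mul, abs_of_pos hpi]
    nlinarith
  have h4 := Real.mul_abs_le_abs_sin h3
  rw [h2]
  have h5 : 2 / Real.pi * |Real.pi * y| = 2 * |y| := by
    rw [abs_mul, abs_of_pos hpi]
    field_simp
  rw [h5] at h4
  linarith

theorem mulU (m : ℕ) (hm : 1 ≤ m) (φ : ℝ) (h : 0 < nint φ) :
    ‖(∑ j ∈ Finset.range m, ee (φ * j)) / m‖ ≤ 1 / (2 * m * nint φ) := by
  have hm0 : (0 : ℝ) < m := by exact_mod_cast hm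
  simp only [Mul_ee_pow]
  have h1 : (∑ j ∈ Finset.range m, ee φ ^ j) * (ee φ - 1) = ee φ ^ m - 1 := geom_sum_mul _ _
  have h2 : ‖ee φ ^ m - 1‖ ≤ 2 := by
    refine (norm_sub_le _ _).trans ?_
    rw [norm_pow, ee_norm, one_pow, norm_one]
    norm_num
  have h3 := Mul_lower φ
  have h4 : ‖∑ j ∈ Finset.range m, ee φ ^ j‖ * ‖ee φ - 1‖ ≤ 2 := by
    rw [← norm_mul, h1]
    exact h2
  have h5 : ‖∑ j ∈ Finset.range m, ee φ ^ j‖ * (4 * nint φ) ≤ 2 :=
    (mul_le_mul_of_nonneg_left h3 (norm_nonneg _)).trans h4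
  rw [norm_div, Complex.norm_natCast, div_le_div_iff₀ hm0 (by positivity)]
  nlinarith

theorem mulL (m : ℕ) (hm : 1 ≤ m) (φ : ℝ) (h : m * nint φ ≤ 1 / 64) :
    9 / 10 ≤ ‖(∑ j ∈ Finset.range m, ee (φ * j)) / m‖ := by
  have hm0 : (0 : ℝ) < m := by exact_mod_cast hm
  have hmC : (m : ℂ) ≠ 0 := by exact_mod_cast hm0.ne'
  have hpi := Real.pi_lt_d2
  have hpi0 := Real.pi_pos
  have hn := nint_nonneg φ
  have h1 : ‖∑ j ∈ Finset.range m, (ee (φ * j) - 1)‖ ≤ m * (1 / 10) := by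
    refine (norm_sum_le _ _).trans ?_
    have h2 : ∀ j ∈ Finset.range m, ‖ee (φ * j) - 1‖ ≤ 1 / 10 := by
      intro j hj
      refine (norm_ee_sub_one _).trans ?_
      have h3 : nint (φ * j) ≤ j * nint φ := by
        rw [mul_comm]
        exact nint_mul_nat j φ
      have h4 : (j : ℝ) ≤ m := by exact_mod_cast (Finset.mem_range.1 hj).le
      have h5 : (j : ℝ) * nint φ ≤ 1 / 64 := (mul_le_mul_of_nonneg_right h4 hn).trans h
      have h6 : nint (φ * j) ≤ 1 / 64 := h3.trans h5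
      have h7 : 2 * Real.pi * nint (φ * j) ≤ 2 * Real.pi * (1 / 64) :=
        mul_le_mul_of_nonneg_left h6 (by positivity)
      linarith
    refine (Finset.sum_le_sum h2).trans (le_of_eq ?_)
    rw [Finset.sum_const, Finset.card_range, nsmul_eq_mul]
  have h2 : ∑ j ∈ Finset.range m, ee (φ * j) = m + ∑ j ∈ Finset.range m, (ee (φ * j) - 1) := by
    rw [Finset.sum_sub_distrib, Finset.sum_const, Finset.card_range, nsmul_eq_mul, mul_one]
    ring
  rw [norm_div, Complex.norm_natCast, le_div_iff₀ hm0, h2]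
  have h3 : ‖(m : ℂ)‖ - ‖∑ j ∈ Finset.range m, (ee (φ * j) - 1)‖ ≤
      ‖(m : ℂ) + ∑ j ∈ Finset.range m, (ee (φ * j) - 1)‖ := by
    have := norm_sub_norm_le (m : ℂ) (-∑ j ∈ Finset.range m, (ee (φ * j) - 1))
    rwa [norm_neg, sub_neg_eq_add] at this
  rw [Complex.norm_natCast] at h3
  linarith

theorem mul1 (m : ℕ) (φ : ℝ) : ‖(∑ j ∈ Finset.range m, ee (φ * j)) / m‖ ≤ 1 := by
  rw [norm_div, Complex.norm_natCast]
  refine div_le_one_of_le₀ ?_ (Nat.cast_nonneg m)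
  refine (norm_sum_le _ _).trans ?_
  simp only [ee_norm]
  rw [Finset.sum_const, Finset.card_range, nsmul_eq_mul, mul_one]

end Pool.Agent.AAR
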