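import Pool.Agent.AAR.Prm
import Pool.Agent.AAR.Psv
import Pool.Agent.AAR.Mul
import Pool.Agent.AAR.LmA

/-!
# AAR-Key: masses at one residue for each denominator

PLAN.  Interchange the sums: it suffices to show for each `d ∈ ds H`, `x < X` (`h = pr f x (x+d)`)
`∑_{s} ∑_{a} en h (arc (t s) a) ≤ 4 Ω ∑_u cw(u)^{5/3}`, `s` over `2 ≤ s ≤ Q2/t` with `gcd(ts,d) = t`, `a` over the residues mod
`ts` coprime to `ts` with `(d/t) a ≡ ρ s mod s`.  (The summands exist only if `t ∣ d`.)  As `gcd(d/t, s) = 1`, all these `a`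
lie in one class `r'_s` mod `s`, coprime to `s` (if there is an `a`; else put `r'_s = 1`, also for all other `s`).
The arcs for different `a` are disjoint (`r_small2`).  For `n` in the arc of `a`: `φ = a/(ts) + θ'` mod 1, so the multiplier
`(1/m)∑_j e(φ t j) e(-r'_s j/s) = (1/m) ∑_j e(tθ' j)` has absolute value `≥ 9/10` (`mulL`, `m t r ≤ 1/64`); by `psv`
(shifts `t j`, `κ_j = e(-r'_s j/s)/m`) `∑_a en(arc) ≤ 2 ∑_{u ∈ Ico (-tm) Z} |(1/m)∑_j h(u+tj) e(-r'_s j/s)|²`.  For each `u` sum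
over `s` with `lmA` (`Q = Q2`, `h_j = h(u+tj)`): `≤ 2 · 2Ω cw(u)^{5/3}`.
-/

set_option autoImplicit false

namespace Pool.Agent.AAR

/-- distinct fractions with the same denominator are `1 / b` apart -/
private theorem Key_sep {b : ℕ} {a a' : ℕ} (ha : a < b) (ha' : a' < b) (hne : a ≠ a') :
    1 / (b : ℝ) ≤ nint ((a' : ℝ) / b - (a : ℝ) / b) := by
  have hb : (0 : ℝ) < b := by exact_mod_cast (by omega : 0 < b)
  obtain ⟨k, hk⟩ := exists_int ((a' : ℝ) / b - (a : ℝ) / b)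
  rw [hk]
  have h1 : (a' : ℝ) / b - (a : ℝ) / b - k = (((a' : ℤ) - a - k * b : ℤ) : ℝ) / b := by
    push_cast
    field_simp
  rw [h1, abs_div, abs_of_pos hb]
  apply div_le_div_of_nonneg_right _ hb.le
  have h2 : ((a' : ℤ) - a - k * b) ≠ 0 := by
    intro h
    have h3 : (a' : ℤ) - a = k * b := by linarith
    have h4 : k = 0 := by
      by_contra hk0
      have h5 : 1 ≤ |k| := Int.one_le_abs hk0
      have h6 : |(a' : ℤ) - a| = |k| * b := by rw [h3, abs_mul, Nat.abs_cast]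
      have h7 : |(a' : ℤ) - a| < b := by
        rw [abs_lt]
        constructor <;> omega
      nlinarith
    rw [h4] at h3
    omega
  have h3 : (1 : ℤ) ≤ |(a' : ℤ) - a - k * b| := Int.one_le_abs h2
  have h4 : ((1 : ℤ) : ℝ) ≤ ((|(a' : ℤ) - a - k * b| : ℤ) : ℝ) := by exact_mod_cast h3
  rw [Int.cast_abs] at h4
  simpa using h4

/-- the arcs are disjoint -/
private theorem Key_disj (p : Par) {b : ℕ} (hb : b ≤ p.Q2) {a a' : ℕ} (ha : a < b) (ha' : a' < b)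
    (hne : a ≠ a') : Disjoint (arc p.P p.r b a) (arc p.P p.r b a') := by
  classical
  rw [Finset.disjoint_left]
  intro n hn hn'
  rw [arc, Finset.mem_filter] at hn hn'
  have h1 := hn.2
  have h2 := hn'.2
  rw [Int.cast_natCast] at h1 h2
  have hb0 : (0 : ℝ) < b := by exact_mod_cast (by omega : 0 < b)
  have h3 : nint ((a' : ℝ) / b - (a : ℝ) / b) ≤ p.r + p.r := by
    have h4 := nint_sub ((n : ℝ) / p.P - (a : ℝ) / b) ((n : ℝ) / p.P - (a' : ℝ) / b)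
    have h5 : (n : ℝ) / p.P - (a : ℝ) / b - ((n : ℝ) / p.P - (a' : ℝ) / b) =
        (a' : ℝ) / b - (a : ℝ) / b := by ring
    rw [h5] at h4
    linarith
  have h4 := (Key_sep ha ha' hne).trans h3
  rw [div_le_iff₀ hb0] at h4
  have hbQ : (b : ℝ) ≤ p.Q2 := by exact_mod_cast hb
  have hQ1 : (1 : ℝ) ≤ p.Q2 := by
    have := p.hQ2
    exact_mod_cast (by omega : 1 ≤ p.Q2)
  have hH1 : (1 : ℝ) ≤ p.H := by exact_mod_cast p.hH
  have hr := p.r_pos
  have hs := p.r_small2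
  have h5 : (p.r + p.r) * b ≤ (p.r + p.r) * p.Q2 := by gcongr
  have h6 : (p.Q2 : ℝ) * p.r ≤ (p.Q2 : ℝ) ^ 2 * (p.H * p.r) := by
    have e1 : (p.Q2 : ℝ) * p.r = p.Q2 * 1 * (1 * p.r) := by ring
    rw [e1, sq]
    gcongr
  nlinarith

/-- the multiplier on an arc -/
private theorem Key_mult (p : Par) {t s : ℕ} (ht : 1 ≤ t) (htQ : t ≤ p.Q2) (hs : 1 ≤ s) {a : ℕ}
    {r' : ℤ} (hr : (s : ℤ) ∣ (a : ℤ) - r') {n : ℕ} (hn : n ∈ arc p.P p.r (t * s) a) :
    9 / 10 ≤ ‖∑ j ∈ Finset.range p.m, ee (-((r' : ℝ) * j / s)) / p.m *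
      ee ((n : ℝ) / p.P * ((t * j : ℕ) : ℝ))‖ := by
  classical
  rw [arc, Finset.mem_filter] at hn
  have h1 := hn.2
  rw [Int.cast_natCast] at h1
  obtain ⟨k, hk⟩ := exists_int ((n : ℝ) / p.P - (a : ℝ) / ((t * s : ℕ) : ℝ))
  rw [hk] at h1
  obtain ⟨q, hq⟩ := hr
  have hs0 : (s : ℝ) ≠ 0 := by exact_mod_cast (by omega : s ≠ 0)
  have ht0 : (t : ℝ) ≠ 0 := by exact_mod_cast (by omega : t ≠ 0)
  set θ' : ℝ := (n : ℝ) / p.P - (a : ℝ) / ((t * s : ℕ) : ℝ) - k with hθ'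
  have har : (a : ℝ) = r' + s * q := by
    have : (a : ℤ) = r' + s * q := by linarith
    have h2 : ((a : ℤ) : ℝ) = ((r' + s * q : ℤ) : ℝ) := by rw [this]
    push_cast at h2
    exact h2
  have hterm : ∀ j : ℕ, ee (-((r' : ℝ) * j / s)) / p.m * ee ((n : ℝ) / p.P * ((t * j : ℕ) : ℝ)) =
      ee ((t * θ') * j) / p.m := by
    intro j
    have h2 : ee (-((r' : ℝ) * j / s)) * ee ((n : ℝ) / p.P * ((t * j : ℕ) : ℝ)) =
        ee ((t * θ') * j) := by
      rw [← ee_add]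
      have h3 : -((r' : ℝ) * j / s) + (n : ℝ) / p.P * ((t * j : ℕ) : ℝ) =
          (t * θ') * j + ((q * j + k * t * j : ℤ) : ℝ) := by
        rw [hθ', har]
        push_cast
        field_simp
        ring
      rw [h3, ee_add_int]
    rw [div_mul_eq_mul_div, h2]
  rw [Finset.sum_congr rfl fun j _ => hterm j, ← Finset.sum_div]
  refine mulL p.m (by have := p.m_large; omega) (t * θ') ?_
  have hr0 := p.r_pos
  have h4 : nint (t * θ') ≤ t * p.r := by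
    refine (nint_abs _).trans ?_
    rw [abs_mul, Nat.abs_cast]
    gcongr
  have h5 : (t : ℝ) ≤ p.Q2 := by exact_mod_cast htQ
  have h6 := p.r_mul_m
  calc (p.m : ℝ) * nint (t * θ') ≤ p.m * (t * p.r) := by gcongr
    _ ≤ p.m * (p.Q2 * p.r) := by gcongr
    _ = (64 * (p.Q2 : ℝ) * p.r * p.m) / 64 := by ring
    _ = 1 / 64 := by rw [h6]

/-- one denominator -/
private theorem Key_s (p : Par) {t s : ℕ} (ht : 1 ≤ t) (htQ : t ≤ p.Q2) (hs : 1 ≤ s)
    (htsQ : t * s ≤ p.Q2) (h : ℤ → ℝ)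
    (hsup : ∀ z : ℤ, (z < 0 ∨ (p.Z : ℤ) ≤ z) → h z = 0) (S : Finset ℕ)
    (hS : ∀ a ∈ S, a < t * s) {r' : ℤ} (hr : ∀ a ∈ S, (s : ℤ) ∣ (a : ℤ) - r') :
    ∑ a ∈ S, en p.Z p.P h (arc p.P p.r (t * s) a) ≤
      2 * ∑ u ∈ Finset.Ico (-((t * p.m : ℕ) : ℤ)) p.Z,
        ‖(∑ j ∈ Finset.range p.m, (h (u + ((t * j : ℕ) : ℤ)) : ℂ) * ee (-((r' : ℝ) * j / s))) /
          p.m‖ ^ 2 := by
  classical
  have hP1 := p.P_one
  have hP0 : (0 : ℝ) < p.P := by exact_mod_cast hP1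
  have hPb : p.Z + t * p.m ≤ p.P := by
    have h1 := p.Z_le_P
    have h2 : t * p.m ≤ p.Q2 * p.m := Nat.mul_le_mul_right _ htQ
    nlinarith [Nat.zero_le (4 * p.K * p.H), Nat.zero_le (p.μ * p.K * p.H)]
  have hpsv := psv p.Z p.P (t * p.m) p.m h hsup (fun j => t * j)
    (fun j hj => Nat.mul_le_mul_left _ hj.le)
    (fun j => ee (-((r' : ℝ) * j / s)) / p.m) hP1 hPb
  have e1 : ∀ u : ℤ, (∑ j ∈ Finset.range p.m, (h (u + ((t * j : ℕ) : ℤ)) : ℂ) *
      ee (-((r' : ℝ) * j / s))) / p.m =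
      ∑ j ∈ Finset.range p.m, ee (-((r' : ℝ) * j / s)) / p.m * (h (u + ((t * j : ℕ) : ℤ)) : ℂ) := by
    intro u
    rw [Finset.sum_div]
    exact Finset.sum_congr rfl fun j _ => by ring
  have e3 : ∑ u ∈ Finset.Ico (-((t * p.m : ℕ) : ℤ)) p.Z,
        ‖(∑ j ∈ Finset.range p.m, (h (u + ((t * j : ℕ) : ℤ)) : ℂ) * ee (-((r' : ℝ) * j / s))) /
          p.m‖ ^ 2 = ∑ u ∈ Finset.Ico (-((t * p.m : ℕ) : ℤ)) p.Z,
        ‖∑ j ∈ Finset.range p.m, ee (-((r' : ℝ) * j / s)) / p.m *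
          (h (u + ((t * j : ℕ) : ℤ)) : ℂ)‖ ^ 2 :=
    Finset.sum_congr rfl fun u _ => by rw [e1 u]
  rw [e3, ← hpsv]
  have hdis : (S : Set ℕ).PairwiseDisjoint (fun a : ℕ => arc p.P p.r (t * s) a) := by
    intro a ha a' ha' hne
    exact Key_disj p htsQ (hS a ha) (hS a' ha') hne
  have e2 : ∑ a ∈ S, en p.Z p.P h (arc p.P p.r (t * s) a) =
      (∑ n ∈ S.biUnion (fun a : ℕ => arc p.P p.r (t * s) a),
        ‖fh p.Z h ((n : ℝ) / p.P)‖ ^ 2) / p.P := by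
    rw [Finset.sum_biUnion hdis, Finset.sum_div]
    rfl
  rw [e2, ← mul_div_assoc, Finset.mul_sum]
  apply div_le_div_of_nonneg_right _ hP0.le
  have hsub : S.biUnion (fun a : ℕ => arc p.P p.r (t * s) a) ⊆ Finset.range p.P := by
    intro n hn
    obtain ⟨a, -, hna⟩ := Finset.mem_biUnion.1 hn
    rw [arc, Finset.mem_filter] at hna
    exact hna.1
  calc ∑ n ∈ S.biUnion (fun a : ℕ => arc p.P p.r (t * s) a), ‖fh p.Z h ((n : ℝ) / p.P)‖ ^ 2
      ≤ ∑ n ∈ S.biUnion (fun a : ℕ => arc p.P p.r (t * s) a),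
        2 * (‖fh p.Z h ((n : ℝ) / p.P)‖ ^ 2 *
          ‖∑ j ∈ Finset.range p.m, ee (-((r' : ℝ) * j / s)) / p.m *
            ee ((n : ℝ) / p.P * ((t * j : ℕ) : ℝ))‖ ^ 2) := by
        refine Finset.sum_le_sum fun n hn => ?_
        obtain ⟨a, ha, hna⟩ := Finset.mem_biUnion.1 hn
        have h1 := Key_mult p ht htQ hs (hr a ha) hna
        have h2 : 0 ≤ ‖fh p.Z h ((n : ℝ) / p.P)‖ ^ 2 := by positivity
        have h3 : (1 : ℝ) / 2 ≤ ‖∑ j ∈ Finset.range p.m, ee (-((r' : ℝ) * j / s)) / p.m *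
            ee ((n : ℝ) / p.P * ((t * j : ℕ) : ℝ))‖ ^ 2 := by nlinarith
        have h4 := mul_le_mul_of_nonneg_left h3 h2
        linarith
    _ ≤ _ := Finset.sum_le_sum_of_subset_of_nonneg hsub fun n _ _ => by positivity

/-- one difference and one column -/
private theorem Key_dx (p : Par) (f : ℤ → ℤ → ℝ) (c : Cell p f) {t : ℕ} (ht : 1 ≤ t)
    (htQ : t ≤ p.Q2) (ρ : ℕ → ℕ) {d : ℕ} (htd : t ∣ d) (x : ℕ) :
    ∑ s ∈ Finset.Icc 2 (p.Q2 / t), (if Nat.gcd (t * s) d = t then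
      ∑ a ∈ (Finset.range (t * s)).filter
        (fun a => Nat.Coprime a (t * s) ∧ (d / t * a) % s = ρ s),
          en p.Z p.P (pr f x (x + d)) (arc p.P p.r (t * s) a) else 0) ≤
      4 * p.Ω * ∑ u ∈ Finset.Ico (-((t * p.m : ℕ) : ℤ)) p.Z,
          cw f t p.m u x (x + d) ^ (5 / 3 : ℝ) := by
  classical
  set h : ℤ → ℝ := pr f x (x + d) with hh
  have hsup : ∀ z : ℤ, (z < 0 ∨ (p.Z : ℤ) ≤ z) → h z = 0 := by
    intro z hz
    rw [hh, pr, c.supp x z (Or.inr (Or.inr hz)), zero_mul]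
  have h01 : ∀ z, h z = 0 ∨ h z = 1 := by
    intro z
    rw [hh, pr]
    rcases c.f01 x z with h1 | h1 <;> rcases c.f01 (x + d) z with h2 | h2 <;> simp [h1, h2]
  -- the residues
  have hex : ∀ s : ℕ, ∃ r' : ℤ, (1 ≤ s → IsCoprime r' (s : ℤ)) ∧
      (Nat.gcd (t * s) d = t → ∀ a ∈ (Finset.range (t * s)).filter
        (fun a => Nat.Coprime a (t * s) ∧ (d / t * a) % s = ρ s), (s : ℤ) ∣ (a : ℤ) - r') := by
    intro s
    by_cases hne : ((Finset.range (t * s)).filter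
        (fun a => Nat.Coprime a (t * s) ∧ (d / t * a) % s = ρ s)).Nonempty
    · obtain ⟨a₀, ha₀⟩ := hne
      rw [Finset.mem_filter] at ha₀
      refine ⟨a₀, fun _ => ?_, fun hg a ha => ?_⟩
      · exact (Nat.isCoprime_iff_coprime).2 (Nat.Coprime.coprime_mul_left_right ha₀.2.1)
      · rw [Finset.mem_filter] at ha
        have hcop : Nat.Coprime s (d / t) := by
          have h1 : t * Nat.gcd s (d / t) = t := by
            rw [← Nat.gcd_mul_left, Nat.mul_div_cancel' htd]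
            exact hg
          have h2 : t * Nat.gcd s (d / t) = t * 1 := by rw [h1, mul_one]
          exact Nat.eq_of_mul_eq_mul_left (by omega) h2
        have h3 : (d / t * a₀) ≡ (d / t * a) [MOD s] := by
          rw [Nat.ModEq, ha₀.2.2, ha.2.2]
        have h4 : a₀ ≡ a [MOD s] := Nat.ModEq.cancel_left_of_coprime hcop h3
        exact (Nat.modEq_iff_dvd).1 h4
    · rw [Finset.not_nonempty_iff_eq_empty] at hne
      refine ⟨1, fun _ => isCoprime_one_left, fun _ a ha => ?_⟩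
      rw [hne] at ha
      simp at ha
  choose r' hr1 hr2 using hex
  have hQ1 : 1 ≤ p.Q2 := by have := p.hQ2; omega
  -- one denominator
  have hs1 : ∀ s ∈ Finset.Icc 2 (p.Q2 / t), (if Nat.gcd (t * s) d = t then
      ∑ a ∈ (Finset.range (t * s)).filter
        (fun a => Nat.Coprime a (t * s) ∧ (d / t * a) % s = ρ s),
          en p.Z p.P h (arc p.P p.r (t * s) a) else 0) ≤
      2 * ∑ u ∈ Finset.Ico (-((t * p.m : ℕ) : ℤ)) p.Z,
        ‖(∑ j ∈ Finset.range p.m, (h (u + ((t * j : ℕ) : ℤ)) : ℂ) * ee (-((r' s : ℝ) * j / s))) /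
          p.m‖ ^ 2 := by
    intro s hs
    rw [Finset.mem_Icc] at hs
    split_ifs with hg
    · refine Key_s p ht htQ (by omega) ?_ h hsup _ (fun a ha => ?_) (hr2 s hg)
      · rw [mul_comm]
        exact (Nat.le_div_iff_mul_le (by omega)).1 hs.2
      · exact Finset.mem_range.1 (Finset.mem_filter.1 ha).1
    · positivity
  have hlm : ∀ u : ℤ, ∑ s ∈ Finset.Icc 2 (p.Q2 / t),
      ‖(∑ j ∈ Finset.range p.m, (h (u + ((t * j : ℕ) : ℤ)) : ℂ) * ee (-((r' s : ℝ) * j / s))) /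
          p.m‖ ^ 2 ≤ 2 * p.Ω * cw f t p.m u x (x + d) ^ (5 / 3 : ℝ) := by
    intro u
    have h1 := lmA p.Q2 p.m hQ1 p.hm9 p.Ω p.hΩ p.hΩs r' (fun s hs _ => hr1 s hs)
      (fun j => h (u + ((t * j : ℕ) : ℤ))) (fun j => h01 _)
    have h2 : cw f t p.m u x (x + d) =
        (∑ j ∈ Finset.range p.m, h (u + ((t * j : ℕ) : ℤ))) / p.m := by
      rw [cw]
      congr 1
    rw [h2]
    refine le_trans (Finset.sum_le_sum_of_subset_of_nonneg ?_ fun s _ _ => by positivity) h1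
    intro s hs
    rw [Finset.mem_Icc] at hs ⊢
    exact ⟨by omega, hs.2.trans (Nat.div_le_self _ _)⟩
  calc _ ≤ ∑ s ∈ Finset.Icc 2 (p.Q2 / t), 2 * ∑ u ∈ Finset.Ico (-((t * p.m : ℕ) : ℤ)) p.Z,
        ‖(∑ j ∈ Finset.range p.m, (h (u + ((t * j : ℕ) : ℤ)) : ℂ) * ee (-((r' s : ℝ) * j / s))) /
          p.m‖ ^ 2 := Finset.sum_le_sum hs1
    _ = 2 * ∑ u ∈ Finset.Ico (-((t * p.m : ℕ) : ℤ)) p.Z, ∑ s ∈ Finset.Icc 2 (p.Q2 / t),
        ‖(∑ j ∈ Finset.range p.m, (h (u + ((t * j : ℕ) : ℤ)) : ℂ) * ee (-((r' s : ℝ) * j / s))) /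
          p.m‖ ^ 2 := by rw [← Finset.mul_sum, Finset.sum_comm]
    _ ≤ 2 * ∑ u ∈ Finset.Ico (-((t * p.m : ℕ) : ℤ)) p.Z,
        2 * p.Ω * cw f t p.m u x (x + d) ^ (5 / 3 : ℝ) := by
        gcongr with u hu
        exact hlm u
    _ = _ := by
        rw [← Finset.mul_sum]
        ring

theorem key (p : Par) (f : ℤ → ℤ → ℝ) (c : Cell p f) (t : ℕ) (ht : 1 ≤ t) (htQ : t ≤ p.Q2)
    (ρ : ℕ → ℕ) :
    ∑ s ∈ Finset.Icc 2 (p.Q2 / t), mst p f t s (ρ s) ≤
      4 * p.Ω * ∑ d ∈ (ds p.H).filter (fun d => t ∣ d), wt p.H d *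
        ∑ x ∈ Finset.range p.X, ∑ u ∈ Finset.Ico (-((t * p.m : ℕ) : ℤ)) p.Z,
          cw f t p.m u x (x + d) ^ (5 / 3 : ℝ) := by
  classical
  have h1 : ∀ s, mst p f t s (ρ s) = ∑ d ∈ (ds p.H).filter (fun d => t ∣ d), wt p.H d *
      ∑ x ∈ Finset.range p.X, (if Nat.gcd (t * s) d = t then
      ∑ a ∈ (Finset.range (t * s)).filter
        (fun a => Nat.Coprime a (t * s) ∧ (d / t * a) % s = ρ s),
          en p.Z p.P (pr f x (x + d)) (arc p.P p.r (t * s) a) else 0) := by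
    intro s
    rw [mst, Finset.sum_filter, Finset.sum_filter]
    refine Finset.sum_congr rfl fun d _ => ?_
    by_cases hg : Nat.gcd (t * s) d = t
    · have htd : t ∣ d := by
        rw [← hg]
        exact Nat.gcd_dvd_right _ _
      rw [if_pos hg, if_pos htd]
      congr 1
      exact Finset.sum_congr rfl fun x _ => by rw [if_pos hg]
    · rw [if_neg hg]
      split_ifs with htd
      · rw [Finset.sum_const_zero, mul_zero]
      · rfl
  have hwt : ∀ d ∈ ds p.H, 0 ≤ wt p.H d := by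
    intro d hd
    rw [ds, Finset.mem_Ioo] at hd
    rw [wt]
    have h2 : |(d : ℝ) - 3 * p.H| ≤ p.H := by
      have h3 : ((2 * p.H : ℕ) : ℝ) < d := by exact_mod_cast hd.1
      have h4 : (d : ℝ) < ((4 * p.H : ℕ) : ℝ) := by exact_mod_cast hd.2
      push_cast at h3 h4
      rw [abs_le]
      constructor <;> linarith
    linarith
  rw [Finset.sum_congr rfl fun s _ => h1 s, Finset.sum_comm, Finset.mul_sum]
  refine Finset.sum_le_sum fun d hd => ?_
  rw [Finset.mem_filter] at hd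
  rw [← Finset.mul_sum, Finset.sum_comm, mul_left_comm]
  refine mul_le_mul_of_nonneg_left ?_ (hwt d hd.1)
  rw [Finset.mul_sum]
  exact Finset.sum_le_sum fun x _ => Key_dx p f c ht htQ ρ hd.2 x

end Pool.Agent.AAR
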