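import Pool.Agent.AAR.Bas

/-!
# AAR-Psd: positive definite kernels

PLAN.  `psd1`: `cw f (t s) m u x x' ² = (1/m²) ∑_{j,j'} a_{jj'}(x) a_{jj'}(x')`,
`a_{jj'}(x) = f x (u + ts j) f x (u + ts j')`.  Write `i = v + s i₁`, `v < s`, `i₁ < nb`.  For each `(j,j')`:
`(E_i a)² ≤ E_v (E_{i₁} a(x₁ + t v + t s i₁))²`; sum over `(j,j')`: the right side is the average over `v` of
`Bx f (x₁ + t v) u (t s) nb m ≤ C`.
`psd2`: `cg² = (1/Z²) ∑_{z,z'} a_{zz'}(x) a_{zz'}(x')`; for each `(z,z')` let `S = ∑_{x<X} a(x)` and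
`U(x₁) = (1/n) ∑_i a(x₁ + t i)`; `∑_{x₁ ∈ Ico (-8H) X} U(x₁) = S` (`a` is supported in `[0,X)`, `t n ≤ 8H`), so
`S² ≤ (X + 8H) ∑ U(x₁)²`.  Sum over `(z,z')`; `∑_{z,z'} S² = X² Z² Bx f 0 0 1 X Z`.
-/

set_option autoImplicit false

namespace Pool.Agent.AAR

private theorem Psd_swap {ι κ : Type*} (I : Finset ι) (J : Finset κ) (g : ι → κ → ℝ) :
    ∑ i ∈ I, ∑ i' ∈ I, (∑ j ∈ J, g i j * g i' j) ^ 2 = ∑ j ∈ J, ∑ j' ∈ J, (∑ i ∈ I, g i j * g i j') ^ 2 := by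
  have h1 : ∀ i i', (∑ j ∈ J, g i j * g i' j) ^ 2 = ∑ j ∈ J, ∑ j' ∈ J, g i j * g i' j * (g i j' * g i' j') := by
    intro i i'
    rw [sq, Finset.sum_mul_sum]
  have h2 : ∀ j j', (∑ i ∈ I, g i j * g i j') ^ 2 = ∑ i ∈ I, ∑ i' ∈ I, g i j * g i' j * (g i j' * g i' j') := by
    intro j j'
    rw [sq, Finset.sum_mul_sum]
    refine Finset.sum_congr rfl fun i _ => Finset.sum_congr rfl fun i' _ => ?_
    ring
  simp only [h1, h2]
  calc ∑ i ∈ I, ∑ i' ∈ I, ∑ j ∈ J, ∑ j' ∈ J, g i j * g i' j * (g i j' * g i' j')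
      = ∑ i ∈ I, ∑ j ∈ J, ∑ i' ∈ I, ∑ j' ∈ J, g i j * g i' j * (g i j' * g i' j') :=
        Finset.sum_congr rfl fun i _ => Finset.sum_comm
    _ = ∑ i ∈ I, ∑ j ∈ J, ∑ j' ∈ J, ∑ i' ∈ I, g i j * g i' j * (g i j' * g i' j') :=
        Finset.sum_congr rfl fun i _ => Finset.sum_congr rfl fun j _ => Finset.sum_comm
    _ = ∑ j ∈ J, ∑ i ∈ I, ∑ j' ∈ J, ∑ i' ∈ I, g i j * g i' j * (g i j' * g i' j') := Finset.sum_comm
    _ = ∑ j ∈ J, ∑ j' ∈ J, ∑ i ∈ I, ∑ i' ∈ I, g i j * g i' j * (g i j' * g i' j') :=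
        Finset.sum_congr rfl fun i _ => Finset.sum_comm

private theorem Psd_range (s nb : ℕ) (F : ℕ → ℝ) :
    ∑ i ∈ Finset.range (s * nb), F i = ∑ v ∈ Finset.range s, ∑ i ∈ Finset.range nb, F (v + s * i) := by
  induction nb with
  | zero => simp
  | succ nb ih =>
    rw [mul_add, mul_one, Finset.sum_range_add, ih]
    simp only [Finset.sum_range_succ]
    rw [Finset.sum_add_distrib]
    congr 1
    refine Finset.sum_congr rfl fun v _ => ?_
    rw [add_comm]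

theorem psd1 (f : ℤ → ℤ → ℝ) (t s nb m : ℕ) (hs : 1 ≤ s) (hnb : 1 ≤ nb) (hm : 1 ≤ m)
    (u x₁ : ℤ) (C : ℝ) (h : ∀ x : ℤ, Bx f x u (t * s) nb m ≤ C) :
    (∑ i ∈ Finset.range (s * nb), ∑ i' ∈ Finset.range (s * nb),
      cw f (t * s) m u (x₁ + t * i) (x₁ + t * i') ^ 2) / ((s * nb : ℕ) : ℝ) ^ 2 ≤ C := by
  have hs' : (0:ℝ) < s := by exact_mod_cast hs
  have hnb' : (0:ℝ) < nb := by exact_mod_cast hnb
  have hm' : (0:ℝ) < m := by exact_mod_cast hm
  have h0 : ∑ i ∈ Finset.range (s * nb), ∑ i' ∈ Finset.range (s * nb),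
      cw f (t * s) m u (x₁ + t * i) (x₁ + t * i') ^ 2
      = (∑ i ∈ Finset.range (s * nb), ∑ i' ∈ Finset.range (s * nb),
        (∑ j ∈ Finset.range m, f (x₁ + t * i) (u + (t * s : ℕ) * j) * f (x₁ + t * i') (u + (t * s : ℕ) * j)) ^ 2)
          / (m : ℝ) ^ 2 := by
    rw [Finset.sum_div]
    refine Finset.sum_congr rfl fun i _ => ?_
    rw [Finset.sum_div]
    refine Finset.sum_congr rfl fun i' _ => ?_
    rw [cw, div_pow]
  have h1 := Psd_swap (Finset.range (s * nb)) (Finset.range m)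
    (fun i j => f (x₁ + t * i) (u + (t * s : ℕ) * j))
  beta_reduce at h1
  rw [h0, h1]
  have h2 : ∀ j j' : ℕ, (∑ i ∈ Finset.range (s * nb), f (x₁ + t * i) (u + (t * s : ℕ) * j)
        * f (x₁ + t * i) (u + (t * s : ℕ) * j')) ^ 2
      ≤ s * ∑ v ∈ Finset.range s, (∑ i ∈ Finset.range nb, f (x₁ + t * v + (t * s : ℕ) * i) (u + (t * s : ℕ) * j)
        * f (x₁ + t * v + (t * s : ℕ) * i) (u + (t * s : ℕ) * j')) ^ 2 := by
    intro j j'
    rw [Psd_range s nb (fun i => f (x₁ + t * i) (u + (t * s : ℕ) * j) * f (x₁ + t * i) (u + (t * s : ℕ) * j'))]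
    have h3 := sq_sum_le_card_mul_sum_sq (s := Finset.range s) (f := fun v => ∑ i ∈ Finset.range nb,
      f (x₁ + t * ((v + s * i : ℕ) : ℤ)) (u + (t * s : ℕ) * j) * f (x₁ + t * ((v + s * i : ℕ) : ℤ)) (u + (t * s : ℕ) * j'))
    rw [Finset.card_range] at h3
    refine h3.trans (le_of_eq ?_)
    congr 1
    refine Finset.sum_congr rfl fun v _ => ?_
    congr 1
    refine Finset.sum_congr rfl fun i _ => ?_
    have h4 : x₁ + (t : ℤ) * ((v + s * i : ℕ) : ℤ) = x₁ + t * v + (t * s : ℕ) * i := by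
      push_cast
      ring
    rw [h4]
  have h3 : ∀ v : ℕ, ∑ j ∈ Finset.range m, ∑ j' ∈ Finset.range m,
      (∑ i ∈ Finset.range nb, f (x₁ + t * v + (t * s : ℕ) * i) (u + (t * s : ℕ) * j)
        * f (x₁ + t * v + (t * s : ℕ) * i) (u + (t * s : ℕ) * j')) ^ 2 ≤ (nb : ℝ) ^ 2 * (m : ℝ) ^ 2 * C := by
    intro v
    have h4 := h (x₁ + t * v)
    have h5 := Psd_swap (Finset.range nb) (Finset.range m)
      (fun i j => f (x₁ + t * v + (t * s : ℕ) * i) (u + (t * s : ℕ) * j))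
    beta_reduce at h5
    rw [← h5]
    rw [Bx, div_le_iff₀ (by positivity)] at h4
    linarith
  have h4 : ∑ j ∈ Finset.range m, ∑ j' ∈ Finset.range m,
      (∑ i ∈ Finset.range (s * nb), f (x₁ + t * i) (u + (t * s : ℕ) * j) * f (x₁ + t * i) (u + (t * s : ℕ) * j')) ^ 2
      ≤ s * ∑ v ∈ Finset.range s, ((nb : ℝ) ^ 2 * (m : ℝ) ^ 2 * C) := by
    calc _ ≤ ∑ j ∈ Finset.range m, ∑ j' ∈ Finset.range m, s * ∑ v ∈ Finset.range s,
          (∑ i ∈ Finset.range nb, f (x₁ + t * v + (t * s : ℕ) * i) (u + (t * s : ℕ) * j)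
            * f (x₁ + t * v + (t * s : ℕ) * i) (u + (t * s : ℕ) * j')) ^ 2 :=
          Finset.sum_le_sum fun j _ => Finset.sum_le_sum fun j' _ => h2 j j'
      _ = s * ∑ v ∈ Finset.range s, ∑ j ∈ Finset.range m, ∑ j' ∈ Finset.range m,
          (∑ i ∈ Finset.range nb, f (x₁ + t * v + (t * s : ℕ) * i) (u + (t * s : ℕ) * j)
            * f (x₁ + t * v + (t * s : ℕ) * i) (u + (t * s : ℕ) * j')) ^ 2 := by
          simp only [← Finset.mul_sum]
          congr 1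
          rw [Finset.sum_comm]
          calc _ = ∑ j ∈ Finset.range m, ∑ v ∈ Finset.range s, ∑ j' ∈ Finset.range m,
              (∑ i ∈ Finset.range nb, f (x₁ + t * v + (t * s : ℕ) * i) (u + (t * s : ℕ) * j)
                * f (x₁ + t * v + (t * s : ℕ) * i) (u + (t * s : ℕ) * j')) ^ 2 := by
                rw [Finset.sum_comm]
                exact Finset.sum_congr rfl fun j _ => Finset.sum_comm
            _ = _ := Finset.sum_comm
      _ ≤ _ := by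
          refine mul_le_mul_of_nonneg_left ?_ hs'.le
          exact Finset.sum_le_sum fun v _ => h3 v
  rw [Finset.sum_const, Finset.card_range, nsmul_eq_mul] at h4
  rw [div_div, div_le_iff₀ (by push_cast; positivity)]
  refine h4.trans (le_of_eq ?_)
  push_cast
  ring

private theorem Psd_shift (a : ℤ → ℝ) (X w c : ℕ) (hc : c ≤ w) (ha : ∀ x, (x < 0 ∨ (X : ℤ) ≤ x) → a x = 0) :
    ∑ x ∈ Finset.Ico (-(w : ℤ)) X, a (x + c) = ∑ x ∈ Finset.range X, a x := by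
  have h1 : ∑ x ∈ Finset.range X, a x = ∑ x ∈ Finset.Ico (0 : ℤ) X, a x := by
    refine Finset.sum_bij (fun (x : ℕ) _ => (x : ℤ)) ?_ ?_ ?_ ?_
    · intro x hx
      rw [Finset.mem_range] at hx
      rw [Finset.mem_Ico]
      omega
    · intro x _ y _ hxy
      exact_mod_cast hxy
    · intro x hx
      rw [Finset.mem_Ico] at hx
      exact ⟨x.toNat, by rw [Finset.mem_range]; omega, by omega⟩
    · intro x _
      rfl
  have h2 : ∑ x ∈ Finset.Ico (-(w : ℤ)) X, a (x + c) = ∑ x ∈ Finset.Ico (-(w : ℤ) + c) (X + c), a x := by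
    refine Finset.sum_bij (fun x _ => x + c) ?_ ?_ ?_ ?_
    · intro x hx
      rw [Finset.mem_Ico] at hx ⊢
      omega
    · intro x _ y _ hxy
      beta_reduce at hxy
      omega
    · intro x hx
      rw [Finset.mem_Ico] at hx
      exact ⟨x - c, by rw [Finset.mem_Ico]; omega, by omega⟩
    · intro x _
      rfl
  rw [h1, h2]
  symm
  refine Finset.sum_subset ?_ ?_
  · intro x hx
    rw [Finset.mem_Ico] at hx ⊢
    omega
  · intro x _ hx
    rw [Finset.mem_Ico] at hx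
    refine ha x ?_
    omega

theorem psd2 (f : ℤ → ℤ → ℝ) (H X Z t n : ℕ) (hH : 1 ≤ H) (hX : 1 ≤ X) (hZ : 1 ≤ Z) (ht : 1 ≤ t)
    (hn : 1 ≤ n) (htn : t * n ≤ 8 * H)
    (hsupp : ∀ x z, (x < 0 ∨ (X : ℤ) ≤ x ∨ z < 0 ∨ (Z : ℤ) ≤ z) → f x z = 0) :
    (X : ℝ) ^ 2 * Bx f 0 0 1 X Z / (X + 8 * H) ≤
      (∑ x₁ ∈ Finset.Ico (-((8 * H : ℕ) : ℤ)) X, ∑ i ∈ Finset.range n, ∑ i' ∈ Finset.range n,
        cg f Z (x₁ + t * i) (x₁ + t * i') ^ 2) / (n : ℝ) ^ 2 := by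
  have hn' : (0:ℝ) < n := by exact_mod_cast hn
  have hX' : (0:ℝ) < X := by exact_mod_cast hX
  have hZ' : (0:ℝ) < Z := by exact_mod_cast hZ
  have h0 : ∀ x₁ : ℤ, ∑ i ∈ Finset.range n, ∑ i' ∈ Finset.range n, cg f Z (x₁ + t * i) (x₁ + t * i') ^ 2
      = (∑ z ∈ Finset.range Z, ∑ z' ∈ Finset.range Z,
        (∑ i ∈ Finset.range n, f (x₁ + t * i) z * f (x₁ + t * i) z') ^ 2) / (Z : ℝ) ^ 2 := by
    intro x₁
    have h1 := Psd_swap (Finset.range n) (Finset.range Z) (fun i z => f (x₁ + t * i) z)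
    beta_reduce at h1
    rw [← h1, Finset.sum_div]
    refine Finset.sum_congr rfl fun i _ => ?_
    rw [Finset.sum_div]
    refine Finset.sum_congr rfl fun i' _ => ?_
    rw [cg, div_pow]
  have hB : (X : ℝ) ^ 2 * Bx f 0 0 1 X Z = (∑ z ∈ Finset.range Z, ∑ z' ∈ Finset.range Z,
      (∑ x ∈ Finset.range X, f x z * f x z') ^ 2) / (Z : ℝ) ^ 2 := by
    have h1 := Psd_swap (Finset.range X) (Finset.range Z) (fun x z => f x z)
    beta_reduce at h1
    rw [← h1, Bx]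
    simp only [Nat.cast_one, one_mul, zero_add]
    field_simp
  have hS : ∀ z z' : ℕ, ∑ x₁ ∈ Finset.Ico (-((8 * H : ℕ) : ℤ)) X, ∑ i ∈ Finset.range n,
      f (x₁ + t * i) z * f (x₁ + t * i) z' = n * ∑ x ∈ Finset.range X, f x z * f x z' := by
    intro z z'
    rw [Finset.sum_comm]
    have h1 : ∀ i ∈ Finset.range n, ∑ x₁ ∈ Finset.Ico (-((8 * H : ℕ) : ℤ)) X, f (x₁ + t * i) z * f (x₁ + t * i) z'
        = ∑ x ∈ Finset.range X, f x z * f x z' := by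
      intro i hi
      rw [Finset.mem_range] at hi
      have h2 := Psd_shift (fun x => f x z * f x z') X (8 * H) (t * i) ((Nat.mul_le_mul_left t hi.le).trans htn)
        (fun x hx => by
          beta_reduce
          rw [hsupp x z (by tauto), zero_mul])
      push_cast at h2 ⊢
      exact h2
    rw [Finset.sum_congr rfl h1, Finset.sum_const, Finset.card_range, nsmul_eq_mul]
  have hC : ∀ z z' : ℕ, (n : ℝ) ^ 2 * (∑ x ∈ Finset.range X, f x z * f x z') ^ 2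
      ≤ (X + 8 * H) * ∑ x₁ ∈ Finset.Ico (-((8 * H : ℕ) : ℤ)) X,
        (∑ i ∈ Finset.range n, f (x₁ + t * i) z * f (x₁ + t * i) z') ^ 2 := by
    intro z z'
    have h1 := sq_sum_le_card_mul_sum_sq (s := Finset.Ico (-((8 * H : ℕ) : ℤ)) X)
      (f := fun x₁ => ∑ i ∈ Finset.range n, f (x₁ + t * i) z * f (x₁ + t * i) z')
    rw [hS, mul_pow] at h1
    refine h1.trans (le_of_eq ?_)
    congr 1
    rw [Int.card_Ico]
    have h2 : ((X : ℤ) - -((8 * H : ℕ) : ℤ)).toNat = X + 8 * H := by omega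
    rw [h2]
    push_cast
    ring
  rw [hB, Finset.sum_congr rfl fun x₁ _ => h0 x₁, ← Finset.sum_div, div_div, div_div,
    div_le_div_iff₀ (by positivity) (by positivity)]
  have hsum : (n : ℝ) ^ 2 * ∑ z ∈ Finset.range Z, ∑ z' ∈ Finset.range Z, (∑ x ∈ Finset.range X, f x z * f x z') ^ 2
      ≤ (X + 8 * H) * ∑ x₁ ∈ Finset.Ico (-((8 * H : ℕ) : ℤ)) X, ∑ z ∈ Finset.range Z, ∑ z' ∈ Finset.range Z,
        (∑ i ∈ Finset.range n, f (x₁ + t * i) z * f (x₁ + t * i) z') ^ 2 := by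
    calc _ = ∑ z ∈ Finset.range Z, ∑ z' ∈ Finset.range Z,
          (n : ℝ) ^ 2 * (∑ x ∈ Finset.range X, f x z * f x z') ^ 2 := by simp only [Finset.mul_sum]
      _ ≤ ∑ z ∈ Finset.range Z, ∑ z' ∈ Finset.range Z, (X + 8 * H) *
          ∑ x₁ ∈ Finset.Ico (-((8 * H : ℕ) : ℤ)) X,
            (∑ i ∈ Finset.range n, f (x₁ + t * i) z * f (x₁ + t * i) z') ^ 2 :=
          Finset.sum_le_sum fun z _ => Finset.sum_le_sum fun z' _ => hC z z'
      _ = (X + 8 * H) * ∑ z ∈ Finset.range Z, ∑ z' ∈ Finset.range Z, ∑ x₁ ∈ Finset.Ico (-((8 * H : ℕ) : ℤ)) X,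
            (∑ i ∈ Finset.range n, f (x₁ + t * i) z * f (x₁ + t * i) z') ^ 2 := by
          simp only [← Finset.mul_sum]
      _ = _ := by
          congr 1
          calc _ = ∑ z ∈ Finset.range Z, ∑ x₁ ∈ Finset.Ico (-((8 * H : ℕ) : ℤ)) X, ∑ z' ∈ Finset.range Z,
              (∑ i ∈ Finset.range n, f (x₁ + t * i) z * f (x₁ + t * i) z') ^ 2 :=
                Finset.sum_congr rfl fun z _ => Finset.sum_comm
            _ = _ := Finset.sum_comm
  have hZ2 : (0:ℝ) ≤ (Z : ℝ) ^ 2 := by positivity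
  nlinarith [mul_le_mul_of_nonneg_right hsum hZ2]

end Pool.Agent.AAR
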