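import Pool.Agent.AAR.Bas

/-!
# AAR-Uni: pairs of columns in common windows

Double counting: `x₁ + t i = x`, `x₁ + t i' = x + d`, `i' = i + d / t`, at least `2 H / t` values of `i`.
-/

set_option autoImplicit false

namespace Pool.Agent.AAR

private theorem uni_inner (H X t n : ℕ) (V : ℤ → ℤ → ℝ) (hV : ∀ x x', 0 ≤ V x x')
    (hn1 : t * n ≤ 8 * H) {d i : ℕ} (hi : i < n) (hd : t ∣ d) :
    ∑ x ∈ Finset.range X, V x (x + d) ≤
      ∑ x₁ ∈ Finset.Ico (-((8 * H : ℕ) : ℤ)) X, V (x₁ + t * i) (x₁ + t * ((i + d / t : ℕ) : ℤ)) := by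
  classical
  obtain ⟨e, rfl⟩ := hd
  rcases Nat.eq_zero_or_pos t with h0 | ht
  · subst h0
    have hinj : Set.InjOn (fun x : ℕ => (x : ℤ)) (Finset.range X : Finset ℕ) :=
      fun a _ b _ h => by simpa using h
    have h1 : ∑ x ∈ Finset.range X, V x (x + ((0 * e : ℕ) : ℤ)) =
        ∑ x₁ ∈ (Finset.range X).image (fun x : ℕ => (x : ℤ)), V x₁ x₁ := by
      rw [Finset.sum_image hinj]
      refine Finset.sum_congr rfl fun x _ => ?_
      simp
    rw [h1]
    have h2 : ∀ x₁ : ℤ, V (x₁ + ((0 : ℕ) : ℤ) * i) (x₁ + ((0 : ℕ) : ℤ) * ((i + 0 * e / 0 : ℕ) : ℤ)) =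
        V x₁ x₁ := fun x₁ => by simp
    simp only [h2]
    refine Finset.sum_le_sum_of_subset_of_nonneg ?_ fun x _ _ => hV _ _
    intro x hx
    obtain ⟨a, ha, rfl⟩ := Finset.mem_image.1 hx
    rw [Finset.mem_range] at ha
    rw [Finset.mem_Ico]
    constructor
    · have : (0 : ℤ) ≤ ((8 * H : ℕ) : ℤ) := Int.natCast_nonneg _
      have h3 : (0 : ℤ) ≤ (a : ℤ) := Int.natCast_nonneg _
      linarith
    · exact_mod_cast ha
  · have hinj : Set.InjOn (fun x : ℕ => (x : ℤ) - t * i) (Finset.range X : Finset ℕ) := by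
      intro a _ b _ h
      have h' : (a : ℤ) - t * i = (b : ℤ) - t * i := h
      have : (a : ℤ) = b := by linarith
      exact_mod_cast this
    have hdt : t * e / t = e := Nat.mul_div_cancel_left e ht
    have h1 : ∑ x ∈ Finset.range X, V x (x + ((t * e : ℕ) : ℤ)) =
        ∑ x₁ ∈ (Finset.range X).image (fun x : ℕ => (x : ℤ) - t * i),
          V (x₁ + t * i) (x₁ + t * ((i + t * e / t : ℕ) : ℤ)) := by
      rw [Finset.sum_image hinj]
      refine Finset.sum_congr rfl fun x _ => ?_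
      rw [hdt]
      have e1 : ((x : ℤ) - t * i) + t * i = x := by ring
      have e2 : ((x : ℤ) - t * i) + t * ((i + e : ℕ) : ℤ) = x + ((t * e : ℕ) : ℤ) := by
        push_cast
        ring
      rw [e1, e2]
    rw [h1]
    refine Finset.sum_le_sum_of_subset_of_nonneg ?_ fun x _ _ => hV _ _
    intro x hx
    obtain ⟨a, ha, rfl⟩ := Finset.mem_image.1 hx
    rw [Finset.mem_range] at ha
    rw [Finset.mem_Ico]
    have h3 : (t : ℤ) * i ≤ ((8 * H : ℕ) : ℤ) := by
      have : t * i ≤ 8 * H := (Nat.mul_le_mul_left t hi.le).trans hn1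
      exact_mod_cast this
    have h4 : (0 : ℤ) ≤ (t : ℤ) * i := by positivity
    have h5 : (0 : ℤ) ≤ (a : ℤ) := Int.natCast_nonneg _
    have h6 : (a : ℤ) < X := by exact_mod_cast ha
    constructor
    · linarith
    · linarith

theorem uni (H X t n : ℕ) (V : ℤ → ℤ → ℝ) (hH : 1 ≤ H) (ht : 1 ≤ t) (hV : ∀ x x', 0 ≤ V x x')
    (hn1 : t * n ≤ 8 * H) (hn2 : 6 * H ≤ t * n) :
    ∑ d ∈ (ds H).filter (fun d => t ∣ d), ∑ x ∈ Finset.range X, V x (x + d) ≤
      (t : ℝ) / (2 * H) * ∑ x₁ ∈ Finset.Ico (-((8 * H : ℕ) : ℤ)) X,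
        ∑ i ∈ Finset.range n, ∑ i' ∈ Finset.range n, V (x₁ + t * i) (x₁ + t * i') := by
  classical
  have hH' : (0 : ℝ) < H := by exact_mod_cast hH
  have ht' : (0 : ℝ) < t := by exact_mod_cast ht
  -- the sum over the windows
  obtain ⟨G, hG⟩ : ∃ G : ℕ → ℕ → ℝ, ∀ i i', G i i' =
      ∑ x₁ ∈ Finset.Ico (-((8 * H : ℕ) : ℤ)) X, V (x₁ + t * i) (x₁ + t * i') := ⟨_, fun _ _ => rfl⟩
  have hG0 : ∀ i i', 0 ≤ G i i' := fun i i' => by
    rw [hG]
    exact Finset.sum_nonneg fun x _ => hV _ _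
  have hR : ∑ x₁ ∈ Finset.Ico (-((8 * H : ℕ) : ℤ)) X,
        ∑ i ∈ Finset.range n, ∑ i' ∈ Finset.range n, V (x₁ + t * i) (x₁ + t * i') =
      ∑ i ∈ Finset.range n, ∑ i' ∈ Finset.range n, G i i' := by
    rw [Finset.sum_comm]
    refine Finset.sum_congr rfl fun i _ => ?_
    rw [Finset.sum_comm]
    exact Finset.sum_congr rfl fun i' _ => (hG i i').symm
  rw [hR]
  obtain ⟨D, hD⟩ : ∃ D, D = (ds H).filter (fun d => t ∣ d) := ⟨_, rfl⟩
  rw [← hD]
  -- each pair is counted often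
  have h1 : ∀ d ∈ D, 2 * (H : ℝ) / t * ∑ x ∈ Finset.range X, V x (x + d) ≤
      ∑ i ∈ Finset.range (n - d / t), G i (i + d / t) := by
    intro d hd
    rw [hD, Finset.mem_filter] at hd
    obtain ⟨hd1, hd2⟩ := hd
    have hd3 : d < 4 * H := (Finset.mem_Ioo.1 hd1).2
    have hS : 0 ≤ ∑ x ∈ Finset.range X, V x (x + d) := Finset.sum_nonneg fun x _ => hV _ _
    have h2 : ∑ i ∈ Finset.range (n - d / t), ∑ x ∈ Finset.range X, V x (x + d) ≤
        ∑ i ∈ Finset.range (n - d / t), G i (i + d / t) := by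
      refine Finset.sum_le_sum fun i hi => ?_
      rw [Finset.mem_range] at hi
      rw [hG]
      exact uni_inner H X t n V hV hn1 (lt_of_lt_of_le hi (Nat.sub_le _ _)) hd2
    refine le_trans ?_ h2
    rw [Finset.sum_const, Finset.card_range, nsmul_eq_mul]
    refine mul_le_mul_of_nonneg_right ?_ hS
    rw [div_le_iff₀ ht']
    obtain ⟨e, he⟩ := hd2
    have hdt : d / t = e := by rw [he]; exact Nat.mul_div_cancel_left e (by omega)
    rw [hdt]
    have h3 : 2 * H ≤ (n - e) * t := by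
      have h4 : (n - e) * t = t * n - t * e := by rw [Nat.sub_mul, mul_comm n t, mul_comm e t]
      rw [h4]
      omega
    exact_mod_cast h3
  -- the pairs `(i, i + d / t)` are different
  have h2 : ∑ d ∈ D, ∑ i ∈ Finset.range (n - d / t), G i (i + d / t) ≤
      ∑ i ∈ Finset.range n, ∑ i' ∈ Finset.range n, G i i' := by
    have e1 : ∀ d ∈ D, ∑ i ∈ Finset.range (n - d / t), G i (i + d / t) =
        ∑ i ∈ Finset.range n, if i + d / t < n then G i (i + d / t) else 0 := by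
      intro d _
      rw [← Finset.sum_filter]
      refine Finset.sum_congr ?_ fun _ _ => rfl
      ext i
      rw [Finset.mem_range, Finset.mem_filter, Finset.mem_range]
      generalize d / t = e
      omega
    rw [Finset.sum_congr rfl e1, Finset.sum_comm]
    refine Finset.sum_le_sum fun i _ => ?_
    rw [← Finset.sum_filter]
    have hinj : Set.InjOn (fun d => i + d / t) (D.filter (fun d => i + d / t < n) : Finset ℕ) := by
      intro a ha b hb h
      have ha' := (Finset.mem_filter.1 (Finset.mem_coe.1 ha)).1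
      have hb' := (Finset.mem_filter.1 (Finset.mem_coe.1 hb)).1
      rw [hD, Finset.mem_filter] at ha' hb'
      obtain ⟨u, hu⟩ := ha'.2
      obtain ⟨v, hv⟩ := hb'.2
      have h' : i + a / t = i + b / t := h
      have hu' : a / t = u := by rw [hu]; exact Nat.mul_div_cancel_left u (by omega)
      have hv' : b / t = v := by rw [hv]; exact Nat.mul_div_cancel_left v (by omega)
      have : u = v := by omega
      rw [hu, hv, this]
    rw [← Finset.sum_image (f := fun i' => G i i') hinj]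
    refine Finset.sum_le_sum_of_subset_of_nonneg ?_ fun i' _ _ => hG0 _ _
    intro i' hi'
    obtain ⟨d, hd, rfl⟩ := Finset.mem_image.1 hi'
    exact Finset.mem_range.2 (Finset.mem_filter.1 hd).2
  have h3 : 2 * (H : ℝ) / t * ∑ d ∈ D, ∑ x ∈ Finset.range X, V x (x + d) ≤
      ∑ i ∈ Finset.range n, ∑ i' ∈ Finset.range n, G i i' := by
    rw [Finset.mul_sum]
    exact (Finset.sum_le_sum h1).trans h2
  have h4 : (0 : ℝ) < 2 * H / t := by positivity
  have h5 : (t : ℝ) / (2 * H) = (2 * (H : ℝ) / t)⁻¹ := by rw [inv_div]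
  rw [h5, ← div_eq_inv_mul, le_div_iff₀ h4, mul_comm]
  exact h3

end Pool.Agent.AAR
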