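import Pool.Agent.AAR.Prm
import Pool.Agent.AAR.Psd
import Pool.Agent.AAR.Uni

/-!
# AAR-Ky2: the 5/3 moments of window densities

PLAN.  `wt ≤ H`; `uni` with `V(x,x') = ∑_u cw(u;x,x')^{5/3}`, `n = 8H/t` (`6H ≤ t n ≤ 8H`): left side
`≤ H (t/(2H)) ∑_{x₁} ∑_{i,i'} V`.  Jensen (power mean, `Real.inner_le_nnorm_mul_nnorm`/`Real.arith_mean_le_rpow_mean` or
`ConcaveOn`): the average over `(i,i')` of `cw^{5/3}` is `≤ (average of cw²)^{5/6} ≤ ((1+η)β)^{5/6}` by `psd1` with `s = 1`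
and `c.s1` (`b = t`).  So the left side is `≤ (t/2) n² (X+8H)(Z+tm)((1+η)β)^{5/6} ≤ (32H²/t)(1.01)³ X Z β^{5/6}`,
and `M β^{-1/6} = Z H² X β^{5/6}`.
-/

set_option autoImplicit false

namespace Pool.Agent.AAR

private theorem Ky2_cw_nonneg (p : Par) (f : ℤ → ℤ → ℝ) (c : Cell p f) (b m : ℕ) (u x x' : ℤ) :
    0 ≤ cw f b m u x x' := by
  have hf : ∀ x z, 0 ≤ f x z := by
    intro x z
    rcases c.f01 x z with h | h <;> rw [h] <;> norm_num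
  unfold cw
  refine div_nonneg (Finset.sum_nonneg fun j _ => mul_nonneg (hf _ _) (hf _ _)) (Nat.cast_nonneg _)

private theorem Ky2_mean (n : ℕ) (hn : 1 ≤ n) (a : ℕ → ℕ → ℝ) (ha : ∀ i j, 0 ≤ a i j) (C : ℝ)
    (hC : (∑ i ∈ Finset.range n, ∑ j ∈ Finset.range n, a i j ^ 2) / (n : ℝ) ^ 2 ≤ C) :
    ∑ i ∈ Finset.range n, ∑ j ∈ Finset.range n, a i j ^ (5 / 3 : ℝ) ≤
      (n : ℝ) ^ 2 * C ^ (5 / 6 : ℝ) := by
  have hn0 : (0 : ℝ) < (n : ℝ) := by exact_mod_cast hn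
  have hn2 : (0 : ℝ) < (n : ℝ) ^ 2 := by positivity
  have h := Real.arith_mean_le_rpow_mean (Finset.range n ×ˢ Finset.range n)
    (fun _ => 1 / (n : ℝ) ^ 2) (fun q : ℕ × ℕ => a q.1 q.2 ^ (5 / 3 : ℝ))
    (fun _ _ => by positivity)
    (by
      rw [Finset.sum_const, Finset.card_product, Finset.card_range, nsmul_eq_mul]
      push_cast
      field_simp)
    (fun q _ => Real.rpow_nonneg (ha _ _) _) (p := 6 / 5) (by norm_num)
  rw [← Finset.mul_sum, ← Finset.mul_sum, Finset.sum_product, Finset.sum_product] at h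
  have h2 : ∀ i j, (a i j ^ (5 / 3 : ℝ)) ^ (6 / 5 : ℝ) = a i j ^ 2 := by
    intro i j
    rw [← Real.rpow_mul (ha i j), show (5 / 3 : ℝ) * (6 / 5) = ((2 : ℕ) : ℝ) by norm_num,
      Real.rpow_natCast]
  simp only [h2] at h
  rw [show (1 : ℝ) / (6 / 5) = 5 / 6 by norm_num] at h
  have h3 : (1 / (n : ℝ) ^ 2 * ∑ i ∈ Finset.range n, ∑ j ∈ Finset.range n, a i j ^ 2) ^ (5 / 6 : ℝ) ≤
      C ^ (5 / 6 : ℝ) := by
    refine Real.rpow_le_rpow ?_ ?_ (by norm_num)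
    · exact mul_nonneg (by positivity) (Finset.sum_nonneg fun i _ => Finset.sum_nonneg fun j _ =>
        sq_nonneg _)
    · rw [one_div, inv_mul_eq_div]
      exact hC
  have h4 := h.trans h3
  rw [one_div, inv_mul_le_iff₀ hn2] at h4
  exact h4

theorem ky2 (p : Par) (f : ℤ → ℤ → ℝ) (c : Cell p f) (t : ℕ) (ht : 1 ≤ t) (htQ : t ≤ p.Q2) :
    ∑ d ∈ (ds p.H).filter (fun d => t ∣ d), wt p.H d *
        ∑ x ∈ Finset.range p.X, ∑ u ∈ Finset.Ico (-((t * p.m : ℕ) : ℤ)) p.Z,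
          cw f t p.m u x (x + d) ^ (5 / 3 : ℝ) ≤
      64 * p.M * p.β ^ (-(1 / 6 : ℝ)) / t := by
  classical
  have hH := p.hH
  have hHr : (0 : ℝ) < p.H := p.Hpos
  have ht0 : (0 : ℝ) < (t : ℝ) := by exact_mod_cast ht
  have hβ := p.hβ
  have hη := p.hη
  have hcw := Ky2_cw_nonneg p f c
  obtain ⟨n, hn⟩ : ∃ n : ℕ, n = 8 * p.H / t := ⟨_, rfl⟩
  have hQH := p.hQ2H
  have hn1 : t * n ≤ 8 * p.H := by
    rw [hn]
    exact Nat.mul_div_le _ _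
  have hn2 : 6 * p.H ≤ t * n := by
    have h1 : 8 * p.H < t * n + t := by
      rw [hn]
      exact Nat.lt_mul_div_succ _ (by omega)
    omega
  have hnpos : 1 ≤ n := by
    rcases Nat.eq_zero_or_pos n with h | h
    · rw [h] at hn2
      omega
    · exact h
  have hm1 : 1 ≤ p.m := le_trans (by norm_num) p.m_large
  obtain ⟨V, hV⟩ : ∃ V : ℤ → ℤ → ℝ, V = fun x x' =>
    ∑ u ∈ Finset.Ico (-((t * p.m : ℕ) : ℤ)) p.Z, cw f t p.m u x x' ^ (5 / 3 : ℝ) := ⟨_, rfl⟩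
  have hV0 : ∀ x x', 0 ≤ V x x' := by
    intro x x'
    rw [hV]
    exact Finset.sum_nonneg fun u _ => Real.rpow_nonneg (hcw _ _ _ _ _) _
  have hU := uni p.H p.X t n V hH ht hV0 hn1 hn2
  -- step 1
  have h1 : ∑ d ∈ (ds p.H).filter (fun d => t ∣ d), wt p.H d *
        ∑ x ∈ Finset.range p.X, ∑ u ∈ Finset.Ico (-((t * p.m : ℕ) : ℤ)) p.Z,
          cw f t p.m u x (x + d) ^ (5 / 3 : ℝ) ≤
      (p.H : ℝ) * ∑ d ∈ (ds p.H).filter (fun d => t ∣ d), ∑ x ∈ Finset.range p.X,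
        V x (x + d) := by
    rw [Finset.mul_sum]
    refine Finset.sum_le_sum fun d _ => ?_
    have h2 : ∑ x ∈ Finset.range p.X, ∑ u ∈ Finset.Ico (-((t * p.m : ℕ) : ℤ)) p.Z,
          cw f t p.m u x (x + d) ^ (5 / 3 : ℝ) = ∑ x ∈ Finset.range p.X, V x (x + d) := by
      rw [hV]
    rw [h2]
    refine mul_le_mul_of_nonneg_right ?_ (Finset.sum_nonneg fun x _ => hV0 _ _)
    unfold wt
    linarith [abs_nonneg ((d : ℝ) - 3 * p.H)]
  -- step 2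
  obtain ⟨C, hCdef⟩ : ∃ C : ℝ, C = ((1 + p.η) * p.β) ^ (5 / 6 : ℝ) := ⟨_, rfl⟩
  have hC0 : 0 ≤ C := by
    rw [hCdef]
    exact Real.rpow_nonneg (by positivity) _
  have h2 : ∀ x₁ : ℤ, ∑ i ∈ Finset.range n, ∑ i' ∈ Finset.range n,
      V (x₁ + t * i) (x₁ + t * i') ≤ ((p.Z : ℝ) + t * p.m) * ((n : ℝ) ^ 2 * C) := by
    intro x₁
    have h3 : ∑ i ∈ Finset.range n, ∑ i' ∈ Finset.range n, V (x₁ + t * i) (x₁ + t * i') =
        ∑ u ∈ Finset.Ico (-((t * p.m : ℕ) : ℤ)) p.Z, ∑ i ∈ Finset.range n, ∑ i' ∈ Finset.range n,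
          cw f t p.m u (x₁ + t * i) (x₁ + t * i') ^ (5 / 3 : ℝ) := by
      rw [hV]
      calc ∑ i ∈ Finset.range n, ∑ i' ∈ Finset.range n,
            ∑ u ∈ Finset.Ico (-((t * p.m : ℕ) : ℤ)) p.Z,
              cw f t p.m u (x₁ + t * i) (x₁ + t * i') ^ (5 / 3 : ℝ)
          = ∑ i ∈ Finset.range n, ∑ u ∈ Finset.Ico (-((t * p.m : ℕ) : ℤ)) p.Z,
            ∑ i' ∈ Finset.range n,
              cw f t p.m u (x₁ + t * i) (x₁ + t * i') ^ (5 / 3 : ℝ) :=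
            Finset.sum_congr rfl fun i _ => Finset.sum_comm
        _ = _ := Finset.sum_comm
    have h4 : ∀ u ∈ Finset.Ico (-((t * p.m : ℕ) : ℤ)) p.Z,
        ∑ i ∈ Finset.range n, ∑ i' ∈ Finset.range n,
          cw f t p.m u (x₁ + t * i) (x₁ + t * i') ^ (5 / 3 : ℝ) ≤ (n : ℝ) ^ 2 * C := by
      intro u _
      rw [hCdef]
      refine Ky2_mean n hnpos (fun i i' => cw f t p.m u (x₁ + t * i) (x₁ + t * i'))
        (fun i j => hcw _ _ _ _ _) _ ?_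
      have h5 := psd1 f t 1 n p.m le_rfl hnpos hm1 u x₁ ((1 + p.η) * p.β) (by
        intro x
        rw [mul_one, hn]
        exact c.s1 t ht htQ x u)
      rw [mul_one, one_mul] at h5
      exact h5
    rw [h3]
    refine (Finset.sum_le_sum h4).trans ?_
    rw [Finset.sum_const, Int.card_Ico, nsmul_eq_mul]
    refine mul_le_mul_of_nonneg_right ?_ (by positivity)
    have h6 : ((((p.Z : ℤ) - -((t * p.m : ℕ) : ℤ)).toNat : ℕ) : ℝ) = (p.Z : ℝ) + t * p.m := by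
      have h7 : ((p.Z : ℤ) - -((t * p.m : ℕ) : ℤ)).toNat = p.Z + t * p.m := by omega
      rw [h7]
      push_cast
      ring
    rw [h6]
  have h3 : ∑ x₁ ∈ Finset.Ico (-((8 * p.H : ℕ) : ℤ)) p.X,
        ∑ i ∈ Finset.range n, ∑ i' ∈ Finset.range n, V (x₁ + t * i) (x₁ + t * i') ≤
      ((p.X : ℝ) + 8 * p.H) * (((p.Z : ℝ) + t * p.m) * ((n : ℝ) ^ 2 * C)) := by
    refine (Finset.sum_le_sum fun x₁ _ => h2 x₁).trans ?_
    rw [Finset.sum_const, Int.card_Ico, nsmul_eq_mul]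
    refine mul_le_mul_of_nonneg_right ?_ (by positivity)
    have h7 : ((p.X : ℤ) - -((8 * p.H : ℕ) : ℤ)).toNat = p.X + 8 * p.H := by omega
    rw [h7]
    push_cast
    exact le_rfl
  have h4 : ∑ d ∈ (ds p.H).filter (fun d => t ∣ d), wt p.H d *
        ∑ x ∈ Finset.range p.X, ∑ u ∈ Finset.Ico (-((t * p.m : ℕ) : ℤ)) p.Z,
          cw f t p.m u x (x + d) ^ (5 / 3 : ℝ) ≤
      (p.H : ℝ) * ((t : ℝ) / (2 * p.H) *
        (((p.X : ℝ) + 8 * p.H) * (((p.Z : ℝ) + t * p.m) * ((n : ℝ) ^ 2 * C)))) := by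
    refine h1.trans (mul_le_mul_of_nonneg_left (hU.trans ?_) hHr.le)
    exact mul_le_mul_of_nonneg_left h3 (by positivity)
  refine h4.trans ?_
  -- step 3: numbers
  have hη1 := p.hη1
  have hβ1 := p.hβ1
  have hX0 : (0 : ℝ) < p.X := by exact_mod_cast p.X_one
  have hZ0 : (0 : ℝ) < p.Z := by exact_mod_cast p.Z_one
  have hηβ : p.η * p.β ≤ 1 / 100 := by
    calc p.η * p.β ≤ 1 / 100 * 1 := mul_le_mul hη1 hβ1 hβ.le (by norm_num)
      _ = 1 / 100 := by norm_num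
  have hXe : (p.X : ℝ) + 8 * p.H ≤ 101 / 100 * p.X := by
    have h5 := p.edge_x
    have h6 : p.η * p.β * p.X ≤ 1 / 100 * p.X := mul_le_mul_of_nonneg_right hηβ hX0.le
    linarith
  have hZe : (p.Z : ℝ) + t * p.m ≤ 101 / 100 * p.Z := by
    have h5 := p.edge_m
    have h6 : p.η * p.β * p.Z ≤ 1 / 100 * p.Z := mul_le_mul_of_nonneg_right hηβ hZ0.le
    have h7 : (t : ℝ) * p.m ≤ (p.Q2 : ℝ) * p.m :=
      mul_le_mul_of_nonneg_right (by exact_mod_cast htQ) (Nat.cast_nonneg _)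
    linarith
  have hCe : C ≤ 101 / 100 * p.β ^ (5 / 6 : ℝ) := by
    rw [hCdef, Real.mul_rpow (by linarith) hβ.le]
    refine mul_le_mul_of_nonneg_right ?_ (Real.rpow_nonneg hβ.le _)
    calc (1 + p.η) ^ (5 / 6 : ℝ) ≤ (1 + p.η) ^ (1 : ℝ) :=
          Real.rpow_le_rpow_of_exponent_le (by linarith) (by norm_num)
      _ = 1 + p.η := Real.rpow_one _
      _ ≤ 101 / 100 := by linarith
  have hne : (t : ℝ) * n ≤ 8 * p.H := by exact_mod_cast hn1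
  have hM : p.M * p.β ^ (-(1 / 6 : ℝ)) = (p.Z : ℝ) * (p.H : ℝ) ^ 2 * p.X * p.β ^ (5 / 6 : ℝ) := by
    unfold Par.M
    have h5 : p.β * p.β ^ (-(1 / 6 : ℝ)) = p.β ^ (5 / 6 : ℝ) := by
      nth_rewrite 1 [← Real.rpow_one p.β]
      rw [← Real.rpow_add hβ]
      norm_num
    rw [mul_assoc, h5]
  have hB0 : 0 ≤ p.β ^ (5 / 6 : ℝ) := Real.rpow_nonneg hβ.le _
  rw [mul_assoc 64 p.M, hM]
  rw [le_div_iff₀ ht0]
  have hn0 : (0 : ℝ) ≤ (n : ℝ) := Nat.cast_nonneg _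
  have h5 : ((t : ℝ) * n) ^ 2 ≤ (8 * p.H) ^ 2 := pow_le_pow_left₀ (by positivity) hne 2
  have h6 : (p.H : ℝ) * ((t : ℝ) / (2 * p.H) *
        (((p.X : ℝ) + 8 * p.H) * (((p.Z : ℝ) + t * p.m) * ((n : ℝ) ^ 2 * C)))) * t =
      1 / 2 * (((t : ℝ) * n) ^ 2 * (((p.X : ℝ) + 8 * p.H) * (((p.Z : ℝ) + t * p.m) * C))) := by
    field_simp
  rw [h6]
  have h7 : ((t : ℝ) * n) ^ 2 * (((p.X : ℝ) + 8 * p.H) * (((p.Z : ℝ) + t * p.m) * C)) ≤
      (8 * p.H) ^ 2 * ((101 / 100 * p.X) * ((101 / 100 * p.Z) *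
        (101 / 100 * p.β ^ (5 / 6 : ℝ)))) := by
    refine mul_le_mul h5 (mul_le_mul hXe (mul_le_mul hZe hCe hC0 (by positivity)) (by positivity)
      (by positivity)) (by positivity) (by positivity)
  have h8 : 0 ≤ (p.Z : ℝ) * (p.H : ℝ) ^ 2 * p.X * p.β ^ (5 / 6 : ℝ) := by positivity
  nlinarith [h7, h8]

end Pool.Agent.AAR
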