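import Pool.Agent.AAR.Bas

/-!
# AAR-Lin: linear recurrence

PLAN.  `|S| ≥ ρ H ≥ 100/ρ`, so by pigeonhole (sorted gaps, or intervals of length `⌊2/ρ⌋`) there are
`x, x + q ∈ S` with `1 ≤ q ≤ 2/ρ`, hence `nint (q ψ) ≤ 2 ε`.  Let `τ = q ψ - round (q ψ)`,
`|τ| ≤ 2 ε`; assume `τ ≠ 0`.  Split `S` into residue classes mod `q`; on a class `x = x' + q i`,
`0 ≤ i ≤ H/q`, the values `ψ x + γ` are `c + i τ` mod 1 and run through an interval of length
`≤ H |τ| / q`, within `ε` of at most `H |τ| / q + 2` integers, each of them for at most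
`2 ε / |τ| + 1` values of `i`.  So `|S| ≤ (H |τ| + 2 q)(2 ε/|τ| + 1) ≤ 4 ε H + 2 q + 4 ε q/|τ|`
and, as `4 ε ≤ ρ/16`, `2 q ≤ 4/ρ ≤ ρ H/25`, we get `|τ| ≤ 4.5 ε q/(ρ H) ≤ 9 ε/(ρ² H)`.
-/

set_option autoImplicit false

namespace Pool.Agent.AAR

private theorem card_diff (A : Finset ℤ) (D : ℝ) (hD : 0 ≤ D)
    (h : ∀ a ∈ A, ∀ b ∈ A, (a : ℝ) - b ≤ D) : (A.card : ℝ) ≤ D + 1 := by
  rcases A.eq_empty_or_nonempty with rfl | hne
  · simp only [Finset.card_empty, Nat.cast_zero]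
    linarith
  · have h1 : A ⊆ Finset.Icc (A.min' hne) (A.max' hne) := fun x hx =>
      Finset.mem_Icc.2 ⟨A.min'_le x hx, A.le_max' x hx⟩
    have h2 := Finset.card_le_card h1
    rw [Int.card_Icc] at h2
    have h3 := h _ (A.max'_mem hne) _ (A.min'_mem hne)
    have h4 : (A.card : ℤ) ≤ A.max' hne - A.min' hne + 1 := by
      have := A.min'_le (A.max' hne) (A.max'_mem hne)
      omega
    have h5 : (A.card : ℝ) ≤ (A.max' hne : ℝ) - A.min' hne + 1 := by exact_mod_cast h4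
    linarith

private theorem pigeon (ρ : ℝ) (x₀ : ℤ) (H : ℕ) (S : Finset ℤ) (hρ : 0 < ρ)
    (hH1 : 100 ≤ ρ * H) (hS : S ⊆ Finset.Ico x₀ (x₀ + H)) (hc : ρ * H ≤ S.card) :
    ∃ x ∈ S, ∃ y ∈ S, x < y ∧ (y : ℝ) - x ≤ 2 / ρ := by
  set Q : ℕ := ⌊2 / ρ⌋₊ + 1 with hQ
  have hQ1 : 2 / ρ < Q := by
    rw [hQ]
    push_cast
    exact Nat.lt_floor_add_one _
  have hQ2 : (⌊2 / ρ⌋₊ : ℝ) ≤ 2 / ρ := Nat.floor_le (by positivity)
  have hQ0 : 0 < Q := Nat.succ_pos _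
  have hQpos : (0 : ℝ) < Q := by exact_mod_cast hQ0
  have hcard : (Finset.Icc (0 : ℤ) ((H / Q : ℕ) : ℤ)).card < S.card := by
    rw [Int.card_Icc]
    have h2 : ((H / Q : ℕ) : ℝ) ≤ (H : ℝ) / Q := Nat.cast_div_le
    have h3 : (H : ℝ) / Q ≤ ρ * H / 2 := by
      rw [div_le_iff₀ hQpos]
      have h6 : 2 < ρ * Q := by
        rw [div_lt_iff₀ hρ] at hQ1
        linarith
      have h7 : (0 : ℝ) ≤ H := Nat.cast_nonneg _
      nlinarith
    have h4 : ((H / Q : ℕ) : ℝ) + 1 < S.card := by linarith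
    have h5 : H / Q + 1 < S.card := by exact_mod_cast h4
    have h6 : (((H / Q : ℕ) : ℤ) + 1 - 0).toNat = H / Q + 1 := by
      rw [sub_zero]
      exact Int.toNat_natCast (H / Q + 1)
    rw [h6]
    exact h5
  have hmaps : ∀ x ∈ S, (x - x₀) / (Q : ℤ) ∈ Finset.Icc (0 : ℤ) ((H / Q : ℕ) : ℤ) := by
    intro x hx
    obtain ⟨h1, h2⟩ := Finset.mem_Ico.1 (hS hx)
    rw [Finset.mem_Icc]
    constructor
    · exact Int.ediv_nonneg (by linarith) (by positivity)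
    · rw [Int.natCast_div]
      exact Int.ediv_le_ediv (by exact_mod_cast hQ0) (by linarith)
  obtain ⟨x, hx, y, hy, hne, hf⟩ := Finset.exists_ne_map_eq_of_card_lt_of_maps_to hcard hmaps
  have key : ∀ a b : ℤ, a < b → (a - x₀) / (Q : ℤ) = (b - x₀) / (Q : ℤ) →
      (b : ℝ) - a ≤ 2 / ρ := by
    intro a b _ he
    have hQz : (0 : ℤ) < Q := by exact_mod_cast hQ0
    have e1 := Int.emod_add_mul_ediv (a - x₀) Q
    have e2 := Int.emod_add_mul_ediv (b - x₀) Q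
    have e3 := Int.emod_lt_of_pos (b - x₀) hQz
    have e4 := Int.emod_nonneg (a - x₀) hQz.ne'
    rw [he] at e1
    have e5 : b - a < Q := by linarith
    have e6 : b - a ≤ (⌊2 / ρ⌋₊ : ℤ) := by
      rw [hQ] at e5
      push_cast at e5
      linarith
    have e7 : (b : ℝ) - a ≤ (⌊2 / ρ⌋₊ : ℝ) := by exact_mod_cast e6
    linarith
  rcases lt_or_gt_of_ne hne with hlt | hlt
  · exact ⟨x, hx, y, hy, hlt, key x y hlt hf⟩
  · exact ⟨y, hy, x, hx, hlt, key y x hlt hf.symm⟩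

private theorem class_bound (ψ γ ε τ : ℝ) (R : ℤ) (x₀ : ℤ) (H q : ℕ) (hq : 1 ≤ q)
    (hτ : (q : ℝ) * ψ = R + τ) (hτ0 : τ ≠ 0) (hε0 : 0 ≤ ε) (S : Finset ℤ)
    (hS : S ⊆ Finset.Ico x₀ (x₀ + H)) (h : ∀ x ∈ S, nint (ψ * x + γ) ≤ ε) (r : ℤ) :
    ((S.filter (fun x => x % (q : ℤ) = r)).card : ℝ) ≤
      (H * |τ| / q + 2 * ε + 1) * (2 * ε / |τ| + 1) := by
  have hτp : 0 < |τ| := abs_pos.2 hτ0
  have hqp : (0 : ℝ) < q := by exact_mod_cast hq
  have hqz : (0 : ℤ) < q := by exact_mod_cast hq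
  set B := S.filter (fun x => x % (q : ℤ) = r) with hB
  set n : ℤ → ℤ := fun x => round (ψ * x + γ) - (x / (q : ℤ)) * R with hn
  have hdec : ∀ x ∈ B, |ψ * r + γ + (x / (q : ℤ) : ℤ) * τ - n x| ≤ ε := by
    intro x hx
    obtain ⟨hxS, hxr⟩ := Finset.mem_filter.1 hx
    have h1 := h x hxS
    rw [nint] at h1
    have e1 := Int.emod_add_mul_ediv x q
    rw [hxr] at e1
    have e2 : (x : ℝ) = r + q * ((x / (q : ℤ) : ℤ) : ℝ) := by exact_mod_cast e1.symm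
    have e3 : ψ * x + γ - round (ψ * x + γ) =
        ψ * r + γ + ((x / (q : ℤ) : ℤ) : ℝ) * τ - n x := by
      have e4 : (n x : ℝ) = (round (ψ * x + γ) : ℝ) - ((x / (q : ℤ) : ℤ) : ℝ) * R := by
        simp only [hn]
        push_cast
        ring
      rw [e4]
      have e5 : ψ * (x : ℝ) = ψ * r + ((x / (q : ℤ) : ℤ) : ℝ) * (q * ψ) := by
        rw [e2]
        have : (((r : ℝ) + q * ((x / (q : ℤ) : ℤ) : ℝ))) = x := e2.symm
        ring_nf
      rw [e5, hτ]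
      ring
    rw [← e3]
    exact h1
  -- fibres
  have hfib : ∀ k ∈ B.image n, ((B.filter (fun x => n x = k)).card : ℝ) ≤ 2 * ε / |τ| + 1 := by
    intro k _
    have hinj : Set.InjOn (fun x : ℤ => x / (q : ℤ)) (B.filter (fun x => n x = k)) := by
      intro x hx y hy hxy
      have hx1 := (Finset.mem_filter.1 (Finset.mem_filter.1 hx).1).2
      have hy1 := (Finset.mem_filter.1 (Finset.mem_filter.1 hy).1).2
      have e1 := Int.emod_add_mul_ediv x q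
      have e2 := Int.emod_add_mul_ediv y q
      have hxy' : x / (q : ℤ) = y / (q : ℤ) := hxy
      rw [hx1, hxy'] at e1
      rw [hy1] at e2
      exact e1.symm.trans e2
    rw [← Finset.card_image_of_injOn hinj]
    apply card_diff _ _ (by positivity)
    intro a ha b hb
    obtain ⟨x, hx, rfl⟩ := Finset.mem_image.1 ha
    obtain ⟨y, hy, rfl⟩ := Finset.mem_image.1 hb
    obtain ⟨hx1, hx2⟩ := Finset.mem_filter.1 hx
    obtain ⟨hy1, hy2⟩ := Finset.mem_filter.1 hy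
    have h1 := hdec x hx1
    have h2 := hdec y hy1
    rw [hx2] at h1
    rw [hy2] at h2
    rw [le_div_iff₀ hτp]
    have h3 : (((x / (q : ℤ) : ℤ) : ℝ) - ((y / (q : ℤ) : ℤ) : ℝ)) * τ =
        (ψ * r + γ + ((x / (q : ℤ) : ℤ) : ℝ) * τ - k) -
        (ψ * r + γ + ((y / (q : ℤ) : ℤ) : ℝ) * τ - k) := by ring
    calc (((x / (q : ℤ) : ℤ) : ℝ) - ((y / (q : ℤ) : ℤ) : ℝ)) * |τ|
        ≤ |((x / (q : ℤ) : ℤ) : ℝ) - ((y / (q : ℤ) : ℤ) : ℝ)| * |τ| :=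
          mul_le_mul_of_nonneg_right (le_abs_self _) hτp.le
      _ = |(((x / (q : ℤ) : ℤ) : ℝ) - ((y / (q : ℤ) : ℤ) : ℝ)) * τ| := (abs_mul _ _).symm
      _ ≤ ε + ε := by
          rw [h3]
          exact (abs_sub _ _).trans (add_le_add h1 h2)
      _ = 2 * ε := by ring
  -- image
  have himg : ((B.image n).card : ℝ) ≤ H * |τ| / q + 2 * ε + 1 := by
    apply card_diff _ _ (by positivity)
    intro a ha b hb
    obtain ⟨x, hx, rfl⟩ := Finset.mem_image.1 ha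
    obtain ⟨y, hy, rfl⟩ := Finset.mem_image.1 hb
    have h1 := abs_le.1 (hdec x hx)
    have h2 := abs_le.1 (hdec y hy)
    obtain ⟨hxS, hxr⟩ := Finset.mem_filter.1 hx
    obtain ⟨hyS, hyr⟩ := Finset.mem_filter.1 hy
    obtain ⟨hx3, hx4⟩ := Finset.mem_Ico.1 (hS hxS)
    obtain ⟨hy3, hy4⟩ := Finset.mem_Ico.1 (hS hyS)
    have e1 := Int.emod_add_mul_ediv x q
    have e2 := Int.emod_add_mul_ediv y q
    rw [hxr] at e1
    rw [hyr] at e2
    have e3 : ((q : ℤ) : ℝ) * (((x / (q : ℤ) : ℤ) : ℝ) - ((y / (q : ℤ) : ℤ) : ℝ)) = (x : ℝ) - y := by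
      have : (q : ℤ) * (x / (q : ℤ) - y / (q : ℤ)) = x - y := by
        rw [mul_sub]
        linarith
      exact_mod_cast this
    have e4 : |(x : ℝ) - y| ≤ H := by
      rw [abs_le]
      constructor
      · have : -(H : ℤ) ≤ x - y := by linarith
        exact_mod_cast this
      · have : x - y ≤ (H : ℤ) := by linarith
        exact_mod_cast this
    have e5 : |((x / (q : ℤ) : ℤ) : ℝ) - ((y / (q : ℤ) : ℤ) : ℝ)| ≤ H / q := by
      rw [le_div_iff₀ hqp]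
      rw [← e3, abs_mul] at e4
      have : |((q : ℤ) : ℝ)| = q := by
        rw [Int.cast_natCast]
        exact abs_of_pos hqp
      rw [this] at e4
      linarith
    have e6 : (((x / (q : ℤ) : ℤ) : ℝ) - ((y / (q : ℤ) : ℤ) : ℝ)) * τ ≤ H * |τ| / q := by
      calc (((x / (q : ℤ) : ℤ) : ℝ) - ((y / (q : ℤ) : ℤ) : ℝ)) * τ
          ≤ |(((x / (q : ℤ) : ℤ) : ℝ) - ((y / (q : ℤ) : ℤ) : ℝ)) * τ| := le_abs_self _
        _ = |((x / (q : ℤ) : ℤ) : ℝ) - ((y / (q : ℤ) : ℤ) : ℝ)| * |τ| := abs_mul _ _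
        _ ≤ H / q * |τ| := mul_le_mul_of_nonneg_right e5 hτp.le
        _ = H * |τ| / q := by ring
    linarith [h1.1, h1.2, h2.1, h2.2]
  have hsum : (B.card : ℝ) = ∑ k ∈ B.image n, ((B.filter (fun x => n x = k)).card : ℝ) := by
    have := Finset.card_eq_sum_card_fiberwise (s := B) (t := B.image n) (f := n)
      (fun x hx => Finset.mem_coe.2 (Finset.mem_image_of_mem n hx))
    exact_mod_cast this
  rw [hsum]
  calc ∑ k ∈ B.image n, ((B.filter (fun x => n x = k)).card : ℝ)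
      ≤ ∑ _k ∈ B.image n, (2 * ε / |τ| + 1) := Finset.sum_le_sum hfib
    _ = (B.image n).card * (2 * ε / |τ| + 1) := by rw [Finset.sum_const, nsmul_eq_mul]
    _ ≤ (H * |τ| / q + 2 * ε + 1) * (2 * ε / |τ| + 1) :=
        mul_le_mul_of_nonneg_right himg (by positivity)

theorem lin (ψ γ ε ρ : ℝ) (x₀ : ℤ) (H : ℕ) (S : Finset ℤ) (hρ : 0 < ρ) (hρ1 : ρ ≤ 1)
    (hε0 : 0 ≤ ε) (hε : ε ≤ ρ / 64) (hH : 100 / ρ ^ 2 ≤ H)
    (hS : S ⊆ Finset.Ico x₀ (x₀ + H)) (hc : ρ * H ≤ S.card)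
    (h : ∀ x ∈ S, nint (ψ * x + γ) ≤ ε) :
    ∃ q : ℕ, 1 ≤ q ∧ (q : ℝ) ≤ 2 / ρ ∧ nint (q * ψ) ≤ 16 * ε / (ρ ^ 2 * H) := by
  have hHpos : (0 : ℝ) < H := lt_of_lt_of_le (by positivity) hH
  have hH2 : 100 ≤ ρ ^ 2 * H := by
    rw [div_le_iff₀ (by positivity)] at hH
    linarith
  have hH1 : 100 ≤ ρ * H := by
    have : ρ ^ 2 * H ≤ ρ * H := by
      apply mul_le_mul_of_nonneg_right _ hHpos.le
      nlinarith
    linarith
  obtain ⟨x, hx, y, hy, hlt, hyx⟩ := pigeon ρ x₀ H S hρ hH1 hS hc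
  obtain ⟨q, hq⟩ : ∃ q : ℕ, y - x = q := ⟨(y - x).toNat, by omega⟩
  have hq1 : 1 ≤ q := by omega
  have hqr : (y : ℝ) - x = q := by exact_mod_cast hq
  rw [hqr] at hyx
  refine ⟨q, hq1, hyx, ?_⟩
  have hqp : (0 : ℝ) < q := by exact_mod_cast hq1
  have h2e : nint (q * ψ) ≤ 2 * ε := by
    have e : (q : ℝ) * ψ = (ψ * y + γ) - (ψ * x + γ) := by
      rw [← hqr]
      ring
    rw [e]
    have := nint_sub (ψ * y + γ) (ψ * x + γ)
    linarith [h x hx, h y hy]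
  rw [nint] at h2e ⊢
  set τ := (q : ℝ) * ψ - round ((q : ℝ) * ψ) with hτ
  by_cases hτ0 : τ = 0
  · rw [hτ0, abs_zero]
    positivity
  have hτp : 0 < |τ| := abs_pos.2 hτ0
  have hcls := class_bound ψ γ ε τ (round ((q : ℝ) * ψ)) x₀ H q hq1 (by rw [hτ]; ring) hτ0 hε0 S hS h
  have hqz : (0 : ℤ) < q := by exact_mod_cast hq1
  have hsum : (S.card : ℝ) = ∑ r ∈ Finset.Ico (0 : ℤ) q,
      ((S.filter (fun x => x % (q : ℤ) = r)).card : ℝ) := by
    have := Finset.card_eq_sum_card_fiberwise (s := S) (t := Finset.Ico (0 : ℤ) q)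
      (f := fun x => x % (q : ℤ)) (fun x _ => Finset.mem_coe.2 (Finset.mem_Ico.2
        ⟨Int.emod_nonneg x hqz.ne', Int.emod_lt_of_pos x hqz⟩))
    exact_mod_cast this
  have hS2 : (S.card : ℝ) ≤ q * ((H * |τ| / q + 2 * ε + 1) * (2 * ε / |τ| + 1)) := by
    rw [hsum]
    calc _ ≤ ∑ _r ∈ Finset.Ico (0 : ℤ) q, ((H * |τ| / q + 2 * ε + 1) * (2 * ε / |τ| + 1)) :=
          Finset.sum_le_sum (fun r _ => hcls r)
      _ = _ := by
          rw [Finset.sum_const, nsmul_eq_mul, Int.card_Ico]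
          simp
  have hε1 : ε ≤ 1 / 64 := by linarith
  have e1 : (q : ℝ) * ((H * |τ| / q + 2 * ε + 1) * (2 * ε / |τ| + 1)) =
      2 * ε * H + H * |τ| + (2 * ε + 1) * q + (2 * ε + 1) * q * (2 * ε / |τ|) := by
    field_simp
    ring
  rw [e1] at hS2
  have h3 : H * |τ| ≤ H * (2 * ε) := mul_le_mul_of_nonneg_left h2e hHpos.le
  have h4 : 4 * ε * H ≤ ρ * H / 16 := by nlinarith
  have h5 : (2 * ε + 1) * q ≤ 33 / 32 * (2 / ρ) := by
    apply mul_le_mul (by linarith) hyx hqp.le (by norm_num)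
  have h6 : 33 / 32 * (2 / ρ) ≤ ρ * H * (33 / 1600) := by
    rw [mul_div_assoc', div_le_iff₀ hρ]
    nlinarith
  set w := 2 * ε / |τ| with hw
  have hw0 : 0 ≤ w := by positivity
  have h7 : (2 * ε + 1) * q * w ≤ 33 / 32 * (2 / ρ) * w := mul_le_mul_of_nonneg_right h5 hw0
  have h8 : ρ * H * (9 / 10) ≤ 33 / 32 * (2 / ρ) * w := by
    linarith
  have h9 : ρ ^ 2 * H * (9 / 10) ≤ 33 / 16 * w := by
    have : ρ * (ρ * H * (9 / 10)) ≤ ρ * (33 / 32 * (2 / ρ) * w) :=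
      mul_le_mul_of_nonneg_left h8 hρ.le
    have e : ρ * (33 / 32 * (2 / ρ) * w) = 33 / 16 * w := by
      field_simp
      ring
    rw [e] at this
    linarith
  rw [le_div_iff₀ (by positivity)]
  have h10 : w * |τ| = 2 * ε := by
    rw [hw]
    field_simp
  have h11 : ρ ^ 2 * H * (9 / 10) * |τ| ≤ 33 / 16 * w * |τ| :=
    mul_le_mul_of_nonneg_right h9 hτp.le
  have h12 : 33 / 16 * w * |τ| = 33 / 8 * ε := by
    rw [mul_assoc, h10]
    ring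
  rw [h12] at h11
  nlinarith

end Pool.Agent.AAR
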