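import Pool.Agent.AAR.Prm
import Pool.Agent.AAR.Psv
import Pool.Agent.AAR.Mul

/-!
# AAR-Pw: energies in arcs and variations of window densities

PLAN.  `h = pr f x x'` has values 0, 1 and support in `[0,Z)`.
`arcs_le`: let `C(u) = (1/b) ∑_{v<b} cw(u+v) = (1/(bm)) ∑_{j<bm} h(u+j)`.  `psv` with the kernel of `cw - C` (shifts `b j`, `j < m`,
weight `1/m`, and shifts `j < bm`, weight `-1/(bm)`; `S = 2 b m` or `b m`): `∑_u (cw(u)-C(u))² = (1/P) ∑_n |ĥ|² |D(φ)|²`,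
`D(φ) = (1/m)∑_{j<m} e(φ b j) - (1/(bm)) ∑_{j<bm} e(φ j)`.  On an arc `φ = a/b + θ'` mod 1, `|θ'| ≤ r`: `nint(bφ) ≤ b r`,
`m b r ≤ 1/64` (`r_mul_m`), so the first is `≥ 9/10` (`mulL`), and `nint φ ≥ 1/b - r ≥ 1/(2b)`, so the second is
`≤ 1/m ≤ 1/512` (`mulU`).  Hence `|D|² ≥ 1/2` and `en(arcs) ≤ 2 ∑_u (cw-C)²`.  With `1(u) = ind Z u`, `c = cg`:
`(cw-C)² ≤ 2(cw-c1)² + 2(C-c1)²`, `(C(u)-c1(u))² ≤ (1/b)∑_v (cw(u+v) - c1(u))²`,
`≤ (1/b)∑_v [2(cw(u+v)-c1(u+v))² + 2c²(1(u+v)-1(u))²]`, `∑_u (1(u+v)-1(u))² ≤ 2v`, so `∑_u (C-c1)² ≤ 2 Yv + 2b`.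
Total `2(2 Yv + 2(2 Yv + 2b)) = 12 Yv + 8b`.
`arc0_le`: the same with windows `m` and `μKH = m · (16 Q2 Lam μ)` (both step 1; `C(u)` = average of `cw(u + m v)`): on the set
`nint φ > 1/(24KH)`, so the long multiplier is `≤ 12/μ ≤ 1/20`, and `m r ≤ 1/64`.
`core_ge`: long windows only: `∑_u C(u)² = (1/P) ∑ |ĥ|²|D|² ≤ en(core) + (12/μ)² Z`, and `∑_u C(u) = Z c`, so
`∑_u C(u)² ≥ (Z c)²/(Z + μKH) ≥ Z c² - μKH`.
-/

set_option autoImplicit false

namespace Pool.Agent.AAR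

private theorem pw_shift (g : ℤ → ℝ) (hg : ∀ u, 0 ≤ g u) (A B A' B' v : ℤ)
    (h0 : ∀ u, (u < A' ∨ B' ≤ u) → g u = 0) :
    ∑ u ∈ Finset.Ico A B, g (u + v) ≤ ∑ u ∈ Finset.Ico A' B', g u := by
  have e : ∑ u ∈ Finset.Ico A B, g (u + v) =
      ∑ w ∈ (Finset.Ico A B).map (addRightEmbedding v), g w := by
    rw [Finset.sum_map]; rfl
  rw [e, ← Finset.sum_filter_ne_zero]
  apply Finset.sum_le_sum_of_subset_of_nonneg
  · intro w hw
    rw [Finset.mem_filter] at hw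
    rw [Finset.mem_Ico]
    by_contra hc
    apply hw.2
    apply h0
    omega
  · intros; exact hg _

private theorem pw_shift_eq (g : ℤ → ℝ) (A B A' B' v : ℤ) (hA : A + v ≤ A') (hB : B' ≤ B + v)
    (h0 : ∀ u, (u < A' ∨ B' ≤ u) → g u = 0) :
    ∑ u ∈ Finset.Ico A B, g (u + v) = ∑ u ∈ Finset.Ico A' B', g u := by
  have e : ∑ u ∈ Finset.Ico A B, g (u + v) =
      ∑ w ∈ (Finset.Ico A B).map (addRightEmbedding v), g w := by
    rw [Finset.sum_map]; rfl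
  rw [e]
  symm
  apply Finset.sum_subset
  · intro w hw
    rw [Finset.mem_Ico] at hw
    rw [Finset.mem_map]
    exact ⟨w - v, by rw [Finset.mem_Ico]; omega, by simp⟩
  · intro w _ hw
    apply h0
    rw [Finset.mem_Ico] at hw
    omega

private theorem pw_boole (I J : Finset ℤ) :
    ∑ u ∈ I, (if u ∈ J then (1 : ℝ) else 0) ≤ J.card := by
  rw [Finset.sum_boole]
  exact_mod_cast Finset.card_le_card fun u hu => (Finset.mem_filter.1 hu).2

private theorem pw_ind (Z v : ℕ) (A B : ℤ) :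
    ∑ u ∈ Finset.Ico A B, (ind Z (u + v) - ind Z u) ^ 2 ≤ 2 * v := by
  have h1 : ∀ u : ℤ, (ind Z (u + v) - ind Z u) ^ 2 ≤
      (if u ∈ Finset.Ico (-(v : ℤ)) 0 then (1 : ℝ) else 0) +
        (if u ∈ Finset.Ico ((Z : ℤ) - v) Z then (1 : ℝ) else 0) := by
    intro u
    unfold ind
    simp only [Finset.mem_Ico]
    split_ifs <;> first | (exfalso; omega) | norm_num
  calc _ ≤ ∑ u ∈ Finset.Ico A B, ((if u ∈ Finset.Ico (-(v : ℤ)) 0 then (1 : ℝ) else 0) +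
        (if u ∈ Finset.Ico ((Z : ℤ) - v) Z then (1 : ℝ) else 0)) :=
        Finset.sum_le_sum fun u _ => h1 u
    _ ≤ ((Finset.Ico (-(v : ℤ)) 0).card : ℝ) + ((Finset.Ico ((Z : ℤ) - v) Z).card : ℝ) := by
        rw [Finset.sum_add_distrib]
        exact add_le_add (pw_boole _ _) (pw_boole _ _)
    _ = 2 * v := by
        rw [Int.card_Ico, Int.card_Ico]
        have e1 : ((0 : ℤ) - -(v : ℤ)).toNat = v := by omega
        have e2 : ((Z : ℤ) - ((Z : ℤ) - v)).toNat = v := by omega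
        rw [e1, e2]
        ring

private theorem pw_ind0 (Z : ℕ) (u : ℤ) (h : u < 0 ∨ (Z : ℤ) ≤ u) : ind Z u = 0 := by
  unfold ind
  rw [if_neg]
  omega

private theorem pw_D (Z B S t R : ℕ) (hR : 1 ≤ R) (W : ℤ → ℝ) (c : ℝ) (hc0 : 0 ≤ c) (hc1 : c ≤ 1)
    (hW : ∀ u : ℤ, (u < -(B : ℤ) ∨ (Z : ℤ) ≤ u) → W u = 0) :
    ∑ u ∈ Finset.Ico (-(S : ℤ)) Z,
      (W u - (∑ v ∈ Finset.range R, W (u + ((t * v : ℕ) : ℤ))) / R) ^ 2 ≤
      6 * ∑ u ∈ Finset.Ico (-(B : ℤ)) Z, (W u - c * ind Z u) ^ 2 + 4 * ((t : ℝ) * R) := by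
  have hR0 : (0 : ℝ) < R := by exact_mod_cast hR
  set Y : ℝ := ∑ u ∈ Finset.Ico (-(B : ℤ)) Z, (W u - c * ind Z u) ^ 2 with hY
  have hg0 : ∀ u : ℤ, (u < -(B : ℤ) ∨ (Z : ℤ) ≤ u) → (W u - c * ind Z u) ^ 2 = 0 := by
    intro u hu
    rw [hW u hu, pw_ind0 Z u (by omega)]
    norm_num
  have h1 : ∀ v : ℕ, ∑ u ∈ Finset.Ico (-(S : ℤ)) Z, (W (u + (v : ℤ)) - c * ind Z u) ^ 2 ≤
      2 * Y + 4 * v := by
    intro v
    have hp := pw_shift (fun u => (W u - c * ind Z u) ^ 2) (fun u => sq_nonneg _) (-(S : ℤ)) Z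
      (-(B : ℤ)) Z v hg0
    have hi := pw_ind Z v (-(S : ℤ)) Z
    calc _ ≤ ∑ u ∈ Finset.Ico (-(S : ℤ)) (Z : ℤ),
          (2 * (W (u + (v : ℤ)) - c * ind Z (u + v)) ^ 2 + 2 * (ind Z (u + v) - ind Z u) ^ 2) := by
          refine Finset.sum_le_sum fun u _ => ?_
          set w := W (u + (v : ℤ))
          set i1 := ind Z (u + v)
          set i0 := ind Z u
          have hcc : c ^ 2 ≤ 1 := by nlinarith
          nlinarith [sq_nonneg ((w - c * i1) - c * (i1 - i0)),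
            mul_nonneg (sub_nonneg.2 hcc) (sq_nonneg (i1 - i0))]
      _ = 2 * ∑ u ∈ Finset.Ico (-(S : ℤ)) (Z : ℤ), (W (u + (v : ℤ)) - c * ind Z (u + v)) ^ 2 +
          2 * ∑ u ∈ Finset.Ico (-(S : ℤ)) (Z : ℤ), (ind Z (u + v) - ind Z u) ^ 2 := by
          rw [Finset.sum_add_distrib, Finset.mul_sum, Finset.mul_sum]
      _ ≤ 2 * Y + 2 * (2 * v) := by
          refine add_le_add (mul_le_mul_of_nonneg_left hp (by norm_num))
            (mul_le_mul_of_nonneg_left hi (by norm_num))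
      _ = _ := by ring
  set C : ℤ → ℝ := fun u => (∑ v ∈ Finset.range R, W (u + ((t * v : ℕ) : ℤ))) / R with hC
  have h2 : ∀ u : ℤ, (C u - c * ind Z u) ^ 2 ≤
      (∑ v ∈ Finset.range R, (W (u + ((t * v : ℕ) : ℤ)) - c * ind Z u) ^ 2) / R := by
    intro u
    have e : C u - c * ind Z u =
        (∑ v ∈ Finset.range R, (W (u + ((t * v : ℕ) : ℤ)) - c * ind Z u)) / R := by
      rw [hC, Finset.sum_sub_distrib, Finset.sum_const, Finset.card_range, nsmul_eq_mul]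
      field_simp
    have hcs := sq_sum_le_card_mul_sum_sq (s := Finset.range R)
      (f := fun v => W (u + ((t * v : ℕ) : ℤ)) - c * ind Z u)
    rw [Finset.card_range] at hcs
    rw [e, div_pow, div_le_div_iff₀ (by positivity) hR0]
    calc _ ≤ ((R : ℝ) * ∑ v ∈ Finset.range R,
          (W (u + ((t * v : ℕ) : ℤ)) - c * ind Z u) ^ 2) * R :=
          mul_le_mul_of_nonneg_right hcs hR0.le
      _ = _ := by ring
  have h3 : ∑ u ∈ Finset.Ico (-(S : ℤ)) (Z : ℤ), (C u - c * ind Z u) ^ 2 ≤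
      2 * Y + 2 * ((t : ℝ) * R) := by
    calc _ ≤ ∑ u ∈ Finset.Ico (-(S : ℤ)) (Z : ℤ),
          (∑ v ∈ Finset.range R, (W (u + ((t * v : ℕ) : ℤ)) - c * ind Z u) ^ 2) / R :=
          Finset.sum_le_sum fun u _ => h2 u
      _ = (∑ v ∈ Finset.range R, ∑ u ∈ Finset.Ico (-(S : ℤ)) (Z : ℤ),
          (W (u + ((t * v : ℕ) : ℤ)) - c * ind Z u) ^ 2) / R := by
          rw [← Finset.sum_div, Finset.sum_comm]
      _ ≤ (∑ v ∈ Finset.range R, (2 * Y + 4 * ((t * v : ℕ) : ℝ))) / R := by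
          refine div_le_div_of_nonneg_right ?_ hR0.le
          exact Finset.sum_le_sum fun v _ => h1 (t * v)
      _ ≤ 2 * Y + 2 * ((t : ℝ) * R) := by
          rw [div_le_iff₀ hR0, Finset.sum_add_distrib, Finset.sum_const, Finset.card_range,
            nsmul_eq_mul]
          have e2 : ∑ v ∈ Finset.range R, 4 * ((t * v : ℕ) : ℝ) =
              2 * t * (((∑ v ∈ Finset.range R, v) * 2 : ℕ) : ℝ) := by
            push_cast
            rw [← Finset.mul_sum, ← Finset.mul_sum]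
            ring
          rw [e2, Finset.sum_range_id_mul_two]
          have e3 : ((R * (R - 1) : ℕ) : ℝ) ≤ (R : ℝ) * R := by
            have : R * (R - 1) ≤ R * R := Nat.mul_le_mul_left _ (Nat.sub_le _ _)
            exact_mod_cast this
          have ht : (0 : ℝ) ≤ 2 * t := by positivity
          have := mul_le_mul_of_nonneg_left e3 ht
          nlinarith
  have h4 : ∑ u ∈ Finset.Ico (-(S : ℤ)) (Z : ℤ), (W u - c * ind Z u) ^ 2 ≤ Y := by
    have hp := pw_shift (fun u => (W u - c * ind Z u) ^ 2) (fun u => sq_nonneg _) (-(S : ℤ)) Z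
      (-(B : ℤ)) Z 0 hg0
    simpa using hp
  calc _ ≤ ∑ u ∈ Finset.Ico (-(S : ℤ)) (Z : ℤ),
        (2 * (W u - c * ind Z u) ^ 2 + 2 * (C u - c * ind Z u) ^ 2) := by
        refine Finset.sum_le_sum fun u _ => ?_
        have : (W u - C u) ^ 2 ≤ 2 * (W u - c * ind Z u) ^ 2 + 2 * (C u - c * ind Z u) ^ 2 := by
          nlinarith [sq_nonneg ((W u - c * ind Z u) + (C u - c * ind Z u))]
        exact this
    _ = 2 * ∑ u ∈ Finset.Ico (-(S : ℤ)) (Z : ℤ), (W u - c * ind Z u) ^ 2 +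
        2 * ∑ u ∈ Finset.Ico (-(S : ℤ)) (Z : ℤ), (C u - c * ind Z u) ^ 2 := by
        rw [Finset.sum_add_distrib, Finset.mul_sum, Finset.mul_sum]
    _ ≤ 2 * Y + 2 * (2 * Y + 2 * ((t : ℝ) * R)) :=
        add_le_add (mul_le_mul_of_nonneg_left h4 (by norm_num))
          (mul_le_mul_of_nonneg_left h3 (by norm_num))
    _ = _ := by ring

private theorem pw_P (Z P S m N b : ℕ) (h : ℤ → ℝ)
    (hs : ∀ z : ℤ, (z < 0 ∨ (Z : ℤ) ≤ z) → h z = 0)
    (hbS : b * m ≤ S) (hNS : N ≤ S) (hP1 : 1 ≤ P) (hP : Z + S ≤ P)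
    (E : Finset ℕ) (hE : E ⊆ Finset.range P)
    (h1 : ∀ n ∈ E, 9 / 10 ≤ ‖(∑ j ∈ Finset.range m, ee ((b : ℝ) * ((n : ℝ) / P) * j)) / m‖)
    (h2 : ∀ n ∈ E, ‖(∑ j ∈ Finset.range N, ee (((n : ℝ) / P) * j)) / N‖ ≤ 1 / 20) :
    en Z P h E ≤ 2 * ∑ u ∈ Finset.Ico (-(S : ℤ)) Z,
      ((∑ j ∈ Finset.range m, h (u + b * j)) / m - (∑ j ∈ Finset.range N, h (u + j)) / N) ^ 2 := by
  have hPr : (0 : ℝ) < P := by exact_mod_cast hP1
  set s : ℕ → ℕ := fun j => if j < m then b * j else j - m with hsd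
  set κ : ℕ → ℂ := fun j => if j < m then 1 / (m : ℂ) else -1 / (N : ℂ) with hκ
  have hsS : ∀ j < m + N, s j ≤ S := by
    intro j hj
    rw [hsd]
    dsimp only
    split_ifs with hjm
    · exact (Nat.mul_le_mul_left _ hjm.le).trans hbS
    · omega
  have hpsv := psv Z P S (m + N) h hs s hsS κ hP1 hP
  have split : ∀ F : ℕ → ℂ, ∑ j ∈ Finset.range (m + N), κ j * F (s j) =
      (∑ j ∈ Finset.range m, F (b * j)) / m - (∑ j ∈ Finset.range N, F j) / N := by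
    intro F
    rw [Finset.sum_range_add, Finset.sum_div, Finset.sum_div, sub_eq_add_neg,
      ← Finset.sum_neg_distrib]
    congr 1
    · refine Finset.sum_congr rfl fun j hj => ?_
      have hj' : j < m := Finset.mem_range.1 hj
      rw [hκ, hsd]
      simp only [hj', if_true]
      ring
    · refine Finset.sum_congr rfl fun j _ => ?_
      have hj' : ¬ (m + j < m) := by omega
      rw [hκ, hsd]
      simp only [hj', if_false, Nat.add_sub_cancel_left]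
      ring
  have eR : ∀ u : ℤ, ‖∑ j ∈ Finset.range (m + N), κ j * (h (u + s j) : ℂ)‖ ^ 2 =
      ((∑ j ∈ Finset.range m, h (u + b * j)) / m - (∑ j ∈ Finset.range N, h (u + j)) / N) ^ 2 := by
    intro u
    rw [split (fun k => (h (u + (k : ℤ)) : ℂ))]
    have : (∑ j ∈ Finset.range m, (h (u + ((b * j : ℕ) : ℤ)) : ℂ)) / m -
        (∑ j ∈ Finset.range N, (h (u + (j : ℤ)) : ℂ)) / N =
        (((∑ j ∈ Finset.range m, h (u + b * j)) / m -
          (∑ j ∈ Finset.range N, h (u + j)) / N : ℝ) : ℂ) := by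
      push_cast
      rfl
    rw [this, Complex.norm_real, Real.norm_eq_abs, sq_abs]
  rw [Finset.sum_congr rfl fun u _ => eR u] at hpsv
  rw [← hpsv, en]
  have key : ∀ n ∈ E, ‖fh Z h ((n : ℝ) / P)‖ ^ 2 ≤
      2 * (‖fh Z h ((n : ℝ) / P)‖ ^ 2 *
        ‖∑ j ∈ Finset.range (m + N), κ j * ee ((n : ℝ) / P * s j)‖ ^ 2) := by
    intro n hn
    have e1 := split (fun k => ee ((n : ℝ) / P * (k : ℝ)))
    rw [e1]
    have e2 : ∑ j ∈ Finset.range m, ee ((n : ℝ) / P * ((b * j : ℕ) : ℝ)) =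
        ∑ j ∈ Finset.range m, ee ((b : ℝ) * ((n : ℝ) / P) * j) := by
      refine Finset.sum_congr rfl fun j _ => ?_
      congr 1
      push_cast
      ring
    rw [e2]
    set z1 := (∑ j ∈ Finset.range m, ee ((b : ℝ) * ((n : ℝ) / P) * j)) / (m : ℂ) with hz1
    set z2 := (∑ j ∈ Finset.range N, ee (((n : ℝ) / P) * j)) / (N : ℂ) with hz2
    have h3 : 17 / 20 ≤ ‖z1 - z2‖ := by
      have := norm_sub_norm_le z1 z2
      have a1 := h1 n hn
      have a2 := h2 n hn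
      rw [← hz1] at a1
      rw [← hz2] at a2
      linarith
    have h4 : (1 : ℝ) ≤ 2 * ‖z1 - z2‖ ^ 2 := by nlinarith
    have h5 : 0 ≤ ‖fh Z h ((n : ℝ) / P)‖ ^ 2 := by positivity
    nlinarith
  rw [← mul_div_assoc]
  refine div_le_div_of_nonneg_right ?_ hPr.le
  rw [Finset.mul_sum]
  calc _ ≤ ∑ n ∈ E, 2 * (‖fh Z h ((n : ℝ) / P)‖ ^ 2 *
        ‖∑ j ∈ Finset.range (m + N), κ j * ee ((n : ℝ) / P * s j)‖ ^ 2) := Finset.sum_le_sum key
    _ ≤ _ := Finset.sum_le_sum_of_subset_of_nonneg hE fun n _ _ => by positivity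

private theorem pw_reidx (a k : ℕ) (g : ℕ → ℝ) :
    ∑ j ∈ Finset.range (a * k), g j = ∑ i ∈ Finset.range k, ∑ v ∈ Finset.range a, g (a * i + v) := by
  induction k with
  | zero => simp
  | succ k ih => rw [Nat.mul_succ, Finset.sum_range_add, ih, Finset.sum_range_succ]

private theorem pw_h01 (p : Par) (f : ℤ → ℤ → ℝ) (c : Cell p f) (x x' z : ℤ) :
    pr f x x' z = 0 ∨ pr f x x' z = 1 := by
  rw [pr]
  rcases c.f01 x z with h | h <;> rcases c.f01 x' z with h' | h' <;> rw [h, h'] <;> norm_num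

private theorem pw_hs (p : Par) (f : ℤ → ℤ → ℝ) (c : Cell p f) (x x' z : ℤ)
    (h : z < 0 ∨ (p.Z : ℤ) ≤ z) : pr f x x' z = 0 := by
  rw [pr, c.supp x z (Or.inr (Or.inr h)), zero_mul]

private theorem pw_c (p : Par) (f : ℤ → ℤ → ℝ) (c : Cell p f) (x x' : ℤ) :
    0 ≤ cg f p.Z x x' ∧ cg f p.Z x x' ≤ 1 := by
  have hZ : (0 : ℝ) < p.Z := by exact_mod_cast p.Z_one
  have h01 : ∀ z : ℤ, 0 ≤ f x z * f x' z ∧ f x z * f x' z ≤ 1 := fun z => by
    rcases pw_h01 p f c x x' z with h | h <;> rw [pr] at h <;> rw [h] <;> norm_num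
  rw [cg]
  constructor
  · exact div_nonneg (Finset.sum_nonneg fun z _ => (h01 z).1) hZ.le
  · rw [div_le_one hZ]
    calc _ ≤ ∑ z ∈ Finset.range p.Z, (1 : ℝ) := Finset.sum_le_sum fun z _ => (h01 z).2
      _ = _ := by simp

private theorem pw_cw0 (p : Par) (f : ℤ → ℤ → ℝ) (c : Cell p f) (x x' : ℤ) (b m : ℕ) (u : ℤ)
    (hu : u < -((b * m : ℕ) : ℤ) ∨ (p.Z : ℤ) ≤ u) : cw f b m u x x' = 0 := by
  rw [cw, Finset.sum_eq_zero, zero_div]
  intro j hj
  have hj' : j < m := Finset.mem_range.1 hj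
  have : (b : ℤ) * j ≤ ((b * m : ℕ) : ℤ) := by
    have := Nat.mul_le_mul_left b hj'.le
    exact_mod_cast this
  have h0 : (0 : ℤ) ≤ (b : ℤ) * j := by positivity
  exact pw_hs p f c x x' _ (by omega)

private theorem pw_mem_arcs (P : ℕ) (r : ℝ) (b n : ℕ) (h : n ∈ arcs P r b) :
    n ∈ Finset.range P ∧ ∃ a : ℤ, IsCoprime a (b : ℤ) ∧ nint ((n : ℝ) / P - (a : ℝ) / b) ≤ r := by
  classical
  rw [arcs, Finset.mem_filter] at h
  exact h

private theorem pw_mem_arc (P : ℕ) (r : ℝ) (n : ℕ) :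
    n ∈ arc P r 1 0 ↔ n ∈ Finset.range P ∧ nint ((n : ℝ) / P) ≤ r := by
  classical
  rw [arc, Finset.mem_filter]
  simp

theorem arcs_le (p : Par) (f : ℤ → ℤ → ℝ) (c : Cell p f) (x x' : ℤ) (b : ℕ) (hb : 2 ≤ b)
    (hbQ : b ≤ p.Q2) :
    en p.Z p.P (pr f x x') (arcs p.P p.r b) ≤ 12 * Yv f p.Z b p.m x x' + 8 * b := by
  have hP1 := p.P_one
  have hZP := p.Z_le_P
  have hm := p.m_large
  have hmR : (512 : ℝ) ≤ p.m := by exact_mod_cast hm
  have hbR : (2 : ℝ) ≤ b := by exact_mod_cast hb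
  have hbQR : (b : ℝ) ≤ p.Q2 := by exact_mod_cast hbQ
  have hr := p.r_pos
  have hrm := p.r_mul_m
  have hbm : b * p.m ≤ p.Q2 * p.m := Nat.mul_le_mul_right _ hbQ
  have hE : arcs p.P p.r b ⊆ Finset.range p.P := by
    intro n hn
    exact (pw_mem_arcs _ _ _ _ hn).1
  have hr2 : p.r ≤ 1 / (2 * b) := by
    have h1 := p.r_small2
    have hH : (1 : ℝ) ≤ p.H := by exact_mod_cast p.hH
    rw [le_div_iff₀ (by linarith)]
    have hQ : (2 : ℝ) ≤ p.Q2 := hbR.trans hbQR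
    have h2 : p.r ≤ p.H * p.r := by nlinarith
    have h3 : (p.Q2 : ℝ) ≤ p.Q2 ^ 2 := by nlinarith
    have h4 : (p.Q2 : ℝ) * (p.H * p.r) ≤ p.Q2 ^ 2 * (p.H * p.r) :=
      mul_le_mul_of_nonneg_right h3 (by positivity)
    have h5 : (b : ℝ) * p.r ≤ p.Q2 * (p.H * p.r) :=
      mul_le_mul hbQR h2 hr.le (by linarith)
    nlinarith
  have key := pw_P p.Z p.P (b * p.m) p.m (b * p.m) b (pr f x x') (pw_hs p f c x x') le_rfl le_rfl
    hP1 (by omega) (arcs p.P p.r b) hE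
    (by
      intro n hn
      obtain ⟨_, a, _, ha⟩ := pw_mem_arcs _ _ _ _ hn
      apply mulL p.m (by omega)
      have e : (b : ℝ) * ((n : ℝ) / p.P) = (b : ℝ) * ((n : ℝ) / p.P - (a : ℝ) / b) + a := by
        field_simp
        ring
      rw [e, nint_add_int]
      have h1 := nint_mul_nat b ((n : ℝ) / p.P - (a : ℝ) / b)
      have h2 : (b : ℝ) * nint ((n : ℝ) / p.P - (a : ℝ) / b) ≤ p.Q2 * p.r :=
        mul_le_mul hbQR ha (nint_nonneg _) (by linarith)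
      calc (p.m : ℝ) * nint ((b : ℝ) * ((n : ℝ) / p.P - (a : ℝ) / b)) ≤ p.m * (p.Q2 * p.r) :=
            mul_le_mul_of_nonneg_left (h1.trans h2) (by linarith)
        _ = 1 / 64 := by linarith)
    (by
      intro n hn
      obtain ⟨_, a, hab, ha⟩ := pw_mem_arcs _ _ _ _ hn
      have h1 : 1 / (b : ℝ) ≤ nint ((a : ℝ) / b) := by
        rw [nint]
        set k := round ((a : ℝ) / b)
        have hne : a - b * k ≠ 0 := by
          intro h0
          have hd : (b : ℤ) ∣ a := ⟨k, by linarith⟩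
          have := hab.isUnit_of_dvd' hd dvd_rfl
          rw [Int.isUnit_iff] at this
          omega
        have h1 : (1 : ℝ) ≤ |(a : ℝ) - b * k| := by
          have : (1 : ℤ) ≤ |a - b * k| := Int.one_le_abs hne
          exact_mod_cast this
        have e : (a : ℝ) / b - k = ((a : ℝ) - b * k) / b := by field_simp
        rw [e, abs_div, abs_of_pos (by linarith : (0 : ℝ) < b)]
        exact div_le_div_of_nonneg_right h1 (by linarith)
      have h2 : nint ((a : ℝ) / b) ≤ nint ((n : ℝ) / p.P) + nint ((n : ℝ) / p.P - (a : ℝ) / b) := by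
        have := nint_sub ((n : ℝ) / p.P) ((n : ℝ) / p.P - (a : ℝ) / b)
        rwa [sub_sub_cancel] at this
      have h3 : 1 / (2 * (b : ℝ)) ≤ nint ((n : ℝ) / p.P) := by
        have e : 1 / (b : ℝ) = 1 / (2 * b) + 1 / (2 * b) := by field_simp; norm_num
        linarith
      have hpos : 0 < nint ((n : ℝ) / p.P) := lt_of_lt_of_le (by positivity) h3
      have hU := mulU (b * p.m) (by nlinarith) ((n : ℝ) / p.P) hpos
      refine hU.trans ?_
      rw [div_le_div_iff₀ (by push_cast; positivity) (by norm_num)]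
      push_cast
      have h4 : (1 : ℝ) ≤ 2 * b * nint ((n : ℝ) / p.P) := by
        rw [div_le_iff₀ (by linarith)] at h3
        linarith
      nlinarith)
  have hD := pw_D p.Z (b * p.m) (b * p.m) 1 b (by omega) (fun u => cw f b p.m u x x')
    (cg f p.Z x x') (pw_c p f c x x').1 (pw_c p f c x x').2 (pw_cw0 p f c x x' b p.m)
  have e : ∀ u : ℤ, (∑ j ∈ Finset.range p.m, pr f x x' (u + b * j)) / (p.m : ℝ) -
      (∑ j ∈ Finset.range (b * p.m), pr f x x' (u + j)) / ((b * p.m : ℕ) : ℝ) =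
      cw f b p.m u x x' - (∑ v ∈ Finset.range b, cw f b p.m (u + ((1 * v : ℕ) : ℤ)) x x') / b := by
    intro u
    congr 1
    rw [pw_reidx, Finset.sum_comm]
    simp only [cw]
    rw [← Finset.sum_div, div_div]
    push_cast
    rw [mul_comm (p.m : ℝ) (b : ℝ)]
    congr 1
    refine Finset.sum_congr rfl fun v _ => Finset.sum_congr rfl fun i _ => ?_
    rw [pr]
    have : u + ((b : ℤ) * i + v) = u + 1 * (v : ℤ) + b * i := by ring
    rw [this]
  rw [Finset.sum_congr rfl fun u _ => by rw [e u]] at key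
  rw [Yv]
  push_cast at key hD ⊢
  linarith

private theorem pw_μ (p : Par) : p.μ * p.K * p.H = (16 * p.Q2 * p.Lam * p.μ) * p.m := by
  rw [mul_assoc, ← p.hm]
  ring

private theorem pw_N (p : Par) : 1 ≤ p.μ * p.K * p.H := by
  have h1 := p.hμ
  have h2 := p.hK
  have h3 := p.hH
  have : 0 < p.μ * p.K * p.H := by positivity
  omega

private theorem pw_long (p : Par) (φ : ℝ) (h : 1 / (24 * (p.K : ℝ) * p.H) < nint φ) :
    ‖(∑ j ∈ Finset.range (p.μ * p.K * p.H), ee (φ * j)) / ((p.μ * p.K * p.H : ℕ) : ℂ)‖ ≤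
      12 / (p.μ : ℝ) := by
  have hK : (1 : ℝ) ≤ p.K := by exact_mod_cast p.hK
  have hH : (1 : ℝ) ≤ p.H := by exact_mod_cast p.hH
  have hμ : (240 : ℝ) ≤ p.μ := by exact_mod_cast p.hμ
  have hpos : 0 < nint φ := lt_trans (by positivity) h
  refine (mulU _ (pw_N p) φ hpos).trans ?_
  rw [div_lt_iff₀ (by positivity)] at h
  push_cast
  rw [div_le_div_iff₀ (by positivity) (by linarith)]
  nlinarith

theorem arc0_le (p : Par) (f : ℤ → ℤ → ℝ) (c : Cell p f) (x x' : ℤ) :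
    en p.Z p.P (pr f x x') (arc p.P p.r 1 0 \ arc p.P (1 / (24 * p.K * p.H)) 1 0) ≤
      12 * Yv f p.Z 1 p.m x x' + 8 * (p.μ * p.K * p.H) := by
  have hP1 := p.P_one
  have hZP := p.Z_le_P
  have hm := p.m_large
  have hmR : (512 : ℝ) ≤ p.m := by exact_mod_cast hm
  have hQ : (2 : ℝ) ≤ p.Q2 := by exact_mod_cast p.hQ2
  have hr := p.r_pos
  have hrm := p.r_mul_m
  have hN := pw_N p
  have hμN := pw_μ p
  have hR1 : 1 ≤ 16 * p.Q2 * p.Lam * p.μ := by
    by_contra hc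
    have : 16 * p.Q2 * p.Lam * p.μ = 0 := by omega
    rw [hμN, this] at hN
    omega
  have hmN : p.m ≤ p.μ * p.K * p.H := by
    rw [hμN]
    exact Nat.le_mul_of_pos_left _ hR1
  have hE : arc p.P p.r 1 0 \ arc p.P (1 / (24 * p.K * p.H)) 1 0 ⊆ Finset.range p.P := by
    intro n hn
    exact ((pw_mem_arc _ _ _).1 (Finset.mem_sdiff.1 hn).1).1
  have key := pw_P p.Z p.P (p.μ * p.K * p.H) p.m (p.μ * p.K * p.H) 1 (pr f x x')
    (pw_hs p f c x x') (by omega) le_rfl hP1 (by omega)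
    (arc p.P p.r 1 0 \ arc p.P (1 / (24 * p.K * p.H)) 1 0) hE
    (by
      intro n hn
      have hn1 := ((pw_mem_arc _ _ _).1 (Finset.mem_sdiff.1 hn).1).2
      apply mulL p.m (by omega)
      rw [Nat.cast_one, one_mul]
      have h1 : (p.m : ℝ) * nint ((n : ℝ) / p.P) ≤ p.m * p.r :=
        mul_le_mul_of_nonneg_left hn1 (by linarith)
      have h2 : 0 < p.r * p.m := by positivity
      nlinarith)
    (by
      intro n hn
      obtain ⟨hn1, hn2⟩ := Finset.mem_sdiff.1 hn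
      have hn3 : 1 / (24 * (p.K : ℝ) * p.H) < nint ((n : ℝ) / p.P) := by
        by_contra hc
        exact hn2 ((pw_mem_arc _ _ _).2 ⟨((pw_mem_arc _ _ _).1 hn1).1, not_lt.1 hc⟩)
      refine (pw_long p _ hn3).trans ?_
      have hμ : (240 : ℝ) ≤ p.μ := by exact_mod_cast p.hμ
      rw [div_le_div_iff₀ (by linarith) (by norm_num)]
      linarith)
  have hD := pw_D p.Z (1 * p.m) (p.μ * p.K * p.H) p.m (16 * p.Q2 * p.Lam * p.μ) hR1
    (fun u => cw f 1 p.m u x x')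
    (cg f p.Z x x') (pw_c p f c x x').1 (pw_c p f c x x').2 (pw_cw0 p f c x x' 1 p.m)
  have e : ∀ u : ℤ, (∑ j ∈ Finset.range p.m, pr f x x' (u + ((1 : ℕ) : ℤ) * j)) / (p.m : ℝ) -
      (∑ j ∈ Finset.range (p.μ * p.K * p.H), pr f x x' (u + j)) / ((p.μ * p.K * p.H : ℕ) : ℝ) =
      cw f 1 p.m u x x' - (∑ v ∈ Finset.range (16 * p.Q2 * p.Lam * p.μ),
        cw f 1 p.m (u + ((p.m * v : ℕ) : ℤ)) x x') / ((16 * p.Q2 * p.Lam * p.μ : ℕ) : ℝ) := by
    intro u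
    congr 1
    rw [hμN, mul_comm (16 * p.Q2 * p.Lam * p.μ) p.m, pw_reidx]
    simp only [cw]
    rw [← Finset.sum_div, div_div, Nat.cast_mul p.m (16 * p.Q2 * p.Lam * p.μ)]
    congr 1
    refine Finset.sum_congr rfl fun v _ => Finset.sum_congr rfl fun i _ => ?_
    rw [pr]
    have : u + (((p.m * v + i : ℕ)) : ℤ) = u + ((p.m * v : ℕ) : ℤ) + ((1 : ℕ) : ℤ) * i := by
      push_cast
      ring
    rw [this]
  rw [Finset.sum_congr rfl fun u _ => by rw [e u]] at key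
  rw [Yv]
  have hμNR : ((p.m : ℕ) : ℝ) * ((16 * p.Q2 * p.Lam * p.μ : ℕ) : ℝ) = p.μ * p.K * p.H := by
    have : p.m * (16 * p.Q2 * p.Lam * p.μ) = p.μ * p.K * p.H := by rw [hμN]; ring
    exact_mod_cast this
  rw [hμNR] at hD
  linarith

private theorem pw_intsum (Z : ℕ) (g : ℤ → ℝ) :
    ∑ z ∈ Finset.Ico (0 : ℤ) Z, g z = ∑ z ∈ Finset.range Z, g z := by
  symm
  refine Finset.sum_nbij' (fun n : ℕ => (n : ℤ)) (fun z : ℤ => z.toNat) ?_ ?_ ?_ ?_ ?_
  · intro n hn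
    rw [Finset.mem_range] at hn
    rw [Finset.mem_Ico]
    omega
  · intro z hz
    rw [Finset.mem_Ico] at hz
    rw [Finset.mem_range]
    omega
  · intro n _
    simp
  · intro z hz
    rw [Finset.mem_Ico] at hz
    exact Int.toNat_of_nonneg hz.1
  · intro n _
    rfl

theorem core_ge (p : Par) (f : ℤ → ℤ → ℝ) (c : Cell p f) (x x' : ℤ) :
    (p.Z : ℝ) * cg f p.Z x x' ^ 2 - p.μ * p.K * p.H - 144 * p.Z / (p.μ : ℝ) ^ 2 ≤
      en p.Z p.P (pr f x x') (arc p.P (1 / (24 * p.K * p.H)) 1 0) := by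
  have hP1 := p.P_one
  have hZP := p.Z_le_P
  have hPr : (0 : ℝ) < p.P := by exact_mod_cast hP1
  have hZ : (0 : ℝ) < p.Z := by exact_mod_cast p.Z_one
  have hN1 := pw_N p
  have hlong := pw_long p
  have hNc : ((p.μ * p.K * p.H : ℕ) : ℝ) = p.μ * p.K * p.H := by push_cast; ring
  rw [← hNc]
  set N := p.μ * p.K * p.H with hN
  have hNR : (1 : ℝ) ≤ N := by exact_mod_cast hN1
  have hNC : (N : ℂ) ≠ 0 := by exact_mod_cast (by omega : N ≠ 0)
  have hμ : (240 : ℝ) ≤ p.μ := by exact_mod_cast p.hμ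
  have hpsv := psv p.Z p.P N N (pr f x x') (pw_hs p f c x x') (fun j => j) (fun j hj => hj.le)
    (fun _ => 1 / (N : ℂ)) hP1 (by omega)
  have eR : ∀ u : ℤ, ‖∑ j ∈ Finset.range N, 1 / (N : ℂ) * (pr f x x' (u + (j : ℤ)) : ℂ)‖ ^ 2 =
      ((∑ j ∈ Finset.range N, pr f x x' (u + j)) / N) ^ 2 := by
    intro u
    have : ∑ j ∈ Finset.range N, 1 / (N : ℂ) * (pr f x x' (u + (j : ℤ)) : ℂ) =
        (((∑ j ∈ Finset.range N, pr f x x' (u + j)) / N : ℝ) : ℂ) := by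
      rw [← Finset.mul_sum]
      push_cast
      ring
    rw [this, Complex.norm_real, Real.norm_eq_abs, sq_abs]
  have eL : ∀ φ : ℝ, ∑ j ∈ Finset.range N, 1 / (N : ℂ) * ee (φ * (j : ℝ)) =
      (∑ j ∈ Finset.range N, ee (φ * j)) / N := by
    intro φ
    rw [← Finset.mul_sum]
    ring
  rw [Finset.sum_congr rfl fun u _ => eR u, Finset.sum_congr rfl fun n _ => by rw [eL]] at hpsv
  set C : ℤ → ℝ := fun u => (∑ j ∈ Finset.range N, pr f x x' (u + j)) / N with hC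
  -- upper bound
  have hup : ∑ u ∈ Finset.Ico (-(N : ℤ)) (p.Z : ℤ), C u ^ 2 ≤
      en p.Z p.P (pr f x x') (arc p.P (1 / (24 * p.K * p.H)) 1 0) +
        144 / (p.μ : ℝ) ^ 2 * p.Z := by
    rw [← hpsv]
    have h0 := psv0 p.Z p.P (pr f x x') hP1 (by omega)
    have h1 : en p.Z p.P (pr f x x') (Finset.range p.P) ≤ p.Z := by
      rw [h0]
      calc _ ≤ ∑ z ∈ Finset.range p.Z, (1 : ℝ) := Finset.sum_le_sum fun z _ => by
            rcases pw_h01 p f c x x' z with h | h <;> rw [h] <;> norm_num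
        _ = _ := by simp
    have h2 : ∀ n ∈ Finset.range p.P, ‖fh p.Z (pr f x x') ((n : ℝ) / p.P)‖ ^ 2 *
        ‖(∑ j ∈ Finset.range N, ee ((n : ℝ) / p.P * j)) / (N : ℂ)‖ ^ 2 ≤
        (if n ∈ arc p.P (1 / (24 * p.K * p.H)) 1 0 then
          ‖fh p.Z (pr f x x') ((n : ℝ) / p.P)‖ ^ 2 else 0) +
        144 / (p.μ : ℝ) ^ 2 * ‖fh p.Z (pr f x x') ((n : ℝ) / p.P)‖ ^ 2 := by
      intro n hn
      have hnn : 0 ≤ ‖fh p.Z (pr f x x') ((n : ℝ) / p.P)‖ ^ 2 := by positivity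
      split_ifs with hcore
      · have h3 := mul1 N ((n : ℝ) / p.P)
        have h4 : ‖(∑ j ∈ Finset.range N, ee ((n : ℝ) / p.P * j)) / (N : ℂ)‖ ^ 2 ≤ 1 :=
          pow_le_one₀ (norm_nonneg _) h3
        have h5 : 0 ≤ 144 / (p.μ : ℝ) ^ 2 * ‖fh p.Z (pr f x x') ((n : ℝ) / p.P)‖ ^ 2 := by
          positivity
        nlinarith
      · have h3 : 1 / (24 * (p.K : ℝ) * p.H) < nint ((n : ℝ) / p.P) := by
          by_contra hc
          exact hcore ((pw_mem_arc _ _ _).2 ⟨hn, not_lt.1 hc⟩)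
        have h4 := hlong _ h3
        have h5 : ‖(∑ j ∈ Finset.range N, ee ((n : ℝ) / p.P * j)) / (N : ℂ)‖ ^ 2 ≤
            144 / (p.μ : ℝ) ^ 2 := by
          have := pow_le_pow_left₀ (norm_nonneg _) h4 2
          rw [div_pow] at this
          norm_num at this ⊢
          exact this
        have := mul_le_mul_of_nonneg_left h5 hnn
        linarith
    have hsub : arc p.P (1 / (24 * p.K * p.H)) 1 0 ⊆ Finset.range p.P := fun n hn =>
      ((pw_mem_arc _ _ _).1 hn).1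
    calc _ ≤ (∑ n ∈ Finset.range p.P, ((if n ∈ arc p.P (1 / (24 * p.K * p.H)) 1 0 then
          ‖fh p.Z (pr f x x') ((n : ℝ) / p.P)‖ ^ 2 else 0) +
          144 / (p.μ : ℝ) ^ 2 * ‖fh p.Z (pr f x x') ((n : ℝ) / p.P)‖ ^ 2)) / (p.P : ℝ) :=
          div_le_div_of_nonneg_right (Finset.sum_le_sum h2) hPr.le
      _ = en p.Z p.P (pr f x x') (arc p.P (1 / (24 * p.K * p.H)) 1 0) +
          144 / (p.μ : ℝ) ^ 2 * en p.Z p.P (pr f x x') (Finset.range p.P) := by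
          rw [Finset.sum_add_distrib, ← Finset.sum_filter, Finset.filter_mem_eq_inter,
            Finset.inter_eq_right.2 hsub, ← Finset.mul_sum, add_div, en, en, mul_div_assoc]
      _ ≤ _ := add_le_add_right (mul_le_mul_of_nonneg_left h1 (by positivity)) _
  -- lower bound
  have hsum : ∑ u ∈ Finset.Ico (-(N : ℤ)) (p.Z : ℤ), C u = p.Z * cg f p.Z x x' := by
    rw [hC, ← Finset.sum_div, Finset.sum_comm]
    have e : ∀ j ∈ Finset.range N, ∑ u ∈ Finset.Ico (-(N : ℤ)) (p.Z : ℤ), pr f x x' (u + (j : ℤ)) =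
        p.Z * cg f p.Z x x' := by
      intro j hj
      have hj' : j < N := Finset.mem_range.1 hj
      rw [pw_shift_eq (pr f x x') (-(N : ℤ)) p.Z 0 p.Z j (by omega) (by omega)
        (pw_hs p f c x x'), pw_intsum, cg, mul_div_cancel₀ _ hZ.ne']
      rfl
    rw [Finset.sum_congr rfl e, Finset.sum_const, Finset.card_range, nsmul_eq_mul]
    field_simp
  have hcs := sq_sum_le_card_mul_sum_sq (s := Finset.Ico (-(N : ℤ)) (p.Z : ℤ)) (f := C)
  rw [hsum, Int.card_Ico] at hcs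
  have ecard : (((p.Z : ℤ) - -(N : ℤ)).toNat : ℝ) = p.Z + N := by
    have : ((p.Z : ℤ) - -(N : ℤ)).toNat = p.Z + N := by omega
    rw [this]
    push_cast
    ring
  rw [ecard] at hcs
  obtain ⟨hc0, hc1⟩ := pw_c p f c x x'
  set cc := cg f p.Z x x'
  set T := ∑ u ∈ Finset.Ico (-(N : ℤ)) (p.Z : ℤ), C u ^ 2 with hT
  have hlow : (p.Z : ℝ) * cc ^ 2 - N ≤ T := by
    by_contra hcon
    push Not at hcon
    have hcc : cc ^ 2 ≤ 1 := pow_le_one₀ hc0 hc1
    have hZN : (0 : ℝ) < p.Z + N := by linarith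
    have h1 : ((p.Z : ℝ) + N) * T < (p.Z + N) * (p.Z * cc ^ 2 - N) :=
      mul_lt_mul_of_pos_left hcon hZN
    have h2 : (p.Z : ℝ) * cc ^ 2 * N ≤ p.Z * 1 * N := by gcongr
    nlinarith [mul_pos (by linarith : (0 : ℝ) < N) (by linarith : (0 : ℝ) < N)]
  have e144 : 144 * (p.Z : ℝ) / (p.μ : ℝ) ^ 2 = 144 / (p.μ : ℝ) ^ 2 * p.Z := by ring
  rw [e144]
  linarith

end Pool.Agent.AAR
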