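import Pool.Agent.AAR.Yb
import Pool.Agent.AAR.Pw
import Pool.Agent.AAR.Uni

/-!
# AAR-Msa: the total mass of the arcs
-/

set_option autoImplicit false

namespace Pool.Agent.AAR

private theorem msa_en_nonneg (Z P : ℕ) (h : ℤ → ℝ) (S : Finset ℕ) : 0 ≤ en Z P h S := by
  unfold en
  exact div_nonneg (Finset.sum_nonneg fun _ _ => by positivity) (Nat.cast_nonneg _)

private theorem msa_wt (H d : ℕ) : wt H d ≤ H := by
  unfold wt
  have := abs_nonneg ((d : ℝ) - 3 * H)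
  linarith

private theorem msa_Yv_nonneg (f : ℤ → ℤ → ℝ) (Z b m : ℕ) (x x' : ℤ) : 0 ≤ Yv f Z b m x x' := by
  unfold Yv
  exact Finset.sum_nonneg fun _ _ => sq_nonneg _

/-- the number of multiples of `t` in `(2H, 4H)` -/
private theorem msa_card (H t : ℕ) (ht : 1 ≤ t) :
    ((((ds H).filter (fun d => t ∣ d)).card : ℕ) : ℝ) ≤ 2 * H / t + 1 := by
  have h1 : ((Finset.Ioc 0 (4 * H)).filter (fun d => t ∣ d)).card = 4 * H / t :=
    Nat.Ioc_filter_dvd_card_eq_div _ _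
  have h2 : ((Finset.Ioc 0 (2 * H)).filter (fun d => t ∣ d)).card = 2 * H / t :=
    Nat.Ioc_filter_dvd_card_eq_div _ _
  have h3 : ((ds H).filter (fun d => t ∣ d)).card +
      ((Finset.Ioc 0 (2 * H)).filter (fun d => t ∣ d)).card ≤
      ((Finset.Ioc 0 (4 * H)).filter (fun d => t ∣ d)).card := by
    rw [← Finset.card_union_of_disjoint]
    · refine Finset.card_le_card fun d hd => ?_
      rcases Finset.mem_union.1 hd with h | h
      · obtain ⟨h4, h5⟩ := Finset.mem_filter.1 h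
        have h6 := Finset.mem_Ioo.1 h4
        exact Finset.mem_filter.2 ⟨Finset.mem_Ioc.2 ⟨by omega, by omega⟩, h5⟩
      · obtain ⟨h4, h5⟩ := Finset.mem_filter.1 h
        have h6 := Finset.mem_Ioc.1 h4
        exact Finset.mem_filter.2 ⟨Finset.mem_Ioc.2 ⟨by omega, by omega⟩, h5⟩
    · rw [Finset.disjoint_left]
      intro d hd hd'
      have h4 := Finset.mem_Ioo.1 (Finset.mem_filter.1 hd).1
      have h5 := Finset.mem_Ioc.1 (Finset.mem_filter.1 hd').1
      omega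
  rw [h1, h2] at h3
  have ht0 : (0 : ℝ) < t := by exact_mod_cast ht
  have h4 : ((4 * H / t : ℕ) : ℝ) ≤ ((4 * H : ℕ) : ℝ) / t := Nat.cast_div_le
  have h5 : ((2 * H : ℕ) : ℝ) / t < ((2 * H / t : ℕ) : ℝ) + 1 := by
    rw [div_lt_iff₀ ht0]
    have h6 := Nat.lt_div_mul_add (a := 2 * H) (b := t) (by omega)
    have h7 : 2 * H < (2 * H / t + 1) * t := by
      rw [add_mul, one_mul]
      exact h6
    exact_mod_cast h7
  have h6 : ((((ds H).filter (fun d => t ∣ d)).card : ℕ) : ℝ) + ((2 * H / t : ℕ) : ℝ) ≤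
      ((4 * H / t : ℕ) : ℝ) := by exact_mod_cast h3
  have h7 : ((4 * H : ℕ) : ℝ) / t = 4 * H / t := by push_cast; ring
  have h8 : ((2 * H : ℕ) : ℝ) / t = 2 * H / t := by push_cast; ring
  rw [h7] at h4
  rw [h8] at h5
  have h9 : (4 : ℝ) * H / t = 2 * (2 * H / t) := by ring
  linarith

private theorem msa_yv (p : Par) (f : ℤ → ℤ → ℝ) (c : Cell p f) (t s : ℕ) (ht : 1 ≤ t)
    (hs : 1 ≤ s) (hts : t * s ≤ p.Q2) :
    ∑ d ∈ (ds p.H).filter (fun d => t ∣ d), ∑ x ∈ Finset.range p.X,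
      Yv f p.Z (t * s) p.m x (x + d) ≤ 96 * p.H / t * (p.η * p.β * p.X * p.Z) := by
  have hH := p.Hpos
  have ht0 : (0 : ℝ) < t := by exact_mod_cast ht
  have hb : 0 < t * s := Nat.mul_pos ht hs
  have hdiv := Nat.div_add_mod (8 * p.H) (t * s)
  have hmod := Nat.mod_lt (8 * p.H) hb
  have hQH := p.hQ2H
  have hn : t * (s * (8 * p.H / (t * s))) = t * s * (8 * p.H / (t * s)) := by ring
  have hn1 : t * (s * (8 * p.H / (t * s))) ≤ 8 * p.H := by
    rw [hn]
    omega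
  have hn2 : 6 * p.H ≤ t * (s * (8 * p.H / (t * s))) := by
    rw [hn]
    omega
  have h1 := uni p.H p.X t (s * (8 * p.H / (t * s))) (fun x x' => Yv f p.Z (t * s) p.m x x')
    p.hH ht (fun x x' => msa_Yv_nonneg _ _ _ _ _ _) hn1 hn2
  have h2 := yb p f c t s ht hs hts
  refine h1.trans ?_
  obtain ⟨S, hS⟩ : ∃ S : ℝ, S = ∑ x₁ ∈ Finset.Ico (-((8 * p.H : ℕ) : ℤ)) p.X,
      ∑ i ∈ Finset.range (s * (8 * p.H / (t * s))), ∑ i' ∈ Finset.range (s * (8 * p.H / (t * s))),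
        Yv f p.Z (t * s) p.m (x₁ + t * i) (x₁ + t * i') := ⟨_, rfl⟩
  rw [← hS] at h2 ⊢
  obtain ⟨n, hnn⟩ : ∃ n : ℕ, n = s * (8 * p.H / (t * s)) := ⟨_, rfl⟩
  rw [← hnn] at h2 hn1 hn2
  have hn0 : 0 < n := by
    rcases Nat.eq_zero_or_pos n with h | h
    · rw [h, mul_zero] at hn2
      have := p.hH
      omega
    · exact h
  have hnr : (0 : ℝ) < n := by exact_mod_cast hn0
  rw [div_le_iff₀ (by positivity)] at h2
  have h3 : (t : ℝ) * n ≤ 8 * p.H := by exact_mod_cast hn1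
  have h4 : ((t : ℝ) * n) ^ 2 ≤ (8 * p.H) ^ 2 := pow_le_pow_left₀ (by positivity) h3 2
  have hη := p.hη
  have hβ := p.hβ
  calc (t : ℝ) / (2 * p.H) * S
      ≤ (t : ℝ) / (2 * p.H) * (3 * p.η * p.β * p.X * p.Z * (n : ℝ) ^ 2) :=
        mul_le_mul_of_nonneg_left h2 (by positivity)
    _ = 3 * (p.η * p.β * p.X * p.Z) / (2 * p.H * t) * ((t : ℝ) * n) ^ 2 := by
        field_simp
    _ ≤ 3 * (p.η * p.β * p.X * p.Z) / (2 * p.H * t) * (8 * p.H) ^ 2 :=
        mul_le_mul_of_nonneg_left h4 (by positivity)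
    _ = 96 * p.H / t * (p.η * p.β * p.X * p.Z) := by
        field_simp
        ring

/-- assembly -/
private theorem msa_sum (p : Par) (S : Finset ℕ) (E V : ℕ → ℕ → ℝ) (A : ℝ) (hE : ∀ d x, 0 ≤ E d x)
    (hEV : ∀ d x, E d x ≤ 12 * V d x + A) :
    ∑ d ∈ S, wt p.H d * ∑ x ∈ Finset.range p.X, E d x ≤
      12 * p.H * (∑ d ∈ S, ∑ x ∈ Finset.range p.X, V d x) + p.H * (S.card * (p.X * A)) := by
  have hH := p.Hpos
  calc ∑ d ∈ S, wt p.H d * ∑ x ∈ Finset.range p.X, E d x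
      ≤ ∑ d ∈ S, (p.H : ℝ) * ∑ x ∈ Finset.range p.X, (12 * V d x + A) := by
        refine Finset.sum_le_sum fun d _ => ?_
        have h1 : 0 ≤ ∑ x ∈ Finset.range p.X, E d x := Finset.sum_nonneg fun x _ => hE d x
        have h2 : ∑ x ∈ Finset.range p.X, E d x ≤ ∑ x ∈ Finset.range p.X, (12 * V d x + A) :=
          Finset.sum_le_sum fun x _ => hEV d x
        calc wt p.H d * ∑ x ∈ Finset.range p.X, E d x
            ≤ p.H * ∑ x ∈ Finset.range p.X, E d x :=
              mul_le_mul_of_nonneg_right (msa_wt _ _) h1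
          _ ≤ _ := mul_le_mul_of_nonneg_left h2 hH.le
    _ = _ := by
        have h3 : ∀ d ∈ S, (p.H : ℝ) * ∑ x ∈ Finset.range p.X, (12 * V d x + A) =
            12 * p.H * (∑ x ∈ Finset.range p.X, V d x) + p.H * (p.X * A) := by
          intro d _
          rw [Finset.sum_add_distrib, ← Finset.mul_sum, Finset.sum_const, Finset.card_range,
            nsmul_eq_mul]
          ring
        rw [Finset.sum_congr rfl h3, Finset.sum_add_distrib, ← Finset.mul_sum, Finset.sum_const,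
          nsmul_eq_mul]
        ring

theorem msa (p : Par) (f : ℤ → ℤ → ℝ) (c : Cell p f) (t s : ℕ) (ht : 1 ≤ t) (hs : 1 ≤ s)
    (h2 : 2 ≤ t * s) (hts : t * s ≤ p.Q2) :
    ∑ d ∈ (ds p.H).filter (fun d => t ∣ d), wt p.H d *
      ∑ x ∈ Finset.range p.X, en p.Z p.P (pr f x (x + d)) (arcs p.P p.r (t * s)) ≤
      1200 * p.η * p.M / t := by
  have hH := p.Hpos
  have ht0 : (0 : ℝ) < t := by exact_mod_cast ht
  have hη := p.hη
  have hβ := p.hβ
  have h1 := msa_sum p ((ds p.H).filter (fun d => t ∣ d))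
    (fun d x => en p.Z p.P (pr f x (x + d)) (arcs p.P p.r (t * s)))
    (fun d x => Yv f p.Z (t * s) p.m x (x + d)) (8 * ((t * s : ℕ) : ℝ))
    (fun d x => msa_en_nonneg _ _ _ _)
    (fun d x => arcs_le p f c x (x + d) (t * s) h2 hts)
  refine h1.trans ?_
  have h3 := msa_yv p f c t s ht hs hts
  have h4 := msa_card p.H t ht
  have htH : (t : ℝ) ≤ p.H := by
    have h5 : t ≤ t * s := Nat.le_mul_of_pos_right t hs
    have h6 := p.hQ2H
    have h7 : t ≤ p.H := by omega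
    exact_mod_cast h7
  have h5 : 2 * (p.H : ℝ) / t + 1 ≤ 3 * p.H / t := by
    have h6 : 1 ≤ (p.H : ℝ) / t := by
      rw [le_div_iff₀ ht0]
      linarith
    have h7 : 3 * (p.H : ℝ) / t = 2 * p.H / t + p.H / t := by ring
    linarith
  have h6 : 8 * ((t * s : ℕ) : ℝ) ≤ p.η * p.β * p.Z / 3 := by
    have h7 : ((t * s : ℕ) : ℝ) ≤ p.Q2 := by exact_mod_cast hts
    have h8 := p.edge_Q2
    linarith
  have h7 : (12 * (p.H : ℝ)) * (∑ d ∈ (ds p.H).filter (fun d => t ∣ d),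
      ∑ x ∈ Finset.range p.X, Yv f p.Z (t * s) p.m x (x + d)) ≤
      1152 * p.η * p.M / t := by
    refine (mul_le_mul_of_nonneg_left h3 (by positivity)).trans (le_of_eq ?_)
    unfold Par.M
    ring
  have h8 : (p.H : ℝ) * ((((ds p.H).filter (fun d => t ∣ d)).card : ℝ) *
      (p.X * (8 * ((t * s : ℕ) : ℝ)))) ≤ p.η * p.M / t := by
    calc (p.H : ℝ) * ((((ds p.H).filter (fun d => t ∣ d)).card : ℝ) *
          (p.X * (8 * ((t * s : ℕ) : ℝ))))
        ≤ (p.H : ℝ) * ((3 * p.H / t) * (p.X * (p.η * p.β * p.Z / 3))) := by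
          refine mul_le_mul_of_nonneg_left ?_ hH.le
          exact mul_le_mul (h4.trans h5) (mul_le_mul_of_nonneg_left h6 (Nat.cast_nonneg _))
            (by positivity) (by positivity)
      _ = p.η * p.M / t := by
          unfold Par.M
          ring
  have h9 : 0 ≤ p.η * p.M / t := by
    have := p.M_pos
    positivity
  have h10 : 1152 * p.η * p.M / t = 1152 * (p.η * p.M / t) := by ring
  have h11 : 1200 * p.η * p.M / t = 1200 * (p.η * p.M / t) := by ring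
  rw [h10] at h7
  rw [h11]
  linarith

theorem ms0 (p : Par) (f : ℤ → ℤ → ℝ) (c : Cell p f) :
    ∑ d ∈ ds p.H, wt p.H d * ∑ x ∈ Finset.range p.X,
      en p.Z p.P (pr f x (x + d)) (arc p.P p.r 1 0 \ arc p.P (1 / (24 * p.K * p.H)) 1 0) ≤
      1200 * p.η * p.M := by
  have hH := p.Hpos
  have hη := p.hη
  have hβ := p.hβ
  have h1 := msa_sum p (ds p.H)
    (fun d x => en p.Z p.P (pr f x (x + d))
      (arc p.P p.r 1 0 \ arc p.P (1 / (24 * p.K * p.H)) 1 0))
    (fun d x => Yv f p.Z 1 p.m x (x + d)) (8 * ((p.μ : ℝ) * p.K * p.H))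
    (fun d x => msa_en_nonneg _ _ _ _)
    (fun d x => arc0_le p f c x (x + d))
  refine h1.trans ?_
  have h3 := msa_yv p f c 1 1 le_rfl le_rfl (by have := p.hQ2; omega)
  have h4 := msa_card p.H 1 le_rfl
  have hfil : (ds p.H).filter (fun d => 1 ∣ d) = ds p.H :=
    Finset.filter_true_of_mem fun d _ => one_dvd d
  rw [hfil] at h3 h4
  have hds : ((ds p.H).card : ℝ) ≤ 2 * p.H := by
    unfold ds
    rw [Nat.card_Ioo]
    have h5 : 4 * p.H - 2 * p.H - 1 ≤ 2 * p.H := by omega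
    exact_mod_cast h5
  have h6 : 8 * ((p.μ : ℝ) * p.K * p.H) ≤ p.η * p.β * p.Z / 50 := by
    have h8 := p.edge_μ
    linarith
  have h7 : (12 * (p.H : ℝ)) * (∑ d ∈ ds p.H,
      ∑ x ∈ Finset.range p.X, Yv f p.Z 1 p.m x (x + d)) ≤ 1152 * p.η * p.M := by
    have h9 : (12 * (p.H : ℝ)) * (∑ d ∈ ds p.H,
        ∑ x ∈ Finset.range p.X, Yv f p.Z (1 * 1) p.m x (x + d)) ≤ 1152 * p.η * p.M := by
      refine (mul_le_mul_of_nonneg_left h3 (by positivity)).trans (le_of_eq ?_)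
      unfold Par.M
      push_cast
      ring
    exact h9
  have h8 : (p.H : ℝ) * (((ds p.H).card : ℝ) *
      (p.X * (8 * ((p.μ : ℝ) * p.K * p.H)))) ≤ p.η * p.M := by
    calc (p.H : ℝ) * (((ds p.H).card : ℝ) * (p.X * (8 * ((p.μ : ℝ) * p.K * p.H))))
        ≤ (p.H : ℝ) * ((2 * p.H) * (p.X * (p.η * p.β * p.Z / 50))) := by
          refine mul_le_mul_of_nonneg_left ?_ hH.le
          exact mul_le_mul hds (mul_le_mul_of_nonneg_left h6 (Nat.cast_nonneg _))
            (by positivity) (by positivity)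
      _ = p.η * p.M / 25 := by
          unfold Par.M
          ring
      _ ≤ p.η * p.M := by
          have h9 : 0 ≤ p.η * p.M := by
            have := p.M_pos
            positivity
          linarith
  have h9 : 0 ≤ p.η * p.M := by
    have := p.M_pos
    positivity
  have h10 : 1152 * p.η * p.M = 1152 * (p.η * p.M) := by ring
  have h11 : 1200 * p.η * p.M = 1200 * (p.η * p.M) := by ring
  rw [h10] at h7
  rw [h11]
  linarith

end Pool.Agent.AAR
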