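import Pool.Agent.AAR.Key
import Pool.Agent.AAR.Ky2
import Pool.Agent.AAR.Msa

/-!
# AAR-Lo2: low frequencies with given common divisor

PLAN.  Cauchy-Schwarz over `(s,r)`: left side `≤ (2K|T|)^{1/2} (∑_{s,r} mst²)^{1/2}`.  For each `s` choose `ρ s` maximising
`mst p f t s r` over the `r < s` coprime to `s`: `∑_r mst² ≤ mst(ρ s) ∑_r mst`.  `∑_r mst p f t s r ≤ 1200 ηM/t` by `msa`
(`gcd(ts,d) = t` implies `t ∣ d`; each `a` belongs to one `r`; arcs of different `a` are disjoint by `r_small2`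
and contained in `arcs`).  `∑_s mst(ρ s) ≤ 4Ω · 64 M β^{-1/6}/t` by `key`, `ky2`.  `256 · 1200 ≤ 555²`.
-/

set_option autoImplicit false

namespace Pool.Agent.AAR

private theorem lo2_en_nonneg (Z P : ℕ) (h : ℤ → ℝ) (S : Finset ℕ) : 0 ≤ en Z P h S := by
  unfold en
  exact div_nonneg (Finset.sum_nonneg fun _ _ => by positivity) (Nat.cast_nonneg _)

private theorem lo2_wt_nonneg (H d : ℕ) (hd : d ∈ ds H) : 0 ≤ wt H d := by
  have h := Finset.mem_Ioo.1 hd
  have h1 : (2 : ℝ) * H < d := by exact_mod_cast h.1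
  have h2 : (d : ℝ) < 4 * H := by exact_mod_cast h.2
  unfold wt
  have h3 : |(d : ℝ) - 3 * H| ≤ H := by
    rw [abs_le]
    constructor <;> linarith
  linarith

/-- two fractions with the same denominator -/
private theorem lo2_nint_frac (b : ℕ) (hb : 1 ≤ b) (k : ℤ) (hk : ¬ (b : ℤ) ∣ k) :
    1 / (b : ℝ) ≤ nint ((k : ℝ) / b) := by
  have hb0 : (0 : ℝ) < b := by exact_mod_cast hb
  obtain ⟨n, hn⟩ := exists_int ((k : ℝ) / b)
  rw [hn]
  have h1 : (k : ℝ) / b - n = ((k - b * n : ℤ) : ℝ) / b := by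
    push_cast
    field_simp
  rw [h1, abs_div, abs_of_pos hb0]
  apply div_le_div_of_nonneg_right _ hb0.le
  have h2 : k - b * n ≠ 0 := by
    intro h
    exact hk ⟨n, by linarith⟩
  have h3 : 1 ≤ |k - b * n| := Int.one_le_abs h2
  calc (1 : ℝ) = ((1 : ℤ) : ℝ) := by norm_num
    _ ≤ ((|k - b * n| : ℤ) : ℝ) := by exact_mod_cast h3
    _ = _ := by rw [Int.cast_abs]

private theorem lo2_disj (p : Par) (b : ℕ) (hb : 1 ≤ b) (hbQ : b ≤ p.Q2) (a a' : ℕ) (ha : a < b)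
    (ha' : a' < b) (hne : a ≠ a') :
    Disjoint (arc p.P p.r b a) (arc p.P p.r b a') := by
  classical
  rw [Finset.disjoint_left]
  intro n hn hn'
  unfold arc at hn hn'
  have h1 := (Finset.mem_filter.1 hn).2
  have h2 := (Finset.mem_filter.1 hn').2
  have hb0 : (0 : ℝ) < b := by exact_mod_cast hb
  have hH := p.Hpos
  have hH1 : (1 : ℝ) ≤ p.H := by exact_mod_cast p.hH
  have hr := p.r_pos
  have h3 : nint ((((a' : ℤ) - (a : ℤ) : ℤ) : ℝ) / b) ≤ 2 * p.r := by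
    have h4 : ((((a' : ℤ) - (a : ℤ) : ℤ) : ℝ)) / b =
        ((n : ℝ) / p.P - ((a : ℤ) : ℝ) / b) - ((n : ℝ) / p.P - ((a' : ℤ) : ℝ) / b) := by
      push_cast
      ring
    rw [h4]
    refine (nint_sub _ _).trans ?_
    linarith
  have h5 : ¬ (b : ℤ) ∣ ((a' : ℤ) - (a : ℤ)) := by
    intro h
    have h6 := Int.eq_zero_of_abs_lt_dvd h (by
      rw [abs_lt]
      constructor <;> omega)
    omega
  have h6 := lo2_nint_frac b hb _ h5
  have h7 := p.r_small2
  have hbr : (b : ℝ) ≤ p.Q2 := by exact_mod_cast hbQ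
  have hQ1 : (1 : ℝ) ≤ p.Q2 := by
    have : (1 : ℝ) ≤ b := by exact_mod_cast hb
    linarith
  have h8 : 2 * p.r < 1 / b := by
    rw [lt_div_iff₀ hb0]
    have h9 : 64 * p.r * p.Q2 ≤ 16 * (p.Q2 : ℝ) ^ 2 * (4 * p.H * p.r) := by
      have h10 : (p.Q2 : ℝ) ≤ (p.Q2 : ℝ) ^ 2 * p.H := by
        have h11 : (p.Q2 : ℝ) * 1 ≤ (p.Q2 : ℝ) * (p.Q2 * p.H) := by
          apply mul_le_mul_of_nonneg_left _ (by linarith)
          nlinarith
        linarith
      have h12 : 64 * p.r * p.Q2 ≤ 64 * p.r * ((p.Q2 : ℝ) ^ 2 * p.H) :=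
        mul_le_mul_of_nonneg_left h10 (by positivity)
      linarith
    have h13 : p.r * b ≤ p.r * p.Q2 := mul_le_mul_of_nonneg_left hbr hr.le
    linarith
  linarith

private theorem lo2_arcs (p : Par) (h : ℤ → ℝ) (b : ℕ) (hb : 1 ≤ b) (hbQ : b ≤ p.Q2) :
    ∑ a ∈ (Finset.range b).filter (fun a => Nat.Coprime a b), en p.Z p.P h (arc p.P p.r b a) ≤
      en p.Z p.P h (arcs p.P p.r b) := by
  classical
  unfold en
  rw [← Finset.sum_div]
  apply div_le_div_of_nonneg_right _ (Nat.cast_nonneg _)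
  rw [← Finset.sum_biUnion]
  · apply Finset.sum_le_sum_of_subset_of_nonneg
    · intro n hn
      obtain ⟨a, ha, hna⟩ := Finset.mem_biUnion.1 hn
      have h1 := (Finset.mem_filter.1 ha).2
      unfold arc at hna
      have h2 := Finset.mem_filter.1 hna
      unfold arcs
      exact Finset.mem_filter.2 ⟨h2.1, (a : ℤ), Nat.isCoprime_iff_coprime.2 h1, h2.2⟩
    · intro _ _ _
      positivity
  · intro a ha a' ha' hne
    have h1 := Finset.mem_range.1 (Finset.mem_filter.1 ha).1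
    have h2 := Finset.mem_range.1 (Finset.mem_filter.1 ha').1
    exact lo2_disj p b hb hbQ a a' h1 h2 hne

private theorem lo2_fiber (A R : Finset ℕ) (g : ℕ → ℕ) (F : ℕ → ℝ) (hF : ∀ a, 0 ≤ F a) :
    ∑ r ∈ R, ∑ a ∈ A.filter (fun a => g a = r), F a ≤ ∑ a ∈ A, F a := by
  classical
  have h1 : ∀ r ∈ R, ∑ a ∈ A.filter (fun a => g a = r), F a =
      ∑ a ∈ A, if g a = r then F a else 0 := by
    intro r _
    rw [Finset.sum_filter]
  rw [Finset.sum_congr rfl h1, Finset.sum_comm]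
  refine Finset.sum_le_sum fun a _ => ?_
  rw [Finset.sum_ite_eq]
  split_ifs
  · exact le_refl _
  · exact hF a

private theorem lo2_mst_nonneg (p : Par) (f : ℤ → ℤ → ℝ) (t s r : ℕ) : 0 ≤ mst p f t s r := by
  unfold mst
  refine Finset.sum_nonneg fun d hd => ?_
  have h1 := (Finset.mem_filter.1 hd).1
  refine mul_nonneg (lo2_wt_nonneg _ _ h1) ?_
  exact Finset.sum_nonneg fun x _ => Finset.sum_nonneg fun a _ => lo2_en_nonneg _ _ _ _

private theorem lo2_mass (p : Par) (f : ℤ → ℤ → ℝ) (c : Cell p f) (t s : ℕ) (ht : 1 ≤ t)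
    (hs : 2 ≤ s) (hts : t * s ≤ p.Q2) :
    ∑ r ∈ (Finset.range s).filter (fun r => Nat.Coprime r s), mst p f t s r ≤
      1200 * p.η * p.M / t := by
  classical
  have hs1 : 1 ≤ s := by omega
  have hb : 1 ≤ t * s := Nat.mul_pos ht hs1
  have h2 : 2 ≤ t * s := by nlinarith
  refine le_trans ?_ (msa p f c t s ht hs1 h2 hts)
  unfold mst
  rw [Finset.sum_comm]
  have h3 : ∀ d ∈ (ds p.H).filter (fun d => Nat.gcd (t * s) d = t),
      ∑ r ∈ (Finset.range s).filter (fun r => Nat.Coprime r s), wt p.H d *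
        ∑ x ∈ Finset.range p.X, ∑ a ∈ (Finset.range (t * s)).filter
          (fun a => Nat.Coprime a (t * s) ∧ (d / t * a) % s = r),
            en p.Z p.P (pr f x (x + d)) (arc p.P p.r (t * s) a) ≤
      wt p.H d * ∑ x ∈ Finset.range p.X,
        en p.Z p.P (pr f x (x + d)) (arcs p.P p.r (t * s)) := by
    intro d hd
    have hd1 := (Finset.mem_filter.1 hd).1
    rw [← Finset.mul_sum]
    refine mul_le_mul_of_nonneg_left ?_ (lo2_wt_nonneg _ _ hd1)
    rw [Finset.sum_comm]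
    refine Finset.sum_le_sum fun x _ => ?_
    refine le_trans ?_ (lo2_arcs p (pr f x (x + d)) (t * s) hb hts)
    have h4 : ∀ r ∈ (Finset.range s).filter (fun r => Nat.Coprime r s),
        ∑ a ∈ (Finset.range (t * s)).filter
          (fun a => Nat.Coprime a (t * s) ∧ (d / t * a) % s = r),
            en p.Z p.P (pr f x (x + d)) (arc p.P p.r (t * s) a) =
        ∑ a ∈ ((Finset.range (t * s)).filter (fun a => Nat.Coprime a (t * s))).filter
          (fun a => (d / t * a) % s = r),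
            en p.Z p.P (pr f x (x + d)) (arc p.P p.r (t * s) a) := by
      intro r _
      rw [Finset.filter_filter]
    rw [Finset.sum_congr rfl h4]
    exact lo2_fiber _ _ (fun a => (d / t * a) % s) _ (fun a => lo2_en_nonneg _ _ _ _)
  refine (Finset.sum_le_sum h3).trans ?_
  apply Finset.sum_le_sum_of_subset_of_nonneg
  · intro d hd
    obtain ⟨h4, h5⟩ := Finset.mem_filter.1 hd
    refine Finset.mem_filter.2 ⟨h4, ?_⟩
    rw [← h5]
    exact Nat.gcd_dvd_right _ _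
  · intro d hd _
    have hd1 := (Finset.mem_filter.1 hd).1
    exact mul_nonneg (lo2_wt_nonneg _ _ hd1)
      (Finset.sum_nonneg fun x _ => lo2_en_nonneg _ _ _ _)

/-- the maximal residue -/
private theorem lo2_choose (F : ℕ → ℕ → ℝ) : ∃ ρ : ℕ → ℕ, ∀ s, 2 ≤ s →
    ∀ r ∈ (Finset.range s).filter (fun r => Nat.Coprime r s), F s r ≤ F s (ρ s) := by
  have h : ∀ s, ∃ q : ℕ, 2 ≤ s →
      ∀ r ∈ (Finset.range s).filter (fun r => Nat.Coprime r s), F s r ≤ F s q := by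
    intro s
    by_cases hs : 2 ≤ s
    · have hne : ((Finset.range s).filter (fun r => Nat.Coprime r s)).Nonempty :=
        ⟨1, Finset.mem_filter.2 ⟨Finset.mem_range.2 (by omega), Nat.coprime_one_left s⟩⟩
      obtain ⟨q, _, hq⟩ := Finset.exists_max_image _ (F s) hne
      exact ⟨q, fun _ r hr => hq r hr⟩
    · exact ⟨0, fun h => absurd h hs⟩
  choose ρ hρ using h
  exact ⟨ρ, hρ⟩

private theorem lo2_sq (p : Par) (f : ℤ → ℤ → ℝ) (c : Cell p f) (t : ℕ) (ht : 1 ≤ t)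
    (htQ : t ≤ p.Q2) :
    ∑ s ∈ Finset.Icc 2 (p.Q2 / t), ∑ r ∈ (Finset.range s).filter (fun r => Nat.Coprime r s),
      mst p f t s r ^ 2 ≤
      307200 * (p.Ω * (p.β ^ (-(1 / 6 : ℝ)) * p.η)) * (p.M / t) ^ 2 := by
  obtain ⟨ρ, hρ⟩ := lo2_choose (fun s r => mst p f t s r)
  have ht0 : (0 : ℝ) < t := by exact_mod_cast ht
  have hη := p.hη
  have hM := p.M_pos
  have hΩ : (0 : ℝ) < p.Ω := lt_of_lt_of_le one_pos p.hΩ
  have h1 : ∑ s ∈ Finset.Icc 2 (p.Q2 / t), ∑ r ∈ (Finset.range s).filter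
      (fun r => Nat.Coprime r s), mst p f t s r ^ 2 ≤
      ∑ s ∈ Finset.Icc 2 (p.Q2 / t), mst p f t s (ρ s) * (1200 * p.η * p.M / t) := by
    refine Finset.sum_le_sum fun s hs => ?_
    have hs1 := Finset.mem_Icc.1 hs
    have hts : t * s ≤ p.Q2 := by
      calc t * s ≤ t * (p.Q2 / t) := Nat.mul_le_mul_left t hs1.2
        _ ≤ p.Q2 := Nat.mul_div_le _ _
    have h2 := lo2_mass p f c t s ht hs1.1 hts
    calc ∑ r ∈ (Finset.range s).filter (fun r => Nat.Coprime r s), mst p f t s r ^ 2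
        ≤ ∑ r ∈ (Finset.range s).filter (fun r => Nat.Coprime r s),
            mst p f t s (ρ s) * mst p f t s r := by
          refine Finset.sum_le_sum fun r hr => ?_
          rw [sq]
          exact mul_le_mul_of_nonneg_right (hρ s hs1.1 r hr) (lo2_mst_nonneg _ _ _ _ _)
      _ = mst p f t s (ρ s) * ∑ r ∈ (Finset.range s).filter (fun r => Nat.Coprime r s),
            mst p f t s r := by rw [Finset.mul_sum]
      _ ≤ _ := mul_le_mul_of_nonneg_left h2 (lo2_mst_nonneg _ _ _ _ _)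
  rw [← Finset.sum_mul] at h1
  refine h1.trans ?_
  have h3 := key p f c t ht htQ ρ
  have h4 := ky2 p f c t ht htQ
  have h5 : ∑ s ∈ Finset.Icc 2 (p.Q2 / t), mst p f t s (ρ s) ≤
      4 * p.Ω * (64 * p.M * p.β ^ (-(1 / 6 : ℝ)) / t) :=
    h3.trans (mul_le_mul_of_nonneg_left h4 (by positivity))
  calc (∑ s ∈ Finset.Icc 2 (p.Q2 / t), mst p f t s (ρ s)) * (1200 * p.η * p.M / t)
      ≤ 4 * p.Ω * (64 * p.M * p.β ^ (-(1 / 6 : ℝ)) / t) * (1200 * p.η * p.M / t) :=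
        mul_le_mul_of_nonneg_right h5 (by positivity)
    _ = 307200 * (p.Ω * (p.β ^ (-(1 / 6 : ℝ)) * p.η)) * (p.M / t) ^ 2 := by
        field_simp
        ring

/-- Cauchy-Schwarz for double sums -/
private theorem lo2_cs (I : Finset ℕ) (R : ℕ → Finset ℕ) (u v : ℕ → ℕ → ℝ) :
    ∑ s ∈ I, ∑ r ∈ R s, u s r * v s r ≤
      Real.sqrt (∑ s ∈ I, ∑ r ∈ R s, u s r ^ 2) * Real.sqrt (∑ s ∈ I, ∑ r ∈ R s, v s r ^ 2) := by
  have h1 := Real.sum_mul_le_sqrt_mul_sqrt (I.sigma R) (fun x => u x.1 x.2) (fun x => v x.1 x.2)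
  rw [Finset.sum_sigma, Finset.sum_sigma, Finset.sum_sigma] at h1
  exact h1

theorem lo2 (p : Par) (f : ℤ → ℤ → ℝ) (c : Cell p f) (N : ℝ) (hN : 0 ≤ N) (ts : ℕ → ℕ → ℝ)
    (hts0 : ∀ s r, 0 ≤ ts s r)
    (hts : ∑ s ∈ Finset.Icc 2 p.Q2, ∑ r ∈ (Finset.range s).filter (fun r => Nat.Coprime r s),
        ts s r ^ 2 ≤ 2 * p.K * N) (t : ℕ) (ht : 1 ≤ t) (htQ : t ≤ p.Q2) :
    ∑ s ∈ Finset.Icc 2 (p.Q2 / t), ∑ r ∈ (Finset.range s).filter (fun r => Nat.Coprime r s),
      ts s r * mst p f t s r ≤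
      555 * Real.sqrt (2 * p.K * N) * Real.sqrt (p.Ω * (p.β ^ (-(1 / 6 : ℝ)) * p.η)) * p.M / t := by
  have ht0 : (0 : ℝ) < t := by exact_mod_cast ht
  have hM := p.M_pos
  have h1 := lo2_cs (Finset.Icc 2 (p.Q2 / t))
    (fun s => (Finset.range s).filter (fun r => Nat.Coprime r s)) ts (fun s r => mst p f t s r)
  refine h1.trans ?_
  have h2 : ∑ s ∈ Finset.Icc 2 (p.Q2 / t), ∑ r ∈ (Finset.range s).filter
      (fun r => Nat.Coprime r s), ts s r ^ 2 ≤ 2 * p.K * N := by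
    refine le_trans ?_ hts
    apply Finset.sum_le_sum_of_subset_of_nonneg
    · exact Finset.Icc_subset_Icc le_rfl (Nat.div_le_self _ _)
    · intro s _ _
      exact Finset.sum_nonneg fun r _ => sq_nonneg _
  have h3 := lo2_sq p f c t ht htQ
  have h4 : Real.sqrt (∑ s ∈ Finset.Icc 2 (p.Q2 / t), ∑ r ∈ (Finset.range s).filter
      (fun r => Nat.Coprime r s), mst p f t s r ^ 2) ≤
      555 * Real.sqrt (p.Ω * (p.β ^ (-(1 / 6 : ℝ)) * p.η)) * (p.M / t) := by
    have hMt : 0 ≤ p.M / t := by positivity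
    rw [Real.sqrt_le_left (by positivity)]
    refine h3.trans ?_
    rw [mul_pow, mul_pow, Real.sq_sqrt]
    · apply mul_le_mul_of_nonneg_right _ (sq_nonneg _)
      apply mul_le_mul_of_nonneg_right (by norm_num)
      have hΩ : (0 : ℝ) < p.Ω := lt_of_lt_of_le one_pos p.hΩ
      have hη := p.hη
      have hβ := p.hβ
      positivity
    · have hΩ : (0 : ℝ) < p.Ω := lt_of_lt_of_le one_pos p.hΩ
      have hη := p.hη
      have hβ := p.hβ
      positivity
  calc _ ≤ Real.sqrt (2 * p.K * N) *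
        (555 * Real.sqrt (p.Ω * (p.β ^ (-(1 / 6 : ℝ)) * p.η)) * (p.M / t)) :=
        mul_le_mul (Real.sqrt_le_sqrt h2) h4 (Real.sqrt_nonneg _) (Real.sqrt_nonneg _)
    _ = _ := by ring

end Pool.Agent.AAR
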