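import Pool.Agent.AAR.Defs

/-!
# AAR-NmA: the parameter inequalities that only involve `R`, `ε`, `β`

PLAN.  `σ = R^-11`, `G1 = R^12`, `l0 = R^6`, `μ = R^3`, `B1 = R^10`, `ρ1 = R^-64`, `E0 = R^64`,
`Q1 = R^385`, `Q2 = R^834`, `Lam = R^839`, `β ≥ R^-5`, `R ≥ 2^40`, `R ≥ 4096/ε`.
`Nat.cast_pow`, `one_div`, `inv_pow`, `div_inv_eq_mul`; never let `norm_num` or `decide` expand large powers
(e.g. set `r = (R : ℝ)`, `r ≥ 2^40`, write `r^385 = r^384 * r` by `pow_succ`, `r^834 = r^770 * r^64` by `pow_add`).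
`nA1`: `8192 r^384 ≤ r^385`.  `nA2`: `14400/β ≤ 14400 r^5 ≤ r^6`.  `nA3`: `ε β²/4096 ≥ ε r^-10/4096 ≥ r^-11`.
`nA4`: `512/(ε β²) ≤ 512 r^10/ε ≤ r^11 ≤ r^12`.  `nA5`: `16 r^11 ≤ r^12`.
`nA6`: the bracket is `4 r^-64 + 16 r^-64 + 2 r^-64 = 22 r^-64`, the left side `528 r^(40-64) = 528 r^-24`, and
`4 * 528 ≤ r^2`.  `nA7`: `4 r^70 (2 r^385 + 2^32 r^768) ≤ r^838 (8 + 2^34) ≤ r^839`.
-/

set_option autoImplicit false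

namespace Pool.Agent.AAR

private theorem rbig {R : ℕ} (hR : 2 ^ 40 ≤ R) : (2 : ℝ) ^ 40 ≤ (R : ℝ) := by
  exact_mod_cast hR

private theorem rpos {R : ℕ} (hR : 2 ^ 40 ≤ R) : (0 : ℝ) < (R : ℝ) :=
  lt_of_lt_of_le (by norm_num) (rbig hR)

private theorem bpow {r β : ℝ} (hr : 0 < r) (hβ : 1 / r ^ 5 ≤ β) : 1 ≤ r ^ 5 * β := by
  have h5 : 0 < r ^ 5 := by positivity
  rw [div_le_iff₀ h5] at hβ
  linarith

private theorem bpos {r β : ℝ} (hr : 0 < r) (hβ : 1 / r ^ 5 ≤ β) : 0 < β :=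
  lt_of_lt_of_le (by positivity) hβ

private theorem bsq {r β : ℝ} (hr : 0 < r) (hβ : 1 / r ^ 5 ≤ β) : 1 ≤ r ^ 10 * β ^ 2 := by
  have h := bpow hr hβ
  calc (1 : ℝ) = 1 * 1 := by norm_num
    _ ≤ (r ^ 5 * β) * (r ^ 5 * β) := mul_le_mul h h zero_le_one (zero_le_one.trans h)
    _ = r ^ 10 * β ^ 2 := by ring

theorem nA1 (R : ℕ) (hR : 2 ^ 40 ≤ R) :
    8192 / (1 / (R : ℝ) ^ 64) ^ 6 ≤ ((R ^ 385 : ℕ) : ℝ) := by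
  have hr := rbig hR
  have h0 := rpos hR
  rw [Nat.cast_pow]
  generalize (R : ℝ) = r at hr h0 ⊢
  have e : (8192 : ℝ) / (1 / r ^ 64) ^ 6 = r ^ 384 * 8192 := by
    rw [one_div, inv_pow, div_inv_eq_mul, ← pow_mul, mul_comm]
  rw [e, pow_succ r 384]
  refine mul_le_mul_of_nonneg_left ?_ (by positivity)
  linarith [show (8192 : ℝ) ≤ 2 ^ 40 by norm_num]

theorem nA2 (R : ℕ) (β : ℝ) (hR : 2 ^ 40 ≤ R) (hβ : 1 / (R : ℝ) ^ 5 ≤ β) :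
    14400 / β ≤ ((R ^ 3 : ℕ) : ℝ) ^ 2 := by
  have hr := rbig hR
  have h0 := rpos hR
  have hb := bpos h0 hβ
  have h1 := bpow h0 hβ
  rw [Nat.cast_pow, div_le_iff₀ hb]
  generalize (R : ℝ) = r at hr h0 hβ h1 ⊢
  calc (14400 : ℝ) ≤ 2 ^ 40 * 1 := by norm_num
    _ ≤ r * (r ^ 5 * β) := mul_le_mul hr h1 zero_le_one h0.le
    _ = (r ^ 3) ^ 2 * β := by ring

theorem nA3 (R : ℕ) (ε β : ℝ) (hε : 0 < ε) (hR : 2 ^ 40 ≤ R) (hRε : 4096 / ε ≤ R)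
    (hβ : 1 / (R : ℝ) ^ 5 ≤ β) : 1 / (R : ℝ) ^ 11 ≤ ε * β ^ 2 / 4096 := by
  have h0 := rpos hR
  have h1 := bsq h0 hβ
  rw [div_le_iff₀ hε] at hRε
  generalize (R : ℝ) = r at h0 hβ h1 hRε ⊢
  rw [div_le_div_iff₀ (by positivity) (by norm_num), one_mul]
  calc (4096 : ℝ) = 4096 * 1 := by norm_num
    _ ≤ (r * ε) * (r ^ 10 * β ^ 2) := mul_le_mul hRε h1 zero_le_one (by positivity)
    _ = ε * β ^ 2 * r ^ 11 := by ring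

theorem nA4 (R : ℕ) (ε β : ℝ) (hε : 0 < ε) (hR : 2 ^ 40 ≤ R) (hRε : 4096 / ε ≤ R)
    (hβ : 1 / (R : ℝ) ^ 5 ≤ β) : 512 / (ε * β ^ 2) ≤ ((R ^ 6 : ℕ) : ℝ) ^ 2 := by
  have hr := rbig hR
  have h0 := rpos hR
  have h1 := bsq h0 hβ
  have hb := bpos h0 hβ
  rw [div_le_iff₀ hε] at hRε
  rw [Nat.cast_pow, div_le_iff₀ (by positivity)]
  generalize (R : ℝ) = r at hr h0 hβ h1 hRε ⊢
  have h2 : (4096 : ℝ) * 1 ≤ (r * ε) * (r ^ 10 * β ^ 2) :=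
    mul_le_mul hRε h1 zero_le_one (by positivity)
  have hr1 : (1 : ℝ) ≤ r := by linarith [show (1 : ℝ) ≤ 2 ^ 40 by norm_num]
  calc (512 : ℝ) ≤ 1 * (4096 * 1) := by norm_num
    _ ≤ r * ((r * ε) * (r ^ 10 * β ^ 2)) := mul_le_mul hr1 h2 (by norm_num) h0.le
    _ = (r ^ 6) ^ 2 * (ε * β ^ 2) := by ring

theorem nA5 (R : ℕ) (hR : 2 ^ 40 ≤ R) : 16 / (1 / (R : ℝ) ^ 11) ≤ ((R ^ 12 : ℕ) : ℝ) := by
  have hr := rbig hR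
  have h0 := rpos hR
  rw [Nat.cast_pow]
  generalize (R : ℝ) = r at hr h0 ⊢
  have e : (16 : ℝ) / (1 / r ^ 11) = r ^ 11 * 16 := by
    rw [one_div, div_inv_eq_mul, mul_comm]
  rw [e, pow_succ r 11]
  refine mul_le_mul_of_nonneg_left ?_ (by positivity)
  linarith [show (16 : ℝ) ≤ 2 ^ 40 by norm_num]

theorem nA6 (R : ℕ) (hR : 2 ^ 40 ≤ R) :
    24 * ((R ^ 12 : ℕ) : ℝ) ^ 2 * ((R ^ 6 : ℕ) : ℝ) * ((R ^ 10 : ℕ) : ℝ) *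
      (4 * (1 / (R : ℝ) ^ 64) + 16 * ((R ^ 385 : ℕ) : ℝ) ^ 2 / ((R ^ 834 : ℕ) : ℝ) +
        2 / ((R ^ 64 : ℕ) : ℝ)) ≤ (1 / (R : ℝ) ^ 11) ^ 2 / 4 := by
  have hr := rbig hR
  have h0 := rpos hR
  rw [Nat.cast_pow, Nat.cast_pow, Nat.cast_pow, Nat.cast_pow, Nat.cast_pow, Nat.cast_pow]
  generalize (R : ℝ) = r at hr h0 ⊢
  have e1 : 16 * (r ^ 385) ^ 2 / r ^ 834 = 16 / r ^ 64 := by
    have h834 : r ^ 834 = (r ^ 385) ^ 2 * r ^ 64 := by rw [← pow_mul, ← pow_add]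
    have hx : (r ^ 385) ^ 2 ≠ 0 := by positivity
    rw [h834, mul_comm 16, mul_div_mul_left _ _ hx]
  rw [e1]
  have e2 : 24 * (r ^ 12) ^ 2 * r ^ 6 * r ^ 10 * (4 * (1 / r ^ 64) + 16 / r ^ 64 + 2 / r ^ 64) =
      528 / r ^ 24 := by
    have h64 : r ^ 64 = r ^ 40 * r ^ 24 := by rw [← pow_add]
    rw [h64]
    field_simp
    ring
  have e3 : (1 / r ^ 11) ^ 2 / 4 = 1 / (4 * r ^ 22) := by
    rw [one_div, inv_pow, ← pow_mul]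
    field_simp
  rw [e2, e3, div_le_div_iff₀ (by positivity) (by positivity)]
  have h2 : (2112 : ℝ) ≤ r ^ 2 := by
    have : (2112 : ℝ) ≤ r := by linarith [show (2112 : ℝ) ≤ 2 ^ 40 by norm_num]
    nlinarith
  have h24 : r ^ 24 = r ^ 22 * r ^ 2 := by rw [← pow_add]
  rw [h24]
  have h22 : 0 < r ^ 22 := by positivity
  nlinarith

theorem nA7 (R : ℕ) (hR : 2 ^ 40 ≤ R) :
    4 * ((R ^ 6 : ℕ) : ℝ) * ((R ^ 64 : ℕ) : ℝ) *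
      (2 * ((R ^ 385 : ℕ) : ℝ) + 2 ^ 32 / (1 / (R : ℝ) ^ 64) ^ 12) ≤ ((R ^ 839 : ℕ) : ℝ) := by
  have hr := rbig hR
  have h0 := rpos hR
  rw [Nat.cast_pow, Nat.cast_pow, Nat.cast_pow, Nat.cast_pow]
  generalize (R : ℝ) = r at hr h0 ⊢
  have hr1 : (1 : ℝ) ≤ r := by linarith [show (1 : ℝ) ≤ 2 ^ 40 by norm_num]
  have e : (2 : ℝ) ^ 32 / (1 / r ^ 64) ^ 12 = 2 ^ 32 * r ^ 768 := by
    rw [one_div, inv_pow, div_inv_eq_mul, ← pow_mul]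
  rw [e]
  have h1 : r ^ 385 ≤ r ^ 768 := pow_le_pow_right₀ hr1 (by norm_num)
  have h70 : 4 * r ^ 6 * r ^ 64 = 4 * r ^ 70 := by rw [mul_assoc, ← pow_add]
  have h839 : r ^ 839 = r ^ 70 * r ^ 768 * r := by rw [← pow_add, ← pow_succ]
  rw [h70, h839]
  calc 4 * r ^ 70 * (2 * r ^ 385 + 2 ^ 32 * r ^ 768)
      ≤ 4 * r ^ 70 * (2 * r ^ 768 + 2 ^ 32 * r ^ 768) := by
        refine mul_le_mul_of_nonneg_left ?_ (by positivity)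
        linarith
    _ = r ^ 70 * r ^ 768 * (8 + 2 ^ 34) := by ring
    _ ≤ r ^ 70 * r ^ 768 * r := by
        refine mul_le_mul_of_nonneg_left ?_ (by positivity)
        linarith [show (8 : ℝ) + 2 ^ 34 ≤ 2 ^ 40 by norm_num]

end Pool.Agent.AAR
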