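import Pool.Agent.AAR.Bas

/-!
# AAR-Omg: `15^ω(s)` is smaller than any power of `s`

PLAN.  Let `y = ⌈15^{1/ε}⌉`, `C = 15^y`.  The primes `p ≥ y` satisfy `15 ≤ p^ε`, at most `y` primes are
smaller: `15^ω(s) = ∏_{p ∣ s} 15 ≤ 15^y ∏_{p ∣ s, p ≥ y} p^ε ≤ C s^ε` (`Nat.prod_primeFactors_dvd`).
-/

set_option autoImplicit false

namespace Pool.Agent.AAR

theorem omg (ε : ℝ) (hε : 0 < ε) : ∃ C : ℝ, 1 ≤ C ∧ ∀ s : ℕ, 1 ≤ s →
    (15 : ℝ) ^ s.primeFactors.card ≤ C * (s : ℝ) ^ ε := by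
  obtain ⟨y, hy⟩ : ∃ y : ℕ, y = ⌈(15 : ℝ) ^ (1 / ε)⌉₊ := ⟨_, rfl⟩
  refine ⟨15 ^ y, one_le_pow₀ (by norm_num), fun s hs => ?_⟩
  have h1 : ∀ p ∈ s.primeFactors, (15 : ℝ) ≤ (if p < y then 15 else 1) * (p : ℝ) ^ ε := by
    intro p hp
    have hp1 : (1 : ℝ) ≤ p := by
      exact_mod_cast (Nat.prime_of_mem_primeFactors hp).one_le
    have hp2 : (1 : ℝ) ≤ (p : ℝ) ^ ε := Real.one_le_rpow hp1 hε.le
    split_ifs with h
    · linarith
    · have h2 : (15 : ℝ) ^ (1 / ε) ≤ p := by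
        have h3 : y ≤ p := not_lt.1 h
        rw [hy] at h3
        exact (Nat.le_ceil _).trans (by exact_mod_cast h3)
      have h4 := Real.rpow_le_rpow (by positivity) h2 hε.le
      rw [← Real.rpow_mul (by norm_num), one_div_mul_cancel hε.ne', Real.rpow_one] at h4
      linarith
  have h2 : ∏ p ∈ s.primeFactors, (if p < y then (15 : ℝ) else 1) ≤ 15 ^ y := by
    rw [← Finset.prod_filter, Finset.prod_const]
    apply pow_le_pow_right₀ (by norm_num)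
    have h3 : s.primeFactors.filter (fun p => p < y) ⊆ Finset.range y := by
      intro p hp
      exact Finset.mem_range.2 (Finset.mem_filter.1 hp).2
    have h4 := Finset.card_le_card h3
    rwa [Finset.card_range] at h4
  have h3 : ∏ p ∈ s.primeFactors, (p : ℝ) ^ ε ≤ (s : ℝ) ^ ε := by
    rw [Real.finsetProd_rpow _ _ (fun _ _ => Nat.cast_nonneg _)]
    apply Real.rpow_le_rpow (Finset.prod_nonneg fun _ _ => Nat.cast_nonneg _) _ hε.le
    have h4 := Nat.le_of_dvd (by omega) (Nat.prod_primeFactors_dvd s)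
    have h5 : ((∏ p ∈ s.primeFactors, p : ℕ) : ℝ) ≤ s := Nat.cast_le.2 h4
    rwa [Nat.cast_prod] at h5
  calc (15 : ℝ) ^ s.primeFactors.card = ∏ p ∈ s.primeFactors, (15 : ℝ) := by
        rw [Finset.prod_const]
    _ ≤ ∏ p ∈ s.primeFactors, ((if p < y then (15 : ℝ) else 1) * (p : ℝ) ^ ε) :=
        Finset.prod_le_prod (fun _ _ => by norm_num) h1
    _ = (∏ p ∈ s.primeFactors, (if p < y then (15 : ℝ) else 1)) * ∏ p ∈ s.primeFactors, (p : ℝ) ^ ε :=
        Finset.prod_mul_distrib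
    _ ≤ 15 ^ y * (s : ℝ) ^ ε :=
        mul_le_mul h2 h3 (Finset.prod_nonneg fun _ _ => by positivity) (by positivity)

end Pool.Agent.AAR
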