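import Pool.Agent.AAR.Bas

/-!
# AAR-Prm: consequences of the inequalities between the parameters

PLAN.  Elementary.  E.g. `200/(η β) ≥ 20000`; `Q2 m = K H/(16 Lam)`, `Z ≥ 400 μ K H/(η β) ≥ 96000 K H/(η β)`;
`hKH` gives `Lam/K < 1/(8 H²)`; `μ ≤ B1`, so `4KH + μKH + 2 Q2 m + 1 ≤ 3 Z`, and `(Z+1)^3 ≤ P`.
`rad`: `ω₁ = 2^30 θ/(ρ1^12 H)`, `(2 Q1 θ + 4 H ω₁)/(H/E0) = (l0 E0/(K H)) (2 Q1 + 2^32/ρ1^12) ≤ r` by `hLam`; `G1_H`: `hρσ` gives `ρ1 ≤ 1/(384 G1²)`, then `hHρ`.  `uniq`: it is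
`≤ r`, `4 H r = Lam/K`, and `hKH`.
-/

set_option autoImplicit false

namespace Pool.Agent.AAR.Par

theorem Hpos (p : Par) : (0 : ℝ) < p.H := by
  have := p.hH
  exact_mod_cast (by omega : 0 < p.H)

theorem Kpos (p : Par) : (0 : ℝ) < p.K := by
  have := p.hK
  exact_mod_cast (by omega : 0 < p.K)

private theorem ηβ_pos (p : Par) : 0 < p.η * p.β := mul_pos p.hη p.hβ

private theorem ηβ_le (p : Par) : p.η * p.β ≤ 1 / 100 := by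
  have h1 := p.hη1
  have h2 := p.hβ1
  have h3 := p.hη
  have h4 := p.hβ
  nlinarith

private theorem μ_real (p : Par) : (240 : ℝ) ≤ p.μ := by exact_mod_cast p.hμ

private theorem ηβB0 (p : Par) : 200 ≤ p.η * p.β * p.B0 := by
  have h1 := p.hB0
  rw [div_le_iff₀ (ηβ_pos p)] at h1
  linarith

private theorem ηβB1 (p : Par) : 100 * (p.μ : ℝ) ≤ p.η * p.β * p.B1 := by
  have h1 := p.hB1
  rw [div_le_iff₀ (ηβ_pos p)] at h1
  linarith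

theorem B0_large (p : Par) : (20000 : ℝ) ≤ p.B0 := by
  have h1 := ηβB0 p
  have h2 := ηβ_le p
  have h3 : (0 : ℝ) ≤ p.B0 := Nat.cast_nonneg _
  nlinarith

private theorem B1_μ (p : Par) : 10000 * (p.μ : ℝ) ≤ p.B1 := by
  have h1 := ηβB1 p
  have h2 := ηβ_le p
  have h3 : (0 : ℝ) ≤ p.B1 := Nat.cast_nonneg _
  nlinarith

theorem B1_large (p : Par) : (2400000 : ℝ) ≤ p.B1 := by
  have h1 := B1_μ p
  have h2 := μ_real p
  linarith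

private theorem B0_nat (p : Par) : 20000 ≤ p.B0 := by exact_mod_cast B0_large p

private theorem B1_nat (p : Par) : 2400000 ≤ p.B1 := by exact_mod_cast B1_large p

theorem X_one (p : Par) : 1 ≤ p.X := by
  have h1 := B0_nat p
  have h2 := p.hH
  exact Nat.mul_pos (by omega) (by omega)

theorem Z_one (p : Par) : 1 ≤ p.Z := by
  have h1 := B1_nat p
  have h2 := p.hH
  have h3 := p.hK
  exact Nat.mul_pos (Nat.mul_pos (Nat.mul_pos (by norm_num) (by omega)) (by omega)) (by omega)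

theorem X_real (p : Par) : (p.X : ℝ) = p.B0 * p.H := by
  unfold X
  push_cast
  rfl

theorem Z_real (p : Par) : (p.Z : ℝ) = 4 * p.B1 * p.K * p.H := by
  unfold Z
  push_cast
  rfl

theorem M_pos (p : Par) : 0 < p.M := by
  unfold M
  have h1 : (0 : ℝ) < p.Z := by exact_mod_cast Z_one p
  have h2 : (0 : ℝ) < p.X := by exact_mod_cast X_one p
  have h3 := Hpos p
  have h4 := p.hβ
  positivity

theorem P_one (p : Par) : 1 ≤ p.P := le_trans (Nat.one_le_pow _ _ (by omega)) p.hP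

private theorem Lam_real (p : Par) : (1 : ℝ) ≤ p.Lam := by exact_mod_cast p.hLam1

private theorem l0_real (p : Par) : (1 : ℝ) ≤ p.l0 := by exact_mod_cast p.hl0

theorem r_pos (p : Par) : 0 < p.r := by
  unfold r
  have h1 := Hpos p
  have h2 := Kpos p
  have h3 := Lam_real p
  positivity

theorem r_mul_m (p : Par) : 64 * (p.Q2 : ℝ) * p.r * p.m = 1 := by
  unfold r
  have h1 := Hpos p
  have h2 := Kpos p
  have h3 : 16 * (p.Q2 : ℝ) * p.Lam * p.m = p.K * p.H := by exact_mod_cast p.hm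
  have h4 : 64 * (p.Q2 : ℝ) * (p.Lam / (4 * p.K * p.H)) * p.m =
      (16 * (p.Q2 : ℝ) * p.Lam * p.m) / (p.K * p.H) := by
    field_simp
    ring
  rw [h4, h3]
  exact div_self (by positivity)

theorem D_r (p : Par) : 4 * (p.H : ℝ) * p.r = p.Lam / p.K := by
  unfold r
  have h1 := Hpos p
  have h2 := Kpos p
  field_simp

private theorem Q1_real (p : Par) : (1 : ℝ) ≤ p.Q1 := by
  have h1 := p.hQ1
  have h2 : p.ρ1 ^ 6 ≤ 1 := pow_le_one₀ p.hρ1.le p.hρ11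
  have h3 : 0 < p.ρ1 ^ 6 := pow_pos p.hρ1 6
  have h4 : (8192 : ℝ) ≤ 8192 / p.ρ1 ^ 6 := by
    rw [le_div_iff₀ h3]
    nlinarith
  linarith

private theorem KH_real (p : Par) : 8 * (p.Q1 : ℝ) ^ 2 * p.H ^ 2 * (p.l0 + p.Lam) < p.K := by
  exact_mod_cast p.hKH

private theorem HLK (p : Par) : 8 * (p.H : ℝ) ^ 2 * p.Lam ≤ p.K := by
  have h1 := KH_real p
  have h2 := Q1_real p
  have h3 := l0_real p
  have h4 := Lam_real p
  have h5 : (1 : ℝ) ≤ (p.Q1 : ℝ) ^ 2 := by nlinarith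
  have h6 : 0 ≤ (p.H : ℝ) ^ 2 := sq_nonneg _
  have h7 : 8 * (p.H : ℝ) ^ 2 * p.Lam ≤ 8 * (p.Q1 : ℝ) ^ 2 * p.H ^ 2 * (p.l0 + p.Lam) := by
    have h8 : 8 * (p.H : ℝ) ^ 2 * p.Lam ≤ 8 * (p.H : ℝ) ^ 2 * (p.l0 + p.Lam) := by nlinarith
    have h9 : 0 ≤ 8 * (p.H : ℝ) ^ 2 * (p.l0 + p.Lam) := by positivity
    nlinarith
  linarith

theorem r_small (p : Par) : 32 * (p.H : ℝ) ^ 3 * p.r ≤ 1 := by
  have h1 := HLK p
  have h2 := Kpos p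
  have h3 := D_r p
  have h4 : 32 * (p.H : ℝ) ^ 3 * p.r = 8 * (p.H : ℝ) ^ 2 * p.Lam / p.K := by
    have : 32 * (p.H : ℝ) ^ 3 * p.r = 8 * (p.H : ℝ) ^ 2 * (4 * (p.H : ℝ) * p.r) := by ring
    rw [this, h3]
    ring
  rw [h4, div_le_one h2]
  exact h1

/-- arcs with denominators `≤ Q2` are disjoint, with room -/
theorem r_small2 (p : Par) : 16 * (p.Q2 : ℝ) ^ 2 * (4 * p.H * p.r) ≤ 1 := by
  have h1 := HLK p
  have h2 := Kpos p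
  have h5 : 8 * (p.Q2 : ℝ) ≤ p.H := by exact_mod_cast p.hQ2H
  have h6 : (0 : ℝ) ≤ p.Q2 := Nat.cast_nonneg _
  have h7 := Lam_real p
  rw [D_r p]
  have h8 : 16 * (p.Q2 : ℝ) ^ 2 * (p.Lam / p.K) = 16 * (p.Q2 : ℝ) ^ 2 * p.Lam / p.K := by ring
  rw [h8, div_le_one h2]
  have h9 : (8 * (p.Q2 : ℝ)) ^ 2 ≤ (p.H : ℝ) ^ 2 := pow_le_pow_left₀ (by positivity) h5 2
  nlinarith

theorem r_core (p : Par) : 1 / (24 * (p.K : ℝ) * p.H) ≤ p.r := by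
  unfold r
  have h1 := Hpos p
  have h2 := Kpos p
  have h3 := Lam_real p
  rw [div_le_div_iff₀ (by positivity) (by positivity)]
  have h4 : 0 < (p.K : ℝ) * p.H := by positivity
  nlinarith

theorem θ_pos (p : Par) : 0 < p.θ := by
  unfold θ
  have h2 := Kpos p
  have h3 := l0_real p
  positivity

theorem θ_small (p : Par) : 8 * (p.H : ℝ) * p.θ ≤ p.ρ1 ^ 8 / 2 ^ 24 := by
  unfold θ
  have h1 := p.hK1
  have h2 := Kpos p
  have h3 : 0 < p.ρ1 ^ 8 := pow_pos p.hρ1 8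
  rw [div_le_iff₀ h3] at h1
  have h4 : 8 * (p.H : ℝ) * (p.l0 / p.K) = 8 * (p.H : ℝ) * p.l0 / p.K := by ring
  rw [h4, div_le_div_iff₀ h2 (by positivity)]
  have h5 : 8 * (p.H : ℝ) * p.l0 * 2 ^ 24 = 2 ^ 27 * (p.H : ℝ) * p.l0 := by ring
  rw [h5]
  linarith

theorem θ_small2 (p : Par) : 128 * (p.H : ℝ) ^ 2 * p.θ ≤ 1 := by
  unfold θ
  have h1 : 128 * (p.H : ℝ) ^ 2 * p.l0 ≤ p.K := by exact_mod_cast p.hK2
  have h2 := Kpos p
  have h4 : 128 * (p.H : ℝ) ^ 2 * (p.l0 / p.K) = 128 * (p.H : ℝ) ^ 2 * p.l0 / p.K := by ring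
  rw [h4, div_le_one h2]
  exact h1

theorem Z_le_P (p : Par) :
    p.Z + 4 * p.K * p.H + p.μ * p.K * p.H + 2 * (p.Q2 * p.m) + 1 ≤ p.P := by
  have hμB : p.μ ≤ p.B1 := by
    have h1 := B1_μ p
    have h2 : (0 : ℝ) ≤ p.μ := Nat.cast_nonneg _
    have h3 : (p.μ : ℝ) ≤ p.B1 := by linarith
    exact_mod_cast h3
  have hB := B1_nat p
  have hu : 16 * (p.Q2 * p.m) ≤ p.K * p.H := by
    rw [← p.hm]
    have h1 := p.hLam1
    calc 16 * (p.Q2 * p.m) = 16 * (p.Q2 * p.m) * 1 := by ring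
      _ ≤ 16 * (p.Q2 * p.m) * p.Lam := Nat.mul_le_mul_left _ h1
      _ = 16 * p.Q2 * p.Lam * p.m := by ring
  have hP := p.hP
  have e1 : p.Z = 4 * (p.B1 * (p.K * p.H)) := by
    unfold Z
    ring
  have e2 : 4 * p.K * p.H = 4 * (p.K * p.H) := by ring
  have e3 : p.μ * p.K * p.H = p.μ * (p.K * p.H) := by ring
  have e4 : 4 * p.B1 * p.K * p.H = 4 * (p.B1 * (p.K * p.H)) := by ring
  rw [e4] at hP
  rw [e1, e2, e3]
  have h5 : p.μ * (p.K * p.H) ≤ p.B1 * (p.K * p.H) := Nat.mul_le_mul_right _ hμB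
  have h6 : p.K * p.H ≤ p.B1 * (p.K * p.H) := Nat.le_mul_of_pos_left _ (by omega)
  generalize p.B1 * (p.K * p.H) = v at *
  have h7 : 12 * v + 1 ≤ (4 * v + 1) ^ 3 := by
    have : (4 * v + 1) ^ 3 = 64 * v ^ 3 + 48 * v ^ 2 + 12 * v + 1 := by ring
    rw [this]
    omega
  omega

theorem P_θ (p : Par) : (p.H : ℝ) / p.θ ≤ p.P := by
  unfold θ
  have h1 := Hpos p
  have h2 := Kpos p
  have h3 := l0_real p
  have h4 : (p.H : ℝ) / (p.l0 / p.K) ≤ p.K * p.H := by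
    rw [div_div_eq_mul_div, div_le_iff₀ (by linarith)]
    have : 0 < (p.K : ℝ) * p.H := by positivity
    nlinarith
  have h5 : p.K * p.H ≤ p.P := by
    have h6 := Z_le_P p
    have h7 : 4 * p.K * p.H = 4 * (p.K * p.H) := by ring
    omega
  have h6 : (p.K : ℝ) * p.H ≤ p.P := by exact_mod_cast h5
  linarith

theorem m_large (p : Par) : 512 ≤ p.m := by
  have h1 := p.hm9
  have h2 : 2 ^ 9 ≤ p.Q2 ^ 9 := Nat.pow_le_pow_left p.hQ2 9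
  omega

private theorem ηβZ (p : Par) : 400 * (p.μ : ℝ) * (p.K * p.H) ≤ p.η * p.β * p.Z := by
  rw [Z_real]
  have h1 := ηβB1 p
  have h2 : 0 < (p.K : ℝ) * p.H := mul_pos (Kpos p) (Hpos p)
  have h3 : p.η * p.β * (4 * p.B1 * p.K * p.H) = 4 * (p.η * p.β * p.B1) * (p.K * p.H) := by ring
  rw [h3]
  nlinarith

private theorem ηβZ' (p : Par) : 96000 * ((p.K : ℝ) * p.H) ≤ p.η * p.β * p.Z := by
  have h1 := ηβZ p
  have h2 : 0 < (p.K : ℝ) * p.H := mul_pos (Kpos p) (Hpos p)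
  have h3 := μ_real p
  nlinarith

theorem edge_m (p : Par) : (p.Q2 : ℝ) * p.m ≤ p.η * p.β * p.Z / 10 ^ 5 := by
  have h1 := ηβZ' p
  have h2 : 0 < (p.K : ℝ) * p.H := mul_pos (Kpos p) (Hpos p)
  have h3 : 16 * (p.Q2 : ℝ) * p.Lam * p.m = p.K * p.H := by exact_mod_cast p.hm
  have h4 := Lam_real p
  have h5 : 0 ≤ (p.Q2 : ℝ) * p.m := by positivity
  have h6 : 16 * ((p.Q2 : ℝ) * p.m) ≤ p.K * p.H := by
    rw [← h3]
    nlinarith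
  rw [le_div_iff₀ (by norm_num)]
  nlinarith

theorem edge_Q2 (p : Par) : 24 * (p.Q2 : ℝ) ≤ p.η * p.β * p.Z := by
  have h1 := ηβZ' p
  have h2 := Hpos p
  have h3 : (1 : ℝ) ≤ p.K := by exact_mod_cast p.hK
  have h5 : 8 * (p.Q2 : ℝ) ≤ p.H := by exact_mod_cast p.hQ2H
  have h6 : (p.H : ℝ) ≤ p.K * p.H := by nlinarith
  linarith

theorem edge_x (p : Par) : 8 * (p.H : ℝ) ≤ p.η * p.β * p.X / 25 := by
  rw [X_real]
  have h1 := ηβB0 p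
  have h2 := Hpos p
  have h3 : p.η * p.β * (p.B0 * p.H) = (p.η * p.β * p.B0) * p.H := by ring
  rw [h3, le_div_iff₀ (by norm_num)]
  nlinarith

theorem edge_μ (p : Par) : 16 * ((p.μ : ℝ) * p.K * p.H) ≤ p.η * p.β * p.Z / 25 := by
  have h1 := ηβZ p
  rw [le_div_iff₀ (by norm_num)]
  linarith

theorem G1_H (p : Par) : p.G1 ^ 2 ≤ 2 * p.H := by
  have h1 := p.hρσ
  have hρ := p.hρ1
  have hl := l0_real p
  have hB := B1_large p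
  have hσ : p.σ ≤ 1 := by
    have h2 := p.hσβ
    have h3 := p.hε1
    have h4 := p.hβ1
    have h5 := p.hβ
    have h6 := p.hε
    have h7 : p.β ^ 2 ≤ 1 := by nlinarith
    have h8 : p.ε * p.β ^ 2 ≤ 1 := by nlinarith
    linarith
  have hσ2 : p.σ ^ 2 ≤ 1 := by
    have := p.hσ
    nlinarith
  have hG : (1 : ℝ) ≤ (p.G1 : ℝ) ^ 2 := by
    have : (1 : ℝ) ≤ p.G1 := by exact_mod_cast p.hG1
    nlinarith
  have hq : (0 : ℝ) ≤ 16 * (p.Q1 : ℝ) ^ 2 / p.Q2 + 2 / p.E0 := by positivity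
  have h2 : (p.G1 : ℝ) ^ 2 * p.ρ1 ≤ 1 := by
    have e1 : (1 : ℝ) ≤ p.l0 * p.B1 := by nlinarith
    have e2 : 0 ≤ 24 * (p.G1 : ℝ) ^ 2 := by positivity
    have e3 : 24 * (p.G1 : ℝ) ^ 2 * (4 * p.ρ1) ≤
        24 * (p.G1 : ℝ) ^ 2 * p.l0 * p.B1 * (4 * p.ρ1 + 16 * (p.Q1 : ℝ) ^ 2 / p.Q2 + 2 / p.E0) := by
      have e4 : 4 * p.ρ1 ≤ 4 * p.ρ1 + 16 * (p.Q1 : ℝ) ^ 2 / p.Q2 + 2 / p.E0 := by linarith
      have e5 : 24 * (p.G1 : ℝ) ^ 2 ≤ 24 * (p.G1 : ℝ) ^ 2 * p.l0 * p.B1 := by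
        calc 24 * (p.G1 : ℝ) ^ 2 = 24 * (p.G1 : ℝ) ^ 2 * 1 := by ring
          _ ≤ 24 * (p.G1 : ℝ) ^ 2 * (p.l0 * p.B1) := mul_le_mul_of_nonneg_left e1 e2
          _ = _ := by ring
      exact mul_le_mul e5 e4 (by positivity) (by positivity)
    nlinarith
  have h3 : (p.G1 : ℝ) ^ 2 ≤ 1 / p.ρ1 := by
    rw [le_div_iff₀ hρ]
    exact h2
  have h4 : 1 / p.ρ1 ≤ 2 ^ 21 / p.ρ1 ^ 8 := by
    rw [div_le_div_iff₀ hρ (by positivity)]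
    have e1 : p.ρ1 ^ 8 ≤ p.ρ1 ^ 1 := pow_le_pow_of_le_one hρ.le p.hρ11 (by norm_num)
    rw [pow_one] at e1
    nlinarith
  have h5 : (p.G1 : ℝ) ^ 2 ≤ 2 * (p.H : ℝ) := h3.trans (h4.trans p.hHρ)
  exact_mod_cast h5

theorem rad (p : Par) : (2 * p.Q1 * p.θ + 4 * p.H * (2 ^ 30 * p.θ / (p.ρ1 ^ 12 * p.H))) /
    ((p.H : ℝ) / p.E0) ≤ p.r := by
  unfold θ r
  have h1 := Hpos p
  have h2 := Kpos p
  have h3 : 0 < p.ρ1 ^ 12 := pow_pos p.hρ1 12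
  have h4 : (0 : ℝ) < p.E0 := by exact_mod_cast p.hE0
  have h5 : (2 * (p.Q1 : ℝ) * (p.l0 / p.K) + 4 * p.H * (2 ^ 30 * (p.l0 / p.K) / (p.ρ1 ^ 12 * p.H))) /
      ((p.H : ℝ) / p.E0) = (4 * (p.l0 : ℝ) * p.E0 * (2 * p.Q1 + 2 ^ 32 / p.ρ1 ^ 12)) / (4 * p.K * p.H) := by
    have hρ0 : p.ρ1 ≠ 0 := p.hρ1.ne'
    field_simp
    ring
  rw [h5]
  exact div_le_div_of_nonneg_right p.hLam (by positivity)

theorem uniq (p : Par) : 8 * (p.Q1 : ℝ) ^ 2 * (p.H : ℝ) ^ 2 * (p.θ + 4 * p.H *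
    ((2 * p.Q1 * p.θ + 4 * p.H * (2 ^ 30 * p.θ / (p.ρ1 ^ 12 * p.H))) / ((p.H : ℝ) / p.E0))) < 1 := by
  have h1 := Hpos p
  have h2 := Kpos p
  have h3 := rad p
  have h4 := D_r p
  have h5 : p.θ + 4 * p.H *
      ((2 * p.Q1 * p.θ + 4 * p.H * (2 ^ 30 * p.θ / (p.ρ1 ^ 12 * p.H))) / ((p.H : ℝ) / p.E0)) ≤
      (p.l0 + p.Lam) / p.K := by
    have e1 := mul_le_mul_of_nonneg_left h3 (by positivity : (0 : ℝ) ≤ 4 * p.H)
    rw [h4] at e1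
    have e2 : p.θ = (p.l0 : ℝ) / p.K := rfl
    have e3 : ((p.l0 : ℝ) + p.Lam) / p.K = p.θ + p.Lam / p.K := by rw [e2, add_div]
    rw [e3]
    exact add_le_add le_rfl e1
  have h6 : (0 : ℝ) ≤ 8 * (p.Q1 : ℝ) ^ 2 * (p.H : ℝ) ^ 2 := by positivity
  refine lt_of_le_of_lt (mul_le_mul_of_nonneg_left h5 h6) ?_
  have h7 : 8 * (p.Q1 : ℝ) ^ 2 * (p.H : ℝ) ^ 2 * ((p.l0 + p.Lam) / p.K) =
      8 * (p.Q1 : ℝ) ^ 2 * (p.H : ℝ) ^ 2 * (p.l0 + p.Lam) / p.K := by ring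
  rw [h7, div_lt_one h2]
  exact KH_real p

end Pool.Agent.AAR.Par
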