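import Pool.Agent.AAR.Lin

/-!
# AAR-Quad: quadratic recurrence

PLAN.  For `1 ≤ a < H` let `S_a = {x : x, x + a ∈ S}`, `ρ₁ = ρ²/8`.  `∑_a |S_a| = |S|(|S|-1)/2 ≥ ρ²H²/3`,
so at least `(5/24) ρ² H` of the `a` have `|S_a| ≥ ρ₁ H`.  For these `nint (2 a ψ x + c_a) ≤ 2 ε` on
`S_a`, and `lin` gives `q_a ≤ 16/ρ²` with `nint (q_a (2 a ψ)) ≤ 32 ε/(ρ₁² H) = 2048 ε/(ρ⁴ H) =: ε'`.
Pigeonhole: the same `q` for at least `ρ₂ H` of the `a`, `ρ₂ = ρ⁴/128`.  `lin` for `2 q ψ` (variable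
`a ∈ Ico 0 (0 + H)`, `γ = 0`) gives `q' ≤ 2/ρ₂ = 256/ρ⁴` with `nint (q' (2 q ψ)) ≤ 16 ε'/(ρ₂² H)`,
which is `2^29 ε/(ρ¹² H²)`, and `2 q q' ≤ 8192/ρ⁶`.
-/

set_option autoImplicit false

namespace Pool.Agent.AAR

private theorem Quad_pairs (S : Finset ℤ) :
    2 * ((S ×ˢ S).filter (fun p => p.1 < p.2)).card + S.card = S.card * S.card := by
  have h1 : ((S ×ˢ S).filter (fun p => p.2 < p.1)).card = ((S ×ˢ S).filter (fun p => p.1 < p.2)).card := by
    refine Finset.card_bij (fun p _ => (p.2, p.1)) ?_ ?_ ?_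
    · intro p hp
      simp only [Finset.mem_filter, Finset.mem_product] at hp ⊢
      exact ⟨⟨hp.1.2, hp.1.1⟩, hp.2⟩
    · intro p _ q _ h
      simp only [Prod.mk.injEq] at h
      exact Prod.ext h.2 h.1
    · intro p hp
      simp only [Finset.mem_filter, Finset.mem_product] at hp
      exact ⟨(p.2, p.1), by simp only [Finset.mem_filter, Finset.mem_product]; exact ⟨⟨hp.1.2, hp.1.1⟩, hp.2⟩, rfl⟩
  have h2 : ((S ×ˢ S).filter (fun p => p.1 = p.2)).card = S.card := by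
    symm
    refine Finset.card_bij (fun x _ => (x, x)) ?_ ?_ ?_
    · intro x hx
      simp only [Finset.mem_filter, Finset.mem_product, and_true, and_self]
      exact hx
    · intro x _ y _ h
      exact congrArg Prod.fst h
    · intro p hp
      simp only [Finset.mem_filter, Finset.mem_product] at hp
      exact ⟨p.1, hp.1.1, Prod.ext rfl hp.2⟩
  have h3 : (S ×ˢ S) = ((S ×ˢ S).filter (fun p => p.1 < p.2) ∪ (S ×ˢ S).filter (fun p => p.2 < p.1)) ∪
      (S ×ˢ S).filter (fun p => p.1 = p.2) := by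
    ext p
    simp only [Finset.mem_union, Finset.mem_filter]
    constructor
    · intro hp
      rcases lt_trichotomy p.1 p.2 with h | h | h
      · exact Or.inl (Or.inl ⟨hp, h⟩)
      · exact Or.inr ⟨hp, h⟩
      · exact Or.inl (Or.inr ⟨hp, h⟩)
    · rintro ((h | h) | h)
      · exact h.1
      · exact h.1
      · exact h.1
  have h4 : Disjoint ((S ×ˢ S).filter (fun p => p.1 < p.2)) ((S ×ˢ S).filter (fun p => p.2 < p.1)) := by
    rw [Finset.disjoint_left]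
    intro p hp hp'
    have := (Finset.mem_filter.1 hp).2
    have := (Finset.mem_filter.1 hp').2
    omega
  have h5 : Disjoint ((S ×ˢ S).filter (fun p => p.1 < p.2) ∪ (S ×ˢ S).filter (fun p => p.2 < p.1))
      ((S ×ˢ S).filter (fun p => p.1 = p.2)) := by
    rw [Finset.disjoint_left]
    intro p hp hp'
    have h6 := (Finset.mem_filter.1 hp').2
    rcases Finset.mem_union.1 hp with h | h
    · have := (Finset.mem_filter.1 h).2
      omega
    · have := (Finset.mem_filter.1 h).2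
      omega
  have h6 : (S ×ˢ S).card = S.card * S.card := Finset.card_product S S
  rw [h3, Finset.card_union_of_disjoint h5, Finset.card_union_of_disjoint h4, h1, h2] at h6
  omega

/-- the sum of the numbers of the pairs with difference `a` -/
private theorem Quad_sum (x₀ : ℤ) (H : ℕ) (S : Finset ℤ) (hS : S ⊆ Finset.Ico x₀ (x₀ + H)) :
    S.card * S.card ≤ 2 * (∑ a ∈ Finset.Ico (1 : ℤ) H, (S.filter (fun x => x + a ∈ S)).card) + S.card := by
  have h1 : ((S ×ˢ S).filter (fun p => p.1 < p.2)).card ≤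
      ((Finset.Ico (1 : ℤ) H).sigma (fun a => S.filter (fun x => x + a ∈ S))).card := by
    refine Finset.card_le_card_of_injOn (fun p => ⟨p.2 - p.1, p.1⟩) ?_ ?_
    · intro p hp
      have hp' := Finset.mem_filter.1 (Finset.mem_coe.1 hp)
      have hp1 := Finset.mem_product.1 hp'.1
      have h2 := Finset.mem_Ico.1 (hS hp1.1)
      have h3 := Finset.mem_Ico.1 (hS hp1.2)
      have h4 := hp'.2
      refine Finset.mem_coe.2 (Finset.mem_sigma.2 ⟨Finset.mem_Ico.2 ⟨?_, ?_⟩, Finset.mem_filter.2 ⟨hp1.1, ?_⟩⟩)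
      · dsimp only
        omega
      · dsimp only
        omega
      · dsimp only
        have : p.1 + (p.2 - p.1) = p.2 := by ring
        rw [this]
        exact hp1.2
    · intro p _ q _ h
      simp only [Sigma.mk.injEq, heq_eq_eq] at h
      refine Prod.ext h.2 ?_
      have h3 := h.1
      have h4 := h.2
      omega
  rw [Finset.card_sigma] at h1
  have h2 := Quad_pairs S
  omega

/-- many differences are popular -/
private theorem Quad_pop (x₀ : ℤ) (H : ℕ) (S : Finset ℤ) {ρ : ℝ} (hρ : 0 < ρ) (hH3 : 3 ≤ ρ * H)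
    (hS : S ⊆ Finset.Ico x₀ (x₀ + H)) (hc : ρ * H ≤ S.card) :
    5 / 24 * ρ ^ 2 * H ≤ (((Finset.Ico (1 : ℤ) H).filter
      (fun a => ρ ^ 2 / 8 * H ≤ ((S.filter (fun x => x + a ∈ S)).card : ℝ))).card : ℝ) := by
  set T := (Finset.Ico (1 : ℤ) H).filter
      (fun a => ρ ^ 2 / 8 * H ≤ ((S.filter (fun x => x + a ∈ S)).card : ℝ)) with hT
  have hH0 : (0 : ℝ) < H := by
    by_contra h
    have h2 : (H : ℝ) = 0 := le_antisymm (not_lt.1 h) (Nat.cast_nonneg _)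
    rw [h2, mul_zero] at hH3
    norm_num at hH3
  have hScard : S.card ≤ H := by
    have h1 := Finset.card_le_card hS
    rw [Int.card_Ico] at h1
    omega
  have h1 := Quad_sum x₀ H S hS
  have h1' : (S.card : ℝ) * S.card ≤ 2 * (∑ a ∈ Finset.Ico (1 : ℤ) H,
      ((S.filter (fun x => x + a ∈ S)).card : ℝ)) + S.card := by exact_mod_cast h1
  have hs3 : ρ ^ 2 * H ^ 2 / 3 ≤ ∑ a ∈ Finset.Ico (1 : ℤ) H, ((S.filter (fun x => x + a ∈ S)).card : ℝ) := by
    have h2 : (ρ * H) * (ρ * H - 1) ≤ (S.card : ℝ) * (S.card - 1) := by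
      refine mul_le_mul hc (by linarith) (by linarith) (by positivity)
    nlinarith
  have hsplit : ∑ a ∈ Finset.Ico (1 : ℤ) H, ((S.filter (fun x => x + a ∈ S)).card : ℝ) ≤
      T.card * H + H * (ρ ^ 2 / 8 * H) := by
    rw [← Finset.sum_filter_add_sum_filter_not (Finset.Ico (1 : ℤ) H)
      (fun a => ρ ^ 2 / 8 * H ≤ ((S.filter (fun x => x + a ∈ S)).card : ℝ))]
    refine add_le_add ?_ ?_
    · rw [← hT, ← nsmul_eq_mul]
      refine Finset.sum_le_card_nsmul _ _ _ fun a _ => ?_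
      have h2 : (S.filter (fun x => x + a ∈ S)).card ≤ H := (Finset.card_filter_le _ _).trans hScard
      exact_mod_cast h2
    · have h3 : ∑ a ∈ (Finset.Ico (1 : ℤ) H).filter
          (fun a => ¬ ρ ^ 2 / 8 * H ≤ ((S.filter (fun x => x + a ∈ S)).card : ℝ)),
          ((S.filter (fun x => x + a ∈ S)).card : ℝ) ≤
          ((Finset.Ico (1 : ℤ) H).filter
          (fun a => ¬ ρ ^ 2 / 8 * H ≤ ((S.filter (fun x => x + a ∈ S)).card : ℝ))).card • (ρ ^ 2 / 8 * H) := by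
        refine Finset.sum_le_card_nsmul _ _ _ fun a ha => ?_
        exact (not_le.1 (Finset.mem_filter.1 ha).2).le
      refine h3.trans ?_
      rw [nsmul_eq_mul]
      refine mul_le_mul_of_nonneg_right ?_ (by positivity)
      have h4 : ((Finset.Ico (1 : ℤ) H).filter
          (fun a => ¬ ρ ^ 2 / 8 * H ≤ ((S.filter (fun x => x + a ∈ S)).card : ℝ))).card ≤ H := by
        refine (Finset.card_filter_le _ _).trans ?_
        rw [Int.card_Ico]
        omega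
      exact_mod_cast h4
  have h5 : 5 / 24 * ρ ^ 2 * H * H ≤ T.card * H := by nlinarith
  exact le_of_mul_le_mul_right h5 hH0

theorem quad (ψ γ₁ γ₀ ε ρ : ℝ) (x₀ : ℤ) (H : ℕ) (S : Finset ℤ) (hρ : 0 < ρ) (hρ1 : ρ ≤ 1)
    (hε0 : 0 ≤ ε) (hε : ε ≤ ρ ^ 8 / 2 ^ 24) (hH : 2 ^ 21 / ρ ^ 8 ≤ H)
    (hS : S ⊆ Finset.Ico x₀ (x₀ + H)) (hc : ρ * H ≤ S.card)
    (h : ∀ x ∈ S, nint (ψ * (x : ℝ) ^ 2 + γ₁ * x + γ₀) ≤ ε) :
    ∃ q : ℕ, 1 ≤ q ∧ (q : ℝ) ≤ 8192 / ρ ^ 6 ∧
      nint (q * ψ) ≤ 2 ^ 29 * ε / (ρ ^ 12 * (H : ℝ) ^ 2) := by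
  classical
  have hρ2 : ρ ^ 8 ≤ ρ ^ 4 := pow_le_pow_of_le_one hρ.le hρ1 (by norm_num)
  have hρ3 : ρ ^ 8 ≤ ρ ^ 2 := pow_le_pow_of_le_one hρ.le hρ1 (by norm_num)
  have hρ4 : ρ ^ 8 ≤ ρ := by
    have := pow_le_pow_of_le_one hρ.le hρ1 (show 1 ≤ 8 by norm_num)
    rwa [pow_one] at this
  have hρ5 : ρ ^ 8 ≤ 1 := pow_le_one₀ hρ.le hρ1
  have hρ6 : ρ ^ 2 ≤ 1 := pow_le_one₀ hρ.le hρ1
  have hρ7 : ρ ^ 4 ≤ 1 := pow_le_one₀ hρ.le hρ1
  have h8pos : 0 < ρ ^ 8 := by positivity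
  have hHρ : 2 ^ 21 ≤ ρ ^ 8 * H := by
    rw [div_le_iff₀ h8pos] at hH
    linarith
  have hH0 : (0 : ℝ) ≤ H := Nat.cast_nonneg _
  have hH1 : (2 : ℝ) ^ 21 ≤ H := by nlinarith
  have hHpos : (0 : ℝ) < H := by
    refine lt_of_lt_of_le (by norm_num) hH1
  have hH3 : 3 ≤ ρ * H := by
    have h1 : ρ ^ 8 * H ≤ ρ * H := mul_le_mul_of_nonneg_right hρ4 hH0
    norm_num at hHρ
    linarith
  have hpop := Quad_pop x₀ H S hρ hH3 hS hc
  set T := (Finset.Ico (1 : ℤ) H).filter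
      (fun a => ρ ^ 2 / 8 * H ≤ ((S.filter (fun x => x + a ∈ S)).card : ℝ)) with hT
  -- the first application of `lin`
  have hstep : ∀ a ∈ T, ∃ q : ℕ, 1 ≤ q ∧ (q : ℝ) ≤ 16 / ρ ^ 2 ∧
      nint (q * (2 * a * ψ)) ≤ 2048 * ε / (ρ ^ 4 * H) := by
    intro a ha
    have ha' := (Finset.mem_filter.1 ha).2
    have h1 : ∀ x ∈ S.filter (fun x => x + a ∈ S),
        nint ((2 * a * ψ) * x + (ψ * (a : ℝ) ^ 2 + γ₁ * a)) ≤ 2 * ε := by
      intro x hx
      have hx1 := (Finset.mem_filter.1 hx).1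
      have hx2 := (Finset.mem_filter.1 hx).2
      have h2 := h x hx1
      have h3 := h (x + a) hx2
      have h4 : (2 * a * ψ) * x + (ψ * (a : ℝ) ^ 2 + γ₁ * a) =
          (ψ * ((x + a : ℤ) : ℝ) ^ 2 + γ₁ * ((x + a : ℤ) : ℝ) + γ₀) - (ψ * (x : ℝ) ^ 2 + γ₁ * x + γ₀) := by
        push_cast
        ring
      rw [h4]
      refine (nint_sub _ _).trans ?_
      linarith
    obtain ⟨q, hq1, hq2, hq3⟩ := lin (2 * a * ψ) (ψ * (a : ℝ) ^ 2 + γ₁ * a) (2 * ε) (ρ ^ 2 / 8) x₀ H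
      (S.filter (fun x => x + a ∈ S)) (by positivity) (by linarith) (by linarith)
      (by
        have h5 : (2 : ℝ) ^ 24 = 16777216 := by norm_num
        rw [h5] at hε
        linarith)
      (by
        rw [div_le_iff₀ (by positivity)]
        have h5 : ρ ^ 8 * H ≤ ρ ^ 4 * H := mul_le_mul_of_nonneg_right hρ2 hH0
        have h6 : (H : ℝ) * (ρ ^ 2 / 8) ^ 2 = ρ ^ 4 * H / 64 := by ring
        rw [h6]
        norm_num at hHρ
        linarith)
      ((Finset.filter_subset _ _).trans hS) ha' h1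
    refine ⟨q, hq1, ?_, ?_⟩
    · have h5 : 2 / (ρ ^ 2 / 8) = 16 / ρ ^ 2 := by
        field_simp
        norm_num
      rw [← h5]
      exact hq2
    · have h5 : 16 * (2 * ε) / ((ρ ^ 2 / 8) ^ 2 * H) = 2048 * ε / (ρ ^ 4 * H) := by
        field_simp
        ring
      rw [← h5]
      exact hq3
  have hch : ∀ a : ℤ, ∃ q : ℕ, a ∈ T → 1 ≤ q ∧ (q : ℝ) ≤ 16 / ρ ^ 2 ∧
      nint (q * (2 * a * ψ)) ≤ 2048 * ε / (ρ ^ 4 * H) := by
    intro a
    by_cases ha : a ∈ T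
    · obtain ⟨q, hq⟩ := hstep a ha
      exact ⟨q, fun _ => hq⟩
    · exact ⟨0, fun h => absurd h ha⟩
  choose qq hqq using hch
  -- pigeonhole
  have hne : (Finset.Icc 1 ⌊16 / ρ ^ 2⌋₊).Nonempty := by
    rw [Finset.nonempty_Icc]
    refine Nat.le_floor ?_
    rw [Nat.cast_one, le_div_iff₀ (by positivity)]
    linarith
  obtain ⟨q, hq, hqc⟩ := Finset.exists_le_card_fiber_of_nsmul_le_card_of_maps_to (s := T)
    (t := Finset.Icc 1 ⌊16 / ρ ^ 2⌋₊) (f := qq) (b := ρ ^ 4 / 128 * H)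
    (by
      intro a ha
      obtain ⟨h1, h2, -⟩ := hqq a ha
      rw [Finset.mem_Icc]
      exact ⟨h1, Nat.le_floor h2⟩) hne
    (by
      rw [nsmul_eq_mul, Nat.card_Icc, Nat.add_sub_cancel]
      have h1 : (⌊16 / ρ ^ 2⌋₊ : ℝ) ≤ 16 / ρ ^ 2 := Nat.floor_le (by positivity)
      have h2 : (⌊16 / ρ ^ 2⌋₊ : ℝ) * (ρ ^ 4 / 128 * H) ≤ 16 / ρ ^ 2 * (ρ ^ 4 / 128 * H) :=
        mul_le_mul_of_nonneg_right h1 (by positivity)
      have h3 : 16 / ρ ^ 2 * (ρ ^ 4 / 128 * H) = ρ ^ 2 * H / 8 := by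
        field_simp
        ring
      rw [h3] at h2
      refine h2.trans (le_trans ?_ hpop)
      have h4 : 0 ≤ ρ ^ 2 * H := by positivity
      linarith)
  rw [Finset.mem_Icc] at hq
  have hq16 : (q : ℝ) ≤ 16 / ρ ^ 2 := by
    have h1 : (⌊16 / ρ ^ 2⌋₊ : ℝ) ≤ 16 / ρ ^ 2 := Nat.floor_le (by positivity)
    have h2 : (q : ℝ) ≤ (⌊16 / ρ ^ 2⌋₊ : ℝ) := by exact_mod_cast hq.2
    linarith
  -- the second application of `lin`
  obtain ⟨q', hq'1, hq'2, hq'3⟩ := lin (2 * q * ψ) 0 (2048 * ε / (ρ ^ 4 * H)) (ρ ^ 4 / 128) 0 H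
    (T.filter (fun a => qq a = q)) (by positivity) (by linarith) (by positivity)
    (by
      rw [div_le_iff₀ (by positivity)]
      have h1 : ρ ^ 4 / 128 / 64 * (ρ ^ 4 * H) = ρ ^ 8 * H / 8192 := by ring
      rw [h1]
      have h2 : (2 : ℝ) ^ 24 = 16777216 := by norm_num
      rw [h2] at hε
      have h3 : ρ ^ 8 * 1 ≤ ρ ^ 8 * H := mul_le_mul_of_nonneg_left (by linarith) h8pos.le
      linarith)
    (by
      rw [div_le_iff₀ (by positivity)]
      have h1 : (H : ℝ) * (ρ ^ 4 / 128) ^ 2 = ρ ^ 8 * H / 16384 := by ring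
      rw [h1]
      norm_num at hHρ
      linarith)
    (by
      intro a ha
      have h1 := (Finset.mem_filter.1 ((Finset.mem_filter.1 ha).1)).1
      rw [Finset.mem_Ico] at h1 ⊢
      omega) hqc
    (by
      intro a ha
      have h1 := Finset.mem_filter.1 ha
      obtain ⟨-, -, h2⟩ := hqq a h1.1
      rw [h1.2] at h2
      have h3 : 2 * q * ψ * a + 0 = (q : ℝ) * (2 * a * ψ) := by ring
      rw [h3]
      exact h2)
  refine ⟨2 * q * q', ?_, ?_, ?_⟩
  · have : 0 < 2 * q * q' := Nat.mul_pos (by omega) (by omega)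
    omega
  · push_cast
    have h1 : (q' : ℝ) ≤ 256 / ρ ^ 4 := by
      refine hq'2.trans (le_of_eq ?_)
      field_simp
      norm_num
    calc 2 * (q : ℝ) * q' ≤ 2 * (16 / ρ ^ 2) * (256 / ρ ^ 4) := by
          refine mul_le_mul (by linarith) h1 (by positivity) (by positivity)
      _ = 8192 / ρ ^ 6 := by
          field_simp
          norm_num
  · have h1 : ((2 * q * q' : ℕ) : ℝ) * ψ = q' * (2 * q * ψ) := by
      push_cast
      ring
    rw [h1]
    refine hq'3.trans (le_of_eq ?_)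
    field_simp
    ring

end Pool.Agent.AAR
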