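import Pool.Agent.AAR.Bas

/-!
# AAR-TTs: the TT* bound

PLAN.  `a_d(n) = fh Z (u_d v) (n/P)` for `n ∈ S d`, `T = ∑_d (1/P) ∑_{n ∈ S d} |a_d(n)|²` (the left side).
`T = ∑_z v(z) ∑_d u_d(z) A_d(z)` with `A_d(z) = (1/P) ∑_{n ∈ S d} conj(a_d(n)) e(-n z/P)`, `z < Z`.
Cauchy-Schwarz (`∑ v² ≤ Z`): `T² ≤ Z ∑_{z<Z} |∑_d u_d(z) A_d(z)|² = Z ∑_{d₀,d₁} I(d₀,d₁)`,
`I(d₀,d₁) = ∑_{z<Z} u_{d₀} u_{d₁} A_{d₀} conj(A_{d₁})`.  Let `‖a_d‖² = (1/P) ∑_{n ∈ S d} |a_d(n)|²`.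
near: `|I| ≤ ‖a_{d₀}‖ ‖a_{d₁}‖` (Cauchy-Schwarz, `∑_{z<Z} |A_d|² ≤ ∑_{z<P} |A_d|² = ‖a_d‖²`, orthogonality
of `e(n z/P)`), and `∑_{near} ‖a_{d₀}‖‖a_{d₁}‖ ≤ ∑_{near} (‖a_{d₀}‖²+‖a_{d₁}‖²)/2 ≤ N T` (symmetry).
not near: `I = (1/P²) ∑_{n,m} conj(a_{d₀}(n)) a_{d₁}(m) fh Z g ((n-m)/P)`, `g = u_{d₀} u_{d₁}`, so
`|I| ≤ ‖a_{d₀}‖‖a_{d₁}‖ hs^{1/2}`, and Cauchy-Schwarz over the pairs: `≤ T Q`.
So `T² ≤ Z T (N + Q)`.
-/

set_option autoImplicit false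

namespace Pool.Agent.AAR

open ComplexConjugate

private theorem TTs_ee (P n m z : ℕ) : ee (-((n : ℝ) / P * z)) * conj (ee (-((m : ℝ) / P * z)))
    = ee (-(((n : ℝ) - m) / P * z)) := by
  rw [ee_conj, ← ee_add]
  congr 1
  ring

private theorem TTs_orth (P : ℕ) (hP : 1 ≤ P) (n m : ℕ) (hn : n < P) (hm : m < P) :
    ∑ z ∈ Finset.range P, ee (-((n : ℝ) / P * z)) * conj (ee (-((m : ℝ) / P * z)))
      = if n = m then (P : ℂ) else 0 := by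
  have hP0 : (P : ℝ) ≠ 0 := by
    have : P ≠ 0 := by omega
    exact_mod_cast this
  split_ifs with h
  · subst h
    have h1 : ∀ z ∈ Finset.range P,
        ee (-((n : ℝ) / P * z)) * conj (ee (-((n : ℝ) / P * z))) = 1 := by
      intro z _
      rw [TTs_ee, sub_self, zero_div, zero_mul, neg_zero, ee_zero]
    rw [Finset.sum_congr rfl h1]
    simp
  · obtain ⟨x, hx⟩ : ∃ x : ℝ, x = -(((n : ℝ) - m) / P) := ⟨_, rfl⟩
    have h1 : ∀ z ∈ Finset.range P,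
        ee (-((n : ℝ) / P * z)) * conj (ee (-((m : ℝ) / P * z))) = ee x ^ z := by
      intro z _
      rw [TTs_ee, ← ee_nsmul, hx]
      congr 1
      ring
    rw [Finset.sum_congr rfl h1]
    have h2 : ee x ≠ 1 := by
      intro h3
      rw [ee, Complex.exp_eq_one_iff] at h3
      obtain ⟨k, hk⟩ := h3
      have h4 : (2 * Real.pi * x : ℝ) = k * (2 * Real.pi) := by
        have h5 : (((2 * Real.pi * x : ℝ) : ℂ)) * Complex.I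
            = (((k * (2 * Real.pi) : ℝ) : ℂ)) * Complex.I := by
          rw [hk]
          push_cast
          ring
        have h6 := mul_right_cancel₀ Complex.I_ne_zero h5
        exact_mod_cast h6
      have h5 : x = k := by
        have := Real.pi_pos
        have h6 : (2 * Real.pi) * x = (2 * Real.pi) * k := by linarith
        exact mul_left_cancel₀ (by positivity) h6
      rw [hx] at h5
      have h6 : (m : ℝ) - n = k * P := by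
        rw [← h5]
        field_simp
        ring
      have h7 : (m : ℤ) - n = k * P := by exact_mod_cast h6
      have h8 : k = 0 := by
        by_contra hk0
        have h9 : (P : ℤ) ≤ |k| * P := by
          have : 1 ≤ |k| := Int.one_le_abs hk0
          nlinarith
        have h10 : |(m : ℤ) - n| = |k| * P := by
          rw [h7, abs_mul, Nat.abs_cast]
        have h11 : |(m : ℤ) - n| < P := by
          rw [abs_lt]
          constructor <;> omega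
        omega
      rw [h8] at h7
      omega
    rw [geom_sum_eq h2, ← ee_nsmul]
    have h3 : (P : ℝ) * x = (((m : ℤ) - n : ℤ) : ℝ) := by
      rw [hx]
      push_cast
      field_simp
      ring
    rw [h3, ee_int]
    simp

private theorem TTs_bessel (P : ℕ) (hP : 1 ≤ P) (S : Finset ℕ) (hS : S ⊆ Finset.range P)
    (c : ℕ → ℂ) : ∑ z ∈ Finset.range P, ‖∑ n ∈ S, c n * ee (-((n : ℝ) / P * (z : ℕ)))‖ ^ 2
      = P * ∑ n ∈ S, ‖c n‖ ^ 2 := by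
  apply Complex.ofReal_injective
  push_cast
  have h1 : ∀ z ∈ Finset.range P,
      (‖∑ n ∈ S, c n * ee (-((n : ℝ) / P * (z : ℕ)))‖ : ℂ) ^ 2
        = ∑ n ∈ S, ∑ m ∈ S, (c n * conj (c m)) *
          (ee (-((n : ℝ) / P * z)) * conj (ee (-((m : ℝ) / P * z)))) := by
    intro z _
    rw [← Complex.mul_conj', map_sum, Finset.sum_mul_sum]
    refine Finset.sum_congr rfl fun n _ => Finset.sum_congr rfl fun m _ => ?_
    rw [map_mul]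
    ring
  rw [Finset.sum_congr rfl h1, Finset.sum_comm, Finset.mul_sum]
  refine Finset.sum_congr rfl fun n hn => ?_
  rw [Finset.sum_comm]
  have h2 : ∀ m ∈ S, ∑ z ∈ Finset.range P, (c n * conj (c m)) *
      (ee (-((n : ℝ) / P * z)) * conj (ee (-((m : ℝ) / P * z))))
        = if n = m then (P : ℂ) * (‖c n‖ : ℂ) ^ 2 else 0 := by
    intro m hm
    rw [← Finset.mul_sum, TTs_orth P hP n m (Finset.mem_range.1 (hS hn))
      (Finset.mem_range.1 (hS hm))]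
    split_ifs with h
    · subst h
      rw [Complex.mul_conj']
      ring
    · rw [mul_zero]
  rw [Finset.sum_congr rfl h2, Finset.sum_ite_eq, if_pos hn]

private theorem TTs_cs {ι : Type*} (s : Finset ι) (x p q : ι → ℝ) (hp : ∀ i ∈ s, 0 ≤ p i)
    (hq : ∀ i ∈ s, 0 ≤ q i) (h : ∀ i ∈ s, x i ^ 2 ≤ p i * q i) :
    (∑ i ∈ s, x i) ^ 2 ≤ (∑ i ∈ s, p i) * ∑ i ∈ s, q i := by
  have h1 : ∀ i ∈ s, |x i| ≤ √(p i) * √(q i) := by
    intro i hi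
    rw [← Real.sqrt_mul (hp i hi)]
    exact Real.abs_le_sqrt (h i hi)
  have h2 : |∑ i ∈ s, x i| ≤ ∑ i ∈ s, √(p i) * √(q i) :=
    (Finset.abs_sum_le_sum_abs _ _).trans (Finset.sum_le_sum h1)
  calc (∑ i ∈ s, x i) ^ 2 = |∑ i ∈ s, x i| ^ 2 := (sq_abs _).symm
    _ ≤ (∑ i ∈ s, √(p i) * √(q i)) ^ 2 := by gcongr
    _ ≤ (∑ i ∈ s, √(p i) ^ 2) * ∑ i ∈ s, √(q i) ^ 2 := Finset.sum_mul_sq_le_sq_mul_sq _ _ _
    _ = (∑ i ∈ s, p i) * ∑ i ∈ s, q i := by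
      rw [Finset.sum_congr rfl fun i hi => Real.sq_sqrt (hp i hi),
        Finset.sum_congr rfl fun i hi => Real.sq_sqrt (hq i hi)]

/-- the coefficients of `A_d` -/
private noncomputable def TTs_c (Z P : ℕ) (u : ℕ → ℤ → ℝ) (v : ℤ → ℝ) (d n : ℕ) : ℂ :=
  conj (fh Z (fun z => u d z * v z) ((n : ℝ) / P)) / P

/-- `A_d` -/
private noncomputable def TTs_A (Z P : ℕ) (u : ℕ → ℤ → ℝ) (v : ℤ → ℝ) (S : ℕ → Finset ℕ)
    (d z : ℕ) : ℂ :=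
  ∑ n ∈ S d, TTs_c Z P u v d n * ee (-((n : ℝ) / P * (z : ℕ)))

private theorem TTs_normc (Z P : ℕ) (hP : 1 ≤ P) (u : ℕ → ℤ → ℝ) (v : ℤ → ℝ) (S : Finset ℕ)
    (d : ℕ) : ∑ n ∈ S, ‖TTs_c Z P u v d n‖ ^ 2 = en Z P (fun z => u d z * v z) S / P := by
  have hP0 : (P : ℝ) ≠ 0 := by
    have : P ≠ 0 := by omega
    exact_mod_cast this
  unfold TTs_c en
  rw [div_div, Finset.sum_div]
  refine Finset.sum_congr rfl fun n _ => ?_
  rw [norm_div, Complex.norm_conj, Complex.norm_natCast, div_pow]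
  congr 1
  ring

private theorem TTs_en (Z P : ℕ) (u : ℕ → ℤ → ℝ) (v : ℤ → ℝ) (S : ℕ → Finset ℕ) (d : ℕ) :
    ((en Z P (fun z => u d z * v z) (S d) : ℝ) : ℂ)
      = ∑ z ∈ Finset.range Z, (v (z : ℤ) : ℂ) * ((u d (z : ℤ) : ℂ) * TTs_A Z P u v S d z) := by
  have h1 : ∑ z ∈ Finset.range Z, (v (z : ℤ) : ℂ) * ((u d (z : ℤ) : ℂ) * TTs_A Z P u v S d z)
      = ∑ n ∈ S d, TTs_c Z P u v d n * fh Z (fun z => u d z * v z) ((n : ℝ) / P) := by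
    unfold TTs_A fh
    simp only [Finset.mul_sum]
    rw [Finset.sum_comm]
    refine Finset.sum_congr rfl fun n _ => Finset.sum_congr rfl fun z _ => ?_
    push_cast
    ring
  rw [h1]
  unfold en TTs_c
  push_cast
  rw [Finset.sum_div]
  refine Finset.sum_congr rfl fun n _ => ?_
  rw [← Complex.conj_mul']
  ring

private theorem TTs_A_le (Z P : ℕ) (hP : 1 ≤ P) (hZP : Z ≤ P) (u : ℕ → ℤ → ℝ) (v : ℤ → ℝ)
    (S : ℕ → Finset ℕ) (hS : ∀ d, S d ⊆ Finset.range P) (d : ℕ) :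
    ∑ z ∈ Finset.range Z, ‖TTs_A Z P u v S d z‖ ^ 2 ≤ en Z P (fun z => u d z * v z) (S d) := by
  have hP0 : (P : ℝ) ≠ 0 := by
    have : P ≠ 0 := by omega
    exact_mod_cast this
  have h1 : ∑ z ∈ Finset.range P, ‖TTs_A Z P u v S d z‖ ^ 2
      = en Z P (fun z => u d z * v z) (S d) := by
    have h2 := TTs_bessel P hP (S d) (hS d) (TTs_c Z P u v d)
    rw [TTs_normc Z P hP u v (S d) d] at h2
    refine Eq.trans h2 ?_
    field_simp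
  rw [← h1]
  exact Finset.sum_le_sum_of_subset_of_nonneg (Finset.range_mono hZP) fun _ _ _ => by positivity

private theorem TTs_I (Z P : ℕ) (u : ℕ → ℤ → ℝ) (v : ℤ → ℝ) (S : ℕ → Finset ℕ) (d₀ d₁ : ℕ) :
    ∑ z ∈ Finset.range Z, ((u d₀ (z : ℤ) : ℂ) * TTs_A Z P u v S d₀ z) *
        conj ((u d₁ (z : ℤ) : ℂ) * TTs_A Z P u v S d₁ z)
      = ∑ n ∈ S d₀, ∑ m ∈ S d₁, (TTs_c Z P u v d₀ n * conj (TTs_c Z P u v d₁ m)) *
        fh Z (fun z => u d₀ z * u d₁ z) (((n : ℝ) - m) / P) := by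
  have h1 : ∀ z ∈ Finset.range Z, ((u d₀ (z : ℤ) : ℂ) * TTs_A Z P u v S d₀ z) *
        conj ((u d₁ (z : ℤ) : ℂ) * TTs_A Z P u v S d₁ z)
      = ∑ n ∈ S d₀, ∑ m ∈ S d₁, (TTs_c Z P u v d₀ n * conj (TTs_c Z P u v d₁ m)) *
        ((((u d₀ (z : ℤ) * u d₁ (z : ℤ) : ℝ) : ℂ)) * ee (-(((n : ℝ) - m) / P * (z : ℕ)))) := by
    intro z _
    unfold TTs_A
    rw [map_mul, map_sum, Finset.mul_sum, Finset.mul_sum, Finset.sum_mul_sum]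
    refine Finset.sum_congr rfl fun n _ => Finset.sum_congr rfl fun m _ => ?_
    rw [map_mul, Complex.conj_ofReal, ← TTs_ee]
    push_cast
    ring
  rw [Finset.sum_congr rfl h1, Finset.sum_comm]
  refine Finset.sum_congr rfl fun n _ => ?_
  rw [Finset.sum_comm]
  refine Finset.sum_congr rfl fun m _ => ?_
  unfold fh
  rw [Finset.mul_sum]

private theorem TTs_I_far (Z P : ℕ) (hP : 1 ≤ P) (u : ℕ → ℤ → ℝ) (v : ℤ → ℝ)
    (S : ℕ → Finset ℕ) (d₀ d₁ : ℕ) :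
    ‖∑ z ∈ Finset.range Z, ((u d₀ (z : ℤ) : ℂ) * TTs_A Z P u v S d₀ z) *
        conj ((u d₁ (z : ℤ) : ℂ) * TTs_A Z P u v S d₁ z)‖ ^ 2
      ≤ (en Z P (fun z => u d₀ z * v z) (S d₀) * en Z P (fun z => u d₁ z * v z) (S d₁)) *
        hs Z P (fun z => u d₀ z * u d₁ z) (S d₀) (S d₁) := by
  have hP0 : (P : ℝ) ≠ 0 := by
    have : P ≠ 0 := by omega
    exact_mod_cast this
  rw [TTs_I]
  have h1 : ‖∑ n ∈ S d₀, ∑ m ∈ S d₁, (TTs_c Z P u v d₀ n * conj (TTs_c Z P u v d₁ m)) *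
        fh Z (fun z => u d₀ z * u d₁ z) (((n : ℝ) - m) / P)‖
      ≤ ∑ p ∈ S d₀ ×ˢ S d₁, (‖TTs_c Z P u v d₀ p.1‖ * ‖TTs_c Z P u v d₁ p.2‖) *
        ‖fh Z (fun z => u d₀ z * u d₁ z) (((p.1 : ℝ) - p.2) / P)‖ := by
    rw [Finset.sum_product]
    refine (norm_sum_le _ _).trans (Finset.sum_le_sum fun n _ => ?_)
    refine (norm_sum_le _ _).trans (Finset.sum_le_sum fun m _ => ?_)
    rw [norm_mul, norm_mul, Complex.norm_conj]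
  have h2 : (∑ p ∈ S d₀ ×ˢ S d₁, (‖TTs_c Z P u v d₀ p.1‖ * ‖TTs_c Z P u v d₁ p.2‖) *
        ‖fh Z (fun z => u d₀ z * u d₁ z) (((p.1 : ℝ) - p.2) / P)‖) ^ 2
      ≤ (∑ p ∈ S d₀ ×ˢ S d₁, ‖TTs_c Z P u v d₀ p.1‖ ^ 2 * ‖TTs_c Z P u v d₁ p.2‖ ^ 2) *
        ∑ p ∈ S d₀ ×ˢ S d₁, ‖fh Z (fun z => u d₀ z * u d₁ z) (((p.1 : ℝ) - p.2) / P)‖ ^ 2 := by
    refine (Finset.sum_mul_sq_le_sq_mul_sq _ _ _).trans (le_of_eq ?_)
    simp only [mul_pow]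
  have h3 : ∑ p ∈ S d₀ ×ˢ S d₁, ‖TTs_c Z P u v d₀ p.1‖ ^ 2 * ‖TTs_c Z P u v d₁ p.2‖ ^ 2
      = (en Z P (fun z => u d₀ z * v z) (S d₀) / P) *
        (en Z P (fun z => u d₁ z * v z) (S d₁) / P) := by
    rw [← TTs_normc Z P hP u v (S d₀) d₀, ← TTs_normc Z P hP u v (S d₁) d₁,
      Finset.sum_mul_sum, Finset.sum_product]
  have h4 : ∑ p ∈ S d₀ ×ˢ S d₁, ‖fh Z (fun z => u d₀ z * u d₁ z) (((p.1 : ℝ) - p.2) / P)‖ ^ 2
      = (P : ℝ) ^ 2 * hs Z P (fun z => u d₀ z * u d₁ z) (S d₀) (S d₁) := by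
    unfold hs
    rw [Finset.sum_product]
    field_simp
  calc _ ≤ (∑ p ∈ S d₀ ×ˢ S d₁, (‖TTs_c Z P u v d₀ p.1‖ * ‖TTs_c Z P u v d₁ p.2‖) *
        ‖fh Z (fun z => u d₀ z * u d₁ z) (((p.1 : ℝ) - p.2) / P)‖) ^ 2 := by gcongr
    _ ≤ _ := h2
    _ = _ := by
      rw [h3, h4]
      field_simp

open Classical in
theorem tts (Z P : ℕ) (hZ : 1 ≤ Z) (hZP : Z ≤ P) (D : Finset ℕ) (u : ℕ → ℤ → ℝ) (v : ℤ → ℝ)
    (hu : ∀ d z, u d z = 0 ∨ u d z = 1) (hv : ∀ z, v z = 0 ∨ v z = 1) (S : ℕ → Finset ℕ)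
    (hS : ∀ d, S d ⊆ Finset.range P) (near : ℕ → ℕ → Prop)
    (hsymm : ∀ a b, near a b → near b a) (N Q : ℝ) (hN0 : 0 ≤ N) (hQ0 : 0 ≤ Q)
    (hN : ∀ d₀ ∈ D, ((D.filter (fun d₁ => near d₀ d₁)).card : ℝ) ≤ N)
    (hQ : ∑ d₀ ∈ D, ∑ d₁ ∈ D.filter (fun d₁ => ¬ near d₀ d₁),
      hs Z P (fun z => u d₀ z * u d₁ z) (S d₀) (S d₁) ≤ Q ^ 2) :
    ∑ d ∈ D, en Z P (fun z => u d z * v z) (S d) ≤ Z * (N + Q) := by
  have hP : 1 ≤ P := hZ.trans hZP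
  obtain ⟨E, hE⟩ : ∃ E : ℕ → ℝ, ∀ d, E d = en Z P (fun z => u d z * v z) (S d) :=
    ⟨_, fun _ => rfl⟩
  have hE0 : ∀ d, 0 ≤ E d := fun d => by
    rw [hE, en]
    positivity
  obtain ⟨B, hB⟩ : ∃ B : ℕ → ℕ → ℂ, ∀ d z, B d z = (u d (z : ℤ) : ℂ) * TTs_A Z P u v S d z :=
    ⟨_, fun _ _ => rfl⟩
  obtain ⟨T, hT⟩ : ∃ T : ℝ, T = ∑ d ∈ D, E d := ⟨_, rfl⟩
  have hT0 : 0 ≤ T := by
    rw [hT]
    exact Finset.sum_nonneg fun d _ => hE0 d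
  have hu1 : ∀ d z, |u d z| ≤ 1 := fun d z => by
    rcases hu d z with h | h <;> rw [h] <;> norm_num
  -- norms of `B`
  have hBE : ∀ d, ∑ z ∈ Finset.range Z, ‖B d z‖ ^ 2 ≤ E d := by
    intro d
    rw [hE]
    refine le_trans (Finset.sum_le_sum fun z _ => ?_) (TTs_A_le Z P hP hZP u v S hS d)
    rw [hB, norm_mul, Complex.norm_real, Real.norm_eq_abs]
    have h1 := hu1 d (z : ℤ)
    have h2 : |u d (z : ℤ)| * ‖TTs_A Z P u v S d z‖ ≤ 1 * ‖TTs_A Z P u v S d z‖ := by gcongr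
    rw [one_mul] at h2
    gcongr
  -- first Cauchy-Schwarz
  have hTc : (T : ℂ) = ∑ z ∈ Finset.range Z, (v (z : ℤ) : ℂ) * ∑ d ∈ D, B d z := by
    rw [hT]
    push_cast
    have h1 : ∀ d ∈ D, ((E d : ℝ) : ℂ) = ∑ z ∈ Finset.range Z, (v (z : ℤ) : ℂ) * B d z := by
      intro d _
      rw [hE, TTs_en]
      refine Finset.sum_congr rfl fun z _ => ?_
      rw [hB]
    rw [Finset.sum_congr rfl h1, Finset.sum_comm]
    simp only [Finset.mul_sum]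
  have hT1 : T ^ 2 ≤ Z * ∑ z ∈ Finset.range Z, ‖∑ d ∈ D, B d z‖ ^ 2 := by
    have h1 : T ≤ ∑ z ∈ Finset.range Z, |v (z : ℤ)| * ‖∑ d ∈ D, B d z‖ := by
      have h2 : T = ‖(T : ℂ)‖ := by
        rw [Complex.norm_real, Real.norm_eq_abs, abs_of_nonneg hT0]
      rw [h2, hTc]
      refine (norm_sum_le _ _).trans (Finset.sum_le_sum fun z _ => ?_)
      rw [norm_mul, Complex.norm_real, Real.norm_eq_abs]
    have h2 : ∑ z ∈ Finset.range Z, |v (z : ℤ)| ^ 2 ≤ Z := by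
      have h3 : ∀ z ∈ Finset.range Z, |v (z : ℤ)| ^ 2 ≤ 1 := by
        intro z _
        rcases hv z with h | h <;> rw [h] <;> norm_num
      refine (Finset.sum_le_sum h3).trans (le_of_eq ?_)
      simp
    calc T ^ 2 ≤ (∑ z ∈ Finset.range Z, |v (z : ℤ)| * ‖∑ d ∈ D, B d z‖) ^ 2 := by gcongr
      _ ≤ (∑ z ∈ Finset.range Z, |v (z : ℤ)| ^ 2) * ∑ z ∈ Finset.range Z, ‖∑ d ∈ D, B d z‖ ^ 2 :=
        Finset.sum_mul_sq_le_sq_mul_sq _ _ _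
      _ ≤ _ := by gcongr
  -- expansion of the square
  obtain ⟨I, hI⟩ : ∃ I : ℕ → ℕ → ℂ, ∀ d₀ d₁, I d₀ d₁
      = ∑ z ∈ Finset.range Z, B d₀ z * conj (B d₁ z) := ⟨_, fun _ _ => rfl⟩
  have hW : ∑ z ∈ Finset.range Z, ‖∑ d ∈ D, B d z‖ ^ 2 ≤ ∑ d₀ ∈ D, ∑ d₁ ∈ D, ‖I d₀ d₁‖ := by
    have h1 : ((∑ z ∈ Finset.range Z, ‖∑ d ∈ D, B d z‖ ^ 2 : ℝ) : ℂ)
        = ∑ d₀ ∈ D, ∑ d₁ ∈ D, I d₀ d₁ := by
      push_cast
      have h2 : ∀ z ∈ Finset.range Z, (‖∑ d ∈ D, B d z‖ : ℂ) ^ 2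
          = ∑ d₀ ∈ D, ∑ d₁ ∈ D, B d₀ z * conj (B d₁ z) := by
        intro z _
        rw [← Complex.mul_conj', map_sum, Finset.sum_mul_sum]
      rw [Finset.sum_congr rfl h2, Finset.sum_comm]
      refine Finset.sum_congr rfl fun d₀ _ => ?_
      rw [Finset.sum_comm]
      refine Finset.sum_congr rfl fun d₁ _ => (hI d₀ d₁).symm
    have h2 : ∑ z ∈ Finset.range Z, ‖∑ d ∈ D, B d z‖ ^ 2
        = ‖((∑ z ∈ Finset.range Z, ‖∑ d ∈ D, B d z‖ ^ 2 : ℝ) : ℂ)‖ := by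
      rw [Complex.norm_real, Real.norm_eq_abs, abs_of_nonneg (by positivity)]
    rw [h2, h1]
    exact (norm_sum_le _ _).trans (Finset.sum_le_sum fun d₀ _ => norm_sum_le _ _)
  -- near pairs
  have hnear : ∀ d₀ d₁, ‖I d₀ d₁‖ ≤ (E d₀ + E d₁) / 2 := by
    intro d₀ d₁
    rw [hI]
    have h1 : ‖∑ z ∈ Finset.range Z, B d₀ z * conj (B d₁ z)‖
        ≤ ∑ z ∈ Finset.range Z, (‖B d₀ z‖ ^ 2 + ‖B d₁ z‖ ^ 2) / 2 := by
      refine (norm_sum_le _ _).trans (Finset.sum_le_sum fun z _ => ?_)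
      rw [norm_mul, Complex.norm_conj]
      nlinarith [sq_nonneg (‖B d₀ z‖ - ‖B d₁ z‖)]
    rw [← Finset.sum_div, Finset.sum_add_distrib] at h1
    have h2 := hBE d₀
    have h3 := hBE d₁
    linarith
  -- far pairs
  obtain ⟨G, hG⟩ : ∃ G : ℕ → ℕ → ℝ, ∀ d₀ d₁, G d₀ d₁
      = hs Z P (fun z => u d₀ z * u d₁ z) (S d₀) (S d₁) := ⟨_, fun _ _ => rfl⟩
  have hfar : ∀ d₀ d₁, ‖I d₀ d₁‖ ^ 2 ≤ (E d₀ * E d₁) * G d₀ d₁ := by
    intro d₀ d₁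
    have h1 := TTs_I_far Z P hP u v S d₀ d₁
    rw [hI, hE, hE, hG]
    simp only [hB]
    exact h1
  have hs0 : ∀ d₀ d₁, 0 ≤ G d₀ d₁ := fun d₀ d₁ => by
    rw [hG]
    unfold hs
    positivity
  simp only [← hG] at hQ
  have hsplit : ∑ d₀ ∈ D, ∑ d₁ ∈ D, ‖I d₀ d₁‖
      = (∑ d₀ ∈ D, ∑ d₁ ∈ D.filter (fun d₁ => near d₀ d₁), ‖I d₀ d₁‖)
        + ∑ d₀ ∈ D, ∑ d₁ ∈ D.filter (fun d₁ => ¬ near d₀ d₁), ‖I d₀ d₁‖ := by
    rw [← Finset.sum_add_distrib]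
    exact Finset.sum_congr rfl fun d₀ _ => (Finset.sum_filter_add_sum_filter_not D _ _).symm
  have hnsum : ∑ d₀ ∈ D, ∑ d₁ ∈ D.filter (fun d₁ => near d₀ d₁), ‖I d₀ d₁‖ ≤ N * T := by
    have h1 : ∑ d₀ ∈ D, ∑ d₁ ∈ D.filter (fun d₁ => near d₀ d₁), E d₀ ≤ N * T := by
      rw [hT, Finset.mul_sum]
      refine Finset.sum_le_sum fun d₀ hd₀ => ?_
      rw [Finset.sum_const, nsmul_eq_mul]
      exact mul_le_mul_of_nonneg_right (hN d₀ hd₀) (hE0 d₀)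
    have h2 : ∑ d₀ ∈ D, ∑ d₁ ∈ D.filter (fun d₁ => near d₀ d₁), E d₁
        = ∑ d₀ ∈ D, ∑ d₁ ∈ D.filter (fun d₁ => near d₀ d₁), E d₀ := by
      simp only [Finset.sum_filter]
      rw [Finset.sum_comm]
      refine Finset.sum_congr rfl fun d₀ _ => Finset.sum_congr rfl fun d₁ _ => ?_
      exact if_congr ⟨hsymm _ _, hsymm _ _⟩ rfl rfl
    have h3 : ∑ d₀ ∈ D, ∑ d₁ ∈ D.filter (fun d₁ => near d₀ d₁), ‖I d₀ d₁‖
        ≤ ∑ d₀ ∈ D, ∑ d₁ ∈ D.filter (fun d₁ => near d₀ d₁), (E d₀ + E d₁) / 2 :=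
      Finset.sum_le_sum fun d₀ _ => Finset.sum_le_sum fun d₁ _ => hnear d₀ d₁
    have h4 : ∑ d₀ ∈ D, ∑ d₁ ∈ D.filter (fun d₁ => near d₀ d₁), (E d₀ + E d₁) / 2
        = ((∑ d₀ ∈ D, ∑ d₁ ∈ D.filter (fun d₁ => near d₀ d₁), E d₀)
          + ∑ d₀ ∈ D, ∑ d₁ ∈ D.filter (fun d₁ => near d₀ d₁), E d₁) / 2 := by
      rw [← Finset.sum_add_distrib, Finset.sum_div]
      refine Finset.sum_congr rfl fun d₀ _ => ?_
      rw [← Finset.sum_add_distrib, Finset.sum_div]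
    rw [h4, h2] at h3
    linarith
  have hfsum : ∑ d₀ ∈ D, ∑ d₁ ∈ D.filter (fun d₁ => ¬ near d₀ d₁), ‖I d₀ d₁‖ ≤ T * Q := by
    apply abs_le_of_sq_le_sq' _ (by positivity) |>.2
    rw [Finset.sum_sigma']
    rw [Finset.sum_sigma'] at hQ
    refine (TTs_cs _ _ (fun x => E x.1 * E x.2) (fun x => G x.1 x.2)
      (fun x _ => mul_nonneg (hE0 x.1) (hE0 x.2)) (fun x _ => hs0 x.1 x.2)
      (fun x _ => hfar x.1 x.2)).trans ?_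
    rw [mul_pow]
    have h1 : ∑ x ∈ D.sigma (fun d₀ => D.filter (fun d₁ => ¬ near d₀ d₁)), E x.1 * E x.2
        ≤ T ^ 2 := by
      rw [← Finset.sum_sigma' D (fun d₀ => D.filter (fun d₁ => ¬ near d₀ d₁))
        (fun d₀ d₁ => E d₀ * E d₁), hT, sq, Finset.sum_mul_sum]
      refine Finset.sum_le_sum fun d₀ _ => ?_
      exact Finset.sum_le_sum_of_subset_of_nonneg (Finset.filter_subset _ _)
        fun d₁ _ _ => mul_nonneg (hE0 d₀) (hE0 d₁)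
    exact mul_le_mul h1 hQ (Finset.sum_nonneg fun x _ => hs0 x.1 x.2) (by positivity)
  have hfin : T ^ 2 ≤ T * (Z * (N + Q)) := by
    refine hT1.trans ?_
    have h1 : ∑ z ∈ Finset.range Z, ‖∑ d ∈ D, B d z‖ ^ 2 ≤ N * T + T * Q := by
      refine hW.trans ?_
      rw [hsplit]
      exact add_le_add hnsum hfsum
    have h2 : (Z : ℝ) * ∑ z ∈ Finset.range Z, ‖∑ d ∈ D, B d z‖ ^ 2 ≤ Z * (N * T + T * Q) := by
      gcongr
    linarith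
  have hgoal : ∑ d ∈ D, en Z P (fun z => u d z * v z) (S d) = T := by
    rw [hT]
    exact Finset.sum_congr rfl fun d _ => (hE d).symm
  rw [hgoal]
  rcases hT0.eq_or_lt with h | h
  · rw [← h]
    positivity
  · rw [sq] at hfin
    exact le_of_mul_le_mul_left hfin h

end Pool.Agent.AAR
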