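import Pool.Agent.AAR.Hsb
import Pool.Agent.AAR.TTs
import Pool.Agent.AAR.BadD

/-!
# AAR-Rsa: the rest, one frequency `β`

PLAN.  `d ∈ bad G1 H`: `en ≤ ∑_z h² ≤ Z` (`psv0`), at most `4H/G1` such `d` (`bad_card`), `X` columns.  For the others write
`x' = x + d` (terms with `x' ≥ X` vanish): for each `x' < X` apply `tts` with `D = ds H \ bad G1 H`,
`u d z = f (x' - d) z`, `v z = f x' z`, `S d = Nd p β d`, `near a b := G1² < gcd a b` (this includes `a = b` in `ds H` by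
`Par.G1_H`), `N = 4H/G1` (`near_card`), `Q = Q_{x'}` the square root of the sum of the `hs`.  `∑_{x'} Z(N + Q_{x'}) ≤
ZXN + Z X^{1/2} (∑ Q_{x'}²)^{1/2}`, and `hsb`, `hρσ`: `∑ Q² ≤ (σ²/4) H² X`.  Total `≤ 8HXZ/G1 + (σ/2) HXZ ≤ σ HXZ` (`hG1σ`).
-/

set_option autoImplicit false

namespace Pool.Agent.AAR

private theorem Rsa_en_nonneg (Z P : ℕ) (h : ℤ → ℝ) (S : Finset ℕ) : 0 ≤ en Z P h S := by
  unfold en
  exact div_nonneg (Finset.sum_nonneg fun n _ => by positivity) (Nat.cast_nonneg P)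

private theorem Rsa_en_mono (Z P : ℕ) (h : ℤ → ℝ) {S T : Finset ℕ} (hST : S ⊆ T) :
    en Z P h S ≤ en Z P h T := by
  unfold en
  refine div_le_div_of_nonneg_right ?_ (Nat.cast_nonneg P)
  exact Finset.sum_le_sum_of_subset_of_nonneg hST fun n _ _ => by positivity

private theorem Rsa_hs_nonneg (Z P : ℕ) (g : ℤ → ℝ) (S T : Finset ℕ) : 0 ≤ hs Z P g S T := by
  unfold hs
  exact div_nonneg (Finset.sum_nonneg fun n _ => Finset.sum_nonneg fun m _ => by positivity)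
    (by positivity)

private theorem Rsa_Nd_sub (p : Par) (β : ℝ) (d : ℕ) : Nd p β d ⊆ Finset.range p.P := by
  classical
  intro n hn
  unfold Nd rest at hn
  exact (Finset.mem_filter.mp (Finset.mem_filter.mp hn).1).1

private theorem Rsa_ZP (p : Par) : p.Z ≤ p.P := by
  have h1 := p.hP
  have h2 : p.Z ≤ 4 * p.B1 * p.K * p.H + 1 := Nat.le_succ _
  refine h2.trans (le_trans ?_ h1)
  exact Nat.le_self_pow (by norm_num) _

private theorem Rsa_en_le (p : Par) (f : ℤ → ℤ → ℝ) (c : Cell p f) (β : ℝ) (x x' : ℤ) (d : ℕ) :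
    en p.Z p.P (pr f x x') (Nd p β d) ≤ p.Z := by
  refine (Rsa_en_mono p.Z p.P _ (Rsa_Nd_sub p β d)).trans ?_
  have hP1 : 1 ≤ p.P := (Par.Z_one p).trans (Rsa_ZP p)
  rw [psv0 p.Z p.P _ hP1 (Rsa_ZP p)]
  have h1 : ∀ z ∈ Finset.range p.Z, (pr f x x' (z : ℤ)) ^ 2 ≤ 1 := by
    intro z _
    unfold pr
    rcases c.f01 x z with h | h <;> rcases c.f01 x' z with h' | h' <;> rw [h, h'] <;> norm_num
  refine (Finset.sum_le_sum h1).trans (le_of_eq ?_)
  simp

private theorem Rsa_en_zero (p : Par) (f : ℤ → ℤ → ℝ) (c : Cell p f) (β : ℝ) (x x' : ℤ) (d : ℕ)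
    (h : (p.X : ℤ) ≤ x') : en p.Z p.P (pr f x x') (Nd p β d) = 0 := by
  have h1 : ∀ φ : ℝ, fh p.Z (pr f x x') φ = 0 := by
    intro φ
    unfold fh
    refine Finset.sum_eq_zero fun z _ => ?_
    unfold pr
    rw [c.supp x' z (Or.inr (Or.inl h)), mul_zero]
    simp
  unfold en
  simp [h1]

/-- the substitution `x' = x + d` -/
private theorem Rsa_shift (p : Par) (f : ℤ → ℤ → ℝ) (c : Cell p f) (β : ℝ) (d : ℕ) :
    ∑ x ∈ Finset.range p.X, en p.Z p.P (pr f x (x + d)) (Nd p β d) ≤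
      ∑ x' ∈ Finset.range p.X, en p.Z p.P (pr f (x' - d) x') (Nd p β d) := by
  classical
  have h1 : ∑ x ∈ Finset.range p.X, en p.Z p.P (pr f x (x + d)) (Nd p β d) =
      ∑ x ∈ (Finset.range p.X).filter (fun x => x + d < p.X),
        en p.Z p.P (pr f x (x + d)) (Nd p β d) := by
    symm
    refine Finset.sum_subset (Finset.filter_subset _ _) fun x hx hx' => ?_
    rw [Finset.mem_filter, not_and] at hx'
    have h2 := hx' hx
    refine Rsa_en_zero p f c β _ _ d ?_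
    push Not at h2
    exact_mod_cast h2
  have h3 : ∑ x ∈ (Finset.range p.X).filter (fun x => x + d < p.X),
        en p.Z p.P (pr f x (x + d)) (Nd p β d) =
      ∑ x' ∈ ((Finset.range p.X).filter (fun x => x + d < p.X)).image (fun x => x + d),
        en p.Z p.P (pr f (x' - d) x') (Nd p β d) := by
    rw [Finset.sum_image]
    · refine Finset.sum_congr rfl fun x _ => ?_
      have e1 : (((x + d : ℕ) : ℤ) - d) = x := by push_cast; ring
      have e2 : ((x + d : ℕ) : ℤ) = x + d := by push_cast; ring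
      rw [e1, e2]
    · intro a _ b _ hab
      have hab' : a + d = b + d := hab
      omega
  rw [h1, h3]
  refine Finset.sum_le_sum_of_subset_of_nonneg ?_ fun x _ _ => Rsa_en_nonneg _ _ _ _
  intro x' hx'
  rw [Finset.mem_image] at hx'
  obtain ⟨x, hx, rfl⟩ := hx'
  rw [Finset.mem_filter] at hx
  exact Finset.mem_range.mpr hx.2

/-- the sum of the Hilbert-Schmidt norms for one column -/
private noncomputable def RsaA (p : Par) (f : ℤ → ℤ → ℝ) (β : ℝ) (x : ℕ) : ℝ :=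
  ∑ d₀ ∈ ds p.H, ∑ d₁ ∈ (ds p.H).filter (fun d₁ => d₀ ≠ d₁ ∧ Nat.gcd d₀ d₁ ≤ p.G1 ^ 2),
    hs p.Z p.P (fun z => f (x - d₀) z * f (x - d₁) z) (Nd p β d₀) (Nd p β d₁)

private theorem RsaA_nonneg (p : Par) (f : ℤ → ℤ → ℝ) (β : ℝ) (x : ℕ) : 0 ≤ RsaA p f β x :=
  Finset.sum_nonneg fun _ _ => Finset.sum_nonneg fun _ _ => Rsa_hs_nonneg _ _ _ _ _

private theorem Rsa_col (p : Par) (f : ℤ → ℤ → ℝ) (c : Cell p f) (β : ℝ) (x : ℕ) :
    ∑ d ∈ ds p.H \ bad p.G1 p.H, en p.Z p.P (pr f (x - d) x) (Nd p β d) ≤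
      p.Z * (4 * p.H / p.G1 + Real.sqrt (RsaA p f β x)) := by
  classical
  have hG0 : (0 : ℝ) < p.G1 := by exact_mod_cast p.hG1
  have h := tts p.Z p.P (Par.Z_one p) (Rsa_ZP p) (ds p.H \ bad p.G1 p.H)
    (fun d z => f (x - d) z) (fun z => f x z) (fun d z => c.f01 _ _) (fun z => c.f01 _ _)
    (fun d => Nd p β d) (fun d => Rsa_Nd_sub p β d)
    (fun a b => p.G1 ^ 2 < Nat.gcd a b) (fun a b hab => by rwa [Nat.gcd_comm])
    (4 * p.H / p.G1) (Real.sqrt (RsaA p f β x)) (by positivity) (Real.sqrt_nonneg _) ?_ ?_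
  · exact h
  · intro d₀ hd
    rw [Finset.mem_sdiff] at hd
    refine le_trans ?_ (near_card p.G1 p.H d₀ p.hG1 p.hH hd.1 hd.2)
    have h1 := Finset.card_le_card (Finset.filter_subset_filter
      (fun d₁ => p.G1 ^ 2 < Nat.gcd d₀ d₁) (Finset.sdiff_subset (s := ds p.H) (t := bad p.G1 p.H)))
    have h2 : ((((ds p.H \ bad p.G1 p.H).filter (fun d₁ => p.G1 ^ 2 < Nat.gcd d₀ d₁)).card : ℕ) : ℝ) ≤
        (((ds p.H).filter (fun d₁ => p.G1 ^ 2 < Nat.gcd d₀ d₁)).card : ℕ) := by exact_mod_cast h1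
    refine le_trans (le_of_eq ?_) h2
    congr 2
    exact Finset.filter_congr_decidable _ _ _
  · rw [Real.sq_sqrt (RsaA_nonneg p f β x)]
    unfold RsaA
    refine (Finset.sum_le_sum fun d₀ hd₀ => ?_).trans
      (Finset.sum_le_sum_of_subset_of_nonneg Finset.sdiff_subset fun d₀ _ _ =>
        Finset.sum_nonneg fun _ _ => Rsa_hs_nonneg _ _ _ _ _)
    refine Finset.sum_le_sum_of_subset_of_nonneg ?_ fun _ _ _ => Rsa_hs_nonneg _ _ _ _ _
    intro d₁ hd₁'
    simp only [Finset.mem_filter] at hd₁'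
    have hd₁ := hd₁'
    rw [Finset.mem_filter]
    rw [Finset.mem_sdiff] at hd₁ hd₀
    refine ⟨hd₁.1.1, ?_, ?_⟩
    · rintro rfl
      apply hd₁.2
      have h1 := hd₀.1
      rw [ds, Finset.mem_Ioo] at h1
      have h2 := Par.G1_H p
      rw [Nat.gcd_self]
      omega
    · have h1 := hd₁.2
      push Not at h1
      exact h1

theorem rsa (p : Par) (f : ℤ → ℤ → ℝ) (c : Cell p f) (β : ℝ) :
    ∑ d ∈ ds p.H, ∑ x ∈ Finset.range p.X, en p.Z p.P (pr f x (x + d)) (Nd p β d) ≤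
      p.σ * p.H * p.X * p.Z := by
  classical
  have hG0 : (0 : ℝ) < p.G1 := by exact_mod_cast p.hG1
  have hσ := p.hσ
  -- bad differences
  have hsub : bad p.G1 p.H ⊆ ds p.H := by
    unfold bad
    exact Finset.filter_subset _ _
  rw [← Finset.sum_sdiff hsub]
  have hbad : ∑ d ∈ bad p.G1 p.H, ∑ x ∈ Finset.range p.X,
      en p.Z p.P (pr f x (x + d)) (Nd p β d) ≤ 4 * p.H / p.G1 * (p.X * p.Z) := by
    have h1 : ∀ d ∈ bad p.G1 p.H, ∑ x ∈ Finset.range p.X,
        en p.Z p.P (pr f x (x + d)) (Nd p β d) ≤ p.X * p.Z := by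
      intro d _
      refine (Finset.sum_le_sum fun x _ => Rsa_en_le p f c β _ _ d).trans (le_of_eq ?_)
      simp
    refine (Finset.sum_le_sum h1).trans ?_
    rw [Finset.sum_const, nsmul_eq_mul]
    exact mul_le_mul_of_nonneg_right (bad_card p.G1 p.H p.hG1 p.hH) (by positivity)
  -- the others
  have hgood : ∑ d ∈ ds p.H \ bad p.G1 p.H, ∑ x ∈ Finset.range p.X,
      en p.Z p.P (pr f x (x + d)) (Nd p β d) ≤
      p.Z * (p.X * (4 * p.H / p.G1)) + p.Z * (p.σ / 2 * p.H * p.X) := by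
    refine (Finset.sum_le_sum fun d _ => Rsa_shift p f c β d).trans ?_
    rw [Finset.sum_comm]
    refine (Finset.sum_le_sum fun x _ => Rsa_col p f c β x).trans ?_
    rw [← Finset.mul_sum, Finset.sum_add_distrib, Finset.sum_const, Finset.card_range,
      nsmul_eq_mul, ← mul_add]
    refine mul_le_mul_of_nonneg_left (add_le_add le_rfl ?_) (Nat.cast_nonneg _)
    have h1 : (∑ x ∈ Finset.range p.X, Real.sqrt (RsaA p f β x)) ^ 2 ≤
        p.X * ∑ x ∈ Finset.range p.X, RsaA p f β x := by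
      have h2 := sq_sum_le_card_mul_sum_sq (s := Finset.range p.X)
        (f := fun x => Real.sqrt (RsaA p f β x))
      rw [Finset.card_range] at h2
      refine h2.trans (le_of_eq ?_)
      congr 1
      exact Finset.sum_congr rfl fun x _ => Real.sq_sqrt (RsaA_nonneg p f β x)
    have h3 : ∑ x ∈ Finset.range p.X, RsaA p f β x ≤ p.σ ^ 2 / 4 * ((p.H : ℝ) ^ 2 * p.X) := by
      have h4 := hsb p f c β
      have h5 := mul_le_mul_of_nonneg_right p.hρσ
        (by positivity : (0 : ℝ) ≤ (p.H : ℝ) ^ 2 * p.X)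
      refine le_trans h4 (le_trans (le_of_eq ?_) h5)
      ring
    have h6 : (∑ x ∈ Finset.range p.X, Real.sqrt (RsaA p f β x)) ^ 2 ≤
        (p.σ / 2 * p.H * p.X) ^ 2 := by
      refine h1.trans ((mul_le_mul_of_nonneg_left h3 (Nat.cast_nonneg _)).trans (le_of_eq ?_))
      ring
    exact abs_le_of_sq_le_sq' h6 (by positivity) |>.2
  refine (add_le_add hgood hbad).trans ?_
  have h7 : 16 / p.σ ≤ p.G1 := p.hG1σ
  have h8 : (1 : ℝ) / p.G1 ≤ p.σ / 16 := by
    rw [div_le_iff₀ hG0]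
    rw [div_le_iff₀ hσ] at h7
    nlinarith
  have h9 : 4 * (p.H : ℝ) / p.G1 = 4 * p.H * (1 / p.G1) := by ring
  have h10 : 4 * (p.H : ℝ) / p.G1 ≤ p.σ / 4 * p.H := by
    rw [h9]
    have := mul_le_mul_of_nonneg_left h8 (by positivity : (0 : ℝ) ≤ 4 * p.H)
    refine this.trans (le_of_eq ?_)
    ring
  have h11 := mul_le_mul_of_nonneg_right h10 (by positivity : (0 : ℝ) ≤ (p.X : ℝ) * p.Z)
  nlinarith [h11]

end Pool.Agent.AAR
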