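import Pool.Agent.AAR.Bas

/-!
# AAR-Smo: smoothing with the Fejer kernel
-/

set_option autoImplicit false

namespace Pool.Agent.AAR

private theorem smo_ee_one {x : ℝ} (h : ee x = 1) : ∃ n : ℤ, x = n := by
  rw [ee, Complex.exp_eq_one_iff] at h
  obtain ⟨n, hn⟩ := h
  refine ⟨n, ?_⟩
  have h1 : (((2 * Real.pi * x : ℝ) : ℂ)) = ((2 * Real.pi * n : ℝ) : ℂ) := by
    apply mul_right_cancel₀ Complex.I_ne_zero
    rw [hn]
    push_cast
    ring
  have h2 : 2 * Real.pi * x = 2 * Real.pi * n := by exact_mod_cast h1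
  have h3 : (2 * Real.pi) ≠ 0 := by positivity
  exact mul_left_cancel₀ h3 h2

private theorem smo_orth (R : ℕ) (hR : 1 ≤ R) (n : ℤ) (hn : |n| < R) :
    ∑ c ∈ Finset.range R, ee (n * ((c : ℝ) / R)) = if n = 0 then (R : ℂ) else 0 := by
  have hR0 : (R : ℝ) ≠ 0 := by
    have : (0 : ℝ) < R := by exact_mod_cast hR
    exact this.ne'
  split_ifs with h
  · subst h
    have h1 : ∀ c ∈ Finset.range R, ee (((0 : ℤ) : ℝ) * ((c : ℝ) / R)) = 1 := by
      intro c _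
      rw [Int.cast_zero, zero_mul, ee_zero]
    rw [Finset.sum_congr rfl h1, Finset.sum_const, Finset.card_range, nsmul_eq_mul, mul_one]
  · have hz : ee ((n : ℝ) / R) ≠ 1 := by
      intro h1
      obtain ⟨m, hm⟩ := smo_ee_one h1
      have h2 : (n : ℝ) = m * R := by
        rw [← hm, div_mul_cancel₀ _ hR0]
      have h3 : n = m * R := by exact_mod_cast h2
      have h4 : m = 0 := by
        by_contra hm0
        have h5 : 1 ≤ |m| := Int.one_le_abs hm0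
        rw [h3, abs_mul, abs_of_nonneg (by positivity : (0 : ℤ) ≤ (R : ℤ))] at hn
        have h6 : (0 : ℤ) ≤ R := by positivity
        nlinarith
      exact h (by rw [h3, h4, zero_mul])
    have h1 : ∀ c ∈ Finset.range R, ee (n * ((c : ℝ) / R)) = ee ((n : ℝ) / R) ^ c := by
      intro c _
      rw [← ee_nsmul]
      congr 1
      ring
    rw [Finset.sum_congr rfl h1, geom_sum_eq hz, ← ee_nsmul]
    have h2 : (R : ℝ) * ((n : ℝ) / R) = n := by
      rw [mul_comm, div_mul_cancel₀ _ hR0]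
    rw [h2, ee_int, sub_self, zero_div]

/-- the geometric sum -/
private noncomputable def smoS (m : ℕ) (x : ℝ) : ℂ := ∑ j ∈ Finset.range m, ee (j * x)

private theorem smo_sq (z : ℂ) : ((‖z‖ ^ 2 : ℝ) : ℂ) = z * (starRingEnd ℂ) z := by
  rw [Complex.mul_conj, Complex.normSq_eq_norm_sq]

private theorem smo_norm_sq (m : ℕ) (x : ℝ) :
    ((‖smoS m x‖ ^ 2 : ℝ) : ℂ) =
      ∑ j ∈ Finset.range m, ∑ l ∈ Finset.range m, ee (j * x) * ee (-(l * x)) := by
  rw [smo_sq, smoS, map_sum, Finset.sum_mul_sum]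
  refine Finset.sum_congr rfl fun j _ => Finset.sum_congr rfl fun l _ => ?_
  rw [ee_conj]

private theorem smo_conv (K k : ℕ) (hK : 1 ≤ K) (hk : k ≤ K) (β : ℝ) :
    ∑ c ∈ Finset.range (4 * K),
      ((‖smoS (2 * K) (β - (c : ℝ) / (4 * K : ℕ))‖ ^ 2 : ℝ) : ℂ) *
        ee (k * ((c : ℝ) / (4 * K : ℕ))) =
      ((4 * K : ℕ) : ℂ) * ((2 * K - k : ℕ) : ℂ) * ee (k * β) := by
  have h1 : ∀ c ∈ Finset.range (4 * K),
      ((‖smoS (2 * K) (β - (c : ℝ) / (4 * K : ℕ))‖ ^ 2 : ℝ) : ℂ) *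
        ee (k * ((c : ℝ) / (4 * K : ℕ))) =
      ∑ j ∈ Finset.range (2 * K), ∑ l ∈ Finset.range (2 * K),
        ee ((j - l) * β) * ee (((k - j + l : ℤ) : ℝ) * ((c : ℝ) / (4 * K : ℕ))) := by
    intro c _
    rw [smo_norm_sq, Finset.sum_mul]
    refine Finset.sum_congr rfl fun j _ => ?_
    rw [Finset.sum_mul]
    refine Finset.sum_congr rfl fun l _ => ?_
    rw [← ee_add, ← ee_add, ← ee_add]
    congr 1
    push_cast
    ring
  rw [Finset.sum_congr rfl h1, Finset.sum_comm]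
  have h2 : ∀ j ∈ Finset.range (2 * K), ∑ c ∈ Finset.range (4 * K), ∑ l ∈ Finset.range (2 * K),
        ee ((j - l) * β) * ee (((k - j + l : ℤ) : ℝ) * ((c : ℝ) / (4 * K : ℕ))) =
      ∑ l ∈ Finset.range (2 * K), if j = l + k then ((4 * K : ℕ) : ℂ) * ee (k * β) else 0 := by
    intro j hj
    rw [Finset.sum_comm]
    refine Finset.sum_congr rfl fun l hl => ?_
    rw [Finset.mem_range] at hj hl
    rw [← Finset.mul_sum, smo_orth (4 * K) (by omega) (k - j + l) (by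
      rw [abs_lt]
      push_cast
      constructor <;> omega)]
    by_cases hjl : j = l + k
    · rw [if_pos hjl, if_pos (by rw [hjl]; push_cast; ring), mul_comm, hjl]
      congr 2
      push_cast
      ring
    · rw [if_neg hjl, if_neg (by omega), mul_zero]
  rw [Finset.sum_congr rfl h2, Finset.sum_comm]
  have h3 : ∀ l ∈ Finset.range (2 * K), ∑ j ∈ Finset.range (2 * K),
      (if j = l + k then ((4 * K : ℕ) : ℂ) * ee (k * β) else 0) =
      if l + k < 2 * K then ((4 * K : ℕ) : ℂ) * ee (k * β) else 0 := by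
    intro l _
    rw [Finset.sum_ite_eq']
    simp only [Finset.mem_range]
  rw [Finset.sum_congr rfl h3, ← Finset.sum_filter, Finset.sum_const, nsmul_eq_mul]
  have h4 : (Finset.range (2 * K)).filter (fun l => l + k < 2 * K) =
      Finset.range (2 * K - k) := by
    ext l
    simp only [Finset.mem_filter, Finset.mem_range]
    omega
  rw [h4, Finset.card_range]
  ring

private theorem smo_par (K : ℕ) (hK : 1 ≤ K) (T : Finset ℕ) (hT : T ⊆ Finset.Icc 1 K)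
    (a : ℕ → ℝ) :
    ∑ c ∈ Finset.range (4 * K), ‖∑ k ∈ T, (a k : ℂ) * ee (k * ((c : ℝ) / (4 * K : ℕ)))‖ ^ 2 =
      ((4 * K : ℕ) : ℝ) * ∑ k ∈ T, a k ^ 2 := by
  apply Complex.ofReal_injective
  rw [Complex.ofReal_sum]
  have h1 : ∀ c ∈ Finset.range (4 * K),
      ((‖∑ k ∈ T, (a k : ℂ) * ee (k * ((c : ℝ) / (4 * K : ℕ)))‖ ^ 2 : ℝ) : ℂ) =
      ∑ k ∈ T, ∑ l ∈ T, ((a k : ℂ) * (a l : ℂ)) *
        ee (((k - l : ℤ) : ℝ) * ((c : ℝ) / (4 * K : ℕ))) := by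
    intro c _
    rw [smo_sq, map_sum, Finset.sum_mul_sum]
    refine Finset.sum_congr rfl fun k _ => Finset.sum_congr rfl fun l _ => ?_
    rw [map_mul, Complex.conj_ofReal, ee_conj]
    have h2 : ee (((k - l : ℤ) : ℝ) * ((c : ℝ) / (4 * K : ℕ))) =
        ee (k * ((c : ℝ) / (4 * K : ℕ))) * ee (-(l * ((c : ℝ) / (4 * K : ℕ)))) := by
      rw [← ee_add]
      congr 1
      push_cast
      ring
    rw [h2]
    ring
  rw [Finset.sum_congr rfl h1, Finset.sum_comm]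
  have h2 : ∀ k ∈ T, ∑ c ∈ Finset.range (4 * K), ∑ l ∈ T, ((a k : ℂ) * (a l : ℂ)) *
        ee (((k - l : ℤ) : ℝ) * ((c : ℝ) / (4 * K : ℕ))) =
      ((4 * K : ℕ) : ℂ) * (a k : ℂ) ^ 2 := by
    intro k hk
    rw [Finset.sum_comm]
    have h3 : ∀ l ∈ T, ∑ c ∈ Finset.range (4 * K), ((a k : ℂ) * (a l : ℂ)) *
        ee (((k - l : ℤ) : ℝ) * ((c : ℝ) / (4 * K : ℕ))) =
        if l = k then ((4 * K : ℕ) : ℂ) * (a k : ℂ) ^ 2 else 0 := by
      intro l hl
      have hk1 := Finset.mem_Icc.1 (hT hk)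
      have hl1 := Finset.mem_Icc.1 (hT hl)
      rw [← Finset.mul_sum, smo_orth (4 * K) (by omega) (k - l) (by
        rw [abs_lt]
        push_cast
        constructor <;> omega)]
      by_cases hkl : l = k
      · rw [if_pos hkl, if_pos (by rw [hkl]; ring), hkl]
        ring
      · rw [if_neg hkl, if_neg (by omega), mul_zero]
    rw [Finset.sum_congr rfl h3, Finset.sum_ite_eq', if_pos hk]
  rw [Finset.sum_congr rfl h2, ← Finset.mul_sum]
  push_cast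
  ring

private theorem smo_lower (x : ℝ) : 4 * nint x ≤ ‖ee x - 1‖ := by
  rw [← ee_sub_round x, nint]
  have hy := abs_sub_round x
  generalize x - round x = y at hy ⊢
  have h := Complex.norm_exp_I_mul_ofReal_sub_one (2 * Real.pi * y)
  rw [ee, mul_comm _ Complex.I, h]
  have h1 : 2 * Real.pi * y / 2 = Real.pi * y := by ring
  rw [h1, Real.norm_eq_abs, abs_mul, abs_of_pos (by norm_num : (0 : ℝ) < 2)]
  have h2 : |Real.pi * y| ≤ Real.pi / 2 := by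
    rw [abs_mul, abs_of_pos Real.pi_pos]
    have := mul_le_mul_of_nonneg_left hy Real.pi_pos.le
    linarith
  have h3 := Real.mul_abs_le_abs_sin h2
  rw [abs_mul, abs_of_pos Real.pi_pos] at h3
  have h4 : 2 / Real.pi * (Real.pi * |y|) = 2 * |y| := by
    have := Real.pi_ne_zero
    field_simp
  rw [h4] at h3
  linarith

private theorem smo_S_le (m : ℕ) (x : ℝ) : ‖smoS m x‖ ≤ m := by
  rw [smoS]
  refine (norm_sum_le _ _).trans (le_of_eq ?_)
  have h1 : ∀ j ∈ Finset.range m, ‖ee ((j : ℝ) * x)‖ = 1 := fun j _ => ee_norm _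
  rw [Finset.sum_congr rfl h1, Finset.sum_const, Finset.card_range, nsmul_eq_mul, mul_one]

private theorem smo_S_geom (m : ℕ) (x : ℝ) (hx : 0 < nint x) :
    ‖smoS m x‖ ≤ 1 / (2 * nint x) := by
  have h1 : ee x ≠ 1 := by
    intro h
    have h2 := smo_lower x
    rw [h, sub_self, norm_zero] at h2
    linarith
  have h2 : smoS m x = (ee x ^ m - 1) / (ee x - 1) := by
    rw [smoS, ← geom_sum_eq h1]
    exact Finset.sum_congr rfl fun j _ => ee_nsmul j x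
  rw [h2, norm_div]
  have h3 : ‖ee x ^ m - 1‖ ≤ 2 := by
    refine (norm_sub_le _ _).trans ?_
    rw [norm_pow, ee_norm, one_pow, norm_one]
    norm_num
  have h4 := smo_lower x
  have h5 : 0 < ‖ee x - 1‖ := lt_of_lt_of_le (by positivity) h4
  rw [div_le_div_iff₀ h5 (by positivity)]
  nlinarith

open Classical in
private theorem smo_win (K : ℕ) (hK : 1 ≤ K) {ι : Type*}
    (I : Finset ι) (w b : ι → ℝ) (hw : ∀ i ∈ I, 0 ≤ w i) (θ M₁ : ℝ) (hθ : 0 < θ)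
    (h : ∀ β : ℝ, ∑ i ∈ I.filter (fun i => nint (b i - β) ≤ θ), w i ≤ M₁) (β : ℝ) :
    ∑ i ∈ I, w i * ‖smoS (2 * K) (b i - β)‖ ^ 2 ≤
      K * (4 * K * M₁ + (∑ i ∈ I, w i) / (4 * K * θ ^ 2)) := by
  have hK0 : (0 : ℝ) < K := by exact_mod_cast hK
  rw [← Finset.sum_filter_add_sum_filter_not I (fun i => nint (b i - β) ≤ θ)]
  have h1 : ∑ i ∈ I.filter (fun i => nint (b i - β) ≤ θ), w i * ‖smoS (2 * K) (b i - β)‖ ^ 2 ≤
      4 * K ^ 2 * M₁ := by
    calc ∑ i ∈ I.filter (fun i => nint (b i - β) ≤ θ), w i * ‖smoS (2 * K) (b i - β)‖ ^ 2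
        ≤ ∑ i ∈ I.filter (fun i => nint (b i - β) ≤ θ), (4 * K ^ 2) * w i := by
          refine Finset.sum_le_sum fun i hi => ?_
          have h2 := smo_S_le (2 * K) (b i - β)
          push_cast at h2
          have h3 : ‖smoS (2 * K) (b i - β)‖ ^ 2 ≤ (2 * K) ^ 2 :=
            pow_le_pow_left₀ (norm_nonneg _) h2 2
          have h4 := mul_le_mul_of_nonneg_left h3 (hw i (Finset.mem_filter.1 hi).1)
          calc _ ≤ _ := h4
            _ = _ := by ring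
      _ = 4 * K ^ 2 * ∑ i ∈ I.filter (fun i => nint (b i - β) ≤ θ), w i := by
          rw [Finset.mul_sum]
      _ ≤ 4 * K ^ 2 * M₁ := mul_le_mul_of_nonneg_left (h β) (by positivity)
  have h2 : ∑ i ∈ I.filter (fun i => ¬ nint (b i - β) ≤ θ), w i * ‖smoS (2 * K) (b i - β)‖ ^ 2 ≤
      (∑ i ∈ I, w i) / (4 * θ ^ 2) := by
    calc ∑ i ∈ I.filter (fun i => ¬ nint (b i - β) ≤ θ), w i * ‖smoS (2 * K) (b i - β)‖ ^ 2
        ≤ ∑ i ∈ I.filter (fun i => ¬ nint (b i - β) ≤ θ), w i * (1 / (4 * θ ^ 2)) := by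
          refine Finset.sum_le_sum fun i hi => ?_
          have h3 := Finset.mem_filter.1 hi
          have h4 : θ < nint (b i - β) := not_le.1 h3.2
          have h5 := smo_S_geom (2 * K) (b i - β) (hθ.trans h4)
          have h6 : 1 / (2 * nint (b i - β)) ≤ 1 / (2 * θ) :=
            one_div_le_one_div_of_le (by positivity) (by linarith)
          have h7 : ‖smoS (2 * K) (b i - β)‖ ^ 2 ≤ (1 / (2 * θ)) ^ 2 :=
            pow_le_pow_left₀ (norm_nonneg _) (h5.trans h6) 2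
          have h8 : (1 / (2 * θ)) ^ 2 = 1 / (4 * θ ^ 2) := by
            rw [div_pow, one_pow]
            congr 1
            ring
          rw [h8] at h7
          exact mul_le_mul_of_nonneg_left h7 (hw i h3.1)
      _ = (∑ i ∈ I.filter (fun i => ¬ nint (b i - β) ≤ θ), w i) * (1 / (4 * θ ^ 2)) := by
          rw [Finset.sum_mul]
      _ ≤ (∑ i ∈ I, w i) * (1 / (4 * θ ^ 2)) :=
          mul_le_mul_of_nonneg_right
            (Finset.sum_le_sum_of_subset_of_nonneg (Finset.filter_subset _ _)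
              fun i hi _ => hw i hi) (by positivity)
      _ = _ := by ring
  have h3 : K * (4 * K * M₁ + (∑ i ∈ I, w i) / (4 * K * θ ^ 2)) =
      4 * K ^ 2 * M₁ + (∑ i ∈ I, w i) / (4 * θ ^ 2) := by
    have := hK0.ne'
    have := hθ.ne'
    field_simp
  rw [h3]
  exact add_le_add h1 h2

private theorem smo_point (K : ℕ) (hK : 1 ≤ K) (T : Finset ℕ) (hT : T ⊆ Finset.Icc 1 K)
    (β : ℝ) :
    ‖tau T β‖ ^ 2 ≤ 2 / (((4 * K : ℕ) : ℝ) * K) * ∑ c ∈ Finset.range (4 * K),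
      ‖smoS (2 * K) (β - (c : ℝ) / (4 * K : ℕ))‖ ^ 2 *
        ‖∑ k ∈ T, (((K : ℝ) / ((2 * K - k : ℕ) : ℝ) : ℝ) : ℂ) *
          ee (k * ((c : ℝ) / (4 * K : ℕ)))‖ ^ 2 := by
  have hK0 : (0 : ℝ) < K := by exact_mod_cast hK
  have hR0 : (0 : ℝ) < ((4 * K : ℕ) : ℝ) := by
    have : 0 < 4 * K := by omega
    exact_mod_cast this
  have hKc : (K : ℂ) ≠ 0 := by exact_mod_cast hK0.ne'
  have hRc : (((4 * K : ℕ) : ℝ) : ℂ) ≠ 0 := by exact_mod_cast hR0.ne'
  obtain ⟨V, hV⟩ : ∃ V : ℕ → ℝ, ∀ c, V c = ‖smoS (2 * K) (β - (c : ℝ) / (4 * K : ℕ))‖ ^ 2 :=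
    ⟨_, fun _ => rfl⟩
  obtain ⟨ps, hps⟩ : ∃ ps : ℕ → ℂ, ∀ c, ps c = ∑ k ∈ T,
      (((K : ℝ) / ((2 * K - k : ℕ) : ℝ) : ℝ) : ℂ) * ee (k * ((c : ℝ) / (4 * K : ℕ))) :=
    ⟨_, fun _ => rfl⟩
  have hV0 : ∀ c, 0 ≤ V c := by
    intro c
    rw [hV]
    positivity
  have hconv : ∀ k : ℕ, k ≤ K → ∑ c ∈ Finset.range (4 * K), (V c : ℂ) *
      ee (k * ((c : ℝ) / (4 * K : ℕ))) =
      ((4 * K : ℕ) : ℂ) * ((2 * K - k : ℕ) : ℂ) * ee (k * β) := by
    intro k hk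
    rw [← smo_conv K k hK hk β]
    exact Finset.sum_congr rfl fun c _ => by rw [hV]
  have hVsum : ∑ c ∈ Finset.range (4 * K), V c = ((4 * K : ℕ) : ℝ) * (2 * K) := by
    have h1 := hconv 0 (by omega)
    have h2 : ∀ c ∈ Finset.range (4 * K), (V c : ℂ) *
        ee (((0 : ℕ) : ℝ) * ((c : ℝ) / (4 * K : ℕ))) = (V c : ℂ) := by
      intro c _
      rw [Nat.cast_zero, zero_mul, ee_zero, mul_one]
    rw [Finset.sum_congr rfl h2, Nat.cast_zero, zero_mul, ee_zero, mul_one, Nat.sub_zero] at h1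
    apply Complex.ofReal_injective
    rw [Complex.ofReal_sum, h1]
    push_cast
    ring
  have htau : tau T β = (1 / ((((4 * K : ℕ) : ℝ) : ℂ) * K)) *
      ∑ c ∈ Finset.range (4 * K), (V c : ℂ) * ps c := by
    have h1 : ∑ c ∈ Finset.range (4 * K), (V c : ℂ) * ps c =
        ∑ k ∈ T, (((4 * K : ℕ) : ℝ) : ℂ) * K * ee (k * β) := by
      have h2 : ∀ c ∈ Finset.range (4 * K), (V c : ℂ) * ps c =
          ∑ k ∈ T, (((K : ℝ) / ((2 * K - k : ℕ) : ℝ) : ℝ) : ℂ) *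
            ((V c : ℂ) * ee (k * ((c : ℝ) / (4 * K : ℕ)))) := by
        intro c _
        rw [hps, Finset.mul_sum]
        refine Finset.sum_congr rfl fun k _ => ?_
        ring
      rw [Finset.sum_congr rfl h2, Finset.sum_comm]
      refine Finset.sum_congr rfl fun k hk => ?_
      have hk1 := Finset.mem_Icc.1 (hT hk)
      rw [← Finset.mul_sum, hconv k hk1.2]
      have h3 : (((2 * K - k : ℕ) : ℝ) : ℂ) ≠ 0 := by
        have h4 : 2 * K - k ≠ 0 := by omega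
        have h5 : ((2 * K - k : ℕ) : ℝ) ≠ 0 := by exact_mod_cast h4
        exact_mod_cast h5
      rw [Complex.ofReal_div]
      have h4 : (((2 * K - k : ℕ) : ℝ) : ℂ) = ((2 * K - k : ℕ) : ℂ) := by norm_cast
      have h5 : (((4 * K : ℕ) : ℝ) : ℂ) = ((4 * K : ℕ) : ℂ) := by norm_cast
      have h6 : ((K : ℝ) : ℂ) = (K : ℂ) := by norm_cast
      rw [h4] at h3
      rw [h4, h5, h6]
      field_simp
    rw [h1, ← Finset.mul_sum, tau, ← mul_assoc, one_div, inv_mul_cancel₀ (mul_ne_zero hRc hKc),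
      one_mul]
  have hCS : (∑ c ∈ Finset.range (4 * K), V c * ‖ps c‖) ^ 2 ≤
      (∑ c ∈ Finset.range (4 * K), V c) * ∑ c ∈ Finset.range (4 * K), V c * ‖ps c‖ ^ 2 := by
    refine Finset.sum_sq_le_sum_mul_sum_of_sq_le_mul _ (fun c _ => hV0 c)
      (fun c _ => mul_nonneg (hV0 c) (by positivity)) (fun c _ => le_of_eq ?_)
    ring
  have hle : ‖tau T β‖ ≤ (1 / (((4 * K : ℕ) : ℝ) * K)) *
      ∑ c ∈ Finset.range (4 * K), V c * ‖ps c‖ := by
    rw [htau, norm_mul]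
    have h1 : ‖(1 / ((((4 * K : ℕ) : ℝ) : ℂ) * K))‖ = 1 / (((4 * K : ℕ) : ℝ) * K) := by
      rw [norm_div, norm_one, norm_mul, Complex.norm_real, Complex.norm_natCast,
        Real.norm_eq_abs, abs_of_pos hR0]
    rw [h1]
    refine mul_le_mul_of_nonneg_left ?_ (by positivity)
    refine (norm_sum_le _ _).trans (Finset.sum_le_sum fun c _ => ?_)
    rw [norm_mul, Complex.norm_real, Real.norm_eq_abs, abs_of_nonneg (hV0 c)]
  have h1 : ‖tau T β‖ ^ 2 ≤ (1 / (((4 * K : ℕ) : ℝ) * K)) ^ 2 *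
      (∑ c ∈ Finset.range (4 * K), V c * ‖ps c‖) ^ 2 := by
    rw [← mul_pow]
    exact pow_le_pow_left₀ (norm_nonneg _) hle 2
  have h2 : (1 / (((4 * K : ℕ) : ℝ) * K)) ^ 2 *
      (∑ c ∈ Finset.range (4 * K), V c * ‖ps c‖) ^ 2 ≤
      (1 / (((4 * K : ℕ) : ℝ) * K)) ^ 2 * ((∑ c ∈ Finset.range (4 * K), V c) *
        ∑ c ∈ Finset.range (4 * K), V c * ‖ps c‖ ^ 2) :=
    mul_le_mul_of_nonneg_left hCS (by positivity)
  have h3 : (1 / (((4 * K : ℕ) : ℝ) * K)) ^ 2 * ((∑ c ∈ Finset.range (4 * K), V c) *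
        ∑ c ∈ Finset.range (4 * K), V c * ‖ps c‖ ^ 2) =
      2 / (((4 * K : ℕ) : ℝ) * K) * ∑ c ∈ Finset.range (4 * K), V c * ‖ps c‖ ^ 2 := by
    rw [hVsum]
    have := hK0.ne'
    have := hR0.ne'
    field_simp
  have h4 := (h1.trans h2).trans (le_of_eq h3)
  refine h4.trans (le_of_eq ?_)
  congr 1
  refine Finset.sum_congr rfl fun c _ => ?_
  rw [hV, hps]

open Classical in
theorem smo (K : ℕ) (hK : 1 ≤ K) (T : Finset ℕ) (hT : T ⊆ Finset.Icc 1 K) {ι : Type*}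
    (I : Finset ι) (w b : ι → ℝ) (hw : ∀ i ∈ I, 0 ≤ w i) (θ M₁ : ℝ) (hθ : 0 < θ)
    (h : ∀ β : ℝ, ∑ i ∈ I.filter (fun i => nint (b i - β) ≤ θ), w i ≤ M₁) :
    ∑ i ∈ I, w i * ‖tau T (b i)‖ ^ 2 ≤
      2 * T.card * (4 * K * M₁ + (∑ i ∈ I, w i) / (4 * K * θ ^ 2)) := by
  have hK0 : (0 : ℝ) < K := by exact_mod_cast hK
  have hR0 : (0 : ℝ) < ((4 * K : ℕ) : ℝ) := by
    have : 0 < 4 * K := by omega
    exact_mod_cast this
  obtain ⟨B, hB⟩ : ∃ B : ℝ, B = 4 * K * M₁ + (∑ i ∈ I, w i) / (4 * K * θ ^ 2) := ⟨_, rfl⟩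
  have hwin := smo_win K hK I w b hw θ M₁ hθ h
  rw [← hB] at hwin ⊢
  have hB0 : 0 ≤ B := by
    have h1 := hwin 0
    have h2 : 0 ≤ ∑ i ∈ I, w i * ‖smoS (2 * K) (b i - 0)‖ ^ 2 :=
      Finset.sum_nonneg fun i hi => mul_nonneg (hw i hi) (by positivity)
    have h3 : 0 ≤ (K : ℝ) * B := h2.trans h1
    by_contra h4
    push Not at h4
    have h5 := mul_neg_of_pos_of_neg hK0 h4
    linarith
  obtain ⟨ps, hps⟩ : ∃ ps : ℕ → ℂ, ∀ c, ps c = ∑ k ∈ T,
      (((K : ℝ) / ((2 * K - k : ℕ) : ℝ) : ℝ) : ℂ) * ee (k * ((c : ℝ) / (4 * K : ℕ))) :=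
    ⟨_, fun _ => rfl⟩
  have hpoint : ∀ β : ℝ, ‖tau T β‖ ^ 2 ≤ 2 / (((4 * K : ℕ) : ℝ) * K) *
      ∑ c ∈ Finset.range (4 * K),
        ‖smoS (2 * K) (β - (c : ℝ) / (4 * K : ℕ))‖ ^ 2 * ‖ps c‖ ^ 2 := by
    intro β
    refine (smo_point K hK T hT β).trans (le_of_eq ?_)
    congr 1
    refine Finset.sum_congr rfl fun c _ => ?_
    rw [hps]
  have hpar : ∑ c ∈ Finset.range (4 * K), ‖ps c‖ ^ 2 ≤ ((4 * K : ℕ) : ℝ) * T.card := by
    have h1 := smo_par K hK T hT (fun k => (K : ℝ) / ((2 * K - k : ℕ) : ℝ))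
    have h2 : ∑ c ∈ Finset.range (4 * K), ‖ps c‖ ^ 2 =
        ((4 * K : ℕ) : ℝ) * ∑ k ∈ T, ((K : ℝ) / ((2 * K - k : ℕ) : ℝ)) ^ 2 := by
      rw [← h1]
      refine Finset.sum_congr rfl fun c _ => ?_
      rw [hps]
    rw [h2]
    refine mul_le_mul_of_nonneg_left ?_ hR0.le
    have h3 : ∀ k ∈ T, ((K : ℝ) / ((2 * K - k : ℕ) : ℝ)) ^ 2 ≤ 1 := by
      intro k hk
      have hk1 := Finset.mem_Icc.1 (hT hk)
      have h4 : K ≤ 2 * K - k := by omega
      have h5 : (K : ℝ) ≤ ((2 * K - k : ℕ) : ℝ) := by exact_mod_cast h4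
      have h6 : (K : ℝ) / ((2 * K - k : ℕ) : ℝ) ≤ 1 := by
        rw [div_le_one (lt_of_lt_of_le hK0 h5)]
        exact h5
      exact pow_le_one₀ (by positivity) h6
    refine (Finset.sum_le_sum h3).trans (le_of_eq ?_)
    rw [Finset.sum_const, nsmul_eq_mul, mul_one]
  calc ∑ i ∈ I, w i * ‖tau T (b i)‖ ^ 2
      ≤ ∑ i ∈ I, w i * (2 / (((4 * K : ℕ) : ℝ) * K) * ∑ c ∈ Finset.range (4 * K),
          ‖smoS (2 * K) (b i - (c : ℝ) / (4 * K : ℕ))‖ ^ 2 * ‖ps c‖ ^ 2) :=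
        Finset.sum_le_sum fun i hi => mul_le_mul_of_nonneg_left (hpoint (b i)) (hw i hi)
    _ = 2 / (((4 * K : ℕ) : ℝ) * K) * ∑ c ∈ Finset.range (4 * K),
          (∑ i ∈ I, w i * ‖smoS (2 * K) (b i - (c : ℝ) / (4 * K : ℕ))‖ ^ 2) * ‖ps c‖ ^ 2 := by
        have h1 : ∀ i ∈ I, w i * (2 / (((4 * K : ℕ) : ℝ) * K) * ∑ c ∈ Finset.range (4 * K),
            ‖smoS (2 * K) (b i - (c : ℝ) / (4 * K : ℕ))‖ ^ 2 * ‖ps c‖ ^ 2) =
            2 / (((4 * K : ℕ) : ℝ) * K) * ∑ c ∈ Finset.range (4 * K),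
              (w i * ‖smoS (2 * K) (b i - (c : ℝ) / (4 * K : ℕ))‖ ^ 2) * ‖ps c‖ ^ 2 := by
          intro i _
          rw [mul_left_comm, Finset.mul_sum]
          congr 1
          refine Finset.sum_congr rfl fun c _ => ?_
          ring
        rw [Finset.sum_congr rfl h1, ← Finset.mul_sum, Finset.sum_comm]
        congr 1
        refine Finset.sum_congr rfl fun c _ => ?_
        rw [Finset.sum_mul]
    _ ≤ 2 / (((4 * K : ℕ) : ℝ) * K) * ∑ c ∈ Finset.range (4 * K), (K * B) * ‖ps c‖ ^ 2 := by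
        refine mul_le_mul_of_nonneg_left ?_ (by positivity)
        refine Finset.sum_le_sum fun c _ => ?_
        exact mul_le_mul_of_nonneg_right (hwin _) (by positivity)
    _ = 2 / (((4 * K : ℕ) : ℝ) * K) * (K * B) * ∑ c ∈ Finset.range (4 * K), ‖ps c‖ ^ 2 := by
        rw [← Finset.mul_sum]
        ring
    _ ≤ 2 / (((4 * K : ℕ) : ℝ) * K) * (K * B) * (((4 * K : ℕ) : ℝ) * T.card) :=
        mul_le_mul_of_nonneg_left hpar (by positivity)
    _ = 2 * T.card * B := by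
        have := hK0.ne'
        have := hR0.ne'
        field_simp

end Pool.Agent.AAR
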