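import Pool.Agent.AAR.Rsa
import Pool.Agent.AAR.Smo
import Pool.Agent.AAR.Psv
import Pool.Agent.AAR.Prm

/-!
# AAR-Rsb: the rest

PLAN.  Cauchy-Schwarz over `(d,x,n)` with weights `wt(d) |ĥ|²/P`: the left side is
`≤ (∑ wt |ĥ|² ‖τ‖²/P)^{1/2} (∑_d wt ∑_x en)^{1/2}`; second factor `≤ (H² X Z)^{1/2}` (`∑ wt = H²`, `en ≤ Z`).
First: `wt ≤ H` and `smo` for the index set of the triples `(d,x,n)`, `n ∈ rest`, `w = |ĥ|²/P`, `b = d n/P`,
`θ = p.θ`, `M₁ = σHXZ` (`rsa`), `∑ w ≤ 2HXZ`: `≤ H · 2|T| (4KσHXZ + 2HXZ/(4Kθ²))`, `1/(4Kθ²) = K/(4 l0²)`.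
So the square of the left side is `≤ 2|T| K H⁴ X² Z² (4σ + 1/(2 l0²))`, and `4σ ≤ εβ²/1024`, `1/(2 l0²) ≤ εβ²/1024`,
`εK ≤ |T|`: `≤ (|T| M)² 2 (1/512) ...`: precisely `≤ 2 |T|² H⁴X²Z²β²/512 = (|T| M/16)²`.
-/

set_option autoImplicit false

namespace Pool.Agent.AAR

private theorem sum_up (H m : ℕ) :
    ∑ d ∈ Finset.Ioc (2 * H) (2 * H + m), ((d : ℝ) - 2 * H) = (m : ℝ) * (m + 1) / 2 := by
  induction m with
  | zero => simp
  | succ m ih =>
    rw [← Nat.add_assoc, Finset.sum_Ioc_succ_top (by omega), ih]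
    push_cast
    ring

private theorem sum_down (H m : ℕ) (hm : m ≤ H) :
    ∑ d ∈ Finset.Ioc (3 * H) (3 * H + m), (4 * (H : ℝ) - d) =
      (m : ℝ) * H - (m : ℝ) * (m + 1) / 2 := by
  induction m with
  | zero => simp
  | succ m ih =>
    rw [← Nat.add_assoc, Finset.sum_Ioc_succ_top (by omega), ih (by omega)]
    push_cast
    ring

private theorem wt_nonneg (H d : ℕ) (hd : d ∈ ds H) : 0 ≤ wt H d := by
  unfold ds at hd
  rw [Finset.mem_Ioo] at hd
  unfold wt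
  have h1 : (2 * (H : ℝ)) < d := by exact_mod_cast hd.1
  have h2 : (d : ℝ) < 4 * H := by exact_mod_cast hd.2
  rw [sub_nonneg, abs_le]
  constructor <;> linarith

private theorem wt_le (H d : ℕ) : wt H d ≤ H := by
  unfold wt
  have := abs_nonneg ((d : ℝ) - 3 * H)
  linarith

private theorem sum_wt (H : ℕ) : ∑ d ∈ ds H, wt H d ≤ (H : ℝ) ^ 2 := by
  classical
  have h1 : ∑ d ∈ ds H, wt H d ≤
      ∑ d ∈ Finset.Ioc (2 * H) (2 * H + H) ∪ Finset.Ioc (3 * H) (3 * H + H), wt H d := by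
    refine Finset.sum_le_sum_of_subset_of_nonneg ?_ ?_
    · intro d hd
      unfold ds at hd
      rw [Finset.mem_Ioo] at hd
      rw [Finset.mem_union, Finset.mem_Ioc, Finset.mem_Ioc]
      omega
    · intro d hd _
      rw [Finset.mem_union, Finset.mem_Ioc, Finset.mem_Ioc] at hd
      unfold wt
      have h1 : (2 * (H : ℝ)) ≤ d := by
        have : 2 * H ≤ d := by omega
        exact_mod_cast this
      have h2 : (d : ℝ) ≤ 4 * H := by
        have : d ≤ 4 * H := by omega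
        exact_mod_cast this
      rw [sub_nonneg, abs_le]
      constructor <;> linarith
  refine h1.trans (le_of_eq ?_)
  rw [Finset.sum_union]
  · have e1 : ∑ d ∈ Finset.Ioc (2 * H) (2 * H + H), wt H d =
        ∑ d ∈ Finset.Ioc (2 * H) (2 * H + H), ((d : ℝ) - 2 * H) := by
      refine Finset.sum_congr rfl fun d hd => ?_
      rw [Finset.mem_Ioc] at hd
      unfold wt
      have h2 : (d : ℝ) ≤ 3 * H := by
        have : d ≤ 3 * H := by omega
        exact_mod_cast this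
      rw [abs_of_nonpos (by linarith)]
      ring
    have e2 : ∑ d ∈ Finset.Ioc (3 * H) (3 * H + H), wt H d =
        ∑ d ∈ Finset.Ioc (3 * H) (3 * H + H), (4 * (H : ℝ) - d) := by
      refine Finset.sum_congr rfl fun d hd => ?_
      rw [Finset.mem_Ioc] at hd
      unfold wt
      have h2 : 3 * (H : ℝ) ≤ d := by
        have : 3 * H ≤ d := by omega
        exact_mod_cast this
      rw [abs_of_nonneg (by linarith)]
      ring
    rw [e1, e2, sum_up, sum_down H H le_rfl]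
    ring
  · rw [Finset.disjoint_left]
    intro d hd hd'
    rw [Finset.mem_Ioc] at hd hd'
    omega

private theorem card_ds (H : ℕ) : ((ds H).card : ℝ) ≤ 2 * H := by
  unfold ds
  rw [Nat.card_Ioo]
  have : 4 * H - 2 * H - 1 ≤ 2 * H := by omega
  exact_mod_cast this

private theorem en_rest (p : Par) (f : ℤ → ℤ → ℝ) (c : Cell p f) (x x' : ℤ) :
    en p.Z p.P (pr f x x') (rest p.P p.r p.Q2) ≤ p.Z := by
  classical
  have hP := p.Z_le_P
  have hP1 := p.P_one
  have h1 : en p.Z p.P (pr f x x') (rest p.P p.r p.Q2) ≤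
      en p.Z p.P (pr f x x') (Finset.range p.P) := by
    unfold en
    refine div_le_div_of_nonneg_right ?_ (by positivity)
    refine Finset.sum_le_sum_of_subset_of_nonneg ?_ fun n _ _ => ?_
    · intro n hn
      unfold rest at hn
      exact (Finset.mem_filter.1 hn).1
    · positivity
  refine h1.trans ?_
  rw [psv0 p.Z p.P (pr f x x') hP1 (by omega)]
  calc ∑ z ∈ Finset.range p.Z, pr f x x' z ^ 2 ≤ ∑ z ∈ Finset.range p.Z, (1 : ℝ) := by
        refine Finset.sum_le_sum fun z _ => ?_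
        unfold pr
        rcases c.f01 x z with h | h <;> rcases c.f01 x' z with h' | h' <;> rw [h, h'] <;> norm_num
    _ = p.Z := by rw [Finset.sum_const, Finset.card_range, nsmul_eq_mul, mul_one]

theorem rsb (p : Par) (f : ℤ → ℤ → ℝ) (c : Cell p f) (T : Finset ℕ)
    (hT : T ⊆ Finset.Icc 1 p.K) (hTε : p.ε * p.K ≤ T.card) :
    ∑ d ∈ ds p.H, wt p.H d * ∑ x ∈ Finset.range p.X,
      (∑ n ∈ rest p.P p.r p.Q2,
        ‖fh p.Z (pr f x (x + d)) ((n : ℝ) / p.P)‖ ^ 2 * ‖tau T (d * ((n : ℝ) / p.P))‖) / p.P ≤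
      T.card * p.M / 16 := by
  classical
  have hH := p.Hpos
  have hK := p.Kpos
  have hβ := p.hβ
  have hε := p.hε
  have hθ := p.θ_pos
  have hM := p.M_pos
  have hX : (0 : ℝ) ≤ p.X := by positivity
  have hZ : (0 : ℝ) ≤ p.Z := by positivity
  have hl0 : (1 : ℝ) ≤ p.l0 := by exact_mod_cast p.hl0
  set I : Finset (ℕ × ℕ × ℕ) := ds p.H ×ˢ (Finset.range p.X ×ˢ rest p.P p.r p.Q2) with hI
  set a : ℕ × ℕ × ℕ → ℝ := fun i =>
    ‖fh p.Z (pr f (i.2.1 : ℤ) ((i.2.1 : ℤ) + i.1)) ((i.2.2 : ℝ) / p.P)‖ ^ 2 / p.P with ha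
  set b : ℕ × ℕ × ℕ → ℝ := fun i => (i.1 : ℝ) * ((i.2.2 : ℝ) / p.P) with hb
  have ha0 : ∀ i, 0 ≤ a i := fun i => by
    simp only [ha]
    positivity
  -- the left side
  have e0 : ∑ d ∈ ds p.H, wt p.H d * ∑ x ∈ Finset.range p.X,
      (∑ n ∈ rest p.P p.r p.Q2,
        ‖fh p.Z (pr f x (x + d)) ((n : ℝ) / p.P)‖ ^ 2 * ‖tau T (d * ((n : ℝ) / p.P))‖) / p.P =
      ∑ i ∈ I, wt p.H i.1 * a i * ‖tau T (b i)‖ := by
    rw [hI, Finset.sum_product]
    refine Finset.sum_congr rfl fun d _ => ?_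
    rw [Finset.sum_product, Finset.mul_sum]
    refine Finset.sum_congr rfl fun x _ => ?_
    rw [Finset.sum_div, Finset.mul_sum]
    refine Finset.sum_congr rfl fun n _ => ?_
    simp only [ha, hb]
    ring
  -- sums of `a`
  have e1 : ∀ d x : ℕ, ∑ n ∈ rest p.P p.r p.Q2, a (d, x, n) =
      en p.Z p.P (pr f x (x + d)) (rest p.P p.r p.Q2) := by
    intro d x
    simp only [ha, en]
    rw [Finset.sum_div]
  have e2 : ∑ i ∈ I, wt p.H i.1 * a i ≤ (p.H : ℝ) ^ 2 * p.X * p.Z := by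
    rw [hI, Finset.sum_product]
    calc ∑ d ∈ ds p.H, ∑ y ∈ Finset.range p.X ×ˢ rest p.P p.r p.Q2,
          wt p.H (d, y).1 * a (d, y)
        ≤ ∑ d ∈ ds p.H, wt p.H d * (p.X * p.Z) := by
          refine Finset.sum_le_sum fun d hd => ?_
          have e : ∑ y ∈ Finset.range p.X ×ˢ rest p.P p.r p.Q2, wt p.H (d, y).1 * a (d, y) =
              wt p.H d * ∑ y ∈ Finset.range p.X ×ˢ rest p.P p.r p.Q2, a (d, y) := by
            rw [Finset.mul_sum]
          rw [e]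
          refine mul_le_mul_of_nonneg_left ?_ (wt_nonneg p.H d hd)
          rw [Finset.sum_product]
          calc ∑ x ∈ Finset.range p.X, ∑ n ∈ rest p.P p.r p.Q2, a (d, x, n)
              ≤ ∑ x ∈ Finset.range p.X, (p.Z : ℝ) := by
                refine Finset.sum_le_sum fun x _ => ?_
                rw [e1]
                exact en_rest p f c _ _
            _ = p.X * p.Z := by rw [Finset.sum_const, Finset.card_range, nsmul_eq_mul]
      _ = (∑ d ∈ ds p.H, wt p.H d) * (p.X * p.Z) := by rw [Finset.sum_mul]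
      _ ≤ (p.H : ℝ) ^ 2 * (p.X * p.Z) :=
          mul_le_mul_of_nonneg_right (sum_wt p.H) (by positivity)
      _ = _ := by ring
  have e3 : ∑ i ∈ I, a i ≤ 2 * (p.H : ℝ) * p.X * p.Z := by
    rw [hI, Finset.sum_product]
    calc ∑ d ∈ ds p.H, ∑ y ∈ Finset.range p.X ×ˢ rest p.P p.r p.Q2, a (d, y)
        ≤ ∑ d ∈ ds p.H, ((p.X : ℝ) * p.Z) := by
          refine Finset.sum_le_sum fun d hd => ?_
          rw [Finset.sum_product]
          calc ∑ x ∈ Finset.range p.X, ∑ n ∈ rest p.P p.r p.Q2, a (d, x, n)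
              ≤ ∑ x ∈ Finset.range p.X, (p.Z : ℝ) := by
                refine Finset.sum_le_sum fun x _ => ?_
                rw [e1]
                exact en_rest p f c _ _
            _ = p.X * p.Z := by rw [Finset.sum_const, Finset.card_range, nsmul_eq_mul]
      _ = ((ds p.H).card : ℝ) * (p.X * p.Z) := by rw [Finset.sum_const, nsmul_eq_mul]
      _ ≤ 2 * (p.H : ℝ) * (p.X * p.Z) :=
          mul_le_mul_of_nonneg_right (card_ds p.H) (by positivity)
      _ = _ := by ring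
  -- smoothing
  have e4 : ∑ i ∈ I, a i * ‖tau T (b i)‖ ^ 2 ≤
      2 * T.card * (4 * p.K * (p.σ * p.H * p.X * p.Z) + (∑ i ∈ I, a i) / (4 * p.K * p.θ ^ 2)) := by
    refine smo p.K p.hK T hT I a b (fun i _ => ha0 i) p.θ _ hθ fun β => ?_
    refine le_trans (le_of_eq ?_) (rsa p f c β)
    rw [Finset.sum_filter, hI, Finset.sum_product]
    refine Finset.sum_congr rfl fun d _ => ?_
    rw [Finset.sum_product]
    refine Finset.sum_congr rfl fun x _ => ?_
    unfold en Nd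
    rw [Finset.sum_filter, Finset.sum_div]
    refine Finset.sum_congr rfl fun n _ => ?_
    simp only [ha, hb]
    by_cases h : nint ((d : ℝ) * ((n : ℝ) / p.P) - β) ≤ p.θ
    · rw [if_pos h, if_pos h]
    · rw [if_neg h, if_neg h, zero_div]
  have hθ2 : 4 * (p.K : ℝ) * p.θ ^ 2 = 4 * (p.l0 : ℝ) ^ 2 / p.K := by
    unfold Par.θ
    field_simp
  have e5 : ∑ i ∈ I, wt p.H i.1 * a i * ‖tau T (b i)‖ ^ 2 ≤
      2 * T.card * p.K * (p.H : ℝ) ^ 2 * p.X * p.Z * (4 * p.σ + 1 / (2 * (p.l0 : ℝ) ^ 2)) := by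
    calc ∑ i ∈ I, wt p.H i.1 * a i * ‖tau T (b i)‖ ^ 2
        ≤ ∑ i ∈ I, p.H * (a i * ‖tau T (b i)‖ ^ 2) := by
          refine Finset.sum_le_sum fun i _ => ?_
          rw [mul_assoc]
          exact mul_le_mul_of_nonneg_right (wt_le _ _) (mul_nonneg (ha0 i) (sq_nonneg _))
      _ = p.H * ∑ i ∈ I, a i * ‖tau T (b i)‖ ^ 2 := by rw [Finset.mul_sum]
      _ ≤ p.H * (2 * T.card * (4 * p.K * (p.σ * p.H * p.X * p.Z) +
            (2 * (p.H : ℝ) * p.X * p.Z) / (4 * p.K * p.θ ^ 2))) := by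
          refine mul_le_mul_of_nonneg_left (e4.trans ?_) hH.le
          refine mul_le_mul_of_nonneg_left ?_ (by positivity)
          refine add_le_add le_rfl ?_
          exact div_le_div_of_nonneg_right e3 (by positivity)
      _ = _ := by
          rw [hθ2]
          have hl : (p.l0 : ℝ) ≠ 0 := by linarith
          field_simp
          ring
  have e6 : 4 * p.σ + 1 / (2 * (p.l0 : ℝ) ^ 2) ≤ p.ε * p.β ^ 2 / 512 := by
    have h1 : p.σ ≤ p.ε * p.β ^ 2 / 4096 := p.hσβ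
    have h2 : 1 / (2 * (p.l0 : ℝ) ^ 2) ≤ p.ε * p.β ^ 2 / 1024 := by
      have h3 := p.hl0β
      rw [div_le_iff₀ (by positivity)] at h3
      rw [div_le_div_iff₀ (by positivity) (by norm_num)]
      linarith
    linarith
  have e7 : (∑ i ∈ I, wt p.H i.1 * a i * ‖tau T (b i)‖) ^ 2 ≤
      (∑ i ∈ I, wt p.H i.1 * a i * ‖tau T (b i)‖ ^ 2) * ∑ i ∈ I, wt p.H i.1 * a i := by
    have hw : ∀ i ∈ I, 0 ≤ wt p.H i.1 := fun i hi => by
      rw [hI, Finset.mem_product] at hi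
      exact wt_nonneg _ _ hi.1
    refine Finset.sum_sq_le_sum_mul_sum_of_sq_le_mul I ?_ ?_ ?_
    · intro i hi
      exact mul_nonneg (mul_nonneg (hw i hi) (ha0 i)) (sq_nonneg _)
    · intro i hi
      exact mul_nonneg (hw i hi) (ha0 i)
    · intro i _
      exact le_of_eq (by ring)
  rw [e0]
  have hT0 : (0 : ℝ) ≤ T.card := by positivity
  refine abs_le_of_sq_le_sq' ?_ (by positivity) |>.2
  calc (∑ i ∈ I, wt p.H i.1 * a i * ‖tau T (b i)‖) ^ 2
      ≤ (∑ i ∈ I, wt p.H i.1 * a i * ‖tau T (b i)‖ ^ 2) * ∑ i ∈ I, wt p.H i.1 * a i := e7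
    _ ≤ (2 * T.card * p.K * (p.H : ℝ) ^ 2 * p.X * p.Z * (4 * p.σ + 1 / (2 * (p.l0 : ℝ) ^ 2))) *
          ((p.H : ℝ) ^ 2 * p.X * p.Z) := by
        refine mul_le_mul e5 e2 ?_ ?_
        · refine Finset.sum_nonneg fun i hi => ?_
          rw [hI, Finset.mem_product] at hi
          exact mul_nonneg (wt_nonneg _ _ hi.1) (ha0 i)
        · have := p.hσ
          positivity
    _ ≤ (2 * T.card * p.K * (p.H : ℝ) ^ 2 * p.X * p.Z * (p.ε * p.β ^ 2 / 512)) *
          ((p.H : ℝ) ^ 2 * p.X * p.Z) := by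
        refine mul_le_mul_of_nonneg_right ?_ (by positivity)
        exact mul_le_mul_of_nonneg_left e6 (by positivity)
    _ = (2 * T.card * (p.H : ℝ) ^ 2 * p.X * p.Z * (p.β ^ 2 / 512) *
          ((p.H : ℝ) ^ 2 * p.X * p.Z)) * (p.ε * p.K) := by ring
    _ ≤ (2 * T.card * (p.H : ℝ) ^ 2 * p.X * p.Z * (p.β ^ 2 / 512) *
          ((p.H : ℝ) ^ 2 * p.X * p.Z)) * T.card :=
        mul_le_mul_of_nonneg_left hTε (by positivity)
    _ = (T.card * p.M / 16) ^ 2 := by
        unfold Par.M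
        ring

end Pool.Agent.AAR
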