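import Pool.Agent.AAR.Sub

/-!
# AAR-Sdr: the first cell

PLAN.  `sdr`: two Cauchy-Schwarz inequalities: `(∑_{i,j} g)² ≤ m ∑_j (∑_i g)² = m ∑_{i,i'} ∑_j g g`, and
`(∑_{i,i'} ∑_j gg)² ≤ n² ∑_{i,i'} (∑_j gg)²`.  `cel_window`: unfold (`z₀ + W (z₁ + b j) = (z₀ + W z₁) + W b j`).
`Bx01`: all values are in `[0,1]`.  `le_pot`: `le_csSup`, the set is bounded above by 1.
`start`: `n' = N/a + 1 ≤ 2N/a`; the cells `x₀ ∈ [1,a]`, `z₀ = 1`, side lengths `n' × N`, cover `[N]²`, so one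
of them has `∑ cel ≥ |A|/a ≥ δN²/a`, density `≥ δ/2`, `Bx ≥ δ⁴/16` by `sdr`; then `sub_box` with `n = X0`, `m = Z0` and
`C = pot` (the windows of the cell are cells by `cel_window`), factor `≤ 16`.
-/

set_option autoImplicit false

namespace Pool.Agent.AAR

theorem sdr (g : ℤ → ℤ → ℝ) (h0 : ∀ x z, 0 ≤ g x z) (x₁ z₁ : ℤ) (b n m : ℕ) (hn : 1 ≤ n)
    (hm : 1 ≤ m) :
    ((∑ i ∈ Finset.range n, ∑ j ∈ Finset.range m, g (x₁ + b * i) (z₁ + b * j)) /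
      ((n : ℝ) * m)) ^ 4 ≤ Bx g x₁ z₁ b n m := by
  have hn' : (0 : ℝ) < n := by exact_mod_cast hn
  have hm' : (0 : ℝ) < m := by exact_mod_cast hm
  set T := ∑ i ∈ Finset.range n, ∑ j ∈ Finset.range m, g (x₁ + b * i) (z₁ + b * j) with hT
  set S := ∑ i ∈ Finset.range n, ∑ i' ∈ Finset.range n,
    (∑ j ∈ Finset.range m, g (x₁ + b * i) (z₁ + b * j) * g (x₁ + b * i') (z₁ + b * j)) ^ 2 with hS
  set A := ∑ j ∈ Finset.range m, (∑ i ∈ Finset.range n, g (x₁ + b * i) (z₁ + b * j)) ^ 2 with hA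
  have e1 : T ^ 2 ≤ m * A := by
    have h := sq_sum_le_card_mul_sum_sq (s := Finset.range m)
      (f := fun j : ℕ => ∑ i ∈ Finset.range n, g (x₁ + b * i) (z₁ + b * j))
    rw [Finset.card_range] at h
    rw [hT, Finset.sum_comm]
    exact h
  have e2 : A = ∑ i ∈ Finset.range n, ∑ i' ∈ Finset.range n,
      (∑ j ∈ Finset.range m, g (x₁ + b * i) (z₁ + b * j) * g (x₁ + b * i') (z₁ + b * j)) := by
    rw [hA]
    calc ∑ j ∈ Finset.range m, (∑ i ∈ Finset.range n, g (x₁ + b * i) (z₁ + b * j)) ^ 2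
        = ∑ j ∈ Finset.range m, ∑ i ∈ Finset.range n, ∑ i' ∈ Finset.range n,
            g (x₁ + b * i) (z₁ + b * j) * g (x₁ + b * i') (z₁ + b * j) := by
          refine Finset.sum_congr rfl fun j _ => ?_
          rw [sq, Finset.sum_mul_sum]
      _ = ∑ i ∈ Finset.range n, ∑ j ∈ Finset.range m, ∑ i' ∈ Finset.range n,
            g (x₁ + b * i) (z₁ + b * j) * g (x₁ + b * i') (z₁ + b * j) := Finset.sum_comm
      _ = _ := by
          refine Finset.sum_congr rfl fun i _ => ?_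
          rw [Finset.sum_comm]
  have e3 : A ^ 2 ≤ (n : ℝ) ^ 2 * S := by
    rw [e2]
    have h := sq_sum_le_card_mul_sum_sq (s := Finset.range n)
      (f := fun i : ℕ => ∑ i' ∈ Finset.range n,
        (∑ j ∈ Finset.range m, g (x₁ + b * i) (z₁ + b * j) * g (x₁ + b * i') (z₁ + b * j)))
    rw [Finset.card_range] at h
    refine h.trans ?_
    have h2 : ∑ i ∈ Finset.range n, (∑ i' ∈ Finset.range n,
        (∑ j ∈ Finset.range m, g (x₁ + b * i) (z₁ + b * j) * g (x₁ + b * i') (z₁ + b * j))) ^ 2 ≤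
        ∑ i ∈ Finset.range n, (n : ℝ) * ∑ i' ∈ Finset.range n,
        (∑ j ∈ Finset.range m, g (x₁ + b * i) (z₁ + b * j) *
          g (x₁ + b * i') (z₁ + b * j)) ^ 2 := by
      refine Finset.sum_le_sum fun i _ => ?_
      have h3 := sq_sum_le_card_mul_sum_sq (s := Finset.range n)
        (f := fun i' : ℕ =>
          (∑ j ∈ Finset.range m, g (x₁ + b * i) (z₁ + b * j) * g (x₁ + b * i') (z₁ + b * j)))
      rw [Finset.card_range] at h3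
      exact h3
    rw [← Finset.mul_sum] at h2
    calc (n : ℝ) * _ ≤ (n : ℝ) * ((n : ℝ) * S) := mul_le_mul_of_nonneg_left h2 hn'.le
      _ = (n : ℝ) ^ 2 * S := by ring
  have hA0 : 0 ≤ A := Finset.sum_nonneg fun j _ => sq_nonneg _
  have e4 : T ^ 4 ≤ (m : ℝ) ^ 2 * ((n : ℝ) ^ 2 * S) := by
    calc T ^ 4 = (T ^ 2) ^ 2 := by ring
      _ ≤ (m * A) ^ 2 := pow_le_pow_left₀ (sq_nonneg _) e1 2
      _ = (m : ℝ) ^ 2 * A ^ 2 := by ring
      _ ≤ _ := mul_le_mul_of_nonneg_left e3 (by positivity)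
  have e5 : Bx g x₁ z₁ b n m = S / ((n : ℝ) ^ 2 * (m : ℝ) ^ 2) := rfl
  rw [e5, div_pow, div_le_div_iff₀ (by positivity) (by positivity)]
  calc T ^ 4 * ((n : ℝ) ^ 2 * (m : ℝ) ^ 2)
      ≤ ((m : ℝ) ^ 2 * ((n : ℝ) ^ 2 * S)) * ((n : ℝ) ^ 2 * (m : ℝ) ^ 2) :=
        mul_le_mul_of_nonneg_right e4 (by positivity)
    _ = S * ((n : ℝ) * m) ^ 4 := by ring

theorem cel_window (A : Finset (ℕ × ℕ)) (a W b n m : ℕ) (x₀ z₀ x₁ z₁ : ℤ) :
    Bx (cel A a W x₀ z₀) x₁ z₁ b n m =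
      Bx (cel A a (W * b) (x₀ + a * W * x₁) (z₀ + W * z₁)) 0 0 1 n m := by
  have h : ∀ i j : ℕ, cel A a W x₀ z₀ (x₁ + b * i) (z₁ + b * j) =
      cel A a (W * b) (x₀ + a * W * x₁) (z₀ + W * z₁) (0 + ((1 : ℕ) : ℤ) * i)
        (0 + ((1 : ℕ) : ℤ) * j) := by
    intro i j
    have e1 : (x₀ : ℤ) + a * W * (x₁ + b * i) =
        (x₀ + a * W * x₁) + a * ((W * b : ℕ) : ℤ) * (0 + ((1 : ℕ) : ℤ) * i) := by
      push_cast
      ring
    have e2 : (z₀ : ℤ) + W * (z₁ + b * j) =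
        (z₀ + W * z₁) + ((W * b : ℕ) : ℤ) * (0 + ((1 : ℕ) : ℤ) * j) := by
      push_cast
      ring
    unfold cel
    rw [e1, e2]
  unfold Bx
  simp only [h]

theorem Bx_nonneg (g : ℤ → ℤ → ℝ) (x₁ z₁ : ℤ) (b n m : ℕ) : 0 ≤ Bx g x₁ z₁ b n m := by
  unfold Bx
  exact div_nonneg (Finset.sum_nonneg fun i _ => Finset.sum_nonneg fun i' _ => sq_nonneg _)
    (by positivity)

theorem Bx_le_one (g : ℤ → ℤ → ℝ) (h0 : ∀ x z, 0 ≤ g x z) (h1 : ∀ x z, g x z ≤ 1) (x₁ z₁ : ℤ)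
    (b n m : ℕ) : Bx g x₁ z₁ b n m ≤ 1 := by
  unfold Bx
  refine div_le_one_of_le₀ ?_ (by positivity)
  have h2 : ∀ i i' : ℕ, (∑ j ∈ Finset.range m,
      g (x₁ + b * i) (z₁ + b * j) * g (x₁ + b * i') (z₁ + b * j)) ^ 2 ≤ (m : ℝ) ^ 2 := by
    intro i i'
    refine pow_le_pow_left₀ (Finset.sum_nonneg fun j _ => mul_nonneg (h0 _ _) (h0 _ _)) ?_ 2
    calc ∑ j ∈ Finset.range m, g (x₁ + b * i) (z₁ + b * j) * g (x₁ + b * i') (z₁ + b * j)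
        ≤ ∑ j ∈ Finset.range m, (1 : ℝ) := Finset.sum_le_sum fun j _ =>
          mul_le_one₀ (h1 _ _) (h0 _ _) (h1 _ _)
      _ = m := by rw [Finset.sum_const, Finset.card_range, nsmul_eq_mul, mul_one]
  calc _ ≤ ∑ i ∈ Finset.range n, ∑ i' ∈ Finset.range n, (m : ℝ) ^ 2 :=
        Finset.sum_le_sum fun i _ => Finset.sum_le_sum fun i' _ => h2 i i'
    _ = (n : ℝ) ^ 2 * (m : ℝ) ^ 2 := by
        rw [Finset.sum_const, Finset.sum_const, Finset.card_range, nsmul_eq_mul, nsmul_eq_mul]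
        ring

private theorem cel_nonneg (A : Finset (ℕ × ℕ)) (a W : ℕ) (x₀ z₀ x z : ℤ) :
    0 ≤ cel A a W x₀ z₀ x z := by
  unfold cel
  split_ifs
  · exact zero_le_one
  · exact le_refl _

private theorem cel_le_one (A : Finset (ℕ × ℕ)) (a W : ℕ) (x₀ z₀ x z : ℤ) :
    cel A a W x₀ z₀ x z ≤ 1 := by
  unfold cel
  split_ifs
  · exact le_refl _
  · exact zero_le_one

theorem le_pot (A : Finset (ℕ × ℕ)) (a W n m : ℕ) (hW : 1 ≤ W) (x₀ z₀ : ℤ) :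
    Bx (cel A a W x₀ z₀) 0 0 1 n m ≤ pot A a n m := by
  refine le_csSup ⟨1, ?_⟩ ⟨W, hW, x₀, z₀, rfl⟩
  rintro t ⟨W', _, x', z', rfl⟩
  exact Bx_le_one _ (cel_nonneg A a W' x' z') (cel_le_one A a W' x' z') _ _ _ _ _

theorem pot_le_one (A : Finset (ℕ × ℕ)) (a n m : ℕ) : pot A a n m ≤ 1 := by
  refine Real.sSup_le ?_ zero_le_one
  rintro t ⟨W', _, x', z', rfl⟩
  exact Bx_le_one _ (cel_nonneg A a W' x' z') (cel_le_one A a W' x' z') _ _ _ _ _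

/-- the cells with `W = 1` cover `A` -/
private theorem cover (A : Finset (ℕ × ℕ)) (a N : ℕ) (ha : 1 ≤ a)
    (hA : A ⊆ Finset.Icc 1 N ×ˢ Finset.Icc 1 N) :
    (A.card : ℝ) ≤ ∑ c ∈ Finset.range a, ∑ i ∈ Finset.range (N / a + 1), ∑ j ∈ Finset.range N,
      cel A a 1 ((c : ℤ) + 1) 1 (0 + ((1 : ℕ) : ℤ) * i) (0 + ((1 : ℕ) : ℤ) * j) := by
  classical
  have hmem : ∀ q ∈ A, (1 ≤ q.1 ∧ q.1 ≤ N) ∧ (1 ≤ q.2 ∧ q.2 ≤ N) := by
    intro q hq
    have := hA hq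
    rw [Finset.mem_product, Finset.mem_Icc, Finset.mem_Icc] at this
    exact this
  set φ : ℕ × ℕ → ℕ × ℕ × ℕ := fun q => ((q.1 - 1) % a, (q.1 - 1) / a, q.2 - 1) with hφ
  have hinj : ∀ q ∈ A, ∀ q' ∈ A, φ q = φ q' → q = q' := by
    intro q hq q' hq' h
    simp only [hφ, Prod.mk.injEq] at h
    obtain ⟨h1, h2, h3⟩ := h
    have e1 := Nat.div_add_mod (q.1 - 1) a
    have e2 := Nat.div_add_mod (q'.1 - 1) a
    rw [h1, h2] at e1
    have m1 := hmem q hq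
    have m2 := hmem q' hq'
    refine Prod.ext ?_ ?_ <;> omega
  have hsub : A.image φ ⊆ Finset.range a ×ˢ (Finset.range (N / a + 1) ×ˢ Finset.range N) := by
    intro t ht
    obtain ⟨q, hq, rfl⟩ := Finset.mem_image.1 ht
    have m1 := hmem q hq
    simp only [hφ, Finset.mem_product, Finset.mem_range]
    refine ⟨Nat.mod_lt _ ha, ?_, by omega⟩
    have : (q.1 - 1) / a ≤ N / a := Nat.div_le_div_right (by omega)
    omega
  have hval : ∀ t ∈ A.image φ, (1 : ℝ) ≤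
      cel A a 1 ((t.1 : ℤ) + 1) 1 (0 + ((1 : ℕ) : ℤ) * t.2.1) (0 + ((1 : ℕ) : ℤ) * t.2.2) := by
    intro t ht
    obtain ⟨q, hq, rfl⟩ := Finset.mem_image.1 ht
    have m1 := hmem q hq
    unfold cel
    rw [if_pos]
    refine ⟨q, hq, ?_, ?_⟩
    · simp only [hφ]
      have e1 := Nat.div_add_mod (q.1 - 1) a
      have e2 : (q.1 : ℤ) = ((a * ((q.1 - 1) / a) + (q.1 - 1) % a + 1 : ℕ) : ℤ) := by
        congr 1
        omega
      rw [e2]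
      push_cast
      ring
    · simp only [hφ]
      have e2 : (q.2 : ℤ) = ((q.2 - 1 + 1 : ℕ) : ℤ) := by
        congr 1
        omega
      rw [e2]
      push_cast
      ring
  calc (A.card : ℝ) = (A.image φ).card := by
        rw [Finset.card_image_of_injOn (fun q hq q' hq' h => hinj q hq q' hq' h)]
    _ = ∑ t ∈ A.image φ, (1 : ℝ) := by rw [Finset.sum_const, nsmul_eq_mul, mul_one]
    _ ≤ ∑ t ∈ A.image φ,
        cel A a 1 ((t.1 : ℤ) + 1) 1 (0 + ((1 : ℕ) : ℤ) * t.2.1) (0 + ((1 : ℕ) : ℤ) * t.2.2) :=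
        Finset.sum_le_sum hval
    _ ≤ ∑ t ∈ Finset.range a ×ˢ (Finset.range (N / a + 1) ×ˢ Finset.range N),
        cel A a 1 ((t.1 : ℤ) + 1) 1 (0 + ((1 : ℕ) : ℤ) * t.2.1) (0 + ((1 : ℕ) : ℤ) * t.2.2) :=
        Finset.sum_le_sum_of_subset_of_nonneg hsub fun t _ _ => cel_nonneg _ _ _ _ _ _ _
    _ = _ := by
        rw [Finset.sum_product]
        refine Finset.sum_congr rfl fun c _ => ?_
        rw [Finset.sum_product]

theorem start (A : Finset (ℕ × ℕ)) (a N X0 Z0 : ℕ) (δ : ℝ) (ha : 1 ≤ a) (haN : a ≤ N)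
    (hA : A ⊆ Finset.Icc 1 N ×ˢ Finset.Icc 1 N) (hδ : 0 < δ) (hc : δ * (N : ℝ) ^ 2 ≤ A.card)
    (hX : 1 ≤ X0) (hXN : X0 ≤ N / a) (hZ : 1 ≤ Z0) (hZN : Z0 ≤ N) :
    δ ^ 4 / 256 ≤ pot A a X0 Z0 := by
  have ha' : (0 : ℝ) < a := by exact_mod_cast ha
  have hN : 1 ≤ N := ha.trans haN
  have hN' : (0 : ℝ) < N := by exact_mod_cast hN
  -- one good cell
  obtain ⟨c, _, hcell⟩ : ∃ c ∈ Finset.range a, δ * (N : ℝ) ^ 2 / a ≤
      ∑ i ∈ Finset.range (N / a + 1), ∑ j ∈ Finset.range N,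
        cel A a 1 ((c : ℤ) + 1) 1 (0 + ((1 : ℕ) : ℤ) * i) (0 + ((1 : ℕ) : ℤ) * j) := by
    refine Finset.exists_le_of_sum_le (Finset.nonempty_range_iff.2 (by omega)) ?_
    rw [Finset.sum_const, Finset.card_range, nsmul_eq_mul]
    calc (a : ℝ) * (δ * (N : ℝ) ^ 2 / a) = δ * (N : ℝ) ^ 2 := by field_simp
      _ ≤ _ := hc.trans (cover A a N ha hA)
  set n' := N / a + 1 with hn'
  have hn1 : 1 ≤ n' := by omega
  have hn0 : (0 : ℝ) < n' := by exact_mod_cast hn1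
  have hfl : ((N / a : ℕ) : ℝ) ≤ (N : ℝ) / a := Nat.cast_div_le
  have hNa : (1 : ℝ) ≤ (N : ℝ) / a := by
    rw [le_div_iff₀ ha', one_mul]
    exact_mod_cast haN
  have hn2 : (n' : ℝ) ≤ 2 * N / a := by
    rw [hn']
    push_cast
    have : 2 * (N : ℝ) / a = N / a + N / a := by ring
    linarith
  have h1 := sdr (cel A a 1 ((c : ℤ) + 1) 1) (cel_nonneg A a 1 _ _) 0 0 1 n' N hn1 hN
  have hd : δ / 2 ≤ (∑ i ∈ Finset.range n', ∑ j ∈ Finset.range N,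
        cel A a 1 ((c : ℤ) + 1) 1 (0 + ((1 : ℕ) : ℤ) * i) (0 + ((1 : ℕ) : ℤ) * j)) /
        ((n' : ℝ) * N) := by
    rw [le_div_iff₀ (by positivity)]
    refine le_trans ?_ hcell
    calc δ / 2 * ((n' : ℝ) * N) ≤ δ / 2 * ((2 * N / a) * N) :=
          mul_le_mul_of_nonneg_left (mul_le_mul_of_nonneg_right hn2 hN'.le) (by positivity)
      _ = δ * (N : ℝ) ^ 2 / a := by ring
  have h2 : (δ / 2) ^ 4 ≤ Bx (cel A a 1 ((c : ℤ) + 1) 1) 0 0 1 n' N :=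
    (pow_le_pow_left₀ (by positivity) hd 4).trans h1
  have hC0 : 0 ≤ pot A a X0 Z0 := (Bx_nonneg _ _ _ _ _ _).trans (le_pot A a 1 X0 Z0 le_rfl 0 0)
  have h3 := sub_box (cel A a 1 ((c : ℤ) + 1) 1) (cel_nonneg A a 1 _ _) 1 X0 Z0 n' N le_rfl hX hZ
    (by omega) hZN (pot A a X0 Z0)
    (fun x₁ z₁ => by
      rw [cel_window]
      exact le_pot A a (1 * 1) X0 Z0 (by norm_num) _ _) 0 0
  have h4 : (1 + (X0 : ℝ) / n') ^ 2 ≤ 4 := by
    have : (X0 : ℝ) / n' ≤ 1 := by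
      rw [div_le_one hn0]
      exact_mod_cast (by omega : X0 ≤ n')
    have h5 : (0 : ℝ) ≤ (X0 : ℝ) / n' := by positivity
    nlinarith
  have h5 : (1 + (Z0 : ℝ) / N) ^ 2 ≤ 4 := by
    have : (Z0 : ℝ) / N ≤ 1 := by
      rw [div_le_one hN']
      exact_mod_cast hZN
    have h5 : (0 : ℝ) ≤ (Z0 : ℝ) / N := by positivity
    nlinarith
  have h6 : (1 + (X0 : ℝ) / n') ^ 2 * (1 + (Z0 : ℝ) / N) ^ 2 * pot A a X0 Z0 ≤
      16 * pot A a X0 Z0 := by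
    refine mul_le_mul_of_nonneg_right ?_ hC0
    calc (1 + (X0 : ℝ) / n') ^ 2 * (1 + (Z0 : ℝ) / N) ^ 2 ≤ 4 * 4 :=
          mul_le_mul h4 h5 (by positivity) (by norm_num)
      _ = 16 := by norm_num
  have h7 := (h2.trans h3).trans h6
  have e : (δ / 2) ^ 4 = δ ^ 4 / 16 := by ring
  rw [e] at h7
  linarith

end Pool.Agent.AAR
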