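import Pool.Agent.AAR.Bas

/-!
# AAR-Sub: box densities of long windows

PLAN.  Without loss of generality `x₁ = z₁ = 0`, `b = 1` (replace `g` by `g (x₁ + b x) (z₁ + b z)`; keep it
general if easier).  First shorten in `x`: `a(z,z') = (1/n') ∑_{x<n'} g(x,z)g(x,z')`,
`Bx = E_{z,z'<m'} a²` (interchange the two squares: both are `E_{x,x',z,z'}` of the product of four
values).  With `a_y = (1/n) ∑_{i<n} 1_{[0,n')}(y+i) g(y+i,z) g(y+i,z')`, `-n < y < n'`, we have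
`n' a = ∑_y a_y`, so `a² ≤ ((n'+n)/n')² (1/(n'+n)) ∑_y a_y²` (Cauchy-Schwarz with at most `n'+n` terms), hence
`Bx(n',m') ≤ (1+n/n')² max_y Bx(truncated window y; n, m')`, and the truncation can be removed as `g ≥ 0`.
So `Bx(n',m') ≤ (1+n/n')² sup_y Bx(y; n, m')`; the same argument in `z` gives the claim.
(`Π ≥ 0` follows from `Bx ≥ 0`.)  One convenient way: a private lemma for one coordinate with general nonnegative kernels, used
twice.
-/

set_option autoImplicit false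

namespace Pool.Agent.AAR

private theorem Sub_dbl (F : ℕ → ℕ → ℝ) (s t : Finset ℕ) :
    ∑ i ∈ s, ∑ i' ∈ s, (∑ j ∈ t, F i j * F i' j) ^ 2 =
      ∑ j ∈ t, ∑ j' ∈ t, (∑ i ∈ s, F i j * F i j') ^ 2 := by
  have e1 : ∑ i ∈ s, ∑ i' ∈ s, (∑ j ∈ t, F i j * F i' j) ^ 2 =
      ∑ i ∈ s, ∑ i' ∈ s, ∑ j ∈ t, ∑ j' ∈ t, F i j * F i' j * (F i j' * F i' j') := by
    refine Finset.sum_congr rfl fun i _ => Finset.sum_congr rfl fun i' _ => ?_
    rw [sq, Finset.sum_mul_sum]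
  have e2 : ∑ j ∈ t, ∑ j' ∈ t, (∑ i ∈ s, F i j * F i j') ^ 2 =
      ∑ j ∈ t, ∑ j' ∈ t, ∑ i ∈ s, ∑ i' ∈ s, F i j * F i' j * (F i j' * F i' j') := by
    refine Finset.sum_congr rfl fun j _ => Finset.sum_congr rfl fun j' _ => ?_
    rw [sq, Finset.sum_mul_sum]
    refine Finset.sum_congr rfl fun i _ => Finset.sum_congr rfl fun i' _ => ?_
    ring
  rw [e1, e2]
  calc ∑ i ∈ s, ∑ i' ∈ s, ∑ j ∈ t, ∑ j' ∈ t, F i j * F i' j * (F i j' * F i' j')
      = ∑ i ∈ s, ∑ j ∈ t, ∑ i' ∈ s, ∑ j' ∈ t, F i j * F i' j * (F i j' * F i' j') :=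
        Finset.sum_congr rfl fun i _ => Finset.sum_comm
    _ = ∑ j ∈ t, ∑ i ∈ s, ∑ i' ∈ s, ∑ j' ∈ t, F i j * F i' j * (F i j' * F i' j') :=
        Finset.sum_comm
    _ = ∑ j ∈ t, ∑ i ∈ s, ∑ j' ∈ t, ∑ i' ∈ s, F i j * F i' j * (F i j' * F i' j') :=
        Finset.sum_congr rfl fun j _ => Finset.sum_congr rfl fun i _ => Finset.sum_comm
    _ = ∑ j ∈ t, ∑ j' ∈ t, ∑ i ∈ s, ∑ i' ∈ s, F i j * F i' j * (F i j' * F i' j') :=
        Finset.sum_congr rfl fun j _ => Finset.sum_comm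

private theorem Sub_cs (a : ℤ → ℝ) (ha : ∀ i, 0 ≤ a i) (n n' : ℕ) :
    (n : ℝ) ^ 2 * (∑ i ∈ Finset.range n', a i) ^ 2 ≤
      ((n' : ℝ) + n) * ∑ y ∈ Finset.Ico (-(n : ℤ)) n', (∑ i ∈ Finset.range n, a (y + i)) ^ 2 := by
  have h1 : ∀ k ∈ Finset.range n, ∑ i ∈ Finset.range n', a i ≤
      ∑ y ∈ Finset.Ico (-(n : ℤ)) n', a (y + k) := by
    intro k hk
    have hk' := Finset.mem_range.1 hk
    have h2 : ∑ i ∈ Finset.range n', a i =
        ∑ y ∈ (Finset.range n').image (fun i : ℕ => (i : ℤ) - k), a (y + k) := by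
      rw [Finset.sum_image]
      · refine Finset.sum_congr rfl fun i _ => ?_
        rw [sub_add_cancel]
      · intro i _ j _ hij
        have hij' : (i : ℤ) - k = (j : ℤ) - k := hij
        omega
    rw [h2]
    apply Finset.sum_le_sum_of_subset_of_nonneg
    · intro y hy
      obtain ⟨i, hi, rfl⟩ := Finset.mem_image.1 hy
      have hi' := Finset.mem_range.1 hi
      exact Finset.mem_Ico.2 ⟨by omega, by omega⟩
    · intro y _ _
      exact ha _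
  have h3 : (n : ℝ) * ∑ i ∈ Finset.range n', a i ≤
      ∑ y ∈ Finset.Ico (-(n : ℤ)) n', ∑ i ∈ Finset.range n, a (y + i) := by
    rw [Finset.sum_comm]
    have := Finset.sum_le_sum h1
    rw [Finset.sum_const, Finset.card_range, nsmul_eq_mul] at this
    exact this
  have h4 : 0 ≤ (n : ℝ) * ∑ i ∈ Finset.range n', a i :=
    mul_nonneg (Nat.cast_nonneg _) (Finset.sum_nonneg fun i _ => ha _)
  have h5 := sq_sum_le_card_mul_sum_sq (s := Finset.Ico (-(n : ℤ)) n')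
    (f := fun y => ∑ i ∈ Finset.range n, a (y + i))
  have h6 : ((Finset.Ico (-(n : ℤ)) n').card : ℝ) = (n' : ℝ) + n := by
    rw [Int.card_Ico]
    have : ((n' : ℤ) - -(n : ℤ)).toNat = n' + n := by omega
    rw [this]
    push_cast
    ring
  rw [h6] at h5
  calc (n : ℝ) ^ 2 * (∑ i ∈ Finset.range n', a i) ^ 2
      = ((n : ℝ) * ∑ i ∈ Finset.range n', a i) ^ 2 := by ring
    _ ≤ (∑ y ∈ Finset.Ico (-(n : ℤ)) n', ∑ i ∈ Finset.range n, a (y + i)) ^ 2 := by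
        exact pow_le_pow_left₀ h4 h3 2
    _ ≤ _ := h5

private theorem Sub_swap (g : ℤ → ℤ → ℝ) (x₁ z₁ : ℤ) (b n m : ℕ) :
    Bx g x₁ z₁ b n m = Bx (fun x z => g z x) z₁ x₁ b m n := by
  unfold Bx
  rw [Sub_dbl (fun i j => g (x₁ + b * i) (z₁ + b * j)) (Finset.range n) (Finset.range m),
    mul_comm ((n : ℝ) ^ 2)]

private theorem Sub_one (g : ℤ → ℤ → ℝ) (h0 : ∀ x z, 0 ≤ g x z) (b n m n' : ℕ)
    (hn : 1 ≤ n) (hm : 1 ≤ m) (hn' : n ≤ n') (C : ℝ)
    (h : ∀ x₁ z₁ : ℤ, Bx g x₁ z₁ b n m ≤ C) (x₁ z₁ : ℤ) :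
    Bx g x₁ z₁ b n' m ≤ (1 + (n : ℝ) / n') ^ 2 * C := by
  have hnR : (0 : ℝ) < n := by exact_mod_cast hn
  have hmR : (0 : ℝ) < m := by exact_mod_cast hm
  have hn'R : (0 : ℝ) < n' := by exact_mod_cast (by omega : 0 < n')
  have hC : 0 ≤ C := by
    refine le_trans ?_ (h 0 0)
    unfold Bx
    positivity
  have hS : ∀ x : ℤ, ∑ j ∈ Finset.range m, ∑ j' ∈ Finset.range m,
      (∑ i ∈ Finset.range n, g (x + b * i) (z₁ + b * j) * g (x + b * i) (z₁ + b * j')) ^ 2 ≤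
      C * ((n : ℝ) ^ 2 * (m : ℝ) ^ 2) := by
    intro x
    have h1 := h x z₁
    unfold Bx at h1
    rw [div_le_iff₀ (by positivity)] at h1
    rw [← Sub_dbl (fun i j => g (x + b * i) (z₁ + b * j)) (Finset.range n) (Finset.range m)]
    exact h1
  unfold Bx
  rw [Sub_dbl (fun i j => g (x₁ + b * i) (z₁ + b * j)) (Finset.range n') (Finset.range m)]
  rw [div_le_iff₀ (by positivity)]
  have key : (n : ℝ) ^ 2 * ∑ j ∈ Finset.range m, ∑ j' ∈ Finset.range m,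
      (∑ i ∈ Finset.range n', g (x₁ + b * i) (z₁ + b * j) * g (x₁ + b * i) (z₁ + b * j')) ^ 2 ≤
      ((n' : ℝ) + n) * (((n' : ℝ) + n) * (C * ((n : ℝ) ^ 2 * (m : ℝ) ^ 2))) := by
    calc (n : ℝ) ^ 2 * ∑ j ∈ Finset.range m, ∑ j' ∈ Finset.range m,
          (∑ i ∈ Finset.range n', g (x₁ + b * i) (z₁ + b * j) * g (x₁ + b * i) (z₁ + b * j')) ^ 2
        = ∑ j ∈ Finset.range m, ∑ j' ∈ Finset.range m, (n : ℝ) ^ 2 *
          (∑ i ∈ Finset.range n', g (x₁ + b * i) (z₁ + b * j) * g (x₁ + b * i) (z₁ + b * j')) ^ 2 := by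
          rw [Finset.mul_sum]
          refine Finset.sum_congr rfl fun j _ => ?_
          rw [Finset.mul_sum]
      _ ≤ ∑ j ∈ Finset.range m, ∑ j' ∈ Finset.range m, ((n' : ℝ) + n) *
          ∑ y ∈ Finset.Ico (-(n : ℤ)) n', (∑ i ∈ Finset.range n,
            g (x₁ + b * (y + i)) (z₁ + b * j) * g (x₁ + b * (y + i)) (z₁ + b * j')) ^ 2 := by
          refine Finset.sum_le_sum fun j _ => Finset.sum_le_sum fun j' _ => ?_
          exact Sub_cs (fun i => g (x₁ + b * i) (z₁ + b * j) * g (x₁ + b * i) (z₁ + b * j'))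
            (fun i => mul_nonneg (h0 _ _) (h0 _ _)) n n'
      _ = ((n' : ℝ) + n) * ∑ y ∈ Finset.Ico (-(n : ℤ)) n', ∑ j ∈ Finset.range m,
          ∑ j' ∈ Finset.range m, (∑ i ∈ Finset.range n,
            g (x₁ + b * y + b * i) (z₁ + b * j) * g (x₁ + b * y + b * i) (z₁ + b * j')) ^ 2 := by
          rw [Finset.mul_sum]
          have e1 : ∀ j ∈ Finset.range m, ∑ j' ∈ Finset.range m, ((n' : ℝ) + n) *
              ∑ y ∈ Finset.Ico (-(n : ℤ)) n', (∑ i ∈ Finset.range n,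
                g (x₁ + b * (y + i)) (z₁ + b * j) * g (x₁ + b * (y + i)) (z₁ + b * j')) ^ 2 =
              ∑ y ∈ Finset.Ico (-(n : ℤ)) n', ((n' : ℝ) + n) * ∑ j' ∈ Finset.range m,
                (∑ i ∈ Finset.range n, g (x₁ + b * y + b * i) (z₁ + b * j) *
                  g (x₁ + b * y + b * i) (z₁ + b * j')) ^ 2 := by
            intro j _
            simp only [Finset.mul_sum]
            rw [Finset.sum_comm]
            refine Finset.sum_congr rfl fun y _ => Finset.sum_congr rfl fun j' _ => ?_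
            congr 2
            refine Finset.sum_congr rfl fun i _ => ?_
            rw [show x₁ + (b : ℤ) * (y + i) = x₁ + b * y + b * i by ring]
          rw [Finset.sum_congr rfl e1, Finset.sum_comm]
          refine Finset.sum_congr rfl fun y _ => ?_
          rw [Finset.mul_sum]
      _ ≤ ((n' : ℝ) + n) * ∑ y ∈ Finset.Ico (-(n : ℤ)) n', C * ((n : ℝ) ^ 2 * (m : ℝ) ^ 2) := by
          refine mul_le_mul_of_nonneg_left ?_ (by positivity)
          exact Finset.sum_le_sum fun y _ => hS (x₁ + b * y)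
      _ = _ := by
          have h6 : ((Finset.Ico (-(n : ℤ)) n').card : ℝ) = (n' : ℝ) + n := by
            rw [Int.card_Ico]
            have : ((n' : ℤ) - -(n : ℤ)).toNat = n' + n := by omega
            rw [this]
            push_cast
            ring
          rw [Finset.sum_const, nsmul_eq_mul, h6]
  have h7 : (1 + (n : ℝ) / n') ^ 2 * C * ((n' : ℝ) ^ 2 * (m : ℝ) ^ 2) =
      ((n' : ℝ) + n) ^ 2 * C * (m : ℝ) ^ 2 := by
    field_simp
  rw [h7]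
  have h8 : (n : ℝ) ^ 2 * ∑ j ∈ Finset.range m, ∑ j' ∈ Finset.range m,
      (∑ i ∈ Finset.range n', g (x₁ + b * i) (z₁ + b * j) * g (x₁ + b * i) (z₁ + b * j')) ^ 2 ≤
      (n : ℝ) ^ 2 * (((n' : ℝ) + n) ^ 2 * C * (m : ℝ) ^ 2) := by
    refine key.trans (le_of_eq ?_)
    ring
  exact le_of_mul_le_mul_left h8 (by positivity)

theorem sub_box (g : ℤ → ℤ → ℝ) (h0 : ∀ x z, 0 ≤ g x z) (b n m n' m' : ℕ)
    (hb : 1 ≤ b) (hn : 1 ≤ n) (hm : 1 ≤ m) (hn' : n ≤ n') (hm' : m ≤ m') (C : ℝ)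
    (h : ∀ x₁ z₁ : ℤ, Bx g x₁ z₁ b n m ≤ C) (x₁ z₁ : ℤ) :
    Bx g x₁ z₁ b n' m' ≤ (1 + (n : ℝ) / n') ^ 2 * (1 + (m : ℝ) / m') ^ 2 * C := by
  have h1 : ∀ x z : ℤ, Bx (fun x z => g z x) z x b m n' ≤ (1 + (n : ℝ) / n') ^ 2 * C := by
    intro x z
    rw [← Sub_swap]
    exact Sub_one g h0 b n m n' hn hm hn' C h x z
  rw [Sub_swap]
  refine (Sub_one (fun x z => g z x) (fun x z => h0 z x) b m n' m' hm (by omega) hm' _
    (fun x z => h1 z x) z₁ x₁).trans (le_of_eq ?_)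
  ring

end Pool.Agent.AAR
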