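import Pool.Agent.AAR.BonB

/-!
# AAR-Win: the sixth moment over a window

The sixth power is expanded into exponentials; averages over the window and over a full period are compared term by term.
-/

set_option autoImplicit false

namespace Pool.Agent.AAR

private theorem win_ee_sub (x : ℝ) : 2 * nint x ≤ ‖ee x - 1‖ := by
  rw [← ee_sub_round x, nint]
  have hy := abs_sub_round x
  generalize x - round x = y at hy
  have h1 : ‖ee y - 1‖ = ‖2 * Real.sin (2 * Real.pi * y / 2)‖ := by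
    rw [ee, mul_comm _ Complex.I]
    exact Complex.norm_exp_I_mul_ofReal_sub_one _
  have h2 : ‖2 * Real.sin (2 * Real.pi * y / 2)‖ = 2 * |Real.sin (Real.pi * y)| := by
    rw [norm_mul, Real.norm_eq_abs, Real.norm_eq_abs, abs_of_pos (by norm_num : (0 : ℝ) < 2)]
    congr 3
    ring
  have h3 : |Real.sin (Real.pi * y)| = Real.sin (Real.pi * |y|) := by
    have hpi := Real.pi_pos
    rcases le_total 0 y with h | h
    · rw [abs_of_nonneg h, abs_of_nonneg]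
      rw [abs_of_nonneg h] at hy
      apply Real.sin_nonneg_of_nonneg_of_le_pi
      · positivity
      · nlinarith
    · rw [abs_of_nonpos h]
      rw [abs_of_nonpos h] at hy
      have h4 : Real.sin (Real.pi * -y) = -Real.sin (Real.pi * y) := by
        rw [mul_neg, Real.sin_neg]
      have h5 : 0 ≤ Real.sin (Real.pi * -y) := by
        apply Real.sin_nonneg_of_nonneg_of_le_pi
        · nlinarith
        · nlinarith
      rw [h4] at h5 ⊢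
      exact abs_of_nonpos (by linarith)
  have h6 : 2 / Real.pi * (Real.pi * |y|) ≤ Real.sin (Real.pi * |y|) := by
    apply Real.mul_le_sin
    · have := Real.pi_pos
      positivity
    · have := Real.pi_pos
      nlinarith [abs_nonneg y]
  have h7 : 2 / Real.pi * (Real.pi * |y|) = 2 * |y| := by
    have := Real.pi_ne_zero
    field_simp
  rw [h1, h2, h3]
  rw [h7] at h6
  have := abs_nonneg y
  linarith

private theorem win_pow (ψ : ℝ) (j : ℕ) : ee (ψ * j) = ee ψ ^ j := by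
  rw [mul_comm, ee_nsmul]

private theorem win_avg (ψ D : ℝ) (hD0 : 0 < D) (hD : 1 / D ≤ nint ψ) (m : ℕ) :
    ‖∑ j ∈ Finset.range m, ee (ψ * j)‖ ≤ D := by
  rw [Finset.sum_congr rfl (fun j _ => win_pow ψ j)]
  have h1 := geom_sum_mul (ee ψ) m
  have h2 : ‖(∑ j ∈ Finset.range m, ee ψ ^ j) * (ee ψ - 1)‖ ≤ 2 := by
    rw [h1]
    refine (norm_sub_le _ _).trans ?_
    rw [norm_pow, ee_norm, one_pow, norm_one]
    norm_num
  rw [norm_mul] at h2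
  have h3 := win_ee_sub ψ
  have h4 : 2 * (1 / D) ≤ ‖ee ψ - 1‖ := by linarith
  have h5 : ‖∑ j ∈ Finset.range m, ee ψ ^ j‖ * (2 * (1 / D)) ≤ 2 :=
    (mul_le_mul_of_nonneg_left h4 (norm_nonneg _)).trans h2
  have h6 : ‖∑ j ∈ Finset.range m, ee ψ ^ j‖ * (2 * (1 / D)) =
      2 * (‖∑ j ∈ Finset.range m, ee ψ ^ j‖ / D) := by ring
  rw [h6] at h5
  have h7 : ‖∑ j ∈ Finset.range m, ee ψ ^ j‖ / D ≤ 1 := by linarith
  rwa [div_le_one hD0] at h7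

private theorem win_zero (ψ : ℝ) (L : ℕ) (k : ℤ) (h : (L : ℝ) * ψ = k) (hn : 0 < nint ψ) :
    ∑ j ∈ Finset.range L, ee (ψ * j) = 0 := by
  rw [Finset.sum_congr rfl (fun j _ => win_pow ψ j)]
  have h1 := geom_sum_mul (ee ψ) L
  have h2 : ee ψ ^ L = 1 := by
    rw [← ee_nsmul, h, ee_int]
  rw [h2, sub_self] at h1
  rcases mul_eq_zero.1 h1 with h3 | h3
  · exact h3
  · exfalso
    have h4 := win_ee_sub ψ
    rw [h3, norm_zero] at h4
    linarith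

private theorem win_one (ψ : ℝ) (n : ℕ) (hn : nint ψ = 0) :
    ∑ j ∈ Finset.range n, ee (ψ * j) = n := by
  have h1 : ee ψ = 1 := by
    rw [nint, abs_eq_zero] at hn
    have h2 : ψ = (round ψ : ℝ) := by linarith
    rw [h2, ee_int]
  rw [Finset.sum_congr rfl (fun j _ => win_pow ψ j), h1]
  simp

private theorem win_exp {ι : Type*} (I : Finset ι) (c : ι → ℂ) (f : ι → ℝ) (n : ℕ) :
    (((∑ j ∈ Finset.range n, ‖∑ t ∈ I, c t * ee (f t * j)‖ ^ 2) / n : ℝ) : ℂ) =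
      ∑ t ∈ I, ∑ t' ∈ I, c t * (starRingEnd ℂ) (c t') *
        ((∑ j ∈ Finset.range n, ee ((f t - f t') * j)) / n) := by
  have h1 : ∀ j : ℕ, ((‖∑ t ∈ I, c t * ee (f t * j)‖ ^ 2 : ℝ) : ℂ) =
      ∑ t ∈ I, ∑ t' ∈ I, c t * (starRingEnd ℂ) (c t') * ee ((f t - f t') * j) := by
    intro j
    rw [Complex.ofReal_pow, ← Complex.mul_conj', map_sum, Finset.sum_mul_sum]
    refine Finset.sum_congr rfl fun t _ => Finset.sum_congr rfl fun t' _ => ?_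
    rw [map_mul, ee_conj, sub_mul, sub_eq_add_neg, ee_add]
    ring
  rw [Complex.ofReal_div, Complex.ofReal_sum, Finset.sum_congr rfl (fun j _ => h1 j), Finset.sum_comm,
    Complex.ofReal_natCast, Finset.sum_div]
  refine Finset.sum_congr rfl fun t _ => ?_
  rw [Finset.sum_comm, Finset.sum_div]
  refine Finset.sum_congr rfl fun t' _ => ?_
  rw [← Finset.mul_sum, mul_div_assoc]

private theorem win_gen {ι : Type*} (I : Finset ι) (c : ι → ℂ) (f : ι → ℝ) (D : ℝ) (hD : 0 < D) (L m : ℕ)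
    (hL : 1 ≤ L) (hm : 1 ≤ m)
    (h1 : ∀ t ∈ I, ∀ t' ∈ I, ∃ k : ℤ, (L : ℝ) * (f t - f t') = k)
    (h2 : ∀ t ∈ I, ∀ t' ∈ I, nint (f t - f t') = 0 ∨ 1 / D ≤ nint (f t - f t')) :
    (∑ j ∈ Finset.range m, ‖∑ t ∈ I, c t * ee (f t * j)‖ ^ 2) / m ≤
      (∑ j ∈ Finset.range L, ‖∑ t ∈ I, c t * ee (f t * j)‖ ^ 2) / L + D / m * (∑ t ∈ I, ‖c t‖) ^ 2 := by
  have hm0 : (0 : ℝ) < m := by exact_mod_cast hm
  have hL0 : (0 : ℝ) < L := by exact_mod_cast hL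
  have hmc : (m : ℂ) ≠ 0 := by exact_mod_cast hm0.ne'
  have hLc : (L : ℂ) ≠ 0 := by exact_mod_cast hL0.ne'
  have e1 := win_exp I c f m
  have e2 := win_exp I c f L
  generalize (∑ j ∈ Finset.range m, ‖∑ t ∈ I, c t * ee (f t * j)‖ ^ 2) / (m : ℝ) = xm at *
  generalize (∑ j ∈ Finset.range L, ‖∑ t ∈ I, c t * ee (f t * j)‖ ^ 2) / (L : ℝ) = xL at *
  have h3 : ‖((xm - xL : ℝ) : ℂ)‖ ≤ D / m * (∑ t ∈ I, ‖c t‖) ^ 2 := by
    rw [Complex.ofReal_sub, e1, e2, ← Finset.sum_sub_distrib]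
    have h4 : ∀ t ∈ I, ‖(∑ t' ∈ I, c t * (starRingEnd ℂ) (c t') *
          ((∑ j ∈ Finset.range m, ee ((f t - f t') * j)) / m)) -
          ∑ t' ∈ I, c t * (starRingEnd ℂ) (c t') *
          ((∑ j ∈ Finset.range L, ee ((f t - f t') * j)) / L)‖ ≤ ∑ t' ∈ I, ‖c t‖ * ‖c t'‖ * (D / m) := by
      intro t ht
      rw [← Finset.sum_sub_distrib]
      refine (norm_sum_le _ _).trans (Finset.sum_le_sum fun t' ht' => ?_)
      rw [← mul_sub, norm_mul, norm_mul, RCLike.norm_conj]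
      refine mul_le_mul_of_nonneg_left ?_ (by positivity)
      rcases h2 t ht t' ht' with h5 | h5
      · rw [win_one _ m h5, win_one _ L h5, div_self hmc, div_self hLc, sub_self, norm_zero]
        positivity
      · obtain ⟨k, hk⟩ := h1 t ht t' ht'
        have h6 : 0 < nint (f t - f t') := lt_of_lt_of_le (by positivity) h5
        rw [win_zero _ L k hk h6, zero_div, sub_zero, norm_div, Complex.norm_natCast]
        exact div_le_div_of_nonneg_right (win_avg _ D hD h5 m) hm0.le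
    refine (norm_sum_le _ _).trans ((Finset.sum_le_sum h4).trans (le_of_eq ?_))
    rw [sq, Finset.sum_mul_sum, Finset.mul_sum]
    refine Finset.sum_congr rfl fun t _ => ?_
    rw [Finset.mul_sum]
    refine Finset.sum_congr rfl fun t' _ => ?_
    ring
  rw [Complex.norm_real, Real.norm_eq_abs] at h3
  have h4 := le_abs_self (xm - xL)
  linarith

private theorem win_den (N s : ℕ) (x : ℤ) (hs : 1 ≤ s) (h : s ∣ N) : ∃ k : ℤ, (N : ℝ) * ((x : ℝ) / s) = k := by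
  obtain ⟨q, rfl⟩ := h
  refine ⟨x * q, ?_⟩
  have hs0 : (s : ℝ) ≠ 0 := by
    have : (0 : ℝ) < s := by exact_mod_cast hs
    exact this.ne'
  push_cast
  field_simp

private theorem win_den6 (N : ℕ) (r : ℕ → ℤ) (s₁ s₂ s₃ t₁ t₂ t₃ : ℕ) (h₁ : 1 ≤ s₁ ∧ s₁ ∣ N) (h₂ : 1 ≤ s₂ ∧ s₂ ∣ N)
    (h₃ : 1 ≤ s₃ ∧ s₃ ∣ N) (g₁ : 1 ≤ t₁ ∧ t₁ ∣ N) (g₂ : 1 ≤ t₂ ∧ t₂ ∣ N) (g₃ : 1 ≤ t₃ ∧ t₃ ∣ N) :
    ∃ k : ℤ, (N : ℝ) * (((r s₁ : ℝ) / s₁ + ((r s₂ : ℝ) / s₂ + (r s₃ : ℝ) / s₃)) -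
      ((r t₁ : ℝ) / t₁ + ((r t₂ : ℝ) / t₂ + (r t₃ : ℝ) / t₃))) = k := by
  obtain ⟨k₁, e₁⟩ := win_den N s₁ (r s₁) h₁.1 h₁.2
  obtain ⟨k₂, e₂⟩ := win_den N s₂ (r s₂) h₂.1 h₂.2
  obtain ⟨k₃, e₃⟩ := win_den N s₃ (r s₃) h₃.1 h₃.2
  obtain ⟨l₁, d₁⟩ := win_den N t₁ (r t₁) g₁.1 g₁.2
  obtain ⟨l₂, d₂⟩ := win_den N t₂ (r t₂) g₂.1 g₂.2
  obtain ⟨l₃, d₃⟩ := win_den N t₃ (r t₃) g₃.1 g₃.2
  refine ⟨k₁ + (k₂ + k₃) - (l₁ + (l₂ + l₃)), ?_⟩
  rw [mul_sub, mul_add, mul_add, mul_add, mul_add, e₁, e₂, e₃, d₁, d₂, d₃]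
  push_cast
  ring

private theorem win_gap (N : ℕ) (D ψ : ℝ) (k : ℤ) (hN : 1 ≤ N) (hND : (N : ℝ) ≤ D) (h : (N : ℝ) * ψ = k) :
    nint ψ = 0 ∨ 1 / D ≤ nint ψ := by
  have hN0 : (0 : ℝ) < N := by exact_mod_cast hN
  have h1 : (N : ℝ) * (ψ - round ψ) = ((k - N * round ψ : ℤ) : ℝ) := by
    push_cast
    rw [mul_sub, h]
  have h2 : (N : ℝ) * nint ψ = |((k - N * round ψ : ℤ) : ℝ)| := by
    rw [← h1, abs_mul, abs_of_pos hN0, nint]
  rcases eq_or_ne (k - N * round ψ) 0 with h3 | h3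
  · left
    rw [h3, Int.cast_zero, abs_zero] at h2
    rcases mul_eq_zero.1 h2 with h4 | h4
    · exact absurd h4 hN0.ne'
    · exact h4
  · right
    have h4 : (1 : ℝ) ≤ |((k - N * round ψ : ℤ) : ℝ)| := by
      rw [← Int.cast_abs]
      exact_mod_cast Int.one_le_abs h3
    rw [← h2] at h4
    rw [div_le_iff₀ (lt_of_lt_of_le hN0 hND)]
    have h5 : 0 ≤ nint ψ := nint_nonneg ψ
    nlinarith

theorem win (Q m : ℕ) (hQ : 1 ≤ Q) (hm : 1 ≤ m) (r : ℕ → ℤ)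
    (hr : ∀ s : ℕ, 1 ≤ s → s ≤ Q → IsCoprime (r s) (s : ℤ)) (a : ℕ → ℂ) :
    (∑ j ∈ Finset.range m, ‖∑ s ∈ Finset.Icc 1 Q, a s * ee ((r s : ℝ) * j / s)‖ ^ 6) / m ≤
      (∑ s ∈ Finset.Icc 1 Q, (15 : ℝ) ^ s.primeFactors.card * ‖a s‖ ^ 2) ^ 3 +
        (Q : ℝ) ^ 6 / m * (∑ s ∈ Finset.Icc 1 Q, ‖a s‖) ^ 6 := by
  -- the expansion of the cube
  let I : Finset (ℕ × ℕ × ℕ) := Finset.Icc 1 Q ×ˢ (Finset.Icc 1 Q ×ˢ Finset.Icc 1 Q)
  let c : ℕ × ℕ × ℕ → ℂ := fun t => a t.1 * (a t.2.1 * a t.2.2)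
  let f : ℕ × ℕ × ℕ → ℝ := fun t => (r t.1 : ℝ) / t.1 + ((r t.2.1 : ℝ) / t.2.1 + (r t.2.2 : ℝ) / t.2.2)
  have hU : ∀ j : ℕ, ‖∑ s ∈ Finset.Icc 1 Q, a s * ee ((r s : ℝ) * j / s)‖ ^ 6 =
      ‖∑ t ∈ I, c t * ee (f t * j)‖ ^ 2 := by
    intro j
    have h1 : ∑ t ∈ I, c t * ee (f t * j) = (∑ s ∈ Finset.Icc 1 Q, a s * ee ((r s : ℝ) * j / s)) *
        ((∑ s ∈ Finset.Icc 1 Q, a s * ee ((r s : ℝ) * j / s)) *
          (∑ s ∈ Finset.Icc 1 Q, a s * ee ((r s : ℝ) * j / s))) := by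
      rw [Finset.sum_mul_sum, Finset.sum_mul_sum, Finset.sum_product]
      refine Finset.sum_congr rfl fun s _ => ?_
      rw [Finset.sum_product]
      refine Finset.sum_congr rfl fun s' _ => ?_
      rw [Finset.mul_sum]
      refine Finset.sum_congr rfl fun s'' _ => ?_
      have h2 : f (s, s', s'') * j = (r s : ℝ) * j / s + ((r s' : ℝ) * j / s' + (r s'' : ℝ) * j / s'') := by
        simp only [f]
        ring
      rw [h2, ee_add, ee_add]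
      simp only [c]
      ring
    rw [h1, norm_mul, norm_mul]
    ring
  have hc : ∑ t ∈ I, ‖c t‖ = (∑ s ∈ Finset.Icc 1 Q, ‖a s‖) ^ 3 := by
    have h1 : (∑ s ∈ Finset.Icc 1 Q, ‖a s‖) ^ 3 = (∑ s ∈ Finset.Icc 1 Q, ‖a s‖) *
        ((∑ s ∈ Finset.Icc 1 Q, ‖a s‖) * (∑ s ∈ Finset.Icc 1 Q, ‖a s‖)) := by ring
    rw [h1, Finset.sum_mul_sum, Finset.sum_mul_sum, Finset.sum_product]
    refine Finset.sum_congr rfl fun s _ => ?_
    rw [Finset.sum_product]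
    refine Finset.sum_congr rfl fun s' _ => ?_
    rw [Finset.mul_sum]
    refine Finset.sum_congr rfl fun s'' _ => ?_
    simp only [c]
    rw [norm_mul, norm_mul]
  have hfac : 1 ≤ Q.factorial := Nat.factorial_pos Q
  have hQ0 : (0 : ℝ) < (Q : ℝ) ^ 6 := by
    have : (0 : ℝ) < Q := by exact_mod_cast hQ
    positivity
  have hI : ∀ t ∈ I, (1 ≤ t.1 ∧ t.1 ≤ Q) ∧ (1 ≤ t.2.1 ∧ t.2.1 ≤ Q) ∧ (1 ≤ t.2.2 ∧ t.2.2 ≤ Q) := by
    intro t ht
    simp only [I, Finset.mem_product, Finset.mem_Icc] at ht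
    exact ht
  have hfd : ∀ s : ℕ, 1 ≤ s ∧ s ≤ Q → 1 ≤ s ∧ s ∣ Q.factorial := fun s hs =>
    ⟨hs.1, Nat.dvd_factorial hs.1 hs.2⟩
  have hg := win_gen I c f ((Q : ℝ) ^ 6) hQ0 Q.factorial m hfac hm
    (by
      intro t ht t' ht'
      obtain ⟨h1, h2, h3⟩ := hI t ht
      obtain ⟨g1, g2, g3⟩ := hI t' ht'
      exact win_den6 Q.factorial r t.1 t.2.1 t.2.2 t'.1 t'.2.1 t'.2.2 (hfd _ h1) (hfd _ h2) (hfd _ h3)
        (hfd _ g1) (hfd _ g2) (hfd _ g3))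
    (by
      intro t ht t' ht'
      obtain ⟨h1, h2, h3⟩ := hI t ht
      obtain ⟨g1, g2, g3⟩ := hI t' ht'
      obtain ⟨k, hk⟩ := win_den6 (t.1 * t.2.1 * t.2.2 * t'.1 * t'.2.1 * t'.2.2) r t.1 t.2.1 t.2.2
        t'.1 t'.2.1 t'.2.2
        ⟨h1.1, Dvd.intro (t.2.1 * t.2.2 * t'.1 * t'.2.1 * t'.2.2) (by ring)⟩
        ⟨h2.1, Dvd.intro (t.1 * t.2.2 * t'.1 * t'.2.1 * t'.2.2) (by ring)⟩
        ⟨h3.1, Dvd.intro (t.1 * t.2.1 * t'.1 * t'.2.1 * t'.2.2) (by ring)⟩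
        ⟨g1.1, Dvd.intro (t.1 * t.2.1 * t.2.2 * t'.2.1 * t'.2.2) (by ring)⟩
        ⟨g2.1, Dvd.intro (t.1 * t.2.1 * t.2.2 * t'.1 * t'.2.2) (by ring)⟩
        ⟨g3.1, Dvd.intro (t.1 * t.2.1 * t.2.2 * t'.1 * t'.2.1) (by ring)⟩
      refine win_gap _ _ _ k ?_ ?_ hk
      · have := Nat.mul_pos (Nat.mul_pos (Nat.mul_pos (Nat.mul_pos (Nat.mul_pos h1.1 h2.1) h3.1) g1.1) g2.1) g3.1
        exact this
      · have h4 : t.1 * t.2.1 * t.2.2 * t'.1 * t'.2.1 * t'.2.2 ≤ Q * Q * Q * Q * Q * Q :=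
          Nat.mul_le_mul (Nat.mul_le_mul (Nat.mul_le_mul (Nat.mul_le_mul (Nat.mul_le_mul h1.2 h2.2) h3.2)
            g1.2) g2.2) g3.2
        have h5 : Q * Q * Q * Q * Q * Q = Q ^ 6 := by ring
        rw [h5] at h4
        exact_mod_cast h4)
  rw [hc] at hg
  have h6 : ((∑ s ∈ Finset.Icc 1 Q, ‖a s‖) ^ 3) ^ 2 = (∑ s ∈ Finset.Icc 1 Q, ‖a s‖) ^ 6 := by ring
  rw [h6] at hg
  rw [Finset.sum_congr rfl (fun j _ => hU j)]
  refine hg.trans (add_le_add_left ?_ _)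
  rw [← Finset.sum_congr rfl (fun j _ => hU j)]
  -- the full period
  have hsub : Finset.Icc 1 Q ⊆ Q.factorial.divisors := by
    intro s hs
    rw [Finset.mem_Icc] at hs
    rw [Nat.mem_divisors]
    exact ⟨Nat.dvd_factorial hs.1 hs.2, by omega⟩
  have hb := bonami Q.factorial hfac (fun s => if s ≤ Q then r s else 1)
    (by
      intro s hs
      by_cases h : s ≤ Q
      · simp only [h, if_true]
        exact hr s (Nat.pos_of_mem_divisors hs) h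
      · simp only [h, if_false]
        exact isCoprime_one_left)
    (fun s => if s ≤ Q then a s else 0)
  have h7 : ∀ z : ℕ, ∑ s ∈ Q.factorial.divisors, (if s ≤ Q then a s else 0) *
      ee (((if s ≤ Q then r s else 1 : ℤ) : ℝ) * z / s) =
      ∑ s ∈ Finset.Icc 1 Q, a s * ee ((r s : ℝ) * z / s) := by
    intro z
    rw [← Finset.sum_subset hsub]
    · refine Finset.sum_congr rfl fun s hs => ?_
      rw [Finset.mem_Icc] at hs
      rw [if_pos hs.2, if_pos hs.2]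
    · intro s hs hs'
      have h8 : ¬ s ≤ Q := by
        intro h9
        exact hs' (Finset.mem_Icc.2 ⟨Nat.pos_of_mem_divisors hs, h9⟩)
      rw [if_neg h8, zero_mul]
  have h8 : ∑ s ∈ Q.factorial.divisors, (15 : ℝ) ^ s.primeFactors.card * ‖(if s ≤ Q then a s else 0)‖ ^ 2 =
      ∑ s ∈ Finset.Icc 1 Q, (15 : ℝ) ^ s.primeFactors.card * ‖a s‖ ^ 2 := by
    rw [← Finset.sum_subset hsub]
    · refine Finset.sum_congr rfl fun s hs => ?_
      rw [Finset.mem_Icc] at hs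
      rw [if_pos hs.2]
    · intro s hs hs'
      have h8 : ¬ s ≤ Q := by
        intro h9
        exact hs' (Finset.mem_Icc.2 ⟨Nat.pos_of_mem_divisors hs, h9⟩)
      rw [if_neg h8, norm_zero]
      ring
  rw [h8] at hb
  rw [Finset.sum_congr rfl (fun z _ => by rw [h7 z])] at hb
  exact hb

end Pool.Agent.AAR
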