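import Pool.Agent.AAR.Prm
import Pool.Agent.AAR.Quad
import Pool.Agent.AAR.Evt

/-!
# AAR-Xcn: the number of common neighbours with an event

PLAN.  `s` from `evt` with `θ = p.θ`, `ω₁ = 2^30 θ/(ρ1^12 H)`, `em = H/E0`, `r = p.r` (`rad`, `uniq`).  `S` is contained in the
interval `Ico (max y₀ y₁ + 2H + 1) (...)` of at most `2H` integers (`x - y₀, x - y₁ ∈ (2H,4H)`), which gives the first
bound.  Second bound: if `|S| ≤ 2 ρ1 H` done.  Otherwise: `nint (ψ (x-y₀)(x-y₁) - β (y₀-y₁)) ≤ (d₀+d₁) θ ≤ 8Hθ` for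
`x ∈ S` (`d₀ d₁ ψ = d₁ (d₀ φ) - d₀ (d₁ (φ-ψ))`), a quadratic polynomial in `x`; `quad` with `H := 2H`, `ρ = ρ1`
(`θ_small`, `hHρ`) gives `q ≤ 8192/ρ1^6 ≤ Q1` with `nint (q ψ) ≤ 2^29 · 8Hθ/(ρ1^12 4H²) = ω₁`.  Then by `evt` (with `e = d₁ - d₀ = y₀ - y₁`)
each `x ∈ S` has `d₀ = x - y₀` in the set counted by `Nev Q1 Q2 s |y₁-y₀| H`.
-/

set_option autoImplicit false

namespace Pool.Agent.AAR

theorem xcn (p : Par) (β : ℝ) : ∃ s : ℕ, 1 ≤ s ∧ ∀ (y₀ y₁ : ℤ) (ψ : ℝ) (S : Finset ℤ), y₀ ≠ y₁ →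
    (∀ x ∈ S, ∃ d₀ ∈ ds p.H, ∃ d₁ ∈ ds p.H, x = y₀ + d₀ ∧ x = y₁ + d₁ ∧ ∃ φ : ℝ,
      Far p.r p.Q2 φ ∧ nint (d₀ * φ - β) ≤ p.θ ∧ nint (d₁ * (φ - ψ) - β) ≤ p.θ) →
    (S.card : ℝ) ≤ 2 * p.H ∧
    ((p.H : ℝ) / p.E0 ≤ |((y₁ - y₀ : ℤ) : ℝ)| →
      (S.card : ℝ) ≤ 2 * p.ρ1 * p.H + Nev p.Q1 p.Q2 s (y₁ - y₀).natAbs p.H) := by
  classical
  have hH := p.Hpos
  have hθ := p.θ_pos
  have hρ := p.hρ1
  have hρ1 := p.hρ11
  have hE0 : (0 : ℝ) < p.E0 := by exact_mod_cast (lt_of_lt_of_le one_pos p.hE0)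
  have hρ6 : p.ρ1 ^ 6 ≤ 1 := pow_le_one₀ hρ.le hρ1
  have hQ1 : 1 ≤ p.Q1 := by
    have h1 : (8192 : ℝ) ≤ 8192 / p.ρ1 ^ 6 := by
      rw [le_div_iff₀ (by positivity)]
      linarith
    have h2 := h1.trans p.hQ1
    have h3 : (1 : ℝ) ≤ p.Q1 := by linarith
    exact_mod_cast h3
  obtain ⟨s, hs1, hs⟩ := evt p.H p.Q1 p.Q2 p.θ (2 ^ 30 * p.θ / (p.ρ1 ^ 12 * p.H)) ((p.H : ℝ) / p.E0) p.r β
    p.hH hQ1 hθ.le (by positivity) (by positivity) p.rad p.uniq
  refine ⟨s, hs1, fun y₀ y₁ ψ S hy hx => ?_⟩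
  have hS : S ⊆ Finset.Ico (y₀ + 2 * p.H + 1) (y₀ + 2 * p.H + 1 + ((2 * p.H : ℕ) : ℤ)) := by
    intro x hxS
    obtain ⟨d₀, hd₀, d₁, hd₁, h1, h2, -⟩ := hx x hxS
    rw [ds, Finset.mem_Ioo] at hd₀
    rw [Finset.mem_Ico]
    push_cast
    omega
  refine ⟨?_, fun hE => ?_⟩
  · have h1 := Finset.card_le_card hS
    rw [Int.card_Ico] at h1
    have h2 : S.card ≤ 2 * p.H := by omega
    exact_mod_cast h2
  · have hN0 : (0 : ℝ) ≤ (Nev p.Q1 p.Q2 s (y₁ - y₀).natAbs p.H : ℝ) := Nat.cast_nonneg _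
    by_cases hc : (S.card : ℝ) ≤ 2 * p.ρ1 * p.H
    · linarith
    · push Not at hc
      obtain ⟨q, hq1, hq2, hq3⟩ := quad ψ (-(ψ * (y₀ + y₁))) (ψ * y₀ * y₁ - β * (y₀ - y₁)) (8 * p.H * p.θ)
        p.ρ1 (y₀ + 2 * p.H + 1) (2 * p.H) S hρ hρ1 (by positivity) p.θ_small
        (by
          push_cast
          exact p.hHρ) hS
        (by
          push_cast
          linarith)
        (by
          intro x hxS
          obtain ⟨d₀, hd₀, d₁, hd₁, h1, h2, φ, -, h3, h4⟩ := hx x hxS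
          rw [ds, Finset.mem_Ioo] at hd₀ hd₁
          have h1' : (x : ℝ) = y₀ + d₀ := by
            rw [h1]
            push_cast
            ring
          have h2' : (x : ℝ) = y₁ + d₁ := by
            rw [h2]
            push_cast
            ring
          have h5 : ψ * (x : ℝ) ^ 2 + -(ψ * (y₀ + y₁)) * x + (ψ * y₀ * y₁ - β * (y₀ - y₁)) =
              d₁ * (d₀ * φ - β) - d₀ * (d₁ * (φ - ψ) - β) := by
            have h6 : (d₀ : ℝ) = x - y₀ := by linarith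
            have h7 : (d₁ : ℝ) = x - y₁ := by linarith
            rw [h6, h7]
            ring
          rw [h5]
          refine (nint_sub _ _).trans ?_
          have h6 := nint_mul_nat d₁ (d₀ * φ - β)
          have h7 := nint_mul_nat d₀ (d₁ * (φ - ψ) - β)
          have h8 : (d₁ : ℝ) ≤ 4 * p.H := by exact_mod_cast hd₁.2.le
          have h9 : (d₀ : ℝ) ≤ 4 * p.H := by exact_mod_cast hd₀.2.le
          have h10 : (d₁ : ℝ) * nint (d₀ * φ - β) ≤ 4 * p.H * p.θ :=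
            mul_le_mul h8 h3 (nint_nonneg _) (by positivity)
          have h11 : (d₀ : ℝ) * nint (d₁ * (φ - ψ) - β) ≤ 4 * p.H * p.θ :=
            mul_le_mul h9 h4 (nint_nonneg _) (by positivity)
          linarith)
      have hq2' : q ≤ p.Q1 := by
        have h1 := hq2.trans p.hQ1
        exact_mod_cast h1
      have hq3' : nint (q * ψ) ≤ 2 ^ 30 * p.θ / (p.ρ1 ^ 12 * p.H) := by
        refine hq3.trans (le_of_eq ?_)
        push_cast
        field_simp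
        ring
      have hcard : S.card ≤ Nev p.Q1 p.Q2 s (y₁ - y₀).natAbs p.H := by
        unfold Nev
        refine Finset.card_le_card_of_injOn (fun x => (x - y₀).toNat) ?_ ?_
        · intro x hxS
          obtain ⟨d₀, hd₀, d₁, hd₁, h1, h2, φ, hφ, h3, h4⟩ := hx x (Finset.mem_coe.1 hxS)
          have h5 : (x - y₀).toNat = d₀ := by
            rw [h1]
            omega
          have h6 : (d₁ : ℤ) - d₀ = y₀ - y₁ := by omega
          have h7 : (p.H : ℝ) / p.E0 ≤ |(d₁ : ℝ) - d₀| := by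
            refine hE.trans (le_of_eq ?_)
            have h8 : (d₁ : ℝ) - d₀ = -((y₁ - y₀ : ℤ) : ℝ) := by
              have h9 : (((d₁ : ℤ) - d₀ : ℤ) : ℝ) = ((y₀ - y₁ : ℤ) : ℝ) := by rw [h6]
              push_cast at h9 ⊢
              linarith
            rw [h8, abs_neg]
          obtain ⟨g, hg1, hg2, hg3, hg4⟩ := hs d₀ hd₀ d₁ hd₁ ψ φ q hq1 hq2' hq3' h7 hφ h3 h4
          refine Finset.mem_coe.2 (Finset.mem_filter.2 ⟨?_, q, hq1, hq2', g, hg1, ?_, ?_, hg4⟩)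
          · show (x - y₀).toNat ∈ ds p.H
            rw [h5]
            exact hd₀
          · show g ∣ (x - y₀).toNat
            rw [h5]
            exact hg2
          · have h8 : (y₁ - y₀).natAbs = ((d₁ : ℤ) - d₀).natAbs := by
              rw [h6, ← Int.natAbs_neg]
              congr 1
              ring
            rw [h8]
            exact hg3
        · intro x hxS x' hxS' hxx
          obtain ⟨d₀, -, -, -, h1, -⟩ := hx x (Finset.mem_coe.1 hxS)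
          obtain ⟨d₀', -, -, -, h1', -⟩ := hx x' (Finset.mem_coe.1 hxS')
          have h2 : (x - y₀).toNat = (x' - y₀).toNat := hxx
          omega
      have h1 : (S.card : ℝ) ≤ (Nev p.Q1 p.Q2 s (y₁ - y₀).natAbs p.H : ℝ) := by exact_mod_cast hcard
      have h2 : 0 ≤ 2 * p.ρ1 * p.H := by positivity
      linarith

end Pool.Agent.AAR
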