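import Pool.Agent.AAR.Prm
import Pool.Agent.AAR.Psd

/-!
# AAR-Yb: the variation of the window densities in a stable cell

For two columns the variation is at most the sum of the squares of the window densities minus `Z` times the square of
the codegree, plus `2 b m`.  The average over the pairs of columns is bounded by `psd1` (from above, stability of
the cell) and `psd2` (from below, density of the cell).
-/

set_option autoImplicit false

namespace Pool.Agent.AAR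

private theorem yb_shift (a : ℤ → ℝ) (X w c : ℕ) (hc : c ≤ w) (ha : ∀ x, (x < 0 ∨ (X : ℤ) ≤ x) → a x = 0) :
    ∑ x ∈ Finset.Ico (-(w : ℤ)) X, a (x + c) = ∑ x ∈ Finset.range X, a x := by
  have h1 : ∑ x ∈ Finset.range X, a x = ∑ x ∈ Finset.Ico (0 : ℤ) X, a x := by
    refine Finset.sum_bij (fun (x : ℕ) _ => (x : ℤ)) ?_ ?_ ?_ ?_
    · intro x hx
      rw [Finset.mem_range] at hx
      rw [Finset.mem_Ico]
      omega
    · intro x _ y _ hxy
      exact_mod_cast hxy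
    · intro x hx
      rw [Finset.mem_Ico] at hx
      exact ⟨x.toNat, by rw [Finset.mem_range]; omega, by omega⟩
    · intro x _
      rfl
  have h2 : ∑ x ∈ Finset.Ico (-(w : ℤ)) X, a (x + c) = ∑ x ∈ Finset.Ico (-(w : ℤ) + c) (X + c), a x := by
    refine Finset.sum_bij (fun x _ => x + c) ?_ ?_ ?_ ?_
    · intro x hx
      rw [Finset.mem_Ico] at hx ⊢
      omega
    · intro x _ y _ hxy
      beta_reduce at hxy
      omega
    · intro x hx
      rw [Finset.mem_Ico] at hx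
      exact ⟨x - c, by rw [Finset.mem_Ico]; omega, by omega⟩
    · intro x _
      rfl
  rw [h1, h2]
  symm
  refine Finset.sum_subset ?_ ?_
  · intro x hx
    rw [Finset.mem_Ico] at hx ⊢
    omega
  · intro x _ hx
    rw [Finset.mem_Ico] at hx
    refine ha x ?_
    omega

private theorem yb_num (X Z A G η β : ℝ) (hX : 0 < X) (hZ : 0 < Z) (hA : 0 ≤ A) (hG : 0 ≤ G) (hη : 0 < η)
    (hη1 : η ≤ 1 / 100) (hβ : 0 < β) (hβ1 : β ≤ 1) (h1 : A ≤ η * β * X / 25)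
    (h2 : G ≤ η * β * Z / 10 ^ 5) :
    (X + A) * (Z + G) * ((1 + η) * β) - Z * (X ^ 2 * β / (X + A)) + 2 * G * (X + A) ≤
      3 * η * β * X * Z := by
  have hXA : 0 < X + A := by linarith
  have e1 : (X - A) * β ≤ X ^ 2 * β / (X + A) := by
    rw [le_div_iff₀ hXA]
    nlinarith [mul_nonneg hβ.le (sq_nonneg A)]
  have e2 : Z * ((X - A) * β) ≤ Z * (X ^ 2 * β / (X + A)) := mul_le_mul_of_nonneg_left e1 hZ.le
  have hηβ : η * β ≤ 1 / 100 := by nlinarith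
  have hηβ0 : 0 < η * β := mul_pos hη hβ
  have hAX : A ≤ X := by nlinarith
  have hXZ : 0 < X * Z := mul_pos hX hZ
  have e3 : A * Z ≤ η * β * (X * Z) / 25 := by
    have := mul_le_mul_of_nonneg_right h1 hZ.le
    linarith
  have e4 : X * G ≤ η * β * (X * Z) / 10 ^ 5 := by
    have := mul_le_mul_of_nonneg_left h2 hX.le
    linarith
  have hAZ : 0 ≤ A * Z := mul_nonneg hA hZ.le
  have hXG : 0 ≤ X * G := mul_nonneg hX.le hG
  have e5 : A * Z * ((2 + η) * β) ≤ 3 * (A * Z) := by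
    have : (2 + η) * β ≤ 3 := by nlinarith
    nlinarith
  have e6 : (X + A) * G ≤ 2 * (X * G) := by nlinarith
  have e60 : 0 ≤ (X + A) * G := mul_nonneg hXA.le hG
  have e7 : (X + A) * G * ((1 + η) * β) ≤ 4 * (X * G) := by
    have h3 : (1 + η) * β ≤ 2 := by nlinarith
    have h4 := mul_le_mul_of_nonneg_left h3 e60
    linarith
  have e8 : (X + A) * (Z + G) * ((1 + η) * β) - Z * ((X - A) * β) + 2 * G * (X + A) =
      η * β * (X * Z) + A * Z * ((2 + η) * β) + (X + A) * G * ((1 + η) * β) + 2 * ((X + A) * G) := by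
    ring
  have e9 : 0 < η * β * (X * Z) := mul_pos hηβ0 hXZ
  have e10 : 3 * η * β * X * Z = 3 * (η * β * (X * Z)) := by ring
  rw [e10]
  linarith

private theorem yb_mul01 {f : ℤ → ℤ → ℝ} (f01 : ∀ x z, f x z = 0 ∨ f x z = 1) (x x' z : ℤ) :
    0 ≤ f x z * f x' z ∧ f x z * f x' z ≤ 1 := by
  rcases f01 x z with h | h <;> rcases f01 x' z with h' | h' <;> rw [h, h'] <;> norm_num

private theorem yb_avg (m : ℕ) (g : ℕ → ℝ) (h : ∀ j, 0 ≤ g j ∧ g j ≤ 1) :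
    0 ≤ (∑ j ∈ Finset.range m, g j) / m ∧ (∑ j ∈ Finset.range m, g j) / m ≤ 1 := by
  constructor
  · exact div_nonneg (Finset.sum_nonneg fun j _ => (h j).1) (Nat.cast_nonneg m)
  · refine div_le_one_of_le₀ ?_ (Nat.cast_nonneg m)
    refine (Finset.sum_le_sum fun j _ => (h j).2).trans (le_of_eq ?_)
    simp

private theorem yb_pt (f : ℤ → ℤ → ℝ) (Z b m : ℕ) (hZ : 1 ≤ Z) (hm : 1 ≤ m)
    (f01 : ∀ x z, f x z = 0 ∨ f x z = 1) (supp : ∀ x z, (z < 0 ∨ (Z : ℤ) ≤ z) → f x z = 0) (x x' : ℤ) :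
    Yv f Z b m x x' ≤ ∑ u ∈ Finset.Ico (-((b * m : ℕ) : ℤ)) Z, cw f b m u x x' ^ 2
      - Z * cg f Z x x' ^ 2 + 2 * ((b * m : ℕ) : ℝ) := by
  have hZ0 : (0 : ℝ) < Z := by exact_mod_cast hZ
  have hm0 : (0 : ℝ) < m := by exact_mod_cast hm
  obtain ⟨c, hc⟩ : ∃ c, c = cg f Z x x' := ⟨_, rfl⟩
  have hcw : ∀ u, 0 ≤ cw f b m u x x' ∧ cw f b m u x x' ≤ 1 := fun u =>
    yb_avg m (fun j => f x (u + b * j) * f x' (u + b * j)) fun j => yb_mul01 f01 x x' _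
  have hcg : 0 ≤ c ∧ c ≤ 1 := by
    rw [hc]
    exact yb_avg Z (fun z => f x z * f x' z) fun z => yb_mul01 f01 x x' z
  have hind : ∀ u, ind Z u = 0 ∨ ind Z u = 1 := by
    intro u
    unfold ind
    split_ifs
    · exact Or.inr rfl
    · exact Or.inl rfl
  have hI : ∑ u ∈ Finset.Ico (-((b * m : ℕ) : ℤ)) Z, ind Z u = Z := by
    have h1 := yb_shift (ind Z) Z (b * m) 0 (Nat.zero_le _) (fun u hu => by
      unfold ind
      rw [if_neg]
      omega)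
    simp only [Nat.cast_zero, add_zero] at h1
    rw [h1]
    have h2 : ∀ u ∈ Finset.range Z, ind Z (u : ℤ) = 1 := by
      intro u hu
      rw [Finset.mem_range] at hu
      unfold ind
      rw [if_pos]
      omega
    rw [Finset.sum_congr rfl h2]
    simp
  have hS : ∑ u ∈ Finset.Ico (-((b * m : ℕ) : ℤ)) Z, cw f b m u x x' = Z * c := by
    have h1 : ∀ j ∈ Finset.range m, ∑ u ∈ Finset.Ico (-((b * m : ℕ) : ℤ)) Z,
        f x (u + b * j) * f x' (u + b * j) = Z * c := by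
      intro j hj
      rw [Finset.mem_range] at hj
      have h2 := yb_shift (fun z => f x z * f x' z) Z (b * m) (b * j) (Nat.mul_le_mul_left b hj.le)
        (fun z hz => by
          beta_reduce
          rw [supp x z hz, zero_mul])
      push_cast at h2 ⊢
      rw [h2, hc, cg]
      field_simp
    unfold cw
    rw [← Finset.sum_div, Finset.sum_comm, Finset.sum_congr rfl h1, Finset.sum_const, Finset.card_range,
      nsmul_eq_mul]
    field_simp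
  have hcard : ∑ u ∈ Finset.Ico (-((b * m : ℕ) : ℤ)) Z, (1 : ℝ) = Z + ((b * m : ℕ) : ℝ) := by
    rw [Finset.sum_const, Int.card_Ico, nsmul_eq_mul, mul_one]
    have h2 : ((Z : ℤ) - -((b * m : ℕ) : ℤ)).toNat = Z + b * m := by omega
    rw [h2]
    push_cast
    ring
  have hT : Z * c - ((b * m : ℕ) : ℝ) ≤ ∑ u ∈ Finset.Ico (-((b * m : ℕ) : ℤ)) Z,
      cw f b m u x x' * ind Z u := by
    have h1 : ∑ u ∈ Finset.Ico (-((b * m : ℕ) : ℤ)) Z, (cw f b m u x x' - (1 - ind Z u)) ≤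
        ∑ u ∈ Finset.Ico (-((b * m : ℕ) : ℤ)) Z, cw f b m u x x' * ind Z u := by
      refine Finset.sum_le_sum fun u _ => ?_
      have h2 := hcw u
      rcases hind u with h | h <;> rw [h] <;> linarith [h2.1, h2.2]
    rw [Finset.sum_sub_distrib, Finset.sum_sub_distrib, hS, hcard, hI] at h1
    linarith
  have hY : Yv f Z b m x x' = ∑ u ∈ Finset.Ico (-((b * m : ℕ) : ℤ)) Z, cw f b m u x x' ^ 2
      - 2 * c * (∑ u ∈ Finset.Ico (-((b * m : ℕ) : ℤ)) Z, cw f b m u x x' * ind Z u) + c ^ 2 * Z := by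
    unfold Yv
    rw [← hc, ← hI, Finset.mul_sum, Finset.mul_sum, ← Finset.sum_sub_distrib, ← Finset.sum_add_distrib]
    refine Finset.sum_congr rfl fun u _ => ?_
    have h1 : ind Z u ^ 2 = ind Z u := by
      rcases hind u with h | h <;> rw [h] <;> norm_num
    linear_combination c ^ 2 * h1
  rw [hY, ← hc]
  have h3 := mul_le_mul_of_nonneg_left hT (by linarith [hcg.1] : 0 ≤ 2 * c)
  have hbm : (0 : ℝ) ≤ ((b * m : ℕ) : ℝ) := Nat.cast_nonneg _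
  have h4 : c * ((b * m : ℕ) : ℝ) ≤ ((b * m : ℕ) : ℝ) := mul_le_of_le_one_left hbm hcg.2
  nlinarith

theorem yb (p : Par) (f : ℤ → ℤ → ℝ) (c : Cell p f) (t s : ℕ) (ht : 1 ≤ t) (hs : 1 ≤ s)
    (hts : t * s ≤ p.Q2) :
    (∑ x₁ ∈ Finset.Ico (-((8 * p.H : ℕ) : ℤ)) p.X,
      ∑ i ∈ Finset.range (s * (8 * p.H / (t * s))), ∑ i' ∈ Finset.range (s * (8 * p.H / (t * s))),
        Yv f p.Z (t * s) p.m (x₁ + t * i) (x₁ + t * i')) /
        ((s * (8 * p.H / (t * s)) : ℕ) : ℝ) ^ 2 ≤ 3 * p.η * p.β * p.X * p.Z := by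
  have hb1 : 1 ≤ t * s := Nat.mul_pos ht hs
  have hHQ := p.hQ2H
  have hH := p.hH
  have hnb : 1 ≤ 8 * p.H / (t * s) := Nat.div_pos (by omega) hb1
  have hn : 1 ≤ s * (8 * p.H / (t * s)) := Nat.mul_pos hs hnb
  have htn : t * (s * (8 * p.H / (t * s))) ≤ 8 * p.H := by
    rw [← mul_assoc]
    exact Nat.mul_div_le _ _
  have hm : 1 ≤ p.m := by
    have := p.m_large
    omega
  have hZ := p.Z_one
  have hX := p.X_one
  have hZ0 : (0 : ℝ) < p.Z := by exact_mod_cast hZ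
  have hX0 : (0 : ℝ) < p.X := by exact_mod_cast hX
  -- psd1 and psd2
  have q1 : ∀ x₁ u : ℤ, ∑ i ∈ Finset.range (s * (8 * p.H / (t * s))),
      ∑ i' ∈ Finset.range (s * (8 * p.H / (t * s))), cw f (t * s) p.m u (x₁ + t * i) (x₁ + t * i') ^ 2 ≤
        ((1 + p.η) * p.β) * ((s * (8 * p.H / (t * s)) : ℕ) : ℝ) ^ 2 := by
    intro x₁ u
    have h1 := psd1 f t s (8 * p.H / (t * s)) p.m hs hnb hm u x₁ ((1 + p.η) * p.β)
      (fun x => c.s1 (t * s) hb1 hts x u)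
    rwa [div_le_iff₀ (by positivity)] at h1
  have q2 := psd2 f p.H p.X p.Z t (s * (8 * p.H / (t * s))) hH hX hZ ht hn htn c.supp
  rw [c.dens, le_div_iff₀ (by positivity)] at q2
  obtain ⟨n, hndef⟩ : ∃ n, n = s * (8 * p.H / (t * s)) := ⟨_, rfl⟩
  rw [← hndef] at hn htn q1 q2 ⊢
  have hn0 : (0 : ℝ) < n := by exact_mod_cast hn
  obtain ⟨b, hbdef⟩ : ∃ b, b = t * s := ⟨_, rfl⟩
  rw [← hbdef] at hb1 hts q1 ⊢
  rw [div_le_iff₀ (by positivity)]
  -- pointwise bound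
  have h1 : ∀ x₁ : ℤ, ∑ i ∈ Finset.range n, ∑ i' ∈ Finset.range n,
      Yv f p.Z b p.m (x₁ + t * i) (x₁ + t * i') ≤
        ((p.Z : ℝ) + ((b * p.m : ℕ) : ℝ)) * (((1 + p.η) * p.β) * (n : ℝ) ^ 2)
        - p.Z * (∑ i ∈ Finset.range n, ∑ i' ∈ Finset.range n, cg f p.Z (x₁ + t * i) (x₁ + t * i') ^ 2)
        + 2 * ((b * p.m : ℕ) : ℝ) * (n : ℝ) ^ 2 := by
    intro x₁
    have h2 : ∑ i ∈ Finset.range n, ∑ i' ∈ Finset.range n,
        Yv f p.Z b p.m (x₁ + t * i) (x₁ + t * i') ≤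
        ∑ i ∈ Finset.range n, ∑ i' ∈ Finset.range n,
          (∑ u ∈ Finset.Ico (-((b * p.m : ℕ) : ℤ)) p.Z, cw f b p.m u (x₁ + t * i) (x₁ + t * i') ^ 2
            - p.Z * cg f p.Z (x₁ + t * i) (x₁ + t * i') ^ 2 + 2 * ((b * p.m : ℕ) : ℝ)) :=
      Finset.sum_le_sum fun i _ => Finset.sum_le_sum fun i' _ =>
        yb_pt f p.Z b p.m hZ hm c.f01 (fun x z hz => c.supp x z (Or.inr (Or.inr hz))) _ _
    refine h2.trans ?_
    simp only [Finset.sum_add_distrib, Finset.sum_sub_distrib, Finset.sum_const, Finset.card_range,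
      nsmul_eq_mul, ← Finset.mul_sum]
    have h3 : ∑ i ∈ Finset.range n, ∑ i' ∈ Finset.range n,
        ∑ u ∈ Finset.Ico (-((b * p.m : ℕ) : ℤ)) p.Z, cw f b p.m u (x₁ + t * i) (x₁ + t * i') ^ 2 ≤
          ((p.Z : ℝ) + ((b * p.m : ℕ) : ℝ)) * (((1 + p.η) * p.β) * (n : ℝ) ^ 2) := by
      calc ∑ i ∈ Finset.range n, ∑ i' ∈ Finset.range n,
          ∑ u ∈ Finset.Ico (-((b * p.m : ℕ) : ℤ)) p.Z, cw f b p.m u (x₁ + t * i) (x₁ + t * i') ^ 2
          = ∑ u ∈ Finset.Ico (-((b * p.m : ℕ) : ℤ)) p.Z, ∑ i ∈ Finset.range n, ∑ i' ∈ Finset.range n,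
              cw f b p.m u (x₁ + t * i) (x₁ + t * i') ^ 2 := by
            rw [Finset.sum_comm (s := Finset.Ico (-((b * p.m : ℕ) : ℤ)) p.Z)]
            refine Finset.sum_congr rfl fun i _ => ?_
            rw [Finset.sum_comm]
        _ ≤ ∑ u ∈ Finset.Ico (-((b * p.m : ℕ) : ℤ)) p.Z, (((1 + p.η) * p.β) * (n : ℝ) ^ 2) :=
            Finset.sum_le_sum fun u _ => q1 x₁ u
        _ = ((p.Z : ℝ) + ((b * p.m : ℕ) : ℝ)) * (((1 + p.η) * p.β) * (n : ℝ) ^ 2) := by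
            rw [Finset.sum_const, Int.card_Ico, nsmul_eq_mul]
            have h4 : ((p.Z : ℤ) - -((b * p.m : ℕ) : ℤ)).toNat = p.Z + b * p.m := by omega
            rw [h4]
            push_cast
            ring
    nlinarith
  refine (Finset.sum_le_sum fun x₁ _ => h1 x₁).trans ?_
  simp only [Finset.sum_add_distrib, Finset.sum_sub_distrib, Finset.sum_const, nsmul_eq_mul,
    ← Finset.mul_sum]
  have hcard : ((Finset.Ico (-((8 * p.H : ℕ) : ℤ)) (p.X : ℤ)).card : ℝ) = (p.X : ℝ) + 8 * p.H := by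
    rw [Int.card_Ico]
    have h4 : ((p.X : ℤ) - -((8 * p.H : ℕ) : ℤ)).toNat = p.X + 8 * p.H := by omega
    rw [h4]
    push_cast
    ring
  rw [hcard]
  have hG : ((b * p.m : ℕ) : ℝ) ≤ p.η * p.β * p.Z / 10 ^ 5 := by
    refine le_trans ?_ p.edge_m
    have h5 : b * p.m ≤ p.Q2 * p.m := Nat.mul_le_mul_right _ hts
    exact_mod_cast h5
  have hnum := yb_num (p.X : ℝ) (p.Z : ℝ) (8 * p.H) ((b * p.m : ℕ) : ℝ) p.η p.β hX0 hZ0 (by positivity)
    (Nat.cast_nonneg _) p.hη p.hη1 p.hβ p.hβ1 p.edge_x hG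
  have h6 := mul_le_mul_of_nonneg_left q2 hZ0.le
  have h7 := mul_le_mul_of_nonneg_right hnum (sq_nonneg (n : ℝ))
  calc ((p.X : ℝ) + 8 * p.H) * (((p.Z : ℝ) + ((b * p.m : ℕ) : ℝ)) * (((1 + p.η) * p.β) * (n : ℝ) ^ 2))
        - p.Z * (∑ x₁ ∈ Finset.Ico (-((8 * p.H : ℕ) : ℤ)) (p.X : ℤ),
          ∑ i ∈ Finset.range n, ∑ i' ∈ Finset.range n, cg f p.Z (x₁ + t * i) (x₁ + t * i') ^ 2)
        + ((p.X : ℝ) + 8 * p.H) * (2 * ((b * p.m : ℕ) : ℝ) * (n : ℝ) ^ 2)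
      ≤ ((p.X : ℝ) + 8 * p.H) * (((p.Z : ℝ) + ((b * p.m : ℕ) : ℝ)) * (((1 + p.η) * p.β) * (n : ℝ) ^ 2))
        - p.Z * ((p.X : ℝ) ^ 2 * p.β / (p.X + 8 * p.H) * (n : ℝ) ^ 2)
        + ((p.X : ℝ) + 8 * p.H) * (2 * ((b * p.m : ℕ) : ℝ) * (n : ℝ) ^ 2) := by
        linarith
    _ = ((p.X + 8 * p.H) * (p.Z + ((b * p.m : ℕ) : ℝ)) * ((1 + p.η) * p.β)
        - p.Z * ((p.X : ℝ) ^ 2 * p.β / (p.X + 8 * p.H)) + 2 * ((b * p.m : ℕ) : ℝ) * (p.X + 8 * p.H)) *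
          (n : ℝ) ^ 2 := by ring
    _ ≤ 3 * p.η * p.β * p.X * p.Z * (n : ℝ) ^ 2 := h7

end Pool.Agent.AAR
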